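import Pool.Agent.Lib.MP_589a62_gt.Full.Comp
import Mathlib.Analysis.Complex.ExponentialBounds

/-!
# Components with three vertices, `m = 2`

Three unit vectors with squared sines `u, v <= 3/10` (along the two edges of the path) and `z`
(between the two ends), weights `a, b, d` in `[1/3, 1/2]` (the middle one is `b`).
-/

set_option autoImplicit false

open Matrix Finset MeasureTheory Set Real
open scoped ENNReal

namespace Pool.Agent.Lib.MP_589a62_gt.Full

/-- Binary quadratic forms. -/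
lemma c3_quad {α β γ u v : ℝ} (hα : 0 ≤ α) (hγ : 0 ≤ γ) (h : β ^ 2 ≤ 4 * α * γ) :
    0 ≤ α * u ^ 2 + β * u * v + γ * v ^ 2 := by
  have h0 : 0 ≤ α * u ^ 2 + γ * v ^ 2 := by positivity
  have h1 : (β * u * v) ^ 2 ≤ (α * u ^ 2 + γ * v ^ 2) ^ 2 := by
    have h2 : β ^ 2 * (u ^ 2 * v ^ 2) ≤ 4 * α * γ * (u ^ 2 * v ^ 2) :=
      mul_le_mul_of_nonneg_right h (by positivity)
    nlinarith [sq_nonneg (α * u ^ 2 - γ * v ^ 2)]
  have h3 := (abs_le.1 (abs_le_of_sq_le_sq h1 h0)).1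
  linarith

/-- **The weighted quadratic inequality for three unit vectors.** The weight `c1` is the smallest. -/
lemma c3_weighted {c1 c2 c3 y12 y13 y23 : ℝ} (h1 : 0 < c1) (h12 : c1 ≤ c2) (h13 : c1 ≤ c3)
    (hN : 0 ≤ 2 * (y12 * y13 + y12 * y23 + y13 * y23) - y12 ^ 2 - y13 ^ 2 - y23 ^ 2) :
    c1 * (c2 + c3) * (c1 * c2 * y12 ^ 2 + c1 * c3 * y13 ^ 2 + c2 * c3 * y23 ^ 2) ≤
      (c1 * c2 * y12 + c1 * c3 * y13 + c2 * c3 * y23) ^ 2 := by
  have h2 : 0 < c2 := by linarith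
  have h3 : 0 < c3 := by linarith
  have hq := c3_quad (α := c1 * c2 * c3 * ((c2 + c3) / 2 - c1))
    (β := c2 * c3 * c1 * (c2 - c3)) (γ := c2 * c3 * (c2 * c3 - c1 * (c2 + c3) / 2))
    (u := y12 - y13) (v := y23) (by
      have : 0 ≤ (c2 + c3) / 2 - c1 := by linarith
      positivity) (by
      have : 0 ≤ c2 * c3 - c1 * (c2 + c3) / 2 := by nlinarith
      positivity) (by
      have : 0 ≤ 2 * c1 * c2 ^ 2 * c3 ^ 2 * (c2 + c3) * ((c2 - c1) * (c3 - c1)) := by
        have : 0 ≤ (c2 - c1) * (c3 - c1) := mul_nonneg (by linarith) (by linarith)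
        positivity
      nlinarith)
  have hN2 : 0 ≤ c2 * c3 * (c1 * (c2 + c3)) / 2 *
      (2 * (y12 * y13 + y12 * y23 + y13 * y23) - y12 ^ 2 - y13 ^ 2 - y23 ^ 2) :=
    mul_nonneg (by positivity) hN
  nlinarith

/-- `u log u >= (u - 1) + 3/8 (u-1)^2` on `(0, 4/3]`. -/
lemma c3_log {u : ℝ} (hu : 0 < u) (hu1 : u ≤ 4 / 3) :
    (u - 1) + 3 / 8 * (u - 1) ^ 2 ≤ u * Real.log u := by
  rcases le_or_gt 1 u with h | h
  · have h1 := Large.log_ge_mid (u - 1) (by linarith)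
    have e : 1 + (u - 1) = u := by ring
    rw [e] at h1
    have h2 : u * (2 * (u - 1) / (2 + (u - 1))) ≤ u * Real.log u :=
      mul_le_mul_of_nonneg_left h1 hu.le
    refine le_trans ?_ h2
    have h3 : (0 : ℝ) < 2 + (u - 1) := by linarith
    rw [← mul_div_assoc, le_div_iff₀ h3]
    nlinarith [mul_nonneg (mul_nonneg (sub_nonneg.2 h) (sub_nonneg.2 h)) (sub_nonneg.2 hu1)]
  · have hw : 0 ≤ (1 - u) / u := div_nonneg (by linarith) hu.le
    have h1 := Large.log_le_trap ((1 - u) / u) hw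
    have e : 1 + (1 - u) / u = 1 / u := by field_simp; ring
    rw [e, Real.log_div one_ne_zero hu.ne', Real.log_one, zero_sub] at h1
    have e2 : (1 - u) / u * (2 + (1 - u) / u) / (2 * (1 / u)) = (1 - u ^ 2) / (2 * u) := by
      field_simp
      ring
    rw [e2] at h1
    have h2 : u * (-Real.log u) ≤ u * ((1 - u ^ 2) / (2 * u)) := mul_le_mul_of_nonneg_left h1 hu.le
    have e3 : u * ((1 - u ^ 2) / (2 * u)) = (1 - u ^ 2) / 2 := by field_simp
    rw [e3] at h2
    nlinarith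

lemma c3_log38 : (-0.98082926 : ℝ) ≤ Real.log (3 / 8) := by
  have e : Real.log (3 / 8) = Real.log 3 - 3 * Real.log 2 := by
    rw [Real.log_div (by norm_num) (by norm_num)]
    have : (8 : ℝ) = 2 ^ 3 := by norm_num
    rw [this, Real.log_pow]
    push_cast
    ring
  rw [e]
  have := Real.log_three_gt_d9
  have := Real.log_two_lt_d9
  linarith

/-- Quadratic bound of the gap at `3/8`. -/
lemma c3_gap {c : ℝ} (hc : 0 < c) (hc1 : c ≤ 1 / 2) :
    Large.gap 2 c ≤ 0.04930615 * c - 0.01523255 - 1 / 2 * (c - 3 / 8) ^ 2 := by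
  have h1 := c3_log (u := c / (3 / 8)) (by positivity) (by
    rw [div_le_iff₀ (by norm_num)]; linarith)
  rw [Real.log_div hc.ne' (by norm_num)] at h1
  have h2 := c3_log38
  have l3 := Real.log_three_lt_d9
  have l3' := Real.log_three_gt_d9
  have l2 := Real.log_two_gt_d9
  have l2' := Real.log_two_lt_d9
  have h5 : (c - 3 / 8) + (c - 3 / 8) ^ 2 ≤ c * (Real.log c - Real.log (3 / 8)) := by
    have e : c / (3 / 8) * (Real.log c - Real.log (3 / 8)) =
      8 / 3 * (c * (Real.log c - Real.log (3 / 8))) := by ring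
    rw [e] at h1
    nlinarith
  have h6 : c * (-0.98082926) ≤ c * Real.log (3 / 8) := mul_le_mul_of_nonneg_left h2 hc.le
  have e3 : (((2 : ℕ) : ℝ) + 1) = 3 := by norm_num
  unfold Large.gap
  rw [e3]
  push_cast
  have h7 : c * (3 * Real.log 2 - 2 * Real.log 3) ≥ c * (-0.1177830368) :=
    mul_le_mul_of_nonneg_left (by linarith) hc.le
  nlinarith

/-- Linear bound of the gap at `1/3`. -/
lemma c3_gap_lin {c : ℝ} (hc : 1 / 3 ≤ c) : Large.gap 2 c ≤ 0.1082 * (c - 1 / 3) := by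
  have hc0 : 0 < c := by linarith
  have h1 := Real.one_sub_inv_le_log_of_pos (x := 3 * c) (by positivity)
  rw [Real.log_mul (by norm_num) hc0.ne'] at h1
  have h2 : c * (1 - (3 * c)⁻¹) ≤ c * (Real.log 3 + Real.log c) := mul_le_mul_of_nonneg_left h1 hc0.le
  have e1 : c * (1 - (3 * c)⁻¹) = c - 1 / 3 := by field_simp
  rw [e1] at h2
  have l3 := Real.log_three_lt_d9
  have l2 := Real.log_two_gt_d9
  have e3 : (((2 : ℕ) : ℝ) + 1) = 3 := by norm_num
  unfold Large.gap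
  rw [e3]
  push_cast
  nlinarith

lemma c3_geom {u v z : ℝ} (hu0 : 0 ≤ u) (hu : u ≤ 3 / 10) (hv0 : 0 ≤ v) (hv : v ≤ 3 / 10)
    (hz : 0 ≤ z)
    (hN : 4 * (u * v * z) ≤ 2 * (u * v + u * z + v * z) - u ^ 2 - v ^ 2 - z ^ 2) :
    z ≤ 4 / 5 * (u + v) + 9 / 25 := by
  rcases hz.eq_or_lt with h | h
  · rw [← h]; positivity
  have h1 : z * z ≤ z * (2 * (u + v) - 4 * (u * v)) := by nlinarith [sq_nonneg (u - v)]
  have h2 : z ≤ 2 * (u + v) - 4 * (u * v) := le_of_mul_le_mul_left h1 h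
  nlinarith [mul_nonneg (sub_nonneg.2 hu) (sub_nonneg.2 hv)]

/-- The case of a wide triple. -/
lemma c3_alpha {a b d u v z : ℝ} (ha : 1 / 3 ≤ a) (hb : 1 / 3 ≤ b)
    (hb1 : b ≤ 1 / 2) (hd1 : d ≤ 1 / 2) (had : a ≤ d)
    (hu0 : 0 ≤ u) (hu : u ≤ 3 / 10) (hv0 : 0 ≤ v) (hv : v ≤ 3 / 10) (hz : 17 / 25 ≤ z)
    (hg : z ≤ 4 / 5 * (u + v) + 9 / 25)
    (hC : a + b + d - 1 ≤ a * b * u + b * d * v + a * d * z) :
    0.04930615 * (a + b + d) - 0.04569765 - 1 / 2 * ((a - 3 / 8) ^ 2 + (b - 3 / 8) ^ 2 +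
      (d - 3 / 8) ^ 2) ≤
      0.1322 * ((a * b * u + b * d * v + a * d * z) - (a * b * u ^ 2 + b * d * v ^ 2 + a * d * z ^ 2)) +
      0.01793 * ((a + b + d) - (a + b + d) ^ 2 + 2 * (a * b * u + b * d * v + a * d * z)) := by
  have ha0 : 0 < a := by linarith
  have hb0 : 0 < b := by linarith
  have hd0 : 0 < d := by linarith
  have h1 : 7 / 10 * (a * b * u) ≤ a * b * u - a * b * u ^ 2 := by
    have : 0 ≤ a * b * u * (3 / 10 - u) :=
      mul_nonneg (by positivity) (sub_nonneg.2 hu)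
    nlinarith
  have h2 : 7 / 10 * (b * d * v) ≤ b * d * v - b * d * v ^ 2 := by
    have : 0 ≤ b * d * v * (3 / 10 - v) :=
      mul_nonneg (by positivity) (sub_nonneg.2 hv)
    nlinarith
  have h3 : a * b * v ≤ b * d * v := by
    have : 0 ≤ b * v * (d - a) := mul_nonneg (by positivity) (sub_nonneg.2 had)
    nlinarith
  have h4 : a * b * (5 / 4 * z - 9 / 20) ≤ a * b * (u + v) :=
    mul_le_mul_of_nonneg_left (by linarith) (by positivity)
  have hz1 : z ≤ 21 / 25 := by linarith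
  have h5 : 0 ≤ (z - 17 / 25) * a * (7 / 8 * b - d * (z - 8 / 25)) := by
    have h6 : d * (z - 8 / 25) ≤ 1 / 2 * (13 / 25) := by
      apply mul_le_mul hd1 (by linarith) (by linarith) (by norm_num)
    have h7 : 0 ≤ 7 / 8 * b - d * (z - 8 / 25) := by linarith
    exact mul_nonneg (mul_nonneg (sub_nonneg.2 hz) ha0.le) h7
  have h8 : 0.28 * (a * b) + 0.2176 * (a * d) ≤
      (a * b * u + b * d * v + a * d * z) - (a * b * u ^ 2 + b * d * v ^ 2 + a * d * z ^ 2) := by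
    nlinarith
  have h9 : 0.04930615 * (a + b + d) - 0.04569765 - 1 / 2 * ((a - 3 / 8) ^ 2 + (b - 3 / 8) ^ 2 +
      (d - 3 / 8) ^ 2) ≤ 0.1322 * (0.28 * (a * b) + 0.2176 * (a * d)) +
      0.01793 * (a + b + d - 1) * (2 - (a + b + d)) := by
    nlinarith [sq_nonneg (a - 0.38678), sq_nonneg (b - 0.39878), sq_nonneg (d - 0.40197),
      sq_nonneg ((a - 0.38678) - (b - 0.39878)), sq_nonneg ((a - 0.38678) - (d - 0.40197)),
      sq_nonneg ((b - 0.39878) - (d - 0.40197)), sq_nonneg ((a - 0.38678) + (b - 0.39878)),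
      sq_nonneg ((a - 0.38678) + (d - 0.40197))]
  nlinarith

lemma c3_beta {a b d u v z : ℝ} (ha : 1 / 3 ≤ a) (hb : 1 / 3 ≤ b) (hd : 1 / 3 ≤ d)
    (hu0 : 0 ≤ u) (hu : u ≤ 3 / 10) (hv0 : 0 ≤ v) (hv : v ≤ 3 / 10) (hz0 : 0 ≤ z)
    (hz : z ≤ 17 / 25)
    (hC : a + b + d - 1 ≤ a * b * u + b * d * v + a * d * z)
    (hD : 4 / 25 ≤ a * b * u + b * d * v + a * d * z) :
    0.04930615 * (a + b + d) - 0.04569765 - 1 / 2 * ((a - 3 / 8) ^ 2 + (b - 3 / 8) ^ 2 +
      (d - 3 / 8) ^ 2) ≤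
      0.1322 * ((a * b * u + b * d * v + a * d * z) - (a * b * u ^ 2 + b * d * v ^ 2 + a * d * z ^ 2)) +
      0.01793 * ((a + b + d) - (a + b + d) ^ 2 + 2 * (a * b * u + b * d * v + a * d * z)) := by
  have ha0 : 0 < a := by linarith
  have hb0 : 0 < b := by linarith
  have hd0 : 0 < d := by linarith
  have h1 : 7 / 10 * (a * b * u) ≤ a * b * u - a * b * u ^ 2 := by
    have : 0 ≤ a * b * u * (3 / 10 - u) :=
      mul_nonneg (by positivity) (sub_nonneg.2 hu)
    nlinarith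
  have h2 : 7 / 10 * (b * d * v) ≤ b * d * v - b * d * v ^ 2 := by
    have : 0 ≤ b * d * v * (3 / 10 - v) :=
      mul_nonneg (by positivity) (sub_nonneg.2 hv)
    nlinarith
  have h3 : 7 / 10 * (a * d * z) - 0.2584 * (a * d) ≤ a * d * z - a * d * z ^ 2 := by
    have : 0 ≤ a * d * ((17 / 25 - z) * (z + 19 / 50)) :=
      mul_nonneg (by positivity) (mul_nonneg (sub_nonneg.2 hz) (by linarith))
    nlinarith
  set D := a * b * u + b * d * v + a * d * z with hDdef
  have h4 : 7 / 10 * D - 0.2584 * (a * d) ≤ D - (a * b * u ^ 2 + b * d * v ^ 2 + a * d * z ^ 2) := by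
    linarith
  have h5 : 0.04930615 * (a + b + d) - 0.04569765 - 1 / 2 * ((a - 3 / 8) ^ 2 + (b - 3 / 8) ^ 2 +
      (d - 3 / 8) ^ 2) ≤ 0.1322 * (7 / 10 * D - 0.2584 * (a * d)) +
      0.01793 * ((a + b + d) - (a + b + d) ^ 2 + 2 * D) := by
    rcases le_or_gt (a + b + d) (29 / 25) with hT | hT
    · nlinarith [sq_nonneg (a - 0.39112), sq_nonneg (d - 0.39112), sq_nonneg (b - 0.37776),
        sq_nonneg (a - d), sq_nonneg ((a - 0.39112) + (b - 0.37776)),
        sq_nonneg ((d - 0.39112) + (b - 0.37776)), sq_nonneg (a + b + d - 1.16)]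
    · nlinarith [sq_nonneg (a - 0.39112), sq_nonneg (d - 0.39112), sq_nonneg (b - 0.37776),
        sq_nonneg (a - d), sq_nonneg ((a - 0.39112) + (b - 0.37776)),
        sq_nonneg ((d - 0.39112) + (b - 0.37776)), sq_nonneg (a + b + d - 1.16)]
  linarith

lemma c3_poly {s e : ℝ} (hs : 3 / 50 ≤ s) (hs1 : s ≤ 4 / 25) (he : 0 ≤ e) (he1 : e ≤ s / 3) :
    0.1322 * s ^ 2 ≤ (2 / 9 * (1 + s) ^ 2 - e * (1 + s) / 3 - e ^ 2) *
      (-0.0010044 + 0.0591572 * s + 0.1487366 * s ^ 2 + 3 / 4 * e ^ 2) := by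
  have h1 : 0.1322 * s ^ 2 + 0.0002 ≤ 2 / 9 * (1 + s) ^ 2 *
      (-0.0010044 + 0.0591572 * s + 0.1487366 * s ^ 2) := by
    nlinarith [mul_nonneg (sub_nonneg.2 hs) (sub_nonneg.2 hs1),
      mul_nonneg (mul_nonneg (sub_nonneg.2 hs) (sub_nonneg.2 hs1)) (by linarith : (0 : ℝ) ≤ s),
      mul_nonneg (mul_nonneg (sub_nonneg.2 hs) (sub_nonneg.2 hs1)) (sq_nonneg s)]
  have hW : -0.0010044 + 0.0591572 * s + 0.1487366 * s ^ 2 ≤ 0.0123 := by nlinarith
  have hW0 : 0 ≤ -0.0010044 + 0.0591572 * s + 0.1487366 * s ^ 2 := by nlinarith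
  have hk : 0.24 ≤ 2 / 9 * (1 + s) ^ 2 - e * (1 + s) / 3 - e ^ 2 := by nlinarith
  have h2 : (e * (1 + s) / 3 + e ^ 2) ≤ 0.45 * e := by nlinarith
  have h3 : (e * (1 + s) / 3 + e ^ 2) * (-0.0010044 + 0.0591572 * s + 0.1487366 * s ^ 2) ≤
      0.45 * e * 0.0123 := mul_le_mul h2 hW hW0 (by positivity)
  have h4 : 0.24 * (3 / 4 * e ^ 2) ≤ (2 / 9 * (1 + s) ^ 2 - e * (1 + s) / 3 - e ^ 2) *
      (3 / 4 * e ^ 2) := mul_le_mul_of_nonneg_right hk (by positivity)
  nlinarith [sq_nonneg (e - 0.0154)]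

/-- The case of a small total area. -/
lemma c3_gamma {c1 c2 c3 D Q : ℝ} (h1 : 1 / 3 ≤ c1) (h12 : c1 ≤ c2) (h13 : c1 ≤ c3)
    (h2' : c2 ≤ 1 / 2) (h3' : c3 ≤ 1 / 2)
    (hQ : c1 * (c2 + c3) * Q ≤ D ^ 2) (hC : c1 + c2 + c3 - 1 ≤ D) (hD : D ≤ 4 / 25) :
    Large.gap 2 c1 + Large.gap 2 c2 + Large.gap 2 c3 ≤
      0.1322 * (D - Q) +
      0.01793 * ((c1 + c2 + c3) - (c1 + c2 + c3) ^ 2 + 2 * D) := by
  set s := c1 + c2 + c3 - 1 with hs
  have hs0 : 0 ≤ s := by rw [hs]; linarith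
  have hs1 : s ≤ 4 / 25 := hC.trans hD
  set κ := c1 * (c2 + c3) with hκ
  have e23 : c2 + c3 = s + 1 - c1 := by rw [hs]; ring
  have hc1 : c1 ≤ (s + 1) / 3 := by rw [hs]; linarith
  have hκ1 : (s + 2 / 3) / 3 ≤ κ := by
    rw [hκ, e23]; nlinarith
  have hκ0 : 0 < κ := by linarith
  -- monotonicity in D
  have hm : 0.1322 * (s * κ - s ^ 2) + 0.03586 * s * κ ≤
      κ * (0.1322 * (D - Q) + 0.03586 * D) := by
    have h4 : 0 ≤ (D - s) * (0.16806 * κ - 0.1322 * (D + s)) := by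
      apply mul_nonneg (by linarith)
      nlinarith
    nlinarith
  have hT : c1 + c2 + c3 = 1 + s := by rw [hs]; ring
  rw [hT]
  suffices h : κ * (Large.gap 2 c1 + Large.gap 2 c2 + Large.gap 2 c3) ≤
      κ * (0.1322 * (D - Q) + 0.01793 * ((1 + s) - (1 + s) ^ 2 + 2 * D)) from
    le_of_mul_le_mul_left h hκ0
  rcases le_or_gt s (3 / 50) with h | h
  · have g1 := c3_gap_lin h1
    have g2 := c3_gap_lin (h1.trans h12)
    have g3 := c3_gap_lin (h1.trans h13)
    have g : Large.gap 2 c1 + Large.gap 2 c2 + Large.gap 2 c3 ≤ 0.1082 * s := by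
      rw [hs]; linarith
    have h5 : κ * (Large.gap 2 c1 + Large.gap 2 c2 + Large.gap 2 c3) ≤ κ * (0.1082 * s) :=
      mul_le_mul_of_nonneg_left g hκ0.le
    have h6 : 0 ≤ s * (κ * (0.024 + 0.01793 * (1 - s)) - 0.1322 * s) := by
      apply mul_nonneg hs0
      nlinarith [mul_nonneg hs0 (sub_nonneg.2 h)]
    nlinarith
  · have g1 := c3_gap (c := c1) (by linarith) (by linarith)
    have g2 := c3_gap (c := c2) (by linarith) h2'
    have g3 := c3_gap (c := c3) (by linarith) h3'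
    have he1 : (1 + s) / 3 - c1 ≤ s / 3 := by linarith
    have hp := c3_poly (s := s) (e := (1 + s) / 3 - c1) h.le hs1 (by linarith) he1
    have e1 : 2 / 9 * (1 + s) ^ 2 - ((1 + s) / 3 - c1) * (1 + s) / 3 - ((1 + s) / 3 - c1) ^ 2 = κ := by
      rw [hκ, e23]; ring
    rw [e1] at hp
    have h7 : (c2 + c3 - 3 / 4) ^ 2 / 2 ≤ (c2 - 3 / 8) ^ 2 + (c3 - 3 / 8) ^ 2 := by
      nlinarith [sq_nonneg (c2 - c3)]
    have g : Large.gap 2 c1 + Large.gap 2 c2 + Large.gap 2 c3 ≤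
        0.04930615 * (1 + s) - 0.04569765 - 1 / 2 * ((c1 - 3 / 8) ^ 2 +
          (s + 1 - c1 - 3 / 4) ^ 2 / 2) := by
      rw [← e23]
      have : (1 + s) = c1 + c2 + c3 := hT.symm
      rw [this]
      linarith
    have h5 := mul_le_mul_of_nonneg_left g hκ0.le
    have h8 : κ * (0.04930615 * (1 + s) - 0.04569765 - 1 / 2 * ((c1 - 3 / 8) ^ 2 +
          (s + 1 - c1 - 3 / 4) ^ 2 / 2)) ≤ 0.1322 * (s * κ - s ^ 2) + 0.01793 * s * (1 - s) * κ := by
      nlinarith
    nlinarith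

/-- **Three vertices, real form.** -/
theorem c3_real {a b d u v z : ℝ} (ha : 1 / 3 ≤ a) (hb : 1 / 3 ≤ b) (hd : 1 / 3 ≤ d)
    (ha1 : a ≤ 1 / 2) (hb1 : b ≤ 1 / 2) (hd1 : d ≤ 1 / 2)
    (hu0 : 0 ≤ u) (hu : u ≤ 3 / 10) (hv0 : 0 ≤ v) (hv : v ≤ 3 / 10) (hz0 : 0 ≤ z)
    (hN : 4 * (u * v * z) ≤ 2 * (u * v + u * z + v * z) - u ^ 2 - v ^ 2 - z ^ 2)
    (hC : a + b + d - 1 ≤ a * b * u + b * d * v + a * d * z) :
    Large.gap 2 a + Large.gap 2 b + Large.gap 2 d ≤
      0.1322 * ((a * b * u + b * d * v + a * d * z) - (a * b * u ^ 2 + b * d * v ^ 2 + a * d * z ^ 2)) +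
      0.01793 * ((a + b + d) - (a + b + d) ^ 2 + 2 * (a * b * u + b * d * v + a * d * z)) := by
  have hg := c3_geom hu0 hu hv0 hv hz0 hN
  have g1 := c3_gap (c := a) (by linarith) ha1
  have g2 := c3_gap (c := b) (by linarith) hb1
  have g3 := c3_gap (c := d) (by linarith) hd1
  have hN0 : 0 ≤ 2 * (u * v + u * z + v * z) - u ^ 2 - v ^ 2 - z ^ 2 := by
    have : 0 ≤ 4 * (u * v * z) := by positivity
    linarith
  rcases le_or_gt (17 / 25) z with hz | hz
  · rcases le_total a d with had | had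
    · have h := c3_alpha ha hb hb1 hd1 had hu0 hu hv0 hv hz hg hC
      linarith
    · have h := c3_alpha (a := d) (b := b) (d := a) (u := v) (v := u) hd hb hb1 ha1 had hv0 hv hu0 hu
        hz (by linarith) (by linarith)
      have e1 : d * b * v + b * a * u + d * a * z = a * b * u + b * d * v + a * d * z := by ring
      have e2 : d * b * v ^ 2 + b * a * u ^ 2 + d * a * z ^ 2 =
        a * b * u ^ 2 + b * d * v ^ 2 + a * d * z ^ 2 := by ring
      have e3 : d + b + a = a + b + d := by ring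
      rw [e1, e2, e3] at h
      linarith
  · rcases le_or_gt (4 / 25) (a * b * u + b * d * v + a * d * z) with hD | hD
    · have h := c3_beta ha hb hd hu0 hu hv0 hv hz0 hz.le hC hD
      linarith
    · rcases le_total a b with hab | hab
      · rcases le_total a d with had | had
        · have hw := c3_weighted (c1 := a) (c2 := b) (c3 := d) (y12 := u) (y13 := z) (y23 := v)
            (by linarith) hab had (by linarith)
          have h := c3_gamma (c1 := a) (c2 := b) (c3 := d) (D := a * b * u + b * d * v + a * d * z)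
            (Q := a * b * u ^ 2 + b * d * v ^ 2 + a * d * z ^ 2) ha hab had hb1 hd1 (by linarith)
            hC hD.le
          linarith
        · have hw := c3_weighted (c1 := d) (c2 := a) (c3 := b) (y12 := z) (y13 := v) (y23 := u)
            (by linarith) had (by linarith) (by linarith)
          have h := c3_gamma (c1 := d) (c2 := a) (c3 := b) (D := a * b * u + b * d * v + a * d * z)
            (Q := a * b * u ^ 2 + b * d * v ^ 2 + a * d * z ^ 2) hd had (by linarith) ha1 hb1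
            (by nlinarith) (by linarith) hD.le
          have e3 : d + a + b = a + b + d := by ring
          rw [e3] at h
          linarith
      · rcases le_total b d with hbd | hbd
        · have hw := c3_weighted (c1 := b) (c2 := a) (c3 := d) (y12 := u) (y13 := v) (y23 := z)
            (by linarith) hab hbd (by linarith)
          have h := c3_gamma (c1 := b) (c2 := a) (c3 := d) (D := a * b * u + b * d * v + a * d * z)
            (Q := a * b * u ^ 2 + b * d * v ^ 2 + a * d * z ^ 2) hb hab hbd ha1 hd1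
            (by nlinarith) (by linarith) hD.le
          have e3 : b + a + d = a + b + d := by ring
          rw [e3] at h
          linarith
        · have hw := c3_weighted (c1 := d) (c2 := a) (c3 := b) (y12 := z) (y13 := v) (y23 := u)
            (by linarith) (by linarith) hbd (by linarith)
          have h := c3_gamma (c1 := d) (c2 := a) (c3 := b) (D := a * b * u + b * d * v + a * d * z)
            (Q := a * b * u ^ 2 + b * d * v ^ 2 + a * d * z ^ 2) hd (by linarith) hbd ha1 hb1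
            (by nlinarith) (by linarith) hD.le
          have e3 : d + a + b = a + b + d := by ring
          rw [e3] at h
          linarith

lemma c3_RC {z : ℝ} (h0 : 1 / 2 ≤ z) (h1 : z ≤ 2 / 3) : 0.1322 ≤ RC z := by
  unfold RC
  nlinarith [mul_nonneg (sub_nonneg.2 h0) (sub_nonneg.2 h1),
    mul_nonneg (mul_nonneg (sub_nonneg.2 h0) (sub_nonneg.2 h1)) (by linarith : (0 : ℝ) ≤ z),
    mul_nonneg (mul_nonneg (sub_nonneg.2 h0) (sub_nonneg.2 h1)) (sq_nonneg z),
    mul_nonneg (mul_nonneg (mul_nonneg (sub_nonneg.2 h0) (sub_nonneg.2 h1))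
      (by linarith : (0 : ℝ) ≤ z)) (sq_nonneg z)]

lemma c3_RD {z : ℝ} (h0 : 1 / 2 ≤ z) (h1 : z ≤ 2 / 3) : 0.11954 ≤ RD z := by
  unfold RD
  nlinarith [mul_nonneg (sub_nonneg.2 h0) (sub_nonneg.2 h1),
    mul_nonneg (mul_nonneg (sub_nonneg.2 h0) (sub_nonneg.2 h1)) (by linarith : (0 : ℝ) ≤ z),
    mul_nonneg (mul_nonneg (sub_nonneg.2 h0) (sub_nonneg.2 h1)) (sq_nonneg z),
    mul_nonneg (mul_nonneg (mul_nonneg (sub_nonneg.2 h0) (sub_nonneg.2 h1))
      (by linarith : (0 : ℝ) ≤ z)) (sq_nonneg z)]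

/-- The Gram determinant in terms of squared sines. -/
lemma c3_gram {p q r x y z : ℝ} (hp : 0 < p) (hq : 0 < q) (hr : 0 < r)
    (hdet : 0 ≤ p * q * r + 2 * x * y * z - p * z ^ 2 - q * y ^ 2 - r * x ^ 2) {u v w : ℝ}
    (hu : x ^ 2 = p * q * (1 - u)) (hv : z ^ 2 = q * r * (1 - v)) (hw : y ^ 2 = p * r * (1 - w))
    (hS : u + v + w ≤ 2) :
    4 * (u * v * w) ≤ 2 * (u * v + u * w + v * w) - u ^ 2 - v ^ 2 - w ^ 2 := by
  have h0 : 0 < p * q * r := by positivity
  have h1 : p * q * r * (2 - (u + v + w)) ≤ 2 * (x * y * z) := by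
    have e1 : p * z ^ 2 = p * q * r * (1 - v) := by rw [hv]; ring
    have e2 : q * y ^ 2 = p * q * r * (1 - w) := by rw [hw]; ring
    have e3 : r * x ^ 2 = p * q * r * (1 - u) := by rw [hu]; ring
    rw [e1, e2, e3] at hdet
    linarith
  have h2 : 0 ≤ p * q * r * (2 - (u + v + w)) := mul_nonneg h0.le (by linarith)
  have h3 : (p * q * r * (2 - (u + v + w))) ^ 2 ≤ (2 * (x * y * z)) ^ 2 :=
    pow_le_pow_left₀ h2 h1 2
  have e : (2 * (x * y * z)) ^ 2 = (p * q * r) ^ 2 * (4 * ((1 - u) * (1 - v) * (1 - w))) := by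
    have : (2 * (x * y * z)) ^ 2 = 4 * (x ^ 2 * y ^ 2 * z ^ 2) := by ring
    rw [this, hu, hv, hw]
    ring
  rw [e, mul_pow] at h3
  have h4 : (2 - (u + v + w)) ^ 2 ≤ 4 * ((1 - u) * (1 - v) * (1 - w)) :=
    le_of_mul_le_mul_left h3 (by positivity)
  nlinarith

/-- **Three vertices forming a path, in terms of the frame.** -/
theorem clus_three_path {n k : ℕ} (U : Matrix (Fin n) (Fin k) ℝ) (hU : Uᵀ * U = 1)
    (hmax : IsMax 2 U) {a b d : Fin n} (hab : a ≠ b) (had : a ≠ d) (hbd : b ≠ d)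
    (h1 : 7 / 10 ≤ xx U a b) (h2 : 7 / 10 ≤ xx U b d) (C : Finset (Fin n)) (hC : C = {a, b, d})
    (hout : ∀ i ∈ C, ∀ j ∈ Cᶜ, xx U i j ≤ 7 / 10) :
    ∑ i ∈ C, Large.gap 2 (rowSq U i) ≤ ∑ i ∈ C, (1 / 2 * RC (1 - rowSq U i) *
      (∑ j ∈ C, kk U i j * (1 - xx U i j)) + 1 / 2 * RD (1 - rowSq U i) *
      (∑ j ∈ Cᶜ, kk U i j * (1 - xx U i j))) := by
  have hlo : ∀ i, 1 / 3 ≤ rowSq U i := by
    intro i
    have h := crit_lower (m := 2) (by norm_num) U hU hmax i
    norm_num at h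
    linarith
  have hhi : ∀ i, rowSq U i ≤ 1 / 2 := by
    intro i
    have h := crit_upper (m := 2) (by norm_num) U hU hmax i
    norm_num at h
    linarith
  have hpos : ∀ i, 0 < rowSq U i := fun i => by linarith [hlo i]
  have hkx : ∀ i j, kk U i j = rowSq U i * rowSq U j * xx U i j := by
    intro i j
    unfold xx
    have := (hpos i).ne'
    have := (hpos j).ne'
    field_simp
  have hx1 : ∀ i j, xx U i j ≤ 1 := by
    intro i j
    unfold xx
    rw [div_le_one (mul_pos (hpos i) (hpos j))]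
    exact kk_le U i j
  have hx0 : ∀ i j, 0 ≤ xx U i j := fun i j =>
    div_nonneg (kk_nonneg U i j) (mul_nonneg (hpos i).le (hpos j).le)
  have hxs : ∀ i, xx U i i = 1 := by
    intro i
    unfold xx
    rw [kk_self, sq]
    exact div_self (mul_pos (hpos i) (hpos i)).ne'
  -- the real statement
  set A := rowSq U a with hA
  set B := rowSq U b with hB
  set D := rowSq U d with hD
  set u := 1 - xx U a b with hu
  set v := 1 - xx U b d with hv
  set z := 1 - xx U a d with hz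
  have hkd : ∀ i j, kd U i j ^ 2 = rowSq U i * rowSq U j * xx U i j := by
    intro i j
    rw [← hkx, kk_eq_dot]
    rfl
  have hdet := det_three_nonneg (p := A) (q := B) (r := D) (x := kd U a b) (y := kd U a d)
    (z := kd U b d) (fun s t w => three_nonneg U a b d s t w)
  have hN := c3_gram (hpos a) (hpos b) (hpos d) hdet (u := u) (v := v) (w := z)
    (by rw [hkd, hu]; ring) (by rw [hkd, hv]; ring) (by rw [hkd, hz]; ring)
    (by rw [hu, hv, hz]; linarith [hx0 a d])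
  have htri := triple U hU hab had hbd
  rw [hkx a b, hkx a d, hkx b d] at htri
  have hreal := c3_real (a := A) (b := B) (d := D) (u := u) (v := v) (z := z)
    (hlo a) (hlo b) (hlo d) (hhi a) (hhi b) (hhi d) (by rw [hu]; linarith [hx1 a b])
    (by rw [hu]; linarith) (by rw [hv]; linarith [hx1 b d]) (by rw [hv]; linarith)
    (by rw [hz]; linarith [hx1 a d]) (by linarith)
    (by rw [hu, hv, hz]; linarith)
  -- sums over `C`
  have hsum : ∀ f : Fin n → ℝ, ∑ i ∈ C, f i = f a + f b + f d := by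
    intro f
    rw [hC, Finset.sum_insert (by simp [hab, had]), Finset.sum_insert (by simp [hbd]),
      Finset.sum_singleton, add_assoc]
  have hmem : a ∈ C ∧ b ∈ C ∧ d ∈ C := by rw [hC]; simp
  -- the outer edges
  have hO : ∀ i ∈ C, 3 / 10 * (rowSq U i - ∑ j ∈ C, kk U i j) ≤
      ∑ j ∈ Cᶜ, kk U i j * (1 - xx U i j) := by
    intro i hi
    have e : rowSq U i - ∑ j ∈ C, kk U i j = ∑ j ∈ Cᶜ, kk U i j := by
      have h := Finset.sum_add_sum_compl C fun j => kk U i j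
      rw [sum_kk U hU i] at h
      linarith
    rw [e, Finset.mul_sum]
    refine Finset.sum_le_sum fun j hj => ?_
    have h := hout i hi j hj
    have h' := kk_nonneg U i j
    nlinarith
  have hI0 : ∀ i, 0 ≤ ∑ j ∈ C, kk U i j * (1 - xx U i j) := fun i =>
    Finset.sum_nonneg fun j _ => mul_nonneg (kk_nonneg U i j) (by linarith [hx1 i j])
  have hO0 : ∀ i, 0 ≤ ∑ j ∈ Cᶜ, kk U i j * (1 - xx U i j) := fun i =>
    Finset.sum_nonneg fun j _ => mul_nonneg (kk_nonneg U i j) (by linarith [hx1 i j])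
  have hrow : ∀ i ∈ C, 0.0661 * (∑ j ∈ C, kk U i j * (1 - xx U i j)) +
      0.01793 * (rowSq U i - ∑ j ∈ C, kk U i j) ≤ 1 / 2 * RC (1 - rowSq U i) *
      (∑ j ∈ C, kk U i j * (1 - xx U i j)) + 1 / 2 * RD (1 - rowSq U i) *
      (∑ j ∈ Cᶜ, kk U i j * (1 - xx U i j)) := by
    intro i hi
    have hc := c3_RC (z := 1 - rowSq U i) (by linarith [hhi i]) (by linarith [hlo i])
    have hd := c3_RD (z := 1 - rowSq U i) (by linarith [hhi i]) (by linarith [hlo i])
    have e1 : 0.0661 * (∑ j ∈ C, kk U i j * (1 - xx U i j)) ≤ 1 / 2 * RC (1 - rowSq U i) *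
      (∑ j ∈ C, kk U i j * (1 - xx U i j)) := mul_le_mul_of_nonneg_right (by linarith) (hI0 i)
    have e2 : 0.05977 * (∑ j ∈ Cᶜ, kk U i j * (1 - xx U i j)) ≤ 1 / 2 * RD (1 - rowSq U i) *
      (∑ j ∈ Cᶜ, kk U i j * (1 - xx U i j)) := mul_le_mul_of_nonneg_right (by linarith) (hO0 i)
    have e3 := hO i hi
    have e4 : 0 ≤ rowSq U i - ∑ j ∈ C, kk U i j := by
      have e : rowSq U i - ∑ j ∈ C, kk U i j = ∑ j ∈ Cᶜ, kk U i j := by
        have h := Finset.sum_add_sum_compl C fun j => kk U i j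
        rw [sum_kk U hU i] at h
        linarith
      rw [e]
      exact Finset.sum_nonneg fun j _ => kk_nonneg U i j
    linarith
  refine le_trans ?_ (Finset.sum_le_sum hrow)
  rw [hsum, hsum, hsum, hsum, hsum, hsum, hsum, hsum, kk_symm U b a, kk_symm U d a, kk_symm U d b,
    xx_symm U b a, xx_symm U d a, xx_symm U d b, hxs, hxs, hxs, kk_self, kk_self, kk_self,
    hkx a b, hkx a d, hkx b d]
  have eu : xx U a b = 1 - u := by rw [hu]; ring
  have ev : xx U b d = 1 - v := by rw [hv]; ring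
  have ez : xx U a d = 1 - z := by rw [hz]; ring
  rw [eu, ev, ez, ← hA, ← hB, ← hD]
  nlinarith [hreal]

/-- **Components with three vertices** (the statement (H3) of `FI_two`, three vertices). -/
theorem clus_three {n k : ℕ} (U : Matrix (Fin n) (Fin k) ℝ) (hU : Uᵀ * U = 1)
    (hmax : IsMax 2 U) (C : Finset (Fin n)) (hcard : C.card = 3)
    (hcl : ∀ i ∈ C, ∀ l, (nearG U (7 / 10)).Adj i l → l ∈ C)
    (hre : ∀ i ∈ C, ∀ j ∈ C, (nearG U (7 / 10)).Reachable i j) :
    ∑ i ∈ C, Large.gap 2 (rowSq U i) ≤ ∑ i ∈ C, (1 / 2 * RC (1 - rowSq U i) *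
      (∑ j ∈ C, kk U i j * (1 - xx U i j)) + 1 / 2 * RD (1 - rowSq U i) *
      (∑ j ∈ Cᶜ, kk U i j * (1 - xx U i j))) := by
  have hout : ∀ i ∈ C, ∀ j ∈ Cᶜ, xx U i j ≤ 7 / 10 := by
    intro i hi j hj
    by_contra h
    push Not at h
    have hij : i ≠ j := by
      rintro rfl
      exact (Finset.mem_compl.1 hj) hi
    exact (Finset.mem_compl.1 hj) (hcl i hi j ⟨hij, h.le⟩)
  obtain ⟨a, b, d, hab, had, hbd, hC⟩ := Finset.card_eq_three.1 hcard
  have haC : a ∈ C := by rw [hC]; simp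
  have hbC : b ∈ C := by rw [hC]; simp
  have hdC : d ∈ C := by rw [hC]; simp
  -- every vertex has a neighbour in `C`
  have hnb : ∀ i ∈ C, ∀ j ∈ C, i ≠ j → ∃ l ∈ C, (nearG U (7 / 10)).Adj i l := by
    intro i hi j hj hij
    obtain ⟨w⟩ := hre i hi j hj
    cases w with
    | nil => exact absurd rfl hij
    | cons h p => exact ⟨_, hcl i hi _ h, h⟩
  have hmem : ∀ l ∈ C, l = a ∨ l = b ∨ l = d := by
    intro l hl
    rw [hC] at hl
    simpa using hl
  have key : ∀ x y w : Fin n, x ≠ y → x ≠ w → y ≠ w → C = {x, y, w} →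
      (nearG U (7 / 10)).Adj x y → (nearG U (7 / 10)).Adj y w →
      ∑ i ∈ C, Large.gap 2 (rowSq U i) ≤ ∑ i ∈ C, (1 / 2 * RC (1 - rowSq U i) *
      (∑ j ∈ C, kk U i j * (1 - xx U i j)) + 1 / 2 * RD (1 - rowSq U i) *
      (∑ j ∈ Cᶜ, kk U i j * (1 - xx U i j))) := by
    intro x y w hxy hxw hyw hCe h1 h2
    exact clus_three_path U hU hmax hxy hxw hyw h1.2 h2.2 C hCe hout
  obtain ⟨l, hl, hal⟩ := hnb a haC b hbC hab
  obtain ⟨l', hl', hdl⟩ := hnb d hdC a haC had.symm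
  obtain ⟨l'', hl'', hbl⟩ := hnb b hbC a haC hab.symm
  have c1 : (({b, a, d} : Finset (Fin n))) = {a, b, d} := by
    ext t; simp only [Finset.mem_insert, Finset.mem_singleton]; tauto
  have c2 : (({a, d, b} : Finset (Fin n))) = {a, b, d} := by
    ext t; simp only [Finset.mem_insert, Finset.mem_singleton]; tauto
  rcases hmem l hl with rfl | rfl | rfl
  · exact absurd rfl hal.ne
  · rcases hmem l' hl' with rfl | rfl | rfl
    · exact key _ _ _ hab.symm hbd had (by rw [hC, c1]) hal.symm hdl.symm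
    · exact key _ _ _ hab had hbd hC hal hdl.symm
    · exact absurd rfl hdl.ne
  · rcases hmem l'' hl'' with rfl | rfl | rfl
    · exact key _ _ _ hab.symm hbd had (by rw [hC, c1]) hbl hal
    · exact absurd rfl hbl.ne
    · exact key _ _ _ had hab hbd.symm (by rw [hC, c2]) hal hbl.symm

end Pool.Agent.Lib.MP_589a62_gt.Full
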