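import Pool.Agent.Lib.MP_589a62_gt.Full.Cross
import Mathlib.Combinatorics.SimpleGraph.Connectivity.Connected

/-!
# Components with at least four vertices in a graph of maximum degree two
-/

set_option autoImplicit false

namespace Pool.Agent.Lib.MP_589a62_gt.Full

lemma exists_leave {V : Type*} [DecidableEq V] (G : SimpleGraph V) (C S : Finset V)
    (hcl : ∀ i ∈ C, ∀ l, G.Adj i l → l ∈ C) (hre : ∀ i ∈ C, ∀ j ∈ C, G.Reachable i j)
    (hSC : S ⊆ C) (hcard : S.card < C.card) {i : V} (hi : i ∈ S) :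
    ∃ u v, G.Adj u v ∧ u ∈ S ∧ v ∈ C ∧ v ∉ S := by
  obtain ⟨f, hf, hfS⟩ := Finset.exists_mem_notMem_of_card_lt_card hcard
  obtain ⟨u, v, h1, -, h2, h3⟩ := exists_crossing G (· ∈ S) (hre i (hSC hi) f hf) hi hfS
  exact ⟨u, v, h1, h2, hcl u (hSC h2) v h1, h3⟩

theorem four_cases {V : Type*} [DecidableEq V] (G : SimpleGraph V) (C : Finset V)
    (h4 : 4 ≤ C.card) (hcl : ∀ i ∈ C, ∀ l, G.Adj i l → l ∈ C)
    (hre : ∀ i ∈ C, ∀ j ∈ C, G.Reachable i j)
    (hdeg : ∀ i a b d, G.Adj i a → G.Adj i b → G.Adj i d → a = b ∨ a = d ∨ b = d)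
    (i : V) (hi : i ∈ C) :
    (∃ a b d, a ∈ C ∧ b ∈ C ∧ d ∈ C ∧ a ≠ b ∧ i ≠ d ∧ a ≠ d ∧ G.Adj i a ∧ G.Adj i b ∧
      G.Adj b d ∧ ¬ G.Adj i d) ∨
    (∃ a b d, a ∈ C ∧ b ∈ C ∧ d ∈ C ∧ i ≠ b ∧ i ≠ d ∧ a ≠ d ∧ G.Adj i a ∧ G.Adj a b ∧
      G.Adj b d ∧ ∀ l, G.Adj i l → l = a) := by
  -- a neighbour of `i`
  obtain ⟨u, a, hua, hu, haC, hai⟩ := exists_leave G C {i} hcl hre (by simpa using hi)
    (by simp; omega) (Finset.mem_singleton_self i)
  obtain rfl := Finset.mem_singleton.1 hu
  have hai' : a ≠ u := by simpa using hai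
  by_cases hone : ∀ l, G.Adj u l → l = a
  · right
    have hsub2 : ({u, a} : Finset V) ⊆ C := by
      intro j hj
      simp only [Finset.mem_insert, Finset.mem_singleton] at hj
      rcases hj with rfl | rfl <;> assumption
    have hc2 : ({u, a} : Finset V).card < C.card := by
      have := Finset.card_le_two (a := u) (b := a)
      omega
    obtain ⟨w, b, hwb, hw, hbC, hb⟩ := exists_leave G C {u, a} hcl hre hsub2 hc2
      (i := u) (by simp)
    simp only [Finset.mem_insert, Finset.mem_singleton, not_or] at hw hb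
    have hab : G.Adj a b := by
      rcases hw with rfl | rfl
      · exact absurd (hone b hwb) hb.2
      · exact hwb
    have hsub3 : ({u, a, b} : Finset V) ⊆ C := by
      intro j hj
      simp only [Finset.mem_insert, Finset.mem_singleton] at hj
      rcases hj with rfl | rfl | rfl <;> assumption
    have hc3 : ({u, a, b} : Finset V).card < C.card := by
      have := Finset.card_le_three (a := u) (b := a) (c := b)
      omega
    obtain ⟨w', d, hwd, hw', hdC, hd⟩ := exists_leave G C {u, a, b} hcl hre hsub3 hc3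
      (i := u) (by simp)
    simp only [Finset.mem_insert, Finset.mem_singleton, not_or] at hw' hd
    have hbd : G.Adj b d := by
      rcases hw' with rfl | rfl | rfl
      · exact absurd (hone d hwd) hd.2.1
      · rcases hdeg w' u b d hua.symm hab hwd with h | h | h
        · exact absurd h.symm hb.1
        · exact absurd h.symm hd.1
        · exact absurd h.symm hd.2.2
      · exact hwd
    exact ⟨a, b, d, haC, hbC, hdC, Ne.symm hb.1, Ne.symm hd.1, Ne.symm hd.2.1, hua, hab, hbd, hone⟩
  · left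
    push Not at hone
    obtain ⟨b, hub, hba⟩ := hone
    have hbC := hcl u hi b hub
    have hsub3 : ({u, a, b} : Finset V) ⊆ C := by
      intro j hj
      simp only [Finset.mem_insert, Finset.mem_singleton] at hj
      rcases hj with rfl | rfl | rfl <;> assumption
    have hc3 : ({u, a, b} : Finset V).card < C.card := by
      have := Finset.card_le_three (a := u) (b := a) (c := b)
      omega
    obtain ⟨w', d, hwd, hw', hdC, hd⟩ := exists_leave G C {u, a, b} hcl hre hsub3 hc3
      (i := u) (by simp)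
    simp only [Finset.mem_insert, Finset.mem_singleton, not_or] at hw' hd
    have hnud : ¬ G.Adj u d := by
      intro h
      rcases hdeg u a b d hua hub h with h | h | h
      · exact hba h.symm
      · exact hd.2.1 h.symm
      · exact hd.2.2 h.symm
    rcases hw' with rfl | rfl | rfl
    · exact absurd hwd hnud
    · exact ⟨b, w', d, hbC, haC, hdC, hba, Ne.symm hd.1, Ne.symm hd.2.2, hub, hua, hwd, hnud⟩
    · exact ⟨a, w', d, haC, hbC, hdC, Ne.symm hba, Ne.symm hd.1, Ne.symm hd.2.1, hua, hub, hwd,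
        hnud⟩

end Pool.Agent.Lib.MP_589a62_gt.Full
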