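import Pool.Agent.Lib.MP_589a62_gt.Full.PairVal
import Pool.Agent.Lib.MP_589a62_gt.Full.PairPolyB

/-!
# The pair expectation with one more term
-/

set_option autoImplicit false
set_option linter.unusedVariables false
set_option linter.unusedTactic false

open Matrix Finset MeasureTheory Set Real ProbabilityTheory

namespace Pool.Agent.Lib.MP_589a62_gt.Full

/-- `D Θ⁵`. -/
def L8 : List (ℝ × Fin 3 × ℕ × ℕ) :=
  [(1, 1, 0, 5), (-5, 1, 1, 4), (10, 1, 2, 3), (-10, 1, 3, 2), (5, 1, 4, 1), (-1, 1, 5, 0),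
   (-1, 2, 0, 5), (5, 2, 1, 4), (-10, 2, 2, 3), (10, 2, 3, 2), (-5, 2, 4, 1), (1, 2, 5, 0)]
/-- `S Θ⁶`. -/
def L9 : List (ℝ × Fin 3 × ℕ × ℕ) :=
  [(1, 1, 0, 6), (-6, 1, 1, 5), (15, 1, 2, 4), (-20, 1, 3, 3), (15, 1, 4, 2), (-6, 1, 5, 1),
   (1, 1, 6, 0),
   (1, 2, 0, 6), (-6, 2, 1, 5), (15, 2, 2, 4), (-20, 2, 3, 3), (15, 2, 4, 2), (-6, 2, 5, 1),
   (1, 2, 6, 0)]

lemma d05 (y : ℝ) : sI (Dl y 0 5) = sI (5) := sI_Dl0 _ _ _ _ (by unfold Dl; push_cast; ring)
lemma d50 (y : ℝ) : sI (Dl y 5 0) = sI (5) := sI_Dl0 _ _ _ _ (by unfold Dl; push_cast; ring)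
lemma d14 (y : ℝ) : sI (Dl y 1 4) = sI (5) * sI (1 + (64 / 125) * y) :=
  sI_Dl _ _ _ (by norm_num) _ _ (by unfold Dl; push_cast; ring)
lemma d41 (y : ℝ) : sI (Dl y 4 1) = sI (5) * sI (1 + (64 / 125) * y) :=
  sI_Dl _ _ _ (by norm_num) _ _ (by unfold Dl; push_cast; ring)
lemma d23 (y : ℝ) : sI (Dl y 2 3) = sI (5) * sI (1 + (96 / 125) * y) :=
  sI_Dl _ _ _ (by norm_num) _ _ (by unfold Dl; push_cast; ring)
lemma d32 (y : ℝ) : sI (Dl y 3 2) = sI (5) * sI (1 + (96 / 125) * y) :=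
  sI_Dl _ _ _ (by norm_num) _ _ (by unfold Dl; push_cast; ring)

lemma ci8 {y : ℝ} (hy : 0 ≤ y) : ci y L8 = 2 / 5 * y * (sI 5 ^ 3 *
    (10 - 30 * sI (1 + (64 / 125) * y) ^ 3 + 20 * sI (1 + (96 / 125) * y) ^ 3)) := by
  simp only [ci, L8, List.map_cons, List.map_nil, List.sum_cons, List.sum_nil, cv_one hy, cv_two hy,
    d05, d50, d14, d41, d23, d32]
  push_cast
  ring

lemma ci9 {y : ℝ} (hy : 0 ≤ y) : ci y L9 = (1 + 12 / 5 * y) * (sI (29 / 5) ^ 3 *
    (2 - 12 * sI (1 + (16 / 29) * y) ^ 3 + 30 * sI (1 + (128 / 145) * y) ^ 3 -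
      20 * sI (1 + (144 / 145) * y) ^ 3)) := by
  simp only [ci, L9, List.map_cons, List.map_nil, List.sum_cons, List.sum_nil, cv_one hy, cv_two hy,
    d06, d60, d15, d51, d24, d42, d33]
  push_cast
  ring

lemma low8 (y : ℝ) (h0 : 0 ≤ y) (h1 : y ≤ 1) : y * ((6587394928391 / 25000000000000) * y ^ 2 + (-1939268894163 / 5000000000000) * y ^ 3 + (9455816950829 / 25000000000000) * y ^ 4 + (-2952592075273 / 12500000000000) * y ^ 5 + (1677128440149 / 25000000000000) * y ^ 6) ≤ ci y L8 := by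
  rw [ci8 h0]
  have hw := q14c y h0 h1
  have hw2 := q23c y h0 h1
  have h2 : y ^ 2 * ((7364933 / 1000000) + (-2168169 / 200000) * y + (10571927 / 1000000) * y ^ 2 + (-3301099 / 500000) * y ^ 3 + (1875087 / 1000000) * y ^ 4) ≤
      10 - 30 * sI (1 + (64 / 125) * y) ^ 3 + 20 * sI (1 + (96 / 125) * y) ^ 3 := by linarith
  have h3 := mul_le_mul_of_nonneg_left h2 (pow_nonneg (sI_nonneg 5) 3)
  have h4 := mul_le_mul_of_nonneg_right k5c (mul_nonneg (pow_nonneg h0 2) (B8_nn y h0 h1))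
  have h5 := mul_le_mul_of_nonneg_left (h4.trans h3) (by linarith : 0 ≤ 2 / 5 * y)
  exact le_trans (le_of_eq (by ring)) h5

lemma up9 (y : ℝ) (h0 : 0 ≤ y) (h1 : y ≤ 1) : ci y L9 ≤ y * ((3078413 / 25000000000) * y + (746538849121 / 5000000000000) * y ^ 2 + (-302416062429 / 12500000000000) * y ^ 3 + (-8755354289487 / 25000000000000) * y ^ 4 + (2559907379081 / 3125000000000) * y ^ 5 + (-6211933243841 / 6250000000000) * y ^ 6 + (129815459163 / 200000000000) * y ^ 7 + (-221154120603 / 1250000000000) * y ^ 8) := by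
  rw [ci9 h0]
  have hw := q15c y h0 h1
  have hw2 := q24c y h0 h1
  have hw3 := q33c y h0 h1
  have h2 : 2 - 12 * sI (1 + (16 / 29) * y) ^ 3 + 30 * sI (1 + (128 / 145) * y) ^ 3 -
      20 * sI (1 + (144 / 145) * y) ^ 3 ≤ y ^ 2 * ((43 / 25000) + (10407191 / 5000000) * y + (-13333473 / 2500000) * y ^ 2 + (39541299 / 5000000) * y ^ 3 + (-9421823 / 1250000) * y ^ 4 + (210337 / 50000) * y ^ 5 + (-1029711 / 1000000) * y ^ 6) := by linarith
  have h3 := mul_le_mul_of_nonneg_left h2 (pow_nonneg (sI_nonneg (29 / 5)) 3)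
  have h4 := mul_le_mul_of_nonneg_right k6c (mul_nonneg (pow_nonneg h0 2) (B9_nn y h0 h1))
  have h5 := mul_le_mul_of_nonneg_left (h3.trans h4) (by linarith : 0 ≤ 1 + 12 / 5 * y)
  exact h5.trans (le_of_eq (by ring))

lemma Q3_nn (y z : ℝ) (h0 : 0 ≤ y) (h1 : y ≤ 1) (hz0 : (1 / 5) ≤ z) (hz1 : z ≤ 1) : 0 ≤ ((-2520279266037 / 1600000000000000) + (-4093672551759 / 1600000000000000) * y + (6528693377799 / 800000000000000) * y ^ 2 + (-20829709644201 / 3200000000000000) * y ^ 3 + (22106462446827 / 6400000000000000) * y ^ 4 + (-2844188794791 / 3200000000000000) * y ^ 5) + ((293749289209 / 8000000000000) + (-975760837047 / 20000000000000) * y + (314077574583 / 20000000000000) * y ^ 2 + (-189896037777 / 40000000000000) * y ^ 3 + (13994734959 / 10000000000000) * y ^ 4 + (-178181163 / 625000000000) * y ^ 5) * z ^ 1 + ((-307 / 5000) + (1823964618591 / 20000000000000) * y + (-685810076427 / 16000000000000) * y ^ 2 + (735759055449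 / 40000000000000) * y ^ 3 + (-526634850987 / 80000000000000) * y ^ 4 + (3372137487 / 2500000000000) * y ^ 5) * z ^ 2 + ((4774296484511 / 128000000000000) + (-24591450113307 / 640000000000000) * y + (-8731559728647 / 640000000000000) * y ^ 2 + (5418480629709 / 160000000000000) * y ^ 3 + (-24431791587273 / 640000000000000) * y ^ 4 + (21519562103739 / 640000000000000) * y ^ 5 + (-6366607224957 / 320000000000000) * y ^ 6 + (214192367739 / 40000000000000) * y ^ 7) * z ^ 3 + ((-201 / 10000) + (1600736967599013 / 25600000000000000) * y ^ 2 + (-471242341281609 / 5120000000000000) * y ^ 3 + (2297763519051447 / 25600000000000000) * y ^ 4 + (-717479874291339 / 12800000000000000) * y ^ 5 + (407542210956207 / 25600000000000000) * y ^ 6) * z ^ 4 + ((129 / 10000) + (-2244163077 / 102400000000000) * y + (-544226821009209 / 20480000000000000) * y ^ 2 + (220461309510741 / 51200000000000000) * y ^ 3 + (6382653277036023 / 102400000000000000)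 * y ^ 4 + (-1866172479350049 / 12800000000000000) * y ^ 5 + (4528499334760089 / 25600000000000000) * y ^ 6 + (-94635469729827 / 819200000000000) * y ^ 7 + (161221353919587 / 5120000000000000) * y ^ 8) * z ^ 5 := by
  have key : ∀ s t u v : ℝ, 0 ≤ s → 0 ≤ t → 0 ≤ u → 0 ≤ v → 0 ≤ (57326707507741 / 5242880000000000) * t ^ 8 * v ^ 5 + (492643958087237 / 5242880000000000) * t ^ 8 * u * v ^ 4 + (479454454264033 / 2621440000000000) * t ^ 8 * u ^ 2 * v ^ 3 + (71022838714689 / 524288000000000) * t ^ 8 * u ^ 3 * v ^ 2 + (7219456940793 / 209715200000000) * t ^ 8 * u ^ 4 * v + (12296569264301 / 1048576000000000) * t ^ 8 * u ^ 5 + (1260014664723659 / 20971520000000000) * s * t ^ 7 * v ^ 5 + (60130559550140639 / 104857600000000000) * s * t ^ 7 * u * v ^ 4 + (60666504685974331 / 52428800000000000) * s * t ^ 7 * u ^ 2 * v ^ 3 + (9449529015920187 / 10485760000000000) * s * t ^ 7 * u ^ 3 * v ^ 2 + (1058432162251611 / 4194304000000000)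 * s * t ^ 7 * u ^ 4 * v + (82296346716191 / 838860800000000) * s * t ^ 7 * u ^ 5 + (3011960391193810243 / 20971520000000000000) * s ^ 2 * t ^ 6 * v ^ 5 + (32002846308619358267 / 20971520000000000000) * s ^ 2 * t ^ 6 * u * v ^ 4 + (6676531156736825579 / 2097152000000000000) * s ^ 2 * t ^ 6 * u ^ 2 * v ^ 3 + (1092593628476882331 / 419430400000000000) * s ^ 2 * t ^ 6 * u ^ 3 * v ^ 2 + (140549689342299723 / 167772160000000000) * s ^ 2 * t ^ 6 * u ^ 4 * v + (12364580673576703 / 33554432000000000) * s ^ 2 * t ^ 6 * u ^ 5 + (2518979374993327109 / 13107200000000000000) * s ^ 3 * t ^ 5 * v ^ 5 + (5987787813699407879 / 2621440000000000000) * s ^ 3 * t ^ 5 * u * v ^ 4 + (1287898212539808533 / 262144000000000000) * s ^ 3 * t ^ 5 * u ^ 2 * v ^ 3 + (219402093625241667 / 52428800000000000) * s ^ 3 * t ^ 5 * u ^ 3 * v ^ 2 + (30657149575057041 / 20971520000000000) * s ^ 3 * t ^ 5 * u ^ 4 * v + (557719173362903 / 838860800000000)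 * s ^ 3 * t ^ 5 * u ^ 5 + (8086280041615122049 / 52428800000000000000) * s ^ 4 * t ^ 4 * v ^ 5 + (21691270956350540509 / 10485760000000000000) * s ^ 4 * t ^ 4 * u * v ^ 4 + (4801246769603705653 / 1048576000000000000) * s ^ 4 * t ^ 4 * u ^ 2 * v ^ 3 + (848970731222013837 / 209715200000000000) * s ^ 4 * t ^ 4 * u ^ 3 * v ^ 2 + (129881573165987301 / 83886080000000000) * s ^ 4 * t ^ 4 * u ^ 4 * v + (12616616197353689 / 16777216000000000) * s ^ 4 * t ^ 4 * u ^ 5 + (391416296091853451 / 5242880000000000000) * s ^ 5 * t ^ 3 * v ^ 5 + (1191375483856753079 / 1048576000000000000) * s ^ 5 * t ^ 3 * u * v ^ 4 + (270955561805385911 / 104857600000000000) * s ^ 5 * t ^ 3 * u ^ 2 * v ^ 3 + (49400088599274423 / 20971520000000000) * s ^ 5 * t ^ 3 * u ^ 3 * v ^ 2 + (7850798375992503 / 8388608000000000) * s ^ 5 * t ^ 3 * u ^ 4 * v + (3687316759979447 / 8388608000000000) * s ^ 5 * t ^ 3 * u ^ 5 + (2244853501467886463 / 104857600000000000000)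 * s ^ 6 * t ^ 2 * v ^ 5 + (1498293328515557503 / 4194304000000000000) * s ^ 6 * t ^ 2 * u * v ^ 4 + (351330296884007551 / 419430400000000000) * s ^ 6 * t ^ 2 * u ^ 2 * v ^ 3 + (67798491387928959 / 83886080000000000) * s ^ 6 * t ^ 2 * u ^ 3 * v ^ 2 + (12583850297832831 / 33554432000000000) * s ^ 6 * t ^ 2 * u ^ 4 * v + (6285423044685439 / 33554432000000000) * s ^ 6 * t ^ 2 * u ^ 5 + (368245120156327813 / 104857600000000000000) * s ^ 7 * t * v ^ 5 + (1105421587528102729 / 20971520000000000000) * s ^ 7 * t * u * v ^ 4 + (261003503265862393 / 2097152000000000000) * s ^ 7 * t * u ^ 2 * v ^ 3 + (50655989666720937 / 419430400000000000) * s ^ 7 * t * u ^ 3 * v ^ 2 + (8680011206029401 / 167772160000000000) * s ^ 7 * t * u ^ 4 * v + (144693462727537 / 6710886400000000) * s ^ 7 * t * u ^ 5 + (27954101814698669 / 104857600000000000000) * s ^ 8 * v ^ 5 + (30037123431339041 / 20971520000000000000) * s ^ 8 * u * v ^ 4 +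 (6843018747479777 / 2097152000000000000) * s ^ 8 * u ^ 2 * v ^ 3 + (1631987850602913 / 419430400000000000) * s ^ 8 * u ^ 3 * v ^ 2 + (404944492286049 / 167772160000000000) * s ^ 8 * u ^ 4 * v + (21055905683821 / 33554432000000000) * s ^ 8 * u ^ 5 := fun s t u v hs ht hu hv => by positivity
  have h := key (y - 0) (1 - y) (z - (1 / 5)) (1 - z) (by linarith) (by linarith) (by linarith) (by linarith)
  refine h.trans_eq ?_
  ring

lemma Q4_nn (y z : ℝ) (h0 : 0 ≤ y) (h1 : y ≤ 1) (hz0 : 0 ≤ z) (hz1 : z ≤ 1) : 0 ≤ ((528920437701 / 250000000000000) + (65760083447 / 50000000000000) * y + (-6320678642323 / 250000000000000) * y ^ 2 + (13648952612529 / 250000000000000) * y ^ 3 + (-1415054276163 / 25000000000000) * y ^ 4 + (397240085919 / 12500000000000) * y ^ 5 + (-379622199 / 50000000000) * y ^ 6) + ((32677698801 / 500000000000) + (-108417870783 / 1250000000000) * y + (34897508287 / 1250000000000) * y ^ 2 + (-21099559753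 / 2500000000000) * y ^ 3 + (1554970551 / 625000000000) * y ^ 4 + (-19797907 / 39062500000) * y ^ 5) * z ^ 1 + ((-1457 / 10000) + (67554245133 / 312500000000) * y + (-25400373201 / 250000000000) * y ^ 2 + (27250335387 / 625000000000) * y ^ 3 + (-19504994481 / 1250000000000) * y ^ 4 + (124893981 / 39062500000) * y ^ 5) * z ^ 2 + ((58948722031 / 500000000000) + (-303598149547 / 2500000000000) * y + (-107797033687 / 2500000000000) * y ^ 2 + (66894822589 / 625000000000) * y ^ 3 + (-301627056633 / 2500000000000) * y ^ 4 + (265673606219 / 2500000000000) * y ^ 5 + (-78600089197 / 1250000000000) * y ^ 6 + (2644350219 / 156250000000) * y ^ 7) * z ^ 3 + ((-53 / 625) + (6587394928391 / 25000000000000) * y ^ 2 + (-1939268894163 / 5000000000000) * y ^ 3 + (9455816950829 / 25000000000000) * y ^ 4 + (-2952592075273 / 12500000000000) * y ^ 5 + (1677128440149 / 25000000000000) * y ^ 6) * z ^ 4 + ((723 / 10000) + (-3078413 /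 25000000000) * y + (-746538849121 / 5000000000000) * y ^ 2 + (302416062429 / 12500000000000) * y ^ 3 + (8755354289487 / 25000000000000) * y ^ 4 + (-2559907379081 / 3125000000000) * y ^ 5 + (6211933243841 / 6250000000000) * y ^ 6 + (-129815459163 / 200000000000) * y ^ 7 + (221154120603 / 1250000000000) * y ^ 8) * z ^ 5 := by
  rcases le_total z (1 / 2) with hm | hm
  · skip
    have key : ∀ s t u v : ℝ, 0 ≤ s → 0 ≤ t → 0 ≤ u → 0 ≤ v → 0 ≤ (528920437701 / 7812500000000) * t ^ 8 * v ^ 5 + (2162805377751 / 1562500000000) * t ^ 8 * u * v ^ 4 + (2886065317801 / 781250000000) * t ^ 8 * u ^ 2 * v ^ 3 + (12268519082179 / 3125000000000) * t ^ 8 * u ^ 3 * v ^ 2 + (702357062169 / 390625000000) * t ^ 8 * u ^ 4 * v + (5032468029777 / 15625000000000) * t ^ 8 * u ^ 5 + (4560163918843 / 7812500000000) * s * t ^ 7 * v ^ 5 + (15462886023583 / 1562500000000) * s * t ^ 7 * u * v ^ 4 + (20431693030983 / 781250000000) * s * t ^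 7 * u ^ 2 * v ^ 3 + (88138093422637 / 3125000000000) * s * t ^ 7 * u ^ 3 * v ^ 2 + (5179828853057 / 390625000000) * s * t ^ 7 * u ^ 4 * v + (19331795611243 / 7812500000000) * s * t ^ 7 * u ^ 5 + (215813930679 / 156250000000) * s ^ 2 * t ^ 6 * v ^ 5 + (4205892311147 / 156250000000) * s ^ 2 * t ^ 6 * u * v ^ 4 + (11330446935517 / 156250000000) * s ^ 2 * t ^ 6 * u ^ 2 * v ^ 3 + (2483817099483 / 31250000000) * s ^ 2 * t ^ 6 * u ^ 3 * v ^ 2 + (474533777286151 / 12500000000000) * s ^ 2 * t ^ 6 * u ^ 4 * v + (183328600657137 / 25000000000000) * s ^ 2 * t ^ 6 * u ^ 5 + (6124617015891 / 3906250000000) * s ^ 3 * t ^ 5 * v ^ 5 + (7773498792829 / 195312500000) * s ^ 3 * t ^ 5 * u * v ^ 4 + (42983488491531 / 390625000000) * s ^ 3 * t ^ 5 * u ^ 2 * v ^ 3 + (383099166394423 / 3125000000000) * s ^ 3 * t ^ 5 * u ^ 3 * v ^ 2 + (741508279777907 / 12500000000000) * s ^ 3 * t ^ 5 * u ^ 4 * v + (731800538140581 / 62500000000000)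 * s ^ 3 * t ^ 5 * u ^ 5 + (1563297181693 / 1562500000000) * s ^ 4 * t ^ 4 * v ^ 5 + (11154479096871 / 312500000000) * s ^ 4 * t ^ 4 * u * v ^ 4 + (15802475699983 / 156250000000) * s ^ 4 * t ^ 4 * u ^ 2 * v ^ 3 + (71454579330663 / 625000000000) * s ^ 4 * t ^ 4 * u ^ 3 * v ^ 2 + (699158791984859 / 12500000000000) * s ^ 4 * t ^ 4 * u ^ 4 * v + (70847826668147 / 6250000000000) * s ^ 4 * t ^ 4 * u ^ 5 + (2546143065171 / 7812500000000) * s ^ 5 * t ^ 3 * v ^ 5 + (30236362127051 / 1562500000000) * s ^ 5 * t ^ 3 * u * v ^ 4 + (43874282867571 / 781250000000) * s ^ 5 * t ^ 3 * u ^ 2 * v ^ 3 + (100566621933567 / 1562500000000) * s ^ 5 * t ^ 3 * u ^ 3 * v ^ 2 + (12446167323449 / 390625000000) * s ^ 5 * t ^ 3 * u ^ 4 * v + (203600654135559 / 31250000000000) * s ^ 5 * t ^ 3 * u ^ 5 + (3335664831 / 61035156250) * s ^ 6 * t ^ 2 * v ^ 5 + (2333678788127 / 390625000000) * s ^ 6 * t ^ 2 * u * v ^ 4 + (13792441027283 / 781250000000)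 * s ^ 6 * t ^ 2 * u ^ 2 * v ^ 3 + (64031349103637 / 3125000000000) * s ^ 6 * t ^ 2 * u ^ 3 * v ^ 2 + (16086593065503 / 1562500000000) * s ^ 6 * t ^ 2 * u ^ 4 * v + (275244987362523 / 125000000000000) * s ^ 6 * t ^ 2 * u ^ 5 + (14483487479 / 390625000000) * s ^ 7 * t * v ^ 5 + (152575367387 / 156250000000) * s ^ 7 * t * u * v ^ 4 + (53918548181 / 19531250000) * s ^ 7 * t * u ^ 2 * v ^ 3 + (994202765331 / 312500000000) * s ^ 7 * t * u ^ 3 * v ^ 2 + (20063987734407 / 12500000000000) * s ^ 7 * t * u ^ 4 * v + (8241000205767 / 25000000000000) * s ^ 7 * t * u ^ 5 + (20535696723 / 1953125000000) * s ^ 8 * v ^ 5 + (21038260263 / 390625000000) * s ^ 8 * u * v ^ 4 + (676369424 / 6103515625) * s ^ 8 * u ^ 2 * v ^ 3 + (358056550073 / 3125000000000) * s ^ 8 * u ^ 3 * v ^ 2 + (11615709001 / 195312500000) * s ^ 8 * u ^ 4 * v + (1528567443057 / 125000000000000) * s ^ 8 * u ^ 5 := fun s t u v hs ht hu hv => by positivity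
    have h := key (y - 0) (1 - y) (z - 0) ((1 / 2) - z) (by linarith) (by linarith) (by linarith) (by linarith)
    refine h.trans_eq ?_
    ring
  · skip
    have key : ∀ s t u v : ℝ, 0 ≤ s → 0 ≤ t → 0 ≤ u → 0 ≤ v → 0 ≤ (5032468029777 / 15625000000000) * t ^ 8 * v ^ 5 + (2223039781101 / 1562500000000) * t ^ 8 * u * v ^ 4 + (7577411341579 / 3125000000000) * t ^ 8 * u ^ 2 * v ^ 3 + (3866892880927 / 1562500000000) * t ^ 8 * u ^ 3 * v ^ 2 + (3043437609001 / 1562500000000) * t ^ 8 * u ^ 4 * v + (6792130853701 / 7812500000000) * t ^ 8 * u ^ 5 + (19331795611243 / 7812500000000) * s * t ^ 7 * v ^ 5 + (8972137905129 / 781250000000) * s * t ^ 7 * u * v ^ 4 + (65937776606877 / 3125000000000) * s * t ^ 7 * u ^ 2 * v ^ 3 + (35596054092361 / 1562500000000) * s * t ^ 7 * u ^ 3 * v ^ 2 + (27128538900133 / 1562500000000) * s * t ^ 7 * u ^ 4 * v + (56635070111943 / 7812500000000) * s * t ^ 7 * u ^ 5 + (183328600657137 / 25000000000000)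 * s ^ 2 * t ^ 6 * v ^ 5 + (221054612999767 / 6250000000000) * s ^ 2 * t ^ 6 * u * v ^ 4 + (215957158661683 / 3125000000000) * s ^ 2 * t ^ 6 * u ^ 2 * v ^ 3 + (62441165958481 / 781250000000) * s ^ 2 * t ^ 6 * u ^ 3 * v ^ 2 + (97639199521671 / 1562500000000) * s ^ 2 * t ^ 6 * u ^ 4 * v + (19929158015321 / 781250000000) * s ^ 2 * t ^ 6 * u ^ 5 + (731800538140581 / 62500000000000) * s ^ 3 * t ^ 5 * v ^ 5 + (144418559300651 / 2500000000000) * s ^ 3 * t ^ 5 * u * v ^ 4 + (363683683119771 / 3125000000000) * s ^ 3 * t ^ 5 * u ^ 2 * v ^ 3 + (108219891082293 / 781250000000) * s ^ 3 * t ^ 5 * u ^ 3 * v ^ 2 + (666465351618 / 6103515625) * s ^ 3 * t ^ 5 * u ^ 4 * v + (86263568185943 / 1953125000000) * s ^ 3 * t ^ 5 * u ^ 5 + (70847826668147 / 6250000000000) * s ^ 4 * t ^ 4 * v ^ 5 + (717797741378081 / 12500000000000) * s ^ 4 * t ^ 4 * u * v ^ 4 + (375911846046537 / 3125000000000) * s ^ 4 * t ^ 4 * u ^ 2 * v ^ 3 + (116637045184239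 / 781250000000) * s ^ 4 * t ^ 4 * u ^ 3 * v ^ 2 + (187632112828429 / 1562500000000) * s ^ 4 * t ^ 4 * u ^ 4 * v + (15087816355283 / 312500000000) * s ^ 4 * t ^ 4 * u ^ 5 + (203600654135559 / 31250000000000) * s ^ 5 * t ^ 3 * v ^ 5 + (104031315547967 / 3125000000000) * s ^ 5 * t ^ 3 * u * v ^ 4 + (109490575854317 / 1562500000000) * s ^ 5 * t ^ 3 * u ^ 2 * v ^ 3 + (8451357459837 / 97656250000) * s ^ 5 * t ^ 3 * u ^ 3 * v ^ 2 + (107334761530051 / 1562500000000) * s ^ 5 * t ^ 3 * u ^ 4 * v + (213542730425971 / 7812500000000) * s ^ 5 * t ^ 3 * u ^ 5 + (275244987362523 / 125000000000000) * s ^ 6 * t ^ 2 * v ^ 5 + (146552242838499 / 12500000000000) * s ^ 6 * t ^ 2 * u * v ^ 4 + (319886122727 / 12207031250) * s ^ 6 * t ^ 2 * u ^ 2 * v ^ 3 + (13418979761699 / 390625000000) * s ^ 6 * t ^ 2 * u ^ 3 * v ^ 2 + (43657290822493 / 1562500000000) * s ^ 6 * t ^ 2 * u ^ 4 * v + (42706028446469 / 3906250000000) * s ^ 6 * t ^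 2 * u ^ 5 + (8241000205767 / 25000000000000) * s ^ 7 * t * v ^ 5 + (5285253323607 / 3125000000000) * s ^ 7 * t * u * v ^ 4 + (11019053213331 / 3125000000000) * s ^ 7 * t * u ^ 2 * v ^ 3 + (815704616383 / 195312500000) * s ^ 7 * t * u ^ 3 * v ^ 2 + (4873034267017 / 1562500000000) * s ^ 7 * t * u ^ 4 * v + (232721691983 / 195312500000) * s ^ 7 * t * u ^ 5 + (1528567443057 / 125000000000000) * s ^ 8 * v ^ 5 + (785162066993 / 12500000000000) * s ^ 8 * u * v ^ 4 + (199906620501 / 1562500000000) * s ^ 8 * u ^ 2 * v ^ 3 + (9968519627 / 78125000000) * s ^ 8 * u ^ 3 * v ^ 2 + (18967198023 / 312500000000) * s ^ 8 * u ^ 4 * v + (40294149841 / 3906250000000) * s ^ 8 * u ^ 5 := fun s t u v hs ht hu hv => by positivity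
    have h := key (y - 0) (1 - y) (z - (1 / 2)) (1 - z) (by linarith) (by linarith) (by linarith) (by linarith)
    refine h.trans_eq ?_
    ring

/-- The rate at `T = 3/4`, improved. -/
noncomputable def RC (z : ℝ) : ℝ := 2043 / 10000 - 1358 / 10000 * z + 614 / 10000 * z ^ 2 -
  373 / 10000 * z ^ 3 + 201 / 10000 * z ^ 4 - 129 / 10000 * z ^ 5

/-- The rate at `T = 1`, improved. -/
noncomputable def RD (z : ℝ) : ℝ := 2435 / 10000 - 2415 / 10000 * z + 1457 / 10000 * z ^ 2 -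
  1179 / 10000 * z ^ 3 + 848 / 10000 * z ^ 4 - 723 / 10000 * z ^ 5

theorem valC (y z : ℝ) (h0 : 0 ≤ y) (h1 : y ≤ 1) (hz0 : 1 / 5 ≤ z) (hz1 : z ≤ 1) :
    y * RC z ≤ 3 / 4 * ci y L1 - z * (3 / 4) ^ 2 * ci y L2 + z ^ 2 * (3 / 4) ^ 3 * ci y L3 -
      z ^ 3 * (3 / 4) ^ 4 * ci y L4 + z ^ 4 * (3 / 4) ^ 5 * ci y L8 -
      z ^ 5 * (3 / 4) ^ 6 * ci y L9 -
      5325 / 10000 * (3 / 4) ^ 2 * ci y L5 - 34 / 100 * (3 / 4) ^ 4 * ci y L6 := by
  have hz : 0 ≤ z := by linarith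
  have a1 := low1 y h0 h1
  have a2 := mul_le_mul_of_nonneg_left (up2 y h0 h1) hz
  have a3 := mul_le_mul_of_nonneg_left (low3 y h0 h1) (pow_nonneg hz 2)
  have a4 := mul_le_mul_of_nonneg_left (up4 y h0 h1) (pow_nonneg hz 3)
  have a8 := mul_le_mul_of_nonneg_left (low8 y h0 h1) (pow_nonneg hz 4)
  have a9 := mul_le_mul_of_nonneg_left (up9 y h0 h1) (pow_nonneg hz 5)
  have a5 := up5 y h0 h1
  have a6 := up6 y h0 h1
  have b := mul_nonneg h0 (Q3_nn y z h0 h1 hz0 hz1)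
  unfold RC
  linarith

theorem valD (y z : ℝ) (h0 : 0 ≤ y) (h1 : y ≤ 1) (hz0 : 0 ≤ z) (hz1 : z ≤ 1) :
    y * RD z ≤ ci y L1 - z * ci y L2 + z ^ 2 * ci y L3 - z ^ 3 * ci y L4 + z ^ 4 * ci y L8 -
      z ^ 5 * ci y L9 - 561 / 1000 * ci y L5 - 14 / 100 * ci y L6 - 3 / 10 * ci y L7 := by
  have a1 := low1 y h0 h1
  have a2 := mul_le_mul_of_nonneg_left (up2 y h0 h1) hz0
  have a3 := mul_le_mul_of_nonneg_left (low3 y h0 h1) (pow_nonneg hz0 2)
  have a4 := mul_le_mul_of_nonneg_left (up4 y h0 h1) (pow_nonneg hz0 3)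
  have a8 := mul_le_mul_of_nonneg_left (low8 y h0 h1) (pow_nonneg hz0 4)
  have a9 := mul_le_mul_of_nonneg_left (up9 y h0 h1) (pow_nonneg hz0 5)
  have a5 := up5 y h0 h1
  have a6 := up6 y h0 h1
  have a7 := up7 y h0 h1
  have b := mul_nonneg h0 (Q4_nn y z h0 h1 hz0 hz1)
  unfold RD
  linarith

/-- The two-sided pointwise inequality with one more term. -/
lemma pw2 (T z c2 c4 c6 : ℝ) (hT0 : 0 ≤ T) (hT1 : T ≤ 1) (hz0 : 0 ≤ z) (hz1 : z ≤ 1)
    (hths : ∀ u, |u| ≤ T → ths u ≤ c2 * u ^ 2 + c4 * u ^ 4 + c6 * u ^ 6) (v v' : ℝ) :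
    T * ((qu v - qu v') * (ee v' - ee v)) - z * T ^ 2 * ((qu v + qu v') * (ee v' - ee v) ^ 2) +
      z ^ 2 * T ^ 3 * ((qu v - qu v') * (ee v' - ee v) ^ 3) -
      z ^ 3 * T ^ 4 * ((qu v + qu v') * (ee v' - ee v) ^ 4) +
      z ^ 4 * T ^ 5 * ((qu v - qu v') * (ee v' - ee v) ^ 5) -
      z ^ 5 * T ^ 6 * ((qu v + qu v') * (ee v' - ee v) ^ 6) -
      c2 * T ^ 2 * (ee v' - ee v) ^ 2 - c4 * T ^ 4 * (ee v' - ee v) ^ 4 -
      c6 * T ^ 6 * (ee v' - ee v) ^ 6 ≤ fT T z v v' + fT T z v' v := by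
  have hq := qu_nonneg v
  have hq' := qu_nonneg v'
  have hlt := abs_ee_sub_lt v v'
  set q := qu v with hqd
  set q' := qu v' with hqd'
  set Θ := ee v' - ee v with hΘ
  have hΘ' : ee v - ee v' = -Θ := by rw [hΘ]; ring
  -- `D Θ ≥ S Θ²`
  have hX : 0 ≤ (q - q') * Θ - (q + q') * Θ ^ 2 := by
    rcases le_total q q' with h | h
    · have h1 := core' q q' hq h
      have h2 : Real.exp (-(4 / 5) * q) - Real.exp (-(4 / 5) * q') = -Θ := by
        rw [hΘ, hqd, hqd']; unfold ee; ring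
      rw [h2] at h1
      have h3 : 0 ≤ -Θ := by
        rw [← h2, sub_nonneg]
        exact Real.exp_le_exp.2 (by linarith)
      nlinarith [mul_nonneg h3 (by linarith : 0 ≤ q' - q - (q + q') * -Θ)]
    · have h1 := core' q' q hq' h
      have h2 : Real.exp (-(4 / 5) * q') - Real.exp (-(4 / 5) * q) = Θ := by
        rw [hΘ, hqd, hqd']; unfold ee; ring
      rw [h2] at h1
      have h3 : 0 ≤ Θ := by
        rw [← h2, sub_nonneg]
        exact Real.exp_le_exp.2 (by linarith)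
      nlinarith [mul_nonneg h3 (by linarith : 0 ≤ q - q' - (q' + q) * Θ)]
  set P := T * Θ with hP
  have hPabs : |P| ≤ T := by
    rw [hP, abs_mul, abs_of_nonneg hT0]
    exact mul_le_of_le_one_right hT0 hlt.le
  have hP1 : |P| < 1 := by
    rw [hP, abs_mul, abs_of_nonneg hT0]
    calc T * |Θ| ≤ 1 * |Θ| := mul_le_mul_of_nonneg_right hT1 (abs_nonneg _)
      _ < 1 := by rw [one_mul]; exact hlt
  have hzP : |z * P| < 1 := by
    rw [abs_mul, abs_of_nonneg hz0]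
    calc z * |P| ≤ 1 * |P| := mul_le_mul_of_nonneg_right hz1 (abs_nonneg _)
      _ < 1 := by rw [one_mul]; exact hP1
  obtain ⟨hz2, hz3⟩ := abs_lt.1 hzP
  have hd1 : 0 < 1 + z * P := by linarith
  have hd2 : 0 < 1 - z * P := by linarith
  -- the main nonnegative quantity
  have hXP : 0 ≤ (q - q') * P - z * (q + q') * P ^ 2 := by
    have e : (q - q') * P - z * (q + q') * P ^ 2 =
        T * ((q - q') * Θ - (q + q') * Θ ^ 2) + T * (1 - z * T) * ((q + q') * Θ ^ 2) := by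
      rw [hP]; ring
    rw [e]
    have h1 : 0 ≤ 1 - z * T := by
      have := mul_le_one₀ hz1 hT0 hT1
      linarith
    have h2 : 0 ≤ (q + q') * Θ ^ 2 := by positivity
    positivity
  have hsum : fT T z v v' + fT T z v' v =
      ((q - q') * P - z * (q + q') * P ^ 2) / (1 - (z * P) ^ 2) - ths P := by
    unfold fT
    rw [← hqd, ← hqd', ← hΘ, hΘ', ← hP]
    have e1 : T * -Θ = -P := by rw [hP]; ring
    rw [e1, ths_neg]
    have e2 : 1 + z * -P = 1 - z * P := by ring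
    have e3 : 1 - (z * P) ^ 2 = (1 + z * P) * (1 - z * P) := by ring
    rw [e2, e3]
    exact alg_sum q q' P z (ths P) hd1.ne' hd2.ne'
  rw [hsum]
  have hth := hths P hPabs
  have h4 : ((q - q') * P - z * (q + q') * P ^ 2) * (1 + (z * P) ^ 2 + (z * P) ^ 4) ≤
      ((q - q') * P - z * (q + q') * P ^ 2) / (1 - (z * P) ^ 2) := by
    have e3 : 0 < 1 - (z * P) ^ 2 := by
      have : 1 - (z * P) ^ 2 = (1 + z * P) * (1 - z * P) := by ring
      rw [this]; exact mul_pos hd1 hd2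
    rw [le_div_iff₀ e3]
    have h5 : (1 + (z * P) ^ 2 + (z * P) ^ 4) * (1 - (z * P) ^ 2) ≤ 1 := by
      have : (1 + (z * P) ^ 2 + (z * P) ^ 4) * (1 - (z * P) ^ 2) = 1 - ((z * P) ^ 3) ^ 2 := by ring
      rw [this]
      have := sq_nonneg ((z * P) ^ 3)
      linarith
    have h6 := mul_le_mul_of_nonneg_left h5 hXP
    linarith
  have h6 : ((q - q') * P - z * (q + q') * P ^ 2) * (1 + (z * P) ^ 2 + (z * P) ^ 4) -
      (c2 * P ^ 2 + c4 * P ^ 4 + c6 * P ^ 6) ≤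
      ((q - q') * P - z * (q + q') * P ^ 2) / (1 - (z * P) ^ 2) - ths P := by linarith
  refine le_trans (le_of_eq ?_) h6
  rw [hP]
  ring

theorem pair_gen2 (T z c2 c4 c6 : ℝ) (hT0 : 0 ≤ T) (hT1 : T ≤ 1) (hz0 : 0 ≤ z) (hz1 : z ≤ 1)
    (hths : ∀ u, |u| ≤ T → ths u ≤ c2 * u ^ 2 + c4 * u ^ 4 + c6 * u ^ 6) (ρ l : ℝ)
    (hrl : ρ ^ 2 + l ^ 2 = 1) :
    (T * ci (l ^ 2) L1 - z * T ^ 2 * ci (l ^ 2) L2 + z ^ 2 * T ^ 3 * ci (l ^ 2) L3 -
      z ^ 3 * T ^ 4 * ci (l ^ 2) L4 + z ^ 4 * T ^ 5 * ci (l ^ 2) L8 -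
      z ^ 5 * T ^ 6 * ci (l ^ 2) L9 - c2 * T ^ 2 * ci (l ^ 2) L5 - c4 * T ^ 4 * ci (l ^ 2) L6 -
      c6 * T ^ 6 * ci (l ^ 2) L7) / 2 ≤
      ∫ p : ℝ × ℝ, fT T z p.1 (ρ * p.1 + l * p.2) ∂(nu.prod nu) := by
  have hf1 : Integrable (fun p : ℝ × ℝ => fT T z p.1 (ρ * p.1 + l * p.2)) (nu.prod nu) := by
    have := integrable_fT T z hT0 hT1 hz0 hz1 1 0 ρ l
    simpa using this
  have hf2 : Integrable (fun p : ℝ × ℝ => fT T z (ρ * p.1 + l * p.2) p.1) (nu.prod nu) := by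
    have := integrable_fT T z hT0 hT1 hz0 hz1 ρ l 1 0
    simpa using this
  have hsw := integral_swap ρ l hrl (f := fun p => fT T z p.1 p.2) (measurable_fT T z)
  simp only at hsw
  -- the total list
  set L : List (ℝ × Fin 3 × ℕ × ℕ) :=
    (L1.map fun c => (T * c.1, c.2)) ++ (L2.map fun c => (-(z * T ^ 2) * c.1, c.2)) ++
    (L3.map fun c => (z ^ 2 * T ^ 3 * c.1, c.2)) ++
    (L4.map fun c => (-(z ^ 3 * T ^ 4) * c.1, c.2)) ++
    (L8.map fun c => (z ^ 4 * T ^ 5 * c.1, c.2)) ++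
    (L9.map fun c => (-(z ^ 5 * T ^ 6) * c.1, c.2)) ++
    (L5.map fun c => (-(c2 * T ^ 2) * c.1, c.2)) ++
    (L6.map fun c => (-(c4 * T ^ 4) * c.1, c.2)) ++
    (L7.map fun c => (-(c6 * T ^ 6) * c.1, c.2)) with hL
  have hmapce : ∀ (a : ℝ) (M : List (ℝ × Fin 3 × ℕ × ℕ)) (p : ℝ × ℝ),
      ce ρ l (M.map fun c => (a * c.1, c.2)) p = a * ce ρ l M p := by
    intro a M p
    induction M with
    | nil => simp [ce]
    | cons c M ih =>
      simp only [ce, List.map_cons, List.sum_cons] at ih ⊢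
      rw [ih]; ring
  have hmapci : ∀ (a : ℝ) (M : List (ℝ × Fin 3 × ℕ × ℕ)),
      ci (l ^ 2) (M.map fun c => (a * c.1, c.2)) = a * ci (l ^ 2) M := by
    intro a M
    induction M with
    | nil => simp [ci]
    | cons c M ih =>
      simp only [ci, List.map_cons, List.sum_cons] at ih ⊢
      rw [ih]; ring
  have happce : ∀ (M N : List (ℝ × Fin 3 × ℕ × ℕ)) (p : ℝ × ℝ),
      ce ρ l (M ++ N) p = ce ρ l M p + ce ρ l N p := by
    intro M N p
    simp [ce, List.map_append, List.sum_append]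
  have happci : ∀ (M N : List (ℝ × Fin 3 × ℕ × ℕ)),
      ci (l ^ 2) (M ++ N) = ci (l ^ 2) M + ci (l ^ 2) N := by
    intro M N
    simp [ci, List.map_append, List.sum_append]
  obtain ⟨hG1, hG2⟩ := ce_int ρ l hrl L
  have hle : ∀ p : ℝ × ℝ, ce ρ l L p ≤
      fT T z p.1 (ρ * p.1 + l * p.2) + fT T z (ρ * p.1 + l * p.2) p.1 := by
    intro p
    have h := pw2 T z c2 c4 c6 hT0 hT1 hz0 hz1 hths p.1 (ρ * p.1 + l * p.2)
    refine le_trans (le_of_eq ?_) h
    rw [hL]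
    simp only [happce, hmapce]
    simp only [ce, cm, L1, L2, L3, L4, L5, L6, L7, L8, L9, List.map_cons, List.map_nil,
      List.sum_cons, List.sum_nil]
    ring
  have h1 := integral_mono hG1 (hf1.add hf2) hle
  simp only [Pi.add_apply] at h1
  rw [integral_add hf1 hf2, hsw, hG2, hL] at h1
  simp only [happci, hmapci] at h1
  linarith

theorem pair_valC (z : ℝ) (hz0 : 1 / 5 ≤ z) (hz1 : z ≤ 1) (ρ l : ℝ) (hrl : ρ ^ 2 + l ^ 2 = 1) :
    l ^ 2 * RC z / 2 ≤ ∫ p : ℝ × ℝ, fT (3 / 4) z p.1 (ρ * p.1 + l * p.2) ∂(nu.prod nu) := by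
  have hl1 : l ^ 2 ≤ 1 := by nlinarith [sq_nonneg ρ]
  have h1 := valC (l ^ 2) z (sq_nonneg l) hl1 hz0 hz1
  have h2 := pair_gen2 (3 / 4) z (5325 / 10000) (34 / 100) 0 (by norm_num) (by norm_num)
    (by linarith) hz1 (fun u hu => by have := thsB u hu; linarith) ρ l hrl
  linarith

theorem pair_valD (z : ℝ) (hz0 : 0 ≤ z) (hz1 : z ≤ 1) (ρ l : ℝ) (hrl : ρ ^ 2 + l ^ 2 = 1) :
    l ^ 2 * RD z / 2 ≤ ∫ p : ℝ × ℝ, fT 1 z p.1 (ρ * p.1 + l * p.2) ∂(nu.prod nu) := by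
  have hl1 : l ^ 2 ≤ 1 := by nlinarith [sq_nonneg ρ]
  have h1 := valD (l ^ 2) z (sq_nonneg l) hl1 hz0 hz1
  have h2 := pair_gen2 1 z (561 / 1000) (14 / 100) (3 / 10) zero_le_one le_rfl hz0 hz1 thsA ρ l hrl
  linarith

end Pool.Agent.Lib.MP_589a62_gt.Full
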