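import Pool.Agent.Lib.MP_589a62_gt.Full.PairBound
import Pool.Agent.Lib.MP_589a62_gt.Full.PairValB

/-!
# The improved rates
-/

set_option autoImplicit false

namespace Pool.Agent.Lib.MP_589a62_gt.Full

lemma good_C (z : ℝ) (hz0 : 1 / 5 ≤ z) (hz1 : z ≤ 1) : Good (3 / 4) z (RC z) :=
  fun ρ l h => pair_valC z hz0 hz1 ρ l h

lemma good_D (z : ℝ) (hz0 : 0 ≤ z) (hz1 : z ≤ 1) : Good 1 z (RD z) :=
  fun ρ l h => pair_valD z hz0 hz1 ρ l h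

lemma RA_le_RD (z : ℝ) (_hz0 : 0 ≤ z) (hz1 : z ≤ 1) : RA z ≤ RD z := by
  unfold RA RD
  have h4 : 0 ≤ z ^ 4 := by positivity
  nlinarith [mul_nonneg h4 (by linarith : 0 ≤ 848 / 723 - z)]

lemma RB_le_RC (z : ℝ) (_hz0 : 0 ≤ z) (hz1 : z ≤ 1) : RB z ≤ RC z := by
  unfold RB RC
  have h4 : 0 ≤ z ^ 4 := by positivity
  nlinarith [mul_nonneg h4 (by linarith : 0 ≤ 201 / 129 - z)]

end Pool.Agent.Lib.MP_589a62_gt.Full
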