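import Pool.Agent.Lib.MP_589a62_gt.Full.Glue
import Pool.Agent.Lib.MP_589a62_gt.Full.GoodCD
import Mathlib.Combinatorics.SimpleGraph.Connectivity.Connected

/-!
# The decomposition into the components of the graph of near pairs
-/

set_option autoImplicit false
set_option linter.unusedVariables false
set_option linter.unusedSectionVars false

open Matrix Finset MeasureTheory Set Real
open scoped ENNReal Classical

namespace Pool.Agent.Lib.MP_589a62_gt.Full

variable {n k : ℕ}

lemma xx_symm (U : Matrix (Fin n) (Fin k) ℝ) (i j : Fin n) : xx U i j = xx U j i := by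
  unfold xx
  rw [kk_symm U i j, mul_comm]

/-- The graph of near pairs. -/
def nearG (U : Matrix (Fin n) (Fin k) ℝ) (xs : ℝ) : SimpleGraph (Fin n) where
  Adj i j := i ≠ j ∧ xs ≤ xx U i j
  symm := ⟨fun i j h => ⟨h.1.symm, by rw [xx_symm]; exact h.2⟩⟩
  loopless := ⟨fun i h => h.1 rfl⟩

/-- `{i, j}` is a component of the graph. -/
def prr (G : SimpleGraph (Fin n)) (i j : Fin n) : Prop :=
  G.Adj i j ∧ (∀ l, G.Adj i l → l = j) ∧ (∀ l, G.Adj j l → l = i)

lemma prr_symm {G : SimpleGraph (Fin n)} {i j : Fin n} (h : prr G i j) : prr G j i :=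
  ⟨h.1.symm, h.2.2, h.2.1⟩

lemma prr_unique {G : SimpleGraph (Fin n)} {i j l : Fin n} (h : prr G i j) (h' : prr G i l) :
    l = j := h.2.1 l h'.1

/-- The sum over the outer edges of `i`, the edge to `j` being dropped. -/
noncomputable def outS (U : Matrix (Fin n) (Fin k) ℝ) (i j : Fin n) : ℝ :=
  ∑ l ∈ (univ.erase i).erase j, kk U i l * (1 - xx U i l)

/-- The sum over all edges of `i`. -/
noncomputable def allS (U : Matrix (Fin n) (Fin k) ℝ) (i : Fin n) : ℝ :=
  ∑ l ∈ univ.erase i, kk U i l * (1 - xx U i l)

/-- The leak of the pair `(i,j)` at `i`. -/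
noncomputable def leak (U : Matrix (Fin n) (Fin k) ℝ) (i j : Fin n) : ℝ :=
  1 - rowSq U i - kk U i j / rowSq U i

lemma leak_nonneg (U : Matrix (Fin n) (Fin k) ℝ) (hU : Uᵀ * U = 1) (hc : ∀ i, 0 < rowSq U i)
    {i j : Fin n} (hij : i ≠ j) : 0 ≤ leak U i j := by
  have h1 := row_sum_erase U hU (hc i)
  have h2 : kk U i j / rowSq U i ≤ ∑ j ∈ univ.erase i, kk U i j / rowSq U i :=
    Finset.single_le_sum (f := fun j => kk U i j / rowSq U i)
      (fun l _ => div_nonneg (kk_nonneg U i l) (hc i).le) (by simp [Ne.symm hij])
  unfold leak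
  linarith

/-- **The reduction of the gap inequality to the components.** -/
theorem FI_of_components {m : ℕ} (U : Matrix (Fin n) (Fin k) ℝ) (hU : Uᵀ * U = 1)
    (hc : ∀ i, 0 < rowSq U i) (hc1 : ∀ i, rowSq U i < 1) (T0 : ℝ) (hT0 : 0 ≤ T0) (hT1 : T0 ≤ 1)
    (R : ℝ → ℝ) (hR : ∀ z, 0 < z → z ≤ 1 → Good T0 z (R z)) (G : SimpleGraph (Fin n))
    (H1 : ∀ i, (∀ j, ¬ G.Adj i j) →
      Large.gap m (rowSq U i) ≤ 1 / 2 * R (1 - rowSq U i) * allS U i)
    (H2 : ∀ i j, prr G i j → Large.gap m (rowSq U i) + Large.gap m (rowSq U j) ≤
      1 / 2 * R (leak U i j) * outS U i j + 1 / 2 * R (leak U j i) * outS U j i)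
    (H3 : ∀ C : Finset (Fin n), 3 ≤ C.card → (∀ i ∈ C, ∀ l, G.Adj i l → l ∈ C) →
      (∀ i ∈ C, ∀ j ∈ C, G.Reachable i j) →
      ∑ i ∈ C, Large.gap m (rowSq U i) ≤ ∑ i ∈ C, 1 / 2 * R (1 - rowSq U i) * allS U i) :
    ∃ t T σ r : Fin n → Fin n → ℝ, Adm U t T σ r ∧
      ∑ i, Large.gap m (rowSq U i) ≤ supply U t r := by
  -- the weights
  set s : Fin n → ℝ := fun i => if h : ∃ j, prr G i j then
    (if leak U i h.choose = 0 then 1 else leak U i h.choose) else 1 - rowSq U i with hs
  set t : Fin n → Fin n → ℝ := fun i j => if prr G i j then 0 else 1 with ht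
  have hs_pair : ∀ i j, prr G i j → s i = if leak U i j = 0 then 1 else leak U i j := by
    intro i j hij
    have hex : ∃ j, prr G i j := ⟨j, hij⟩
    have h1 : hex.choose = j := (prr_unique hij hex.choose_spec)
    simp only [hs, dif_pos hex, h1]
  have hs_non : ∀ i, (¬ ∃ j, prr G i j) → s i = 1 - rowSq U i := by
    intro i hi
    simp only [hs, dif_neg hi]
  have hleak : ∀ i j, prr G i j → 0 ≤ leak U i j := fun i j h => leak_nonneg U hU hc h.1.ne
  have hs0 : ∀ i, 0 < s i := by
    intro i
    by_cases hi : ∃ j, prr G i j
    · obtain ⟨j, hj⟩ := hi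
      rw [hs_pair i j hj]
      split_ifs with h0
      · exact one_pos
      · exact lt_of_le_of_ne (hleak i j hj) (Ne.symm h0)
    · rw [hs_non i hi]; linarith [hc1 i]
  have hs1 : ∀ i, s i ≤ 1 := by
    intro i
    by_cases hi : ∃ j, prr G i j
    · obtain ⟨j, hj⟩ := hi
      rw [hs_pair i j hj]
      split_ifs with h0
      · exact le_rfl
      · unfold leak
        have := div_nonneg (kk_nonneg U i j) (hc i).le
        linarith [hc i]
    · rw [hs_non i hi]; linarith [hc i]
  -- the row sums with the weights
  have hrow_pair : ∀ i j, prr G i j → ∀ f : Fin n → ℝ,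
      ∑ l ∈ univ.erase i, f l * t i l = ∑ l ∈ (univ.erase i).erase j, f l := by
    intro i j hij f
    have hji : j ∈ univ.erase i := by simp [hij.1.ne']
    rw [← Finset.add_sum_erase _ _ hji]
    have h1 : t i j = 0 := by simp only [ht, if_pos hij]
    rw [h1, mul_zero, zero_add]
    refine Finset.sum_congr rfl fun l hl => ?_
    have h2 : ¬ prr G i l := fun h => (Finset.ne_of_mem_erase hl) (prr_unique hij h)
    simp only [ht, if_neg h2, mul_one]
  have hrow_non : ∀ i, (¬ ∃ j, prr G i j) → ∀ f : Fin n → ℝ,
      ∑ l ∈ univ.erase i, f l * t i l = ∑ l ∈ univ.erase i, f l := by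
    intro i hi f
    refine Finset.sum_congr rfl fun l hl => ?_
    have h2 : ¬ prr G i l := fun h => hi ⟨l, h⟩
    simp only [ht, if_neg h2, mul_one]
  refine ⟨t, fun _ _ => T0, fun i _ => s i, fun i _ => R (s i), ?_, ?_⟩
  · refine ⟨fun i j => ?_, fun i j => ?_, fun i j => ?_, fun _ _ => rfl, fun _ _ => hT0,
      fun _ _ => hT1, fun i _ => hs0 i, fun i _ => hs1 i, fun i => ?_, fun i j _ => ?_⟩
    · simp only [ht]
      by_cases h : prr G i j
      · rw [if_pos h, if_pos (prr_symm h)]
      · rw [if_neg h, if_neg fun h' => h (prr_symm h')]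
    · simp only [ht]; split_ifs <;> norm_num
    · simp only [ht]; split_ifs <;> norm_num
    · have e : ∑ j ∈ univ.erase i, kk U i j / rowSq U i * t i j / s i =
          (∑ j ∈ univ.erase i, kk U i j / rowSq U i * t i j) / s i := by
        rw [Finset.sum_div]
      rw [e, div_le_one (hs0 i)]
      by_cases hi : ∃ j, prr G i j
      · obtain ⟨j, hj⟩ := hi
        rw [hrow_pair i j hj, hs_pair i j hj]
        have hji : j ∈ univ.erase i := by simp [hj.1.ne']
        have h1 := row_sum_erase U hU (hc i)
        rw [← Finset.add_sum_erase _ _ hji] at h1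
        have h2 : ∑ l ∈ (univ.erase i).erase j, kk U i l / rowSq U i = leak U i j := by
          unfold leak; linarith
        rw [h2]
        split_ifs with h0
        · rw [h0]; norm_num
        · exact le_rfl
      · rw [hrow_non i hi, hs_non i hi, row_sum_erase U hU (hc i)]
    · exact hR (s i) (hs0 i) (hs1 i)
  · -- the supply as a sum over the rows
    set S : Fin n → ℝ := fun i => 1 / 2 * R (s i) * ∑ l ∈ univ.erase i,
      (kk U i l * (1 - xx U i l)) * t i l with hS
    have hsup : supply U t (fun i _ => R (s i)) = ∑ i, S i := by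
      unfold supply
      rw [Finset.mul_sum]
      refine Finset.sum_congr rfl fun i _ => ?_
      simp only [hS]
      rw [Finset.mul_sum, Finset.mul_sum]
      exact Finset.sum_congr rfl fun j _ => by ring
    rw [hsup]
    have hS_pair : ∀ i j, prr G i j → S i = 1 / 2 * R (leak U i j) * outS U i j := by
      intro i j hij
      simp only [hS]
      rw [hrow_pair i j hij, hs_pair i j hij]
      split_ifs with h0
      · -- zero leak: all outer edges vanish
        have hji : j ∈ univ.erase i := by simp [hij.1.ne']
        have h1 := row_sum_erase U hU (hc i)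
        rw [← Finset.add_sum_erase _ _ hji] at h1
        have h2 : ∑ l ∈ (univ.erase i).erase j, kk U i l / rowSq U i = 0 := by
          unfold leak at h0; linarith
        have h3 : outS U i j = 0 := by
          unfold outS
          refine Finset.sum_eq_zero fun l hl => ?_
          have h4 := (Finset.sum_eq_zero_iff_of_nonneg
            (fun l _ => div_nonneg (kk_nonneg U i l) (hc i).le)).1 h2 l hl
          have h5 : kk U i l = 0 := by
            rcases div_eq_zero_iff.1 h4 with h | h
            · exact h
            · exact absurd h (hc i).ne'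
          rw [h5, zero_mul]
        have h4 : ∑ l ∈ (univ.erase i).erase j, kk U i l * (1 - xx U i l) = 0 := h3
        rw [h3, h4, mul_zero, mul_zero]
      · rfl
    have hS_non : ∀ i, (¬ ∃ j, prr G i j) → S i = 1 / 2 * R (1 - rowSq U i) * allS U i := by
      intro i hi
      simp only [hS]
      rw [hrow_non i hi, hs_non i hi]
      rfl
    -- split into the components
    have hfib : ∀ f : Fin n → ℝ, ∑ i, f i =
        ∑ C : G.ConnectedComponent, ∑ i with G.connectedComponentMk i = C, f i := fun f =>
      (Finset.sum_fiberwise _ _ _).symm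
    rw [hfib, hfib S]
    refine Finset.sum_le_sum fun C _ => ?_
    set F : Finset (Fin n) := Finset.univ.filter fun i => G.connectedComponentMk i = C with hF
    have hmem : ∀ i, i ∈ F ↔ G.connectedComponentMk i = C := by intro i; simp [hF]
    have hclosed : ∀ i ∈ F, ∀ l, G.Adj i l → l ∈ F := by
      intro i hi l hl
      rw [hmem] at hi ⊢
      rw [← hi]
      exact (SimpleGraph.ConnectedComponent.sound hl.reachable).symm
    have hreach : ∀ i ∈ F, ∀ j ∈ F, G.Reachable i j := by
      intro i hi j hj
      rw [hmem] at hi hj
      exact SimpleGraph.ConnectedComponent.exact (hi.trans hj.symm)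
    -- a pair component is exactly `{i,j}`
    have hpair : ∀ i j, i ∈ F → prr G i j → F = {i, j} := by
      intro i j hi hij
      have key : ∀ a b : Fin n, G.Walk a b → (a = i ∨ a = j) → (b = i ∨ b = j) := by
        intro a b w
        induction w with
        | nil => exact id
        | cons h p ih =>
          intro ha
          apply ih
          rcases ha with rfl | rfl
          · exact Or.inr (hij.2.1 _ h)
          · exact Or.inl (hij.2.2 _ h)
      ext l
      simp only [Finset.mem_insert, Finset.mem_singleton]
      constructor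
      · intro hl
        obtain ⟨w⟩ := hreach i hi l hl
        exact key i l w (Or.inl rfl)
      · rintro (rfl | rfl)
        · exact hi
        · exact hclosed i hi _ hij.1
    by_cases hcard3 : 3 ≤ F.card
    · have h1 := H3 F hcard3 hclosed hreach
      refine h1.trans (le_of_eq (Finset.sum_congr rfl fun i hi => ?_))
      have hni : ¬ ∃ j, prr G i j := by
        rintro ⟨j, hj⟩
        have h2 := hpair i j hi hj
        have h3 : F.card ≤ 2 := by rw [h2]; exact Finset.card_le_two
        omega
      rw [hS_non i hni]
    · rcases Finset.eq_empty_or_nonempty F with h0 | ⟨i, hi⟩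
      · rw [h0]; simp
      by_cases hnb : ∃ j, G.Adj i j
      · obtain ⟨j, hj⟩ := hnb
        have hjF := hclosed i hi j hj
        have hij : i ≠ j := hj.ne
        have hFeq : F = {i, j} := by
          refine (Finset.eq_of_subset_of_card_le ?_ ?_).symm
          · intro l hl
            simp only [Finset.mem_insert, Finset.mem_singleton] at hl
            rcases hl with rfl | rfl
            · exact hi
            · exact hjF
          · rw [Finset.card_pair hij]; omega
        have hpr : prr G i j := by
          refine ⟨hj, fun l hl => ?_, fun l hl => ?_⟩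
          · have h1 := hclosed i hi l hl
            rw [hFeq] at h1
            simp only [Finset.mem_insert, Finset.mem_singleton] at h1
            rcases h1 with h1 | h1
            · exact absurd h1 hl.ne'
            · exact h1
          · have h1 := hclosed j hjF l hl
            rw [hFeq] at h1
            simp only [Finset.mem_insert, Finset.mem_singleton] at h1
            rcases h1 with h1 | h1
            · exact h1
            · exact absurd h1 hl.ne'
        rw [hFeq, Finset.sum_pair hij, Finset.sum_pair hij, hS_pair i j hpr,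
          hS_pair j i (prr_symm hpr)]
        exact H2 i j hpr
      · push Not at hnb
        have hFeq : F = {i} := by
          ext l
          simp only [Finset.mem_singleton]
          constructor
          · intro hl
            obtain ⟨w⟩ := hreach i hi l hl
            cases w with
            | nil => rfl
            | cons h p => exact absurd h (hnb _)
          · rintro rfl; exact hi
        have hni : ¬ ∃ j, prr G i j := fun ⟨j, hj⟩ => hnb j hj.1
        rw [hFeq, Finset.sum_singleton, Finset.sum_singleton, hS_non i hni]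
        exact H1 i hnb

end Pool.Agent.Lib.MP_589a62_gt.Full
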