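import Pool.Agent.Lib.MP_589a62_gt.Full.Clus4S
import Pool.Agent.Lib.MP_589a62_gt.Full.Clus4C
import Pool.Agent.Lib.MP_589a62_gt.Full.Comp

/-!
# Components with at least four rows, `m = 2`

Every row of a component with at least four rows of the near graph (`x ≥ 7/10`) satisfies the gap
inequality alone.
-/

set_option autoImplicit false
set_option linter.unusedVariables false
set_option linter.unusedSectionVars false

open Matrix Finset

namespace Pool.Agent.Lib.MP_589a62_gt.Full.Clus4

variable {n k : ℕ}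

/-- The angle lemma in the variables `x = cos²`. -/
lemma angle_real {x y z : ℝ} (hx : 7 / 10 ≤ x) (hx1 : x ≤ 1) (hz : 7 / 10 ≤ z) (hz1 : z ≤ 1)
    (h : (2 * x - 1) ^ 2 + (2 * y - 1) ^ 2 + (2 * z - 1) ^ 2 ≤
      1 + 2 * (2 * x - 1) * (2 * y - 1) * (2 * z - 1)) : 2 / 5 - 4 / 5 * (1 - x) ≤ y := by
  by_contra hcon
  push Not at hcon
  set X := 2 * x - 1 with hX
  set Z := 2 * z - 1 with hZ
  set δ := 4 / 5 * X - 1 - (2 * y - 1) with hδ
  have hX0 : 2 / 5 ≤ X := by rw [hX]; linarith
  have hX1 : X ≤ 1 := by rw [hX]; linarith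
  have hZ0 : 2 / 5 ≤ Z := by rw [hZ]; linarith
  have hδ0 : 0 < δ := by rw [hδ, hX]; linarith
  have hY : 2 * y - 1 = 4 / 5 * X - 1 - δ := by rw [hδ]; ring
  rw [hY] at h
  have hneg : 0 < 1 - 4 / 5 * X := by linarith
  have e : X ^ 2 + (4 / 5 * X - 1 - δ) ^ 2 + Z ^ 2 - (1 + 2 * X * (4 / 5 * X - 1 - δ) * Z) =
      (X - 2 / 5) ^ 2 + (Z - 2 / 5) * (Z + 2 / 5 + 2 * X * (1 - 4 / 5 * X)) +
        δ ^ 2 + 2 * δ * (1 - 4 / 5 * X) + 2 * X * Z * δ := by ring
  have h1 : 0 ≤ (Z - 2 / 5) * (Z + 2 / 5 + 2 * X * (1 - 4 / 5 * X)) := by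
    have h0 : 0 ≤ Z - 2 / 5 := by linarith
    have h0' : 0 ≤ X := by linarith
    have h0'' : 0 ≤ Z := by linarith
    positivity
  have h2 : 0 < 2 * δ * (1 - 4 / 5 * X) := by positivity
  have h3 : 0 ≤ 2 * X * Z * δ := by
    have h0' : 0 ≤ X := by linarith
    have h0'' : 0 ≤ Z := by linarith
    positivity
  nlinarith [sq_nonneg (X - 2 / 5), sq_nonneg δ]

section
variable (U : Matrix (Fin n) (Fin k) ℝ)

lemma kk_form (hc : ∀ i, 0 < rowSq U i) (i j : Fin n) :
    kk U i j = rowSq U i * (rowSq U j * xx U i j) := by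
  unfold xx
  have hi := (hc i).ne'
  have hj := (hc j).ne'
  field_simp

lemma xx_nonneg (hc : ∀ i, 0 < rowSq U i) (i j : Fin n) : 0 ≤ xx U i j :=
  div_nonneg (kk_nonneg U i j) (mul_pos (hc i) (hc j)).le

lemma xx_le_one (hc : ∀ i, 0 < rowSq U i) (i j : Fin n) : xx U i j ≤ 1 := by
  unfold xx
  rw [div_le_one (mul_pos (hc i) (hc j))]
  exact kk_le U i j

lemma xx_self (hc : ∀ i, 0 < rowSq U i) (i : Fin n) : xx U i i = 1 := by
  unfold xx
  rw [kk_self, sq, div_self (mul_pos (hc i) (hc i)).ne']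

lemma part_sum (hU : Uᵀ * U = 1) (hc : ∀ i, 0 < rowSq U i) (i : Fin n) (S : Finset (Fin n)) :
    ∑ j ∈ S, rowSq U j * xx U i j ≤ 1 := by
  have h1 : ∑ j ∈ S, kk U i j ≤ rowSq U i := by
    rw [← sum_kk U hU i]
    exact Finset.sum_le_sum_of_subset_of_nonneg (Finset.subset_univ S)
      fun j _ _ => kk_nonneg U i j
  have h2 : ∑ j ∈ S, kk U i j = rowSq U i * ∑ j ∈ S, rowSq U j * xx U i j := by
    rw [Finset.mul_sum]
    exact Finset.sum_congr rfl fun j _ => kk_form U hc i j
  rw [h2] at h1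
  have h3 : rowSq U i * ∑ j ∈ S, rowSq U j * xx U i j ≤ rowSq U i * 1 := by linarith
  exact le_of_mul_le_mul_left h3 (hc i)

lemma part_four (hU : Uᵀ * U = 1) (hc : ∀ i, 0 < rowSq U i) (i : Fin n) {p q r s : Fin n}
    (h1 : p ≠ q) (h2 : p ≠ r) (h3 : p ≠ s) (h4 : q ≠ r) (h5 : q ≠ s) (h6 : r ≠ s) :
    rowSq U p * xx U i p + rowSq U q * xx U i q + rowSq U r * xx U i r +
      rowSq U s * xx U i s ≤ 1 := by
  have h := part_sum U hU hc i {p, q, r, s}
  rw [Finset.sum_insert (by simp [h1, h2, h3]), Finset.sum_insert (by simp [h4, h5]),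
    Finset.sum_insert (by simp [h6]), Finset.sum_singleton] at h
  linarith

lemma angle (hc : ∀ i, 0 < rowSq U i) {a b d : Fin n} (hab : 7 / 10 ≤ xx U a b)
    (hbd : 7 / 10 ≤ xx U b d) : 2 / 5 - 4 / 5 * (1 - xx U a b) ≤ xx U a d :=
  angle_real hab (xx_le_one U hc a b) hbd (xx_le_one U hc b d)
    (x_cross U hc a b d (x := xx U a b) (y := xx U a d) (z := xx U b d) rfl rfl rfl (by
      have := xx_nonneg U hc a d
      linarith))

end

/-- **One row of a component with at least four rows.** -/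
theorem row_four (U : Matrix (Fin n) (Fin k) ℝ) (hU : Uᵀ * U = 1) (hmax : IsMax 2 U)
    (C : Finset (Fin n)) (h4 : 4 ≤ C.card)
    (hcl : ∀ i ∈ C, ∀ l, (nearG U (7 / 10)).Adj i l → l ∈ C)
    (hre : ∀ i ∈ C, ∀ j ∈ C, (nearG U (7 / 10)).Reachable i j) (i : Fin n) (hi : i ∈ C) :
    Large.gap 2 (rowSq U i) ≤
      1 / 2 * RC (1 - rowSq U i) * (∑ j ∈ C, kk U i j * (1 - xx U i j)) +
      1 / 2 * RD (1 - rowSq U i) * (∑ j ∈ Cᶜ, kk U i j * (1 - xx U i j)) := by
  have hlo : ∀ i, 1 / 3 ≤ rowSq U i := by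
    intro i
    have := crit_lower (m := 2) (by norm_num) U hU hmax i
    norm_num at this
    linarith
  have hhi : ∀ i, rowSq U i ≤ 1 / 2 := by
    intro i
    have := crit_upper (m := 2) (by norm_num) U hU hmax i
    norm_num at this
    linarith
  have hc : ∀ i, 0 < rowSq U i := fun i => by linarith [hlo i]
  have hB : ∀ i j, 1 / rowSq U i ≤ 1 / rowSq U j + (1 - xx U i j) := by
    intro i j
    have h := (abs_le.1 (crit_B (m := 2) (by norm_num) U hU hmax i j)).2
    have e : kk U i j / (rowSq U i * rowSq U j) = xx U i j := rfl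
    rw [e] at h
    linarith
  have hx0 := xx_nonneg U hc
  have hx1 := xx_le_one U hc
  have hself := xx_self U hc
  have hkk := kk_form U hc
  have hterm : ∀ j, 0 ≤ kk U i j * (1 - xx U i j) := fun j =>
    mul_nonneg (kk_nonneg U i j) (by linarith [hx1 i j])
  set c := rowSq U i with hcdef
  have hc1 : 1 / 3 ≤ c := hlo i
  have hc2 : c ≤ 1 / 2 := hhi i
  have hcp : 0 < c := hc i
  have hRC : 0 ≤ RC (1 - c) := by
    have := RC_ge hc1 hc2; linarith
  have hRD : 0 ≤ RD (1 - c) := by
    have := RD_ge hc1 hc2; linarith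
  have hRR := RD_le_RC hc1 hc2
  -- at most two mates
  have hdeg : ∀ i a b d, (nearG U (7 / 10)).Adj i a → (nearG U (7 / 10)).Adj i b →
      (nearG U (7 / 10)).Adj i d → a = b ∨ a = d ∨ b = d := by
    intro j a b d ha hb hd
    by_contra hne
    push Not at hne
    have h := part_four U hU hc j ha.1 hb.1 hd.1 hne.1 hne.2.1 hne.2.2
    rw [hself j] at h
    have h1 := ha.2
    have h2 := hb.2
    have h3 := hd.2
    nlinarith [hlo j, hlo a, hlo b, hlo d, mul_nonneg (sub_nonneg.2 (hlo a)) (hx0 j a),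
      mul_nonneg (sub_nonneg.2 (hlo b)) (hx0 j b), mul_nonneg (sub_nonneg.2 (hlo d)) (hx0 j d)]
  have hout0 : 0 ≤ ∑ j ∈ Cᶜ, kk U i j * (1 - xx U i j) :=
    Finset.sum_nonneg fun j _ => hterm j
  rcases four_cases (nearG U (7 / 10)) C h4 hcl hre hdeg i hi with
    ⟨a, b, d, haC, hbC, hdC, hab, hid, had, hia, hib, hbd, hnid⟩ |
    ⟨a, b, d, haC, hbC, hdC, hib, hid, had, hia, hab, hbd, hone⟩
  · -- two mates
    have hbd' : b ≠ d := hbd.1
    have hxd : xx U i d ≤ 7 / 10 := by
      by_contra hcon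
      push Not at hcon
      exact hnid ⟨hid, hcon.le⟩
    have hang := angle U hc hib.2 hbd.2
    have hx3 : 4 / 25 ≤ xx U i d := by
      have := hib.2
      linarith
    have hsum := part_four U hU hc i hia.1 hib.1 hid hab had hbd'
    rw [hself i] at hsum
    have m1 := mate (c := c) (d := rowSq U a) (y := 1 - xx U i a) hcp (by linarith) (hc a)
      (by linarith [hx1 i a]) (by linarith [hia.2])
      (by have := hB a i; rw [xx_symm U a i] at this; linarith) (by have := hB i a; linarith)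
    have m2 := mate (c := c) (d := rowSq U b) (y := 1 - xx U i b) hcp (by linarith) (hc b)
      (by linarith [hx1 i b]) (by linarith [hib.2])
      (by have := hB b i; rw [xx_symm U b i] at this; linarith) (by have := hB i b; linarith)
    have e1 : 1 - (1 - xx U i a) = xx U i a := by ring
    have e2 : 1 - (1 - xx U i b) = xx U i b := by ring
    rw [e1] at m1
    rw [e2] at m2
    have ht := t4 (c := c) (p1 := rowSq U a * xx U i a) (p2 := rowSq U b * xx U i b)
      (p3 := rowSq U d * xx U i d) (x3 := xx U i d)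
      (f1 := rowSq U a * xx U i a * (1 - xx U i a)) (f2 := rowSq U b * xx U i b * (1 - xx U i b))
      (f3 := rowSq U d * xx U i d * (1 - xx U i d)) hc1 hc2 m1 m2
      (by nlinarith [mul_nonneg (sub_nonneg.2 (hlo d)) (hx0 i d)]) hx3 hxd le_rfl (by linarith)
    have hC : c * (rowSq U a * xx U i a * (1 - xx U i a) + rowSq U b * xx U i b * (1 - xx U i b) +
        rowSq U d * xx U i d * (1 - xx U i d)) ≤ ∑ j ∈ C, kk U i j * (1 - xx U i j) := by
      have hsub : ({a, b, d} : Finset (Fin n)) ⊆ C := by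
        intro j hj
        simp only [Finset.mem_insert, Finset.mem_singleton] at hj
        rcases hj with rfl | rfl | rfl <;> assumption
      refine le_trans (le_of_eq ?_) (Finset.sum_le_sum_of_subset_of_nonneg hsub
        fun j _ _ => hterm j)
      rw [Finset.sum_insert (by simp [hab, had]), Finset.sum_insert (by simp [hbd']),
        Finset.sum_singleton, hkk i a, hkk i b, hkk i d]
      ring
    have h5 := mul_le_mul_of_nonneg_left hC hRC
    have h6 := mul_nonneg hRD hout0
    linarith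
  · -- one mate
    have hia' : i ≠ a := hia.1
    have hab' : a ≠ b := hab.1
    have hbd' : b ≠ d := hbd.1
    set y := 1 - xx U i a with hy
    have hy0 : 0 ≤ y := by rw [hy]; linarith [hx1 i a]
    have hy1 : y ≤ 3 / 10 := by rw [hy]; linarith [hia.2]
    have hxa : xx U i a = 1 - y := by rw [hy]; ring
    -- angles
    have hib2 := angle U hc hia.2 hab.2
    have had2 := angle U hc hab.2 hbd.2
    have had3 : 4 / 25 ≤ xx U a d := by
      have := hab.2
      linarith
    have hxb : xx U i b ≤ 7 / 10 := by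
      by_contra hcon
      push Not at hcon
      exact hab' (hone b ⟨hib, hcon.le⟩).symm
    -- row of `i`
    have r0 := part_four U hU hc i hia' hib hid hab' had hbd'
    rw [hself i] at r0
    -- row of `a`
    have r1 := part_four U hU hc a hia' hib hid hab' had hbd'
    rw [hself a, xx_symm U a i, hxa] at r1
    have hK : c * (1 - y) + rowSq U a ≤ 107 / 150 := by
      have h1 : 7 / 30 ≤ rowSq U b * xx U a b := by
        have := hab.2
        nlinarith [hlo b]
      have h2 : 4 / 75 ≤ rowSq U d * xx U a d := by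
        nlinarith [hlo d]
      linarith
    -- row of `b`
    have r2 := part_four U hU hc b hia' hib hid hab' had hbd'
    rw [hself b, xx_symm U b i] at r2
    have hx2 : c * xx U i b ≤ 1 / 5 := by
      have h1 : 7 / 30 ≤ rowSq U a * xx U b a := by
        have := hab.symm.2
        nlinarith [hlo a]
      have h2 : 7 / 30 ≤ rowSq U d * xx U b d := by
        have := hbd.2
        nlinarith [hlo d]
      have h3 := hlo b
      linarith
    have hca := hc a
    have hBa := hB i a
    have hBa' := hB a i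
    rw [xx_symm U a i] at hBa'
    have hcca : c ≤ rowSq U a * (1 + c * y) := by
      have h := mul_le_mul_of_nonneg_left hBa' (mul_pos hcp hca).le
      have e1 : c * rowSq U a * (1 / rowSq U a) = c := by field_simp
      have e2 : c * rowSq U a * (1 / rowSq U i + (1 - xx U i a)) = rowSq U a * (1 + c * y) := by
        rw [← hcdef, ← hy]; field_simp
      linarith
    have hym : 2 * c - 107 / 150 ≤ c * (1 + c) * y := by
      have hcy0 : 0 ≤ c * y := mul_nonneg hcp.le hy0
      have hcy1 : c * y ≤ 1 := by nlinarith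
      have h1 : c * (1 - c * y) ≤ rowSq U a * (1 + c * y) * (1 - c * y) :=
        mul_le_mul_of_nonneg_right hcca (by linarith)
      have h2 : rowSq U a * (1 + c * y) * (1 - c * y) ≤ rowSq U a := by
        nlinarith [mul_nonneg hca.le (mul_nonneg hcy0 hcy0)]
      nlinarith
    have hcp1 : c * (rowSq U a * xx U i a) ≤ 11449 / 90000 := by
      rw [hxa]
      have h1 : 0 ≤ c * (1 - y) := mul_nonneg hcp.le (by linarith)
      nlinarith [sq_nonneg (c * (1 - y) - rowSq U a)]
    have ht := t3 (c := c) (p1 := rowSq U a * xx U i a) (p2 := rowSq U b * xx U i b) (y := y)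
      (x2 := xx U i b) hc1 hc2 hy0 hy1 (mul_nonneg hca.le (hx0 i a)) hcp1 hym
      hib2 hx2 hxb (by nlinarith [mul_nonneg (sub_nonneg.2 (hlo b)) (hx0 i b)]) (by
        have : 0 ≤ rowSq U d * xx U i d := mul_nonneg (hc d).le (hx0 i d)
        linarith)
    -- the sums
    have hfar : ∀ j, j ≠ i → j ≠ a → 3 / 10 ≤ 1 - xx U i j := by
      intro j hj1 hj2
      by_contra hcon
      push Not at hcon
      exact hj2 (hone j ⟨hj1.symm, by linarith⟩)
    have hbE : b ∈ (C.erase i).erase a := by simp [hbC, hib.symm, hab'.symm]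
    have haE : a ∈ C.erase i := by simp [haC, hia'.symm]
    have hsumC : ∑ j ∈ C, kk U i j * (1 - xx U i j) =
        kk U i i * (1 - xx U i i) + (kk U i a * (1 - xx U i a) + (kk U i b * (1 - xx U i b) +
          ∑ j ∈ ((C.erase i).erase a).erase b, kk U i j * (1 - xx U i j))) := by
      rw [← Finset.add_sum_erase _ _ hi, ← Finset.add_sum_erase _ _ haE,
        ← Finset.add_sum_erase _ _ hbE]
    have hsumK : ∑ j ∈ C, kk U i j =
        kk U i i + (kk U i a + (kk U i b + ∑ j ∈ ((C.erase i).erase a).erase b, kk U i j)) := by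
      rw [← Finset.add_sum_erase _ _ hi, ← Finset.add_sum_erase _ _ haE,
        ← Finset.add_sum_erase _ _ hbE]
    have htot : ∑ j ∈ C, kk U i j + ∑ j ∈ Cᶜ, kk U i j = c := by
      rw [Finset.sum_add_sum_compl, sum_kk U hU i]
    set Rin := ∑ j ∈ ((C.erase i).erase a).erase b, kk U i j with hRin
    set Rout := ∑ j ∈ Cᶜ, kk U i j with hRout
    have hin : 3 / 10 * Rin ≤ ∑ j ∈ ((C.erase i).erase a).erase b, kk U i j * (1 - xx U i j) := by
      rw [hRin, Finset.mul_sum]
      refine Finset.sum_le_sum fun j hj => ?_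
      have h1 : j ≠ i := by
        have := Finset.ne_of_mem_erase (Finset.mem_of_mem_erase (Finset.mem_of_mem_erase hj))
        exact this
      have h2 : j ≠ a := Finset.ne_of_mem_erase (Finset.mem_of_mem_erase hj)
      have := mul_le_mul_of_nonneg_left (hfar j h1 h2) (kk_nonneg U i j)
      linarith
    have hout : 3 / 10 * Rout ≤ ∑ j ∈ Cᶜ, kk U i j * (1 - xx U i j) := by
      rw [hRout, Finset.mul_sum]
      refine Finset.sum_le_sum fun j hj => ?_
      have hjC : j ∉ C := Finset.mem_compl.1 hj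
      have h1 : j ≠ i := fun h => hjC (h ▸ hi)
      have h2 : j ≠ a := fun h => hjC (h ▸ haC)
      have := mul_le_mul_of_nonneg_left (hfar j h1 h2) (kk_nonneg U i j)
      linarith
    have hRin0 : 0 ≤ Rin := Finset.sum_nonneg fun j _ => kk_nonneg U i j
    have hii : kk U i i = c * c := by rw [kk_self, sq]
    have eself : kk U i i * (1 - xx U i i) = 0 := by rw [hself i]; ring
    rw [hsumC, eself, hkk i a, hkk i b]
    rw [hsumK, hii, hkk i a, hkk i b] at htot
    -- collect
    have hI := mul_le_mul_of_nonneg_left hin hRC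
    have hO := mul_le_mul_of_nonneg_left hout hRD
    have hI2 : RD (1 - c) * (3 / 10 * Rin) ≤ RC (1 - c) * (3 / 10 * Rin) :=
      mul_le_mul_of_nonneg_right hRR (by positivity)
    have e5 : 3 / 10 * RD (1 - c) * (c * (1 - c - rowSq U a * xx U i a - rowSq U b * xx U i b)) =
        RD (1 - c) * (3 / 10 * Rin) + RD (1 - c) * (3 / 10 * Rout) := by
      have : c * (1 - c - rowSq U a * xx U i a - rowSq U b * xx U i b) = Rin + Rout := by
        have e6 : rowSq U i = c := rfl
        rw [e6] at htot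
        linarith
      rw [this]; ring
    rw [e5] at ht
    have e7 : RC (1 - c) * (c * (rowSq U a * xx U i a * y + rowSq U b * xx U i b * (1 - xx U i b))) =
        RC (1 - c) * (c * (rowSq U a * xx U i a) * y) +
          RC (1 - c) * (c * (rowSq U b * xx U i b) * (1 - xx U i b)) := by ring
    rw [e7] at ht
    have e8 : 1 / 2 * RC (1 - c) * (0 + (c * (rowSq U a * xx U i a) * (1 - xx U i a) +
        (c * (rowSq U b * xx U i b) * (1 - xx U i b) +
          ∑ j ∈ ((C.erase i).erase a).erase b, kk U i j * (1 - xx U i j)))) =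
        1 / 2 * (RC (1 - c) * (c * (rowSq U a * xx U i a) * y) +
          RC (1 - c) * (c * (rowSq U b * xx U i b) * (1 - xx U i b)) +
          RC (1 - c) * ∑ j ∈ ((C.erase i).erase a).erase b, kk U i j * (1 - xx U i j)) := by
      rw [hy]; ring
    rw [e8]
    linarith

/-- **Components with at least four rows.** -/
theorem clus_four (U : Matrix (Fin n) (Fin k) ℝ) (hU : Uᵀ * U = 1) (hmax : IsMax 2 U)
    (C : Finset (Fin n)) (h4 : 4 ≤ C.card)
    (hcl : ∀ i ∈ C, ∀ l, (nearG U (7 / 10)).Adj i l → l ∈ C)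
    (hre : ∀ i ∈ C, ∀ j ∈ C, (nearG U (7 / 10)).Reachable i j) :
    ∑ i ∈ C, Large.gap 2 (rowSq U i) ≤ ∑ i ∈ C,
      (1 / 2 * RC (1 - rowSq U i) * (∑ j ∈ C, kk U i j * (1 - xx U i j)) +
        1 / 2 * RD (1 - rowSq U i) * (∑ j ∈ Cᶜ, kk U i j * (1 - xx U i j))) :=
  Finset.sum_le_sum fun i hi => row_four U hU hmax C h4 hcl hre i hi

end Pool.Agent.Lib.MP_589a62_gt.Full.Clus4
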