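import Pool.Agent.Lib.MP_589a62_gt.Det
import Mathlib.LinearAlgebra.Matrix.Charpoly.Coeff
import Mathlib.Analysis.Calculus.MeanValue
import Mathlib.Analysis.Calculus.Deriv.Polynomial
import Mathlib.Analysis.SpecialFunctions.Log.Deriv

/-!
# The pair inequality

For a matrix `U` with orthonormal columns and positive numbers `α_i`,
`log det (Uᵀ diag(α) U) - ∑ c_i log α_i ≥ 1/2 ∑_ij k_ij² θ(log α_i - log α_j)`,
where `k = U Uᵀ` and `θ(r) = |r| - 1 + exp (-|r|)`.
-/

set_option autoImplicit false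

open Matrix Finset Set Real Filter Topology

namespace Pool.Agent.Lib.MP_589a62_gt.Full

/-- The function `θ(r) = |r| - 1 + exp (-|r|)`. -/
noncomputable def th (r : ℝ) : ℝ := |r| - 1 + Real.exp (-|r|)

lemma th_nonneg (r : ℝ) : 0 ≤ th r := by
  have := Real.add_one_le_exp (-|r|)
  unfold th; linarith

lemma th_neg (r : ℝ) : th (-r) = th r := by unfold th; rw [abs_neg]

lemma th_zero : th 0 = 0 := by simp [th]

variable {ι κ : Type*} [Fintype ι] [Fintype κ] [DecidableEq κ] [DecidableEq ι]

/-- The matrix `Uᵀ diag(β) U`. -/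
noncomputable def AM (U : Matrix ι κ ℝ) (β : ι → ℝ) : Matrix κ κ ℝ := Uᵀ * diagonal β * U

omit [DecidableEq κ] [Fintype κ] in
lemma AM_transpose (U : Matrix ι κ ℝ) (β : ι → ℝ) : (AM U β)ᵀ = AM U β := by
  simp [AM, Matrix.transpose_mul, Matrix.mul_assoc]

omit [DecidableEq κ] [Fintype κ] in
lemma AM_add_smul (U : Matrix ι κ ℝ) (β γ : ι → ℝ) (r : ℝ) :
    AM U (β + r • γ) = AM U β + r • AM U γ := by
  have : (diagonal (β + r • γ) : Matrix ι ι ℝ) = diagonal β + r • diagonal γ := by
    ext i j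
    by_cases h : i = j
    · subst h; simp
    · simp [h]
  rw [AM, AM, AM, this, Matrix.mul_add, Matrix.add_mul, Matrix.mul_smul, Matrix.smul_mul]

omit [DecidableEq κ] in
lemma dot_AM (U : Matrix ι κ ℝ) (β : ι → ℝ) (v : κ → ℝ) :
    v ⬝ᵥ (AM U β *ᵥ v) = ∑ i, β i * (U *ᵥ v) i ^ 2 := by
  rw [AM, ← Matrix.mulVec_mulVec, ← Matrix.mulVec_mulVec, Matrix.dotProduct_mulVec,
    Matrix.vecMul_transpose, dotProduct]
  refine Finset.sum_congr rfl fun i _ => ?_
  rw [Matrix.mulVec_diagonal]
  ring

lemma AM_det_pos (U : Matrix ι κ ℝ) (hU : Uᵀ * U = 1) {β : ι → ℝ} (hβ : ∀ i, 0 < β i) :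
    0 < (AM U β).det := by
  have h1 := prod_rpow_le_det U hU β (fun i => (hβ i).le)
  exact lt_of_lt_of_le (Finset.prod_pos fun i _ => Real.rpow_pos_of_pos (hβ i) _) h1

omit [DecidableEq ι] [DecidableEq κ] [Fintype ι] in
lemma mulVec_row (U : Matrix ι κ ℝ) (i j : ι) : (U *ᵥ (U i)) j = (U * Uᵀ) i j := by
  simp only [Matrix.mulVec, dotProduct, Matrix.mul_apply, Matrix.transpose_apply]
  exact Finset.sum_congr rfl fun l _ => mul_comm _ _

omit [DecidableEq ι] in
lemma sum_sq_ker (U : Matrix ι κ ℝ) (hU : Uᵀ * U = 1) (i : ι) :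
    ∑ j, (U * Uᵀ) i j ^ 2 = rowSq U i := by
  have h1 : (U * Uᵀ) * (U * Uᵀ) = U * Uᵀ := by
    calc (U * Uᵀ) * (U * Uᵀ) = U * (Uᵀ * U) * Uᵀ := by simp only [Matrix.mul_assoc]
      _ = U * Uᵀ := by rw [hU, Matrix.mul_one]
  have h2 := congrFun (congrFun h1 i) i
  rw [Matrix.mul_apply] at h2
  have h3 : ∀ j, (U * Uᵀ) j i = (U * Uᵀ) i j := by
    intro j
    simp only [Matrix.mul_apply, Matrix.transpose_apply]
    exact Finset.sum_congr rfl fun l _ => mul_comm _ _
  have h4 : (U * Uᵀ) i i = rowSq U i := by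
    simp only [Matrix.mul_apply, Matrix.transpose_apply, rowSq, sq]
  rw [h4] at h2
  rw [← h2]
  refine Finset.sum_congr rfl fun j _ => ?_
  rw [h3 j, sq]

lemma inv_quad (U : Matrix ι κ ℝ) (hU : Uᵀ * U = 1) {β : ι → ℝ} (hβ : ∀ i, 0 < β i) {s : ℝ}
    (_hs : 0 < s) (i : ι) :
    1 / s * (rowSq U i + ∑ j, (1 - β j / s) * (U * Uᵀ) i j ^ 2) ≤
      U i ⬝ᵥ ((AM U β)⁻¹ *ᵥ (U i)) := by
  have hdet := AM_det_pos U hU hβ
  have hu : IsUnit (AM U β).det := isUnit_iff_ne_zero.2 hdet.ne'
  set A := AM U β with hA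
  set v := U i with hv
  set y := A⁻¹ *ᵥ v with hy
  have hAy : A *ᵥ y = v := by
    rw [hy, Matrix.mulVec_mulVec, Matrix.mul_nonsing_inv _ hu, Matrix.one_mulVec]
  have h0 : 0 ≤ (y - (1 / s) • v) ⬝ᵥ (A *ᵥ (y - (1 / s) • v)) := by
    rw [hA, dot_AM]
    exact Finset.sum_nonneg fun j _ => mul_nonneg (hβ j).le (sq_nonneg _)
  have hsym : y ⬝ᵥ (A *ᵥ v) = v ⬝ᵥ v := by
    rw [Matrix.dotProduct_mulVec, ← Matrix.mulVec_transpose, hA, AM_transpose, ← hA, hAy]
  have hvv : v ⬝ᵥ v = rowSq U i := by simp only [hv, rowSq, dotProduct, sq]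
  have hvAv : v ⬝ᵥ (A *ᵥ v) = ∑ j, β j * (U * Uᵀ) i j ^ 2 := by
    rw [hA, dot_AM]
    exact Finset.sum_congr rfl fun j _ => by rw [hv, mulVec_row]
  rw [Matrix.mulVec_sub, Matrix.mulVec_smul, hAy, sub_dotProduct, dotProduct_sub, dotProduct_sub,
    smul_dotProduct, smul_dotProduct, dotProduct_smul, dotProduct_smul, hsym, hvAv, hvv,
    dotProduct_comm y v] at h0
  simp only [smul_eq_mul] at h0
  have h5 : ∑ j, (1 - β j / s) * (U * Uᵀ) i j ^ 2 =
      rowSq U i - 1 / s * ∑ j, β j * (U * Uᵀ) i j ^ 2 := by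
    rw [← sum_sq_ker U hU i, Finset.mul_sum, ← Finset.sum_sub_distrib]
    exact Finset.sum_congr rfl fun j _ => by ring
  rw [h5]
  nlinarith [h0]

/-- The derivative of the determinant. -/
lemma hasDerivAt_det (M N : Matrix κ κ ℝ) (hM : IsUnit M.det) :
    HasDerivAt (fun r : ℝ => (M + r • N).det) (M.det * (M⁻¹ * N).trace) 0 := by
  have h1 : ∀ r : ℝ, (M + r • N).det = M.det * (1 + r • (M⁻¹ * N)).det := by
    intro r
    rw [← Matrix.det_mul]
    congr 1
    rw [Matrix.mul_add, Matrix.mul_one, Matrix.mul_smul, ← Matrix.mul_assoc,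
      Matrix.mul_nonsing_inv _ hM, Matrix.one_mul]
  have h2 : (fun r : ℝ => (M + r • N).det) = fun r => M.det * (1 + (M⁻¹ * N).trace * r +
      (det (1 + (Polynomial.X : Polynomial ℝ) • (M⁻¹ * N).map Polynomial.C)).divX.divX.eval r
        * r ^ 2) := by
    funext r
    rw [h1, Matrix.det_one_add_smul]
  rw [h2]
  set p := (det (1 + (Polynomial.X : Polynomial ℝ) • (M⁻¹ * N).map Polynomial.C)).divX.divX
  have h3 : HasDerivAt (fun r : ℝ => M.det * (1 + (M⁻¹ * N).trace * r + p.eval r * r ^ 2))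
      (M.det * ((M⁻¹ * N).trace * 1 + (p.derivative.eval 0 * 0 ^ 2 +
        p.eval 0 * ((2 : ℕ) * 0 ^ (2 - 1))))) 0 := by
    refine HasDerivAt.const_mul _ ?_
    have h4 : HasDerivAt (fun r : ℝ => 1 + (M⁻¹ * N).trace * r) ((M⁻¹ * N).trace * 1) 0 :=
      ((hasDerivAt_id (0 : ℝ)).const_mul _).const_add _
    exact h4.add ((p.hasDerivAt 0).mul (hasDerivAt_pow 2 (0 : ℝ)))
  refine h3.congr_deriv ?_
  simp

lemma trace_inv_mul (U : Matrix ι κ ℝ) (A : Matrix κ κ ℝ) (χ : ι → ℝ) :
    (A⁻¹ * AM U χ).trace = ∑ i, χ i * (U i ⬝ᵥ (A⁻¹ *ᵥ (U i))) := by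
  rw [AM, ← Matrix.mul_assoc, ← Matrix.mul_assoc, Matrix.trace_mul_comm, ← Matrix.mul_assoc,
    ← Matrix.mul_assoc, Matrix.trace]
  refine Finset.sum_congr rfl fun i _ => ?_
  rw [Matrix.diag_apply, Matrix.mul_diagonal, mul_comm]
  congr 1
  rw [Matrix.mul_assoc, Matrix.mul_apply]
  simp only [dotProduct, Matrix.mulVec, Matrix.mul_apply, Matrix.transpose_apply]

/-! ### Derivatives in the truncation parameter -/

/-- The indicator of `s < a`. -/
noncomputable def ch (a s : ℝ) : ℝ := if s < a then 1 else 0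

lemma min_eventually {a s : ℝ} : ∀ᶠ t in 𝓝[≥] s, min a t = min a s + (t - s) * ch a s := by
  unfold ch
  split_ifs with h
  · have h1 : ∀ᶠ t in 𝓝[≥] s, t < a := mem_nhdsWithin_of_mem_nhds (Iio_mem_nhds h)
    filter_upwards [h1, self_mem_nhdsWithin] with t ht1 ht2
    rw [min_eq_right ht1.le, min_eq_right h.le]
    ring
  · filter_upwards [self_mem_nhdsWithin] with t ht
    rw [not_lt] at h
    have ht' : s ≤ t := ht
    rw [min_eq_left (h.trans ht'), min_eq_left h]
    ring

lemma hasDerivWithinAt_min (a s : ℝ) : HasDerivWithinAt (fun t => min a t) (ch a s) (Ici s) s := by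
  have h1 : HasDerivWithinAt (fun t => min a s + (t - s) * ch a s) (1 * ch a s) (Ici s) s :=
    ((((hasDerivAt_id s).sub_const s).mul_const (ch a s)).const_add _).hasDerivWithinAt
  rw [one_mul] at h1
  refine h1.congr_of_eventuallyEq min_eventually ?_
  simp

/-- The derivative of the pair function. -/
lemma hasDerivWithinAt_th (a b s : ℝ) (ha : 0 < a) (hb : 0 < b) (hs : 0 < s) :
    HasDerivWithinAt (fun t => th (Real.log (min a t) - Real.log (min b t)))
      (ch a s * (1 / s * (1 - min b s / s)) + ch b s * (1 / s * (1 - min a s / s))) (Ici s) s := by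
  have hbase : ∀ c : ℝ, 0 < c → c ≤ s →
      HasDerivWithinAt (fun t => Real.log t - Real.log c - 1 + c / t) (1 / s * (1 - c / s))
        (Ici s) s := by
    intro c hc hcs
    have h1 : HasDerivAt (fun t => Real.log t - Real.log c - 1 + c / t)
        (s⁻¹ + (0 * s - c * 1) / s ^ 2) s :=
      (((Real.hasDerivAt_log hs.ne').sub_const _).sub_const _).add
        ((hasDerivAt_const s c).div (hasDerivAt_id s) hs.ne')
    refine (h1.congr_deriv ?_).hasDerivWithinAt
    field_simp
    ring
  have hval : ∀ c t : ℝ, 0 < c → c ≤ t → th (Real.log t - Real.log c) =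
      Real.log t - Real.log c - 1 + c / t := by
    intro c t hc hct
    have ht : 0 < t := hc.trans_le hct
    have h1 : 0 ≤ Real.log t - Real.log c := by
      have := Real.log_le_log hc hct
      linarith
    rw [th, abs_of_nonneg h1, neg_sub, Real.exp_sub, Real.exp_log hc, Real.exp_log ht]
  by_cases h1 : s < a
  · by_cases h2 : s < b
    · have e : ch a s * (1 / s * (1 - min b s / s)) + ch b s * (1 / s * (1 - min a s / s)) = 0 := by
        rw [min_eq_right h1.le, min_eq_right h2.le, div_self hs.ne']; ring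
      rw [e]
      have h3 : ∀ᶠ t in 𝓝[≥] s, t < a := mem_nhdsWithin_of_mem_nhds (Iio_mem_nhds h1)
      have h4 : ∀ᶠ t in 𝓝[≥] s, t < b := mem_nhdsWithin_of_mem_nhds (Iio_mem_nhds h2)
      refine (hasDerivWithinAt_const s (Ici s) (0 : ℝ)).congr_of_eventuallyEq ?_ ?_
      · filter_upwards [h3, h4] with t ht1 ht2
        rw [min_eq_right ht1.le, min_eq_right ht2.le, sub_self, th_zero]
      · rw [min_eq_right h1.le, min_eq_right h2.le, sub_self, th_zero]
    · rw [not_lt] at h2
      have e : ch a s * (1 / s * (1 - min b s / s)) + ch b s * (1 / s * (1 - min a s / s)) =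
          1 / s * (1 - b / s) := by
        rw [min_eq_left h2, ch, ch, if_pos h1, if_neg (not_lt.2 h2)]; ring
      rw [e]
      have h3 : ∀ᶠ t in 𝓝[≥] s, t < a := mem_nhdsWithin_of_mem_nhds (Iio_mem_nhds h1)
      refine (hbase b hb h2).congr_of_eventuallyEq ?_ ?_
      · filter_upwards [h3, self_mem_nhdsWithin] with t ht1 ht2
        have ht2' : s ≤ t := ht2
        rw [min_eq_right ht1.le, min_eq_left (h2.trans ht2'), hval b t hb (h2.trans ht2')]
      · rw [min_eq_right h1.le, min_eq_left h2, hval b s hb h2]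
  · rw [not_lt] at h1
    by_cases h2 : s < b
    · have e : ch a s * (1 / s * (1 - min b s / s)) + ch b s * (1 / s * (1 - min a s / s)) =
          1 / s * (1 - a / s) := by
        rw [min_eq_left h1, ch, ch, if_neg (not_lt.2 h1), if_pos h2]; ring
      rw [e]
      have h3 : ∀ᶠ t in 𝓝[≥] s, t < b := mem_nhdsWithin_of_mem_nhds (Iio_mem_nhds h2)
      refine (hbase a ha h1).congr_of_eventuallyEq ?_ ?_
      · filter_upwards [h3, self_mem_nhdsWithin] with t ht1 ht2
        have ht2' : s ≤ t := ht2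
        rw [min_eq_right ht1.le, min_eq_left (h1.trans ht2'), ← th_neg, neg_sub,
          hval a t ha (h1.trans ht2')]
      · rw [min_eq_right h2.le, min_eq_left h1, ← th_neg, neg_sub, hval a s ha h1]
    · rw [not_lt] at h2
      have e : ch a s * (1 / s * (1 - min b s / s)) + ch b s * (1 / s * (1 - min a s / s)) = 0 := by
        rw [ch, ch, if_neg (not_lt.2 h1), if_neg (not_lt.2 h2)]; ring
      rw [e]
      refine (hasDerivWithinAt_const s (Ici s) (th (Real.log a - Real.log b))).congr_of_eventuallyEq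
        ?_ ?_
      · filter_upwards [self_mem_nhdsWithin] with t ht2
        have ht2' : s ≤ t := ht2
        rw [min_eq_left (h1.trans ht2'), min_eq_left (h2.trans ht2')]
      · rw [min_eq_left h1, min_eq_left h2]

/-- **The pair inequality.** -/
theorem theta_ineq (U : Matrix ι κ ℝ) (hU : Uᵀ * U = 1) (α : ι → ℝ) (hα : ∀ i, 0 < α i) :
    1 / 2 * ∑ i, ∑ j, (U * Uᵀ) i j ^ 2 * th (Real.log (α i) - Real.log (α j)) ≤
      Real.log (Uᵀ * diagonal α * U).det - ∑ i, rowSq U i * Real.log (α i) := by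
  rcases isEmpty_or_nonempty ι with hι | hι
  · have : (Uᵀ * diagonal α * U) = 1 := by
      rw [← hU]
      ext a b
      simp [Matrix.mul_apply]
    rw [this]
    simp
  obtain ⟨i0, -, hi0⟩ := Finset.exists_min_image Finset.univ α Finset.univ_nonempty
  obtain ⟨i1, -, hi1⟩ := Finset.exists_max_image Finset.univ α Finset.univ_nonempty
  set a := α i0 with ha
  set b := α i1 with hb
  have ha0 : 0 < a := hα i0
  have hab : a ≤ b := hi0 i1 (Finset.mem_univ _)
  have hαa : ∀ i, a ≤ α i := fun i => hi0 i (Finset.mem_univ _)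
  have hαb : ∀ i, α i ≤ b := fun i => hi1 i (Finset.mem_univ _)
  set f : ℝ → ℝ := fun s => 1 / 2 * ∑ i, ∑ j, (U * Uᵀ) i j ^ 2 *
    th (Real.log (min (α i) s) - Real.log (min (α j) s)) with hf
  set B : ℝ → ℝ := fun s => Real.log (AM U (fun i => min (α i) s)).det -
    ∑ i, rowSq U i * Real.log (min (α i) s) with hB
  set f' : ℝ → ℝ := fun s => 1 / 2 * ∑ i, ∑ j, (U * Uᵀ) i j ^ 2 *
    (ch (α i) s * (1 / s * (1 - min (α j) s / s)) + ch (α j) s * (1 / s * (1 - min (α i) s / s)))
    with hf'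
  set B' : ℝ → ℝ := fun s => ((AM U (fun i => min (α i) s))⁻¹ * AM U (fun i => ch (α i) s)).trace -
    ∑ i, rowSq U i * (ch (α i) s / s) with hB'
  have hminpos : ∀ s, 0 < s → ∀ i, 0 < min (α i) s := fun s hs i => lt_min (hα i) hs
  have hfd : ∀ s, 0 < s → HasDerivWithinAt f (f' s) (Ici s) s := by
    intro s hs
    refine HasDerivWithinAt.const_mul _ ?_
    refine HasDerivWithinAt.fun_sum fun i _ => HasDerivWithinAt.fun_sum fun j _ => ?_
    exact (hasDerivWithinAt_th (α i) (α j) s (hα i) (hα j) hs).const_mul _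
  have hBd : ∀ s, 0 < s → HasDerivWithinAt B (B' s) (Ici s) s := by
    intro s hs
    have hdet := AM_det_pos U hU (hminpos s hs)
    have h1 : HasDerivWithinAt (fun t => (AM U (fun i => min (α i) t)).det)
        ((AM U (fun i => min (α i) s)).det *
          ((AM U (fun i => min (α i) s))⁻¹ * AM U (fun i => ch (α i) s)).trace) (Ici s) s := by
      have h2 := hasDerivAt_det (AM U (fun i => min (α i) s)) (AM U (fun i => ch (α i) s))
        (isUnit_iff_ne_zero.2 hdet.ne')
      have h3 : HasDerivAt (fun t : ℝ => t - s) 1 s := (hasDerivAt_id s).sub_const s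
      have h2' : HasDerivAt (fun r : ℝ => (AM U (fun i => min (α i) s) +
          r • AM U (fun i => ch (α i) s)).det)
          ((AM U (fun i => min (α i) s)).det *
          ((AM U (fun i => min (α i) s))⁻¹ * AM U (fun i => ch (α i) s)).trace) (s - s) := by
        rw [sub_self]; exact h2
      have h4 := (HasDerivAt.comp (h := fun t : ℝ => t - s) s h2' h3).hasDerivWithinAt (s := Ici s)
      rw [mul_one] at h4
      refine h4.congr_of_eventuallyEq ?_ ?_
      · have h5 : ∀ᶠ t in 𝓝[≥] s, ∀ i, min (α i) t = min (α i) s + (t - s) * ch (α i) s :=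
          eventually_all.2 fun i => min_eventually
        filter_upwards [h5] with t ht
        simp only [Function.comp_apply]
        rw [← AM_add_smul]
        congr 2
        funext i
        simp only [Pi.add_apply, Pi.smul_apply, smul_eq_mul]
        exact ht i
      · simp
    have h6 := h1.log hdet.ne'
    have h7 : HasDerivWithinAt (fun t => ∑ i, rowSq U i * Real.log (min (α i) t))
        (∑ i, rowSq U i * (ch (α i) s / s)) (Ici s) s := by
      refine HasDerivWithinAt.fun_sum fun i _ => HasDerivWithinAt.const_mul _ ?_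
      have h8 := (hasDerivWithinAt_min (α i) s).log (hminpos s hs i).ne'
      refine h8.congr_deriv ?_
      unfold ch
      split_ifs with h
      · rw [min_eq_right h.le]
      · simp
    have h9 := h6.sub h7
    refine h9.congr_deriv ?_
    rw [hB']
    simp only
    rw [mul_div_cancel_left₀ _ hdet.ne']
  have hfc : ContinuousOn f (Icc a b) := by
    rw [hf]
    refine continuousOn_const.mul ?_
    refine continuousOn_finsetSum _ fun i _ => continuousOn_finsetSum _ fun j _ => ?_
    refine continuousOn_const.mul ?_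
    have hl : ∀ i, ContinuousOn (fun s => Real.log (min (α i) s)) (Icc a b) := by
      intro i
      refine ContinuousOn.log (by fun_prop) fun s hs => ?_
      exact (hminpos s (ha0.trans_le hs.1) i).ne'
    have hthc : Continuous th := by unfold th; fun_prop
    exact hthc.comp_continuousOn ((hl i).sub (hl j))
  have hBc : ContinuousOn B (Icc a b) := by
    rw [hB]
    have hl : ∀ i, ContinuousOn (fun s => Real.log (min (α i) s)) (Icc a b) := by
      intro i
      refine ContinuousOn.log (by fun_prop) fun s hs => ?_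
      exact (hminpos s (ha0.trans_le hs.1) i).ne'
    refine ContinuousOn.sub ?_ (continuousOn_finsetSum _ fun i _ => continuousOn_const.mul (hl i))
    refine ContinuousOn.log ?_ fun s hs => (AM_det_pos U hU (hminpos s (ha0.trans_le hs.1))).ne'
    have hc1 : Continuous (fun s : ℝ => AM U (fun i => min (α i) s)) := by
      unfold AM
      refine (continuous_const.matrix_mul ?_).matrix_mul continuous_const
      exact (continuous_pi fun i => by fun_prop : Continuous fun s : ℝ => fun i => min (α i) s).matrix_diagonal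
    exact (Continuous.matrix_det hc1).continuousOn
  have hstart : f a ≤ B a := by
    have h1 : ∀ i, min (α i) a = a := fun i => min_eq_right (hαa i)
    rw [hf, hB]
    simp only [h1, sub_self, th_zero, mul_zero, Finset.sum_const_zero]
    have h2 : AM U (fun _ : ι => a) = a • (1 : Matrix κ κ ℝ) := by
      have : (diagonal (fun _ : ι => a) : Matrix ι ι ℝ) = a • 1 := by
        rw [Matrix.smul_one_eq_diagonal]
      rw [AM, this, Matrix.mul_smul, Matrix.smul_mul, Matrix.mul_one, hU]
    rw [h2, Matrix.det_smul, Matrix.det_one, mul_one, Real.log_pow, ← Finset.sum_mul]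
    have h3 : ∑ i, rowSq U i = Fintype.card κ := by
      have h4 : (Uᵀ * U).trace = Fintype.card κ := by rw [hU, Matrix.trace_one]
      rw [← h4, Matrix.trace]
      simp only [Matrix.diag_apply, Matrix.mul_apply, Matrix.transpose_apply, rowSq]
      rw [Finset.sum_comm]
      exact Finset.sum_congr rfl fun l _ => Finset.sum_congr rfl fun i _ => by ring
    rw [h3]
    linarith
  have hbound : ∀ s ∈ Ico a b, f' s ≤ B' s := by
    intro s hs
    have hs0 : 0 < s := ha0.trans_le hs.1
    have hch : ∀ x, 0 ≤ ch x s := by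
      intro x
      unfold ch
      split_ifs <;> norm_num
    have hsymm : f' s = ∑ i, ∑ j, (U * Uᵀ) i j ^ 2 *
        (ch (α i) s * (1 / s * (1 - min (α j) s / s))) := by
      have h3 : ∀ i j, (U * Uᵀ) j i = (U * Uᵀ) i j := by
        intro i j
        simp only [Matrix.mul_apply, Matrix.transpose_apply]
        exact Finset.sum_congr rfl fun l _ => mul_comm _ _
      have h4 : ∑ i, ∑ j, (U * Uᵀ) i j ^ 2 * (ch (α j) s * (1 / s * (1 - min (α i) s / s))) =
          ∑ i, ∑ j, (U * Uᵀ) i j ^ 2 * (ch (α i) s * (1 / s * (1 - min (α j) s / s))) := by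
        rw [Finset.sum_comm]
        exact Finset.sum_congr rfl fun i _ => Finset.sum_congr rfl fun j _ => by rw [h3]
      have h5 : f' s = 1 / 2 * (∑ i, ∑ j, (U * Uᵀ) i j ^ 2 *
          (ch (α i) s * (1 / s * (1 - min (α j) s / s))) +
          ∑ i, ∑ j, (U * Uᵀ) i j ^ 2 * (ch (α j) s * (1 / s * (1 - min (α i) s / s)))) := by
        rw [← Finset.sum_add_distrib]
        refine congrArg (fun z => 1 / 2 * z) (Finset.sum_congr rfl fun i _ => ?_)
        rw [← Finset.sum_add_distrib]
        exact Finset.sum_congr rfl fun j _ => mul_add _ _ _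
      rw [h5, h4]
      ring
    rw [hsymm, hB']
    simp only
    rw [trace_inv_mul, ← Finset.sum_sub_distrib]
    refine Finset.sum_le_sum fun i _ => ?_
    have h1 := inv_quad U hU (hminpos s hs0) hs0 i
    have h2 := mul_le_mul_of_nonneg_left h1 (hch (α i))
    have h3 : ∑ j, (U * Uᵀ) i j ^ 2 * (ch (α i) s * (1 / s * (1 - min (α j) s / s))) =
        ch (α i) s * (1 / s * ∑ j, (1 - min (α j) s / s) * (U * Uᵀ) i j ^ 2) := by
      rw [Finset.mul_sum, Finset.mul_sum]
      exact Finset.sum_congr rfl fun j _ => by ring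
    rw [h3]
    have h4 : ch (α i) s * (1 / s * (rowSq U i + ∑ j, (1 - min (α j) s / s) * (U * Uᵀ) i j ^ 2)) =
        ch (α i) s * (1 / s * ∑ j, (1 - min (α j) s / s) * (U * Uᵀ) i j ^ 2) +
          rowSq U i * (ch (α i) s / s) := by ring
    rw [h4] at h2
    linarith
  have key := image_le_of_deriv_right_le_deriv_boundary hfc
    (fun s hs => hfd s (ha0.trans_le hs.1)) hstart hBc
    (fun s hs => hBd s (ha0.trans_le hs.1)) hbound
  have hfin := key (right_mem_Icc.2 hab)
  have h1 : ∀ i, min (α i) b = α i := fun i => min_eq_left (hαb i)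
  rw [hf, hB] at hfin
  simp only [h1] at hfin
  exact hfin

end Pool.Agent.Lib.MP_589a62_gt.Full
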