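import Pool.Agent.Lib.MP_589a62_gt.Full.Master
import Pool.Agent.Lib.MP_589a62_gt.Full.Theta

/-!
# The dual bound for the deficit

For antisymmetric functions `θ_ij` with `|θ_ij| ≤ 1`,
`vol ≤ ballBound * exp (-∫ FF dγ)` where
`FF = 1/2 ∑ k_ij² [(l_i - l_j) θ_ij - Θ*(θ_ij)] - ∑ c_i q_i ρ_i² / (1 + ρ_i)`.
-/

set_option autoImplicit false
set_option linter.unusedSectionVars false

open Matrix Finset MeasureTheory Set Real Filter Topology
open scoped ENNReal

namespace Pool.Agent.Lib.MP_589a62_gt.Full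

/-- The Legendre transform of `th`. -/
noncomputable def ths (t : ℝ) : ℝ := (1 - |t|) * Real.log (1 - |t|) + |t|

lemma fenchel (d t : ℝ) (ht : |t| ≤ 1) : t * d - ths t ≤ th d := by
  have h1 : t * d ≤ |t| * |d| := by
    rw [← abs_mul]; exact le_abs_self _
  set u := 1 - |t| with hu
  have hu0 : 0 ≤ u := by linarith
  have key : u * (1 - |d| - Real.log u) ≤ Real.exp (-|d|) := by
    rcases hu0.eq_or_lt with h | h
    · rw [← h]; simp; exact (Real.exp_pos _).le
    · have h2 := Real.add_one_le_exp (-|d| - Real.log u)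
      have h3 := mul_le_mul_of_nonneg_left h2 hu0
      have h4 : u * Real.exp (-|d| - Real.log u) = Real.exp (-|d|) := by
        rw [Real.exp_sub, Real.exp_log h]; field_simp
      rw [h4] at h3
      linarith
  unfold th ths
  rw [← hu]
  have h5 : |t| = 1 - u := by rw [hu]; ring
  rw [h5] at h1 ⊢
  nlinarith [key]

variable {ι κ : Type*} [Fintype ι] [Fintype κ] [DecidableEq κ] [DecidableEq ι]

/-- The squared kernel. -/
noncomputable def kk (U : Matrix ι κ ℝ) (i j : ι) : ℝ := (U * Uᵀ) i j ^ 2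

lemma kk_nonneg (U : Matrix ι κ ℝ) (i j : ι) : 0 ≤ kk U i j := sq_nonneg _

lemma kk_symm (U : Matrix ι κ ℝ) (i j : ι) : kk U i j = kk U j i := by
  unfold kk
  congr 1
  simp only [Matrix.mul_apply, Matrix.transpose_apply]
  exact Finset.sum_congr rfl fun l _ => mul_comm _ _

lemma kk_self (U : Matrix ι κ ℝ) (i : ι) : kk U i i = rowSq U i ^ 2 := by
  unfold kk
  congr 1
  simp only [Matrix.mul_apply, Matrix.transpose_apply, rowSq, sq]

lemma sum_kk (U : Matrix ι κ ℝ) (hU : Uᵀ * U = 1) (i : ι) : ∑ j, kk U i j = rowSq U i :=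
  sum_sq_ker U hU i

/-- The numbers `q_i = π Y_i²`. -/
noncomputable def qq (U : Matrix ι κ ℝ) (i : ι) (Y : κ → ℝ) : ℝ := π * ((U *ᵥ Y) i ^ 2 / rowSq U i)

lemma qq_nonneg (U : Matrix ι κ ℝ) (i : ι) (Y : κ → ℝ) : 0 ≤ qq U i Y :=
  mul_nonneg Real.pi_pos.le (div_nonneg (sq_nonneg _) (rowSq_nonneg U i))

/-- The numbers `ρ_i`. -/
noncomputable def rr (U : Matrix ι κ ℝ) (θ : ι → ι → (κ → ℝ) → ℝ) (i : ι) (Y : κ → ℝ) : ℝ :=
  ∑ j, kk U i j / rowSq U i * θ i j Y

/-- The function with parameter `lam`. -/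
noncomputable def FL (U : Matrix ι κ ℝ) (θ : ι → ι → (κ → ℝ) → ℝ) (lam : ℝ) (Y : κ → ℝ) : ℝ :=
  1 / 2 * ∑ i, ∑ j, kk U i j * ((Real.log (rowSq U i) / 2 + qq U i Y -
    (Real.log (rowSq U j) / 2 + qq U j Y)) * θ i j Y - ths (θ i j Y)) -
  ∑ i, rowSq U i * (qq U i Y * (rr U θ i Y ^ 2 / (lam + rr U θ i Y)))

lemma antisymm_sum (U : Matrix ι κ ℝ) (hc : ∀ i, 0 < rowSq U i) {θ : ι → ι → (κ → ℝ) → ℝ}
    (hanti : ∀ i j Y, θ i j Y = -θ j i Y) (m : ι → ℝ) (Y : κ → ℝ) :
    1 / 2 * ∑ i, ∑ j, kk U i j * ((m i - m j) * θ i j Y) =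
      ∑ i, rowSq U i * (rr U θ i Y * m i) := by
  have h1 : ∑ i, ∑ j, kk U i j * (m j * θ i j Y) = -∑ i, ∑ j, kk U i j * (m i * θ i j Y) := by
    rw [Finset.sum_comm, ← Finset.sum_neg_distrib]
    refine Finset.sum_congr rfl fun i _ => ?_
    rw [← Finset.sum_neg_distrib]
    refine Finset.sum_congr rfl fun j _ => ?_
    rw [hanti j i, kk_symm U j i]
    ring
  have h2 : ∑ i, ∑ j, kk U i j * ((m i - m j) * θ i j Y) =
      ∑ i, ∑ j, kk U i j * (m i * θ i j Y) - ∑ i, ∑ j, kk U i j * (m j * θ i j Y) := by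
    rw [← Finset.sum_sub_distrib]
    refine Finset.sum_congr rfl fun i _ => ?_
    rw [← Finset.sum_sub_distrib]
    exact Finset.sum_congr rfl fun j _ => by ring
  rw [h2, h1]
  have h3 : ∀ i, ∑ j, kk U i j * (m i * θ i j Y) = rowSq U i * (rr U θ i Y * m i) := by
    intro i
    rw [rr, Finset.sum_mul, Finset.mul_sum]
    refine Finset.sum_congr rfl fun j _ => ?_
    have := (hc i).ne'
    field_simp
  simp only [h3]
  ring

lemma abs_rr_le (U : Matrix ι κ ℝ) (hU : Uᵀ * U = 1) (hc : ∀ i, 0 < rowSq U i)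
    {θ : ι → ι → (κ → ℝ) → ℝ} (hanti : ∀ i j Y, θ i j Y = -θ j i Y)
    (hb : ∀ i j Y, |θ i j Y| ≤ 1) (i : ι) (Y : κ → ℝ) : |rr U θ i Y| ≤ 1 - rowSq U i := by
  have h0 : θ i i Y = 0 := by have := hanti i i Y; linarith
  have h1 : rr U θ i Y = ∑ j ∈ univ.erase i, kk U i j / rowSq U i * θ i j Y := by
    rw [rr, ← Finset.add_sum_erase _ _ (Finset.mem_univ i), h0, mul_zero, zero_add]
  rw [h1]
  refine (Finset.abs_sum_le_sum_abs _ _).trans ?_
  have h2 : ∑ j ∈ univ.erase i, |kk U i j / rowSq U i * θ i j Y| ≤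
      ∑ j ∈ univ.erase i, kk U i j / rowSq U i := by
    refine Finset.sum_le_sum fun j _ => ?_
    have h3 : 0 ≤ kk U i j / rowSq U i := div_nonneg (kk_nonneg U i j) (hc i).le
    rw [abs_mul, abs_of_nonneg h3]
    exact mul_le_of_le_one_right h3 (hb i j Y)
  refine h2.trans (le_of_eq ?_)
  have h4 : ∑ j, kk U i j / rowSq U i = 1 := by
    rw [← Finset.sum_div, sum_kk U hU, div_self (hc i).ne']
  rw [← Finset.add_sum_erase _ _ (Finset.mem_univ i), kk_self] at h4
  have h5 : rowSq U i ^ 2 / rowSq U i = rowSq U i := by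
    have := (hc i).ne'
    field_simp
  rw [h5] at h4
  linarith

/-- The pointwise inequality. -/
lemma FL_le (U : Matrix ι κ ℝ) (hU : Uᵀ * U = 1) (hc : ∀ i, 0 < rowSq U i)
    {θ : ι → ι → (κ → ℝ) → ℝ} (hanti : ∀ i j Y, θ i j Y = -θ j i Y)
    (hb : ∀ i j Y, |θ i j Y| ≤ 1) {lam : ℝ} (hlam : ∀ i, 1 - rowSq U i < lam) (g : ι → ℝ)
    (Y : κ → ℝ) :
    FL U θ lam Y ≤ JJ U g + lam * π * ∑ i, (g i - (U *ᵥ Y) i) ^ 2 := by
  set m : ι → ℝ := fun i => Real.log (rowSq U i) / 2 + π * (g i ^ 2 / rowSq U i) with hm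
  set l : ι → ℝ := fun i => Real.log (rowSq U i) / 2 + qq U i Y with hl
  have h1 : 1 / 2 * ∑ i, ∑ j, kk U i j * th (m i - m j) ≤ JJ U g := by
    have := theta_ineq U hU (alph U g) (alph_pos U hc g)
    simp only [log_alph U hc] at this
    have e : JJ U g = Real.log (Uᵀ * diagonal (alph U g) * U).det -
        ∑ i, rowSq U i * (Real.log (rowSq U i) / 2 + π * (g i ^ 2 / rowSq U i)) := by
      unfold JJ
      simp only [log_alph U hc]
    rw [e]
    exact this
  have h2 : 1 / 2 * ∑ i, ∑ j, kk U i j * ((m i - m j) * θ i j Y - ths (θ i j Y)) ≤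
      1 / 2 * ∑ i, ∑ j, kk U i j * th (m i - m j) := by
    refine mul_le_mul_of_nonneg_left ?_ (by norm_num)
    refine Finset.sum_le_sum fun i _ => Finset.sum_le_sum fun j _ => ?_
    refine mul_le_mul_of_nonneg_left ?_ (kk_nonneg U i j)
    have := fenchel (m i - m j) (θ i j Y) (hb i j Y)
    linarith
  have h3 : ∀ m : ι → ℝ, 1 / 2 * ∑ i, ∑ j, kk U i j * ((m i - m j) * θ i j Y - ths (θ i j Y)) =
      ∑ i, rowSq U i * (rr U θ i Y * m i) - 1 / 2 * ∑ i, ∑ j, kk U i j * ths (θ i j Y) := by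
    intro m
    rw [← antisymm_sum U hc hanti m Y, ← mul_sub, ← Finset.sum_sub_distrib]
    congr 1
    refine Finset.sum_congr rfl fun i _ => ?_
    rw [← Finset.sum_sub_distrib]
    exact Finset.sum_congr rfl fun j _ => by ring
  have h4 : FL U θ lam Y = ∑ i, rowSq U i * (rr U θ i Y * l i) -
      1 / 2 * ∑ i, ∑ j, kk U i j * ths (θ i j Y) -
      ∑ i, rowSq U i * (qq U i Y * (rr U θ i Y ^ 2 / (lam + rr U θ i Y))) := by
    rw [FL, ← h3 l]
  rw [h3 m] at h2
  rw [h4]
  have h5 : ∑ i, rowSq U i * (rr U θ i Y * l i) -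
      ∑ i, rowSq U i * (qq U i Y * (rr U θ i Y ^ 2 / (lam + rr U θ i Y))) ≤
      ∑ i, rowSq U i * (rr U θ i Y * m i) + lam * π * ∑ i, (g i - (U *ᵥ Y) i) ^ 2 := by
    rw [Finset.mul_sum, ← Finset.sum_sub_distrib, ← Finset.sum_add_distrib]
    refine Finset.sum_le_sum fun i _ => ?_
    have hci := hc i
    set c := rowSq U i with hcdef
    set r := rr U θ i Y with hr
    have hr1 : 0 < lam + r := by
      have h6 := abs_rr_le U hU hc hanti hb i Y
      have h7 := (abs_le.1 h6).1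
      have h8 := hlam i
      rw [← hcdef] at h7 h8
      rw [← hr] at h7
      linarith
    set b := (U *ᵥ Y) i with hbdef
    have hq : qq U i Y = π * (b ^ 2 / c) := rfl
    simp only [hm, hl, hq]
    rw [← hcdef]
    have key : 0 ≤ π * ((lam + r) * (g i - lam * b / (lam + r)) ^ 2) :=
      mul_nonneg Real.pi_pos.le (mul_nonneg hr1.le (sq_nonneg _))
    have e : c * (r * (Real.log c / 2 + π * (g i ^ 2 / c))) + lam * π * (g i - b) ^ 2 -
        (c * (r * (Real.log c / 2 + π * (b ^ 2 / c))) -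
          c * (π * (b ^ 2 / c) * (r ^ 2 / (lam + r)))) =
        π * ((lam + r) * (g i - lam * b / (lam + r)) ^ 2) := by
      have h1 := hci.ne'
      have h2 := hr1.ne'
      field_simp
      ring
    linarith
  linarith

/-! ### Integrability -/

lemma integrable_gauss {b : ℝ} (hb : 0 < b) :
    Integrable (fun y : κ → ℝ => Real.exp (-b * ∑ l, y l ^ 2)) := by
  have h1 : (fun y : κ → ℝ => Real.exp (-b * ∑ l, y l ^ 2)) =
      fun y => ∏ l, Real.exp (-b * y l ^ 2) := by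
    funext y
    rw [Finset.mul_sum, Real.exp_sum]
  rw [h1]
  exact Integrable.fintype_prod (f := fun _ (t : ℝ) => Real.exp (-b * t ^ 2))
    fun _ => integrable_exp_neg_mul_sq hb

lemma mul_exp_le {t : ℝ} (_ht : 0 ≤ t) : t * Real.exp (-π * t) ≤ Real.exp (-(π / 2) * t) := by
  have h1 : t ≤ Real.exp ((π / 2) * t) := by
    have h2 := Real.add_one_le_exp ((π / 2) * t)
    have h3 : t ≤ (π / 2) * t := by
      have := Real.pi_gt_three
      nlinarith
    linarith
  calc t * Real.exp (-π * t) ≤ Real.exp ((π / 2) * t) * Real.exp (-π * t) :=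
        mul_le_mul_of_nonneg_right h1 (Real.exp_pos _).le
    _ = Real.exp (-(π / 2) * t) := by rw [← Real.exp_add]; ring_nf

lemma measurable_qq (U : Matrix ι κ ℝ) (i : ι) : Measurable (qq U i) := by
  unfold qq
  have h1 : Continuous fun Y : κ → ℝ => (U *ᵥ Y) i :=
    (continuous_apply i).comp (Continuous.matrix_mulVec continuous_const continuous_id)
  exact (continuous_const.mul ((h1.pow 2).div_const _)).measurable

lemma sum_sq_mulVec (U : Matrix ι κ ℝ) (hU : Uᵀ * U = 1) (Y : κ → ℝ) :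
    ∑ i, (U *ᵥ Y) i ^ 2 = ∑ l, Y l ^ 2 := by
  have h := dot_mulVec_self U hU Y
  simp only [dotProduct, ← sq] at h
  exact h

lemma qq_le (U : Matrix ι κ ℝ) (hU : Uᵀ * U = 1) (i : ι) (Y : κ → ℝ) :
    qq U i Y ≤ π / rowSq U i * ∑ l, Y l ^ 2 := by
  unfold qq
  have h1 : (U *ᵥ Y) i ^ 2 ≤ ∑ l, Y l ^ 2 := by
    rw [← sum_sq_mulVec U hU Y]
    exact Finset.single_le_sum (f := fun i => (U *ᵥ Y) i ^ 2) (fun i _ => sq_nonneg _)
      (Finset.mem_univ i)
  have h2 := div_le_div_of_nonneg_right h1 (rowSq_nonneg U i)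
  calc π * ((U *ᵥ Y) i ^ 2 / rowSq U i) ≤ π * ((∑ l, Y l ^ 2) / rowSq U i) :=
        mul_le_mul_of_nonneg_left h2 Real.pi_pos.le
    _ = π / rowSq U i * ∑ l, Y l ^ 2 := by ring

/-- A function bounded by `A + B ∑ q_i` is integrable against the gaussian weight. -/
lemma integrable_of_le (U : Matrix ι κ ℝ) (hU : Uᵀ * U = 1) {F : (κ → ℝ) → ℝ}
    (hF : Measurable F) (A B : ℝ) (hB : 0 ≤ B) (hle : ∀ Y, |F Y| ≤ A + B * ∑ i, qq U i Y) :
    Integrable (fun Y => F Y * gw Y) := by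
  set C : ℝ := ∑ i, π / rowSq U i with hC
  have hC0 : 0 ≤ C := Finset.sum_nonneg fun i _ => div_nonneg Real.pi_pos.le (rowSq_nonneg U i)
  have h1 : Integrable (fun Y : κ → ℝ => |A| * gw Y +
      B * C * Real.exp (-(π / 2) * ∑ l, Y l ^ 2)) :=
    (integrable_gw.const_mul _).add ((integrable_gauss (by positivity)).const_mul _)
  refine h1.mono' (hF.mul continuous_gw.measurable).aestronglyMeasurable ?_
  refine Filter.Eventually.of_forall fun Y => ?_
  rw [Real.norm_eq_abs, abs_mul, abs_of_pos (gw_pos Y)]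
  have h2 : ∑ i, qq U i Y ≤ C * ∑ l, Y l ^ 2 := by
    rw [hC, Finset.sum_mul]
    exact Finset.sum_le_sum fun i _ => qq_le U hU i Y
  have h3 : 0 ≤ ∑ l, Y l ^ 2 := Finset.sum_nonneg fun _ _ => sq_nonneg _
  have h4 := mul_exp_le h3
  calc |F Y| * gw Y ≤ (|A| + B * (C * ∑ l, Y l ^ 2)) * gw Y := by
        refine mul_le_mul_of_nonneg_right ?_ (gw_pos Y).le
        have := mul_le_mul_of_nonneg_left h2 hB
        have := le_abs_self A
        linarith [hle Y]
    _ = |A| * gw Y + B * C * ((∑ l, Y l ^ 2) * Real.exp (-π * ∑ l, Y l ^ 2)) := by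
        unfold gw; ring
    _ ≤ |A| * gw Y + B * C * Real.exp (-(π / 2) * ∑ l, Y l ^ 2) := by
        have := mul_le_mul_of_nonneg_left h4 (mul_nonneg hB hC0)
        linarith

lemma measurable_ths : Measurable ths := by
  unfold ths
  fun_prop

lemma abs_ths_le {t : ℝ} (ht : |t| ≤ 1) : |ths t| ≤ 1 := by
  have h0 : 0 ≤ |t| := abs_nonneg t
  set u := 1 - |t| with hu
  have hu0 : 0 ≤ u := by linarith
  have hu1 : u ≤ 1 := by linarith
  have h1 : ths t = u * Real.log u + (1 - u) := by unfold ths; rw [← hu]; congr 1; rw [hu]; ring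
  rw [h1]
  rcases hu0.eq_or_lt with h | h
  · rw [← h]; simp
  · have h2 : Real.log u ≤ 0 := Real.log_nonpos hu0 hu1
    have h3 : 1 - u⁻¹ ≤ Real.log u := Real.one_sub_inv_le_log_of_pos h
    have h4 : u * (1 - u⁻¹) ≤ u * Real.log u := mul_le_mul_of_nonneg_left h3 hu0
    have h5 : u * (1 - u⁻¹) = u - 1 := by field_simp
    rw [abs_le]
    constructor
    · linarith
    · nlinarith

lemma measurable_rr (U : Matrix ι κ ℝ) {θ : ι → ι → (κ → ℝ) → ℝ} (hθ : ∀ i j, Measurable (θ i j))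
    (i : ι) : Measurable (rr U θ i) := by
  unfold rr
  exact Finset.measurable_fun_sum _ fun j _ => (hθ i j).const_mul _

lemma measurable_FL (U : Matrix ι κ ℝ) {θ : ι → ι → (κ → ℝ) → ℝ} (hθ : ∀ i j, Measurable (θ i j))
    (lam : ℝ) : Measurable (FL U θ lam) := by
  unfold FL
  refine Measurable.sub (Measurable.const_mul ?_ _) ?_
  · refine Finset.measurable_fun_sum _ fun i _ => Finset.measurable_fun_sum _ fun j _ => ?_
    refine Measurable.const_mul ?_ _
    refine Measurable.sub (Measurable.mul ?_ (hθ i j)) (measurable_ths.comp (hθ i j))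
    exact ((measurable_const.add (measurable_qq U i)).sub (measurable_const.add (measurable_qq U j)))
  · refine Finset.measurable_fun_sum _ fun i _ => Measurable.const_mul ?_ _
    refine (measurable_qq U i).mul ?_
    exact ((measurable_rr U hθ i).pow_const 2).div (measurable_const.add (measurable_rr U hθ i))

/-- The bound for `FL`. -/
lemma abs_FL_le (U : Matrix ι κ ℝ) (hU : Uᵀ * U = 1) (hc : ∀ i, 0 < rowSq U i)
    {θ : ι → ι → (κ → ℝ) → ℝ} (hanti : ∀ i j Y, θ i j Y = -θ j i Y)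
    (hb : ∀ i j Y, |θ i j Y| ≤ 1) {lam δ : ℝ} (hδ : 0 < δ) (hlam : ∀ i, 1 - rowSq U i + δ ≤ lam) :
    ∃ A B : ℝ, 0 ≤ B ∧ ∀ Y, |FL U θ lam Y| ≤ A + B * ∑ i, qq U i Y := by
  set L : ℝ := ∑ i, |Real.log (rowSq U i)| with hL
  have hL0 : 0 ≤ L := Finset.sum_nonneg fun _ _ => abs_nonneg _
  set K : ℝ := ∑ i, ∑ j, kk U i j with hK
  have hK0 : 0 ≤ K := Finset.sum_nonneg fun i _ => Finset.sum_nonneg fun j _ => kk_nonneg U i j
  set R : ℝ := ∑ i, rowSq U i with hR
  have hR0 : 0 ≤ R := Finset.sum_nonneg fun i _ => rowSq_nonneg U i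
  refine ⟨1 / 2 * (K * (2 * L + 1)), 1 / 2 * (K * 2) + R / δ, by positivity, fun Y => ?_⟩
  set Q : ℝ := ∑ i, qq U i Y with hQ
  have hq : ∀ i, qq U i Y ≤ Q := fun i =>
    Finset.single_le_sum (f := fun i => qq U i Y) (fun i _ => qq_nonneg U i Y) (Finset.mem_univ i)
  have hQ0 : 0 ≤ Q := Finset.sum_nonneg fun i _ => qq_nonneg U i Y
  have hLi : ∀ i, |Real.log (rowSq U i)| ≤ L := fun i =>
    Finset.single_le_sum (f := fun i => |Real.log (rowSq U i)|) (fun i _ => abs_nonneg _)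
      (Finset.mem_univ i)
  have h1 : |1 / 2 * ∑ i, ∑ j, kk U i j * ((Real.log (rowSq U i) / 2 + qq U i Y -
      (Real.log (rowSq U j) / 2 + qq U j Y)) * θ i j Y - ths (θ i j Y))| ≤
      1 / 2 * (K * (2 * L + 2 * Q + 1)) := by
    rw [abs_mul, abs_of_pos (by norm_num : (0 : ℝ) < 1 / 2)]
    refine mul_le_mul_of_nonneg_left ?_ (by norm_num)
    refine (Finset.abs_sum_le_sum_abs _ _).trans ?_
    rw [hK, Finset.sum_mul]
    refine Finset.sum_le_sum fun i _ => ?_
    refine (Finset.abs_sum_le_sum_abs _ _).trans ?_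
    rw [Finset.sum_mul]
    refine Finset.sum_le_sum fun j _ => ?_
    rw [abs_mul, abs_of_nonneg (kk_nonneg U i j)]
    refine mul_le_mul_of_nonneg_left ?_ (kk_nonneg U i j)
    refine (abs_sub _ _).trans ?_
    have e1 : |(Real.log (rowSq U i) / 2 + qq U i Y - (Real.log (rowSq U j) / 2 + qq U j Y)) *
        θ i j Y| ≤ 2 * L + 2 * Q := by
      rw [abs_mul]
      have e2 : |Real.log (rowSq U i) / 2 + qq U i Y - (Real.log (rowSq U j) / 2 + qq U j Y)| ≤
          2 * L + 2 * Q := by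
        have a1 := abs_le.1 (hLi i)
        have a2 := abs_le.1 (hLi j)
        have a3 := qq_nonneg U i Y
        have a4 := qq_nonneg U j Y
        have a5 := hq i
        have a6 := hq j
        rw [abs_le]
        constructor <;> linarith [a1.1, a1.2, a2.1, a2.2]
      calc _ ≤ |Real.log (rowSq U i) / 2 + qq U i Y - (Real.log (rowSq U j) / 2 + qq U j Y)| * 1 :=
            mul_le_mul_of_nonneg_left (hb i j Y) (abs_nonneg _)
        _ ≤ _ := by rw [mul_one]; exact e2
    linarith [abs_ths_le (hb i j Y)]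
  have h2 : |∑ i, rowSq U i * (qq U i Y * (rr U θ i Y ^ 2 / (lam + rr U θ i Y)))| ≤ R / δ * Q := by
    refine (Finset.abs_sum_le_sum_abs _ _).trans ?_
    rw [hR, Finset.sum_div, Finset.sum_mul]
    refine Finset.sum_le_sum fun i _ => ?_
    have hr := abs_rr_le U hU hc hanti hb i Y
    have hr' := abs_le.1 hr
    have hpos : δ ≤ lam + rr U θ i Y := by linarith [hlam i, hr'.1]
    have hle1 : rr U θ i Y ^ 2 ≤ 1 := by
      rw [sq_le_one_iff_abs_le_one]
      linarith [(hc i)]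
    rw [abs_of_nonneg (by
      have := hc i
      have := qq_nonneg U i Y
      have : 0 ≤ lam + rr U θ i Y := by linarith
      positivity)]
    have h3 : rr U θ i Y ^ 2 / (lam + rr U θ i Y) ≤ 1 / δ :=
      div_le_div₀ zero_le_one hle1 hδ hpos
    calc rowSq U i * (qq U i Y * (rr U θ i Y ^ 2 / (lam + rr U θ i Y)))
        ≤ rowSq U i * (Q * (1 / δ)) := by
          refine mul_le_mul_of_nonneg_left ?_ (hc i).le
          exact mul_le_mul (hq i) h3 (by
            have : 0 ≤ lam + rr U θ i Y := by linarith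
            positivity) hQ0
      _ = rowSq U i / δ * Q := by ring
  calc |FL U θ lam Y| ≤ _ := abs_sub _ _
    _ ≤ 1 / 2 * (K * (2 * L + 2 * Q + 1)) + R / δ * Q := add_le_add h1 h2
    _ = _ := by ring

/-- **The dual bound.** -/
theorem dual_bound (U : Matrix ι κ ℝ) (hU : Uᵀ * U = 1) (hc : ∀ i, 0 < rowSq U i)
    {θ : ι → ι → (κ → ℝ) → ℝ} (hθ : ∀ i j, Measurable (θ i j))
    (hanti : ∀ i j Y, θ i j Y = -θ j i Y) (hb : ∀ i j Y, |θ i j Y| ≤ 1) :
    volume (openSec U) ≤
      ENNReal.ofReal (ballBound U * Real.exp (-∫ Y, FL U θ 1 Y * gw Y)) := by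
  -- a positive lower bound of the `c_i`
  obtain ⟨δ, hδ0, hδ1, hδ⟩ : ∃ δ : ℝ, 0 < δ ∧ δ < 1 ∧ ∀ i, 2 * δ ≤ rowSq U i := by
    rcases isEmpty_or_nonempty ι with hι | hι
    · exact ⟨1 / 2, by norm_num, by norm_num, fun i => (hι.false i).elim⟩
    · obtain ⟨i0, -, h0⟩ := Finset.exists_min_image Finset.univ (rowSq U) Finset.univ_nonempty
      refine ⟨min (rowSq U i0 / 2) (1 / 2), lt_min (by linarith [hc i0]) (by norm_num), ?_,
        fun i => ?_⟩
      · exact lt_of_le_of_lt (min_le_right _ _) (by norm_num)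
      · have := h0 i (Finset.mem_univ _)
        have h2 := min_le_left (rowSq U i0 / 2) (1 / 2)
        linarith
  have hmeas1 := measurable_FL U hθ 1
  obtain ⟨A1, B1, hB1, hAB1⟩ := abs_FL_le U hU hc hanti hb (lam := 1) (δ := δ) hδ0
    (fun i => by linarith [hδ i])
  have hint1 : Integrable (fun Y => FL U θ 1 Y * gw Y) :=
    integrable_of_le U hU hmeas1 A1 B1 hB1 hAB1
  -- the sum of the `c_i q_i`
  set S : (κ → ℝ) → ℝ := fun Y => ∑ i, rowSq U i * qq U i Y with hS
  have hSm : Measurable S := Finset.measurable_fun_sum _ fun i _ => (measurable_qq U i).const_mul _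
  have hSint : Integrable (fun Y => S Y * gw Y) := by
    refine integrable_of_le U hU hSm 0 (∑ i, rowSq U i)
      (Finset.sum_nonneg fun i _ => rowSq_nonneg U i) fun Y => ?_
    rw [zero_add, abs_of_nonneg (Finset.sum_nonneg fun i _ =>
      mul_nonneg (rowSq_nonneg U i) (qq_nonneg U i Y)), Finset.sum_mul]
    refine Finset.sum_le_sum fun i _ => mul_le_mul_of_nonneg_left ?_ (rowSq_nonneg U i)
    exact Finset.single_le_sum (f := fun i => qq U i Y) (fun i _ => qq_nonneg U i Y)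
      (Finset.mem_univ i)
  have hlow : ∀ lam : ℝ, 1 - δ ≤ lam → lam < 1 → ∀ Y,
      FL U θ 1 Y - (1 - lam) / δ ^ 2 * S Y ≤ FL U θ lam Y := by
    intro lam hl0 hl1 Y
    unfold FL
    have h1 : ∑ i, rowSq U i * (qq U i Y * (rr U θ i Y ^ 2 / (lam + rr U θ i Y))) ≤
        ∑ i, rowSq U i * (qq U i Y * (rr U θ i Y ^ 2 / (1 + rr U θ i Y))) +
          (1 - lam) / δ ^ 2 * S Y := by
      rw [hS, Finset.mul_sum, ← Finset.sum_add_distrib]
      refine Finset.sum_le_sum fun i _ => ?_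
      have hr := abs_rr_le U hU hc hanti hb i Y
      have hr' := abs_le.1 hr
      have p1 : δ ≤ lam + rr U θ i Y := by linarith [hδ i, hr'.1]
      have p2 : δ ≤ 1 + rr U θ i Y := by linarith
      have hle1 : rr U θ i Y ^ 2 ≤ 1 := by
        rw [sq_le_one_iff_abs_le_one]
        linarith [(hc i)]
      have h2 : rr U θ i Y ^ 2 / (lam + rr U θ i Y) ≤
          rr U θ i Y ^ 2 / (1 + rr U θ i Y) + (1 - lam) / δ ^ 2 := by
        have p1' : 0 < lam + rr U θ i Y := by linarith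
        have p2' : 0 < 1 + rr U θ i Y := by linarith
        have e : rr U θ i Y ^ 2 / (lam + rr U θ i Y) - rr U θ i Y ^ 2 / (1 + rr U θ i Y) =
            rr U θ i Y ^ 2 * (1 - lam) / ((lam + rr U θ i Y) * (1 + rr U θ i Y)) := by
          field_simp
          ring
        have h3 : rr U θ i Y ^ 2 * (1 - lam) / ((lam + rr U θ i Y) * (1 + rr U θ i Y)) ≤
            (1 - lam) / δ ^ 2 := by
          refine div_le_div₀ (by linarith) ?_ (by positivity) ?_
          · have := mul_le_mul_of_nonneg_right hle1 (by linarith : (0 : ℝ) ≤ 1 - lam)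
            linarith
          · rw [sq]
            exact mul_le_mul p1 p2 hδ0.le (by linarith)
        linarith
      have h4 := mul_le_mul_of_nonneg_left h2 (mul_nonneg (hc i).le (qq_nonneg U i Y))
      calc rowSq U i * (qq U i Y * (rr U θ i Y ^ 2 / (lam + rr U θ i Y)))
          = rowSq U i * qq U i Y * (rr U θ i Y ^ 2 / (lam + rr U θ i Y)) := by ring
        _ ≤ _ := h4
        _ = _ := by ring
    linarith
  -- the bound for `lam < 1`
  set D : ℝ := ∫ Y, S Y * gw Y with hD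
  set I1 : ℝ := ∫ Y, FL U θ 1 Y * gw Y with hI1
  have hlam : ∀ lam : ℝ, 1 - δ ≤ lam → lam < 1 → volume (openSec U) ≤
      ENNReal.ofReal (ballBound U * Real.exp (-(I1 - (1 - lam) / δ ^ 2 * D))) := by
    intro lam hl0 hl1
    have hl2 : ∀ i, 1 - rowSq U i < lam := fun i => by linarith [hδ i]
    have hmeas := measurable_FL U hθ lam
    obtain ⟨A, B, hB, hAB⟩ := abs_FL_le U hU hc hanti hb (lam := lam) (δ := δ) hδ0
      (fun i => by linarith [hδ i])
    have hint : Integrable (fun Y => FL U θ lam Y * gw Y) :=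
      integrable_of_le U hU hmeas A B hB hAB
    have h1 := master' U hU hc (lam := lam) (by linarith) hl1 hmeas hint
      (fun g Y => FL_le U hU hc hanti hb hl2 g Y)
    refine h1.trans (ENNReal.ofReal_le_ofReal ?_)
    refine mul_le_mul_of_nonneg_left ?_ (ballBound_pos U).le
    refine Real.exp_le_exp.2 (neg_le_neg ?_)
    rw [hI1, hD, ← integral_const_mul, ← integral_sub hint1 (hSint.const_mul _)]
    refine integral_mono (hint1.sub (hSint.const_mul _)) hint fun Y => ?_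
    have := mul_le_mul_of_nonneg_right (hlow lam hl0 hl1 Y) (gw_pos Y).le
    calc FL U θ 1 Y * gw Y - (1 - lam) / δ ^ 2 * (S Y * gw Y)
        = (FL U θ 1 Y - (1 - lam) / δ ^ 2 * S Y) * gw Y := by ring
      _ ≤ _ := this
  have htend : Tendsto (fun lam : ℝ => ENNReal.ofReal (ballBound U *
      Real.exp (-(I1 - (1 - lam) / δ ^ 2 * D)))) (𝓝[<] 1)
      (𝓝 (ENNReal.ofReal (ballBound U * Real.exp (-(I1 - (1 - 1) / δ ^ 2 * D))))) := by
    refine (ENNReal.continuous_ofReal.tendsto _).comp ?_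
    refine Tendsto.mono_left ?_ nhdsWithin_le_nhds
    refine Continuous.tendsto ?_ 1
    fun_prop
  have hev : ∀ᶠ lam in 𝓝[<] (1 : ℝ), volume (openSec U) ≤
      ENNReal.ofReal (ballBound U * Real.exp (-(I1 - (1 - lam) / δ ^ 2 * D))) := by
    have h1 : ∀ᶠ lam in 𝓝[<] (1 : ℝ), 1 - δ < lam :=
      mem_nhdsWithin_of_mem_nhds (Ioi_mem_nhds (by linarith))
    filter_upwards [h1, self_mem_nhdsWithin] with lam hl0 hl1
    exact hlam lam hl0.le hl1
  have := ge_of_tendsto htend hev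
  rw [sub_self, zero_div, zero_mul, sub_zero] at this
  exact this

end Pool.Agent.Lib.MP_589a62_gt.Full
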