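import Pool.Agent.Lib.MP_589a62_gt.Full.Induct
import Pool.Agent.Lib.MP_589a62_gt.Full.Dual

/-!
# Necessary conditions at a maximiser, and minors of the projection `U Uᵀ`

`hmax`: `U` maximises `vol ^ 2 * (m / (m+1)) ^ n` over all `n` and all `n × k` matrices with orthonormal
columns.  Then for every list `f` of rows (with repetitions, of any length `n'`) which produces a section
containing the one of `U`, the frame determinant is at most `((m+1)/m) ^ (n' - n)`.
-/

set_option autoImplicit false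
set_option linter.unusedSectionVars false

open Matrix Finset MeasureTheory Set Real
open scoped ENNReal

namespace Pool.Agent.Lib.MP_589a62_gt.Full

/-- Re-normalisation: a family of rows `A` with nonsingular frame matrix. -/
theorem renorm {n k : ℕ} (A : Matrix (Fin n) (Fin k) ℝ) (hdet : 0 < (Aᵀ * A).det) :
    ∃ W : Matrix (Fin n) (Fin k) ℝ, Wᵀ * W = 1 ∧
      ∀ {n₀ : ℕ} (U : Matrix (Fin n₀) (Fin k) ℝ), openSec U ⊆ openSec A →
        vol U ^ 2 * (Aᵀ * A).det ≤ vol W ^ 2 := by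
  obtain ⟨R, hR⟩ : ∃ R : Matrix (Fin k) (Fin k) ℝ, Aᵀ * A = Rᵀ * R := by
    obtain ⟨W, μ, hW1, hW2, hW3, -⟩ := exists_orthogonal_diag (Aᵀ * A)
      (by rw [Matrix.transpose_mul, Matrix.transpose_transpose])
    have hμ : ∀ l, 0 ≤ μ l := by
      intro l
      have h1 : μ l = (Wᵀ * (Aᵀ * A) * W) l l := by rw [hW3, diagonal_apply_eq]
      have h2 : Wᵀ * (Aᵀ * A) * W = (A * W)ᵀ * (A * W) := by
        rw [Matrix.transpose_mul]; simp only [Matrix.mul_assoc]
      rw [h1, h2, Matrix.mul_apply]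
      exact Finset.sum_nonneg fun x _ => by
        rw [Matrix.transpose_apply]; exact mul_self_nonneg _
    refine ⟨diagonal (fun l => √(μ l)) * Wᵀ, ?_⟩
    rw [Matrix.transpose_mul, Matrix.transpose_transpose, diagonal_transpose]
    have h3 : (diagonal (fun l => √(μ l)) : Matrix (Fin k) (Fin k) ℝ) *
        diagonal (fun l => √(μ l)) = diagonal μ := by
      rw [diagonal_mul_diagonal]
      congr 1
      funext l
      exact Real.mul_self_sqrt (hμ l)
    calc Aᵀ * A = (W * Wᵀ) * (Aᵀ * A) * (W * Wᵀ) := by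
          rw [hW2, Matrix.one_mul, Matrix.mul_one]
      _ = W * (Wᵀ * (Aᵀ * A) * W) * Wᵀ := by simp only [Matrix.mul_assoc]
      _ = W * (diagonal (fun l => √(μ l)) * diagonal (fun l => √(μ l))) * Wᵀ := by rw [hW3, h3]
      _ = W * diagonal (fun l => √(μ l)) * (diagonal (fun l => √(μ l)) * Wᵀ) := by
          simp only [Matrix.mul_assoc]
  have hdR : (Aᵀ * A).det = R.det ^ 2 := by
    rw [hR, Matrix.det_mul, Matrix.det_transpose, sq]
  have hR0 : R.det ≠ 0 := by
    intro h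
    rw [hdR, h] at hdet
    simp at hdet
  have hRunit : IsUnit R.det := isUnit_iff_ne_zero.2 hR0
  have hRTunit : IsUnit Rᵀ.det := by rwa [Matrix.det_transpose]
  have hWW : (A * R⁻¹)ᵀ * (A * R⁻¹) = 1 := by
    rw [Matrix.transpose_mul, Matrix.transpose_nonsing_inv]
    calc (Rᵀ)⁻¹ * Aᵀ * (A * R⁻¹) = (Rᵀ)⁻¹ * (Aᵀ * A) * R⁻¹ := by simp only [Matrix.mul_assoc]
      _ = (Rᵀ)⁻¹ * Rᵀ * (R * R⁻¹) := by rw [hR]; simp only [Matrix.mul_assoc]
      _ = 1 := by
        rw [Matrix.nonsing_inv_mul _ hRTunit, Matrix.mul_nonsing_inv _ hRunit, Matrix.one_mul]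
  refine ⟨A * R⁻¹, hWW, ?_⟩
  intro n₀ U hsub
  have hWR : A * R⁻¹ * R = A := by
    rw [Matrix.mul_assoc, Matrix.nonsing_inv_mul _ hRunit, Matrix.mul_one]
  have h1 : volume (openSec U) ≤ volume (openSec A) := measure_mono hsub
  rw [← hWR, volume_mul_right (A * R⁻¹) R hR0] at h1
  have h2 : vol U ≤ |R.det⁻¹| * vol (A * R⁻¹) := by
    have h3 := ENNReal.toReal_mono (ENNReal.mul_ne_top ENNReal.ofReal_ne_top
      (volume_openSec_ne_top _ hWW)) h1
    rwa [ENNReal.toReal_mul, ENNReal.toReal_ofReal (abs_nonneg _)] at h3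
  have hv0 : 0 ≤ vol U := ENNReal.toReal_nonneg
  have ha : 0 < |R.det| := abs_pos.2 hR0
  have h4 : |R.det| * vol U ≤ vol (A * R⁻¹) := by
    calc |R.det| * vol U ≤ |R.det| * (|R.det⁻¹| * vol (A * R⁻¹)) :=
          mul_le_mul_of_nonneg_left h2 ha.le
      _ = vol (A * R⁻¹) := by
          rw [abs_inv]; field_simp
  calc vol U ^ 2 * (Aᵀ * A).det = (|R.det| * vol U) ^ 2 := by
        rw [hdR, mul_pow, sq_abs]; ring
    _ ≤ vol (A * R⁻¹) ^ 2 := pow_le_pow_left₀ (mul_nonneg ha.le hv0) h4 2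

lemma vol_pos {n k : ℕ} (U : Matrix (Fin n) (Fin k) ℝ) (hU : Uᵀ * U = 1) : 0 < vol U := by
  have h0 : (0 : Fin k → ℝ) ∈ openSec U := by
    intro i
    simp
  have h1 : 0 < volume (openSec U) := (isOpen_openSec U).measure_pos volume ⟨0, h0⟩
  exact ENNReal.toReal_pos h1.ne' (volume_openSec_ne_top U hU)

/-- The maximality hypothesis. -/
def IsMax {n k : ℕ} (m : ℕ) (U : Matrix (Fin n) (Fin k) ℝ) : Prop :=
  ∀ (n' : ℕ) (V : Matrix (Fin n') (Fin k) ℝ), Vᵀ * V = 1 →
    vol V ^ 2 * ((m : ℝ) / (m + 1)) ^ n' ≤ vol U ^ 2 * ((m : ℝ) / (m + 1)) ^ n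

/-- **General exchange inequality.** -/
theorem crit_gen {n k m : ℕ} (hm : 1 ≤ m) (U : Matrix (Fin n) (Fin k) ℝ) (hU : Uᵀ * U = 1)
    (hmax : IsMax m U) {n' : ℕ} (f : Fin n' → Fin n) :
    ((U.submatrix f id)ᵀ * (U.submatrix f id)).det * ((m : ℝ) / (m + 1)) ^ n' ≤
      ((m : ℝ) / (m + 1)) ^ n := by
  have hm0 : (0 : ℝ) < m := by exact_mod_cast hm
  have hq : (0 : ℝ) < (m : ℝ) / (m + 1) := by positivity
  set A := U.submatrix f id with hA
  rcases le_or_gt (Aᵀ * A).det 0 with h | h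
  · calc (Aᵀ * A).det * ((m : ℝ) / (m + 1)) ^ n' ≤ 0 :=
          mul_nonpos_of_nonpos_of_nonneg h (by positivity)
      _ ≤ _ := by positivity
  · obtain ⟨W, hW, hle⟩ := renorm A h
    have hsub : openSec U ⊆ openSec A := by
      intro x hx j
      exact hx (f j)
    have h1 := hle U hsub
    have h2 := hmax n' W hW
    have hv := vol_pos U hU
    have hv2 : 0 < vol U ^ 2 := by positivity
    have h3 : vol U ^ 2 * ((Aᵀ * A).det * ((m : ℝ) / (m + 1)) ^ n') ≤
        vol U ^ 2 * ((m : ℝ) / (m + 1)) ^ n := by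
      calc vol U ^ 2 * ((Aᵀ * A).det * ((m : ℝ) / (m + 1)) ^ n')
          = (vol U ^ 2 * (Aᵀ * A).det) * ((m : ℝ) / (m + 1)) ^ n' := by ring
        _ ≤ vol W ^ 2 * ((m : ℝ) / (m + 1)) ^ n' := mul_le_mul_of_nonneg_right h1 (by positivity)
        _ ≤ _ := h2
    exact le_of_mul_le_mul_left h3 hv2

/-- **(A), lower bound.** -/
theorem crit_lower {n k m : ℕ} (hm : 1 ≤ m) (U : Matrix (Fin n) (Fin k) ℝ) (hU : Uᵀ * U = 1)
    (hmax : IsMax m U) (i : Fin n) : 1 / ((m : ℝ) + 1) ≤ rowSq U i := by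
  have hm0 : (0 : ℝ) < m := by exact_mod_cast hm
  have hq : (0 : ℝ) < (m : ℝ) / (m + 1) := by positivity
  obtain ⟨n₁, rfl⟩ : ∃ n₁, n = n₁ + 1 := ⟨n - 1, by have := i.pos; omega⟩
  have h := crit_gen hm U hU hmax i.succAbove
  have hdet : ((U.submatrix i.succAbove id)ᵀ * (U.submatrix i.succAbove id)).det
      = 1 - rowSq U i := by
    rw [transpose_mul_self_split, hU, det_one_add_outer, ← rowSq_eq_dot]
    ring
  rw [hdet, pow_succ] at h
  have hp : (0 : ℝ) < ((m : ℝ) / (m + 1)) ^ n₁ := by positivity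
  have h1 : 1 - rowSq U i ≤ (m : ℝ) / (m + 1) := by
    have h2 : ((m : ℝ) / (m + 1)) ^ n₁ * (1 - rowSq U i) ≤
        ((m : ℝ) / (m + 1)) ^ n₁ * ((m : ℝ) / (m + 1)) := by linarith
    exact le_of_mul_le_mul_left h2 hp
  have h3 : 1 / ((m : ℝ) + 1) = 1 - (m : ℝ) / (m + 1) := by field_simp; ring
  rw [h3]
  linarith

lemma gram_cons {n k : ℕ} (U : Matrix (Fin n) (Fin k) ℝ) (i : Fin n) :
    (U.submatrix (Fin.cons i id : Fin (n + 1) → Fin n) id)ᵀ *
      (U.submatrix (Fin.cons i id : Fin (n + 1) → Fin n) id) =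
      Uᵀ * U + (1 : ℝ) • vecMulVec (U i) (U i) := by
  ext a b
  simp only [Matrix.mul_apply, Matrix.transpose_apply, Matrix.submatrix_apply, id_eq,
    Matrix.add_apply, Matrix.smul_apply, vecMulVec_apply, smul_eq_mul]
  rw [Fin.sum_univ_succ]
  simp only [Fin.cons_zero, Fin.cons_succ, id_eq]
  ring

/-- **(A), upper bound.** -/
theorem crit_upper {n k m : ℕ} (hm : 1 ≤ m) (U : Matrix (Fin n) (Fin k) ℝ) (hU : Uᵀ * U = 1)
    (hmax : IsMax m U) (i : Fin n) : rowSq U i ≤ 1 / (m : ℝ) := by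
  have hm0 : (0 : ℝ) < m := by exact_mod_cast hm
  have hq : (0 : ℝ) < (m : ℝ) / (m + 1) := by positivity
  have h := crit_gen hm U hU hmax (Fin.cons i id : Fin (n + 1) → Fin n)
  rw [gram_cons, hU, det_one_add_outer, ← rowSq_eq_dot, pow_succ] at h
  have hp : (0 : ℝ) < ((m : ℝ) / (m + 1)) ^ n := by positivity
  have h1 : (1 + rowSq U i) * ((m : ℝ) / (m + 1)) ≤ 1 := by
    have h2 : ((m : ℝ) / (m + 1)) ^ n * ((1 + rowSq U i) * ((m : ℝ) / (m + 1))) ≤
        ((m : ℝ) / (m + 1)) ^ n * 1 := by linarith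
    exact le_of_mul_le_mul_left h2 hp
  have hm1 : (0 : ℝ) < (m : ℝ) + 1 := by positivity
  rw [mul_div_assoc', div_le_one hm1] at h1
  rw [le_div_iff₀ hm0]
  linarith

lemma gram_update {n k : ℕ} (U : Matrix (Fin n) (Fin k) ℝ) (i j : Fin n) :
    (U.submatrix (Function.update id j i : Fin n → Fin n) id)ᵀ *
      (U.submatrix (Function.update id j i : Fin n → Fin n) id) =
      Uᵀ * U + (1 : ℝ) • vecMulVec (U i) (U i) + (-1 : ℝ) • vecMulVec (U j) (U j) := by
  ext a b
  simp only [Matrix.mul_apply, Matrix.transpose_apply, Matrix.submatrix_apply, id_eq,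
    Matrix.add_apply, Matrix.smul_apply, vecMulVec_apply, smul_eq_mul]
  rw [← Finset.add_sum_erase Finset.univ
      (fun x => U (Function.update id j i x) a * U (Function.update id j i x) b) (Finset.mem_univ j),
    ← Finset.add_sum_erase Finset.univ (fun x => U x a * U x b) (Finset.mem_univ j)]
  have : ∑ x ∈ Finset.univ.erase j, U (Function.update id j i x) a * U (Function.update id j i x) b
      = ∑ x ∈ Finset.univ.erase j, U x a * U x b := by
    refine Finset.sum_congr rfl fun x hx => ?_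
    rw [Function.update_of_ne (Finset.ne_of_mem_erase hx)]
    rfl
  rw [this, Function.update_self]
  ring

lemma det_two_outer {k : ℕ} (s t : ℝ) (u v : Fin k → ℝ) :
    (1 + s • vecMulVec u u + t • vecMulVec v v : Matrix (Fin k) (Fin k) ℝ).det =
      (1 + s * (u ⬝ᵥ u)) * (1 + t * (v ⬝ᵥ v)) - s * t * (u ⬝ᵥ v) ^ 2 := by
  -- write the sum as `1 + X * Y` with `X : k × 2`, `Y : 2 × k`
  set X : Matrix (Fin k) (Fin 2) ℝ := Matrix.of fun a b => if b = 0 then s * u a else t * v a with hX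
  set Y : Matrix (Fin 2) (Fin k) ℝ := Matrix.of fun b a => if b = 0 then u a else v a with hY
  have h : (1 + s • vecMulVec u u + t • vecMulVec v v : Matrix (Fin k) (Fin k) ℝ) = 1 + X * Y := by
    ext a b
    simp only [Matrix.add_apply, Matrix.smul_apply, vecMulVec_apply, smul_eq_mul, Matrix.mul_apply,
      Fin.sum_univ_two, hX, hY, Matrix.of_apply]
    simp
    ring
  rw [h, Matrix.det_one_add_mul_comm, Matrix.det_fin_two]
  simp only [Matrix.add_apply, Matrix.mul_apply, hX, hY, Matrix.of_apply, dotProduct]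
  simp only [Matrix.one_apply_eq, Fin.isValue, if_true, ne_eq, one_ne_zero, not_false_eq_true,
    Matrix.one_apply_ne, zero_ne_one, if_false]
  have e1 : ∀ a : Fin k, u a * (s * u a) = s * (u a * u a) := fun a => by ring
  have e2 : ∀ a : Fin k, v a * (t * v a) = t * (v a * v a) := fun a => by ring
  have e3 : ∀ a : Fin k, u a * (t * v a) = t * (u a * v a) := fun a => by ring
  have e4 : ∀ a : Fin k, v a * (s * u a) = s * (u a * v a) := fun a => by ring
  simp only [e1, e2, e3, e4, ← Finset.mul_sum]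
  ring

lemma kk_eq_dot {n k : ℕ} (U : Matrix (Fin n) (Fin k) ℝ) (i j : Fin n) :
    kk U i j = (U i ⬝ᵥ U j) ^ 2 := by
  unfold kk
  congr 1

/-- **(B), polynomial form**: delete `j`, duplicate `i`. -/
theorem crit_exch {n k m : ℕ} (hm : 1 ≤ m) (U : Matrix (Fin n) (Fin k) ℝ) (hU : Uᵀ * U = 1)
    (hmax : IsMax m U) (i j : Fin n) :
    (1 + rowSq U i) * (1 - rowSq U j) + kk U i j ≤ 1 := by
  have hm0 : (0 : ℝ) < m := by exact_mod_cast hm
  have hq : (0 : ℝ) < (m : ℝ) / (m + 1) := by positivity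
  have h := crit_gen hm U hU hmax (Function.update id j i : Fin n → Fin n)
  rw [gram_update, hU, det_two_outer, ← rowSq_eq_dot, ← rowSq_eq_dot, ← kk_eq_dot] at h
  have hp : (0 : ℝ) < ((m : ℝ) / (m + 1)) ^ n := by positivity
  have h2 : ((m : ℝ) / (m + 1)) ^ n * ((1 + rowSq U i) * (1 - rowSq U j) + kk U i j) ≤
        ((m : ℝ) / (m + 1)) ^ n * 1 := by linarith
  exact le_of_mul_le_mul_left h2 hp

/-- **(B)**: `1/c_j - 1/c_i ≤ 1 - x_ij`. -/
theorem crit_B {n k m : ℕ} (hm : 1 ≤ m) (U : Matrix (Fin n) (Fin k) ℝ) (hU : Uᵀ * U = 1)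
    (hmax : IsMax m U) (i j : Fin n) :
    |1 / rowSq U i - 1 / rowSq U j| ≤ 1 - kk U i j / (rowSq U i * rowSq U j) := by
  have hm0 : (0 : ℝ) < m := by exact_mod_cast hm
  have hpos : ∀ l, 0 < rowSq U l := fun l =>
    lt_of_lt_of_le (by positivity) (crit_lower hm U hU hmax l)
  have hi := hpos i
  have hj := hpos j
  have h1 := crit_exch hm U hU hmax i j
  have h2 := crit_exch hm U hU hmax j i
  rw [kk_symm U j i] at h2
  have e1 : 1 / rowSq U i - 1 / rowSq U j = (rowSq U j - rowSq U i) / (rowSq U i * rowSq U j) := by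
    field_simp
  have e2 : 1 - kk U i j / (rowSq U i * rowSq U j) =
      (rowSq U i * rowSq U j - kk U i j) / (rowSq U i * rowSq U j) := by
    field_simp
  rw [e1, e2, abs_div, abs_of_pos (mul_pos hi hj)]
  refine div_le_div_of_nonneg_right ?_ (mul_pos hi hj).le
  rw [abs_le]
  constructor <;> nlinarith

/-! ### The projection `U Uᵀ` -/

lemma quad_nonneg {n k : ℕ} (U : Matrix (Fin n) (Fin k) ℝ) (a : Fin n → ℝ) :
    0 ≤ ∑ i, ∑ j, a i * a j * (U i ⬝ᵥ U j) := by
  have h : ∑ i, ∑ j, a i * a j * (U i ⬝ᵥ U j) = ∑ l, (∑ i, a i * U i l) ^ 2 := by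
    simp only [dotProduct, Finset.mul_sum, sq, Finset.sum_mul]
    rw [Finset.sum_comm' (t' := Finset.univ) (s' := fun _ => Finset.univ) (by simp)]
    rw [Finset.sum_congr rfl fun j _ => Finset.sum_comm]
    rw [Finset.sum_comm]
    refine Finset.sum_congr rfl fun l _ => Finset.sum_congr rfl fun i _ =>
      Finset.sum_congr rfl fun j _ => by ring
  rw [h]
  exact Finset.sum_nonneg fun l _ => sq_nonneg _

lemma quad_le {n k : ℕ} (U : Matrix (Fin n) (Fin k) ℝ) (hU : Uᵀ * U = 1) (a : Fin n → ℝ) :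
    ∑ i, ∑ j, a i * a j * (U i ⬝ᵥ U j) ≤ ∑ i, a i ^ 2 := by
  -- `y = Uᵀ a`, `|a - U y|² = |a|² - |y|²`
  set y : Fin k → ℝ := Uᵀ *ᵥ a with hy
  have hquad : ∑ i, ∑ j, a i * a j * (U i ⬝ᵥ U j) = y ⬝ᵥ y := by
    have e : y ⬝ᵥ y = a ⬝ᵥ (U *ᵥ y) := by
      rw [dotProduct_mulVec a, ← Matrix.mulVec_transpose]
    rw [e, hy]
    simp only [dotProduct, Matrix.mulVec, Matrix.transpose_apply, Finset.mul_sum]
    refine Finset.sum_congr rfl fun i _ => ?_
    rw [Finset.sum_comm]
    refine Finset.sum_congr rfl fun j _ => Finset.sum_congr rfl fun l _ => by ring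
  have hUU : (U *ᵥ y) ⬝ᵥ (U *ᵥ y) = y ⬝ᵥ y := by
    rw [dotProduct_mulVec, ← Matrix.mulVec_transpose, Matrix.mulVec_mulVec, hU, Matrix.one_mulVec]
  have haU : a ⬝ᵥ (U *ᵥ y) = y ⬝ᵥ y := by
    rw [dotProduct_mulVec a, ← Matrix.mulVec_transpose]
  have h0 : 0 ≤ (a - U *ᵥ y) ⬝ᵥ (a - U *ᵥ y) := by
    simp only [dotProduct]
    exact Finset.sum_nonneg fun i _ => mul_self_nonneg _
  have h1 : (a - U *ᵥ y) ⬝ᵥ (a - U *ᵥ y) = a ⬝ᵥ a - y ⬝ᵥ y := by
    rw [sub_dotProduct, dotProduct_sub, dotProduct_sub, hUU, haU, dotProduct_comm (U *ᵥ y) a, haU]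
    ring
  have h2 : a ⬝ᵥ a = ∑ i, a i ^ 2 := by simp only [dotProduct, sq]
  rw [hquad]
  linarith

/-- The kernel as a real number. -/
noncomputable def kd {n k : ℕ} (U : Matrix (Fin n) (Fin k) ℝ) (i j : Fin n) : ℝ := U i ⬝ᵥ U j

lemma kd_comm {n k : ℕ} (U : Matrix (Fin n) (Fin k) ℝ) (i j : Fin n) : kd U i j = kd U j i :=
  dotProduct_comm _ _

lemma kd_self {n k : ℕ} (U : Matrix (Fin n) (Fin k) ℝ) (i : Fin n) : kd U i i = rowSq U i :=
  (rowSq_eq_dot U i).symm

/-- `1 - U Uᵀ` restricted to three rows is positive semidefinite. -/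
lemma three_le {n k : ℕ} (U : Matrix (Fin n) (Fin k) ℝ) (hU : Uᵀ * U = 1) {i j l : Fin n}
    (hij : i ≠ j) (hil : i ≠ l) (hjl : j ≠ l) (a b c : ℝ) :
    a ^ 2 * rowSq U i + b ^ 2 * rowSq U j + c ^ 2 * rowSq U l + 2 * a * b * kd U i j +
      2 * a * c * kd U i l + 2 * b * c * kd U j l ≤ a ^ 2 + b ^ 2 + c ^ 2 := by
  set w : Fin n → ℝ := Pi.single i a + Pi.single j b + Pi.single l c with hw
  have h := quad_le U hU w
  have hsum : ∀ g : Fin n → ℝ, ∑ x, w x * g x = a * g i + b * g j + c * g l := by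
    intro g
    rw [hw]
    simp only [Pi.add_apply, add_mul, Finset.sum_add_distrib, Pi.single_apply, ite_mul, zero_mul,
      Finset.sum_ite_eq', Finset.mem_univ, if_true]
  have h1 : ∑ x, ∑ y, w x * w y * (U x ⬝ᵥ U y) =
      ∑ x, w x * (∑ y, w y * (U x ⬝ᵥ U y)) := by
    refine Finset.sum_congr rfl fun x _ => ?_
    rw [Finset.mul_sum]
    exact Finset.sum_congr rfl fun y _ => by ring
  have hwi : w i = a := by
    simp [hw, Pi.single_apply, hij, hil]
  have hwj : w j = b := by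
    simp [hw, Pi.single_apply, hij.symm, hjl]
  have hwl : w l = c := by
    simp [hw, Pi.single_apply, hil.symm, hjl.symm]
  have h2 : ∑ x, w x ^ 2 = a ^ 2 + b ^ 2 + c ^ 2 := by
    have : ∑ x, w x ^ 2 = ∑ x, w x * w x := Finset.sum_congr rfl fun x _ => by ring
    rw [this, hsum w, hwi, hwj, hwl]
    ring
  rw [h1, hsum, hsum, hsum, hsum, h2] at h
  simp only [rowSq_eq_dot, kd]
  rw [dotProduct_comm (U j) (U i), dotProduct_comm (U l) (U i), dotProduct_comm (U l) (U j)] at h
  nlinarith [h]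

/-- `U Uᵀ` restricted to three rows is positive semidefinite. -/
lemma three_nonneg {n k : ℕ} (U : Matrix (Fin n) (Fin k) ℝ) (i j l : Fin n) (a b c : ℝ) :
    0 ≤ a ^ 2 * rowSq U i + b ^ 2 * rowSq U j + c ^ 2 * rowSq U l + 2 * a * b * kd U i j +
      2 * a * c * kd U i l + 2 * b * c * kd U j l := by
  have h : a ^ 2 * rowSq U i + b ^ 2 * rowSq U j + c ^ 2 * rowSq U l + 2 * a * b * kd U i j +
      2 * a * c * kd U i l + 2 * b * c * kd U j l =
      (a • U i + b • U j + c • U l) ⬝ᵥ (a • U i + b • U j + c • U l) := by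
    simp only [add_dotProduct, dotProduct_add, smul_dotProduct, dotProduct_smul, smul_eq_mul,
      rowSq_eq_dot, kd, dotProduct_comm (U j) (U i), dotProduct_comm (U l) (U i),
      dotProduct_comm (U l) (U j)]
    ring
  rw [h]
  simp only [dotProduct]
  exact Finset.sum_nonneg fun i _ => mul_self_nonneg _

/-- A `3 × 3` positive semidefinite form has nonnegative determinant. -/
lemma det_three_nonneg {p q r x y z : ℝ}
    (h : ∀ a b c : ℝ, 0 ≤ a ^ 2 * p + b ^ 2 * q + c ^ 2 * r + 2 * a * b * x + 2 * a * c * y +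
      2 * b * c * z) :
    0 ≤ p * q * r + 2 * x * y * z - p * z ^ 2 - q * y ^ 2 - r * x ^ 2 := by
  have hp : 0 ≤ p := by have := h 1 0 0; linarith
  have hq : 0 ≤ q := by have := h 0 1 0; linarith
  have hpq : 0 ≤ p * q - x ^ 2 := by
    rcases hp.eq_or_lt with h0 | h0
    · have hx : x = 0 := by
        by_contra hx
        have := h (-(q + 1) / (2 * x)) 1 0
        rw [← h0] at this
        have e : (-(q + 1) / (2 * x)) ^ 2 * 0 + 1 ^ 2 * q + 0 ^ 2 * r +
            2 * (-(q + 1) / (2 * x)) * 1 * x + 2 * (-(q + 1) / (2 * x)) * 0 * y + 2 * 1 * 0 * z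
            = -1 := by field_simp; ring
        rw [e] at this
        linarith
      rw [hx, ← h0]; simp
    · have := h (-x) p 0
      have e : (-x) ^ 2 * p + p ^ 2 * q + 0 ^ 2 * r + 2 * (-x) * p * x + 2 * (-x) * 0 * y +
          2 * p * 0 * z = p * (p * q - x ^ 2) := by ring
      rw [e] at this
      exact nonneg_of_mul_nonneg_right this h0
  rcases hpq.eq_or_lt with h0 | h0
  · -- degenerate 2×2 block
    -- use the vector (x z - q y) , (x y - p z) with weight
    rcases hp.eq_or_lt with hp0 | hp0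
    · -- p = 0, then x = 0, y = 0
      have hx : x = 0 := by
        rw [← hp0] at h0
        have : x ^ 2 = 0 := by linarith
        exact pow_eq_zero_iff (two_ne_zero) |>.1 this
      have hy : y = 0 := by
        by_contra hy
        have hr : 0 ≤ r := by have := h 0 0 1; linarith
        have := h (-(r + 1) / (2 * y)) 0 1
        rw [← hp0] at this
        have e : (-(r + 1) / (2 * y)) ^ 2 * 0 + 0 ^ 2 * q + 1 ^ 2 * r +
            2 * (-(r + 1) / (2 * y)) * 0 * x + 2 * (-(r + 1) / (2 * y)) * 1 * y + 2 * 0 * 1 * z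
            = -1 := by field_simp; ring
        rw [e] at this
        linarith
      rw [hx, hy, ← hp0]
      ring_nf
      exact le_refl _
    · -- p > 0, p q = x², so the form is p (a + ...)² + ...; then p z = x y
      have hxq : q = x ^ 2 / p := by
        field_simp; linarith
      have hz : p * z = x * y := by
        by_contra hne
        have hd : p * z - x * y ≠ 0 := sub_ne_zero.2 hne
        have hr : 0 ≤ r := by have := h 0 0 1; linarith
        -- vector b = t, a = -(x t + y)/p, c = 1 : value = r - y²/p + 2 t (z - x y/p)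
        have hv : ∀ t : ℝ, 0 ≤ r - y ^ 2 / p + 2 * t * (z - x * y / p) := by
          intro t
          have := h (-(x * t + y) / p) t 1
          have e : (-(x * t + y) / p) ^ 2 * p + t ^ 2 * q + 1 ^ 2 * r +
              2 * (-(x * t + y) / p) * t * x + 2 * (-(x * t + y) / p) * 1 * y + 2 * t * 1 * z
              = r - y ^ 2 / p + 2 * t * (z - x * y / p) := by
            rw [hxq]; field_simp; ring
          rwa [e] at this
        have hd2 : z - x * y / p ≠ 0 := by
          intro h5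
          apply hd
          have : z = x * y / p := by linarith
          rw [this]; field_simp; ring
        set K := r - y ^ 2 / p with hK
        set D := z - x * y / p with hD
        have := hv (-(K + 1) / (2 * D))
        have e : K + 2 * (-(K + 1) / (2 * D)) * D = -1 := by
          have : 2 * (-(K + 1) / (2 * D)) * D = -(K + 1) := by field_simp
          rw [this]; ring
        rw [e] at this
        linarith
      have e : p * (p * q * r + 2 * x * y * z - p * z ^ 2 - q * y ^ 2 - r * x ^ 2) =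
          (p * q - x ^ 2) * (p * r - y ^ 2) - (p * z - x * y) ^ 2 := by ring
      have h6 : p * (p * q * r + 2 * x * y * z - p * z ^ 2 - q * y ^ 2 - r * x ^ 2) = 0 := by
        rw [e, ← h0, hz]; ring
      have h7 : p * q * r + 2 * x * y * z - p * z ^ 2 - q * y ^ 2 - r * x ^ 2 = 0 := by
        rcases mul_eq_zero.1 h6 with h8 | h8
        · exact absurd h8 hp0.ne'
        · exact h8
      rw [h7]
  · have := h (x * z - q * y) (x * y - p * z) (p * q - x ^ 2)
    have e : (x * z - q * y) ^ 2 * p + (x * y - p * z) ^ 2 * q + (p * q - x ^ 2) ^ 2 * r +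
        2 * (x * z - q * y) * (x * y - p * z) * x + 2 * (x * z - q * y) * (p * q - x ^ 2) * y +
        2 * (x * y - p * z) * (p * q - x ^ 2) * z =
        (p * q - x ^ 2) * (p * q * r + 2 * x * y * z - p * z ^ 2 - q * y ^ 2 - r * x ^ 2) := by ring
    rw [e] at this
    exact nonneg_of_mul_nonneg_right this h0

/-- **Pair cap**: `k_ij² ≤ (1 - c_i)(1 - c_j)`. -/
theorem pair_cap {n k : ℕ} (U : Matrix (Fin n) (Fin k) ℝ) (hU : Uᵀ * U = 1) {i j : Fin n}
    (hij : i ≠ j) : kk U i j ≤ (1 - rowSq U i) * (1 - rowSq U j) := by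
  have hci : ∀ l : Fin n, rowSq U l ≤ 1 := by
    intro l
    have h := quad_le U hU (Pi.single l 1)
    have e1 : ∑ x, ∑ y, (Pi.single l (1 : ℝ) : Fin n → ℝ) x * (Pi.single l (1 : ℝ) : Fin n → ℝ) y *
        (U x ⬝ᵥ U y) = rowSq U l := by
      simp [Pi.single_apply, rowSq_eq_dot]
    have e2 : ∑ x, (Pi.single l (1 : ℝ) : Fin n → ℝ) x ^ 2 = 1 := by
      simp [Pi.single_apply, ite_pow]
    rw [e1, e2] at h
    exact h
  have two : ∀ a b : ℝ, a ^ 2 * rowSq U i + b ^ 2 * rowSq U j + 2 * a * b * kd U i j ≤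
      a ^ 2 + b ^ 2 := by
    intro a b
    set w : Fin n → ℝ := Pi.single i a + Pi.single j b with hw
    have h := quad_le U hU w
    have hsum : ∀ g : Fin n → ℝ, ∑ x, w x * g x = a * g i + b * g j := by
      intro g
      rw [hw]
      simp only [Pi.add_apply, add_mul, Finset.sum_add_distrib, Pi.single_apply, ite_mul, zero_mul,
        Finset.sum_ite_eq', Finset.mem_univ, if_true]
    have h1 : ∑ x, ∑ y, w x * w y * (U x ⬝ᵥ U y) =
        ∑ x, w x * (∑ y, w y * (U x ⬝ᵥ U y)) := by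
      refine Finset.sum_congr rfl fun x _ => ?_
      rw [Finset.mul_sum]
      exact Finset.sum_congr rfl fun y _ => by ring
    have hwi : w i = a := by simp [hw, Pi.single_apply, hij]
    have hwj : w j = b := by simp [hw, Pi.single_apply, hij.symm]
    have h2 : ∑ x, w x ^ 2 = a ^ 2 + b ^ 2 := by
      have : ∑ x, w x ^ 2 = ∑ x, w x * w x := Finset.sum_congr rfl fun x _ => by ring
      rw [this, hsum w, hwi, hwj]
      ring
    rw [h1, hsum, hsum, hsum, h2] at h
    simp only [rowSq_eq_dot, kd]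
    rw [dotProduct_comm (U j) (U i)] at h
    nlinarith [h]
  have hk : kk U i j = kd U i j ^ 2 := kk_eq_dot U i j
  rw [hk]
  have hi := hci i
  have hj := hci j
  rcases hi.eq_or_lt with h0 | h0
  · -- c_i = 1, then kd = 0
    have hkd : kd U i j = 0 := by
      by_contra hne
      have := two ((1 - rowSq U j + 1) / (2 * kd U i j)) 1
      rw [h0] at this
      have e : 2 * ((1 - rowSq U j + 1) / (2 * kd U i j)) * 1 * kd U i j = 1 - rowSq U j + 1 := by
        field_simp
      nlinarith [this, e]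
    rw [hkd, h0]; simp
  · have h1 := two (kd U i j) (1 - rowSq U i)
    have h2 : 0 ≤ (1 - rowSq U i) * ((1 - rowSq U i) * (1 - rowSq U j) - kd U i j ^ 2) := by
      nlinarith [h1]
    have h3 := nonneg_of_mul_nonneg_right h2 (by linarith)
    linarith

/-- **(C)**: triples. -/
theorem triple {n k : ℕ} (U : Matrix (Fin n) (Fin k) ℝ) (hU : Uᵀ * U = 1) {i j l : Fin n}
    (hij : i ≠ j) (hil : i ≠ l) (hjl : j ≠ l) :
    rowSq U i + rowSq U j + rowSq U l - 1 ≤
      (rowSq U i * rowSq U j - kk U i j) + (rowSq U i * rowSq U l - kk U i l) +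
        (rowSq U j * rowSq U l - kk U j l) := by
  have h1 := det_three_nonneg (p := rowSq U i) (q := rowSq U j) (r := rowSq U l) (x := kd U i j)
    (y := kd U i l) (z := kd U j l) (fun a b c => three_nonneg U i j l a b c)
  have h2 := det_three_nonneg (p := 1 - rowSq U i) (q := 1 - rowSq U j) (r := 1 - rowSq U l)
    (x := -kd U i j) (y := -kd U i l) (z := -kd U j l) (fun a b c => by
      have := three_le U hU hij hil hjl a b c
      nlinarith [this])
  have e1 : kk U i j = kd U i j ^ 2 := kk_eq_dot U i j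
  have e2 : kk U i l = kd U i l ^ 2 := kk_eq_dot U i l
  have e3 : kk U j l = kd U j l ^ 2 := kk_eq_dot U j l
  rw [e1, e2, e3]
  nlinarith [h1, h2]

/-- `k_ij² ≤ c_i c_j`. -/
theorem kk_le {n k : ℕ} (U : Matrix (Fin n) (Fin k) ℝ) (i j : Fin n) :
    kk U i j ≤ rowSq U i * rowSq U j := by
  rw [kk_eq_dot, rowSq_eq_dot, rowSq_eq_dot]
  simp only [dotProduct]
  have := Finset.sum_mul_sq_le_sq_mul_sq Finset.univ (U i) (U j)
  simpa [sq] using this

end Pool.Agent.Lib.MP_589a62_gt.Full
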