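import Mathlib

/-!
# MP_589a62_gt: the final inequality, large `m`

`RowData`: the data of one row `i` of the frame: weights `c_j`, squared cosines `x_j = x_{ij}`,
`t = 1 / c_i ∈ [m, m+1]`, the row sum `c_i + Σ_{j ≠ i} c_j x_j = 1` and the exchange
inequality `|1/c_j - t| ≤ 1 - x_j`.

* `row_lower` : `Σ_{j ≠ i} c_j x_j (1 - x_j) ≥ s (1 - s) / (t + s)`, `s = t - m`;
* `gam_le`    : `γ(t) ≤ s (1-s)/(t+s) * ((m+2)/(4 m (m+1)))`;
* `gam_five`  : `γ(t) ≤ s (1-s)/(t+s) * 0.0554` for `m = 5`.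
-/

namespace Pool.Agent.Lib.MP_589a62_gt.Full.Large

open Finset Real

/-- `f(q) = q (1 - q) / (t + q)`. -/
noncomputable def f (t q : ℝ) : ℝ := q * (1 - q) / (t + q)

theorem f_zero (t : ℝ) : f t 0 = 0 := by simp [f]
theorem f_one (t : ℝ) : f t 1 = 0 := by simp [f]

theorem f_nonneg (t q : ℝ) (ht : 0 < t) (h0 : 0 ≤ q) (h1 : q ≤ 1) : 0 ≤ f t q := by
  unfold f
  have : 0 ≤ 1 - q := by linarith
  positivity

/-- `f(a) + f(b) ≥ f(a+b)` if `a + b ≤ 1`. -/
theorem f_add_le (t a b : ℝ) (ht : 0 < t) (ha : 0 ≤ a) (hb : 0 ≤ b) :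
    f t (a + b) ≤ f t a + f t b := by
  unfold f
  have h1 : 0 < t + a := by linarith
  have h2 : 0 < t + b := by linarith
  have h3 : 0 < t + (a + b) := by linarith
  have key : a * (1 - a) / (t + a) + b * (1 - b) / (t + b) - (a + b) * (1 - (a + b)) / (t + (a + b))
      = a * b * (t + 1) * (2 * t + a + b) / ((t + a) * (t + b) * (t + (a + b))) := by
    field_simp
    ring
  have : 0 ≤ a * b * (t + 1) * (2 * t + a + b) / ((t + a) * (t + b) * (t + (a + b))) := by
    positivity
  linarith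

/-- `f(a) + f(b) ≥ f(a+b-1)` if `a + b ≥ 1`. -/
theorem f_add_le' (t a b : ℝ) (ht : 0 < t) (ha : a ≤ 1) (hb : b ≤ 1) (hab : 1 ≤ a + b) :
    f t (a + b - 1) ≤ f t a + f t b := by
  unfold f
  have ha0 : 0 ≤ a := by linarith
  have hb0 : 0 ≤ b := by linarith
  have h1 : 0 < t + a := by linarith
  have h2 : 0 < t + b := by linarith
  have h3 : 0 < t + (a + b - 1) := by linarith
  have h4 : a + b - 1 ≤ a := by linarith
  have h5 : a + b - 1 ≤ b := by linarith
  -- q/(t+q) is increasing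
  have h6 : (a + b - 1) / (t + (a + b - 1)) ≤ a / (t + a) := by
    rw [div_le_div_iff₀ h3 h1]; nlinarith
  have h7 : (a + b - 1) / (t + (a + b - 1)) ≤ b / (t + b) := by
    rw [div_le_div_iff₀ h3 h2]; nlinarith
  have h8 := mul_le_mul_of_nonneg_left h6 (show 0 ≤ 1 - a by linarith)
  have h9 := mul_le_mul_of_nonneg_left h7 (show 0 ≤ 1 - b by linarith)
  have e1 : a * (1 - a) / (t + a) = (1 - a) * (a / (t + a)) := by ring
  have e2 : b * (1 - b) / (t + b) = (1 - b) * (b / (t + b)) := by ring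
  have e3 : (a + b - 1) * (1 - (a + b - 1)) / (t + (a + b - 1))
      = (1 - a) * ((a + b - 1) / (t + (a + b - 1))) + (1 - b) * ((a + b - 1) / (t + (a + b - 1))) := by
    ring
  rw [e1, e2, e3]
  linarith

/-- periodic extension of `f`. -/
noncomputable def g (t y : ℝ) : ℝ := f t (Int.fract y)

theorem g_sub (t a b : ℝ) (ht : 0 < t) : g t (a + b) ≤ g t a + g t b := by
  unfold g
  have ha0 := Int.fract_nonneg a
  have ha1 := (Int.fract_lt_one a).le
  have hb0 := Int.fract_nonneg b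
  have hb1 := (Int.fract_lt_one b).le
  have hfr : Int.fract (a + b) = Int.fract (Int.fract a + Int.fract b) := by
    have e : a + b = (Int.fract a + Int.fract b) + ((⌊a⌋ + ⌊b⌋ : ℤ) : ℝ) := by
      have h1 := Int.floor_add_fract a
      have h2 := Int.floor_add_fract b
      push_cast
      linarith
    rw [e, Int.fract_add_intCast]
  by_cases h : Int.fract a + Int.fract b < 1
  · have : Int.fract (Int.fract a + Int.fract b) = Int.fract a + Int.fract b := by
      rw [Int.fract_eq_self]; exact ⟨by linarith, h⟩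
    rw [hfr, this]
    exact f_add_le t _ _ ht ha0 hb0
  · have h' : 1 ≤ Int.fract a + Int.fract b := not_lt.mp h
    have : Int.fract (Int.fract a + Int.fract b) = Int.fract a + Int.fract b - 1 := by
      rw [Int.fract_eq_iff]
      refine ⟨by linarith, ?_, 1, by push_cast; ring⟩
      have := Int.fract_lt_one a
      have := Int.fract_lt_one b
      linarith
    rw [hfr, this]
    exact f_add_le' t _ _ ht ha1 hb1 h'

theorem g_of_mem (t q : ℝ) (h0 : 0 ≤ q) (h1 : q ≤ 1) : g t q = f t q := by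
  unfold g
  rcases h1.eq_or_lt with h | h
  · subst h; simp [f]
  · rw [Int.fract_eq_self.mpr ⟨h0, h⟩]

variable {ι : Type*}

theorem g_sum (t : ℝ) (ht : 0 < t) (S : Finset ι) (q : ι → ℝ) :
    g t (∑ j ∈ S, q j) ≤ ∑ j ∈ S, g t (q j) := by
  classical
  induction S using Finset.induction_on with
  | empty => simp [g, f]
  | insert a S ha ih =>
      rw [Finset.sum_insert ha, Finset.sum_insert ha]
      exact (g_sub t _ _ ht).trans (by linarith)

/-- The core row estimate: `q_j ∈ [0,1]`, `Σ q_j = t - 1`, `t = m + s`. -/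
theorem sum_f_ge (t s : ℝ) (m : ℕ) (ht : 0 < t) (hs0 : 0 ≤ s) (hs1 : s ≤ 1) (hts : t = m + s)
    (S : Finset ι) (q : ι → ℝ) (hq0 : ∀ j ∈ S, 0 ≤ q j) (hq1 : ∀ j ∈ S, q j ≤ 1)
    (hsum : ∑ j ∈ S, q j = t - 1) :
    f t s ≤ ∑ j ∈ S, f t (q j) := by
  have h1 := g_sum t ht S q
  have h2 : ∑ j ∈ S, g t (q j) = ∑ j ∈ S, f t (q j) :=
    Finset.sum_congr rfl (fun j hj => g_of_mem t (q j) (hq0 j hj) (hq1 j hj))
  rw [h2, hsum] at h1
  have h3 : g t (t - 1) = f t s := by
    have e : t - 1 = s + (((m : ℤ) - 1 : ℤ) : ℝ) := by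
      push_cast; linarith
    have h4 : g t (t - 1) = g t s := by
      unfold g
      rw [e, Int.fract_add_intCast]
    rw [h4, g_of_mem t s hs0 hs1]
  rw [h3] at h1
  exact h1

/-- One term: with `q = t p`, `p = c x`: `p (1 - x) ≥ f(q)` and `0 ≤ q ≤ 1`. -/
theorem term_bounds (t c x : ℝ) (ht : 1 ≤ t) (hc : 0 < c) (hx0 : 0 ≤ x)
    (hB1 : 1 / c ≤ t + (1 - x)) (hB2 : t ≤ 1 / c + (1 - x)) :
    0 ≤ t * (c * x) ∧ t * (c * x) ≤ 1 ∧ f t (t * (c * x)) ≤ c * x * (1 - x) := by
  have hp0 : 0 ≤ c * x := by positivity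
  have hcx1 : 1 ≤ c * (t + (1 - x)) := by
    have := mul_le_mul_of_nonneg_left hB1 hc.le
    rwa [mul_one_div_cancel hc.ne'] at this
  have hcx2 : c * t ≤ 1 + c * (1 - x) := by
    have := mul_le_mul_of_nonneg_left hB2 hc.le
    rw [mul_add, mul_one_div_cancel hc.ne'] at this
    exact this
  have hq1 : t * (c * x) ≤ 1 := by
    -- t c x ≤ 1
    -- from c t ≤ 1 + c (1-x): c x ≤ 1 + c - c t
    have h1 : c * x ≤ 1 - c * (t - 1) := by nlinarith
    by_cases hct : c * t ≤ 1
    · have hx1 : x ≤ 1 ∨ 1 < x := le_or_gt x 1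
      rcases hx1 with hx1 | hx1
      · calc t * (c * x) = (c * t) * x := by ring
          _ ≤ 1 * 1 := by
              apply mul_le_mul hct hx1 hx0 (by norm_num)
          _ = 1 := by norm_num
      · -- x > 1: then c t ≤ 1 + c(1-x) gives c x ≤ 1 + c - ct
        nlinarith [mul_pos hc (show 0 < t by linarith)]
    · have hct' : 1 < c * t := not_le.mp hct
      -- c x ≤ 1 - c (t-1); c > 1/t so c (t-1) ≥ (t-1)/t
      have h2 : t * (c * x) ≤ t - (c * t) * (t - 1) := by nlinarith
      nlinarith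
  refine ⟨by positivity, hq1, ?_⟩
  have hden : 0 < t + t * (c * x) := by positivity
  unfold f
  rw [div_le_iff₀ hden]
  -- t p (1 - t p) ≤ p (1-x) (t + t p), i.e. p * [1 - t p ≤ (1-x)(1+p)]
  have hkey : 1 - t * (c * x) ≤ (1 - x) * (1 + c * x) := by
    nlinarith
  have h3 : 0 ≤ t * (c * x) := by positivity
  have := mul_le_mul_of_nonneg_left hkey h3
  nlinarith

/-- **Row lower bound.** -/
theorem row_lower (m : ℕ) (t s : ℝ) (hm : 1 ≤ m) (hs0 : 0 ≤ s) (hs1 : s ≤ 1) (hts : t = m + s)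
    (S : Finset ι) (c x : ι → ℝ) (hc : ∀ j ∈ S, 0 < c j) (hx0 : ∀ j ∈ S, 0 ≤ x j)
    (hB1 : ∀ j ∈ S, 1 / c j ≤ t + (1 - x j)) (hB2 : ∀ j ∈ S, t ≤ 1 / c j + (1 - x j))
    (hsum : ∑ j ∈ S, c j * x j = 1 - 1 / t) :
    s * (1 - s) / (t + s) ≤ ∑ j ∈ S, c j * x j * (1 - x j) := by
  have hm' : (1 : ℝ) ≤ m := by exact_mod_cast hm
  have ht1 : 1 ≤ t := by linarith
  have ht : 0 < t := by linarith
  have hb := fun j hj => term_bounds t (c j) (x j) ht1 (hc j hj) (hx0 j hj) (hB1 j hj) (hB2 j hj)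
  have h1 := sum_f_ge t s m ht hs0 hs1 hts S (fun j => t * (c j * x j))
    (fun j hj => (hb j hj).1) (fun j hj => (hb j hj).2.1)
    (by rw [← Finset.mul_sum, hsum]; field_simp)
  have h2 : ∑ j ∈ S, f t (t * (c j * x j)) ≤ ∑ j ∈ S, c j * x j * (1 - x j) :=
    Finset.sum_le_sum (fun j hj => (hb j hj).2.2)
  have h3 : f t s = s * (1 - s) / (t + s) := rfl
  rw [← h3]
  exact h1.trans h2

/-- `γ_m(t) = (1/2) (log t - (m+1-t) log m - (t-m) log (m+1))`. -/
noncomputable def gam (m : ℕ) (t : ℝ) : ℝ :=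
  (1 / 2) * (Real.log t - (m + 1 - t) * Real.log m - (t - m) * Real.log (m + 1))

/-- `gap_m(c) = -(1/2) c log c - (1/2) log ((m+1)/m) - (c/2) log (m^{m+1}/(m+1)^m)`. -/
noncomputable def gap (m : ℕ) (c : ℝ) : ℝ :=
  -(1 / 2) * (c * Real.log c) - (1 / 2) * (Real.log (m + 1) - Real.log m)
    - (c / 2) * ((m + 1) * Real.log m - m * Real.log (m + 1))

theorem gap_eq (m : ℕ) (c : ℝ) (hc : 0 < c) : gap m c = c * gam m (1 / c) := by
  unfold gap gam
  rw [Real.log_div one_ne_zero hc.ne', Real.log_one]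
  field_simp
  ring

/-- trapezoid upper bound: `log (1+w) ≤ (w/2) (1 + 1/(1+w))` for `w ≥ 0`. -/
theorem log_le_trap (w : ℝ) (hw : 0 ≤ w) : Real.log (1 + w) ≤ w * (2 + w) / (2 * (1 + w)) := by
  -- derivative argument
  have hmono : MonotoneOn (fun y : ℝ => y * (2 + y) / (2 * (1 + y)) - Real.log (1 + y)) (Set.Ici 0) := by
    apply monotoneOn_of_deriv_nonneg (convex_Ici 0)
    · apply ContinuousOn.sub
      · apply ContinuousOn.div (by fun_prop) (by fun_prop)
        intro y hy
        have : (0 : ℝ) ≤ y := hy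
        positivity
      · apply ContinuousOn.log (by fun_prop)
        intro y hy
        have : (0 : ℝ) ≤ y := hy
        positivity
    · intro y hy
      rw [interior_Ici] at hy
      have hy0 : (0 : ℝ) < y := hy
      apply DifferentiableAt.differentiableWithinAt
      apply DifferentiableAt.sub
      · apply DifferentiableAt.div (by fun_prop) (by fun_prop)
        positivity
      · apply DifferentiableAt.log (by fun_prop)
        positivity
    · intro y hy
      rw [interior_Ici] at hy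
      have hy0 : (0 : ℝ) < y := hy
      have h1 : HasDerivAt (fun y : ℝ => y * (2 + y) / (2 * (1 + y)) - Real.log (1 + y))
          (((1 * (2 + y) + y * (0 + 1)) * (2 * (1 + y)) - y * (2 + y) * (2 * (0 + 1))) / (2 * (1 + y)) ^ 2
            - (0 + 1) / (1 + y)) y := by
        apply HasDerivAt.sub
        · apply HasDerivAt.div
          · exact (hasDerivAt_id' y).mul ((hasDerivAt_const y 2).add (hasDerivAt_id' y))
          · exact ((hasDerivAt_const y 1).add (hasDerivAt_id' y)).const_mul 2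
          · positivity
        · apply HasDerivAt.log
          · exact (hasDerivAt_const y 1).add (hasDerivAt_id' y)
          · positivity
      rw [h1.deriv]
      have e : ((1 * (2 + y) + y * (0 + 1)) * (2 * (1 + y)) - y * (2 + y) * (2 * (0 + 1))) / (2 * (1 + y)) ^ 2
            - (0 + 1) / (1 + y) = y ^ 2 / (2 * (1 + y) ^ 2) := by
        field_simp
        ring
      rw [e]
      positivity
  have h := hmono (show (0 : ℝ) ∈ Set.Ici 0 by simp) (show w ∈ Set.Ici 0 from hw) hw
  simp at h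
  linarith

/-- midpoint lower bound: `2 v / (2 + v) ≤ log (1+v)` for `v ≥ 0`. -/
theorem log_ge_mid (v : ℝ) (hv : 0 ≤ v) : 2 * v / (2 + v) ≤ Real.log (1 + v) := by
  have := Real.le_log_one_add_of_nonneg hv
  rw [add_comm v 2] at this
  exact this

/-- **The scalar bound.** -/
theorem gam_le (m : ℕ) (t s : ℝ) (hm : 1 ≤ m) (hs0 : 0 ≤ s) (hs1 : s ≤ 1) (hts : t = m + s) :
    gam m t ≤ (m + 2) / (4 * m * (m + 1)) * (s * (1 - s) / (t + s)) := by
  have hm' : (1 : ℝ) ≤ m := by exact_mod_cast hm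
  have hm0 : (0 : ℝ) < m := by linarith
  have ht : 0 < t := by linarith
  -- log t - log m ≤ (s/2)(2m+s)/(m(m+s))
  have h1 : Real.log t - Real.log m ≤ s * (2 * m + s) / (2 * m * (m + s)) := by
    have e1 : Real.log t - Real.log m = Real.log (1 + s / m) := by
      rw [← Real.log_div ht.ne' hm0.ne', hts]
      congr 1
      field_simp
    rw [e1]
    refine (log_le_trap (s / m) (by positivity)).trans (le_of_eq ?_)
    field_simp
  have h2 : 2 * (1 - s) / (2 * m + s + 1) ≤ Real.log (m + 1) - Real.log t := by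
    have e1 : Real.log (m + 1) - Real.log t = Real.log (1 + (1 - s) / t) := by
      rw [← Real.log_div (by positivity) ht.ne']
      congr 1
      field_simp
      linarith
    rw [e1]
    refine le_trans (le_of_eq ?_) (log_ge_mid ((1 - s) / t) (div_nonneg (by linarith) ht.le))
    have e2 : 2 * ((1 - s) / t) / (2 + (1 - s) / t) = 2 * (1 - s) / (2 * t + (1 - s)) := by
      field_simp
    rw [e2, hts]
    congr 1
    ring
  have h3 : gam m t = (1 / 2) * ((1 - s) * (Real.log t - Real.log m)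
      - s * (Real.log (m + 1) - Real.log t)) := by
    unfold gam
    rw [hts]
    ring
  rw [h3]
  have h4 := mul_le_mul_of_nonneg_left h1 (show 0 ≤ 1 - s by linarith)
  have h5 := mul_le_mul_of_nonneg_left h2 hs0
  have h6 : (1 / 2) * ((1 - s) * (Real.log t - Real.log m) - s * (Real.log (m + 1) - Real.log t))
      ≤ (1 / 2) * ((1 - s) * (s * (2 * m + s) / (2 * m * (m + s)))
        - s * (2 * (1 - s) / (2 * m + s + 1))) := by
    linarith
  refine h6.trans ?_
  have e7 : (1 / 2) * ((1 - s) * (s * (2 * m + s) / (2 * m * (m + s)))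
        - s * (2 * (1 - s) / (2 * m + s + 1)))
      = s * (1 - s) * ((2 * m + s + s ^ 2) / (4 * m * (m + s) * (2 * m + s + 1))) := by
    field_simp
    ring
  rw [e7, hts]
  have hss : 0 ≤ s * (1 - s) := mul_nonneg hs0 (by linarith)
  have e8 : ((m : ℝ) + 2) / (4 * m * (m + 1)) * (s * (1 - s) / (m + s + s))
      = s * (1 - s) * ((m + 2) / (4 * m * (m + 1) * (m + s + s))) := by
    field_simp
  rw [e8]
  apply mul_le_mul_of_nonneg_left _ hss
  rw [div_le_div_iff₀ (by positivity) (by positivity)]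
  -- (2m+s+s²)·4m(m+1)(m+2s) ≤ (m+2)·4m(m+s)(2m+s+1)
  have hA : 2 * (m : ℝ) + s + s ^ 2 ≤ 2 * m + s + 1 := by nlinarith
  have hB : ((m : ℝ) + 1) * (m + s + s) ≤ (m + 2) * (m + s) := by nlinarith
  have hC : (2 * (m : ℝ) + s + s ^ 2) * ((m + 1) * (m + s + s))
      ≤ (2 * m + s + 1) * ((m + 2) * (m + s)) := by
    apply mul_le_mul hA hB (by positivity) (by positivity)
  nlinarith

/-- **Row inequality for general `m`** with the constant `(m+2)/(4m(m+1))`
(`0.04762` for `m = 6`, decreasing). -/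
theorem gap_row (m : ℕ) (hm : 1 ≤ m) (ci : ℝ) (h1 : 1 / ((m : ℝ) + 1) ≤ ci) (h2 : ci ≤ 1 / m)
    (S : Finset ι) (c x : ι → ℝ) (hc : ∀ j ∈ S, 0 < c j) (hx0 : ∀ j ∈ S, 0 ≤ x j)
    (hB1 : ∀ j ∈ S, 1 / c j ≤ 1 / ci + (1 - x j)) (hB2 : ∀ j ∈ S, 1 / ci ≤ 1 / c j + (1 - x j))
    (hsum : ci + ∑ j ∈ S, c j * x j = 1) :
    gap m ci ≤ (m + 2) / (4 * m * (m + 1)) * (ci * ∑ j ∈ S, c j * x j * (1 - x j)) := by
  have hm' : (1 : ℝ) ≤ m := by exact_mod_cast hm
  have hm0 : (0 : ℝ) < m := by linarith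
  have hci : 0 < ci := lt_of_lt_of_le (by positivity) h1
  have ht1 : (m : ℝ) ≤ 1 / ci := by
    rw [le_div_iff₀ hci]
    rw [le_div_iff₀ hm0] at h2
    linarith
  have ht2 : 1 / ci ≤ m + 1 := by
    rw [div_le_iff₀ hci]
    rw [div_le_iff₀ (by positivity)] at h1
    linarith
  have hrow := row_lower m (1 / ci) (1 / ci - m) hm (by linarith) (by linarith) (by ring)
    S c x hc hx0 hB1 hB2 (by rw [one_div_one_div]; linarith)
  have hg := gam_le m (1 / ci) (1 / ci - m) hm (by linarith) (by linarith) (by ring)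
  rw [gap_eq m ci hci]
  have hk : (0 : ℝ) ≤ (m + 2) / (4 * m * (m + 1)) := by positivity
  calc ci * gam m (1 / ci)
      ≤ ci * ((m + 2) / (4 * m * (m + 1)) * ((1 / ci - m) * (1 - (1 / ci - m)) / (1 / ci + (1 / ci - m)))) :=
        mul_le_mul_of_nonneg_left hg hci.le
    _ ≤ ci * ((m + 2) / (4 * m * (m + 1)) * (∑ j ∈ S, c j * x j * (1 - x j))) := by
        apply mul_le_mul_of_nonneg_left _ hci.le
        exact mul_le_mul_of_nonneg_left hrow hk
    _ = (m + 2) / (4 * m * (m + 1)) * (ci * ∑ j ∈ S, c j * x j * (1 - x j)) := by ring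

/-- Padé upper bound: `log (1+w) ≤ w (6+w)/(6+4w)` for `w ≥ 0`. -/
theorem log_le_pade (w : ℝ) (hw : 0 ≤ w) : Real.log (1 + w) ≤ w * (6 + w) / (6 + 4 * w) := by
  have hmono : MonotoneOn (fun y : ℝ => y * (6 + y) / (6 + 4 * y) - Real.log (1 + y)) (Set.Ici 0) := by
    apply monotoneOn_of_deriv_nonneg (convex_Ici 0)
    · apply ContinuousOn.sub
      · apply ContinuousOn.div (by fun_prop) (by fun_prop)
        intro y hy
        have : (0 : ℝ) ≤ y := hy
        positivity
      · apply ContinuousOn.log (by fun_prop)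
        intro y hy
        have : (0 : ℝ) ≤ y := hy
        positivity
    · intro y hy
      rw [interior_Ici] at hy
      have hy0 : (0 : ℝ) < y := hy
      apply DifferentiableAt.differentiableWithinAt
      apply DifferentiableAt.sub
      · apply DifferentiableAt.div (by fun_prop) (by fun_prop)
        positivity
      · apply DifferentiableAt.log (by fun_prop)
        positivity
    · intro y hy
      rw [interior_Ici] at hy
      have hy0 : (0 : ℝ) < y := hy
      have h1 : HasDerivAt (fun y : ℝ => y * (6 + y) / (6 + 4 * y) - Real.log (1 + y))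
          (((1 * (6 + y) + y * (0 + 1)) * (6 + 4 * y) - y * (6 + y) * (0 + 4 * 1)) / (6 + 4 * y) ^ 2
            - (0 + 1) / (1 + y)) y := by
        apply HasDerivAt.sub
        · apply HasDerivAt.div
          · exact (hasDerivAt_id' y).mul ((hasDerivAt_const y 6).add (hasDerivAt_id' y))
          · exact (hasDerivAt_const y 6).add ((hasDerivAt_id' y).const_mul 4)
          · positivity
        · apply HasDerivAt.log
          · exact (hasDerivAt_const y 1).add (hasDerivAt_id' y)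
          · positivity
      rw [h1.deriv]
      have e : ((1 * (6 + y) + y * (0 + 1)) * (6 + 4 * y) - y * (6 + y) * (0 + 4 * 1)) / (6 + 4 * y) ^ 2
            - (0 + 1) / (1 + y) = 4 * y ^ 3 / ((6 + 4 * y) ^ 2 * (1 + y)) := by
        field_simp
        ring
      rw [e]
      positivity
  have h := hmono (show (0 : ℝ) ∈ Set.Ici 0 by simp) (show w ∈ Set.Ici 0 from hw) hw
  simp at h
  linarith

/-- Padé lower bound: `v (6+3v)/(6+6v+v²) ≤ log (1+v)` for `v ≥ 0`. -/
theorem log_ge_pade (w : ℝ) (hw : 0 ≤ w) :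
    w * (6 + 3 * w) / (6 + 6 * w + w ^ 2) ≤ Real.log (1 + w) := by
  have hmono : MonotoneOn (fun y : ℝ => Real.log (1 + y) - y * (6 + 3 * y) / (6 + 6 * y + y ^ 2))
      (Set.Ici 0) := by
    apply monotoneOn_of_deriv_nonneg (convex_Ici 0)
    · apply ContinuousOn.sub
      · apply ContinuousOn.log (by fun_prop)
        intro y hy
        have : (0 : ℝ) ≤ y := hy
        positivity
      · apply ContinuousOn.div (by fun_prop) (by fun_prop)
        intro y hy
        have : (0 : ℝ) ≤ y := hy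
        positivity
    · intro y hy
      rw [interior_Ici] at hy
      have hy0 : (0 : ℝ) < y := hy
      apply DifferentiableAt.differentiableWithinAt
      apply DifferentiableAt.sub
      · apply DifferentiableAt.log (by fun_prop)
        positivity
      · apply DifferentiableAt.div (by fun_prop) (by fun_prop)
        positivity
    · intro y hy
      rw [interior_Ici] at hy
      have hy0 : (0 : ℝ) < y := hy
      have h1 : HasDerivAt (fun y : ℝ => Real.log (1 + y) - y * (6 + 3 * y) / (6 + 6 * y + y ^ 2))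
          ((0 + 1) / (1 + y) - ((1 * (6 + 3 * y) + y * (0 + 3 * 1)) * (6 + 6 * y + y ^ 2)
            - y * (6 + 3 * y) * ((0 + 6 * 1) + (2 : ℕ) * y ^ (2 - 1) * 1)) / (6 + 6 * y + y ^ 2) ^ 2) y := by
        apply HasDerivAt.sub
        · apply HasDerivAt.log
          · exact (hasDerivAt_const y 1).add (hasDerivAt_id' y)
          · positivity
        · apply HasDerivAt.div
          · exact (hasDerivAt_id' y).mul ((hasDerivAt_const y 6).add ((hasDerivAt_id' y).const_mul 3))
          · exact ((hasDerivAt_const y 6).add ((hasDerivAt_id' y).const_mul 6)).add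
              ((hasDerivAt_id' y).pow 2)
          · positivity
      rw [h1.deriv]
      have e : (0 + 1) / (1 + y) - ((1 * (6 + 3 * y) + y * (0 + 3 * 1)) * (6 + 6 * y + y ^ 2)
            - y * (6 + 3 * y) * ((0 + 6 * 1) + (2 : ℕ) * y ^ (2 - 1) * 1)) / (6 + 6 * y + y ^ 2) ^ 2
          = y ^ 4 / ((6 + 6 * y + y ^ 2) ^ 2 * (1 + y)) := by
        have : (6 + 6 * y + y ^ 2) ≠ 0 := by positivity
        field_simp
        ring
      rw [e]
      positivity
  have h := hmono (show (0 : ℝ) ∈ Set.Ici 0 by simp) (show w ∈ Set.Ici 0 from hw) hw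
  simp at h
  linarith

/-- the sharper scalar bound for `m = 5`. -/
theorem gam_five (t s : ℝ) (hs0 : 0 ≤ s) (hs1 : s ≤ 1) (hts : t = 5 + s) :
    gam 5 t ≤ 0.055 * (s * (1 - s) / (t + s)) := by
  have ht : 0 < t := by linarith
  have h1 : Real.log t - Real.log 5 ≤ s * (30 + s) / (5 * (30 + 4 * s)) := by
    have e1 : Real.log t - Real.log 5 = Real.log (1 + s / 5) := by
      rw [← Real.log_div ht.ne' (by norm_num), hts]
      congr 1
      field_simp
    rw [e1]
    refine (log_le_pade (s / 5) (by positivity)).trans (le_of_eq ?_)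
    field_simp
    ring
  have h2 : (1 - s) * (33 + 3 * s) / (36 * (5 + s) + (1 - s) ^ 2) ≤ Real.log (5 + 1) - Real.log t := by
    have e1 : Real.log (5 + 1) - Real.log t = Real.log (1 + (1 - s) / t) := by
      rw [← Real.log_div (by positivity) ht.ne']
      congr 1
      field_simp
      linarith
    rw [e1]
    refine le_trans (le_of_eq ?_) (log_ge_pade ((1 - s) / t) (div_nonneg (by linarith) ht.le))
    have e2 : (1 - s) / t * (6 + 3 * ((1 - s) / t)) / (6 + 6 * ((1 - s) / t) + ((1 - s) / t) ^ 2)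
        = (1 - s) * (6 * t + 3 * (1 - s)) / (6 * t ^ 2 + 6 * t * (1 - s) + (1 - s) ^ 2) := by
      have h10 : 0 < 6 * t ^ 2 + 6 * t * (1 - s) + (1 - s) ^ 2 := by
        have : 0 ≤ 6 * t * (1 - s) := by
          have : 0 ≤ 1 - s := by linarith
          positivity
        positivity
      have h11 : 6 + 6 * ((1 - s) / t) + ((1 - s) / t) ^ 2
          = (6 * t ^ 2 + 6 * t * (1 - s) + (1 - s) ^ 2) / t ^ 2 := by
        field_simp
      rw [h11]
      have := h10.ne'
      field_simp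
    rw [e2, hts]
    congr 1 <;> ring
  have h3 : gam 5 t = (1 / 2) * ((1 - s) * (Real.log t - Real.log 5)
      - s * (Real.log (5 + 1) - Real.log t)) := by
    unfold gam
    rw [hts]
    push_cast
    ring
  rw [h3]
  have h4 := mul_le_mul_of_nonneg_left h1 (show 0 ≤ 1 - s by linarith)
  have h5 := mul_le_mul_of_nonneg_left h2 hs0
  have h6 : (1 / 2) * ((1 - s) * (Real.log t - Real.log 5) - s * (Real.log (5 + 1) - Real.log t))
      ≤ (1 / 2) * ((1 - s) * (s * (30 + s) / (5 * (30 + 4 * s)))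
        - s * ((1 - s) * (33 + 3 * s) / (36 * (5 + s) + (1 - s) ^ 2))) := by
    linarith
  refine h6.trans ?_
  have hA : 0 < 5 * (30 + 4 * s) := by positivity
  have hB : 0 < 36 * (5 + s) + (1 - s) ^ 2 := by positivity
  have hC : 0 < 5 + s + s := by positivity
  have key : 0.055 * (s * (1 - s) / (5 + s + s))
      - (1 / 2) * ((1 - s) * (s * (30 + s) / (5 * (30 + 4 * s)))
        - s * ((1 - s) * (33 + 3 * s) / (36 * (5 + s) + (1 - s) ^ 2)))
      = s * (1 - s) * ((1173/2 - 2279/5 * s - 1107/10 * s^2 - 54/5 * s^3 - 2 * s^4)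
          / (2 * (5 + s + s) * (5 * (30 + 4 * s)) * (36 * (5 + s) + (1 - s) ^ 2))) := by
    have hA' := hA.ne'
    have hB' := hB.ne'
    have hC' := hC.ne'
    have hA'' : (30 + 4 * s) ≠ 0 := by positivity
    field_simp
    ring
  have hpoly : 0 ≤ 1173/2 - 2279/5 * s - 1107/10 * s^2 - 54/5 * s^3 - 2 * s^4 := by
    have h2 : s ^ 2 ≤ 1 := pow_le_one₀ hs0 hs1
    have h3 : s ^ 3 ≤ 1 := pow_le_one₀ hs0 hs1
    have h4 : s ^ 4 ≤ 1 := pow_le_one₀ hs0 hs1
    nlinarith
  have hfin : 0 ≤ s * (1 - s) * ((1173/2 - 2279/5 * s - 1107/10 * s^2 - 54/5 * s^3 - 2 * s^4)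
          / (2 * (5 + s + s) * (5 * (30 + 4 * s)) * (36 * (5 + s) + (1 - s) ^ 2))) := by
    apply mul_nonneg (mul_nonneg hs0 (by linarith))
    apply div_nonneg hpoly
    positivity
  rw [hts]
  linarith

/-- **Row inequality for `m = 5`** with the constant `0.055`. -/
theorem gap_row_five (ci : ℝ) (h1 : 1 / 6 ≤ ci) (h2 : ci ≤ 1 / 5)
    (S : Finset ι) (c x : ι → ℝ) (hc : ∀ j ∈ S, 0 < c j) (hx0 : ∀ j ∈ S, 0 ≤ x j)
    (hB1 : ∀ j ∈ S, 1 / c j ≤ 1 / ci + (1 - x j)) (hB2 : ∀ j ∈ S, 1 / ci ≤ 1 / c j + (1 - x j))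
    (hsum : ci + ∑ j ∈ S, c j * x j = 1) :
    gap 5 ci ≤ 0.055 * (ci * ∑ j ∈ S, c j * x j * (1 - x j)) := by
  have hci : 0 < ci := lt_of_lt_of_le (by norm_num) h1
  have ht1 : (5 : ℝ) ≤ 1 / ci := by
    rw [le_div_iff₀ hci]
    linarith
  have ht2 : 1 / ci ≤ 6 := by
    rw [div_le_iff₀ hci]
    linarith
  have hrow := row_lower 5 (1 / ci) (1 / ci - 5) (by norm_num) (by linarith) (by linarith)
    (by push_cast; ring) S c x hc hx0 hB1 hB2 (by rw [one_div_one_div]; linarith)
  have hg := gam_five (1 / ci) (1 / ci - 5) (by linarith) (by linarith) (by ring)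
  rw [gap_eq 5 ci hci]
  calc ci * gam 5 (1 / ci)
      ≤ ci * (0.055 * ((1 / ci - 5) * (1 - (1 / ci - 5)) / (1 / ci + (1 / ci - 5)))) :=
        mul_le_mul_of_nonneg_left hg hci.le
    _ ≤ ci * (0.055 * (∑ j ∈ S, c j * x j * (1 - x j))) := by
        apply mul_le_mul_of_nonneg_left _ hci.le
        exact mul_le_mul_of_nonneg_left hrow (by norm_num)
    _ = 0.055 * (ci * ∑ j ∈ S, c j * x j * (1 - x j)) := by ring

end Pool.Agent.Lib.MP_589a62_gt.Full.Large
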