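import Pool.Agent.Lib.MP_589a62_gt.Full.Induct
import Pool.Agent.Lib.MP_589a62_gt.Threshold

/-!
# The induction for the `m`-inequality
-/

set_option autoImplicit false

open Matrix Finset MeasureTheory Set Real
open scoped ENNReal

namespace Pool.Agent.Lib.MP_589a62_gt.Full

/-- The `m`-bound for the square of the volume. -/
noncomputable def BB (m n k : ℕ) : ℝ :=
  (((m : ℝ) + 1) / m) ^ n * ((m : ℝ) ^ (m + 1) / ((m : ℝ) + 1) ^ m) ^ k

/-- The threshold for the contraction. -/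
noncomputable def gg (m : ℕ) : ℝ := ((m : ℝ) + 1) ^ (m - 1) / (m : ℝ) ^ m

lemma BB_pos {m : ℕ} (hm : 1 ≤ m) (n k : ℕ) : 0 < BB m n k := by
  have : (0 : ℝ) < m := by exact_mod_cast hm
  unfold BB; positivity

lemma gg_pos {m : ℕ} (hm : 1 ≤ m) : 0 < gg m := by
  have : (0 : ℝ) < m := by exact_mod_cast hm
  unfold gg; positivity

lemma BB_succ {m : ℕ} (hm : 1 ≤ m) (n k : ℕ) :
    BB m (n + 1) k * ((m : ℝ) / ((m : ℝ) + 1)) = BB m n k := by
  have : (0 : ℝ) < m := by exact_mod_cast hm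
  unfold BB
  rw [pow_succ]
  field_simp

lemma BB_succ_succ {m : ℕ} (hm : 1 ≤ m) (n k : ℕ) :
    BB m (n + 1) (k + 1) * gg m = BB m n k := by
  have h0 : (0 : ℝ) < m := by exact_mod_cast hm
  have h1 : (0 : ℝ) < (m : ℝ) + 1 := by positivity
  obtain ⟨p, rfl⟩ : ∃ p, m = p + 1 := ⟨m - 1, by omega⟩
  unfold BB gg
  rw [Nat.add_sub_cancel, pow_succ (((p + 1 : ℕ) : ℝ) + 1) p, pow_succ _ n, pow_succ _ k]
  field_simp
  rw [pow_succ _ (p + 1), mul_comm]

/-- **The induction.** -/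
theorem m_induction (m : ℕ) (hm : 1 ≤ m)
    (hcore : ∀ (n k : ℕ) (U : Matrix (Fin n) (Fin k) ℝ), Uᵀ * U = 1 →
      (∀ i, 1 / ((m : ℝ) + 1) < rowSq U i ∧ rowSq U i < gg m) → vol U ^ 2 ≤ BB m n k) :
    ∀ (n k : ℕ) (U : Matrix (Fin n) (Fin k) ℝ), Uᵀ * U = 1 → vol U ^ 2 ≤ BB m n k := by
  have h0 : (0 : ℝ) < m := by exact_mod_cast hm
  have h1m : (1 : ℝ) ≤ m := by exact_mod_cast hm
  intro n
  induction n with
  | zero => exact fun k U hU => hcore 0 k U hU fun i => i.elim0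
  | succ n ih =>
    intro k U hU
    have hv0 : 0 ≤ vol U ^ 2 := sq_nonneg _
    by_cases h1 : ∃ i, rowSq U i ≤ 1 / ((m : ℝ) + 1)
    · obtain ⟨i, hi⟩ := h1
      have hlt : 1 / ((m : ℝ) + 1) < 1 := by
        rw [div_lt_one (by positivity)]; linarith
      obtain ⟨W, hW, hle⟩ := deletion U hU i (hi.trans_lt hlt)
      have h2 := ih k W hW
      have h3 : vol U ^ 2 * ((m : ℝ) / ((m : ℝ) + 1)) ≤ vol U ^ 2 * (1 - rowSq U i) := by
        refine mul_le_mul_of_nonneg_left ?_ hv0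
        have : (m : ℝ) / ((m : ℝ) + 1) = 1 - 1 / ((m : ℝ) + 1) := by field_simp; ring
        rw [this]; linarith
      have h4 := BB_succ hm n k
      have h5 : (0 : ℝ) < (m : ℝ) / ((m : ℝ) + 1) := by positivity
      exact le_of_mul_le_mul_right (by linarith) h5
    by_cases h2 : ∃ i, gg m ≤ rowSq U i
    · obtain ⟨i, hi⟩ := h2
      obtain _ | k := k
      · exfalso
        have h3 : rowSq U i = 0 := by simp [rowSq]
        have := gg_pos hm
        linarith
      have hgp := gg_pos hm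
      obtain ⟨W, hW, hle⟩ := contraction U hU i (hgp.trans_le hi)
      have h2 := ih k W hW
      have h3 : vol U ^ 2 * gg m ≤ vol U ^ 2 * rowSq U i := mul_le_mul_of_nonneg_left hi hv0
      have h4 := BB_succ_succ hm n k
      exact le_of_mul_le_mul_right (by linarith) hgp
    · push Not at h1 h2
      exact hcore _ _ U hU fun i => ⟨h1 i, h2 i⟩

lemma BB_eq_maxSq {n k : ℕ} (hk : 0 < k) (hn : k ≤ n) : BB (n / k) n k = maxSq n k := by
  have hq : 1 ≤ n / k := (Nat.one_le_div_iff hk).2 hn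
  have h0 : (0 : ℝ) < ((n / k : ℕ) : ℝ) := by exact_mod_cast hq
  have hr : n % k < k := Nat.mod_lt _ hk
  have hnk : n = n / k * k + n % k := (Nat.div_add_mod' n k).symm
  unfold BB maxSq
  set q := n / k with hqdef
  set r := n % k with hrdef
  obtain ⟨t, ht⟩ : ∃ t, k = r + t := ⟨k - r, by omega⟩
  have hkr : k - r = t := by omega
  have e : (((q : ℝ) + 1) / q) ^ n = (((q : ℝ) + 1) / q) ^ (q * k + r) := by rw [← hnk]
  rw [e, hkr]
  have h1 : (0 : ℝ) < (q : ℝ) + 1 := by positivity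
  rw [div_pow, div_pow, ← pow_mul, ← pow_mul]
  rw [div_mul_div_comm, div_eq_iff (by positivity)]
  have e2 : (q + 1) * k = q * k + r + t := by rw [add_mul, one_mul]; omega
  rw [e2, pow_add, pow_add, pow_add (q : ℝ) (q * k) r]
  ring

/-- The final form: if the core inequality holds for `m = n / k`, then the volume of a section is
at most the conjectured one. -/
theorem upper_of_core {n k : ℕ} (hk : 0 < k) (hn : k ≤ n)
    (hcore : ∀ (n' k' : ℕ) (U : Matrix (Fin n') (Fin k') ℝ), Uᵀ * U = 1 →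
      (∀ i, 1 / (((n / k : ℕ) : ℝ) + 1) < rowSq U i ∧ rowSq U i < gg (n / k)) →
      vol U ^ 2 ≤ BB (n / k) n' k') (U : Matrix (Fin n) (Fin k) ℝ) (hU : Uᵀ * U = 1) :
    vol U ^ 2 ≤ maxSq n k := by
  rw [← BB_eq_maxSq hk hn]
  exact m_induction _ ((Nat.one_le_div_iff hk).2 hn) hcore n k U hU

end Pool.Agent.Lib.MP_589a62_gt.Full
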