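import Pool.Agent.Lib.MP_589a62_gt.Full.PairBound
import Pool.Agent.Lib.MP_589a62_gt.Full.Crit
import Pool.Agent.Lib.MP_589a62_gt.Full.Large
import Pool.Agent.Lib.MP_589a62_gt.Full.MInd

/-!
# From the pair bound and the gap inequality to the volume bound
-/

set_option autoImplicit false
set_option linter.unusedVariables false
set_option linter.unusedSectionVars false

open Matrix Finset MeasureTheory Set Real
open scoped ENNReal

namespace Pool.Agent.Lib.MP_589a62_gt.Full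

section
variable {ι κ : Type*} [Fintype ι] [Fintype κ] [DecidableEq κ] [DecidableEq ι]

lemma log_ballBound (U : Matrix ι κ ℝ) (hc : ∀ i, 0 < rowSq U i) :
    Real.log (ballBound U) = -(1 / 2) * ∑ i, rowSq U i * Real.log (rowSq U i) := by
  rw [ballBound, Real.log_prod fun i _ => (Real.rpow_pos_of_pos (hc i) _).ne', Finset.mul_sum]
  refine Finset.sum_congr rfl fun i _ => ?_
  rw [Real.log_rpow (hc i)]
  ring

/-- The squared cosine. -/
noncomputable def xx (U : Matrix ι κ ℝ) (i j : ι) : ℝ := kk U i j / (rowSq U i * rowSq U j)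

/-- Admissible data for the pair bound. -/
structure Adm (U : Matrix ι κ ℝ) (t T σ r : ι → ι → ℝ) : Prop where
  tsym : ∀ i j, t i j = t j i
  t0 : ∀ i j, 0 ≤ t i j
  t1 : ∀ i j, t i j ≤ 1
  Tsym : ∀ i j, T i j = T j i
  T0 : ∀ i j, 0 ≤ T i j
  T1 : ∀ i j, T i j ≤ 1
  σ0 : ∀ i j, 0 < σ i j
  σ1 : ∀ i j, σ i j ≤ 1
  sum : ∀ i, ∑ j ∈ univ.erase i, kk U i j / rowSq U i * t i j / σ i j ≤ 1
  good : ∀ i j, i ≠ j → Good (T i j) (σ i j) (r i j)

/-- The supply. -/
noncomputable def supply (U : Matrix ι κ ℝ) (t r : ι → ι → ℝ) : ℝ :=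
  1 / 2 * ∑ i, ∑ j ∈ univ.erase i, kk U i j * t i j * ((1 - xx U i j) * r i j)

theorem vol_le_of_adm (U : Matrix ι κ ℝ) (hU : Uᵀ * U = 1) (hc : ∀ i, 0 < rowSq U i)
    {t T σ r : ι → ι → ℝ} (h : Adm U t T σ r) :
    (volume (openSec U)).toReal ≤ ballBound U * Real.exp (-supply U t r) := by
  have h1 := pair_bound U hU hc t T σ r h.tsym h.t0 h.t1 h.Tsym h.T0 h.T1 h.σ0 h.σ1 h.sum h.good
  exact ENNReal.toReal_le_of_le_ofReal
    (mul_nonneg (ballBound_pos U).le (Real.exp_pos _).le) h1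

end

lemma sum_gap {n k : ℕ} (m : ℕ) (U : Matrix (Fin n) (Fin k) ℝ) (hU : Uᵀ * U = 1)
    (hc : ∀ i, 0 < rowSq U i) :
    ∑ i, Large.gap m (rowSq U i) = Real.log (ballBound U) -
      (n : ℝ) / 2 * (Real.log (m + 1) - Real.log m) -
      (k : ℝ) / 2 * ((m + 1) * Real.log m - m * Real.log (m + 1)) := by
  have h1 := sum_rowSq U hU
  rw [Fintype.card_fin] at h1
  rw [log_ballBound U hc, ← h1]
  simp only [Large.gap, Finset.sum_sub_distrib, ← Finset.mul_sum, Finset.sum_const,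
    Finset.card_univ, Fintype.card_fin, nsmul_eq_mul, ← Finset.sum_div, ← Finset.sum_mul]
  ring

lemma log_BB {m : ℕ} (hm : 1 ≤ m) (n k : ℕ) : Real.log (BB m n k) =
    (n : ℝ) * (Real.log (m + 1) - Real.log m) +
      (k : ℝ) * ((m + 1) * Real.log m - m * Real.log (m + 1)) := by
  have h0 : (0 : ℝ) < m := by exact_mod_cast hm
  have h1 : (0 : ℝ) < (m : ℝ) + 1 := by positivity
  unfold BB
  rw [Real.log_mul (by positivity) (by positivity), Real.log_pow, Real.log_pow,
    Real.log_div h1.ne' h0.ne', Real.log_div (by positivity) (by positivity), Real.log_pow,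
    Real.log_pow]
  push_cast
  ring

/-- The gap inequality gives the volume bound. -/
theorem vol_sq_le_BB {n k m : ℕ} (hm : 1 ≤ m) (U : Matrix (Fin n) (Fin k) ℝ) (hU : Uᵀ * U = 1)
    (hc : ∀ i, 0 < rowSq U i) {t T σ r : Fin n → Fin n → ℝ} (h : Adm U t T σ r)
    (hgap : ∑ i, Large.gap m (rowSq U i) ≤ supply U t r) :
    vol U ^ 2 ≤ BB m n k := by
  have h1 := vol_le_of_adm U hU hc h
  change vol U ≤ _ at h1
  have hv := vol_pos U hU
  have hb := ballBound_pos U
  have h2 : Real.log (vol U) ≤ Real.log (ballBound U) - supply U t r := by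
    have h3 := Real.log_le_log hv h1
    rw [Real.log_mul hb.ne' (Real.exp_pos _).ne', Real.log_exp] at h3
    linarith
  rw [sum_gap m U hU hc] at hgap
  have h4 : Real.log (vol U ^ 2) ≤ Real.log (BB m n k) := by
    rw [Real.log_pow, log_BB hm]
    push_cast
    linarith
  exact (Real.log_le_log_iff (by positivity) (BB_pos hm n k)).1 h4

lemma BB_mul_pow {m : ℕ} (hm : 1 ≤ m) (n k : ℕ) :
    BB m n k * ((m : ℝ) / (m + 1)) ^ n = BB m 0 k := by
  have h0 : (0 : ℝ) < m := by exact_mod_cast hm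
  have h1 : (0 : ℝ) < (m : ℝ) + 1 := by positivity
  unfold BB
  rw [pow_zero, one_mul, mul_right_comm, ← mul_pow]
  have : ((m : ℝ) + 1) / m * (m / (m + 1)) = 1 := by field_simp
  rw [this, one_pow, one_mul]

/-- The bound for the maximisers gives the bound for all sections. -/
theorem all_of_max {m : ℕ} (hm : 1 ≤ m) (k : ℕ)
    (hex : ∃ (n : ℕ) (U : Matrix (Fin n) (Fin k) ℝ), Uᵀ * U = 1 ∧ IsMax m U)
    (hmax : ∀ (n : ℕ) (U : Matrix (Fin n) (Fin k) ℝ), Uᵀ * U = 1 → IsMax m U →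
      vol U ^ 2 ≤ BB m n k) :
    ∀ (n : ℕ) (V : Matrix (Fin n) (Fin k) ℝ), Vᵀ * V = 1 → vol V ^ 2 ≤ BB m n k := by
  obtain ⟨n₀, U, hU, hUm⟩ := hex
  intro n V hV
  have h1 := hUm n V hV
  have h2 := hmax n₀ U hU hUm
  have h0 : (0 : ℝ) < m := by exact_mod_cast hm
  have hp : (0 : ℝ) < (m : ℝ) / (m + 1) := by positivity
  have h3 : vol V ^ 2 * ((m : ℝ) / (m + 1)) ^ n ≤ BB m n k * ((m : ℝ) / (m + 1)) ^ n := by
    rw [BB_mul_pow hm n k, ← BB_mul_pow hm n₀ k]
    exact h1.trans (mul_le_mul_of_nonneg_right h2 (pow_pos hp _).le)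
  exact le_of_mul_le_mul_right h3 (pow_pos hp n)

/-- The row sum. -/
lemma row_sum_erase {n k : ℕ} (U : Matrix (Fin n) (Fin k) ℝ) (hU : Uᵀ * U = 1)
    {i : Fin n} (hc : 0 < rowSq U i) :
    ∑ j ∈ univ.erase i, kk U i j / rowSq U i = 1 - rowSq U i := by
  have h1 := sum_kk U hU i
  rw [← Finset.add_sum_erase _ _ (Finset.mem_univ i), kk_self] at h1
  rw [← Finset.sum_div, eq_comm, eq_div_iff hc.ne']
  linarith

/-- Uniform data: all edges kept, `T = 3/4`, one value `s` of `σ`. -/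
lemma adm_unif {n k : ℕ} (U : Matrix (Fin n) (Fin k) ℝ) (hU : Uᵀ * U = 1)
    (hc : ∀ i, 0 < rowSq U i) (s : ℝ) (hs0 : 1 / 5 ≤ s) (hs1 : s ≤ 1)
    (hs : ∀ i, 1 - rowSq U i ≤ s) :
    Adm U (fun _ _ => 1) (fun _ _ => 3 / 4) (fun _ _ => s) (fun _ _ => RB s) where
  tsym := fun _ _ => rfl
  t0 := fun _ _ => zero_le_one
  t1 := fun _ _ => le_rfl
  Tsym := fun _ _ => rfl
  T0 := fun _ _ => by norm_num
  T1 := fun _ _ => by norm_num
  σ0 := fun _ _ => by linarith
  σ1 := fun _ _ => hs1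
  sum := fun i => by
    have h0 : 0 < s := by linarith
    have h1 := row_sum_erase U hU (hc i)
    have h2 : ∑ j ∈ univ.erase i, kk U i j / rowSq U i * 1 / s = (1 - rowSq U i) / s := by
      rw [← h1, Finset.sum_div]
      exact Finset.sum_congr rfl fun j _ => by rw [mul_one]
    rw [h2, div_le_one h0]
    exact hs i
  good := fun _ _ _ => good_B s hs0 hs1

/-- A row-wise inequality is enough. -/
theorem vol_sq_le_BB_of_rows {n k m : ℕ} (hm : 1 ≤ m) (U : Matrix (Fin n) (Fin k) ℝ)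
    (hU : Uᵀ * U = 1) (hc : ∀ i, 0 < rowSq U i) (s : ℝ) (hs0 : 1 / 5 ≤ s) (hs1 : s ≤ 1)
    (hs : ∀ i, 1 - rowSq U i ≤ s)
    (hrow : ∀ i, Large.gap m (rowSq U i) ≤
      RB s / 2 * ∑ j ∈ univ.erase i, kk U i j * (1 - xx U i j)) :
    vol U ^ 2 ≤ BB m n k := by
  refine vol_sq_le_BB hm U hU hc (adm_unif U hU hc s hs0 hs1 hs) ?_
  unfold supply
  rw [Finset.mul_sum]
  refine Finset.sum_le_sum fun i _ => (hrow i).trans (le_of_eq ?_)
  rw [Finset.mul_sum, Finset.mul_sum]
  exact Finset.sum_congr rfl fun j _ => by ring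

/-- **The case `m ≥ 5`.** -/
theorem max_large {n k m : ℕ} (hm : 5 ≤ m) (U : Matrix (Fin n) (Fin k) ℝ) (hU : Uᵀ * U = 1)
    (hmax : IsMax m U) : vol U ^ 2 ≤ BB m n k := by
  have hm1 : 1 ≤ m := by omega
  have h0 : (0 : ℝ) < m := by exact_mod_cast hm1
  have hlo := fun i => crit_lower hm1 U hU hmax i
  have hup := fun i => crit_upper hm1 U hU hmax i
  have hc : ∀ i, 0 < rowSq U i := fun i => lt_of_lt_of_le (by positivity) (hlo i)
  have hB := fun i j => crit_B hm1 U hU hmax (i := i) (j := j)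
  -- the data of a row
  have hrows : ∀ i, rowSq U i + ∑ j ∈ univ.erase i, rowSq U j * xx U i j = 1 := by
    intro i
    have h1 := row_sum_erase U hU (hc i)
    have h2 : ∑ j ∈ univ.erase i, rowSq U j * xx U i j =
        ∑ j ∈ univ.erase i, kk U i j / rowSq U i := by
      refine Finset.sum_congr rfl fun j _ => ?_
      unfold xx
      have := (hc i).ne'
      have := (hc j).ne'
      field_simp
    rw [h2, h1]; ring
  have hsum : ∀ i, rowSq U i * ∑ j ∈ univ.erase i, rowSq U j * xx U i j * (1 - xx U i j) =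
      ∑ j ∈ univ.erase i, kk U i j * (1 - xx U i j) := by
    intro i
    rw [Finset.mul_sum]
    refine Finset.sum_congr rfl fun j _ => ?_
    have e : rowSq U i * rowSq U j * xx U i j = kk U i j := by
      unfold xx
      have := (hc i).ne'
      have := (hc j).ne'
      field_simp
    rw [← e]; ring
  have hx0 : ∀ i j, 0 ≤ xx U i j := fun i j =>
    div_nonneg (kk_nonneg U i j) (mul_nonneg (hc i).le (hc j).le)
  have hx1 : ∀ i j, xx U i j ≤ 1 := fun i j => by
    have := (abs_nonneg _).trans (hB i j)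
    unfold xx; linarith
  have hS0 : ∀ i, 0 ≤ ∑ j ∈ univ.erase i, kk U i j * (1 - xx U i j) := fun i =>
    Finset.sum_nonneg fun j _ => mul_nonneg (kk_nonneg U i j) (by linarith [hx1 i j])
  have hB1 : ∀ i j, 1 / rowSq U j ≤ 1 / rowSq U i + (1 - xx U i j) := fun i j => by
    have := (abs_le.1 (hB i j)).1
    unfold xx; linarith
  have hB2 : ∀ i j, 1 / rowSq U i ≤ 1 / rowSq U j + (1 - xx U i j) := fun i j => by
    have := (abs_le.1 (hB i j)).2
    unfold xx; linarith
  have hs : ∀ i, 1 - rowSq U i ≤ (m : ℝ) / (m + 1) := fun i => by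
    have h1 := hlo i
    have h2 : (m : ℝ) / (m + 1) = 1 - 1 / ((m : ℝ) + 1) := by field_simp; ring
    rw [h2]; linarith
  have hgen : ∀ i, Large.gap m (rowSq U i) ≤ ((m : ℝ) + 2) / (4 * m * (m + 1)) *
      ∑ j ∈ univ.erase i, kk U i j * (1 - xx U i j) := fun i => by
    have h1 := Large.gap_row m hm1 (rowSq U i) (hlo i) (hup i) (univ.erase i) (rowSq U) (xx U i)
      (fun j _ => hc j) (fun j _ => hx0 i j) (fun j _ => hB1 i j) (fun j _ => hB2 i j) (hrows i)
    rwa [hsum i] at h1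
  rcases hm.eq_or_lt with h5 | h5
  · subst h5
    refine vol_sq_le_BB_of_rows hm1 U hU hc (5 / 6) (by norm_num) (by norm_num)
      (fun i => (hs i).trans (by norm_num)) fun i => ?_
    have h1 := Large.gap_row_five (rowSq U i) (by have := hlo i; norm_num at this ⊢; linarith)
      (by have := hup i; norm_num at this ⊢; linarith) (univ.erase i) (rowSq U) (xx U i)
      (fun j _ => hc j) (fun j _ => hx0 i j) (fun j _ => hB1 i j) (fun j _ => hB2 i j) (hrows i)
    rw [hsum i] at h1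
    refine h1.trans (mul_le_mul_of_nonneg_right ?_ (hS0 i))
    unfold RB
    norm_num
  rcases (Nat.succ_le_of_lt h5).eq_or_lt with h6 | h6
  · have hm6 : m = 6 := h6.symm
    subst hm6
    refine vol_sq_le_BB_of_rows hm1 U hU hc (6 / 7) (by norm_num) (by norm_num)
      (fun i => (hs i).trans (by norm_num)) fun i => ?_
    refine (hgen i).trans (mul_le_mul_of_nonneg_right ?_ (hS0 i))
    unfold RB
    norm_num
  · have h7 : 7 ≤ m := h6
    have h7' : (7 : ℝ) ≤ m := by exact_mod_cast h7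
    refine vol_sq_le_BB_of_rows hm1 U hU hc 1 (by norm_num) le_rfl
      (fun i => by linarith [hc i]) fun i => ?_
    refine (hgen i).trans (mul_le_mul_of_nonneg_right ?_ (hS0 i))
    rw [div_le_iff₀ (by positivity)]
    unfold RB
    nlinarith

end Pool.Agent.Lib.MP_589a62_gt.Full
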