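import Pool.Agent.Lib.MP_589a62_gt.Full.Star4
import Pool.Agent.Lib.MP_589a62_gt.Full.Glue
import Pool.Agent.Lib.MP_589a62_gt.Full.GoodCD

/-!
# The case `m = 4`
-/

set_option autoImplicit false
set_option linter.unusedVariables false

open Matrix Finset MeasureTheory Set Real
open scoped ENNReal

namespace Pool.Agent.Lib.MP_589a62_gt.Full

/-- Uniform data: all edges kept, `T = 3/4`, one value `s` of `σ`, rate `RC`. -/
lemma adm_unifC {n k : ℕ} (U : Matrix (Fin n) (Fin k) ℝ) (hU : Uᵀ * U = 1)
    (hc : ∀ i, 0 < rowSq U i) (s : ℝ) (hs0 : 1 / 5 ≤ s) (hs1 : s ≤ 1)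
    (hs : ∀ i, 1 - rowSq U i ≤ s) :
    Adm U (fun _ _ => 1) (fun _ _ => 3 / 4) (fun _ _ => s) (fun _ _ => RC s) where
  tsym := fun _ _ => rfl
  t0 := fun _ _ => zero_le_one
  t1 := fun _ _ => le_rfl
  Tsym := fun _ _ => rfl
  T0 := fun _ _ => by norm_num
  T1 := fun _ _ => by norm_num
  σ0 := fun _ _ => by linarith
  σ1 := fun _ _ => hs1
  sum := fun i => by
    have h0 : 0 < s := by linarith
    have h1 := row_sum_erase U hU (hc i)
    have h2 : ∑ j ∈ univ.erase i, kk U i j / rowSq U i * 1 / s = (1 - rowSq U i) / s := by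
      rw [← h1, Finset.sum_div]
      exact Finset.sum_congr rfl fun j _ => by rw [mul_one]
    rw [h2, div_le_one h0]
    exact hs i
  good := fun _ _ _ => good_C s hs0 hs1

/-- Facts about a maximiser. -/
lemma xx_self {n k : ℕ} (U : Matrix (Fin n) (Fin k) ℝ) {i : Fin n} (hc : 0 < rowSq U i) :
    xx U i i = 1 := by
  unfold xx
  rw [kk_self]
  have := hc.ne'
  field_simp

/-- **The case `m = 4`.** -/
theorem max_four {n k : ℕ} (U : Matrix (Fin n) (Fin k) ℝ) (hU : Uᵀ * U = 1)
    (hmax : IsMax 4 U) : vol U ^ 2 ≤ BB 4 n k := by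
  have hm1 : 1 ≤ 4 := by norm_num
  have hlo : ∀ i, 1 / 5 ≤ rowSq U i := fun i => by
    have := crit_lower hm1 U hU hmax i
    norm_num at this ⊢
    linarith
  have hup : ∀ i, rowSq U i ≤ 1 / 4 := fun i => by
    have := crit_upper hm1 U hU hmax i
    norm_num at this ⊢
    linarith
  have hc : ∀ i, 0 < rowSq U i := fun i => lt_of_lt_of_le (by norm_num) (hlo i)
  have hB := fun i j => crit_B hm1 U hU hmax (i := i) (j := j)
  have hx1 : ∀ i j, xx U i j ≤ 1 := fun i j => by
    have := (abs_nonneg _).trans (hB i j)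
    unfold xx; linarith
  refine vol_sq_le_BB hm1 U hU hc (adm_unifC U hU hc (4 / 5) (by norm_num) (by norm_num)
    (fun i => by linarith [hlo i])) ?_
  have hR : (0.0598 : ℝ) ≤ RC (4 / 5) / 2 := by
    unfold RC
    norm_num
  -- the star inequality for every row
  have hrow : ∀ i, ∑ j, kk U i j * Large.gam 4 (1 / rowSq U j) ≤
      RC (4 / 5) / 2 * ∑ j ∈ univ.erase i, kk U i j * (1 - xx U i j) := by
    intro i
    have hci := hc i
    have h := Star4.star_four Finset.univ (fun j => kk U i j / rowSq U i)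
      (fun j => 1 / rowSq U j)
      (fun j _ => div_nonneg (kk_nonneg U i j) hci.le)
      (fun j _ => by
        rw [le_div_iff₀ (hc j)]; linarith [hup j])
      (fun j _ => by
        rw [div_le_iff₀ (hc j)]; linarith [hlo j])
      (fun j _ => by
        have := hx1 i j
        unfold xx at this
        have e : kk U i j / rowSq U i * (1 / rowSq U j) = kk U i j / (rowSq U i * rowSq U j) := by
          have := (hc i).ne'
          have := (hc j).ne'
          field_simp
        rw [e]; exact this)
      (by rw [← Finset.sum_div, sum_kk U hU i]; exact div_self hci.ne')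
      (RC (4 / 5) / 2) hR
    have h2 := mul_le_mul_of_nonneg_left h hci.le
    have e1 : rowSq U i * ∑ j, kk U i j / rowSq U i * Large.gam 4 (1 / rowSq U j) =
        ∑ j, kk U i j * Large.gam 4 (1 / rowSq U j) := by
      rw [Finset.mul_sum]
      refine Finset.sum_congr rfl fun j _ => ?_
      have := hci.ne'
      field_simp
    have e2 : rowSq U i * (RC (4 / 5) / 2 * ∑ j, kk U i j / rowSq U i *
        (1 - kk U i j / rowSq U i * (1 / rowSq U j))) =
        RC (4 / 5) / 2 * ∑ j ∈ univ.erase i, kk U i j * (1 - xx U i j) := by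
      rw [← Finset.add_sum_erase _ _ (Finset.mem_univ i)]
      have e3 : kk U i i / rowSq U i * (1 - kk U i i / rowSq U i * (1 / rowSq U i)) = 0 := by
        rw [kk_self]
        have := hci.ne'
        field_simp
        ring
      rw [e3, zero_add, mul_left_comm, Finset.mul_sum]
      congr 1
      refine Finset.sum_congr rfl fun j _ => ?_
      unfold xx
      have := hci.ne'
      have := (hc j).ne'
      field_simp
    rw [e1, e2] at h2
    exact h2
  -- the total gap
  have htot : ∑ i, Large.gap 4 (rowSq U i) = ∑ i, ∑ j, kk U i j * Large.gam 4 (1 / rowSq U j) := by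
    rw [Finset.sum_comm]
    refine Finset.sum_congr rfl fun j _ => ?_
    rw [← Finset.sum_mul, Large.gap_eq 4 _ (hc j)]
    congr 1
    rw [← sum_kk U hU j]
    exact Finset.sum_congr rfl fun i _ => kk_symm U j i
  rw [htot]
  unfold supply
  rw [Finset.mul_sum]
  refine Finset.sum_le_sum fun i _ => (hrow i).trans (le_of_eq ?_)
  rw [Finset.mul_sum, Finset.mul_sum]
  exact Finset.sum_congr rfl fun j _ => by ring

end Pool.Agent.Lib.MP_589a62_gt.Full
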