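import Pool.Agent.Lib.MP_589a62_gt.Full.CompG

/-!
# Light, heavy and pair components
-/

set_option autoImplicit false
set_option linter.unusedVariables false
set_option linter.unusedSectionVars false

open Matrix Finset MeasureTheory Set Real
open scoped ENNReal Classical

namespace Pool.Agent.Lib.MP_589a62_gt.Full

variable {n k : ℕ}

/-- The sum over the edges inside `C`. -/
noncomputable def inC (U : Matrix (Fin n) (Fin k) ℝ) (C : Finset (Fin n)) (i : Fin n) : ℝ :=
  ∑ j ∈ C.erase i, kk U i j * (1 - xx U i j)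

/-- The sum over the edges leaving `C`. -/
noncomputable def outC (U : Matrix (Fin n) (Fin k) ℝ) (C : Finset (Fin n)) (i : Fin n) : ℝ :=
  ∑ j ∈ Cᶜ, kk U i j * (1 - xx U i j)

/-- **Light / heavy reduction** (used for `m = 3`). -/
theorem FI_light_heavy {m : ℕ} (U : Matrix (Fin n) (Fin k) ℝ) (hU : Uᵀ * U = 1)
    (hc : ∀ i, 0 < rowSq U i) (G : SimpleGraph (Fin n)) (N : ℕ) (s : ℝ) (hs0 : 1 / 5 ≤ s)
    (hs1 : s ≤ 1) (hs : ∀ i, 1 - rowSq U i ≤ s)
    (HL : ∀ C : Finset (Fin n), C.Nonempty → C.card ≤ N → (∀ i ∈ C, ∀ l, G.Adj i l → l ∈ C) →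
      (∀ i ∈ C, ∀ j ∈ C, G.Reachable i j) → ∀ i ∈ C,
      Large.gap m (rowSq U i) ≤ 1 / 2 * RA (far U G i) * farS U G i)
    (HH : ∀ C : Finset (Fin n), N < C.card → (∀ i ∈ C, ∀ l, G.Adj i l → l ∈ C) →
      (∀ i ∈ C, ∀ j ∈ C, G.Reachable i j) → ∑ i ∈ C, Large.gap m (rowSq U i) ≤
      ∑ i ∈ C, (1 / 2 * RC s * inC U C i + 1 / 2 * RD s * outC U C i)) :
    ∃ t T σ r : Fin n → Fin n → ℝ, Adm U t T σ r ∧
      ∑ i, Large.gap m (rowSq U i) ≤ supply U t r := by
  refine FI_of_local U G fun C hne hcl hre => ?_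
  by_cases hcard : C.card ≤ N
  · exact local_light U hU hc G RA (fun z h0 h1 => good_A z h0.le h1) C hcl
      (HL C hne hcard hcl hre)
  · push Not at hcard
    exact local_heavy U hU hc C (fun _ => s) (fun _ _ => hs0) (fun _ _ => hs1) (fun i _ => hs i)
      (HH C hcard hcl hre)

lemma leak_sum {U : Matrix (Fin n) (Fin k) ℝ} (hU : Uᵀ * U = 1) {i j : Fin n}
    (hc : 0 < rowSq U i) (hij : i ≠ j) :
    ∑ l ∈ (univ.erase i).erase j, kk U i l / rowSq U i = leak U i j := by
  have hji : j ∈ univ.erase i := by simp [hij.symm]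
  have h1 := row_sum_erase U hU hc
  rw [← Finset.add_sum_erase _ _ hji] at h1
  unfold leak; linarith

lemma outS_eq_zero {U : Matrix (Fin n) (Fin k) ℝ} (hU : Uᵀ * U = 1) {i j : Fin n}
    (hc : 0 < rowSq U i) (hij : i ≠ j) (h0 : leak U i j ≤ 0) : outS U i j = 0 := by
  have h2 := leak_sum hU hc hij
  have h3 : ∑ l ∈ (univ.erase i).erase j, kk U i l / rowSq U i = 0 :=
    le_antisymm (h2.le.trans h0)
      (Finset.sum_nonneg fun l _ => div_nonneg (kk_nonneg U i l) hc.le)
  unfold outS
  refine Finset.sum_eq_zero fun l hl => ?_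
  have h4 := (Finset.sum_eq_zero_iff_of_nonneg
    (fun l _ => div_nonneg (kk_nonneg U i l) hc.le)).1 h3 l hl
  have h5 : kk U i l = 0 := by
    rcases div_eq_zero_iff.1 h4 with h | h
    · exact h
    · exact absurd h hc.ne'
  rw [h5, zero_mul]

lemma pair_row_sum {U : Matrix (Fin n) (Fin k) ℝ} (hU : Uᵀ * U = 1) {a b : Fin n}
    (hc : 0 < rowSq U a) (hab : a ≠ b) (C : Finset (Fin n)) (hC : ∀ l, l ∈ C ↔ l = a ∨ l = b)
    (τ z e : ℝ) :
    ∑ l ∈ univ.erase a, kk U a l / rowSq U a * (if l ∈ C then τ else 1) /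
      (if l ∈ C then z else e) = τ * (kk U a b / rowSq U a) / z + leak U a b / e := by
  have hba : b ∈ univ.erase a := by simp [hab.symm]
  rw [← Finset.add_sum_erase _ _ hba, if_pos ((hC b).2 (Or.inr rfl)),
    if_pos ((hC b).2 (Or.inr rfl)), ← leak_sum hU hc hab, Finset.sum_div]
  congr 1
  · ring
  · refine Finset.sum_congr rfl fun l hl => ?_
    have h1 : l ∉ C := by
      rw [hC]
      rintro (h | h)
      · exact (Finset.ne_of_mem_erase (Finset.mem_of_mem_erase hl)) h
      · exact (Finset.ne_of_mem_erase hl) h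
    rw [if_neg h1, if_neg h1, mul_one]

lemma pair_row_ineq {U : Matrix (Fin n) (Fin k) ℝ} {a b : Fin n} (hab : a ≠ b)
    (C : Finset (Fin n)) (hC : ∀ l, l ∈ C ↔ l = a ∨ l = b) (τ x y : ℝ) :
    ∑ l ∈ univ.erase a, kk U a l * (if l ∈ C then τ else 1) *
      ((1 - xx U a l) * (if l ∈ C then x else y)) =
      τ * kk U a b * (1 - xx U a b) * x + y * outS U a b := by
  have hba : b ∈ univ.erase a := by simp [hab.symm]
  rw [← Finset.add_sum_erase _ _ hba, if_pos ((hC b).2 (Or.inr rfl)),
    if_pos ((hC b).2 (Or.inr rfl)), outS, Finset.mul_sum]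
  congr 1
  · ring
  · refine Finset.sum_congr rfl fun l hl => ?_
    have h1 : l ∉ C := by
      rw [hC]
      rintro (h | h)
      · exact (Finset.ne_of_mem_erase (Finset.mem_of_mem_erase hl)) h
      · exact (Finset.ne_of_mem_erase hl) h
    rw [if_neg h1, if_neg h1, mul_one]
    ring

/-- **Pair components**: the inner edge has weight `τ`, temperature `3/4` and `σ = z`, the outer
edges have temperature `1` and `σ = E` (at `i`), `E'` (at `j`). -/
theorem local_pair {m : ℕ} (U : Matrix (Fin n) (Fin k) ℝ) (hU : Uᵀ * U = 1)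
    (hc : ∀ i, 0 < rowSq U i) {i j : Fin n} (hij : i ≠ j) (τ z E E' : ℝ) (hτ0 : 0 ≤ τ)
    (hτ1 : τ ≤ 1) (hz0 : 1 / 5 ≤ z) (hz1 : z ≤ 1) (hE0 : 0 ≤ E) (hE1 : E ≤ 1) (hE0' : 0 ≤ E')
    (hE1' : E' ≤ 1) (hw : τ * (kk U i j / rowSq U i) ≤ z) (hw' : τ * (kk U j i / rowSq U j) ≤ z)
    (hE : leak U i j ≤ E * (1 - τ * (kk U i j / rowSq U i) / z))
    (hE' : leak U j i ≤ E' * (1 - τ * (kk U j i / rowSq U j) / z))
    (hineq : Large.gap m (rowSq U i) + Large.gap m (rowSq U j) ≤
      τ * kk U i j * (1 - xx U i j) * RC z + 1 / 2 * RD E * outS U i j +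
        1 / 2 * RD E' * outS U j i) :
    ∃ τ T σ r, LocalData U m {i, j} τ T σ r := by
  have hji : j ≠ i := hij.symm
  have hzp : 0 < z := by linarith
  -- the weights on the outer edges
  set e : Fin n → ℝ := fun a => if a = i then (if E = 0 then 1 else E)
    else (if E' = 0 then 1 else E') with he
  have hei : e i = if E = 0 then 1 else E := by simp only [he, if_pos rfl]
  have hej : e j = if E' = 0 then 1 else E' := by simp only [he, if_neg hji]
  have he0 : ∀ a, 0 < e a := by
    intro a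
    simp only [he]
    split_ifs with h1 h2 h3
    · exact one_pos
    · exact lt_of_le_of_ne hE0 (Ne.symm h2)
    · exact one_pos
    · exact lt_of_le_of_ne hE0' (Ne.symm h3)
  have he1 : ∀ a, e a ≤ 1 := by
    intro a
    simp only [he]
    split_ifs with h1 h2 h3
    · exact le_rfl
    · exact hE1
    · exact le_rfl
    · exact hE1'
  -- a general row computation
  have hrow : ∀ a b : Fin n, a ≠ b → ∀ F : ℝ, 0 ≤ F → τ * (kk U a b / rowSq U a) ≤ z →
      leak U a b ≤ F * (1 - τ * (kk U a b / rowSq U a) / z) →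
      τ * (kk U a b / rowSq U a) / z + leak U a b / (if F = 0 then 1 else F) ≤ 1 := by
    intro a b hab F hF0 hwz hF
    have h0 : τ * (kk U a b / rowSq U a) / z ≤ 1 := by rw [div_le_one hzp]; exact hwz
    split_ifs with h
    · rw [h] at hF
      have h1 := leak_nonneg U hU hc hab
      have h2 : leak U a b = 0 := le_antisymm (by linarith) h1
      rw [h2]
      simpa using h0
    · have hFp : 0 < F := lt_of_le_of_ne hF0 (Ne.symm h)
      have h1 : leak U a b / F ≤ 1 - τ * (kk U a b / rowSq U a) / z := by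
        rw [div_le_iff₀ hFp]; linarith
      linarith
  have hrd : ∀ a b : Fin n, a ≠ b → ∀ F : ℝ,
      leak U a b ≤ F * (1 - τ * (kk U a b / rowSq U a) / z) →
      RD F * outS U a b = RD (if F = 0 then 1 else F) * outS U a b := by
    intro a b hab F hF
    split_ifs with h
    · rw [h, zero_mul] at hF
      rw [outS_eq_zero hU (hc a) hab hF]; ring
    · rfl
  have hC1 : ∀ l, l ∈ ({i, j} : Finset (Fin n)) ↔ l = i ∨ l = j := by intro l; simp
  have hC2 : ∀ l, l ∈ ({i, j} : Finset (Fin n)) ↔ l = j ∨ l = i := by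
    intro l; rw [hC1, or_comm]
  refine ⟨fun _ _ => τ, fun _ _ => 3 / 4,
    fun a b => if b ∈ ({i, j} : Finset (Fin n)) then z else e a,
    fun a b => if b ∈ ({i, j} : Finset (Fin n)) then RC z else RD (e a),
    ⟨fun _ _ _ _ => rfl, fun _ _ _ _ => hτ0, fun _ _ _ _ => hτ1, fun _ _ _ _ => rfl,
      fun _ _ _ _ => by norm_num, fun _ _ _ _ => by norm_num, fun a _ b => ?_, fun a _ b => ?_,
      fun a ha => ?_, fun a ha b hb hab => ?_, fun a ha b hb => ?_, ?_⟩⟩
  · split_ifs
    · exact hzp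
    · exact he0 a
  · split_ifs
    · exact hz1
    · exact he1 a
  · rcases (hC1 a).1 ha with rfl | rfl
    · rw [pair_row_sum hU (hc a) hij _ hC1, hei]
      exact hrow a j hij E hE0 hw hE
    · rw [pair_row_sum hU (hc a) hji _ hC2, hej]
      exact hrow a i hji E' hE0' hw' hE'
  · rw [if_pos hb, if_pos hb]
    exact good_C z hz0 hz1
  · rw [if_neg hb, if_neg hb]
    exact good_D (e a) (he0 a).le (he1 a)
  · rw [Finset.sum_pair hij, Finset.sum_pair hij, pair_row_ineq hij _ hC1,
      pair_row_ineq hji _ hC2, hei, hej, ← hrd i j hij E hE, ← hrd j i hji E' hE']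
    refine hineq.trans (le_of_eq ?_)
    rw [xx_symm U j i, kk_symm U j i]
    ring

/-- **The reduction for `m = 2`**: isolated rows, isolated pairs, the other components. -/
theorem FI_two {m : ℕ} (U : Matrix (Fin n) (Fin k) ℝ) (hU : Uᵀ * U = 1)
    (hc : ∀ i, 0 < rowSq U i) (hc2 : ∀ i, rowSq U i ≤ 1 / 2) (G : SimpleGraph (Fin n))
    (H1 : ∀ i, (∀ j, ¬ G.Adj i j) →
      Large.gap m (rowSq U i) ≤ 1 / 2 * RD (1 - rowSq U i) * allS U i)
    (H2 : ∀ i j, prr G i j → ∃ τ z E E' : ℝ, 0 ≤ τ ∧ τ ≤ 1 ∧ 1 / 5 ≤ z ∧ z ≤ 1 ∧ 0 ≤ E ∧ E ≤ 1 ∧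
      0 ≤ E' ∧ E' ≤ 1 ∧ τ * (kk U i j / rowSq U i) ≤ z ∧ τ * (kk U j i / rowSq U j) ≤ z ∧
      leak U i j ≤ E * (1 - τ * (kk U i j / rowSq U i) / z) ∧
      leak U j i ≤ E' * (1 - τ * (kk U j i / rowSq U j) / z) ∧
      Large.gap m (rowSq U i) + Large.gap m (rowSq U j) ≤
        τ * kk U i j * (1 - xx U i j) * RC z + 1 / 2 * RD E * outS U i j +
          1 / 2 * RD E' * outS U j i)
    (H3 : ∀ C : Finset (Fin n), 3 ≤ C.card → (∀ i ∈ C, ∀ l, G.Adj i l → l ∈ C) →
      (∀ i ∈ C, ∀ j ∈ C, G.Reachable i j) →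
      ∑ i ∈ C, Large.gap m (rowSq U i) ≤ ∑ i ∈ C,
        (1 / 2 * RC (1 - rowSq U i) * inC U C i + 1 / 2 * RD (1 - rowSq U i) * outC U C i)) :
    ∃ t T σ r : Fin n → Fin n → ℝ, Adm U t T σ r ∧
      ∑ i, Large.gap m (rowSq U i) ≤ supply U t r := by
  refine FI_of_local U G fun C hne hcl hre => ?_
  by_cases hcard3 : 3 ≤ C.card
  · exact local_heavy U hU hc C (fun i => 1 - rowSq U i) (fun i _ => by linarith [hc2 i])
      (fun i _ => by linarith [hc i]) (fun i _ => le_rfl) (H3 C hcard3 hcl hre)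
  · obtain ⟨i, hi⟩ := hne
    by_cases hnb : ∃ j, G.Adj i j
    · obtain ⟨j, hj⟩ := hnb
      have hjC := hcl i hi j hj
      have hij : i ≠ j := hj.ne
      have hCeq : C = {i, j} := by
        refine (Finset.eq_of_subset_of_card_le ?_ ?_).symm
        · intro l hl
          simp only [Finset.mem_insert, Finset.mem_singleton] at hl
          rcases hl with rfl | rfl
          · exact hi
          · exact hjC
        · rw [Finset.card_pair hij]; omega
      have hpr : prr G i j := by
        refine ⟨hj, fun l hl => ?_, fun l hl => ?_⟩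
        · have h1 := hcl i hi l hl
          rw [hCeq] at h1
          simp only [Finset.mem_insert, Finset.mem_singleton] at h1
          rcases h1 with h1 | h1
          · exact absurd h1 hl.ne'
          · exact h1
        · have h1 := hcl j hjC l hl
          rw [hCeq] at h1
          simp only [Finset.mem_insert, Finset.mem_singleton] at h1
          rcases h1 with h1 | h1
          · exact h1
          · exact absurd h1 hl.ne'
      obtain ⟨τ, z, E, E', h1, h2, h3, h4, h5, h6, h7, h8, h9, h10, h11, h12, h13⟩ := H2 i j hpr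
      rw [hCeq]
      exact local_pair U hU hc hij τ z E E' h1 h2 h3 h4 h5 h6 h7 h8 h9 h10 h11 h12 h13
    · push Not at hnb
      have hCeq : C = {i} := by
        ext l
        simp only [Finset.mem_singleton]
        constructor
        · intro hl
          obtain ⟨w⟩ := hre i hi l hl
          cases w with
          | nil => rfl
          | cons h p => exact absurd h (hnb _)
        · rintro rfl; exact hi
      refine local_light U hU hc G RD (fun z h0 h1 => good_D z h0.le h1) C hcl fun a ha => ?_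
      rw [hCeq, Finset.mem_singleton] at ha
      subst ha
      have hfil : (univ.erase a).filter (fun j => ¬ G.Adj a j) = univ.erase a :=
        Finset.filter_true_of_mem fun j _ => hnb j
      have h1 : far U G a = 1 - rowSq U a := by
        unfold far
        rw [hfil, row_sum_erase U hU (hc a)]
      have h2 : farS U G a = allS U a := by
        unfold farS allS
        rw [hfil]
      rw [h1, h2]
      exact H1 a hnb

end Pool.Agent.Lib.MP_589a62_gt.Full
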