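import Pool.Agent.Lib.MP_589a62_gt.Full.Crit

/-!
# Two close directions: lower bounds for the outer edges

`two_dirs`: for unit vectors `u₁, u₂, v` with cosines `a = <u₁,u₂>`, `b = <u₁,v>`, `c = <u₂,v>` and
weights `p + q = 1` the variance of the squared cosines is at most `(1 - a²) X (1 - X)`, `X` their mean.

`outer_edges_lower`: for two rows `i ≠ j` the outer edges satisfy
`Σ_l [k_il² (1 - x_il) + k_jl² (1 - x_jl)] ≥ x_ij (X - (1/T) Σ_l A_l² / c_l)`.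
-/

set_option autoImplicit false

open Matrix Finset Real

namespace Pool.Agent.Lib.MP_589a62_gt.Full

/-- **Two close directions.** -/
theorem two_dirs {a b c p q : ℝ} (hp : 0 ≤ p) (hq : 0 ≤ q) (hpq : p + q = 1)
    (hb : b ^ 2 ≤ 1) (hc : c ^ 2 ≤ 1)
    (hdet : 0 ≤ 1 + 2 * a * b * c - a ^ 2 - b ^ 2 - c ^ 2) :
    p * q * (b ^ 2 - c ^ 2) ^ 2 ≤
      (1 - a ^ 2) * ((p * b ^ 2 + q * c ^ 2) * (1 - (p * b ^ 2 + q * c ^ 2))) := by
  set s := √(1 - b ^ 2) with hs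
  set t := √(1 - c ^ 2) with ht
  have hs2 : s ^ 2 = 1 - b ^ 2 := Real.sq_sqrt (by linarith)
  have ht2 : t ^ 2 = 1 - c ^ 2 := Real.sq_sqrt (by linarith)
  have hs0 : 0 ≤ s := Real.sqrt_nonneg _
  have ht0 : 0 ≤ t := Real.sqrt_nonneg _
  set B := |b| with hB
  set C := |c| with hC
  have hB0 : 0 ≤ B := abs_nonneg _
  have hC0 : 0 ≤ C := abs_nonneg _
  have hB2 : B ^ 2 = b ^ 2 := sq_abs _
  have hC2 : C ^ 2 = c ^ 2 := sq_abs _
  have h1 : (a - b * c) ^ 2 ≤ (s * t) ^ 2 := by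
    rw [mul_pow, hs2, ht2]; nlinarith [hdet]
  have h2 : |a - b * c| ≤ s * t := by
    rw [← abs_of_nonneg (mul_nonneg hs0 ht0)]
    exact sq_le_sq.1 h1
  have h3 : |a| ≤ B * C + s * t := by
    have h4 : |a| ≤ |a - b * c| + |b * c| := by
      have := abs_add_le (a - b * c) (b * c)
      simpa using this
    rw [abs_mul] at h4
    linarith
  have h4 : a ^ 2 ≤ (B * C + s * t) ^ 2 := by
    rw [← sq_abs a]
    exact pow_le_pow_left₀ (abs_nonneg _) h3 2
  have h5 : (B * t - C * s) ^ 2 = 1 - (B * C + s * t) ^ 2 := by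
    have e1 : (B * C + s * t) ^ 2 + (B * t - C * s) ^ 2 = (B ^ 2 + s ^ 2) * (C ^ 2 + t ^ 2) := by
      ring
    have e2 : B ^ 2 + s ^ 2 = 1 := by rw [hB2, hs2]; ring
    have e3 : C ^ 2 + t ^ 2 = 1 := by rw [hC2, ht2]; ring
    rw [e2, e3] at e1
    linarith
  have h6 : (B * t - C * s) ^ 2 ≤ 1 - a ^ 2 := by rw [h5]; linarith
  have h7 : p * q * (B * t + C * s) ^ 2 ≤
      (p * b ^ 2 + q * c ^ 2) * (1 - (p * b ^ 2 + q * c ^ 2)) := by
    have e1 : 1 - (p * b ^ 2 + q * c ^ 2) = p * s ^ 2 + q * t ^ 2 := by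
      rw [hs2, ht2]; linarith
    rw [e1, ← hB2, ← hC2]
    nlinarith [sq_nonneg (p * B * s - q * C * t)]
  have h8 : p * q * (b ^ 2 - c ^ 2) ^ 2 =
      (B * t - C * s) ^ 2 * (p * q * (B * t + C * s) ^ 2) := by
    have e : (B * t - C * s) * (B * t + C * s) = b ^ 2 - c ^ 2 := by
      have : (B * t - C * s) * (B * t + C * s) = B ^ 2 * t ^ 2 - C ^ 2 * s ^ 2 := by ring
      rw [this, hB2, hC2, hs2, ht2]; ring
    rw [← e]; ring
  rw [h8]
  exact mul_le_mul h6 h7 (by positivity) (le_trans (sq_nonneg _) h6)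

variable {n k : ℕ}

/-- The algebraic identity behind the outer edge bound. -/
lemma outer_alg {ci cj cl A B C : ℝ} (hi : 0 < ci) (hj : 0 < cj) (hl : 0 < cl)
    (key : ci / (ci + cj) * (cj / (ci + cj)) * (B - C) ^ 2 ≤
      (1 - A) * ((ci / (ci + cj) * B + cj / (ci + cj) * C) *
        (1 - (ci / (ci + cj) * B + cj / (ci + cj) * C)))) :
    A * ((ci * cl * B + cj * cl * C) -
          (ci * cl * B + cj * cl * C) ^ 2 / ((ci + cj) * cl)) ≤
      ci * cl * B * (1 - B) + cj * cl * C * (1 - C) := by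
  have hT : 0 < ci + cj := add_pos hi hj
  have hTl : 0 < (ci + cj) * cl := mul_pos hT hl
  have h1 := mul_le_mul_of_nonneg_left key hTl.le
  have e1 : (ci + cj) * cl * (ci / (ci + cj) * (cj / (ci + cj)) * (B - C) ^ 2) =
      (ci * cj * cl) / (ci + cj) * (B - C) ^ 2 := by
    field_simp
  have e2 : (ci + cj) * cl * ((1 - A) * ((ci / (ci + cj) * B + cj / (ci + cj) * C) *
        (1 - (ci / (ci + cj) * B + cj / (ci + cj) * C)))) =
      (1 - A) * ((ci * cl * B + cj * cl * C) -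
          (ci * cl * B + cj * cl * C) ^ 2 / ((ci + cj) * cl)) := by
    field_simp
  have e3 : ci * cl * B * (1 - B) + cj * cl * C * (1 - C) =
      ((ci * cl * B + cj * cl * C) -
          (ci * cl * B + cj * cl * C) ^ 2 / ((ci + cj) * cl)) -
        (ci * cj * cl) / (ci + cj) * (B - C) ^ 2 := by
    field_simp
    ring
  rw [e1, e2] at h1
  rw [e3]
  linarith

/-- Number version of the outer edge bound. -/
lemma outer_num {ci cj cl x y z : ℝ} (hi : 0 < ci) (hj : 0 < cj) (hl : 0 < cl)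
    (hy : y ^ 2 ≤ ci * cl) (hz : z ^ 2 ≤ cj * cl)
    (hdet0 : 0 ≤ ci * cj * cl + 2 * x * y * z - ci * z ^ 2 - cj * y ^ 2 - cl * x ^ 2) :
    x ^ 2 / (ci * cj) * ((y ^ 2 + z ^ 2) - (y ^ 2 + z ^ 2) ^ 2 / ((ci + cj) * cl)) ≤
      y ^ 2 * (1 - y ^ 2 / (ci * cl)) + z ^ 2 * (1 - z ^ 2 / (cj * cl)) := by
  obtain ⟨si, hsi, rfl⟩ : ∃ s : ℝ, 0 < s ∧ ci = s ^ 2 :=
    ⟨√ci, Real.sqrt_pos.2 hi, (Real.sq_sqrt hi.le).symm⟩
  obtain ⟨sj, hsj, rfl⟩ : ∃ s : ℝ, 0 < s ∧ cj = s ^ 2 :=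
    ⟨√cj, Real.sqrt_pos.2 hj, (Real.sq_sqrt hj.le).symm⟩
  obtain ⟨sl, hsl, rfl⟩ : ∃ s : ℝ, 0 < s ∧ cl = s ^ 2 :=
    ⟨√cl, Real.sqrt_pos.2 hl, (Real.sq_sqrt hl.le).symm⟩
  obtain ⟨a, rfl⟩ : ∃ a : ℝ, x = a * (si * sj) := ⟨x / (si * sj), by field_simp⟩
  obtain ⟨b, rfl⟩ : ∃ b : ℝ, y = b * (si * sl) := ⟨y / (si * sl), by field_simp⟩
  obtain ⟨c, rfl⟩ : ∃ c : ℝ, z = c * (sj * sl) := ⟨z / (sj * sl), by field_simp⟩
  have hb1 : b ^ 2 ≤ 1 := by
    have h : b ^ 2 * (si ^ 2 * sl ^ 2) ≤ 1 * (si ^ 2 * sl ^ 2) := by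
      calc b ^ 2 * (si ^ 2 * sl ^ 2) = (b * (si * sl)) ^ 2 := by ring
        _ ≤ _ := by rw [one_mul]; exact hy
    exact le_of_mul_le_mul_right h (by positivity)
  have hc1 : c ^ 2 ≤ 1 := by
    have h : c ^ 2 * (sj ^ 2 * sl ^ 2) ≤ 1 * (sj ^ 2 * sl ^ 2) := by
      calc c ^ 2 * (sj ^ 2 * sl ^ 2) = (c * (sj * sl)) ^ 2 := by ring
        _ ≤ _ := by rw [one_mul]; exact hz
    exact le_of_mul_le_mul_right h (by positivity)
  have hdet : 0 ≤ 1 + 2 * a * b * c - a ^ 2 - b ^ 2 - c ^ 2 := by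
    have h : 0 ≤ (1 + 2 * a * b * c - a ^ 2 - b ^ 2 - c ^ 2) * (si ^ 2 * sj ^ 2 * sl ^ 2) := by
      calc (0 : ℝ) ≤ _ := hdet0
        _ = _ := by ring
    exact nonneg_of_mul_nonneg_left h (by positivity)
  have key := two_dirs (p := si ^ 2 / (si ^ 2 + sj ^ 2)) (q := sj ^ 2 / (si ^ 2 + sj ^ 2))
    (by positivity) (by positivity) (by field_simp) hb1 hc1 hdet
  have h := outer_alg hi hj hl key
  have e1 : (a * (si * sj)) ^ 2 / (si ^ 2 * sj ^ 2) = a ^ 2 := by field_simp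
  have e2 : (b * (si * sl)) ^ 2 / (si ^ 2 * sl ^ 2) = b ^ 2 := by field_simp
  have e3 : (c * (sj * sl)) ^ 2 / (sj ^ 2 * sl ^ 2) = c ^ 2 := by field_simp
  have e4 : (b * (si * sl)) ^ 2 = si ^ 2 * sl ^ 2 * b ^ 2 := by ring
  have e5 : (c * (sj * sl)) ^ 2 = sj ^ 2 * sl ^ 2 * c ^ 2 := by ring
  rw [e1, e2, e3, e4, e5]
  exact h

/-- **Outer edge bound**, one outer row `l`. -/
theorem outer_term_lower (U : Matrix (Fin n) (Fin k) ℝ) (hpos : ∀ l, 0 < rowSq U l)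
    (i j l : Fin n) :
    kk U i j / (rowSq U i * rowSq U j) *
        ((kk U i l + kk U j l) -
          (kk U i l + kk U j l) ^ 2 / ((rowSq U i + rowSq U j) * rowSq U l)) ≤
      kk U i l * (1 - kk U i l / (rowSq U i * rowSq U l)) +
        kk U j l * (1 - kk U j l / (rowSq U j * rowSq U l)) := by
  have hdet0 := det_three_nonneg (p := rowSq U i) (q := rowSq U j) (r := rowSq U l)
    (x := kd U i j) (y := kd U i l) (z := kd U j l)
    (fun a b c => three_nonneg U i j l a b c)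
  have h1 := kk_le U i l
  have h2 := kk_le U j l
  rw [kk_eq_dot] at h1 h2
  rw [kk_eq_dot U i j, kk_eq_dot U i l, kk_eq_dot U j l]
  exact outer_num (hpos i) (hpos j) (hpos l) h1 h2 hdet0

/-- The total squared correlation of the pair `i, j` with the other rows. -/
theorem outer_sum (U : Matrix (Fin n) (Fin k) ℝ) (hU : Uᵀ * U = 1) {i j : Fin n} (hij : i ≠ j) :
    ∑ l ∈ (univ.erase i).erase j, (kk U i l + kk U j l) =
      (rowSq U i + rowSq U j) * (1 - (rowSq U i + rowSq U j)) +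
        2 * (rowSq U i * rowSq U j - kk U i j) := by
  have h1 := sum_kk U hU i
  have h2 := sum_kk U hU j
  have hd : ∀ l : Fin n, kk U l l = rowSq U l ^ 2 := by
    intro l
    rw [kk_eq_dot, rowSq_eq_dot]
  have hj : j ∈ univ.erase i := mem_erase.2 ⟨hij.symm, mem_univ _⟩
  have h3 : ∑ l, (kk U i l + kk U j l) =
      (kk U i i + kk U j i) + ((kk U i j + kk U j j) +
        ∑ l ∈ (univ.erase i).erase j, (kk U i l + kk U j l)) := by
    rw [add_sum_erase _ (fun l => kk U i l + kk U j l) hj,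
      add_sum_erase _ (fun l => kk U i l + kk U j l) (mem_univ i)]
  rw [sum_add_distrib, h1, h2, hd, hd, kk_symm U j i] at h3
  linarith

/-- **Outer edges of a close pair.** -/
theorem outer_edges_lower (U : Matrix (Fin n) (Fin k) ℝ) (hU : Uᵀ * U = 1)
    (hpos : ∀ l, 0 < rowSq U l) {i j : Fin n} (hij : i ≠ j) :
    kk U i j / (rowSq U i * rowSq U j) *
        ((rowSq U i + rowSq U j) * (1 - (rowSq U i + rowSq U j)) +
          2 * (rowSq U i * rowSq U j - kk U i j) -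
          (∑ l ∈ (univ.erase i).erase j, (kk U i l + kk U j l) ^ 2 / rowSq U l) /
            (rowSq U i + rowSq U j)) ≤
      ∑ l ∈ (univ.erase i).erase j,
        (kk U i l * (1 - kk U i l / (rowSq U i * rowSq U l)) +
          kk U j l * (1 - kk U j l / (rowSq U j * rowSq U l))) := by
  have h := sum_le_sum fun l (_ : l ∈ (univ.erase i).erase j) => outer_term_lower U hpos i j l
  rw [← mul_sum, sum_sub_distrib, outer_sum U hU hij] at h
  have e : ∑ l ∈ (univ.erase i).erase j,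
      (kk U i l + kk U j l) ^ 2 / ((rowSq U i + rowSq U j) * rowSq U l) =
      (∑ l ∈ (univ.erase i).erase j, (kk U i l + kk U j l) ^ 2 / rowSq U l) /
        (rowSq U i + rowSq U j) := by
    rw [sum_div]
    refine sum_congr rfl fun l _ => ?_
    rw [div_div, mul_comm (rowSq U i + rowSq U j)]
  rwa [e] at h

/-- **Cap (C)** for a pair. -/
theorem outer_cap (U : Matrix (Fin n) (Fin k) ℝ) (hU : Uᵀ * U = 1) {i j l : Fin n}
    (hij : i ≠ j) (hil : i ≠ l) (hjl : j ≠ l) :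
    kk U i l + kk U j l ≤ (1 - rowSq U l) * (1 - (rowSq U i + rowSq U j)) +
      (rowSq U i * rowSq U j - kk U i j) := by
  have := triple U hU hij hil hjl
  nlinarith [this]

/-- Two-atom bound: numbers `0 ≤ A_l ≤ M` with sum `X ≤ 2 M` have `Σ A_l² ≤ M² + (X - M)²`. -/
theorem two_atoms {ι : Type*} (s : Finset ι) (A : ι → ℝ) (M : ℝ)
    (h0 : ∀ l ∈ s, 0 ≤ A l) (hM : ∀ l ∈ s, A l ≤ M) (hX1 : M ≤ ∑ l ∈ s, A l)
    (hX2 : ∑ l ∈ s, A l ≤ 2 * M) :
    ∑ l ∈ s, A l ^ 2 ≤ M ^ 2 + (∑ l ∈ s, A l - M) ^ 2 := by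
  classical
  set X := ∑ l ∈ s, A l with hX
  -- take a largest `A`
  rcases s.eq_empty_or_nonempty with hs | hs
  · subst hs
    simp only [sum_empty] at *
    positivity
  obtain ⟨l₀, hl₀, hmax⟩ := s.exists_max_image A hs
  have hA0 := hM l₀ hl₀
  have hrest : ∑ l ∈ s.erase l₀, A l = X - A l₀ := by
    rw [hX, ← add_sum_erase s A hl₀]; ring
  have h1 : ∑ l ∈ s.erase l₀, A l ^ 2 ≤ min (A l₀) (X - A l₀) * (X - A l₀) := by
    rw [← hrest, mul_sum]
    refine sum_le_sum fun l hl => ?_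
    rw [sq]
    refine mul_le_mul_of_nonneg_right (le_min (hmax l (mem_of_mem_erase hl)) ?_)
      (h0 l (mem_of_mem_erase hl))
    exact single_le_sum (f := A) (fun l hl => h0 l (mem_of_mem_erase hl)) hl
  rw [← add_sum_erase s (fun l => A l ^ 2) hl₀]
  have hA00 := h0 l₀ hl₀
  have hr0 : 0 ≤ X - A l₀ := by
    rw [← hrest]; exact sum_nonneg fun l hl => h0 l (mem_of_mem_erase hl)
  rcases le_total (A l₀) (X - A l₀) with hc | hc
  · rw [min_eq_left hc] at h1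
    nlinarith [sq_nonneg (X - 2 * M), mul_nonneg hA00 hr0, sq_nonneg (2 * M - X),
      mul_le_mul_of_nonneg_right hA0 (le_trans hA00 hc)]
  · rw [min_eq_right hc] at h1
    nlinarith [mul_nonneg (sub_nonneg.2 hA0) (by linarith : 0 ≤ M + A l₀ - X)]

end Pool.Agent.Lib.MP_589a62_gt.Full
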