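import Pool.Agent.Lib.MP_589a62_gt.Full.PairValB

/-!
# MP_589a62_gt: Bernstein certificates for `RD` (moved from PairTwoA)
-/

set_option autoImplicit false

open Matrix Finset MeasureTheory Set Real
open scoped ENNReal

namespace Pool.Agent.Lib.MP_589a62_gt.Full.PairTwo

lemma rd1 {s : ℝ} (h0 : 0 ≤ s) (h1 : s ≤ 27 / 125) : 0 ≤ RD s - (2395 / 10000 - 1973 / 10000 * s) := by
  obtain ⟨u, hu⟩ : ∃ u, u = s - 0 := ⟨_, rfl⟩
  obtain ⟨v, hv⟩ : ∃ v, v = 27 / 125 - s := ⟨_, rfl⟩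
  have hu0 : 0 ≤ u := by rw [hu]; linarith
  have hv0 : 0 ≤ v := by rw [hv]; linarith
  have key : RD s - (2395 / 10000 - 1973 / 10000 * s) = (244140625 / 28697814) * v ^ 5 +
      (2551953125 / 114791256) * u * v ^ 4 +
      (4203603125 / 229582512) * u ^ 2 * v ^ 3 +
      (469232725 / 114791256) * u ^ 3 * v ^ 2 +
      (31269593 / 1147912560) * u ^ 4 * v +
      (65007204989 / 143489070000) * u ^ 5 := by
    rw [hu, hv]
    unfold RD
    ring
  rw [key]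
  positivity

lemma rd2 {s : ℝ} (h0 : 27 / 125 ≤ s) (h1 : s ≤ 4 / 5) : 0 ≤ RD s - (2395 / 10000 - 1973 / 10000 * s) := by
  obtain ⟨u, hu⟩ : ∃ u, u = s - 27 / 125 := ⟨_, rfl⟩
  obtain ⟨v, hv⟩ : ∃ v, v = 4 / 5 - s := ⟨_, rfl⟩
  have hu0 : 0 ≤ u := by rw [hu]; linarith
  have hv0 : 0 ≤ v := by rw [hv]; linarith
  have key : RD s - (2395 / 10000 - 1973 / 10000 * s) = (65007204989 / 20730715930000) * v ^ 5 +
      (9546153321 / 165845727440) * u * v ^ 4 +
      (10438697365 / 16584572744) * u ^ 2 * v ^ 3 +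
      (44595577625 / 33169145488) * u ^ 3 * v ^ 2 +
      (17028640625 / 16584572744) * u ^ 4 * v +
      (383484375 / 2073071593) * u ^ 5 := by
    rw [hu, hv]
    unfold RD
    ring
  rw [key]
  positivity

lemma rd3 {s : ℝ} (h0 : 0 ≤ s) (h1 : s ≤ 81 / 200) : 0 ≤ RD s - (2317 / 10000 - 1691 / 10000 * s) := by
  obtain ⟨u, hu⟩ : ∃ u, u = s - 0 := ⟨_, rfl⟩
  obtain ⟨v, hv⟩ : ∃ v, v = 81 / 200 - s := ⟨_, rfl⟩
  have hu0 : 0 ≤ u := by rw [hu]; linarith
  have hv0 : 0 ≤ v := by rw [hv]; linarith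
  have key : RD s - (2317 / 10000 - 1691 / 10000 * s) = (3776000000 / 3486784401) * v ^ 5 +
      (9496960000 / 3486784401) * u * v ^ 4 +
      (7875341600 / 3486784401) * u ^ 2 * v ^ 3 +
      (1897989044 / 3486784401) * u ^ 3 * v ^ 2 +
      (196641904 / 87169610025) * u ^ 4 * v +
      (121637199677 / 34867844010000) * u ^ 5 := by
    rw [hu, hv]
    unfold RD
    ring
  rw [key]
  positivity

lemma rd4 {s : ℝ} (h0 : 81 / 200 ≤ s) (h1 : s ≤ 7 / 10) : 0 ≤ RD s - (2317 / 10000 - 1691 / 10000 * s) := by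
  obtain ⟨u, hu⟩ : ∃ u, u = s - 81 / 200 := ⟨_, rfl⟩
  obtain ⟨v, hv⟩ : ∃ v, v = 7 / 10 - s := ⟨_, rfl⟩
  have hu0 : 0 ≤ u := by rw [hu]; linarith
  have hv0 : 0 ≤ v := by rw [hv]; linarith
  have key : RD s - (2317 / 10000 - 1691 / 10000 * s) = (121637199677 / 7149242990000) * v ^ 5 +
      (1987784959 / 14298485980) * u * v ^ 4 +
      (6653792894 / 3574621495) * u ^ 2 * v ^ 3 +
      (2703339464 / 714924299) * u ^ 3 * v ^ 2 +
      (1601837520 / 714924299) * u ^ 4 * v +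
      (90342080 / 714924299) * u ^ 5 := by
    rw [hu, hv]
    unfold RD
    ring
  rw [key]
  positivity

end Pool.Agent.Lib.MP_589a62_gt.Full.PairTwo
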