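import Pool.Agent.Lib.MP_589a62_gt.Full.PairTwoN
import Pool.Agent.Lib.MP_589a62_gt.Full.PairS
import Pool.Agent.Lib.MP_589a62_gt.Full.CompH
import Pool.Agent.Lib.MP_589a62_gt.Full.PairTwoD

/-!
# MP_589a62_gt: isolated near-pairs (`m = 2`, threshold `7/10`)

`S2_two`: for a maximiser `U` (`IsMax 2 U`) and an isolated pair `{i, j}` of the graph
`x_{ij} ≥ 7/10` the local inequality of `FI_two` holds: the inner edge is dropped if
`1 - x_{ij} ≤ 3/40`, and kept with weight `1`, temperature `3/4`, sharing weight `1` otherwise.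
-/

set_option autoImplicit false

open Matrix Finset MeasureTheory Set Real
open scoped ENNReal

namespace Pool.Agent.Lib.MP_589a62_gt.Full.PairTwo

lemma RD_ge_drop {s : ℝ} (h0 : 0 ≤ s) (h1 : s ≤ 4 / 5) :
    2395 / 10000 - 1973 / 10000 * s ≤ RD s := by
  rcases le_total s (27 / 125) with h | h
  · linarith [rd1 h0 h]
  · linarith [rd2 h h1]

lemma RD_ge_keep {s : ℝ} (h0 : 0 ≤ s) (h1 : s ≤ 7 / 10) :
    2317 / 10000 - 1691 / 10000 * s ≤ RD s := by
  rcases le_total s (81 / 200) with h | h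
  · linarith [rd3 h0 h]
  · linarith [rd4 h h1]

lemma RC_one : RC 1 = 998 / 10000 := by
  unfold RC; norm_num

variable {n k : ℕ}

/-- The two lower bounds of the outer energy of an isolated near-pair. -/
lemma outer_bounds (U : Matrix (Fin n) (Fin k) ℝ) (hU : Uᵀ * U = 1)
    (hlo : ∀ l, 1 / 3 ≤ rowSq U l) (hhi : ∀ l, rowSq U l ≤ 1 / 2) {i j : Fin n}
    (hp : prr (nearG U (7 / 10)) i j) :
    3 / 10 * ((rowSq U i + rowSq U j) * (1 - (rowSq U i + rowSq U j)) +
        2 * (rowSq U i * rowSq U j - kk U i j)) ≤ outS U i j + outS U j i ∧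
    xx U i j * (((rowSq U i + rowSq U j) * (1 - (rowSq U i + rowSq U j)) +
        2 * (rowSq U i * rowSq U j - kk U i j))
      - 3 / (rowSq U i + rowSq U j) * ((2 / 3 * (1 - (rowSq U i + rowSq U j)) +
          (rowSq U i * rowSq U j - kk U i j)) ^ 2
        + (((rowSq U i + rowSq U j) * (1 - (rowSq U i + rowSq U j)) +
          2 * (rowSq U i * rowSq U j - kk U i j))
          - (2 / 3 * (1 - (rowSq U i + rowSq U j)) +
            (rowSq U i * rowSq U j - kk U i j))) ^ 2)) ≤ outS U i j + outS U j i := by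
  have hij : i ≠ j := hp.1.ne
  have hpos : ∀ l, 0 < rowSq U l := fun l => by linarith [hlo l]
  have hsum := outer_sum U hU hij
  have houtS : outS U i j + outS U j i = ∑ l ∈ (univ.erase i).erase j,
      (kk U i l * (1 - xx U i l) + kk U j l * (1 - xx U j l)) := by
    unfold outS
    rw [Finset.erase_right_comm (a := j) (b := i), Finset.sum_add_distrib]
  have hmem : ∀ l ∈ (univ.erase i).erase j, l ≠ i ∧ l ≠ j := by
    intro l hl
    exact ⟨Finset.ne_of_mem_erase (Finset.mem_of_mem_erase hl), Finset.ne_of_mem_erase hl⟩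
  have hfar : ∀ l ∈ (univ.erase i).erase j, xx U i l < 7 / 10 ∧ xx U j l < 7 / 10 := by
    intro l hl
    obtain ⟨hli, hlj⟩ := hmem l hl
    constructor
    · by_contra hcon
      push Not at hcon
      exact hlj (hp.2.1 l ⟨hli.symm, hcon⟩)
    · by_contra hcon
      push Not at hcon
      exact hli (hp.2.2 l ⟨hlj.symm, hcon⟩)
  obtain ⟨ci, hci⟩ : ∃ c, c = rowSq U i := ⟨_, rfl⟩
  obtain ⟨cj, hcj⟩ : ∃ c, c = rowSq U j := ⟨_, rfl⟩
  obtain ⟨q, hq⟩ : ∃ q, q = ci * cj - kk U i j := ⟨_, rfl⟩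
  have hq0 : 0 ≤ q := by rw [hq, hci, hcj]; linarith [kk_le U i j]
  have hi1 : 1 / 3 ≤ ci := by rw [hci]; exact hlo i
  have hi2 : ci ≤ 1 / 2 := by rw [hci]; exact hhi i
  have hj1 : 1 / 3 ≤ cj := by rw [hcj]; exact hlo j
  have hj2 : cj ≤ 1 / 2 := by rw [hcj]; exact hhi j
  rw [← hci, ← hcj, ← hq] at hsum ⊢
  refine ⟨?_, ?_⟩
  · rw [houtS, ← hsum, Finset.mul_sum]
    refine Finset.sum_le_sum fun l hl => ?_
    obtain ⟨f1, f2⟩ := hfar l hl
    have g1 := mul_le_mul_of_nonneg_left (show (3 / 10 : ℝ) ≤ 1 - xx U i l by linarith)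
      (kk_nonneg U i l)
    have g2 := mul_le_mul_of_nonneg_left (show (3 / 10 : ℝ) ≤ 1 - xx U j l by linarith)
      (kk_nonneg U j l)
    linarith
  · have h1 := outer_edges_lower U hU hpos hij
    rw [← hci, ← hcj, ← hq] at h1
    have e1 : kk U i j / (ci * cj) = xx U i j := by unfold xx; rw [hci, hcj]
    rw [e1] at h1
    have e2 : ∑ l ∈ (univ.erase i).erase j,
        (kk U i l * (1 - kk U i l / (ci * rowSq U l)) +
          kk U j l * (1 - kk U j l / (cj * rowSq U l))) = outS U i j + outS U j i := by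
      rw [houtS]
      refine Finset.sum_congr rfl fun l _ => ?_
      unfold xx
      rw [hci, hcj]
    rw [e2] at h1
    refine le_trans ?_ h1
    have hx0 : 0 ≤ xx U i j := by
      unfold xx
      exact div_nonneg (kk_nonneg U i j) (mul_nonneg (hpos i).le (hpos j).le)
    refine mul_le_mul_of_nonneg_left ?_ hx0
    obtain ⟨X, hX⟩ : ∃ X, X = (ci + cj) * (1 - (ci + cj)) + 2 * q := ⟨_, rfl⟩
    obtain ⟨M, hM⟩ : ∃ M, M = 2 / 3 * (1 - (ci + cj)) + q := ⟨_, rfl⟩
    rw [← hX] at hsum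
    rw [← hX, ← hM]
    have hcap : ∀ l ∈ (univ.erase i).erase j, kk U i l + kk U j l ≤ M := by
      intro l hl
      obtain ⟨hli, hlj⟩ := hmem l hl
      have h2 := outer_cap U hU hij hli.symm hlj.symm
      rw [← hci, ← hcj, ← hq] at h2
      have h3 : (1 - rowSq U l) * (1 - (ci + cj)) ≤ 2 / 3 * (1 - (ci + cj)) :=
        mul_le_mul_of_nonneg_right (by linarith [hlo l]) (by linarith)
      rw [hM]; linarith
    have h4 := two_atoms ((univ.erase i).erase j) (fun l => kk U i l + kk U j l) M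
      (fun l _ => add_nonneg (kk_nonneg U i l) (kk_nonneg U j l)) hcap
      (by rw [hsum, hX, hM]; nlinarith) (by rw [hsum, hX, hM]; nlinarith)
    rw [hsum] at h4
    have h5 : ∑ l ∈ (univ.erase i).erase j, (kk U i l + kk U j l) ^ 2 / rowSq U l ≤
        3 * ∑ l ∈ (univ.erase i).erase j, (kk U i l + kk U j l) ^ 2 := by
      rw [Finset.mul_sum]
      refine Finset.sum_le_sum fun l _ => ?_
      rw [div_le_iff₀ (hpos l)]
      nlinarith [sq_nonneg (kk U i l + kk U j l), hlo l,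
        mul_nonneg (sq_nonneg (kk U i l + kk U j l)) (show 0 ≤ rowSq U l - 1 / 3 by
          linarith [hlo l])]
    have hT : 0 < ci + cj := by linarith
    have h6 : (∑ l ∈ (univ.erase i).erase j, (kk U i l + kk U j l) ^ 2 / rowSq U l) / (ci + cj)
        ≤ 3 / (ci + cj) * (M ^ 2 + (X - M) ^ 2) := by
      rw [div_le_iff₀ hT]
      have e : 3 / (ci + cj) * (M ^ 2 + (X - M) ^ 2) * (ci + cj) =
          3 * (M ^ 2 + (X - M) ^ 2) := by field_simp
      rw [e]; linarith
    linarith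

/-- **The isolated near-pairs** (`m = 2`). -/
theorem S2_two (U : Matrix (Fin n) (Fin k) ℝ) (hU : Uᵀ * U = 1) (hmax : IsMax 2 U) :
    ∀ i j, prr (nearG U (7 / 10)) i j → ∃ τ z E E' : ℝ, 0 ≤ τ ∧ τ ≤ 1 ∧ 1 / 5 ≤ z ∧ z ≤ 1 ∧
      0 ≤ E ∧ E ≤ 1 ∧ 0 ≤ E' ∧ E' ≤ 1 ∧ τ * (kk U i j / rowSq U i) ≤ z ∧
      τ * (kk U j i / rowSq U j) ≤ z ∧
      leak U i j ≤ E * (1 - τ * (kk U i j / rowSq U i) / z) ∧
      leak U j i ≤ E' * (1 - τ * (kk U j i / rowSq U j) / z) ∧
      Large.gap 2 (rowSq U i) + Large.gap 2 (rowSq U j) ≤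
        τ * kk U i j * (1 - xx U i j) * RC z + 1 / 2 * RD E * outS U i j +
          1 / 2 * RD E' * outS U j i := by
  intro i j hp
  have hlo : ∀ l, 1 / 3 ≤ rowSq U l := by
    intro l
    have := crit_lower (m := 2) (by norm_num) U hU hmax l
    norm_num at this
    linarith
  have hhi : ∀ l, rowSq U l ≤ 1 / 2 := by
    intro l
    have := crit_upper (m := 2) (by norm_num) U hU hmax l
    norm_num at this
    linarith
  have hpos : ∀ l, 0 < rowSq U l := fun l => by linarith [hlo l]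
  have hij : i ≠ j := hp.1.ne
  have hx7 : 7 / 10 ≤ xx U i j := hp.1.2
  have hB := crit_B (m := 2) (by norm_num) U hU hmax i j
  obtain ⟨hS1, hS2⟩ := outer_bounds U hU hlo hhi hp
  have hl0 := leak_nonneg U hU hpos hij
  have hl1 := leak_nonneg U hU hpos hij.symm
  have hkk := kk_symm U j i
  have hkle := kk_le U i j
  have hout : ∀ a b : Fin n, 0 ≤ outS U a b := by
    intro a b
    unfold outS
    refine Finset.sum_nonneg fun l _ => mul_nonneg (kk_nonneg U a l) ?_
    unfold xx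
    rw [sub_nonneg, div_le_one (mul_pos (hpos a) (hpos l))]
    exact kk_le U a l
  have hE0 := hout i j
  have hE1 := hout j i
  obtain ⟨ci, hci⟩ : ∃ c, c = rowSq U i := ⟨_, rfl⟩
  obtain ⟨cj, hcj⟩ : ∃ c, c = rowSq U j := ⟨_, rfl⟩
  obtain ⟨y, hy⟩ : ∃ y, y = 1 - xx U i j := ⟨_, rfl⟩
  have hi1 : 1 / 3 ≤ ci := by rw [hci]; exact hlo i
  have hi2 : ci ≤ 1 / 2 := by rw [hci]; exact hhi i
  have hj1 : 1 / 3 ≤ cj := by rw [hcj]; exact hlo j
  have hj2 : cj ≤ 1 / 2 := by rw [hcj]; exact hhi j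
  have hcipos : 0 < ci := by linarith
  have hcjpos : 0 < cj := by linarith
  have hxk : kk U i j = ci * cj * (1 - y) := by
    rw [hy, hci, hcj]; unfold xx
    have := (hpos i).ne'
    have := (hpos j).ne'
    field_simp
    ring
  have hx1 : xx U i j ≤ 1 := by
    unfold xx
    rw [div_le_one (mul_pos (hpos i) (hpos j))]; exact hkle
  have hy0 : 0 ≤ y := by rw [hy]; linarith
  have hy3 : y ≤ 3 / 10 := by rw [hy]; linarith
  have hxy : xx U i j = 1 - y := by rw [hy]; ring
  have hB' : |1 / ci - 1 / cj| ≤ y := by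
    rw [hci, hcj, hy]; exact hB
  have hw0 : kk U i j / rowSq U i = cj * (1 - y) := by
    rw [hxk, ← hci]; field_simp
  have hw1 : kk U j i / rowSq U j = ci * (1 - y) := by
    rw [hkk, hxk, ← hcj]; field_simp
  have hleak0 : leak U i j = 1 - ci - cj * (1 - y) := by
    unfold leak; rw [hw0, ← hci]
  have hleak1 : leak U j i = 1 - cj - ci * (1 - y) := by
    unfold leak; rw [hw1, ← hcj]
  have hqq : rowSq U i * rowSq U j - kk U i j = ci * cj * y := by
    rw [hxk, ← hci, ← hcj]; ring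
  rw [hqq, ← hci, ← hcj] at hS1 hS2
  rw [hxy] at hS2
  rw [hleak0] at hl0
  rw [hleak1] at hl1
  have hcy0 : 0 ≤ cj * (1 - y) := mul_nonneg hcjpos.le (by linarith)
  have hcy1 : 0 ≤ ci * (1 - y) := mul_nonneg hcipos.le (by linarith)
  have hcy0' : cj * (1 - y) ≤ 1 / 2 := by nlinarith
  have hcy1' : ci * (1 - y) ≤ 1 / 2 := by nlinarith
  rcases le_total y (3 / 40) with h | h
  · -- dropped edge
    refine ⟨0, 1, leak U i j, leak U j i, le_rfl, zero_le_one, by norm_num, le_rfl,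
      by rw [hleak0]; exact hl0, by rw [hleak0]; linarith, by rw [hleak1]; exact hl1,
      by rw [hleak1]; linarith, by simp, by simp, by simp, by simp, ?_⟩
    have hmain := pair_drop hi1 hi2 hj1 hj2 hy0 h hB' hE0 hE1 hS1 hS2
    rw [hleak0, hleak1, ← hci, ← hcj]
    have r0 := mul_le_mul_of_nonneg_right (RD_ge_drop hl0 (by linarith)) hE0
    have r1 := mul_le_mul_of_nonneg_right (RD_ge_drop hl1 (by linarith)) hE1
    linarith
  · -- kept edge
    have d0 : 0 < 1 - cj * (1 - y) := by linarith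
    have d1 : 0 < 1 - ci * (1 - y) := by linarith
    have s0 : ci / (1 - cj * (1 - y)) ≤ 1 := by rw [div_le_one d0]; linarith
    have s1 : cj / (1 - ci * (1 - y)) ≤ 1 := by rw [div_le_one d1]; linarith
    have t0 : ci ≤ ci / (1 - cj * (1 - y)) := by
      rw [le_div_iff₀ d0]; nlinarith
    have t1 : cj ≤ cj / (1 - ci * (1 - y)) := by
      rw [le_div_iff₀ d1]; nlinarith
    refine ⟨1, 1, 1 - ci / (1 - cj * (1 - y)), 1 - cj / (1 - ci * (1 - y)), zero_le_one, le_rfl,
      by norm_num, le_rfl, by linarith, by linarith, by linarith, by linarith,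
      by rw [hw0]; linarith, by rw [hw1]; linarith, ?_, ?_, ?_⟩
    · rw [hleak0, hw0]
      have e : (1 - ci / (1 - cj * (1 - y))) * (1 - 1 * (cj * (1 - y)) / 1) =
          1 - ci - cj * (1 - y) := by
        have := d0.ne'
        field_simp
        ring
      rw [e]
    · rw [hleak1, hw1]
      have e : (1 - cj / (1 - ci * (1 - y))) * (1 - 1 * (ci * (1 - y)) / 1) =
          1 - cj - ci * (1 - y) := by
        have := d1.ne'
        field_simp
        ring
      rw [e]
    · have hmain := pair_keep hi1 hi2 hj1 hj2 h hy3 hB' hE0 hE1 hS2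
      rw [hxk, hxy, RC_one, ← hci, ← hcj]
      have r0 := mul_le_mul_of_nonneg_right (RD_ge_keep (s := 1 - ci / (1 - cj * (1 - y)))
        (by linarith) (by linarith)) hE0
      have r1 := mul_le_mul_of_nonneg_right (RD_ge_keep (s := 1 - cj / (1 - ci * (1 - y)))
        (by linarith) (by linarith)) hE1
      linarith

end Pool.Agent.Lib.MP_589a62_gt.Full.PairTwo
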