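import Pool.Agent.Lib.MP_589a62_gt.Full.Crit
import Mathlib.Combinatorics.SimpleGraph.Connectivity.Connected

/-!
# Three lemmas for the components of the near graph

* `x_cross`   : Gram determinant of three rows in the variables `2 x - 1` (`x = cos²`);
* `spectral`  : `2 (Σ_C c - 1) ≤ (Σ_C c)² - Σ_{C × C} k_ab` (the frame operator of the rows in `C` has
  eigenvalues in `[0,1]`);
* `exists_crossing` : along a path from a vertex with `P` to a vertex without `P` there is an edge which
  leaves `P`.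
-/

set_option autoImplicit false
set_option linter.unusedSectionVars false

open Matrix Finset

namespace Pool.Agent.Lib.MP_589a62_gt.Full

/-- The squared cosines of three rows: `(S - 1)² ≤ 4 x y z` if the sum `S` is at least `1`. -/
theorem x_cross {n k : ℕ} (U : Matrix (Fin n) (Fin k) ℝ) (hc : ∀ i, 0 < rowSq U i)
    (i j l : Fin n) {x y z : ℝ} (hx : x = kk U i j / (rowSq U i * rowSq U j))
    (hy : y = kk U i l / (rowSq U i * rowSq U l)) (hz : z = kk U j l / (rowSq U j * rowSq U l))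
    (h : 1 ≤ x + y + z) :
    (2 * x - 1) ^ 2 + (2 * y - 1) ^ 2 + (2 * z - 1) ^ 2 ≤
      1 + 2 * (2 * x - 1) * (2 * y - 1) * (2 * z - 1) := by
  have hi := hc i
  have hj := hc j
  have hl := hc l
  have hdet := det_three_nonneg (three_nonneg U i j l)
  set p := rowSq U i with hp
  set q := rowSq U j with hq
  set r := rowSq U l with hr
  set a := kd U i j with ha
  set b := kd U i l with hb
  set c := kd U j l with hc'
  have hx' : x = a ^ 2 / (p * q) := by rw [hx, kk_eq_dot]; rfl
  have hy' : y = b ^ 2 / (p * r) := by rw [hy, kk_eq_dot]; rfl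
  have hz' : z = c ^ 2 / (q * r) := by rw [hz, kk_eq_dot]; rfl
  have hS : x + y + z - 1 ≤ 2 * (a * b * c) / (p * q * r) := by
    rw [le_div_iff₀ (by positivity), hx', hy', hz']
    have e : (a ^ 2 / (p * q) + b ^ 2 / (p * r) + c ^ 2 / (q * r) - 1) * (p * q * r) =
        r * a ^ 2 + q * b ^ 2 + p * c ^ 2 - p * q * r := by
      field_simp
    rw [e]
    nlinarith [hdet]
  have hsq : (x + y + z - 1) ^ 2 ≤ 4 * x * y * z := by
    have h1 : (x + y + z - 1) ^ 2 ≤ (2 * (a * b * c) / (p * q * r)) ^ 2 :=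
      pow_le_pow_left₀ (by linarith) hS 2
    have e : (2 * (a * b * c) / (p * q * r)) ^ 2 = 4 * x * y * z := by
      rw [hx', hy', hz']
      field_simp
      ring
    rw [← e]; exact h1
  nlinarith [hsq]

/-- Bonferroni: for numbers in `[0,1]`, `1 - e₁ + e₂ ≥ 0`. -/
lemma bonferroni {κ : Type*} (s : Finset κ) (μ : κ → ℝ) (h0 : ∀ l ∈ s, 0 ≤ μ l)
    (h1 : ∀ l ∈ s, μ l ≤ 1) :
    2 * (∑ l ∈ s, μ l - 1) ≤ (∑ l ∈ s, μ l) ^ 2 - ∑ l ∈ s, μ l ^ 2 ∧
      0 ≤ (∑ l ∈ s, μ l) ^ 2 - ∑ l ∈ s, μ l ^ 2 ∧ 0 ≤ ∑ l ∈ s, μ l := by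
  classical
  induction s using Finset.induction_on with
  | empty => simp
  | insert a s ha ih =>
      obtain ⟨i1, i2, i3⟩ := ih (fun l hl => h0 l (Finset.mem_insert_of_mem hl))
        (fun l hl => h1 l (Finset.mem_insert_of_mem hl))
      have ha0 := h0 a (Finset.mem_insert_self a s)
      have ha1 := h1 a (Finset.mem_insert_self a s)
      rw [Finset.sum_insert ha, Finset.sum_insert ha]
      set S := ∑ l ∈ s, μ l
      set Q := ∑ l ∈ s, μ l ^ 2
      refine ⟨?_, ?_, by linarith⟩
      · rcases le_total 1 S with h | h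
        · nlinarith [mul_nonneg ha0 (sub_nonneg.2 h)]
        · nlinarith [mul_nonneg (sub_nonneg.2 h) (sub_nonneg.2 ha1)]
      · nlinarith [mul_nonneg ha0 i3]

/-- The frame operator of the rows in `C` has trace `Σ_C c` and eigenvalues in `[0,1]`. -/
theorem spectral {n k : ℕ} (U : Matrix (Fin n) (Fin k) ℝ) (hU : Uᵀ * U = 1) (C : Finset (Fin n)) :
    2 * (∑ a ∈ C, rowSq U a - 1) ≤
      (∑ a ∈ C, rowSq U a) ^ 2 - ∑ a ∈ C, ∑ b ∈ C, kk U a b := by
  classical
  set δ : Fin n → ℝ := fun i => if i ∈ C then 1 else 0 with hδ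
  obtain ⟨W, μ, h1, h2, h3, -⟩ := exists_orthogonal_diag (Uᵀ * diagonal δ * U) (by
    simp [Matrix.transpose_mul, Matrix.mul_assoc])
  set P : Matrix (Fin n) (Fin k) ℝ := U * W with hP
  have hPP : Pᵀ * P = 1 := by
    rw [hP, Matrix.transpose_mul]
    calc Wᵀ * Uᵀ * (U * W) = Wᵀ * (Uᵀ * U) * W := by simp only [Matrix.mul_assoc]
      _ = 1 := by rw [hU, Matrix.mul_one, h1]
  have hdiag : Pᵀ * diagonal δ * P = diagonal μ := by
    rw [← h3, hP, Matrix.transpose_mul]
    simp only [Matrix.mul_assoc]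
  have hμ : ∀ l, μ l = ∑ i, δ i * P i l ^ 2 := by
    intro l
    have e : (Pᵀ * diagonal δ * P) l l = μ l := by rw [hdiag, diagonal_apply_eq]
    rw [← e, Matrix.mul_apply]
    refine Finset.sum_congr rfl fun i _ => ?_
    rw [Matrix.mul_diagonal, Matrix.transpose_apply]
    ring
  have hcol : ∀ l, ∑ i, P i l ^ 2 = 1 := by
    intro l
    have e : (Pᵀ * P) l l = 1 := by rw [hPP, Matrix.one_apply_eq]
    rw [← e, Matrix.mul_apply]
    refine Finset.sum_congr rfl fun i _ => ?_
    rw [Matrix.transpose_apply]; ring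
  have hμ0 : ∀ l ∈ (univ : Finset (Fin k)), 0 ≤ μ l := by
    intro l _
    rw [hμ]
    refine Finset.sum_nonneg fun i _ => mul_nonneg ?_ (sq_nonneg _)
    simp only [hδ]; split_ifs <;> norm_num
  have hμ1 : ∀ l ∈ (univ : Finset (Fin k)), μ l ≤ 1 := by
    intro l _
    rw [hμ, ← hcol l]
    refine Finset.sum_le_sum fun i _ => ?_
    have : δ i ≤ 1 := by simp only [hδ]; split_ifs <;> norm_num
    nlinarith [sq_nonneg (P i l)]
  -- traces
  have htr : (∑ l, μ l) = ∑ a ∈ C, rowSq U a := by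
    have e1 : (∑ l, μ l) = (diagonal μ).trace := by
      rw [Matrix.trace]; exact Finset.sum_congr rfl fun l _ => (diagonal_apply_eq _ _).symm
    rw [e1, ← h3, Matrix.trace_mul_comm, ← Matrix.mul_assoc, h2, Matrix.one_mul, Matrix.mul_assoc,
      Matrix.trace_mul_comm, Matrix.mul_assoc, Matrix.trace]
    rw [← Finset.sum_filter_add_sum_filter_not univ (fun i => i ∈ C)]
    have e2 : ∑ x ∈ univ.filter (fun i => ¬ i ∈ C), (diagonal δ * (U * Uᵀ)).diag x = 0 := by
      refine Finset.sum_eq_zero fun i hi => ?_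
      rw [Matrix.diag_apply, Matrix.diagonal_mul]
      simp only [Finset.mem_filter, Finset.mem_univ, true_and] at hi
      simp [hδ, hi]
    rw [e2, add_zero, Finset.filter_mem_eq_inter, Finset.univ_inter]
    refine Finset.sum_congr rfl fun i hi => ?_
    rw [Matrix.diag_apply, Matrix.diagonal_mul, Matrix.mul_apply]
    simp only [hδ, hi, if_true, one_mul, Matrix.transpose_apply, rowSq, sq]
  have htr2 : (∑ l, μ l ^ 2) = ∑ a ∈ C, ∑ b ∈ C, kk U a b := by
    have e1 : (∑ l, μ l ^ 2) = (diagonal μ * diagonal μ).trace := by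
      rw [Matrix.diagonal_mul_diagonal, Matrix.trace]
      refine Finset.sum_congr rfl fun l _ => ?_
      rw [Matrix.diag_apply, diagonal_apply_eq, sq]
    have e2 : (diagonal μ * diagonal μ).trace =
        ((diagonal δ * (U * Uᵀ)) * (diagonal δ * (U * Uᵀ))).trace := by
      rw [← h3]
      calc (Wᵀ * (Uᵀ * diagonal δ * U) * W * (Wᵀ * (Uᵀ * diagonal δ * U) * W)).trace
          = (Wᵀ * ((Uᵀ * diagonal δ * U) * (W * Wᵀ) * (Uᵀ * diagonal δ * U) * W)).trace := by
            simp only [Matrix.mul_assoc]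
        _ = (Wᵀ * ((Uᵀ * diagonal δ * U) * (Uᵀ * diagonal δ * U) * W)).trace := by
            rw [h2, Matrix.mul_one]
        _ = ((Uᵀ * diagonal δ * U) * (Uᵀ * diagonal δ * U) * W * Wᵀ).trace := by
            rw [Matrix.trace_mul_comm]
        _ = ((Uᵀ * diagonal δ * U) * (Uᵀ * diagonal δ * U)).trace := by
            rw [Matrix.mul_assoc _ W, h2, Matrix.mul_one]
        _ = (Uᵀ * (diagonal δ * U * (Uᵀ * diagonal δ * U))).trace := by
            simp only [Matrix.mul_assoc]
        _ = (diagonal δ * U * (Uᵀ * diagonal δ * U) * Uᵀ).trace := by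
            rw [Matrix.trace_mul_comm]
        _ = _ := by simp only [Matrix.mul_assoc]
    rw [e1, e2, Matrix.trace]
    rw [← Finset.sum_filter_add_sum_filter_not univ (fun i => i ∈ C)]
    have e3 : ∑ x ∈ univ.filter (fun i => ¬ i ∈ C),
        ((diagonal δ * (U * Uᵀ)) * (diagonal δ * (U * Uᵀ))).diag x = 0 := by
      refine Finset.sum_eq_zero fun i hi => ?_
      simp only [Finset.mem_filter, Finset.mem_univ, true_and] at hi
      rw [Matrix.diag_apply, Matrix.mul_apply]
      refine Finset.sum_eq_zero fun j _ => ?_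
      rw [Matrix.diagonal_mul]
      simp [hδ, hi]
    rw [e3, add_zero, Finset.filter_mem_eq_inter, Finset.univ_inter]
    refine Finset.sum_congr rfl fun i hi => ?_
    rw [Matrix.diag_apply, Matrix.mul_apply]
    rw [← Finset.sum_filter_add_sum_filter_not univ (fun i => i ∈ C)]
    have e4 : ∑ x ∈ univ.filter (fun i => ¬ i ∈ C),
        (diagonal δ * (U * Uᵀ)) i x * (diagonal δ * (U * Uᵀ)) x i = 0 := by
      refine Finset.sum_eq_zero fun j hj => ?_
      simp only [Finset.mem_filter, Finset.mem_univ, true_and] at hj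
      rw [Matrix.diagonal_mul, Matrix.diagonal_mul]
      simp [hδ, hj]
    rw [e4, add_zero, Finset.filter_mem_eq_inter, Finset.univ_inter]
    refine Finset.sum_congr rfl fun j hj => ?_
    rw [Matrix.diagonal_mul, Matrix.diagonal_mul]
    simp only [hδ, hi, hj, if_true, one_mul]
    have hs : (U * Uᵀ) j i = (U * Uᵀ) i j := by
      simp only [Matrix.mul_apply, Matrix.transpose_apply]
      exact Finset.sum_congr rfl fun l _ => mul_comm _ _
    rw [hs, kk, sq]
  have hb := (bonferroni univ μ hμ0 hμ1).1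
  rw [htr, htr2] at hb
  exact hb

/-- A path from `P` to `¬ P` has an edge which leaves `P`. -/
theorem exists_crossing {V : Type*} (G : SimpleGraph V) (P : V → Prop) {a e : V}
    (h : G.Reachable a e) (ha : P a) (he : ¬ P e) :
    ∃ b b', G.Adj b b' ∧ G.Reachable a b ∧ P b ∧ ¬ P b' := by
  obtain ⟨w⟩ := h
  induction w with
  | nil => exact absurd ha he
  | cons hadj w ih =>
      rename_i u v z
      by_cases hv : P v
      · obtain ⟨b, b', h1, h2, h3, h4⟩ := ih hv he
        exact ⟨b, b', h1, hadj.reachable.trans h2, h3, h4⟩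
      · exact ⟨u, v, hadj, SimpleGraph.Reachable.refl u, ha, hv⟩

end Pool.Agent.Lib.MP_589a62_gt.Full
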