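import Mathlib

/-!
# `m = 3`: components with at least four rows (real-number part)

`c_i ∈ [1/4, 1/3]`, `x_ij` squared cosines, `∑_j c_j x_ij = 1`.
-/

set_option autoImplicit false
set_option linter.unusedVariables false
set_option linter.unusedSectionVars false

namespace Pool.Agent.Lib.MP_589a62_gt.Full.Heavy3

open Finset

variable {ι : Type*} [Fintype ι] [DecidableEq ι]

/-- The data of a frame. -/
structure FD (c : ι → ℝ) (x : ι → ι → ℝ) : Prop where
  c0 : ∀ i, 1 / 4 ≤ c i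
  c1 : ∀ i, c i ≤ 1 / 3
  sym : ∀ i j, x i j = x j i
  self : ∀ i, x i i = 1
  x0 : ∀ i j, 0 ≤ x i j
  x1 : ∀ i j, x i j ≤ 1
  row : ∀ i, ∑ j, c j * x i j = 1
  cross : ∀ i j l, 1 ≤ x i j + x i l + x j l →
    (2 * x i j - 1) ^ 2 + (2 * x i l - 1) ^ 2 + (2 * x j l - 1) ^ 2 ≤
      1 + 2 * (2 * x i j - 1) * (2 * x i l - 1) * (2 * x j l - 1)
  spec : ∀ C : Finset ι, 2 * (∑ a ∈ C, c a - 1) ≤
    (∑ a ∈ C, c a) ^ 2 - ∑ a ∈ C, ∑ b ∈ C, c a * c b * x a b

/-- The data of a component. -/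
structure CD (x : ι → ι → ℝ) (C : Finset ι) : Prop where
  cr : ∀ a ∈ C, ∀ e ∈ C, x a e < 1 / 2 →
    ∃ b ∈ C, ∃ b' ∈ C, 7 / 10 ≤ x b b' ∧ 1 / 2 ≤ x a b ∧ x a b' < 1 / 2
  out : ∀ a ∈ C, ∀ j, j ∉ C → x a j ≤ 7 / 10

/-- `x (1 - x)`. -/
def e (x : ι → ι → ℝ) (i j : ι) : ℝ := x i j * (1 - x i j)

/-- `F_a`. -/
noncomputable def Fa (c : ι → ℝ) (x : ι → ι → ℝ) (C : Finset ι) (a : ι) : ℝ :=
  ∑ b ∈ C, c b * e x a b

lemma scalar_cross {p q Z : ℝ} (hp : 0 ≤ p) (hpq : p ≤ q) (hZ : 2 / 5 ≤ Z)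
    (h : p ^ 2 + q ^ 2 + Z ^ 2 + 2 * p * q * Z ≤ 1) :
    p ^ 2 ≤ 3 / 10 ∧ 2 * p ^ 2 + q ^ 2 ≤ 9 / 10 := by
  have hq : 0 ≤ q := hp.trans hpq
  have h1 : p ^ 2 ≤ p * q := by nlinarith
  have h2 : p ^ 2 ≤ q ^ 2 := by nlinarith
  have hZ0 : 0 ≤ Z := by linarith
  have h3 : 2 * p ^ 2 * Z ≤ 2 * p * q * Z := by
    have := mul_le_mul_of_nonneg_right h1 hZ0
    linarith
  have h4 : 2 * p ^ 2 + Z ^ 2 + 2 * p ^ 2 * Z ≤ 1 := by linarith
  have h5 : 2 * p ^ 2 * (1 + Z) ≤ (1 - Z) * (1 + Z) := by nlinarith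
  have h6 : 2 * p ^ 2 ≤ 1 - Z := le_of_mul_le_mul_right h5 (by linarith)
  have h7 : p ^ 2 ≤ 3 / 10 := by linarith
  refine ⟨h7, ?_⟩
  have h8 : 2 * p ^ 2 + q ^ 2 ≤ 1 - Z ^ 2 + p ^ 2 * (1 - 2 * Z) := by linarith
  have hp2 : 0 ≤ p ^ 2 := sq_nonneg p
  nlinarith

variable {c : ι → ℝ} {x : ι → ι → ℝ} {C : Finset ι}

lemma e_nonneg (h : FD c x) (i j : ι) : 0 ≤ e x i j :=
  mul_nonneg (h.x0 i j) (by linarith [h.x1 i j])

lemma e_symm (h : FD c x) (i j : ι) : e x i j = e x j i := by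
  unfold e; rw [h.sym i j]

/-- The crossing triple. -/
lemma crossing (h : FD c x) (hC : CD x C) {a f : ι} (ha : a ∈ C) (hf : f ∈ C)
    (haf : x a f < 1 / 2) :
    ∃ v ∈ C, ∃ w ∈ C, v ≠ a ∧ w ≠ a ∧ v ≠ w ∧ 7 / 40 ≤ e x a v ∧
      1 / 2 ≤ e x a v + e x a w + e x v w ∧ 21 / 40 ≤ 2 * e x a v + e x a w ∧
      e x v w ≤ 21 / 100 := by
  obtain ⟨b, hb, b', hb', hbb, h1, h2⟩ := hC.cr a ha f hf haf
  have hba : b ≠ a := by
    rintro rfl
    linarith
  have hb'a : b' ≠ a := by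
    rintro rfl
    rw [h.self] at h2
    linarith
  have hne : b ≠ b' := by
    rintro rfl
    linarith
  have hX := h.cross a b b' (by linarith [h.x0 a b'])
  set X := 2 * x a b - 1 with hXd
  set Y := 2 * x a b' - 1 with hYd
  set Z := 2 * x b b' - 1 with hZd
  have hX0 : 0 ≤ X := by rw [hXd]; linarith
  have hY0 : Y < 0 := by rw [hYd]; linarith
  have hZ0 : 2 / 5 ≤ Z := by rw [hZd]; linarith
  have e1 : e x a b = (1 - X ^ 2) / 4 := by unfold e; rw [hXd]; ring
  have e2 : e x a b' = (1 - Y ^ 2) / 4 := by unfold e; rw [hYd]; ring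
  have e3 : e x b b' = (1 - Z ^ 2) / 4 := by unfold e; rw [hZd]; ring
  have hXYZ : X ^ 2 + Y ^ 2 + Z ^ 2 ≤ 1 + 2 * X * Y * Z := by linarith
  have hXY : 0 ≤ X * (-Y) := mul_nonneg hX0 (by linarith)
  have hXYZ0 : 0 ≤ X * (-Y) * Z := mul_nonneg hXY (by linarith)
  rcases le_total X (-Y) with hle | hle
  · -- v = b, w = b'
    have hs := scalar_cross hX0 hle hZ0 (by nlinarith)
    refine ⟨b, hb, b', hb', hba, hb'a, hne, ?_, ?_, ?_, ?_⟩
    · rw [e1]; linarith [hs.1]
    · rw [e1, e2, e3]; nlinarith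
    · rw [e1, e2]; nlinarith [hs.2]
    · rw [e3]; nlinarith
  · have hs := scalar_cross (p := -Y) (q := X) (Z := Z) (by linarith) hle hZ0 (by nlinarith)
    refine ⟨b', hb', b, hb, hb'a, hba, hne.symm, ?_, ?_, ?_, ?_⟩
    · rw [e2]; nlinarith [hs.1]
    · rw [e_symm h b' b, e1, e2, e3]; nlinarith
    · rw [e1, e2]; nlinarith [hs.2]
    · rw [e_symm h b' b, e3]; nlinarith

/-- The mass leaving `C`. -/
noncomputable def lam (c : ι → ℝ) (x : ι → ι → ℝ) (C : Finset ι) (a : ι) : ℝ :=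
  ∑ j ∈ Cᶜ, c j * x a j

lemma lam_nonneg (h : FD c x) (C : Finset ι) (a : ι) : 0 ≤ lam c x C a :=
  Finset.sum_nonneg fun j _ => mul_nonneg (by linarith [h.c0 j]) (h.x0 a j)

lemma lam_eq (h : FD c x) (C : Finset ι) (a : ι) :
    lam c x C a = 1 - ∑ b ∈ C, c b * x a b := by
  have h1 := h.row a
  rw [← Finset.sum_add_sum_compl C] at h1
  unfold lam
  linarith

/-- `∑_{b ∈ C} c_b (1 - x_ab) = T - 1 + λ_a`. -/
lemma sum_y (h : FD c x) (C : Finset ι) (a : ι) :
    ∑ b ∈ C, c b * (1 - x a b) = ∑ b ∈ C, c b - 1 + lam c x C a := by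
  rw [lam_eq h]
  simp only [mul_sub, mul_one, Finset.sum_sub_distrib]
  ring

lemma Fa_nonneg (h : FD c x) (C : Finset ι) (a : ι) : 0 ≤ Fa c x C a :=
  Finset.sum_nonneg fun j _ => mul_nonneg (by linarith [h.c0 j]) (e_nonneg h a j)

/-- If all `x_ab ≥ 1/2`. -/
lemma Fa_half (h : FD c x) {a : ι} (hx : ∀ b ∈ C, 1 / 2 ≤ x a b) :
    1 / 2 * (∑ b ∈ C, c b - 1 + lam c x C a) ≤ Fa c x C a := by
  rw [← sum_y h, Finset.mul_sum]
  unfold Fa
  refine Finset.sum_le_sum fun b hb => ?_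
  have h1 := hx b hb
  have h2 := h.x1 a b
  have h3 := h.c0 b
  unfold e
  have h4 : 0 ≤ c b * (1 - x a b) := mul_nonneg (by linarith) (by linarith)
  nlinarith

/-- Two terms of `F_a`. -/
lemma Fa_two (h : FD c x) {a v w : ι} (hv : v ∈ C) (hw : w ∈ C) (hvw : v ≠ w) :
    c v * e x a v + c w * e x a w ≤ Fa c x C a := by
  unfold Fa
  have hsub : ({v, w} : Finset ι) ⊆ C := by
    intro j hj
    simp only [Finset.mem_insert, Finset.mem_singleton] at hj
    rcases hj with rfl | rfl <;> assumption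
  have h1 := Finset.sum_le_sum_of_subset_of_nonneg (f := fun b => c b * e x a b) hsub
    (fun j _ _ => mul_nonneg (by linarith [h.c0 j]) (e_nonneg h a j))
  rw [Finset.sum_pair hvw] at h1
  exact h1

/-- The transfer inequality for one receiver, scalar form, one payer. -/
lemma transfer_one {ca cv cw α β η Fr Fv : ℝ} (ha : 1 / 4 ≤ ca) (hv : 1 / 4 ≤ cv)
    (hw : 1 / 4 ≤ cw) (hα : 7 / 40 ≤ α) (hβ : 0 ≤ β) (hη : 0 ≤ η) (hsum : 1 / 2 ≤ α + β + η)
    (hF : cv * α + cw * β ≤ Fr) (hFv : ca * α + cw * η ≤ Fv) :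
    0 ≤ ca * (Fr - 209 / 2500) + cv * (Fv - 209 / 2500) := by
  have h1 := mul_le_mul_of_nonneg_left hF (show (0 : ℝ) ≤ ca by linarith)
  have h2 := mul_le_mul_of_nonneg_left hFv (show (0 : ℝ) ≤ cv by linarith)
  -- f(ca,cv) = 2 ca cv α + cw (ca β + cv η) - K (ca + cv)
  have h3 : 0 ≤ (cw - 1 / 4) * (ca * β + cv * η) := by
    have : 0 ≤ ca * β + cv * η := by positivity
    exact mul_nonneg (by linarith) this
  have h4 : 0 ≤ (ca - 1 / 4) * (2 * cv * α + β / 4 - 209 / 2500) := by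
    apply mul_nonneg (by linarith)
    have : 7 / 160 ≤ cv * α := by nlinarith
    linarith
  have h5 : 0 ≤ (cv - 1 / 4) * (α / 2 + η / 4 - 209 / 2500) :=
    mul_nonneg (by linarith) (by linarith)
  nlinarith

/-- Several payers. -/
lemma transfer_many {A : Finset ι} {cc α β Fr : ι → ℝ} {cv Fv : ℝ} (hA : 2 ≤ A.card)
    (ha : ∀ a ∈ A, 1 / 4 ≤ cc a) (hv : 1 / 4 ≤ cv) (hα : ∀ a ∈ A, 7 / 40 ≤ α a)
    (hβ : ∀ a ∈ A, 0 ≤ β a) (hαβ : ∀ a ∈ A, 21 / 40 ≤ 2 * α a + β a)
    (hF : ∀ a ∈ A, cv * α a + β a / 4 ≤ Fr a) (hFv : ∑ a ∈ A, cc a * α a ≤ Fv) :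
    0 ≤ ∑ a ∈ A, cc a * (Fr a - 209 / 2500) + cv * (Fv - 209 / 2500) := by
  have h1 : ∑ a ∈ A, cc a * (cv * α a + β a / 4 - 209 / 2500) ≤
      ∑ a ∈ A, cc a * (Fr a - 209 / 2500) := by
    refine Finset.sum_le_sum fun a haA => ?_
    exact mul_le_mul_of_nonneg_left (by linarith [hF a haA]) (by linarith [ha a haA])
  have h2 := mul_le_mul_of_nonneg_left hFv (show (0 : ℝ) ≤ cv by linarith)
  have h3 : ∑ a ∈ A, cc a * ((21 / 160 - 209 / 2500) + 7 / 20 * (cv - 1 / 4)) ≤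
      ∑ a ∈ A, cc a * (cv * α a + β a / 4 - 209 / 2500) + cv * ∑ a ∈ A, cc a * α a := by
    rw [Finset.mul_sum, ← Finset.sum_add_distrib]
    refine Finset.sum_le_sum fun a haA => ?_
    have h4 : cc a * (cv * α a + β a / 4 - 209 / 2500) + cv * (cc a * α a) =
        cc a * (2 * cv * α a + β a / 4 - 209 / 2500) := by ring
    rw [h4]
    refine mul_le_mul_of_nonneg_left ?_ (by linarith [ha a haA])
    have h5 := hα a haA
    have h6 := hαβ a haA
    have h7 : 0 ≤ (cv - 1 / 4) * (α a - 7 / 40) := mul_nonneg (by linarith) (by linarith)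
    nlinarith
  have h4 : (1 / 2 : ℝ) ≤ ∑ a ∈ A, cc a := by
    have h5 : ∑ a ∈ A, (1 / 4 : ℝ) ≤ ∑ a ∈ A, cc a := Finset.sum_le_sum fun a haA => ha a haA
    rw [Finset.sum_const, nsmul_eq_mul] at h5
    have h6 : (2 : ℝ) ≤ A.card := by exact_mod_cast hA
    linarith
  rw [← Finset.sum_mul] at h3
  have h5 : 1 / 2 * ((21 / 160 - 209 / 2500) + 7 / 20 * (cv - 1 / 4)) ≤
      (∑ a ∈ A, cc a) * ((21 / 160 - 209 / 2500) + 7 / 20 * (cv - 1 / 4)) :=
    mul_le_mul_of_nonneg_right h4 (by linarith)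
  nlinarith

/-- **Components with at least five rows.** -/
theorem heavy_five (h : FD c x) (hC : CD x C) (hcard : 5 ≤ C.card) :
    209 / 2500 * ∑ a ∈ C, c a ≤ ∑ a ∈ C, c a * Fa c x C a := by
  classical
  set K : ℝ := 209 / 2500 with hK
  have hT : (5 / 4 : ℝ) ≤ ∑ a ∈ C, c a := by
    have h5 : ∑ a ∈ C, (1 / 4 : ℝ) ≤ ∑ a ∈ C, c a := Finset.sum_le_sum fun a _ => h.c0 a
    rw [Finset.sum_const, nsmul_eq_mul] at h5
    have h6 : (5 : ℝ) ≤ C.card := by exact_mod_cast hcard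
    linarith
  set B := C.filter (fun a => Fa c x C a < K) with hB
  have hBC : ∀ a ∈ B, a ∈ C ∧ Fa c x C a < K := fun a ha => by
    rw [hB, Finset.mem_filter] at ha; exact ha
  -- the crossing data
  have hdat : ∀ a ∈ B, ∃ v w : ι, v ∈ C ∧ w ∈ C ∧ v ≠ a ∧ w ≠ a ∧ v ≠ w ∧ 7 / 40 ≤ e x a v ∧
      1 / 2 ≤ e x a v + e x a w + e x v w ∧ 21 / 40 ≤ 2 * e x a v + e x a w := by
    intro a ha
    obtain ⟨haC, haK⟩ := hBC a ha
    by_cases hall : ∀ b ∈ C, 1 / 2 ≤ x a b
    · exfalso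
      have h1 := Fa_half h hall
      have h2 := lam_nonneg h C a
      have h3 : Fa c x C a < 209 / 2500 := haK
      linarith
    · push Not at hall
      obtain ⟨f, hf, haf⟩ := hall
      obtain ⟨v, hv, w, hw, h1, h2, h3, h4, h5, h6, -⟩ := crossing h hC haC hf haf
      exact ⟨v, w, hv, hw, h1, h2, h3, h4, h5, h6⟩
  choose! v w hv hw hva hwa hvw hα hsum hαβ using hdat
  -- the receivers
  set V := B.image v with hV
  have hfib : ∀ u ∈ V, 0 ≤ ∑ a ∈ B.filter (fun a => v a = u), c a * (Fa c x C a - K) +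
      c u * (Fa c x C u - K) := by
    intro u hu
    set A := B.filter (fun a => v a = u) with hA
    have hAB : ∀ a ∈ A, a ∈ B ∧ v a = u := fun a ha => by
      rw [hA, Finset.mem_filter] at ha; exact ha
    obtain ⟨a₀, ha₀, hva₀⟩ := Finset.mem_image.1 hu
    have ha₀A : a₀ ∈ A := by rw [hA, Finset.mem_filter]; exact ⟨ha₀, hva₀⟩
    have huC : u ∈ C := hva₀ ▸ hv a₀ ha₀
    rcases Nat.lt_or_ge A.card 2 with hlt | hge
    · -- one payer
      have hA1 : A = {a₀} := by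
        have : A.card = 1 := by
          have := Finset.card_pos.2 ⟨a₀, ha₀A⟩
          omega
        obtain ⟨z, hz⟩ := Finset.card_eq_one.1 this
        rw [hz] at ha₀A ⊢
        rw [Finset.mem_singleton.1 ha₀A]
      rw [hA1, Finset.sum_singleton]
      have hau : u ≠ a₀ := hva₀ ▸ hva a₀ ha₀
      have hwu : u ≠ w a₀ := hva₀ ▸ hvw a₀ ha₀
      have hFa := Fa_two (C := C) h (a := a₀) huC (hw a₀ ha₀) hwu
      have hFu := Fa_two (C := C) h (a := u) (hBC a₀ ha₀).1 (hw a₀ ha₀) (hwa a₀ ha₀).symm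
      rw [e_symm h u a₀] at hFu
      have h1 := hα a₀ ha₀
      have h2 := hsum a₀ ha₀
      rw [hva₀] at h1 h2
      exact transfer_one (h.c0 a₀) (h.c0 u) (h.c0 (w a₀)) h1 (e_nonneg h _ _) (e_nonneg h _ _)
        h2 hFa hFu
    · refine transfer_many (α := fun a => e x a u) (β := fun a => e x a (w a)) hge
        (fun a _ => h.c0 a) (h.c0 u) (fun a ha => ?_) (fun a _ => e_nonneg h _ _)
        (fun a ha => ?_) (fun a ha => ?_) ?_
      · have := hα a (hAB a ha).1
        rwa [(hAB a ha).2] at this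
      · have := hαβ a (hAB a ha).1
        rwa [(hAB a ha).2] at this
      · have haB := (hAB a ha).1
        have hau := (hAB a ha).2
        have h1 := Fa_two (C := C) h (a := a) huC (hw a haB) (hau ▸ hvw a haB)
        have h2 : 1 / 4 * e x a (w a) ≤ c (w a) * e x a (w a) :=
          mul_le_mul_of_nonneg_right (h.c0 _) (e_nonneg h _ _)
        have h3 : e x a (w a) / 4 = 1 / 4 * e x a (w a) := by ring
        rw [h3]
        linarith
      · -- F_u ≥ ∑_{a ∈ A} c_a e(u,a)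
        unfold Fa
        have hsub : A ⊆ C := fun a ha => (hBC a (hAB a ha).1).1
        have h1 := Finset.sum_le_sum_of_subset_of_nonneg (f := fun b => c b * e x u b) hsub
          (fun j _ _ => mul_nonneg (by linarith [h.c0 j]) (e_nonneg h u j))
        refine le_trans (le_of_eq ?_) h1
        exact Finset.sum_congr rfl fun a _ => by rw [e_symm h a u]
  -- receivers are not payers
  have hVB : ∀ u ∈ V, u ∈ C ∧ ¬ Fa c x C u < K := by
    intro u hu
    have h1 := hfib u hu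
    obtain ⟨a₀, ha₀, hva₀⟩ := Finset.mem_image.1 hu
    refine ⟨hva₀ ▸ hv a₀ ha₀, fun hlt => ?_⟩
    have h2 : ∑ a ∈ B.filter (fun a => v a = u), c a * (Fa c x C a - K) ≤ 0 := by
      refine Finset.sum_nonpos fun a ha => ?_
      have haB := (Finset.mem_filter.1 ha).1
      exact mul_nonpos_of_nonneg_of_nonpos (by linarith [h.c0 a]) (by linarith [(hBC a haB).2])
    have h3 : c u * (Fa c x C u - K) < 0 :=
      mul_neg_of_pos_of_neg (by linarith [h.c0 u]) (by linarith)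
    linarith
  have hsplit := Finset.sum_filter_add_sum_filter_not C (fun a => Fa c x C a < K)
    (fun a => c a * (Fa c x C a - K))
  have hVsub : V ⊆ C.filter (fun a => ¬ Fa c x C a < K) := fun u hu =>
    Finset.mem_filter.2 (hVB u hu)
  have h1 : ∑ u ∈ V, c u * (Fa c x C u - K) ≤
      ∑ u ∈ C.filter (fun a => ¬ Fa c x C a < K), c u * (Fa c x C u - K) := by
    refine Finset.sum_le_sum_of_subset_of_nonneg hVsub fun u hu _ => ?_
    have := (Finset.mem_filter.1 hu).2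
    exact mul_nonneg (by linarith [h.c0 u]) (by linarith [not_lt.1 this])
  have h2 : ∑ a ∈ B, c a * (Fa c x C a - K) =
      ∑ u ∈ V, ∑ a ∈ B.filter (fun a => v a = u), c a * (Fa c x C a - K) :=
    (Finset.sum_fiberwise_of_maps_to (fun a ha => Finset.mem_image_of_mem v ha) _).symm
  have h3 : 0 ≤ ∑ u ∈ V, (∑ a ∈ B.filter (fun a => v a = u), c a * (Fa c x C a - K) +
      c u * (Fa c x C u - K)) := Finset.sum_nonneg hfib
  rw [Finset.sum_add_distrib, ← h2] at h3
  have h4 : 0 ≤ ∑ a ∈ C, c a * (Fa c x C a - K) := by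
    rw [← hsplit, ← hB]
    linarith
  simp only [mul_sub, Finset.sum_sub_distrib, ← Finset.sum_mul] at h4
  linarith

/-- Lower bound for any `F_d`. -/
lemma Fa_min (h : FD c x) (hC : CD x C) {d : ι} (hd : d ∈ C) :
    1 / 2 * (∑ b ∈ C, c b - 1) ≤ Fa c x C d ∨ 29 / 400 ≤ Fa c x C d := by
  by_cases hall : ∀ b ∈ C, 1 / 2 ≤ x d b
  · left
    have h1 := Fa_half h hall
    have h2 := lam_nonneg h C d
    linarith
  · right
    push Not at hall
    obtain ⟨f, hf, haf⟩ := hall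
    obtain ⟨v, hv, w, hw, h1, h2, h3, h4, h5, h6, h7⟩ := crossing h hC hd hf haf
    have h8 := Fa_two (C := C) h (a := d) hv hw h3
    have h9 := mul_le_mul_of_nonneg_right (h.c0 v) (e_nonneg h d v)
    have h10 := mul_le_mul_of_nonneg_right (h.c0 w) (e_nonneg h d w)
    linarith

lemma mass_eq (h : FD c x) (C : Finset ι) :
    ∑ a ∈ C, ∑ b ∈ C, c a * c b * x a b = ∑ a ∈ C, c a - ∑ a ∈ C, c a * lam c x C a := by
  rw [← Finset.sum_sub_distrib]
  refine Finset.sum_congr rfl fun a _ => ?_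
  rw [lam_eq h]
  have : ∑ b ∈ C, c a * c b * x a b = c a * ∑ b ∈ C, c b * x a b := by
    rw [Finset.mul_sum]
    exact Finset.sum_congr rfl fun b _ => by ring
  rw [this]; ring

/-- **Components with exactly four rows.** -/
theorem heavy_four (h : FD c x) (hC : CD x C) (hcard : C.card = 4) :
    0.0052 * ∑ a ∈ C, c a ≤ 0.06227 * ∑ a ∈ C, c a * Fa c x C a
      + 0.0156 * ∑ a ∈ C, c a * lam c x C a ∨
    0.07576 * (∑ a ∈ C, c a - 1) ≤ 0.06227 * ∑ a ∈ C, c a * Fa c x C a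
      + 0.0156 * ∑ a ∈ C, c a * lam c x C a := by
  classical
  set T := ∑ a ∈ C, c a with hT
  set X := ∑ a ∈ C, c a * lam c x C a with hX
  have hT1 : 1 ≤ T := by
    have h5 : ∑ a ∈ C, (1 / 4 : ℝ) ≤ ∑ a ∈ C, c a := Finset.sum_le_sum fun a _ => h.c0 a
    rw [Finset.sum_const, nsmul_eq_mul, hcard] at h5
    norm_num at h5
    exact h5
  have hT2 : T ≤ 4 / 3 := by
    have h5 : ∑ a ∈ C, c a ≤ ∑ a ∈ C, (1 / 3 : ℝ) := Finset.sum_le_sum fun a _ => h.c1 a
    rw [Finset.sum_const, nsmul_eq_mul, hcard] at h5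
    norm_num at h5
    exact h5
  have hX0 : (T - 1) * (2 - T) ≤ X := by
    have h1 := h.spec C
    rw [mass_eq h C, ← hT, ← hX] at h1
    nlinarith
  set δ := T - 1 with hδ
  have hTd : T = 1 + δ := by rw [hδ]; ring
  have hδ0 : 0 ≤ δ := by linarith
  have hδ1 : δ ≤ 1 / 3 := by linarith
  have hX1 : δ * (1 - δ) ≤ X := by
    have : 2 - T = 1 - δ := by rw [hδ]; ring
    rw [this] at hX0
    exact hX0
  by_cases hall : ∀ a ∈ C, ∀ b ∈ C, 1 / 2 ≤ x a b
  · -- case A
    have hF : 1 / 2 * (T * δ + X) ≤ ∑ a ∈ C, c a * Fa c x C a := by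
      have h1 : ∑ a ∈ C, c a * (1 / 2 * (∑ b ∈ C, c b - 1 + lam c x C a)) ≤
          ∑ a ∈ C, c a * Fa c x C a :=
        Finset.sum_le_sum fun a ha => mul_le_mul_of_nonneg_left (Fa_half h (hall a ha))
          (by linarith [h.c0 a])
      have h2 : ∑ a ∈ C, c a * (1 / 2 * (∑ b ∈ C, c b - 1 + lam c x C a)) =
          1 / 2 * (T * δ + X) := by
        have h3 : ∀ a ∈ C, c a * (1 / 2 * (∑ b ∈ C, c b - 1 + lam c x C a)) =
            c a * (1 / 2 * δ) + 1 / 2 * (c a * lam c x C a) := by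
          intro a _
          rw [← hT, ← hδ]; ring
        rw [Finset.sum_congr rfl h3, Finset.sum_add_distrib, ← Finset.sum_mul, ← Finset.mul_sum,
          ← hT, ← hX]
        ring
      rw [← h2]; exact h1
    rcases le_total δ (1 / 8) with hd | hd
    · right
      rw [hTd] at hF
      nlinarith
    · left
      rw [hTd] at hF
      nlinarith
  · push Not at hall
    obtain ⟨a, ha, f, hf, haf⟩ := hall
    obtain ⟨v, hv, w, hw, hva, hwa, hvw, h4, h5, h6, h7⟩ := crossing h hC ha hf haf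
    -- the fourth row
    have hsub : ({a, v, w} : Finset ι) ⊆ C := by
      intro j hj
      simp only [Finset.mem_insert, Finset.mem_singleton] at hj
      rcases hj with rfl | rfl | rfl <;> assumption
    have hc3 : ({a, v, w} : Finset ι).card = 3 := Finset.card_eq_three.2
      ⟨a, v, w, hva.symm, hwa.symm, hvw, rfl⟩
    have hc1 : (C \ {a, v, w}).card = 1 := by
      rw [Finset.card_sdiff_of_subset hsub, hcard, hc3]
    obtain ⟨d, hd⟩ := Finset.card_eq_one.1 hc1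
    have hdC : d ∈ C := by
      have : d ∈ C \ {a, v, w} := by rw [hd]; exact Finset.mem_singleton_self d
      exact (Finset.mem_sdiff.1 this).1
    have hdn : d ∉ ({a, v, w} : Finset ι) := by
      have : d ∈ C \ {a, v, w} := by rw [hd]; exact Finset.mem_singleton_self d
      exact (Finset.mem_sdiff.1 this).2
    simp only [Finset.mem_insert, Finset.mem_singleton, not_or] at hdn
    obtain ⟨hda, hdv, hdw⟩ := hdn
    have hCeq : C = {a, v, w, d} := by
      ext j
      constructor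
      · intro hj
        by_cases hj2 : j ∈ ({a, v, w} : Finset ι)
        · simp only [Finset.mem_insert, Finset.mem_singleton] at hj2 ⊢
          tauto
        · have : j ∈ C \ {a, v, w} := Finset.mem_sdiff.2 ⟨hj, hj2⟩
          rw [hd, Finset.mem_singleton] at this
          simp [this]
      · intro hj
        simp only [Finset.mem_insert, Finset.mem_singleton] at hj
        rcases hj with rfl | rfl | rfl | rfl <;> assumption
    have hs4 : ∀ g : ι → ℝ, ∑ j ∈ C, g j = g a + (g v + (g w + g d)) := by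
      intro g
      rw [hCeq, Finset.sum_insert (by simp [hva.symm, hwa.symm, Ne.symm hda]),
        Finset.sum_insert (by simp [hvw, Ne.symm hdv]),
        Finset.sum_insert (by simp [Ne.symm hdw]), Finset.sum_singleton]
    have he0 : ∀ i, e x i i = 0 := fun i => by unfold e; rw [h.self]; ring
    have hFd := Fa_min h hC hdC
    have hFdd : Fa c x C d = c a * e x a d + (c v * e x v d + c w * e x w d) := by
      unfold Fa
      rw [hs4, he0, e_symm h d a, e_symm h d v, e_symm h d w]; ring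
    have hsum : ∑ j ∈ C, c j * Fa c x C j = 2 * (c a * c v * e x a v + c a * c w * e x a w +
        c v * c w * e x v w) + 2 * (c d * Fa c x C d) := by
      have hFa' : Fa c x C a = c v * e x a v + (c w * e x a w + c d * e x a d) := by
        unfold Fa
        rw [hs4, he0]; ring
      have hFv' : Fa c x C v = c a * e x a v + (c w * e x v w + c d * e x v d) := by
        unfold Fa
        rw [hs4, he0, e_symm h v a]; ring
      have hFw' : Fa c x C w = c a * e x a w + (c v * e x v w + c d * e x w d) := by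
        unfold Fa
        rw [hs4, he0, e_symm h w a, e_symm h w v]; ring
      rw [hs4, hFa', hFv', hFw', hFdd]
      ring
    have hprod : ∀ i j, (1 / 16 : ℝ) ≤ c i * c j := fun i j => by
      have h1 := h.c0 i
      have h2 := h.c0 j
      nlinarith
    have hE : 1 / 16 * (e x a v + e x a w + e x v w) ≤
        c a * c v * e x a v + c a * c w * e x a w + c v * c w * e x v w := by
      have h1 := mul_le_mul_of_nonneg_right (hprod a v) (e_nonneg h a v)
      have h2 := mul_le_mul_of_nonneg_right (hprod a w) (e_nonneg h a w)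
      have h3 := mul_le_mul_of_nonneg_right (hprod v w) (e_nonneg h v w)
      linarith
    have hcF : 1 / 4 * Fa c x C d ≤ c d * Fa c x C d :=
      mul_le_mul_of_nonneg_right (h.c0 d) (Fa_nonneg h C d)
    have hS : 1 / 16 + 1 / 2 * Fa c x C d ≤ ∑ j ∈ C, c j * Fa c x C j := by
      rw [hsum]; linarith
    rw [← hT, ← hδ] at hFd
    rcases hFd with hFd | hFd
    · rcases le_total δ (3 / 40) with hd1 | hd1
      · right
        nlinarith
      · left
        rw [hTd]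
        nlinarith
    · rcases le_total δ (3 / 40) with hd1 | hd1
      · right
        nlinarith
      · left
        rw [hTd]
        nlinarith

end Pool.Agent.Lib.MP_589a62_gt.Full.Heavy3
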