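import Pool.Agent.Lib.MP_589a62_gt.Full.Light3
import Pool.Agent.Lib.MP_589a62_gt.Full.Heavy3
import Pool.Agent.Lib.MP_589a62_gt.Full.Cross
import Pool.Agent.Lib.MP_589a62_gt.Full.CompH

/-!
# The case `m = 3`
-/

set_option autoImplicit false
set_option linter.unusedVariables false
set_option linter.unusedSectionVars false

open Matrix Finset MeasureTheory Set Real
open scoped ENNReal Classical

namespace Pool.Agent.Lib.MP_589a62_gt.Full

open Heavy3 Light3

variable {n k : ℕ}

lemma kk_eq_mul {U : Matrix (Fin n) (Fin k) ℝ} (hc : ∀ i, 0 < rowSq U i) (i j : Fin n) :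
    kk U i j = rowSq U i * rowSq U j * xx U i j := by
  unfold xx
  have := (hc i).ne'
  have := (hc j).ne'
  field_simp

lemma kk_div {U : Matrix (Fin n) (Fin k) ℝ} (hc : ∀ i, 0 < rowSq U i) (i j : Fin n) :
    kk U i j / rowSq U i = rowSq U j * xx U i j := by
  unfold xx
  have := (hc i).ne'
  have := (hc j).ne'
  field_simp

/-- The frame data. -/
theorem fd_of_max (U : Matrix (Fin n) (Fin k) ℝ) (hU : Uᵀ * U = 1)
    (hlo : ∀ i, 1 / 4 ≤ rowSq U i) (hup : ∀ i, rowSq U i ≤ 1 / 3)
    (hx1 : ∀ i j, xx U i j ≤ 1) : FD (rowSq U) (xx U) := by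
  have hc : ∀ i, 0 < rowSq U i := fun i => by linarith [hlo i]
  refine ⟨hlo, hup, fun i j => xx_symm U i j, fun i => ?_, fun i j => ?_, hx1, fun i => ?_,
    fun i j l h => ?_, fun C => ?_⟩
  · unfold xx
    rw [kk_self]
    have := (hc i).ne'
    field_simp
  · exact div_nonneg (kk_nonneg U i j) (mul_nonneg (hc i).le (hc j).le)
  · have h1 : ∑ j, rowSq U j * xx U i j = ∑ j, kk U i j / rowSq U i :=
      Finset.sum_congr rfl fun j _ => (kk_div hc i j).symm
    rw [h1, ← Finset.sum_div, sum_kk U hU i, div_self (hc i).ne']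
  · exact x_cross U hc i j l rfl rfl rfl h
  · have h1 := spectral U hU C
    have h2 : ∑ a ∈ C, ∑ b ∈ C, kk U a b = ∑ a ∈ C, ∑ b ∈ C, rowSq U a * rowSq U b * xx U a b :=
      Finset.sum_congr rfl fun a _ => Finset.sum_congr rfl fun b _ => kk_eq_mul hc a b
    rw [h2] at h1
    exact h1

lemma mem_of_reachable {G : SimpleGraph (Fin n)} {C : Finset (Fin n)}
    (hcl : ∀ i ∈ C, ∀ l, G.Adj i l → l ∈ C) {a b : Fin n} (h : G.Reachable a b) (ha : a ∈ C) :
    b ∈ C := by
  obtain ⟨w⟩ := h
  induction w with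
  | nil => exact ha
  | cons hadj w ih => exact ih (hcl _ ha _ hadj)

/-- The component data. -/
theorem cd_of_comp (U : Matrix (Fin n) (Fin k) ℝ) (hc : ∀ i, 0 < rowSq U i)
    {C : Finset (Fin n)} (hcl : ∀ i ∈ C, ∀ l, (nearG U (7 / 10)).Adj i l → l ∈ C)
    (hre : ∀ i ∈ C, ∀ j ∈ C, (nearG U (7 / 10)).Reachable i j) : CD (xx U) C := by
  refine ⟨fun a ha f hf haf => ?_, fun a ha j hj => ?_⟩
  · obtain ⟨b, b', hadj, hrb, hPb, hPb'⟩ := exists_crossing (nearG U (7 / 10))
      (fun b => 1 / 2 ≤ xx U a b) (hre a ha f hf)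
      (by
        have : xx U a a = 1 := by
          unfold xx
          rw [kk_self]
          have := (hc a).ne'
          field_simp
        rw [this]; norm_num)
      (not_le.2 haf)
    have hbC := mem_of_reachable hcl hrb ha
    exact ⟨b, hbC, b', hcl b hbC b' hadj, hadj.2, hPb, not_le.1 hPb'⟩
  · by_contra hcon
    have h1 : 7 / 10 < xx U a j := not_le.1 hcon
    exact hj (hcl a ha j ⟨fun h => hj (h ▸ ha), h1.le⟩)

lemma RA_low {z : ℝ} (h0 : 0 ≤ z) (h1 : z ≤ 1 / 5) : 1 / 5 ≤ RA z := by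
  unfold RA
  nlinarith [mul_nonneg h0 h0, mul_nonneg (mul_nonneg h0 h0) h0,
    mul_nonneg (mul_nonneg h0 h0) (sub_nonneg.2 h1), mul_nonneg h0 (sub_nonneg.2 h1)]

lemma RA_mid {z : ℝ} (h0 : 1 / 5 ≤ z) (h1 : z ≤ 3 / 4) : 0.0347 ≤ RA z * z := by
  unfold RA
  have h2 : 0 ≤ (z - 1 / 5) * (3 / 4 - z) := mul_nonneg (by linarith) (by linarith)
  have hz : 0 ≤ z := by linarith
  nlinarith [mul_nonneg h2 hz, mul_nonneg (mul_nonneg h2 hz) hz]

/-- **The case `m = 3`.** -/
theorem max_three (U : Matrix (Fin n) (Fin k) ℝ) (hU : Uᵀ * U = 1)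
    (hmax : IsMax 3 U) : vol U ^ 2 ≤ BB 3 n k := by
  have hm1 : 1 ≤ 3 := by norm_num
  have hlo : ∀ i, 1 / 4 ≤ rowSq U i := fun i => by
    have := crit_lower hm1 U hU hmax i
    norm_num at this ⊢
    linarith
  have hup : ∀ i, rowSq U i ≤ 1 / 3 := fun i => by
    have := crit_upper hm1 U hU hmax i
    norm_num at this ⊢
    linarith
  have hc : ∀ i, 0 < rowSq U i := fun i => lt_of_lt_of_le (by norm_num) (hlo i)
  have hB := fun i j => crit_B hm1 U hU hmax (i := i) (j := j)
  have hx1 : ∀ i j, xx U i j ≤ 1 := fun i j => by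
    have := (abs_nonneg _).trans (hB i j)
    unfold xx; linarith
  have hB1 : ∀ i j, 1 / rowSq U j ≤ 1 / rowSq U i + (1 - xx U i j) := fun i j => by
    have := (abs_le.1 (hB i j)).1
    unfold xx; linarith
  have hB2 : ∀ i j, 1 / rowSq U i ≤ 1 / rowSq U j + (1 - xx U i j) := fun i j => by
    have := (abs_le.1 (hB i j)).2
    unfold xx; linarith
  have hFD := fd_of_max U hU hlo hup hx1
  have ht3 : ∀ i, 3 ≤ 1 / rowSq U i := fun i => by
    rw [le_div_iff₀ (hc i)]; linarith [hup i]
  have ht4 : ∀ i, 1 / rowSq U i ≤ 4 := fun i => by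
    rw [div_le_iff₀ (hc i)]; linarith [hlo i]
  suffices hkey : ∃ t T σ r : Fin n → Fin n → ℝ, Adm U t T σ r ∧
      ∑ i, Large.gap 3 (rowSq U i) ≤ supply U t r by
    obtain ⟨t, T, σ, r, hAdm, hgap⟩ := hkey
    exact vol_sq_le_BB hm1 U hU hc hAdm hgap
  refine FI_light_heavy (m := 3) U hU hc (nearG U (7 / 10)) 3 (3 / 4)
    (by norm_num) (by norm_num) (fun i => by linarith [hlo i]) ?_ ?_
  · -- light components
    intro C hne hcard hcl hre i hi
    set G := nearG U (7 / 10) with hG
    set Nn := (univ.erase i).filter (fun j => G.Adj i j) with hNn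
    set Sf := (univ.erase i).filter (fun j => ¬ G.Adj i j) with hSf
    have hNC : Nn ⊆ C.erase i := by
      intro j hj
      rw [hNn, Finset.mem_filter, Finset.mem_erase] at hj
      exact Finset.mem_erase.2 ⟨hj.1.1, hcl i hi j hj.2⟩
    have hN2 : Nn.card ≤ 2 := by
      have h1 := Finset.card_le_card hNC
      rw [Finset.card_erase_of_mem hi] at h1
      omega
    have hfar : far U G i = ∑ j ∈ Sf, rowSq U j * xx U i j := by
      unfold far
      exact Finset.sum_congr rfl fun j _ => kk_div hc i j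
    have hfarS : farS U G i = rowSq U i * ∑ j ∈ Sf, rowSq U j * xx U i j * (1 - xx U i j) := by
      unfold farS
      rw [Finset.mul_sum]
      refine Finset.sum_congr rfl fun j _ => ?_
      rw [kk_eq_mul hc]; ring
    have hrow := hFD.row i
    have hsum : 1 / (1 / rowSq U i) + ∑ j ∈ Nn, rowSq U j * xx U i j +
        ∑ j ∈ Sf, rowSq U j * xx U i j = 1 := by
      rw [← Finset.add_sum_erase _ _ (Finset.mem_univ i), hFD.self, mul_one,
        ← Finset.sum_filter_add_sum_filter_not (univ.erase i) (fun j => G.Adj i j)] at hrow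
      rw [one_div_one_div]
      linarith
    have hfar0 : 0 ≤ far U G i := far_nonneg G (hc i)
    have hfar1 : far U G i ≤ 3 / 4 := (far_le hU G (hc i)).trans (by linarith [hlo i])
    have h := light_row (1 / rowSq U i) (RA (far U G i)) (ht3 i) (ht4 i) Nn Sf (rowSq U) (xx U i)
      hN2 (fun j _ => hc j) (fun j _ => hFD.x0 i j) (fun j _ => hB1 i j) (fun j _ => hB2 i j)
      (fun j _ => hc j) (fun j _ => hFD.x0 i j) (fun j hj => by
        rw [hSf, Finset.mem_filter, Finset.mem_erase] at hj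
        by_contra hcon
        exact hj.2 ⟨hj.1.1.symm, (not_le.1 hcon).le⟩)
      (fun j _ => hB1 i j) (fun j _ => hB2 i j) hsum
      (fun h1 => by rw [← hfar] at h1; exact RA_low hfar0 h1)
      (fun h1 => by rw [← hfar] at h1 ⊢; exact RA_mid h1 hfar1)
    rw [Large.gap_eq 3 _ (hc i), hfarS]
    have h2 := mul_le_mul_of_nonneg_left h (hc i).le
    refine h2.trans (le_of_eq ?_)
    ring
  · -- heavy components
    intro C hcard hcl hre
    have hCD := cd_of_comp U hc hcl hre
    have hin : ∀ i ∈ C, inC U C i = rowSq U i * Fa (rowSq U) (xx U) C i := by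
      intro i hi
      unfold inC Fa
      rw [← Finset.add_sum_erase C _ hi, mul_add, Finset.mul_sum]
      have h1 : rowSq U i * (rowSq U i * e (xx U) i i) = 0 := by
        unfold e; rw [hFD.self]; ring
      rw [h1, zero_add]
      refine Finset.sum_congr rfl fun j _ => ?_
      rw [kk_eq_mul hc]
      unfold e
      ring
    have hout : ∀ i ∈ C, 3 / 10 * (rowSq U i * lam (rowSq U) (xx U) C i) ≤ outC U C i := by
      intro i hi
      unfold outC lam
      rw [Finset.mul_sum, Finset.mul_sum]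
      refine Finset.sum_le_sum fun j hj => ?_
      have h1 := hCD.out i hi j (Finset.mem_compl.1 hj)
      rw [kk_eq_mul hc]
      have h2 : 0 ≤ rowSq U i * (rowSq U j * xx U i j) :=
        mul_nonneg (hc i).le (mul_nonneg (hc j).le (hFD.x0 i j))
      nlinarith
    have hRC : 2 * 0.06227 ≤ RC (3 / 4) := by unfold RC; norm_num
    have hRD : 2 * 0.052 ≤ RD (3 / 4) := by unfold RD; norm_num
    have hF0 : ∀ i ∈ C, 0 ≤ rowSq U i * Fa (rowSq U) (xx U) C i := fun i _ =>
      mul_nonneg (hc i).le (Fa_nonneg hFD C i)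
    have hl0 : ∀ i ∈ C, 0 ≤ rowSq U i * lam (rowSq U) (xx U) C i := fun i _ =>
      mul_nonneg (hc i).le (lam_nonneg hFD C i)
    have hsup : 0.06227 * ∑ i ∈ C, rowSq U i * Fa (rowSq U) (xx U) C i
        + 0.0156 * ∑ i ∈ C, rowSq U i * lam (rowSq U) (xx U) C i ≤
        ∑ i ∈ C, (1 / 2 * RC (3 / 4) * inC U C i + 1 / 2 * RD (3 / 4) * outC U C i) := by
      rw [Finset.mul_sum, Finset.mul_sum, ← Finset.sum_add_distrib]
      refine Finset.sum_le_sum fun i hi => ?_
      rw [hin i hi]
      have h1 := hF0 i hi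
      have h2 := hl0 i hi
      have h3 := hout i hi
      have h4 : 0.06227 * (rowSq U i * Fa (rowSq U) (xx U) C i) ≤
          1 / 2 * RC (3 / 4) * (rowSq U i * Fa (rowSq U) (xx U) C i) :=
        mul_le_mul_of_nonneg_right (by linarith) h1
      have h5 : 0.052 * outC U C i ≤ 1 / 2 * RD (3 / 4) * outC U C i :=
        mul_le_mul_of_nonneg_right (by linarith) (le_trans (by positivity) h3)
      linarith
    have hN1 : ∑ i ∈ C, Large.gap 3 (rowSq U i) ≤ 0.0052 * ∑ i ∈ C, rowSq U i := by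
      rw [Finset.mul_sum]
      refine Finset.sum_le_sum fun i _ => ?_
      rw [Large.gap_eq 3 _ (hc i)]
      have h1 := Large.gam_three_max (1 / rowSq U i) (1 / rowSq U i - 3) (by linarith [ht3 i])
        (by linarith [ht4 i]) (by ring)
      have h2 := mul_le_mul_of_nonneg_left h1 (hc i).le
      linarith
    refine le_trans ?_ hsup
    rcases Nat.lt_or_ge 4 C.card with h5 | h4
    · -- at least five rows
      have h1 := heavy_five hFD hCD h5
      have h2 : 0 ≤ ∑ i ∈ C, rowSq U i * lam (rowSq U) (xx U) C i := Finset.sum_nonneg hl0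
      have h3 : 0 ≤ ∑ i ∈ C, rowSq U i := Finset.sum_nonneg fun i _ => (hc i).le
      linarith
    · have hc4 : C.card = 4 := by omega
      have hN2 : ∑ i ∈ C, Large.gap 3 (rowSq U i) ≤ 0.07576 * (∑ i ∈ C, rowSq U i - 1) := by
        have h1 : ∑ i ∈ C, Large.gap 3 (rowSq U i) ≤ ∑ i ∈ C, 0.01894 * (4 * rowSq U i - 1) := by
          refine Finset.sum_le_sum fun i _ => ?_
          rw [Large.gap_eq 3 _ (hc i)]
          have h2 := Large.gam_three_tan (1 / rowSq U i) (by linarith [ht3 i]) (ht4 i)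
          have h3 := mul_le_mul_of_nonneg_left h2 (hc i).le
          refine h3.trans (le_of_eq ?_)
          have := (hc i).ne'
          field_simp
        refine h1.trans (le_of_eq ?_)
        rw [← Finset.mul_sum, Finset.sum_sub_distrib, ← Finset.mul_sum, Finset.sum_const, hc4]
        norm_num
        ring
      rcases heavy_four hFD hCD hc4 with h | h
      · exact hN1.trans h
      · exact hN2.trans h

end Pool.Agent.Lib.MP_589a62_gt.Full
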