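import Pool.Agent.Lib.MP_589a62_gt.Full.Asm
import Pool.Agent.Lib.MP_589a62_gt.Full.PairTwoA
import Pool.Agent.Lib.MP_589a62_gt.Full.Clus3
import Pool.Agent.Lib.MP_589a62_gt.Full.Clus4
import Pool.Agent.Lib.MP_589a62_gt.Full.Three
import Pool.Agent.Lib.MP_589a62_gt.Full.Four

/-!
# The volume bound for all `n ≥ 2 k`
-/

set_option autoImplicit false

open Matrix Finset Real

namespace Pool.Agent.Lib.MP_589a62_gt.Full

theorem max_two {n k : ℕ} (U : Matrix (Fin n) (Fin k) ℝ) (hU : Uᵀ * U = 1) (hmax : IsMax 2 U) :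
    vol U ^ 2 ≤ BB 2 n k := by
  refine max_two_of U hU hmax (PairTwo.S2_two U hU hmax) fun C h3 hcl hre => ?_
  rcases h3.eq_or_lt with h | h
  · exact clus_three U hU hmax C h.symm hcl hre
  · exact Clus4.clus_four U hU hmax C h hcl hre

/-- For `n ≥ 2 k ≥ 2` every `k`-dimensional central section of the cube has squared volume at
most `q ^ (k - r) * (q + 1) ^ r`, where `q = n / k` and `r = n % k`. -/
theorem vol_sq_le_of_two_mul_le {n k : ℕ} (hk : 0 < k) (hn : 2 * k ≤ n)
    (V : Matrix (Fin n) (Fin k) ℝ) (hV : Vᵀ * V = 1) : vol V ^ 2 ≤ maxSq n k :=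
  final_of (fun U hU hmax => max_two U hU hmax) (fun U hU hmax => max_three U hU hmax)
    (fun U hU hmax => max_four U hU hmax) hk hn V hV

end Pool.Agent.Lib.MP_589a62_gt.Full
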