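import Pool.Agent.Lib.MP_589a62_gt.Full.Crit
import Pool.Agent.Lib.MP_589a62_gt.Geometry

/-!
# The existence of the maximiser of `vol ^ 2 * (m / (m+1)) ^ n`
-/

set_option autoImplicit false
set_option linter.unusedVariables false
set_option linter.unusedSectionVars false

open Matrix Finset MeasureTheory Set Real Filter Topology
open scoped ENNReal

namespace Pool.Agent.Lib.MP_589a62_gt.Full

/-- The Stiefel set. -/
def Stf (n k : ℕ) : Set (Matrix (Fin n) (Fin k) ℝ) := {U | Uᵀ * U = 1}

lemma entry_le {n k : ℕ} {U : Matrix (Fin n) (Fin k) ℝ} (hU : Uᵀ * U = 1) (i : Fin n)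
    (l : Fin k) : |U i l| ≤ 1 := by
  have h1 : (Uᵀ * U) l l = 1 := by rw [hU, one_apply_eq]
  rw [Matrix.mul_apply] at h1
  simp only [Matrix.transpose_apply] at h1
  have h2 : U i l * U i l ≤ ∑ i, U i l * U i l :=
    Finset.single_le_sum (f := fun i => U i l * U i l) (fun i _ => mul_self_nonneg _)
      (Finset.mem_univ i)
  rw [h1] at h2
  rw [abs_le]
  constructor <;> nlinarith

lemma isCompact_Stf (n k : ℕ) : IsCompact (Stf n k) := by
  have h1 : IsCompact (Set.pi Set.univ (fun _ : Fin n => Set.pi Set.univ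
      (fun _ : Fin k => Set.Icc (-1 : ℝ) 1))) :=
    isCompact_univ_pi fun _ => isCompact_univ_pi fun _ => isCompact_Icc
  refine IsCompact.of_isClosed_subset (s := (Set.pi Set.univ (fun _ : Fin n => Set.pi Set.univ
      (fun _ : Fin k => Set.Icc (-1 : ℝ) 1)) : Set (Matrix (Fin n) (Fin k) ℝ))) h1 ?_ ?_
  · have : Continuous fun U : Matrix (Fin n) (Fin k) ℝ => Uᵀ * U :=
      (continuous_id.matrix_transpose).matrix_mul continuous_id
    exact isClosed_eq this continuous_const
  · intro U hU i _ l _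
    exact abs_le.1 (entry_le hU i l)

lemma norm_openSec {n k : ℕ} {U : Matrix (Fin n) (Fin k) ℝ} (hU : Uᵀ * U = 1) {x : Fin k → ℝ}
    (hx : x ∈ openSec U) (l : Fin k) : |x l| ≤ √n / 2 := by
  have h1 := dot_mulVec_self U hU x
  simp only [dotProduct] at h1
  have h2 : ∑ i, (U *ᵥ x) i * (U *ᵥ x) i ≤ ∑ _i : Fin n, (1 / 4 : ℝ) := by
    refine Finset.sum_le_sum fun i _ => ?_
    have h3 := abs_lt.1 (hx i)
    nlinarith [h3.1, h3.2]
  rw [Finset.sum_const, Finset.card_univ, Fintype.card_fin, nsmul_eq_mul] at h2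
  have h4 : x l * x l ≤ ∑ l, x l * x l :=
    Finset.single_le_sum (f := fun l => x l * x l) (fun i _ => mul_self_nonneg _)
      (Finset.mem_univ l)
  have h5 : x l ^ 2 ≤ (√n / 2) ^ 2 := by
    rw [div_pow, Real.sq_sqrt (Nat.cast_nonneg n)]
    nlinarith
  exact abs_le_of_sq_le_sq h5 (by positivity)

lemma openSec_subset {n k : ℕ} {U : Matrix (Fin n) (Fin k) ℝ} (hU : Uᵀ * U = 1) :
    openSec U ⊆ Set.pi Set.univ (fun _ : Fin k => Set.Icc (-(√n / 2)) (√n / 2)) :=
  fun x hx l _ => abs_le.1 (norm_openSec hU hx l)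

lemma volume_cube (n k : ℕ) : volume (Set.pi Set.univ (fun _ : Fin k =>
    Set.Icc (-(√n / 2)) (√n / 2))) = ENNReal.ofReal (√n ^ k) := by
  rw [volume_pi_pi]
  simp only [Real.volume_Icc, Finset.prod_const, Finset.card_univ, Fintype.card_fin]
  rw [← ENNReal.ofReal_pow (by have := Real.sqrt_nonneg (n : ℝ); linarith)]
  congr 2
  ring

lemma vol_sq_le_pow {n k : ℕ} {U : Matrix (Fin n) (Fin k) ℝ} (hU : Uᵀ * U = 1) :
    vol U ^ 2 ≤ (n : ℝ) ^ k := by
  have h1 := measure_mono (μ := volume) (openSec_subset hU)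
  rw [volume_cube] at h1
  have h2 : vol U ≤ √n ^ k := ENNReal.toReal_le_of_le_ofReal (by positivity) h1
  have h3 : 0 ≤ vol U := ENNReal.toReal_nonneg
  calc vol U ^ 2 ≤ (√n ^ k) ^ 2 := pow_le_pow_left₀ h3 h2 2
    _ = (n : ℝ) ^ k := by
      rw [← pow_mul, mul_comm, pow_mul, Real.sq_sqrt (Nat.cast_nonneg n)]

lemma continuousOn_vol (n k : ℕ) : ContinuousOn (fun U => vol U) (Stf n k) := by
  intro U₀ hU₀
  have hvol : ∀ U : Matrix (Fin n) (Fin k) ℝ,
      vol U = ∫ x, (openSec U).indicator (fun _ => (1 : ℝ)) x := by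
    intro U
    rw [integral_indicator (isOpen_openSec U).measurableSet, setIntegral_const, smul_eq_mul,
      mul_one]
    rfl
  set K : Set (Fin k → ℝ) := Set.pi Set.univ (fun _ : Fin k => Set.Icc (-(√n / 2)) (√n / 2))
    with hK
  have hKm : MeasurableSet K := MeasurableSet.univ_pi fun _ => measurableSet_Icc
  have hKv : volume K ≠ ∞ := by rw [hK, volume_cube]; exact ENNReal.ofReal_ne_top
  have hnull : volume (closedSec U₀ \ openSec U₀) = 0 := by
    have hsub : openSec U₀ ⊆ closedSec U₀ := fun x hx i => (hx i).le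
    rw [measure_sdiff hsub (isOpen_openSec U₀).measurableSet.nullMeasurableSet
      (volume_openSec_ne_top U₀ hU₀), volume_closedSec, tsub_self]
  have : FirstCountableTopology (Matrix (Fin n) (Fin k) ℝ) :=
    inferInstanceAs (FirstCountableTopology (Fin n → Fin k → ℝ))
  have key : ContinuousWithinAt (fun U : Matrix (Fin n) (Fin k) ℝ =>
      ∫ x, (openSec U).indicator (fun _ => (1 : ℝ)) x) (Stf n k) U₀ := by
    refine continuousWithinAt_of_dominated (bound := K.indicator fun _ => (1 : ℝ)) ?_ ?_ ?_ ?_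
    · exact Eventually.of_forall fun U => ((measurable_const.indicator
        (isOpen_openSec U).measurableSet)).aestronglyMeasurable
    · filter_upwards [self_mem_nhdsWithin] with U hU
      refine Eventually.of_forall fun x => ?_
      by_cases hx : x ∈ openSec U
      · rw [Set.indicator_of_mem hx, Set.indicator_of_mem (openSec_subset hU hx)]
        simp
      · rw [Set.indicator_of_notMem hx, norm_zero]
        exact Set.indicator_nonneg (fun _ _ => zero_le_one) _
    · rw [integrable_indicator_iff hKm]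
      exact integrableOn_const hKv
    · have h1 : ∀ᵐ x ∂(volume : Measure (Fin k → ℝ)), x ∉ closedSec U₀ \ openSec U₀ :=
        measure_eq_zero_iff_ae_notMem.1 hnull
      filter_upwards [h1] with x hx
      have hcont : ∀ i, Continuous fun U : Matrix (Fin n) (Fin k) ℝ => |(U *ᵥ x) i| := fun i =>
        ((continuous_apply i).comp (Continuous.matrix_mulVec continuous_id continuous_const)).abs
      by_cases hx1 : x ∈ openSec U₀
      · have hev : ∀ᶠ U in 𝓝 U₀, x ∈ openSec U := by
          have : ∀ i, ∀ᶠ U in 𝓝 U₀, |(U *ᵥ x) i| < 1 / 2 := fun i =>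
            (hcont i).continuousAt.eventually_lt continuousAt_const (hx1 i)
          exact (Filter.eventually_all.2 this).mono fun U h i => h i
        refine ContinuousAt.continuousWithinAt ?_
        refine ContinuousAt.congr (f := fun _ => (1 : ℝ)) continuousAt_const ?_
        filter_upwards [hev] with U hU
        rw [Set.indicator_of_mem hU]
      · have hx2 : x ∉ closedSec U₀ := fun h => hx ⟨h, hx1⟩
        obtain ⟨i, hi⟩ : ∃ i, 1 / 2 < |(U₀ *ᵥ x) i| := by
          by_contra hcon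
          push Not at hcon
          exact hx2 hcon
        have hev : ∀ᶠ U in 𝓝 U₀, 1 / 2 < |(U *ᵥ x) i| :=
          continuousAt_const.eventually_lt (hcont i).continuousAt hi
        refine ContinuousAt.continuousWithinAt ?_
        refine ContinuousAt.congr (f := fun _ => (0 : ℝ)) continuousAt_const ?_
        filter_upwards [hev] with U hU
        have hn : x ∉ openSec U := fun h => absurd (h i) (not_lt.2 hU.le)
        rw [Set.indicator_of_notMem hn]
  have heq : (fun U : Matrix (Fin n) (Fin k) ℝ => vol U) =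
      fun U => ∫ x, (openSec U).indicator (fun _ => (1 : ℝ)) x := funext hvol
  rw [heq]
  exact key

/-- **Existence of the maximiser.** -/
theorem exists_maximiser (m k : ℕ) (hm : 1 ≤ m) :
    ∃ (n : ℕ) (U : Matrix (Fin n) (Fin k) ℝ), Uᵀ * U = 1 ∧ IsMax m U := by
  classical
  have h0 : (0 : ℝ) < m := by exact_mod_cast hm
  set q : ℝ := (m : ℝ) / (m + 1) with hq
  have hq0 : 0 < q := by positivity
  have hq1 : q < 1 := by rw [hq, div_lt_one (by positivity)]; linarith
  -- the value at `n = k`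
  have hone : (1 : Matrix (Fin k) (Fin k) ℝ)ᵀ * 1 = 1 := by rw [transpose_one, Matrix.one_mul]
  have hv1 : 0 < vol (1 : Matrix (Fin k) (Fin k) ℝ) ^ 2 * q ^ k := by
    have := vol_pos _ hone
    positivity
  -- the tail
  have htail : Tendsto (fun n : ℕ => (n : ℝ) ^ k * q ^ n) atTop (𝓝 0) :=
    tendsto_pow_const_mul_const_pow_of_lt_one k hq0.le hq1
  obtain ⟨N, hN⟩ := (Metric.tendsto_atTop.1 htail) _ hv1
  -- the maximum for a fixed `n`
  have hfix : ∀ n : ℕ, (Stf n k).Nonempty → ∃ U ∈ Stf n k, ∀ V ∈ Stf n k, vol V ≤ vol U := by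
    intro n hne
    obtain ⟨U, hU, hmax⟩ := (isCompact_Stf n k).exists_isMaxOn hne (continuousOn_vol n k)
    exact ⟨U, hU, fun V hV => hmax hV⟩
  -- the finite maximum
  set I : Finset ℕ := (Finset.range (N + k + 1)).filter fun n => (Stf n k).Nonempty with hI
  have hkI : k ∈ I := by
    rw [hI, Finset.mem_filter, Finset.mem_range]
    exact ⟨by omega, ⟨1, hone⟩⟩
  choose! W hW1 hW2 using hfix
  obtain ⟨n₀, hn₀, hmax⟩ := Finset.exists_max_image I (fun n => vol (W n) ^ 2 * q ^ n) ⟨k, hkI⟩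
  have hne₀ : (Stf n₀ k).Nonempty := (Finset.mem_filter.1 hn₀).2
  refine ⟨n₀, W n₀, hW1 n₀ hne₀, ?_⟩
  intro n V hV
  have hne : (Stf n k).Nonempty := ⟨V, hV⟩
  have hVnn : 0 ≤ vol V := ENNReal.toReal_nonneg
  by_cases hn : n < N + k + 1
  · have hnI : n ∈ I := by
      rw [hI, Finset.mem_filter, Finset.mem_range]
      exact ⟨hn, hne⟩
    refine le_trans ?_ (hmax n hnI)
    exact mul_le_mul_of_nonneg_right (pow_le_pow_left₀ hVnn (hW2 n hne V hV) 2) (pow_pos hq0 n).le
  · have h1 : vol V ^ 2 * q ^ n ≤ (n : ℝ) ^ k * q ^ n :=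
      mul_le_mul_of_nonneg_right (vol_sq_le_pow hV) (pow_pos hq0 n).le
    have h2 := hN n (by omega)
    rw [Real.dist_eq, sub_zero, abs_of_nonneg (by positivity)] at h2
    have h3 : vol (1 : Matrix (Fin k) (Fin k) ℝ) ^ 2 * q ^ k ≤ vol (W k) ^ 2 * q ^ k :=
      mul_le_mul_of_nonneg_right (pow_le_pow_left₀ ENNReal.toReal_nonneg
        (hW2 k ⟨1, hone⟩ 1 hone) 2) (pow_pos hq0 k).le
    exact (h1.trans h2.le).trans (h3.trans (hmax k hkI))

end Pool.Agent.Lib.MP_589a62_gt.Full
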