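import Pool.Agent.Lib.MP_589a62_gt.Full.Glue
import Pool.Agent.Lib.MP_589a62_gt.Full.Exist

/-!
# From the bound for matrices to the sections of the cube
-/

set_option autoImplicit false

open MeasureTheory
open scoped ENNReal

namespace Pool.Agent.Lib.MP_589a62_gt.Full

/-- If the gap bound holds for all maximisers with the parameter `n / k`, then the volume of a
matrix section is at most the conjectured one. -/
theorem vol_sq_le_maxSq {n k : ℕ} (hk : 0 < k) (hkn : k ≤ n)
    (hmax : ∀ (n' : ℕ) (U : Matrix (Fin n') (Fin k) ℝ), U.transpose * U = 1 → IsMax (n / k) U →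
      vol U ^ 2 ≤ BB (n / k) n' k)
    (V : Matrix (Fin n) (Fin k) ℝ) (hV : V.transpose * V = 1) : vol V ^ 2 ≤ maxSq n k := by
  have hq : 1 ≤ n / k := (Nat.one_le_div_iff hk).2 hkn
  rw [← BB_eq_maxSq hk hkn]
  exact all_of_max hq k (exists_maximiser _ k hq) hmax n V hV

/-- **The value of the maximal section volume**, from the bound for matrices. -/
theorem isGreatest_of_bound {n k : ℕ} (hk : 0 < k) (hkn : k ≤ n)
    (hbound : ∀ V : Matrix (Fin n) (Fin k) ℝ, V.transpose * V = 1 → vol V ^ 2 ≤ maxSq n k) :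
    IsGreatest
      {v : ℝ≥0∞ | ∃ S : Submodule ℝ (EuclideanSpace ℝ (Fin n)), Module.finrank ℝ S = k ∧
        v = Measure.euclideanHausdorffMeasure k
          ((S : Set (EuclideanSpace ℝ (Fin n))) ∩ {x | ∀ i, |x i| ≤ 1 / 2})}
      (ENNReal.ofReal
        (√(((n / k : ℕ) : ℝ) ^ (k - n % k) * (((n / k : ℕ) : ℝ) + 1) ^ (n % k)))) := by
  change IsGreatest {v : ℝ≥0∞ | ∃ S : Submodule ℝ (EuclideanSpace ℝ (Fin n)),
      Module.finrank ℝ S = k ∧ v = Measure.euclideanHausdorffMeasure k
          ((S : Set (EuclideanSpace ℝ (Fin n))) ∩ unitCube n)}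
      (ENNReal.ofReal (√(maxSq n k)))
  constructor
  · -- attained
    set j : Fin n → Fin k := fun i => ⟨(i : ℕ) % k, Nat.mod_lt _ hk⟩ with hj
    have hcard := fun l => card_mod (n := n) hk l
    have hq1 : 1 ≤ n / k := (Nat.one_le_div_iff hk).2 hkn
    have hsurj : Function.Surjective j := by
      intro l
      have h1 : 0 < (Finset.univ.filter fun i => j i = l).card := by
        rcases hcard l with h | h
        · rw [hj, h]; omega
        · rw [hj, h]; omega
      obtain ⟨i, hi⟩ := Finset.card_pos.1 h1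
      exact ⟨i, (Finset.mem_filter.1 hi).2⟩
    have hfin := finrank_diag j hsurj
    refine ⟨LinearMap.range (diagMap j), hfin, ?_⟩
    obtain ⟨φ, hφ⟩ := exists_isometry (LinearMap.range (diagMap j)) hfin
    have hvol0 : 0 ≤ vol (matOf φ) := ENNReal.toReal_nonneg
    have hv : vol (matOf φ) ^ 2 = maxSq n k := by
      refine vol_of_product hk hkn φ j (fun _ => 1) (fun _ => Or.inl rfl) hcard fun x => ?_
      have hx : φ x ∈ LinearMap.range (diagMap j) := by
        rw [← SetLike.mem_coe, ← hφ]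
        exact ⟨x, rfl⟩
      obtain ⟨y, hy⟩ := hx
      refine ⟨y, fun i => ?_⟩
      rw [one_mul, ← hy]
      rfl
    rw [measure_section φ _ hφ, ← hv, Real.sqrt_sq hvol0]
  · rintro v ⟨S, hS, rfl⟩
    obtain ⟨φ, hφ⟩ := exists_isometry S hS
    rw [measure_section φ S hφ]
    exact ENNReal.ofReal_le_ofReal (Real.le_sqrt_of_sq_le (hbound (matOf φ) (matOf_orth φ)))

end Pool.Agent.Lib.MP_589a62_gt.Full
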