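import Pool.Agent.Lib.MP_589a62_gt.Full.One2
import Pool.Agent.Lib.MP_589a62_gt.Full.Final

/-!
# Assembly of the case `m = 2`
-/

set_option autoImplicit false
set_option linter.unusedVariables false

open Matrix Finset Real

namespace Pool.Agent.Lib.MP_589a62_gt.Full

variable {n k : ℕ}

lemma xx_self (U : Matrix (Fin n) (Fin k) ℝ) {i : Fin n} (hc : 0 < rowSq U i) : xx U i i = 1 := by
  unfold xx
  rw [kk_self, sq]
  exact div_self (mul_pos hc hc).ne'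

lemma inC_eq (U : Matrix (Fin n) (Fin k) ℝ) {i : Fin n} (hc : 0 < rowSq U i)
    {C : Finset (Fin n)} (hi : i ∈ C) :
    inC U C i = ∑ j ∈ C, kk U i j * (1 - xx U i j) := by
  rw [← Finset.add_sum_erase _ _ hi, xx_self U hc, sub_self, mul_zero, zero_add]
  rfl

theorem max_two_of (U : Matrix (Fin n) (Fin k) ℝ) (hU : Uᵀ * U = 1) (hmax : IsMax 2 U)
    (S2 : ∀ i j, prr (nearG U (7 / 10)) i j → ∃ τ z E E' : ℝ, 0 ≤ τ ∧ τ ≤ 1 ∧ 1 / 5 ≤ z ∧ z ≤ 1 ∧
      0 ≤ E ∧ E ≤ 1 ∧ 0 ≤ E' ∧ E' ≤ 1 ∧ τ * (kk U i j / rowSq U i) ≤ z ∧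
      τ * (kk U j i / rowSq U j) ≤ z ∧
      leak U i j ≤ E * (1 - τ * (kk U i j / rowSq U i) / z) ∧
      leak U j i ≤ E' * (1 - τ * (kk U j i / rowSq U j) / z) ∧
      Large.gap 2 (rowSq U i) + Large.gap 2 (rowSq U j) ≤
        τ * kk U i j * (1 - xx U i j) * RC z + 1 / 2 * RD E * outS U i j +
          1 / 2 * RD E' * outS U j i)
    (S3 : ∀ C : Finset (Fin n), 3 ≤ C.card →
      (∀ i ∈ C, ∀ l, (nearG U (7 / 10)).Adj i l → l ∈ C) →
      (∀ i ∈ C, ∀ j ∈ C, (nearG U (7 / 10)).Reachable i j) →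
      ∑ i ∈ C, Large.gap 2 (rowSq U i) ≤ ∑ i ∈ C,
        (1 / 2 * RC (1 - rowSq U i) * (∑ j ∈ C, kk U i j * (1 - xx U i j)) +
          1 / 2 * RD (1 - rowSq U i) * ∑ j ∈ Cᶜ, kk U i j * (1 - xx U i j))) :
    vol U ^ 2 ≤ BB 2 n k := by
  have hm1 : 1 ≤ 2 := by norm_num
  have hlo : ∀ i, 1 / 3 ≤ rowSq U i := fun i => by
    have := crit_lower hm1 U hU hmax i
    norm_num at this ⊢
    linarith
  have hup : ∀ i, rowSq U i ≤ 1 / 2 := fun i => by
    have := crit_upper hm1 U hU hmax i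
    norm_num at this ⊢
    linarith
  have hc : ∀ i, 0 < rowSq U i := fun i => lt_of_lt_of_le (by norm_num) (hlo i)
  obtain ⟨t, T, σ, r, h1, h2⟩ := FI_two (m := 2) U hU hc hup (nearG U (7 / 10))
    (fun i hi => H1_two U hU hlo hup i fun j hj => by
      by_contra hcon
      push Not at hcon
      exact hi j ⟨hj.symm, hcon.le⟩)
    S2
    (fun C h3 hcl hre => by
      refine (S3 C h3 hcl hre).trans (le_of_eq (Finset.sum_congr rfl fun i hi => ?_))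
      rw [inC_eq U (hc i) hi]
      rfl)
  exact vol_sq_le_BB hm1 U hU hc h1 h2

/-- The final statement from the three remaining cases. -/
theorem final_of (h2 : ∀ {n k : ℕ} (U : Matrix (Fin n) (Fin k) ℝ), Uᵀ * U = 1 → IsMax 2 U →
      vol U ^ 2 ≤ BB 2 n k)
    (h3 : ∀ {n k : ℕ} (U : Matrix (Fin n) (Fin k) ℝ), Uᵀ * U = 1 → IsMax 3 U →
      vol U ^ 2 ≤ BB 3 n k)
    (h4 : ∀ {n k : ℕ} (U : Matrix (Fin n) (Fin k) ℝ), Uᵀ * U = 1 → IsMax 4 U →
      vol U ^ 2 ≤ BB 4 n k) {n k : ℕ} (hk : 0 < k) (hn : 2 * k ≤ n)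
    (V : Matrix (Fin n) (Fin k) ℝ) (hV : Vᵀ * V = 1) : vol V ^ 2 ≤ maxSq n k := by
  have hkn : k ≤ n := by omega
  have hq : 2 ≤ n / k := (Nat.le_div_iff_mul_le hk).2 hn
  refine vol_sq_le_maxSq hk hkn (fun n' U hU hmax => ?_) V hV
  generalize n / k = q at hq hmax ⊢
  rcases hq.eq_or_lt with h | h
  · subst h; exact h2 U hU hmax
  rcases (Nat.succ_le_of_lt h).eq_or_lt with h | h
  · have : q = 3 := h.symm
    subst this; exact h3 U hU hmax
  rcases (Nat.succ_le_of_lt h).eq_or_lt with h | h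
  · have : q = 4 := h.symm
    subst this; exact h4 U hU hmax
  · exact max_large h U hU hmax

end Pool.Agent.Lib.MP_589a62_gt.Full
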