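import Mathlib

/-!
# Numerical lemmas for the components with at least four rows (`m = 2`)

`w = 3 c - 1 ∈ [0, 1/2]`; certificates in the Bernstein basis.
-/

set_option autoImplicit false

namespace Pool.Agent.Lib.MP_589a62_gt.Full.Clus4

lemma n_rc (w : ℝ) (h0 : (0) ≤ w) (h1 : w ≤ (1/2)) :
    0 ≤ ((2043/10000 - 1358/10000 * ((2 - w) / 3) + 614/10000 * ((2 - w) / 3) ^ 2 - 373/10000 * ((2 - w) / 3) ^ 3 + 201/10000 * ((2 - w) / 3) ^ 4 - 129/10000 * ((2 - w) / 3) ^ 5) - (661/5000 + 31/1000 * w)) := by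
  have hA : 0 ≤ w - (0) := by linarith
  have hB : 0 ≤ (1/2) - w := by linarith
  have e : ((2043/10000 - 1358/10000 * ((2 - w) / 3) + 614/10000 * ((2 - w) / 3) ^ 2 - 373/10000 * ((2 - w) / 3) ^ 3 + 201/10000 * ((2 - w) / 3) ^ 4 - 129/10000 * ((2 - w) / 3) ^ 5) - (661/5000 + 31/1000 * w)) =
      (122/50625) * ((1/2) - w)^5 +
      (166/16875) * (w - (0)) * ((1/2) - w)^4 +
      (58/3375) * (w - (0))^2 * ((1/2) - w)^3 +
      (511/22500) * (w - (0))^3 * ((1/2) - w)^2 +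
      (103/5000) * (w - (0))^4 * ((1/2) - w) +
      (77/10000) * (w - (0))^5 := by ring
  rw [e]; positivity

lemma n_rd (w : ℝ) (h0 : (0) ≤ w) (h1 : w ≤ (1/2)) :
    0 ≤ (3/10 * (2435/10000 - 2415/10000 * ((2 - w) / 3) + 1457/10000 * ((2 - w) / 3) ^ 2 - 1179/10000 * ((2 - w) / 3) ^ 3 + 848/10000 * ((2 - w) / 3) ^ 4 - 723/10000 * ((2 - w) / 3) ^ 5) - (717/20000 + 67/4000 * w)) := by
  have hA : 0 ≤ w - (0) := by linarith
  have hB : 0 ≤ (1/2) - w := by linarith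
  have e : (3/10 * (2435/10000 - 2415/10000 * ((2 - w) / 3) + 1457/10000 * ((2 - w) / 3) ^ 2 - 1179/10000 * ((2 - w) / 3) ^ 3 + 848/10000 * ((2 - w) / 3) ^ 4 - 723/10000 * ((2 - w) / 3) ^ 5) - (717/20000 + 67/4000 * w)) =
      (14/28125) * ((1/2) - w)^5 +
      (1268/84375) * (w - (0)) * ((1/2) - w)^4 +
      (3857/112500) * (w - (0))^2 * ((1/2) - w)^3 +
      (407/15000) * (w - (0))^3 * ((1/2) - w)^2 +
      (197/25000) * (w - (0))^4 * ((1/2) - w) +
      (59/100000) * (w - (0))^5 := by ring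
  rw [e]; positivity

lemma n_rcd (w : ℝ) (h0 : (0) ≤ w) (h1 : w ≤ (1/2)) :
    0 ≤ ((2043/10000 - 1358/10000 * ((2 - w) / 3) + 614/10000 * ((2 - w) / 3) ^ 2 - 373/10000 * ((2 - w) / 3) ^ 3 + 201/10000 * ((2 - w) / 3) ^ 4 - 129/10000 * ((2 - w) / 3) ^ 5) - (2435/10000 - 2415/10000 * ((2 - w) / 3) + 1457/10000 * ((2 - w) / 3) ^ 2 - 1179/10000 * ((2 - w) / 3) ^ 3 + 848/10000 * ((2 - w) / 3) ^ 4 - 723/10000 * ((2 - w) / 3) ^ 5)) := by
  have hA : 0 ≤ w - (0) := by linarith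
  have hB : 0 ≤ (1/2) - w := by linarith
  have e : ((2043/10000 - 1358/10000 * ((2 - w) / 3) + 614/10000 * ((2 - w) / 3) ^ 2 - 373/10000 * ((2 - w) / 3) ^ 3 + 201/10000 * ((2 - w) / 3) ^ 4 - 129/10000 * ((2 - w) / 3) ^ 5) - (2435/10000 - 2415/10000 * ((2 - w) / 3) + 1457/10000 * ((2 - w) / 3) ^ 2 - 1179/10000 * ((2 - w) / 3) ^ 3 + 848/10000 * ((2 - w) / 3) ^ 4 - 723/10000 * ((2 - w) / 3) ^ 5)) =
      (20612/50625) * ((1/2) - w)^5 +
      (80717/50625) * (w - (0)) * ((1/2) - w)^4 +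
      (80243/33750) * (w - (0))^2 * ((1/2) - w)^3 +
      (3023/1875) * (w - (0))^3 * ((1/2) - w)^2 +
      (437/1000) * (w - (0))^4 * ((1/2) - w) +
      (37/2500) * (w - (0))^5 := by ring
  rw [e]; positivity

private lemma n_triv_0 (w : ℝ) (h0 : (0) ≤ w) (h1 : w ≤ (1/4)) :
    0 ≤ ((717/20000 + 67/4000 * w) * (((1 + w) / 3) * (1 - ((1 + w) / 3))) - (360659/5000000 * w - w ^ 2 / 6 + w ^ 3 / 18)) := by
  have hA : 0 ≤ w - (0) := by linarith
  have hB : 0 ≤ (1/4) - w := by linarith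
  have e : ((717/20000 + 67/4000 * w) * (((1 + w) / 3) * (1 - ((1 + w) / 3))) - (360659/5000000 * w - w ^ 2 / 6 + w ^ 3 / 18)) =
      (956/1875) * ((1/4) - w)^3 +
      (1402819/2812500) * (w - (0)) * ((1/4) - w)^2 +
      (354763/2812500) * (w - (0))^2 * ((1/4) - w) +
      (598559/7500000) * (w - (0))^3 := by ring
  rw [e]; positivity

private lemma n_triv_1 (w : ℝ) (h0 : (1/4) ≤ w) (h1 : w ≤ (1/2)) :
    0 ≤ ((717/20000 + 67/4000 * w) * (((1 + w) / 3) * (1 - ((1 + w) / 3))) - (360659/5000000 * w - w ^ 2 / 6 + w ^ 3 / 18)) := by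
  have hA : 0 ≤ w - (1/4) := by linarith
  have hB : 0 ≤ (1/2) - w := by linarith
  have e : ((717/20000 + 67/4000 * w) * (((1 + w) / 3) * (1 - ((1 + w) / 3))) - (360659/5000000 * w - w ^ 2 / 6 + w ^ 3 / 18)) =
      (598559/7500000) * ((1/2) - w)^3 +
      (3967979/11250000) * (w - (1/4)) * ((1/2) - w)^2 +
      (356971/375000) * (w - (1/4))^2 * ((1/2) - w) +
      (1748263/2812500) * (w - (1/4))^3 := by ring
  rw [e]; positivity

lemma n_triv (w : ℝ) (h0 : (0) ≤ w) (h1 : w ≤ (1/2)) :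
    0 ≤ ((717/20000 + 67/4000 * w) * (((1 + w) / 3) * (1 - ((1 + w) / 3))) - (360659/5000000 * w - w ^ 2 / 6 + w ^ 3 / 18)) := by
  rcases le_total w (1/4) with h | h
  · exact n_triv_0 w (by linarith) h
  exact n_triv_1 w (by linarith) h1

private lemma n_t4_0 (w : ℝ) (h0 : (0) ≤ w) (h1 : w ≤ (1/8)) :
    0 ≤ ((1 + w) * (661/5000 + 31/1000 * w) * (182/625 + 2681/1250 * w) - 3 * (4 + w) * (360659/5000000 * w - w ^ 2 / 6 + w ^ 3 / 18)) := by
  have hA : 0 ≤ w - (0) := by linarith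
  have hB : 0 ≤ (1/8) - w := by linarith
  have e : ((1 + w) * (661/5000 + 31/1000 * w) * (182/625 + 2681/1250 * w) - 3 * (4 + w) * (360659/5000000 * w - w ^ 2 / 6 + w ^ 3 / 18)) =
      (61594624/390625) * ((1/8) - w)^4 +
      (139475456/390625) * (w - (0)) * ((1/8) - w)^3 +
      (102425203/390625) * (w - (0))^2 * ((1/8) - w)^2 +
      (194936869/2343750) * (w - (0))^3 * ((1/8) - w) +
      (7880003/390625) * (w - (0))^4 := by ring
  rw [e]; positivity

private lemma n_t4_1 (w : ℝ) (h0 : (1/8) ≤ w) (h1 : w ≤ (1/4)) :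
    0 ≤ ((1 + w) * (661/5000 + 31/1000 * w) * (182/625 + 2681/1250 * w) - 3 * (4 + w) * (360659/5000000 * w - w ^ 2 / 6 + w ^ 3 / 18)) := by
  have hA : 0 ≤ w - (1/8) := by linarith
  have hB : 0 ≤ (1/4) - w := by linarith
  have e : ((1 + w) * (661/5000 + 31/1000 * w) * (182/625 + 2681/1250 * w) - 3 * (4 + w) * (360659/5000000 * w - w ^ 2 / 6 + w ^ 3 / 18)) =
      (7880003/390625) * ((1/4) - w)^4 +
      (7332131/93750) * (w - (1/8)) * ((1/4) - w)^3 +
      (96608406/390625) * (w - (1/8))^2 * ((1/4) - w)^2 +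
      (132511714/390625) * (w - (1/8))^3 * ((1/4) - w) +
      (35105248/234375) * (w - (1/8))^4 := by ring
  rw [e]; positivity

private lemma n_t4_2 (w : ℝ) (h0 : (1/4) ≤ w) (h1 : w ≤ (1/2)) :
    0 ≤ ((1 + w) * (661/5000 + 31/1000 * w) * (182/625 + 2681/1250 * w) - 3 * (4 + w) * (360659/5000000 * w - w ^ 2 / 6 + w ^ 3 / 18)) := by
  have hA : 0 ≤ w - (1/4) := by linarith
  have hB : 0 ≤ (1/2) - w := by linarith
  have e : ((1 + w) * (661/5000 + 31/1000 * w) * (182/625 + 2681/1250 * w) - 3 * (4 + w) * (360659/5000000 * w - w ^ 2 / 6 + w ^ 3 / 18)) =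
      (2194078/234375) * ((1/2) - w)^4 +
      (109270383/1562500) * (w - (1/4)) * ((1/2) - w)^3 +
      (290173773/1562500) * (w - (1/4))^2 * ((1/2) - w)^2 +
      (232033024/1171875) * (w - (1/4))^3 * ((1/2) - w) +
      (28396593/390625) * (w - (1/4))^4 := by ring
  rw [e]; positivity

lemma n_t4 (w : ℝ) (h0 : (0) ≤ w) (h1 : w ≤ (1/2)) :
    0 ≤ ((1 + w) * (661/5000 + 31/1000 * w) * (182/625 + 2681/1250 * w) - 3 * (4 + w) * (360659/5000000 * w - w ^ 2 / 6 + w ^ 3 / 18)) := by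
  rcases le_total w (1/8) with h | h
  · exact n_t4_0 w (by linarith) h
  rcases le_total w (1/4) with h | h
  · exact n_t4_1 w (by linarith) h
  exact n_t4_2 w (by linarith) h1

private lemma n_h1a_0 (w : ℝ) (h0 : (0) ≤ w) (h1 : w ≤ (1/4)) :
    0 ≤ (((1 + w) * (4 + w)) * (((717/20000 + 67/4000 * w) * (((1 + w) / 3) * (1 - ((1 + w) / 3))) - (11449/90000) * (717/20000 + 67/4000 * w) - (360659/5000000 * w - w ^ 2 / 6 + w ^ 3 / 18)) + (2/5) / 3 * ((1 + w) / 3) * ((3/5) * (661/5000 + 31/1000 * w) - (717/20000 + 67/4000 * w))) + (11449/100000) * (661/5000 + 31/1000 * w) * (6 * w - 42/100) + (0) * (11449/900000) * (661/5000 + 31/1000 * w) * ((1 + w) * (4 + w))) := by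
  have hA : 0 ≤ w - (0) := by linarith
  have hB : 0 ≤ (1/4) - w := by linarith
  have e : (((1 + w) * (4 + w)) * (((717/20000 + 67/4000 * w) * (((1 + w) / 3) * (1 - ((1 + w) / 3))) - (11449/90000) * (717/20000 + 67/4000 * w) - (360659/5000000 * w - w ^ 2 / 6 + w ^ 3 / 18)) + (2/5) / 3 * ((1 + w) / 3) * ((3/5) * (661/5000 + 31/1000 * w) - (717/20000 + 67/4000 * w))) + (11449/100000) * (661/5000 + 31/1000 * w) * (6 * w - 42/100) + (0) * (11449/900000) * (661/5000 + 31/1000 * w) * ((1 + w) * (4 + w))) =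
      (2249347586/146484375) * ((1/4) - w)^5 +
      (78877664/1953125) * (w - (0)) * ((1/4) - w)^4 +
      (609008837/19531250) * (w - (0))^2 * ((1/4) - w)^3 +
      (12421703587/937500000) * (w - (0))^3 * ((1/4) - w)^2 +
      (2692152379/156250000) * (w - (0))^4 * ((1/4) - w) +
      (7870293807/781250000) * (w - (0))^5 := by ring
  rw [e]; positivity

private lemma n_h1a_1 (w : ℝ) (h0 : (1/4) ≤ w) (h1 : w ≤ (1/2)) :
    0 ≤ (((1 + w) * (4 + w)) * (((717/20000 + 67/4000 * w) * (((1 + w) / 3) * (1 - ((1 + w) / 3))) - (11449/90000) * (717/20000 + 67/4000 * w) - (360659/5000000 * w - w ^ 2 / 6 + w ^ 3 / 18)) + (2/5) / 3 * ((1 + w) / 3) * ((3/5) * (661/5000 + 31/1000 * w) - (717/20000 + 67/4000 * w))) + (11449/100000) * (661/5000 + 31/1000 * w) * (6 * w - 42/100) + (0) * (11449/900000) * (661/5000 + 31/1000 * w) * ((1 + w) * (4 + w))) := by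
  have hA : 0 ≤ w - (1/4) := by linarith
  have hB : 0 ≤ (1/2) - w := by linarith
  have e : (((1 + w) * (4 + w)) * (((717/20000 + 67/4000 * w) * (((1 + w) / 3) * (1 - ((1 + w) / 3))) - (11449/90000) * (717/20000 + 67/4000 * w) - (360659/5000000 * w - w ^ 2 / 6 + w ^ 3 / 18)) + (2/5) / 3 * ((1 + w) / 3) * ((3/5) * (661/5000 + 31/1000 * w) - (717/20000 + 67/4000 * w))) + (11449/100000) * (661/5000 + 31/1000 * w) * (6 * w - 42/100) + (0) * (11449/900000) * (661/5000 + 31/1000 * w) * ((1 + w) * (4 + w))) =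
      (7870293807/781250000) * ((1/2) - w)^5 +
      (2609687047/31250000) * (w - (1/4)) * ((1/2) - w)^4 +
      (260972492131/937500000) * (w - (1/4))^2 * ((1/2) - w)^3 +
      (68862676707/156250000) * (w - (1/4))^3 * ((1/2) - w)^2 +
      (25720581147/78125000) * (w - (1/4))^4 * ((1/2) - w) +
      (18238191393/195312500) * (w - (1/4))^5 := by ring
  rw [e]; positivity

lemma n_h1a (w : ℝ) (h0 : (0) ≤ w) (h1 : w ≤ (1/2)) :
    0 ≤ (((1 + w) * (4 + w)) * (((717/20000 + 67/4000 * w) * (((1 + w) / 3) * (1 - ((1 + w) / 3))) - (11449/90000) * (717/20000 + 67/4000 * w) - (360659/5000000 * w - w ^ 2 / 6 + w ^ 3 / 18)) + (2/5) / 3 * ((1 + w) / 3) * ((3/5) * (661/5000 + 31/1000 * w) - (717/20000 + 67/4000 * w))) + (11449/100000) * (661/5000 + 31/1000 * w) * (6 * w - 42/100) + (0) * (11449/900000) * (661/5000 + 31/1000 * w) * ((1 + w) * (4 + w))) := by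
  rcases le_total w (1/4) with h | h
  · exact n_h1a_0 w (by linarith) h
  exact n_h1a_1 w (by linarith) h1

private lemma n_h1b_0 (w : ℝ) (h0 : (0) ≤ w) (h1 : w ≤ (1/4)) :
    0 ≤ (((1 + w) * (4 + w)) * (((717/20000 + 67/4000 * w) * (((1 + w) / 3) * (1 - ((1 + w) / 3))) - (11449/90000) * (717/20000 + 67/4000 * w) - (360659/5000000 * w - w ^ 2 / 6 + w ^ 3 / 18)) + (4/25) / 3 * ((1 + w) / 3) * ((21/25) * (661/5000 + 31/1000 * w) - (717/20000 + 67/4000 * w))) + (11449/100000) * (661/5000 + 31/1000 * w) * (6 * w - 42/100) + (3/10) * (11449/900000) * (661/5000 + 31/1000 * w) * ((1 + w) * (4 + w))) := by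
  have hA : 0 ≤ w - (0) := by linarith
  have hB : 0 ≤ (1/4) - w := by linarith
  have e : (((1 + w) * (4 + w)) * (((717/20000 + 67/4000 * w) * (((1 + w) / 3) * (1 - ((1 + w) / 3))) - (11449/90000) * (717/20000 + 67/4000 * w) - (360659/5000000 * w - w ^ 2 / 6 + w ^ 3 / 18)) + (4/25) / 3 * ((1 + w) / 3) * ((21/25) * (661/5000 + 31/1000 * w) - (717/20000 + 67/4000 * w))) + (11449/100000) * (661/5000 + 31/1000 * w) * (6 * w - 42/100) + (3/10) * (11449/900000) * (661/5000 + 31/1000 * w) * ((1 + w) * (4 + w))) =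
      (2194971146/146484375) * ((1/4) - w)^5 +
      (148476371/3906250) * (w - (0)) * ((1/4) - w)^4 +
      (740656621/29296875) * (w - (0))^2 * ((1/4) - w)^3 +
      (570938399/93750000) * (w - (0))^3 * ((1/4) - w)^2 +
      (759691897/58593750) * (w - (0))^4 * ((1/4) - w) +
      (42531782017/4687500000) * (w - (0))^5 := by ring
  rw [e]; positivity

private lemma n_h1b_1 (w : ℝ) (h0 : (1/4) ≤ w) (h1 : w ≤ (1/2)) :
    0 ≤ (((1 + w) * (4 + w)) * (((717/20000 + 67/4000 * w) * (((1 + w) / 3) * (1 - ((1 + w) / 3))) - (11449/90000) * (717/20000 + 67/4000 * w) - (360659/5000000 * w - w ^ 2 / 6 + w ^ 3 / 18)) + (4/25) / 3 * ((1 + w) / 3) * ((21/25) * (661/5000 + 31/1000 * w) - (717/20000 + 67/4000 * w))) + (11449/100000) * (661/5000 + 31/1000 * w) * (6 * w - 42/100) + (3/10) * (11449/900000) * (661/5000 + 31/1000 * w) * ((1 + w) * (4 + w))) := by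
  have hA : 0 ≤ w - (1/4) := by linarith
  have hB : 0 ≤ (1/2) - w := by linarith
  have e : (((1 + w) * (4 + w)) * (((717/20000 + 67/4000 * w) * (((1 + w) / 3) * (1 - ((1 + w) / 3))) - (11449/90000) * (717/20000 + 67/4000 * w) - (360659/5000000 * w - w ^ 2 / 6 + w ^ 3 / 18)) + (4/25) / 3 * ((1 + w) / 3) * ((21/25) * (661/5000 + 31/1000 * w) - (717/20000 + 67/4000 * w))) + (11449/100000) * (661/5000 + 31/1000 * w) * (6 * w - 42/100) + (3/10) * (11449/900000) * (661/5000 + 31/1000 * w) * ((1 + w) * (4 + w))) =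
      (42531782017/4687500000) * ((1/2) - w)^5 +
      (36454246841/468750000) * (w - (1/4)) * ((1/2) - w)^4 +
      (24872307731/93750000) * (w - (1/4))^2 * ((1/2) - w)^3 +
      (99835528973/234375000) * (w - (1/4))^3 * ((1/2) - w)^2 +
      (2507409587/7812500) * (w - (1/4))^4 * ((1/2) - w) +
      (8938973589/97656250) * (w - (1/4))^5 := by ring
  rw [e]; positivity

lemma n_h1b (w : ℝ) (h0 : (0) ≤ w) (h1 : w ≤ (1/2)) :
    0 ≤ (((1 + w) * (4 + w)) * (((717/20000 + 67/4000 * w) * (((1 + w) / 3) * (1 - ((1 + w) / 3))) - (11449/90000) * (717/20000 + 67/4000 * w) - (360659/5000000 * w - w ^ 2 / 6 + w ^ 3 / 18)) + (4/25) / 3 * ((1 + w) / 3) * ((21/25) * (661/5000 + 31/1000 * w) - (717/20000 + 67/4000 * w))) + (11449/100000) * (661/5000 + 31/1000 * w) * (6 * w - 42/100) + (3/10) * (11449/900000) * (661/5000 + 31/1000 * w) * ((1 + w) * (4 + w))) := by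
  rcases le_total w (1/4) with h | h
  · exact n_h1b_0 w (by linarith) h
  exact n_h1b_1 w (by linarith) h1

private lemma n_h2_0 (w : ℝ) (h0 : (0) ≤ w) (h1 : w ≤ (1/4)) :
    0 ≤ (((1 + w) * (4 + w)) * (((717/20000 + 67/4000 * w) * (((1 + w) / 3) * (1 - ((1 + w) / 3))) - (11449/90000) * (717/20000 + 67/4000 * w) - (360659/5000000 * w - w ^ 2 / 6 + w ^ 3 / 18)) + ((661/5000 + 31/1000 * w) - (717/20000 + 67/4000 * w)) / 15) - 4/100 * (661/5000 + 31/1000 * w) * (4 + w) + (11449/90000) * (661/5000 + 31/1000 * w) * (6 * w - 42/100)) := by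
  have hA : 0 ≤ w - (0) := by linarith
  have hB : 0 ≤ (1/4) - w := by linarith
  have e : (((1 + w) * (4 + w)) * (((717/20000 + 67/4000 * w) * (((1 + w) / 3) * (1 - ((1 + w) / 3))) - (11449/90000) * (717/20000 + 67/4000 * w) - (360659/5000000 * w - w ^ 2 / 6 + w ^ 3 / 18)) + ((661/5000 + 31/1000 * w) - (717/20000 + 67/4000 * w)) / 15) - 4/100 * (661/5000 + 31/1000 * w) * (4 + w) + (11449/90000) * (661/5000 + 31/1000 * w) * (6 * w - 42/100)) =
      (333079708/29296875) * ((1/4) - w)^5 +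
      (175989581/7031250) * (w - (0)) * ((1/4) - w)^4 +
      (169110107/17578125) * (w - (0))^2 * ((1/4) - w)^3 +
      (50879117/62500000) * (w - (0))^3 * ((1/4) - w)^2 +
      (4373277643/281250000) * (w - (0))^4 * ((1/4) - w) +
      (14959584239/1406250000) * (w - (0))^5 := by ring
  rw [e]; positivity

private lemma n_h2_1 (w : ℝ) (h0 : (1/4) ≤ w) (h1 : w ≤ (1/2)) :
    0 ≤ (((1 + w) * (4 + w)) * (((717/20000 + 67/4000 * w) * (((1 + w) / 3) * (1 - ((1 + w) / 3))) - (11449/90000) * (717/20000 + 67/4000 * w) - (360659/5000000 * w - w ^ 2 / 6 + w ^ 3 / 18)) + ((661/5000 + 31/1000 * w) - (717/20000 + 67/4000 * w)) / 15) - 4/100 * (661/5000 + 31/1000 * w) * (4 + w) + (11449/90000) * (661/5000 + 31/1000 * w) * (6 * w - 42/100)) := by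
  have hA : 0 ≤ w - (1/4) := by linarith
  have hB : 0 ≤ (1/2) - w := by linarith
  have e : (((1 + w) * (4 + w)) * (((717/20000 + 67/4000 * w) * (((1 + w) / 3) * (1 - ((1 + w) / 3))) - (11449/90000) * (717/20000 + 67/4000 * w) - (360659/5000000 * w - w ^ 2 / 6 + w ^ 3 / 18)) + ((661/5000 + 31/1000 * w) - (717/20000 + 67/4000 * w)) / 15) - 4/100 * (661/5000 + 31/1000 * w) * (4 + w) + (11449/90000) * (661/5000 + 31/1000 * w) * (6 * w - 42/100)) =
      (14959584239/1406250000) * ((1/2) - w)^5 +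
      (567686463/6250000) * (w - (1/4)) * ((1/2) - w)^4 +
      (169838817589/562500000) * (w - (1/4))^2 * ((1/2) - w)^3 +
      (14784739871/31250000) * (w - (1/4))^3 * ((1/2) - w)^2 +
      (5465137331/15625000) * (w - (1/4))^4 * ((1/2) - w) +
      (11524624787/117187500) * (w - (1/4))^5 := by ring
  rw [e]; positivity

lemma n_h2 (w : ℝ) (h0 : (0) ≤ w) (h1 : w ≤ (1/2)) :
    0 ≤ (((1 + w) * (4 + w)) * (((717/20000 + 67/4000 * w) * (((1 + w) / 3) * (1 - ((1 + w) / 3))) - (11449/90000) * (717/20000 + 67/4000 * w) - (360659/5000000 * w - w ^ 2 / 6 + w ^ 3 / 18)) + ((661/5000 + 31/1000 * w) - (717/20000 + 67/4000 * w)) / 15) - 4/100 * (661/5000 + 31/1000 * w) * (4 + w) + (11449/90000) * (661/5000 + 31/1000 * w) * (6 * w - 42/100)) := by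
  rcases le_total w (1/4) with h | h
  · exact n_h2_0 w (by linarith) h
  exact n_h2_1 w (by linarith) h1

end Pool.Agent.Lib.MP_589a62_gt.Full.Clus4
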