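import Pool.Agent.Lib.MP_589a62_gt.Full.Clus4N
import Pool.Agent.Lib.MP_589a62_gt.Full.Large
import Pool.Agent.Lib.MP_589a62_gt.Full.GoodCD

/-!
# Scalar lemmas for the components with at least four rows (`m = 2`)
-/

set_option autoImplicit false

namespace Pool.Agent.Lib.MP_589a62_gt.Full.Clus4

open Real

/-- Cubic upper bound of the gap, `m = 2`, `w = 3 c - 1`. -/
theorem gap_le_cubic {c : ℝ} (hc : 1 / 3 ≤ c) :
    2 * Large.gap 2 c ≤ 360659 / 5000000 * (3 * c - 1) - (3 * c - 1) ^ 2 / 6 +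
      (3 * c - 1) ^ 3 / 18 := by
  set w : ℝ := 3 * c - 1 with hw
  have hw0 : 0 ≤ w := by rw [hw]; linarith
  have hcw : c = (1 + w) / 3 := by rw [hw]; ring
  have h1w : (0 : ℝ) < 1 + w := by linarith
  have hlog : Real.log c = Real.log (1 + w) - Real.log 3 := by
    rw [hcw, Real.log_div h1w.ne' (by norm_num)]
  have hgap : 2 * Large.gap 2 c = w * (Real.log 3 - Real.log 2) -
      (1 + w) / 3 * Real.log (1 + w) := by
    unfold Large.gap
    rw [hlog, hcw]
    push_cast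
    have e : (2 : ℝ) + 1 = 3 := by norm_num
    rw [e]
    ring
  have h1 := Large.log_ge_pade w hw0
  have h2 : w + w ^ 2 / 2 - w ^ 3 / 6 ≤ (1 + w) * Real.log (1 + w) := by
    have h3 : (1 + w) * (w * (6 + 3 * w) / (6 + 6 * w + w ^ 2)) ≤ (1 + w) * Real.log (1 + w) :=
      mul_le_mul_of_nonneg_left h1 h1w.le
    refine le_trans ?_ h3
    have hD : 0 < 6 + 6 * w + w ^ 2 := by positivity
    rw [← mul_div_assoc, le_div_iff₀ hD]
    have : 0 ≤ w ^ 4 * (1 / 2 + w / 6) := by positivity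
    nlinarith [this]
  have h4 := Real.log_three_lt_d9
  have h5 := Real.log_two_gt_d9
  rw [hgap]
  nlinarith [h2, mul_le_mul_of_nonneg_left (show Real.log 3 - Real.log 2 ≤ 0.4054651085 by linarith) hw0]

lemma RC_ge {c : ℝ} (h0 : 1 / 3 ≤ c) (h1 : c ≤ 1 / 2) :
    661 / 5000 + 31 / 1000 * (3 * c - 1) ≤ RC (1 - c) := by
  have h := n_rc (3 * c - 1) (by linarith) (by linarith)
  unfold RC
  have e : (2 - (3 * c - 1)) / 3 = 1 - c := by ring
  rw [e] at h
  linarith

lemma RD_ge {c : ℝ} (h0 : 1 / 3 ≤ c) (h1 : c ≤ 1 / 2) :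
    717 / 20000 + 67 / 4000 * (3 * c - 1) ≤ 3 / 10 * RD (1 - c) := by
  have h := n_rd (3 * c - 1) (by linarith) (by linarith)
  unfold RD
  have e : (2 - (3 * c - 1)) / 3 = 1 - c := by ring
  rw [e] at h
  linarith

lemma RD_le_RC {c : ℝ} (h0 : 1 / 3 ≤ c) (h1 : c ≤ 1 / 2) : RD (1 - c) ≤ RC (1 - c) := by
  have h := n_rcd (3 * c - 1) (by linarith) (by linarith)
  unfold RD RC
  have e : (2 - (3 * c - 1)) / 3 = 1 - c := by ring
  rw [e] at h
  linarith

/-- The energy of a near mate. -/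
lemma mate {c d y : ℝ} (hc : 0 < c) (hc1 : c ≤ 1) (hd : 0 < d) (hy0 : 0 ≤ y) (hy1 : y ≤ 3 / 10)
    (hB1 : 1 / d ≤ 1 / c + y) (hB2 : 1 / c ≤ 1 / d + y) :
    7 / 10 * (c - d * (1 - y)) / (1 + c) ≤ d * (1 - y) * y := by
  have h1 : c ≤ d + c * d * y := by
    have h := mul_le_mul_of_nonneg_left hB1 (mul_pos hc hd).le
    have e1 : c * d * (1 / d) = c := by field_simp
    have e2 : c * d * (1 / c + y) = d + c * d * y := by field_simp
    linarith
  have h2 : d ≤ c + c * d * y := by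
    have h := mul_le_mul_of_nonneg_left hB2 (mul_pos hc hd).le
    have e1 : c * d * (1 / c) = d := by field_simp
    have e2 : c * d * (1 / d + y) = c + c * d * y := by field_simp
    linarith
  have hcd : 0 < c * d := mul_pos hc hd
  have h3 : 0 ≤ c - d * (1 - y) := by
    nlinarith [mul_nonneg (mul_nonneg hd.le hy0) (sub_nonneg.2 hc1)]
  rw [div_le_iff₀ (by linarith)]
  have h4 : c - d * (1 - y) ≤ d * y * (1 + c) := by nlinarith
  have h5 : 7 / 10 * (c - d * (1 - y)) ≤ (1 - y) * (c - d * (1 - y)) :=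
    mul_le_mul_of_nonneg_right (by linarith) h3
  have h6 : (1 - y) * (c - d * (1 - y)) ≤ (1 - y) * (d * y * (1 + c)) :=
    mul_le_mul_of_nonneg_left h4 (by linarith)
  nlinarith [h5, h6]

/-- A row with two near mates. -/
lemma t4 {c p1 p2 p3 x3 f1 f2 f3 : ℝ} (hc : 1 / 3 ≤ c) (hc2 : c ≤ 1 / 2)
    (h1 : 7 / 10 * (c - p1) / (1 + c) ≤ f1) (h2 : 7 / 10 * (c - p2) / (1 + c) ≤ f2)
    (hp3 : x3 / 3 ≤ p3) (hx3 : 4 / 25 ≤ x3) (hx3' : x3 ≤ 7 / 10) (h3 : p3 * (1 - x3) ≤ f3)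
    (hsum : c + p1 + p2 + p3 ≤ 1) :
    2 * Large.gap 2 c ≤ RC (1 - c) * (c * (f1 + f2 + f3)) := by
  have hg := gap_le_cubic hc
  have hR := RC_ge hc hc2
  have hn := n_t4 (3 * c - 1) (by linarith) (by linarith)
  have h1c : 0 < 1 + c := by linarith
  have hp3' : 4 / 75 ≤ p3 := by linarith
  have hf3 : 28 / 625 ≤ f3 := by
    have : x3 / 3 * (1 - x3) ≤ p3 * (1 - x3) := mul_le_mul_of_nonneg_right hp3 (by linarith)
    nlinarith
  have hF : 7 / 10 * (3 * c - 1 + 4 / 75) / (1 + c) ≤ f1 + f2 := by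
    have e : 7 / 10 * (3 * c - 1 + 4 / 75) / (1 + c) ≤
        7 / 10 * (c - p1) / (1 + c) + 7 / 10 * (c - p2) / (1 + c) := by
      rw [← add_div]
      apply div_le_div_of_nonneg_right _ h1c.le
      linarith
    linarith
  set F := f1 + f2 + f3 with hFdef
  have hF' : 7 / 10 * (3 * c - 1 + 4 / 75) / (1 + c) + 28 / 625 ≤ F := by linarith
  have hF0 : 0 ≤ 7 / 10 * (3 * c - 1 + 4 / 75) / (1 + c) + 28 / 625 := by
    have : 0 ≤ 3 * c - 1 + 4 / 75 := by linarith
    positivity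
  have hRpos : 0 ≤ 661 / 5000 + 31 / 1000 * (3 * c - 1) := by linarith
  have key : 2 * Large.gap 2 c ≤ (661 / 5000 + 31 / 1000 * (3 * c - 1)) *
      (c * (7 / 10 * (3 * c - 1 + 4 / 75) / (1 + c) + 28 / 625)) := by
    refine hg.trans ?_
    have e : (661 / 5000 + 31 / 1000 * (3 * c - 1)) *
        (c * (7 / 10 * (3 * c - 1 + 4 / 75) / (1 + c) + 28 / 625)) =
        ((1 + (3 * c - 1)) * (661 / 5000 + 31 / 1000 * (3 * c - 1)) *
          (182 / 625 + 2681 / 1250 * (3 * c - 1))) / (3 * (4 + (3 * c - 1))) := by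
      have : (4 + (3 * c - 1)) ≠ 0 := by
        have : 0 < 4 + (3 * c - 1) := by linarith
        exact this.ne'
      field_simp
      ring
    rw [e, le_div_iff₀ (by linarith)]
    linarith
  refine key.trans ?_
  calc (661 / 5000 + 31 / 1000 * (3 * c - 1)) *
      (c * (7 / 10 * (3 * c - 1 + 4 / 75) / (1 + c) + 28 / 625))
      ≤ RC (1 - c) * (c * (7 / 10 * (3 * c - 1 + 4 / 75) / (1 + c) + 28 / 625)) :=
        mul_le_mul_of_nonneg_right hR (mul_nonneg (by linarith) hF0)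
    _ ≤ RC (1 - c) * (c * F) := by
        apply mul_le_mul_of_nonneg_left _ (hRpos.trans hR)
        exact mul_le_mul_of_nonneg_left hF' (by linarith)

/-- Concavity on a segment. -/
lemma conc {a q T L u x : ℝ} (ha : 0 ≤ a) (hL : L ≤ x) (hu : x ≤ u) (h1 : T ≤ L * (q - a * L))
    (h2 : T ≤ u * (q - a * u)) : T ≤ x * (q - a * x) := by
  rcases hL.eq_or_lt with h | h
  · rw [← h]; exact h1
  · have hLu : 0 < u - L := by linarith
    have e : (u - L) * (x * (q - a * x) - T) = (u - x) * (L * (q - a * L) - T) +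
        (x - L) * (u * (q - a * u) - T) + a * (x - L) * (u - x) * (u - L) := by ring
    have h3 : 0 ≤ (u - L) * (x * (q - a * x) - T) := by
      rw [e]
      have e1 : 0 ≤ u - x := by linarith
      have e2 : 0 ≤ x - L := by linarith
      have e3 : 0 ≤ L * (q - a * L) - T := by linarith
      have e4 : 0 ≤ u * (q - a * u) - T := by linarith
      positivity
    have := nonneg_of_mul_nonneg_right h3 hLu
    linarith

/-- The lower end of the range of `x₂`. -/
lemma endL {w y : ℝ} (hw0 : 0 ≤ w) (hw1 : w ≤ 1 / 2) (hy0 : 0 ≤ y) (hy1 : y ≤ 3 / 10)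
    (hcon : 0 ≤ (1 + w) * (4 + w) * y - (6 * w - 42 / 100)) :
    0 ≤ ((1 + w) * (4 + w) * ((2 / 5 - 4 / 5 * y) * (((661 / 5000 + 31 / 1000 * w) - (717 / 20000 + 67 / 4000 * w)) - (661 / 5000 + 31 / 1000 * w) * (2 / 5 - 4 / 5 * y)) * (((1 + w) / 3) / 3) - ((360659 / 5000000 * w - w ^ 2 / 6 + w ^ 3 / 18) - (717 / 20000 + 67 / 4000 * w) * (((1 + w) / 3) * (1 - ((1 + w) / 3))) + 11449 / 90000 * ((717 / 20000 + 67 / 4000 * w) - (661 / 5000 + 31 / 1000 * w) * y)))) := by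
  have h1 := n_h1a w hw0 hw1
  have h2 := n_h1b w hw0 hw1
  have hA : 0 ≤ (661 / 5000 + 31 / 1000 * w) := by linarith
  have hy : 0 ≤ 3 / 10 - y := by linarith
  have hm1 := mul_nonneg hy h1
  have hm2 := mul_nonneg hy0 h2
  have hm3 : 0 ≤ (1 + w) * (4 + w) * (((1 + w) / 3) / 3) * (661 / 5000 + 31 / 1000 * w) * (16 / 25) * (y * (3 / 10 - y)) * (3 / 10) := by
    positivity
  have hm4 : 0 ≤ 3 / 10 * (9 / 10 * (11449 / 90000)) * ((661 / 5000 + 31 / 1000 * w) * ((1 + w) * (4 + w) * y - (6 * w - 42 / 100))) := by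
    positivity
  have e : 3 / 10 * ((1 + w) * (4 + w) * ((2 / 5 - 4 / 5 * y) * (((661 / 5000 + 31 / 1000 * w) - (717 / 20000 + 67 / 4000 * w)) - (661 / 5000 + 31 / 1000 * w) * (2 / 5 - 4 / 5 * y)) * (((1 + w) / 3) / 3) - ((360659 / 5000000 * w - w ^ 2 / 6 + w ^ 3 / 18) - (717 / 20000 + 67 / 4000 * w) * (((1 + w) / 3) * (1 - ((1 + w) / 3))) + 11449 / 90000 * ((717 / 20000 + 67 / 4000 * w) - (661 / 5000 + 31 / 1000 * w) * y)))) =
      (3 / 10 - y) * (((1 + w) * (4 + w)) * (((717/20000 + 67/4000 * w) * (((1 + w) / 3) * (1 - ((1 + w) / 3))) - (11449/90000) * (717/20000 + 67/4000 * w) - (360659/5000000 * w - w ^ 2 / 6 + w ^ 3 / 18)) + (2/5) / 3 * ((1 + w) / 3) * ((3/5) * (661/5000 + 31/1000 * w) - (717/20000 + 67/4000 * w))) + (11449/100000) * (661/5000 + 31/1000 * w) * (6 * w - 42/100) + (0) * (11449/900000) * (661/5000 + 31/1000 * w) * ((1 + w) * (4 + w))) +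
      y * (((1 + w) * (4 + w)) * (((717/20000 + 67/4000 * w) * (((1 + w) / 3) * (1 - ((1 + w) / 3))) - (11449/90000) * (717/20000 + 67/4000 * w) - (360659/5000000 * w - w ^ 2 / 6 + w ^ 3 / 18)) + (4/25) / 3 * ((1 + w) / 3) * ((21/25) * (661/5000 + 31/1000 * w) - (717/20000 + 67/4000 * w))) + (11449/100000) * (661/5000 + 31/1000 * w) * (6 * w - 42/100) + (3/10) * (11449/900000) * (661/5000 + 31/1000 * w) * ((1 + w) * (4 + w))) +
      (1 + w) * (4 + w) * (((1 + w) / 3) / 3) * (661 / 5000 + 31 / 1000 * w) * (16 / 25) * (y * (3 / 10 - y)) * (3 / 10) +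
      3 / 10 * (9 / 10 * (11449 / 90000)) * ((661 / 5000 + 31 / 1000 * w) * ((1 + w) * (4 + w) * y - (6 * w - 42 / 100))) := by
    ring
  linarith

/-- The upper end of the range of `x₂`. -/
lemma endU {w y : ℝ} (hw0 : 0 ≤ w) (hw1 : w ≤ 1 / 2)
    (hcon : 0 ≤ (1 + w) * (4 + w) * y - (6 * w - 42 / 100)) :
    0 ≤ ((1 + w) * (4 + w) * (((661 / 5000 + 31 / 1000 * w) - (717 / 20000 + 67 / 4000 * w)) / 15 - ((360659 / 5000000 * w - w ^ 2 / 6 + w ^ 3 / 18) - (717 / 20000 + 67 / 4000 * w) * (((1 + w) / 3) * (1 - ((1 + w) / 3))) + 11449 / 90000 * ((717 / 20000 + 67 / 4000 * w) - (661 / 5000 + 31 / 1000 * w) * y))) - (661 / 5000 + 31 / 1000 * w) * (4 + w) / 25) := by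
  have h1 := n_h2 w hw0 hw1
  have hA : 0 ≤ (661 / 5000 + 31 / 1000 * w) := by linarith
  have hm4 : 0 ≤ 11449 / 90000 * ((661 / 5000 + 31 / 1000 * w) * ((1 + w) * (4 + w) * y - (6 * w - 42 / 100))) := by
    positivity
  have e : ((1 + w) * (4 + w) * (((661 / 5000 + 31 / 1000 * w) - (717 / 20000 + 67 / 4000 * w)) / 15 - ((360659 / 5000000 * w - w ^ 2 / 6 + w ^ 3 / 18) - (717 / 20000 + 67 / 4000 * w) * (((1 + w) / 3) * (1 - ((1 + w) / 3))) + 11449 / 90000 * ((717 / 20000 + 67 / 4000 * w) - (661 / 5000 + 31 / 1000 * w) * y))) - (661 / 5000 + 31 / 1000 * w) * (4 + w) / 25) =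
      (((1 + w) * (4 + w)) * (((717/20000 + 67/4000 * w) * (((1 + w) / 3) * (1 - ((1 + w) / 3))) - (11449/90000) * (717/20000 + 67/4000 * w) - (360659/5000000 * w - w ^ 2 / 6 + w ^ 3 / 18)) + ((661/5000 + 31/1000 * w) - (717/20000 + 67/4000 * w)) / 15) - 4/100 * (661/5000 + 31/1000 * w) * (4 + w) + (11449/90000) * (661/5000 + 31/1000 * w) * (6 * w - 42/100)) +
      11449 / 90000 * ((661 / 5000 + 31 / 1000 * w) * ((1 + w) * (4 + w) * y - (6 * w - 42 / 100))) := by
    ring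
  linarith

/-- A row with one near mate. -/
lemma t3 {c p1 p2 y x2 : ℝ} (hc : 1 / 3 ≤ c) (hc2 : c ≤ 1 / 2) (hy0 : 0 ≤ y) (hy1 : y ≤ 3 / 10)
    (hp1 : 0 ≤ p1) (hcp1 : c * p1 ≤ 11449 / 90000) (hym : 2 * c - 107 / 150 ≤ c * (1 + c) * y)
    (hx2 : 2 / 5 - 4 / 5 * y ≤ x2) (hx2' : c * x2 ≤ 1 / 5) (hx2'' : x2 ≤ 7 / 10)
    (hp2 : x2 / 3 ≤ p2) (hrest : c + p1 + p2 ≤ 1) :
    2 * Large.gap 2 c ≤ RC (1 - c) * (c * (p1 * y + p2 * (1 - x2))) +
      3 / 10 * RD (1 - c) * (c * (1 - c - p1 - p2)) := by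
  have hg := gap_le_cubic hc
  have hR := RC_ge hc hc2
  have hD := RD_ge hc hc2
  have hcpos : 0 < c := by linarith
  have hx20 : 0 ≤ x2 := by linarith
  have hp20 : 0 ≤ p2 := by linarith
  set w : ℝ := 3 * c - 1 with hw
  have hcw : c = (1 + w) / 3 := by rw [hw]; ring
  have hw0 : 0 ≤ w := by linarith
  have hw1 : w ≤ 1 / 2 := by linarith
  set a : ℝ := 661 / 5000 + 31 / 1000 * w with ha
  set b : ℝ := 717 / 20000 + 67 / 4000 * w with hb
  have ha0 : 0 < a := by rw [ha]; linarith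
  have hb0 : 0 < b := by rw [hb]; linarith
  have hab : b ≤ 3 / 10 * a := by rw [ha, hb]; linarith
  set G : ℝ := 360659 / 5000000 * w - w ^ 2 / 6 + w ^ 3 / 18 with hG
  have htriv : G ≤ b * (c * (1 - c)) := by
    have := n_triv w hw0 hw1
    rw [hG, hb, hcw]; linarith
  -- reduction to the linear rates
  have hred : a * (c * (p1 * y + p2 * (1 - x2))) + b * (c * (1 - c - p1 - p2)) ≤
      RC (1 - c) * (c * (p1 * y + p2 * (1 - x2))) +
      3 / 10 * RD (1 - c) * (c * (1 - c - p1 - p2)) := by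
    apply add_le_add
    · apply mul_le_mul_of_nonneg_right hR
      have : 0 ≤ 1 - x2 := by linarith
      positivity
    · apply mul_le_mul_of_nonneg_right hD
      exact mul_nonneg hcpos.le (by linarith)
  refine hg.trans (le_trans ?_ hred)
  -- the mass of the second neighbour
  have hp2' : c * (x2 / 3) * (a * (1 - x2) - b) ≤ c * p2 * (a * (1 - x2) - b) := by
    apply mul_le_mul_of_nonneg_right
    · exact mul_le_mul_of_nonneg_left hp2 hcpos.le
    · nlinarith
  have hform : a * (c * (p1 * y + p2 * (1 - x2))) + b * (c * (1 - c - p1 - p2)) =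
      b * (c * (1 - c)) - c * p1 * (b - a * y) + c * p2 * (a * (1 - x2) - b) := by ring
  rw [hform]
  have hx2n : 0 ≤ c * (x2 / 3) * (a * (1 - x2) - b) := by
    have : 0 ≤ a * (1 - x2) - b := by nlinarith
    positivity
  rcases le_total (b - a * y) 0 with hcase | hcase
  · have : 0 ≤ c * p1 * -(b - a * y) := mul_nonneg (by positivity) (by linarith)
    linarith
  · -- main case
    have hK : c * p1 * (b - a * y) ≤ 11449 / 90000 * (b - a * y) :=
      mul_le_mul_of_nonneg_right hcp1 hcase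
    -- constraint
    have hcon : 0 ≤ (1 + w) * (4 + w) * y - (6 * w - 42 / 100) := by
      have e : c * (1 + c) * y = (1 + w) * (4 + w) * y / 9 := by rw [hcw]; ring
      rw [e] at hym
      linarith
    have hq : 0 < (1 + w) * (4 + w) := by positivity
    -- target
    set T : ℝ := G - b * (c * (1 - c)) + 11449 / 90000 * (b - a * y) with hT
    suffices hs : T ≤ c / 3 * (x2 * ((a - b) - a * x2)) by
      have e : c * (x2 / 3) * (a * (1 - x2) - b) = c / 3 * (x2 * ((a - b) - a * x2)) := by ring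
      rw [e] at hp2'
      linarith
    have hc3 : 0 < c / 3 := by positivity
    have hLend : T / (c / 3) ≤ (2 / 5 - 4 / 5 * y) * ((a - b) - a * (2 / 5 - 4 / 5 * y)) := by
      rw [div_le_iff₀ hc3]
      have h := endL hw0 hw1 hy0 hy1 hcon
      have h' := nonneg_of_mul_nonneg_right h hq
      rw [hT, hG, ha, hb, hcw]
      linarith
    have hUend : T / (c / 3) ≤ (1 / 5 / c) * ((a - b) - a * (1 / 5 / c)) := by
      rw [div_le_iff₀ hc3]
      have e : (1 / 5 / c) * ((a - b) - a * (1 / 5 / c)) * (c / 3) =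
          (a - b) / 15 - a / (75 * c) := by
        field_simp
        ring
      rw [e]
      have e2 : a / (75 * c) = a / (25 * (1 + w)) := by rw [hcw]; congr 1; ring
      rw [e2]
      suffices h : 0 ≤ (1 + w) * (4 + w) * ((a - b) / 15 - a / (25 * (1 + w)) - T) by
        have := nonneg_of_mul_nonneg_right h hq
        linarith
      have e3 : (1 + w) * (4 + w) * ((a - b) / 15 - a / (25 * (1 + w)) - T) =
          (1 + w) * (4 + w) * ((a - b) / 15 - T) - a * (4 + w) / 25 := by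
        have h1w : (1 + w) ≠ 0 := by
          have : 0 < 1 + w := by linarith
          exact this.ne'
        have e4 : (1 + w) * (4 + w) * (a / (25 * (1 + w))) = a * (4 + w) / 25 := by
          field_simp
        linear_combination -e4
      rw [e3, hT, hG, ha, hb, hcw]
      exact endU hw0 hw1 hcon
    have hx2U : x2 ≤ 1 / 5 / c := by
      rw [le_div_iff₀ hcpos]; linarith
    have := conc ha0.le hx2 hx2U hLend hUend
    rw [div_le_iff₀ hc3] at this
    linarith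

end Pool.Agent.Lib.MP_589a62_gt.Full.Clus4
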