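import Pool.Agent.Lib.MP_589a62_gt.Full.Comp

/-!
# The reduction of the gap inequality to local data on the components of a graph
-/

set_option autoImplicit false
set_option linter.unusedVariables false
set_option linter.unusedSectionVars false

open Matrix Finset MeasureTheory Set Real
open scoped ENNReal Classical

namespace Pool.Agent.Lib.MP_589a62_gt.Full

variable {n k : ℕ}

/-- Local data on a set `C` of rows: `τ`, `T` on the inner edges, `σ` and `r` on all edges starting
in `C`; on the outer edges `t = 1` and the temperature is `1`. -/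
structure LocalData (U : Matrix (Fin n) (Fin k) ℝ) (m : ℕ) (C : Finset (Fin n))
    (τ T σ r : Fin n → Fin n → ℝ) : Prop where
  τsym : ∀ i ∈ C, ∀ j ∈ C, τ i j = τ j i
  τ0 : ∀ i ∈ C, ∀ j ∈ C, 0 ≤ τ i j
  τ1 : ∀ i ∈ C, ∀ j ∈ C, τ i j ≤ 1
  Tsym : ∀ i ∈ C, ∀ j ∈ C, T i j = T j i
  T0 : ∀ i ∈ C, ∀ j ∈ C, 0 ≤ T i j
  T1 : ∀ i ∈ C, ∀ j ∈ C, T i j ≤ 1
  σ0 : ∀ i ∈ C, ∀ j, 0 < σ i j
  σ1 : ∀ i ∈ C, ∀ j, σ i j ≤ 1
  sum : ∀ i ∈ C, ∑ j ∈ univ.erase i,
    kk U i j / rowSq U i * (if j ∈ C then τ i j else 1) / σ i j ≤ 1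
  goodIn : ∀ i ∈ C, ∀ j ∈ C, i ≠ j → Good (T i j) (σ i j) (r i j)
  goodOut : ∀ i ∈ C, ∀ j, j ∉ C → Good 1 (σ i j) (r i j)
  ineq : ∑ i ∈ C, Large.gap m (rowSq U i) ≤ ∑ i ∈ C, 1 / 2 * ∑ j ∈ univ.erase i,
    kk U i j * (if j ∈ C then τ i j else 1) * ((1 - xx U i j) * r i j)

/-- **The general reduction to the components.** -/
theorem FI_of_local {m : ℕ} (U : Matrix (Fin n) (Fin k) ℝ) (G : SimpleGraph (Fin n))
    (H : ∀ C : Finset (Fin n), C.Nonempty → (∀ i ∈ C, ∀ l, G.Adj i l → l ∈ C) →
      (∀ i ∈ C, ∀ j ∈ C, G.Reachable i j) → ∃ τ T σ r, LocalData U m C τ T σ r) :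
    ∃ t T σ r : Fin n → Fin n → ℝ, Adm U t T σ r ∧
      ∑ i, Large.gap m (rowSq U i) ≤ supply U t r := by
  -- the component of a row
  set F : G.ConnectedComponent → Finset (Fin n) := fun c =>
    Finset.univ.filter fun i => G.connectedComponentMk i = c with hF
  have hmem : ∀ c i, i ∈ F c ↔ G.connectedComponentMk i = c := by intro c i; simp [hF]
  have hex : ∀ c : G.ConnectedComponent, ∃ τ T σ r, LocalData U m (F c) τ T σ r := by
    intro c
    refine H (F c) ?_ ?_ ?_
    · obtain ⟨i, hi⟩ := c.exists_rep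
      exact ⟨i, (hmem c i).2 hi⟩
    · intro i hi l hl
      rw [hmem] at hi ⊢
      rw [← hi]
      exact (SimpleGraph.ConnectedComponent.sound hl.reachable).symm
    · intro i hi j hj
      rw [hmem] at hi hj
      exact SimpleGraph.ConnectedComponent.exact (hi.trans hj.symm)
  choose τ T σ r hD using hex
  set cp : Fin n → G.ConnectedComponent := fun i => G.connectedComponentMk i with hcp
  have hself : ∀ i, i ∈ F (cp i) := fun i => (hmem _ _).2 rfl
  have hjin : ∀ i j, j ∈ F (cp i) ↔ cp j = cp i := fun i j => hmem _ _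
  have hiin : ∀ i j, cp j = cp i → i ∈ F (cp j) := fun i j h => (hmem _ _).2 h.symm
  refine ⟨fun i j => if cp j = cp i then τ (cp i) i j else 1,
    fun i j => if cp j = cp i then T (cp i) i j else 1,
    fun i j => σ (cp i) i j, fun i j => r (cp i) i j, ?_, ?_⟩
  · refine ⟨fun i j => ?_, fun i j => ?_, fun i j => ?_, fun i j => ?_, fun i j => ?_,
      fun i j => ?_, fun i j => ?_, fun i j => ?_, fun i => ?_, fun i j hij => ?_⟩
    · by_cases h : cp j = cp i
      · rw [if_pos h, if_pos h.symm, h]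
        exact (hD (cp i)).τsym i (hself i) j ((hjin i j).2 h)
      · rw [if_neg h, if_neg fun h' => h h'.symm]
    · split_ifs with h
      · exact (hD (cp i)).τ0 i (hself i) j ((hjin i j).2 h)
      · exact zero_le_one
    · split_ifs with h
      · exact (hD (cp i)).τ1 i (hself i) j ((hjin i j).2 h)
      · exact le_rfl
    · by_cases h : cp j = cp i
      · rw [if_pos h, if_pos h.symm, h]
        exact (hD (cp i)).Tsym i (hself i) j ((hjin i j).2 h)
      · rw [if_neg h, if_neg fun h' => h h'.symm]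
    · split_ifs with h
      · exact (hD (cp i)).T0 i (hself i) j ((hjin i j).2 h)
      · exact zero_le_one
    · split_ifs with h
      · exact (hD (cp i)).T1 i (hself i) j ((hjin i j).2 h)
      · exact le_rfl
    · exact (hD (cp i)).σ0 i (hself i) j
    · exact (hD (cp i)).σ1 i (hself i) j
    · have h1 := (hD (cp i)).sum i (hself i)
      simp only [hjin] at h1
      exact h1
    · by_cases h : cp j = cp i
      · simp only [if_pos h]
        exact (hD (cp i)).goodIn i (hself i) j ((hjin i j).2 h) hij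
      · simp only [if_neg h]
        exact (hD (cp i)).goodOut i (hself i) j fun h' => h ((hjin i j).1 h')
  · unfold supply
    rw [Finset.mul_sum]
    have hfib : ∀ f : Fin n → ℝ, ∑ i, f i =
        ∑ c : G.ConnectedComponent, ∑ i ∈ F c, f i := fun f =>
      (Finset.sum_fiberwise _ _ _).symm
    rw [hfib, hfib fun i => 1 / 2 * ∑ j ∈ univ.erase i, _]
    refine Finset.sum_le_sum fun c _ => ?_
    refine (hD c).ineq.trans (le_of_eq (Finset.sum_congr rfl fun i hi => ?_))
    have hci : cp i = c := (hmem c i).1 hi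
    have hjc : ∀ j, (j ∈ F c) = (cp j = c) := fun j => propext (hmem c j)
    simp only [hci, hjc]

/-- Row sums with weights. -/
lemma row_sum_le {U : Matrix (Fin n) (Fin k) ℝ} (hU : Uᵀ * U = 1) {i : Fin n}
    (hc : 0 < rowSq U i) {s : ℝ} (hs0 : 0 < s) (hs : 1 - rowSq U i ≤ s) :
    ∑ j ∈ univ.erase i, kk U i j / rowSq U i * 1 / s ≤ 1 := by
  have h1 := row_sum_erase U hU hc
  have h2 : ∑ j ∈ univ.erase i, kk U i j / rowSq U i * 1 / s = (1 - rowSq U i) / s := by
    rw [← h1, Finset.sum_div]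
    exact Finset.sum_congr rfl fun j _ => by rw [mul_one]
  rw [h2, div_le_one hs0]
  exact hs

/-- The far mass of a row. -/
noncomputable def far (U : Matrix (Fin n) (Fin k) ℝ) (G : SimpleGraph (Fin n)) (i : Fin n) : ℝ :=
  ∑ j ∈ (univ.erase i).filter (fun j => ¬ G.Adj i j), kk U i j / rowSq U i

/-- The far sum of a row. -/
noncomputable def farS (U : Matrix (Fin n) (Fin k) ℝ) (G : SimpleGraph (Fin n)) (i : Fin n) : ℝ :=
  ∑ j ∈ (univ.erase i).filter (fun j => ¬ G.Adj i j), kk U i j * (1 - xx U i j)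

lemma far_nonneg {U : Matrix (Fin n) (Fin k) ℝ} (G : SimpleGraph (Fin n)) {i : Fin n}
    (hc : 0 < rowSq U i) : 0 ≤ far U G i :=
  Finset.sum_nonneg fun j _ => div_nonneg (kk_nonneg U i j) hc.le

lemma far_le {U : Matrix (Fin n) (Fin k) ℝ} (hU : Uᵀ * U = 1) (G : SimpleGraph (Fin n))
    {i : Fin n} (hc : 0 < rowSq U i) : far U G i ≤ 1 - rowSq U i := by
  rw [← row_sum_erase U hU hc]
  exact Finset.sum_le_sum_of_subset_of_nonneg (Finset.filter_subset _ _)
    fun j _ _ => div_nonneg (kk_nonneg U i j) hc.le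

/-- **Light components**: all near edges are dropped; a row-wise inequality is enough. -/
theorem local_light {m : ℕ} (U : Matrix (Fin n) (Fin k) ℝ) (hU : Uᵀ * U = 1)
    (hc : ∀ i, 0 < rowSq U i) (G : SimpleGraph (Fin n)) (R : ℝ → ℝ)
    (hR : ∀ z, 0 < z → z ≤ 1 → Good 1 z (R z)) (C : Finset (Fin n))
    (hcl : ∀ i ∈ C, ∀ l, G.Adj i l → l ∈ C)
    (hrow : ∀ i ∈ C, Large.gap m (rowSq U i) ≤ 1 / 2 * R (far U G i) * farS U G i) :
    ∃ τ T σ r, LocalData U m C τ T σ r := by
  set s : Fin n → ℝ := fun i => if far U G i = 0 then 1 else far U G i with hs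
  have hs0 : ∀ i, 0 < s i := by
    intro i
    simp only [hs]
    split_ifs with h
    · exact one_pos
    · exact lt_of_le_of_ne (far_nonneg G (hc i)) (Ne.symm h)
  have hs1 : ∀ i, s i ≤ 1 := by
    intro i
    simp only [hs]
    split_ifs with h
    · exact le_rfl
    · have := far_le hU G (hc i)
      linarith [hc i]
  have hw : ∀ i ∈ C, ∀ j, (if j ∈ C then (if G.Adj i j then (0 : ℝ) else 1) else 1) =
      if G.Adj i j then 0 else 1 := by
    intro i hi j
    by_cases h : G.Adj i j
    · rw [if_pos (hcl i hi j h)]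
    · by_cases hj : j ∈ C
      · rw [if_pos hj]
      · rw [if_neg hj, if_neg h]
  have hsum : ∀ i ∈ C, ∀ f : Fin n → ℝ, ∑ j ∈ univ.erase i,
      f j * (if j ∈ C then (if G.Adj i j then (0 : ℝ) else 1) else 1) =
      ∑ j ∈ (univ.erase i).filter (fun j => ¬ G.Adj i j), f j := by
    intro i hi f
    rw [Finset.sum_filter]
    refine Finset.sum_congr rfl fun j _ => ?_
    rw [hw i hi j]
    by_cases h : G.Adj i j
    · rw [if_pos h, if_neg (not_not.2 h), mul_zero]
    · rw [if_neg h, if_pos h, mul_one]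
  refine ⟨fun i j => if G.Adj i j then 0 else 1, fun _ _ => 1, fun i _ => s i, fun i _ => R (s i),
    ⟨fun i _ j _ => ?_, fun i _ j _ => ?_, fun i _ j _ => ?_, fun _ _ _ _ => rfl,
      fun _ _ _ _ => zero_le_one, fun _ _ _ _ => le_rfl, fun i _ _ => hs0 i, fun i _ _ => hs1 i,
      fun i hi => ?_, fun i _ _ _ _ => hR _ (hs0 i) (hs1 i), fun i _ _ _ => hR _ (hs0 i) (hs1 i),
      ?_⟩⟩
  · by_cases h : G.Adj i j
    · rw [if_pos h, if_pos h.symm]
    · rw [if_neg h, if_neg fun h' => h h'.symm]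
  · split_ifs <;> norm_num
  · split_ifs <;> norm_num
  · have e : ∑ j ∈ univ.erase i, kk U i j / rowSq U i *
        (if j ∈ C then (if G.Adj i j then (0 : ℝ) else 1) else 1) / s i = far U G i / s i := by
      rw [← Finset.sum_div, hsum i hi]
      rfl
    rw [e, div_le_one (hs0 i)]
    simp only [hs]
    split_ifs with h
    · rw [h]; exact zero_le_one
    · exact le_rfl
  · refine Finset.sum_le_sum fun i hi => ?_
    have e : ∑ j ∈ univ.erase i, kk U i j *
        (if j ∈ C then (if G.Adj i j then (0 : ℝ) else 1) else 1) *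
        ((1 - xx U i j) * R (s i)) = R (s i) * farS U G i := by
      have e1 : ∀ j, kk U i j * (if j ∈ C then (if G.Adj i j then (0 : ℝ) else 1) else 1) *
          ((1 - xx U i j) * R (s i)) = R (s i) * ((kk U i j * (1 - xx U i j)) *
          (if j ∈ C then (if G.Adj i j then (0 : ℝ) else 1) else 1)) := fun j => by ring
      simp only [e1]
      rw [← Finset.mul_sum, hsum i hi]
      rfl
    rw [e]
    refine (hrow i hi).trans (le_of_eq ?_)
    by_cases h : far U G i = 0
    · -- all far edges vanish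
      have h3 : farS U G i = 0 := by
        unfold farS
        refine Finset.sum_eq_zero fun j hj => ?_
        have h4 := (Finset.sum_eq_zero_iff_of_nonneg
          (fun l _ => div_nonneg (kk_nonneg U i l) (hc i).le)).1 h j hj
        have h5 : kk U i j = 0 := by
          rcases div_eq_zero_iff.1 h4 with h | h
          · exact h
          · exact absurd h (hc i).ne'
        rw [h5, zero_mul]
      rw [h3]; ring
    · have : s i = far U G i := by simp only [hs, if_neg h]
      rw [this]; ring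

/-- **Heavy components**: all edges are kept, `T = 3/4` inside and `T = 1` outside, with
`σ_i = s i ≥ 1 - c_i`. -/
theorem local_heavy {m : ℕ} (U : Matrix (Fin n) (Fin k) ℝ) (hU : Uᵀ * U = 1)
    (hc : ∀ i, 0 < rowSq U i) (C : Finset (Fin n)) (s : Fin n → ℝ)
    (hs0 : ∀ i ∈ C, 1 / 5 ≤ s i) (hs1 : ∀ i ∈ C, s i ≤ 1) (hs : ∀ i ∈ C, 1 - rowSq U i ≤ s i)
    (hsum : ∑ i ∈ C, Large.gap m (rowSq U i) ≤ ∑ i ∈ C,
      (1 / 2 * RC (s i) * ∑ j ∈ C.erase i, kk U i j * (1 - xx U i j) +
        1 / 2 * RD (s i) * ∑ j ∈ Cᶜ, kk U i j * (1 - xx U i j))) :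
    ∃ τ T σ r, LocalData U m C τ T σ r := by
  refine ⟨fun _ _ => 1, fun _ _ => 3 / 4, fun i _ => if i ∈ C then s i else 1,
    fun i j => if j ∈ C then RC (if i ∈ C then s i else 1) else RD (if i ∈ C then s i else 1),
    ⟨fun _ _ _ _ => rfl, fun _ _ _ _ => zero_le_one, fun _ _ _ _ => le_rfl, fun _ _ _ _ => rfl,
      fun _ _ _ _ => by norm_num, fun _ _ _ _ => by norm_num, fun i hi j => ?_, fun i hi j => ?_,
      fun i hi => ?_, fun i hi j hj hij => ?_, fun i hi j hj => ?_, ?_⟩⟩
  · rw [if_pos hi]; linarith [hs0 i hi]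
  · rw [if_pos hi]; exact hs1 i hi
  · rw [if_pos hi]
    simp only [ite_self]
    exact row_sum_le hU (hc i) (by linarith [hs0 i hi]) (hs i hi)
  · rw [if_pos hi, if_pos hj]
    exact good_C (s i) (hs0 i hi) (hs1 i hi)
  · rw [if_pos hi, if_neg hj]
    exact good_D (s i) (by linarith [hs0 i hi]) (hs1 i hi)
  · refine hsum.trans (le_of_eq (Finset.sum_congr rfl fun i hi => ?_))
    rw [if_pos hi]
    simp only [ite_self, mul_one]
    have e : univ.erase i = C.erase i ∪ Cᶜ := by
      ext j
      simp only [Finset.mem_erase, Finset.mem_univ, and_true, Finset.mem_union,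
        Finset.mem_compl]
      constructor
      · intro h
        by_cases hj : j ∈ C
        · exact Or.inl ⟨h, hj⟩
        · exact Or.inr hj
      · rintro (h | h)
        · exact h.1
        · rintro rfl; exact h hi
    have hdis : Disjoint (C.erase i) Cᶜ := by
      rw [Finset.disjoint_left]
      intro j hj hj'
      exact (Finset.mem_compl.1 hj') (Finset.mem_of_mem_erase hj)
    rw [e, Finset.sum_union hdis, mul_add, Finset.mul_sum, Finset.mul_sum, Finset.mul_sum,
      Finset.mul_sum]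
    congr 1
    · refine Finset.sum_congr rfl fun j hj => ?_
      rw [if_pos (Finset.mem_of_mem_erase hj)]; ring
    · refine Finset.sum_congr rfl fun j hj => ?_
      rw [if_neg (Finset.mem_compl.1 hj)]; ring

end Pool.Agent.Lib.MP_589a62_gt.Full
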