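import Mathlib

/-!
# MP_589a62_gt: the dual step, scalar part

Pure real-variable lemmas for the dual pairwise bound.

* `theta_fenchel`  : `|d| - 1 + exp (-|d|) ≥ θ d - ((1-|θ|) log (1-|θ|) + |θ|)` for `|θ| < 1`;
* `thetaStar_le`   : `(1-t) log (1-t) + t ≤ 0.522 t² + 0.478 t⁴` on `[0,1)`;
* `thetaStar_le_one` : `(1-t) log (1-t) + t ≤ t²` on `[0,1)`;
* `min_xi`         : `ρ ξ² + (ξ - ξ₀)² ≥ ξ₀² (ρ/(1+ρ))` for `ρ > -1`;
* `jensen_split`   : the Jensen (Titu) splitting of `ρ²/(1+ρ)`.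
-/

namespace Pool.Agent.Lib.MP_589a62_gt.Full.DualS

open Finset Real

/-- The Fenchel inequality for `Θ(d) = |d| - 1 + exp (-|d|)`. -/
theorem theta_fenchel (d θ : ℝ) (hθ : |θ| < 1) :
    θ * d - ((1 - |θ|) * Real.log (1 - |θ|) + |θ|) ≤ |d| - 1 + Real.exp (-|d|) := by
  have h1 : 0 < 1 - |θ| := by linarith
  have h2 : θ * d ≤ |θ| * |d| := by
    rw [← abs_mul]; exact le_abs_self _
  -- with `s = 1 - |θ|`: `exp (-|d|) ≥ s (1 - |d| - log s)`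
  have h3 : (1 - |θ|) * (1 + (-|d| - Real.log (1 - |θ|))) ≤ Real.exp (-|d|) := by
    have h4 : (-|d| - Real.log (1 - |θ|)) + 1 ≤ Real.exp (-|d| - Real.log (1 - |θ|)) :=
      Real.add_one_le_exp _
    have h5 : Real.exp (-|d| - Real.log (1 - |θ|)) = Real.exp (-|d|) / (1 - |θ|) := by
      rw [Real.exp_sub, Real.exp_log h1]
    rw [h5] at h4
    have h6 : (1 - |θ|) * ((-|d| - Real.log (1 - |θ|)) + 1)
        ≤ (1 - |θ|) * (Real.exp (-|d|) / (1 - |θ|)) := mul_le_mul_of_nonneg_left h4 h1.le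
    have h7 : (1 - |θ|) * (Real.exp (-|d|) / (1 - |θ|)) = Real.exp (-|d|) := by
      field_simp
    linarith
  nlinarith

/-- A polynomial lower bound of `-log (1 - t)`. -/
theorem neg_log_ge (t : ℝ) (h0 : 0 ≤ t) (h1 : t < 1) :
    t + t ^ 2 / 2 + t ^ 3 / 3 + t ^ 4 / 4 ≤ -Real.log (1 - t) := by
  have hs := Real.hasSum_pow_div_log_of_abs_lt_one (x := t) (by rw [abs_of_nonneg h0]; exact h1)
  have h := hs.summable.sum_le_tsum (Finset.range 4) (fun i _ => by positivity)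
  rw [hs.tsum_eq] at h
  simp only [Finset.sum_range_succ, Finset.sum_range_zero] at h
  norm_num at h
  linarith

/-- `Θ*(t) ≤ 0.522 t² + 0.478 t⁴` on `[0,1)`. -/
theorem thetaStar_le (t : ℝ) (h0 : 0 ≤ t) (h1 : t < 1) :
    (1 - t) * Real.log (1 - t) + t ≤ 0.522 * t ^ 2 + 0.478 * t ^ 4 := by
  have h := neg_log_ge t h0 h1
  have h2 : 0 < 1 - t := by linarith
  -- `(1-t)(t + .478 (t²+t³)) = t - .522 t² - .478 t⁴`
  have h3 : t + 0.478 * (t ^ 2 + t ^ 3) ≤ -Real.log (1 - t) := by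
    have : 0 ≤ t ^ 2 * (0.022 - (0.478 - 1/3) * t + t ^ 2 / 4) := by
      apply mul_nonneg (by positivity)
      nlinarith [sq_nonneg (t - 0.29)]
    nlinarith
  have h4 := mul_le_mul_of_nonneg_left h3 h2.le
  nlinarith

/-- `Θ*(t) ≤ t²` on `[0,1)`. -/
theorem thetaStar_le_one (t : ℝ) (h0 : 0 ≤ t) (h1 : t < 1) :
    (1 - t) * Real.log (1 - t) + t ≤ t ^ 2 := by
  have h := thetaStar_le t h0 h1
  have : t ^ 4 ≤ t ^ 2 := by
    have := pow_le_pow_of_le_one h0 h1.le (show 2 ≤ 4 by norm_num)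
    exact this
  nlinarith

/-- The minimum over `ξ`. -/
theorem min_xi (ρ ξ ξ₀ : ℝ) (hρ : -1 < ρ) :
    ξ₀ ^ 2 * (ρ / (1 + ρ)) ≤ ρ * ξ ^ 2 + (ξ - ξ₀) ^ 2 := by
  have h1 : 0 < 1 + ρ := by linarith
  have h2 : ρ * ξ ^ 2 + (ξ - ξ₀) ^ 2 - ξ₀ ^ 2 * (ρ / (1 + ρ))
      = ((1 + ρ) * ξ - ξ₀) ^ 2 / (1 + ρ) := by
    field_simp
    ring
  have h3 : 0 ≤ ((1 + ρ) * ξ - ξ₀) ^ 2 / (1 + ρ) := by positivity
  linarith

theorem rho_div (ρ : ℝ) (hρ : -1 < ρ) : ρ / (1 + ρ) = ρ - ρ ^ 2 / (1 + ρ) := by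
  have h1 : (1 + ρ) ≠ 0 := by linarith
  field_simp
  ring

/-- Tangent (Titu) form of one term. -/
theorem titu_term (p σ θ l : ℝ) (hp : 0 ≤ p) (hσ : 0 < σ) (h : 0 < 1 + σ * θ) :
    2 * l * (p * θ) - l ^ 2 * (p / σ + p * θ) ≤ p * (σ * θ ^ 2 / (1 + σ * θ)) := by
  have key : p * (σ * θ ^ 2 / (1 + σ * θ)) - (2 * l * (p * θ) - l ^ 2 * (p / σ + p * θ))
      = p / (σ * (1 + σ * θ)) * (σ * θ - l * (1 + σ * θ)) ^ 2 := by
    field_simp
    ring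
  have : 0 ≤ p / (σ * (1 + σ * θ)) * (σ * θ - l * (1 + σ * θ)) ^ 2 := by positivity
  linarith

variable {ι : Type*}

/-- `1 + Σ p θ > 0`. -/
theorem one_add_rho_pos (s : Finset ι) (p σ θ : ι → ℝ)
    (hp : ∀ j ∈ s, 0 ≤ p j) (hσ : ∀ j ∈ s, 0 < σ j) (hsum : ∑ j ∈ s, p j / σ j ≤ 1)
    (hθ : ∀ j ∈ s, 0 < 1 + σ j * θ j) :
    0 < 1 + ∑ j ∈ s, p j * θ j := by
  have h1 : ∀ j ∈ s, -(p j / σ j) ≤ p j * θ j := by
    intro j hj
    have := hθ j hj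
    have h2 : p j * θ j + p j / σ j = p j / σ j * (1 + σ j * θ j) := by
      have := (hσ j hj).ne'
      field_simp
      ring
    have h3 : 0 ≤ p j / σ j * (1 + σ j * θ j) :=
      mul_nonneg (div_nonneg (hp j hj) (hσ j hj).le) this.le
    linarith
  have h2 : -(∑ j ∈ s, p j / σ j) ≤ ∑ j ∈ s, p j * θ j := by
    rw [← Finset.sum_neg_distrib]
    exact Finset.sum_le_sum h1
  by_cases hall : ∀ j ∈ s, p j = 0
  · have : ∑ j ∈ s, p j * θ j = 0 := Finset.sum_eq_zero (fun j hj => by rw [hall j hj, zero_mul])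
    rw [this]; norm_num
  · push Not at hall
    obtain ⟨j, hj, hpj⟩ := hall
    have hlt : -(∑ j ∈ s, p j / σ j) < ∑ j ∈ s, p j * θ j := by
      rw [← Finset.sum_neg_distrib]
      refine Finset.sum_lt_sum h1 ⟨j, hj, ?_⟩
      have hpos : 0 < p j := lt_of_le_of_ne (hp j hj) (Ne.symm hpj)
      have h2 : p j * θ j + p j / σ j = p j / σ j * (1 + σ j * θ j) := by
        have := (hσ j hj).ne'
        field_simp
        ring
      have h3 : 0 < p j / σ j * (1 + σ j * θ j) :=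
        mul_pos (div_pos hpos (hσ j hj)) (hθ j hj)
      linarith
    linarith

/-- **The Jensen splitting**: with `ρ = Σ p_j θ_j`, `Σ p_j/σ_j ≤ 1` and `1 + σ_j θ_j > 0`,
`ρ²/(1+ρ) ≤ Σ p_j σ_j θ_j²/(1+σ_j θ_j)`. -/
theorem jensen_split (s : Finset ι) (p σ θ : ι → ℝ)
    (hp : ∀ j ∈ s, 0 ≤ p j) (hσ : ∀ j ∈ s, 0 < σ j) (hsum : ∑ j ∈ s, p j / σ j ≤ 1)
    (hθ : ∀ j ∈ s, 0 < 1 + σ j * θ j) :
    (∑ j ∈ s, p j * θ j) ^ 2 / (1 + ∑ j ∈ s, p j * θ j)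
      ≤ ∑ j ∈ s, p j * (σ j * θ j ^ 2 / (1 + σ j * θ j)) := by
  set ρ := ∑ j ∈ s, p j * θ j with hρ
  have hpos : 0 < 1 + ρ := one_add_rho_pos s p σ θ hp hσ hsum hθ
  set l := ρ / (1 + ρ) with hl
  have h1 : ∑ j ∈ s, (2 * l * (p j * θ j) - l ^ 2 * (p j / σ j + p j * θ j))
      ≤ ∑ j ∈ s, p j * (σ j * θ j ^ 2 / (1 + σ j * θ j)) :=
    Finset.sum_le_sum (fun j hj => titu_term (p j) (σ j) (θ j) l (hp j hj) (hσ j hj) (hθ j hj))
  have h2 : ∑ j ∈ s, (2 * l * (p j * θ j) - l ^ 2 * (p j / σ j + p j * θ j))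
      = 2 * l * ρ - l ^ 2 * (∑ j ∈ s, p j / σ j + ρ) := by
    rw [Finset.sum_sub_distrib, ← Finset.mul_sum, ← Finset.mul_sum, Finset.sum_add_distrib]
  have h3 : 2 * l * ρ - l ^ 2 * (1 + ρ) ≤ 2 * l * ρ - l ^ 2 * (∑ j ∈ s, p j / σ j + ρ) := by
    have : l ^ 2 * (∑ j ∈ s, p j / σ j + ρ) ≤ l ^ 2 * (1 + ρ) :=
      mul_le_mul_of_nonneg_left (by linarith) (sq_nonneg l)
    linarith
  have h4 : 2 * l * ρ - l ^ 2 * (1 + ρ) = ρ ^ 2 / (1 + ρ) := by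
    rw [hl]; field_simp; ring
  rw [← h4]
  linarith [h1, h2, h3]

/-- Uniform version: if `Σ p_j ≤ σ` (`σ ≤ 1`), then
`ρ²/(1+ρ) ≤ Σ p_j σ θ_j²/(1+σ θ_j)`. -/
theorem jensen_split_uniform (s : Finset ι) (p θ : ι → ℝ) (σ : ℝ) (hσ0 : 0 < σ)
    (hp : ∀ j ∈ s, 0 ≤ p j) (hsum : ∑ j ∈ s, p j ≤ σ)
    (hθ : ∀ j ∈ s, 0 < 1 + σ * θ j) :
    (∑ j ∈ s, p j * θ j) ^ 2 / (1 + ∑ j ∈ s, p j * θ j)
      ≤ ∑ j ∈ s, p j * (σ * θ j ^ 2 / (1 + σ * θ j)) := by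
  refine jensen_split s p (fun _ => σ) θ hp (fun _ _ => hσ0) ?_ hθ
  rw [← Finset.sum_div]
  rw [div_le_one hσ0]
  exact hsum

/-- The crude version without the denominators on the right: if `|θ_j| ≤ T`, `σ_j T < 1`. -/
theorem jensen_split_weighted (s : Finset ι) (p w θ : ι → ℝ) (r T : ℝ) (hr : 0 ≤ r) (hT : 0 ≤ T)
    (hp : ∀ j ∈ s, 0 ≤ p j) (hw : ∀ j ∈ s, 0 < w j) (hrs : ∑ j ∈ s, p j * w j ≤ r)
    (hθ : ∀ j ∈ s, |θ j| ≤ T * w j) (hrT : r * T < 1) :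
    (∑ j ∈ s, p j * θ j) ^ 2 / (1 + ∑ j ∈ s, p j * θ j)
      ≤ ∑ j ∈ s, p j * (r / w j * θ j ^ 2 / (1 + r / w j * θ j)) := by
  rcases hr.eq_or_lt with h0 | hpos
  · subst h0
    have hz : ∀ j ∈ s, p j = 0 := by
      intro j hj
      have h1 : p j * w j ≤ ∑ j ∈ s, p j * w j :=
        Finset.single_le_sum (f := fun j => p j * w j)
          (fun i hi => mul_nonneg (hp i hi) (hw i hi).le) hj
      have h2 : p j * w j ≤ 0 := h1.trans hrs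
      have h3 : 0 ≤ p j * w j := mul_nonneg (hp j hj) (hw j hj).le
      have h4 : p j * w j = 0 := le_antisymm h2 h3
      rcases mul_eq_zero.mp h4 with h | h
      · exact h
      · exact absurd h (hw j hj).ne'
    have h1 : ∑ j ∈ s, p j * θ j = 0 := Finset.sum_eq_zero (fun j hj => by rw [hz j hj, zero_mul])
    rw [h1]
    have h2 : ∑ j ∈ s, p j * (0 / w j * θ j ^ 2 / (1 + 0 / w j * θ j)) = 0 :=
      Finset.sum_eq_zero (fun j hj => by rw [hz j hj, zero_mul])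
    rw [h2]; norm_num
  · refine jensen_split s p (fun j => r / w j) θ hp (fun j hj => div_pos hpos (hw j hj)) ?_ ?_
    · have : ∑ j ∈ s, p j / (r / w j) = (∑ j ∈ s, p j * w j) / r := by
        rw [Finset.sum_div]
        refine Finset.sum_congr rfl (fun j hj => ?_)
        have := (hw j hj).ne'
        field_simp
      rw [this, div_le_one hpos]; exact hrs
    · intro j hj
      have h1 : -(T * w j) ≤ θ j := by
        have := neg_abs_le (θ j)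
        have h2 := hθ j hj
        linarith
      have h3 : r / w j * (-(T * w j)) ≤ r / w j * θ j :=
        mul_le_mul_of_nonneg_left h1 (div_pos hpos (hw j hj)).le
      have h4 : r / w j * (-(T * w j)) = -(r * T) := by
        have := (hw j hj).ne'
        field_simp
      linarith

end Pool.Agent.Lib.MP_589a62_gt.Full.DualS
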