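import Pool.Agent.Lib.MP_589a62_gt.Full.Large

/-!
# Padé bounds for `gam 3` and `gam 4`
-/

set_option autoImplicit false

namespace Pool.Agent.Lib.MP_589a62_gt.Full.Large

open Finset Real

/-- Jensen for the gap. -/
theorem gap_jensen {ι : Type*} (m : ℕ) (B : Finset ι) (p : ι → ℝ) (hp : ∀ j ∈ B, 0 < p j)
    (hB : B.Nonempty) :
    ∑ j ∈ B, gap m (p j) ≤ (∑ j ∈ B, p j) * gam m (B.card / ∑ j ∈ B, p j) := by
  set P := ∑ j ∈ B, p j with hP
  have hP0 : 0 < P := Finset.sum_pos hp hB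
  have hk : (0 : ℝ) < B.card := by exact_mod_cast hB.card_pos
  have h1 : ∀ j ∈ B, gap m (p j) ≤ -(1 / 2) * (p j * Real.log (P / B.card))
      + (1 / 2) * (P / B.card - p j) - (1 / 2) * (Real.log (m + 1) - Real.log m)
      - (p j / 2) * ((m + 1) * Real.log m - m * Real.log (m + 1)) := by
    intro j hj
    have hpj := hp j hj
    have h2 : Real.log (P / B.card / p j) ≤ P / B.card / p j - 1 :=
      Real.log_le_sub_one_of_pos (by positivity)
    rw [Real.log_div (by positivity) hpj.ne'] at h2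
    have h3 := mul_le_mul_of_nonneg_left h2 hpj.le
    have h4 : p j * (P / B.card / p j - 1) = P / B.card - p j := by field_simp
    rw [h4] at h3
    unfold gap
    linarith
  have h2 := Finset.sum_le_sum h1
  refine h2.trans (le_of_eq ?_)
  have e1 : ∑ j ∈ B, (-(1 / 2) * (p j * Real.log (P / B.card))
      + (1 / 2) * (P / B.card - p j) - (1 / 2) * (Real.log (m + 1) - Real.log m)
      - (p j / 2) * ((m + 1) * Real.log m - m * Real.log (m + 1))) =
      -(1 / 2) * (P * Real.log (P / B.card)) + (1 / 2) * (B.card * (P / B.card) - P)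
      - B.card * ((1 / 2) * (Real.log (m + 1) - Real.log m))
      - (P / 2) * ((m + 1) * Real.log m - m * Real.log (m + 1)) := by
    simp only [Finset.sum_add_distrib, Finset.sum_sub_distrib, ← Finset.mul_sum, ← Finset.sum_mul,
      ← Finset.sum_div, Finset.sum_const, nsmul_eq_mul]
    rw [← hP]
    ring
  rw [e1]
  unfold gam
  have e2 : Real.log (B.card / P) = - Real.log (P / B.card) := by
    rw [← Real.log_inv, inv_div]
  rw [e2]
  field_simp
  ring

theorem gam_pade (m : ℕ) (hm : 1 ≤ m) (t s : ℝ) (hs0 : 0 ≤ s) (hs1 : s ≤ 1) (hts : t = m + s) :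
    gam m t ≤ (1 / 2) * (s * (1 - s)) * ((6 * m + s) / (m * (6 * m + 4 * s))
      - (6 * t + 3 * (1 - s)) / (6 * t ^ 2 + 6 * t * (1 - s) + (1 - s) ^ 2)) := by
  have hm' : (1 : ℝ) ≤ m := by exact_mod_cast hm
  have hm0 : (0 : ℝ) < m := by linarith
  have ht : 0 < t := by linarith
  have h1s : 0 ≤ 1 - s := by linarith
  have h1 : Real.log t - Real.log m ≤ s * ((6 * m + s) / (m * (6 * m + 4 * s))) := by
    have e1 : Real.log t - Real.log m = Real.log (1 + s / m) := by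
      rw [← Real.log_div ht.ne' hm0.ne', hts]
      congr 1
      field_simp
    rw [e1]
    refine (log_le_pade (s / m) (by positivity)).trans (le_of_eq ?_)
    have : 6 * (m : ℝ) + 4 * s ≠ 0 := by positivity
    have : 6 + 4 * (s / m) ≠ 0 := by positivity
    field_simp
  have h2 : (1 - s) * ((6 * t + 3 * (1 - s)) / (6 * t ^ 2 + 6 * t * (1 - s) + (1 - s) ^ 2)) ≤
      Real.log (m + 1) - Real.log t := by
    have e1 : Real.log (m + 1) - Real.log t = Real.log (1 + (1 - s) / t) := by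
      rw [← Real.log_div (by positivity) ht.ne']
      congr 1
      field_simp
      linarith
    rw [e1]
    refine le_trans (le_of_eq ?_) (log_ge_pade ((1 - s) / t) (div_nonneg (by linarith) ht.le))
    have h10 : 0 < 6 * t ^ 2 + 6 * t * (1 - s) + (1 - s) ^ 2 := by positivity
    have h11 : 6 + 6 * ((1 - s) / t) + ((1 - s) / t) ^ 2
          = (6 * t ^ 2 + 6 * t * (1 - s) + (1 - s) ^ 2) / t ^ 2 := by
      field_simp
    rw [h11]
    have := h10.ne'
    field_simp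
  have h3 : gam m t = (1 / 2) * ((1 - s) * (Real.log t - Real.log m)
      - s * (Real.log (m + 1) - Real.log t)) := by
    unfold gam
    rw [hts]
    ring
  rw [h3]
  have h4 := mul_le_mul_of_nonneg_left h1 h1s
  have h5 := mul_le_mul_of_nonneg_left h2 hs0
  nlinarith

/-- `γ_4(5 - u) ≤ u (1 - u) (0.01161 + 0.00183 u)`. -/
theorem gam_four (t s : ℝ) (hs0 : 0 ≤ s) (hs1 : s ≤ 1) (hts : t = 4 + s) :
    gam 4 t ≤ s * (1 - s) * (0.01161 + 0.00183 * (1 - s)) := by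
  have h := gam_pade 4 (by norm_num) t s hs0 hs1 (by rw [hts]; norm_num)
  refine h.trans ?_
  have hss : 0 ≤ s * (1 - s) := mul_nonneg hs0 (by linarith)
  have hB : 0 < 6 * (4 + s) ^ 2 + 6 * (4 + s) * (1 - s) + (1 - s) ^ 2 := by
    have : 0 ≤ 1 - s := by linarith
    positivity
  have key : (1 / 2) * ((6 * ((4 : ℕ) : ℝ) + s) / (((4 : ℕ) : ℝ) * (6 * ((4 : ℕ) : ℝ) + 4 * s))
      - (6 * t + 3 * (1 - s)) / (6 * t ^ 2 + 6 * t * (1 - s) + (1 - s) ^ 2)) ≤
      0.01161 + 0.00183 * (1 - s) := by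
    rw [hts]
    push_cast
    rw [div_sub_div _ _ (by positivity) hB.ne', mul_div_assoc', div_le_iff₀ (by positivity)]
    have h2 : 0 ≤ s ^ 2 := sq_nonneg s
    have h3 : s ^ 2 ≤ s := by nlinarith
    have h4 : s ^ 3 ≤ s ^ 2 := by nlinarith
    have h5 : s ^ 4 ≤ s ^ 3 := by nlinarith [pow_nonneg hs0 3]
    nlinarith [pow_nonneg hs0 3, pow_nonneg hs0 4]
  have := mul_le_mul_of_nonneg_left key hss
  nlinarith

/-- `γ_3(3 + s) ≤ 0.1 s (1-s) / (3 + 2 s)`. -/
theorem gam_three_f (t s : ℝ) (hs0 : 0 ≤ s) (hs1 : s ≤ 1) (hts : t = 3 + s) :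
    gam 3 t ≤ 0.1 * (s * (1 - s) / (3 + 2 * s)) := by
  have h := gam_pade 3 (by norm_num) t s hs0 hs1 (by rw [hts]; norm_num)
  refine h.trans ?_
  have hss : 0 ≤ s * (1 - s) := mul_nonneg hs0 (by linarith)
  have hB : 0 < 6 * (3 + s) ^ 2 + 6 * (3 + s) * (1 - s) + (1 - s) ^ 2 := by
    have : 0 ≤ 1 - s := by linarith
    positivity
  have key : (1 / 2) * ((6 * ((3 : ℕ) : ℝ) + s) / (((3 : ℕ) : ℝ) * (6 * ((3 : ℕ) : ℝ) + 4 * s))
      - (6 * t + 3 * (1 - s)) / (6 * t ^ 2 + 6 * t * (1 - s) + (1 - s) ^ 2)) ≤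
      0.1 / (3 + 2 * s) := by
    rw [hts]
    push_cast
    rw [div_sub_div _ _ (by positivity) hB.ne', mul_div_assoc', div_le_div_iff₀ (by positivity)
      (by positivity)]
    have h3 : s ^ 2 ≤ s := by nlinarith
    have h4 : s ^ 3 ≤ s ^ 2 := by nlinarith
    have h5 : s ^ 4 ≤ s ^ 3 := by nlinarith [pow_nonneg hs0 3]
    nlinarith [pow_nonneg hs0 3, pow_nonneg hs0 4]
  have := mul_le_mul_of_nonneg_left key hss
  calc _ = s * (1 - s) * ((1 / 2) * ((6 * ((3 : ℕ) : ℝ) + s) / (((3 : ℕ) : ℝ) * (6 * ((3 : ℕ) : ℝ) + 4 * s))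
      - (6 * t + 3 * (1 - s)) / (6 * t ^ 2 + 6 * t * (1 - s) + (1 - s) ^ 2))) := by ring
    _ ≤ _ := this
    _ = _ := by ring

/-- `γ_3 ≤ 0.0052`. -/
theorem gam_three_max (t s : ℝ) (hs0 : 0 ≤ s) (hs1 : s ≤ 1) (hts : t = 3 + s) :
    gam 3 t ≤ 0.0052 := by
  have h := gam_pade 3 (by norm_num) t s hs0 hs1 (by rw [hts]; norm_num)
  refine h.trans ?_
  have hB : 0 < 6 * (3 + s) ^ 2 + 6 * (3 + s) * (1 - s) + (1 - s) ^ 2 := by
    have : 0 ≤ 1 - s := by linarith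
    positivity
  rw [hts]
  push_cast
  rw [div_sub_div _ _ (by positivity) hB.ne', mul_div_assoc', div_le_iff₀ (by positivity)]
  have e5 : 5 * 0.47 ^ 4 * s - 4 * 0.47 ^ 5 ≤ s ^ 5 := by
    have h3 : 0 ≤ (s - 0.47) ^ 2 * (s ^ 3 + 2 * 0.47 * s ^ 2 + 3 * 0.47 ^ 2 * s + 4 * 0.47 ^ 3) := by
      positivity
    nlinarith
  have e4 : 4 * 0.47 ^ 3 * s - 3 * 0.47 ^ 4 ≤ s ^ 4 := by
    have h3 : 0 ≤ (s - 0.47) ^ 2 * (s ^ 2 + 2 * 0.47 * s + 3 * 0.47 ^ 2) := by
      positivity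
    nlinarith
  have e3 : 0 ≤ s * (s - 0.47) ^ 2 := by positivity
  have e2 : 0 ≤ (5511391/31250 * s - 16833800827/200000000) ^ 2 := sq_nonneg _
  nlinarith

/-- `γ_3(t) ≤ 0.021 / (t + 0.3)`. -/
theorem gam_three_V (t s : ℝ) (hs0 : 0 ≤ s) (hs1 : s ≤ 1) (hts : t = 3 + s) :
    gam 3 t ≤ 0.021 / (t + 0.3) := by
  have h := gam_pade 3 (by norm_num) t s hs0 hs1 (by rw [hts]; norm_num)
  refine h.trans ?_
  have hB : 0 < 6 * (3 + s) ^ 2 + 6 * (3 + s) * (1 - s) + (1 - s) ^ 2 := by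
    have : 0 ≤ 1 - s := by linarith
    positivity
  rw [hts]
  push_cast
  rw [div_sub_div _ _ (by positivity) hB.ne', mul_div_assoc', div_le_div_iff₀ (by positivity)
    (by positivity)]
  have e6 : 0 ≤ s ^ 6 := by positivity
  have e5 : 0 ≤ s ^ 5 := by positivity
  have e4 : 0 ≤ s ^ 4 := by positivity
  have e3 : 0 ≤ s * (s - 0.53) ^ 2 := by positivity
  have e2 : 0 ≤ (2 * 557.2 * s - 589.9) ^ 2 := sq_nonneg _
  nlinarith

/-- `γ_3(t) ≤ 0.01894 (4 - t)`. -/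
theorem gam_three_tan (t : ℝ) (ht : 0 < t) (ht4 : t ≤ 4) :
    gam 3 t ≤ 0.01894 * (4 - t) := by
  have h1 : Real.log t - Real.log 4 ≤ t / 4 - 1 := by
    rw [← Real.log_div ht.ne' (by norm_num)]
    exact Real.log_le_sub_one_of_pos (by positivity)
  have h2 : Real.log 4 - Real.log 3 ≤ 19 / 66 := by
    rw [← Real.log_div (by norm_num) (by norm_num)]
    have := log_le_pade (1 / 3) (by norm_num)
    norm_num at this
    exact this
  have h3 : gam 3 t = (1 / 2) * ((Real.log t - Real.log 4) + (4 - t) * (Real.log 4 - Real.log 3)) := by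
    unfold gam
    have : (((3 : ℕ) : ℝ) + 1) = 4 := by norm_num
    rw [this]
    push_cast
    ring
  rw [h3]
  nlinarith

end Pool.Agent.Lib.MP_589a62_gt.Full.Large
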