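import Pool.Agent.Lib.MP_589a62_gt.Full.MInd
import Pool.Agent.Lib.MP_589a62_gt.Full.Dual
import Pool.Agent.Lib.MP_589a62_gt.Full.Large
import Mathlib.Analysis.Complex.ExponentialBounds

/-!
# The gap function

`gap m c = -1/2 c log c - (ga m + gb m * c)`: the difference between `-1/2 c log c` and its chord through
the points `1/(m+1)` and `1/m`.
-/

set_option autoImplicit false

open Matrix Finset MeasureTheory Set Real
open scoped ENNReal

namespace Pool.Agent.Lib.MP_589a62_gt.Full.Gap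

/-- Constant term of the chord. -/
noncomputable def ga (m : ℕ) : ℝ := (1 / 2) * Real.log (((m : ℝ) + 1) / m)

/-- Slope of the chord. -/
noncomputable def gb (m : ℕ) : ℝ := (1 / 2) * Real.log m - m * ga m

/-- The gap. -/
noncomputable def gap (m : ℕ) (c : ℝ) : ℝ := -(1 / 2) * c * Real.log c - ga m - gb m * c

lemma log_BB {m : ℕ} (hm : 1 ≤ m) (n k : ℕ) :
    Real.log (BB m n k) = 2 * (n * ga m + k * gb m) := by
  have h0 : (0 : ℝ) < m := by exact_mod_cast hm
  unfold BB gb ga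
  rw [Real.log_mul (by positivity) (by positivity), Real.log_pow, Real.log_pow,
    Real.log_div (x := (m : ℝ) ^ (m + 1)) (by positivity) (by positivity), Real.log_pow,
    Real.log_pow, Real.log_div (by positivity) (by positivity)]
  push_cast
  ring

lemma sum_rowSq {n k : ℕ} (U : Matrix (Fin n) (Fin k) ℝ) (hU : Uᵀ * U = 1) :
    ∑ i, rowSq U i = k := by
  have h : ∑ i, rowSq U i = (Uᵀ * U).trace := by
    simp only [rowSq, Matrix.trace, Matrix.diag, Matrix.mul_apply, Matrix.transpose_apply]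
    rw [Finset.sum_comm]
    simp only [sq]
  rw [h, hU, Matrix.trace_one, Fintype.card_fin]

lemma sum_gap {n k : ℕ} (m : ℕ) (U : Matrix (Fin n) (Fin k) ℝ) (hU : Uᵀ * U = 1) :
    ∑ i, gap m (rowSq U i) =
      -(1 / 2) * ∑ i, rowSq U i * Real.log (rowSq U i) - (n * ga m + k * gb m) := by
  unfold gap
  rw [Finset.sum_sub_distrib, Finset.sum_sub_distrib, ← Finset.mul_sum, sum_rowSq U hU,
    Finset.sum_const, Finset.card_univ, Fintype.card_fin, nsmul_eq_mul, Finset.mul_sum]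
  have : ∑ i, -(1 / 2) * rowSq U i * Real.log (rowSq U i) =
      ∑ i, -(1 / 2) * (rowSq U i * Real.log (rowSq U i)) :=
    Finset.sum_congr rfl fun i _ => by ring
  rw [this]
  ring

/-- If the deficit in the Brascamp-Lieb bound is at least the total gap, the `m`-bound holds. -/
theorem le_BB_of_gap {n k m : ℕ} (hm : 1 ≤ m) (U : Matrix (Fin n) (Fin k) ℝ) (hU : Uᵀ * U = 1)
    (D : ℝ) (hvol : vol U ≤ Real.exp (-(1 / 2) * ∑ i, rowSq U i * Real.log (rowSq U i) - D))
    (hD : ∑ i, gap m (rowSq U i) ≤ D) : vol U ^ 2 ≤ BB m n k := by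
  have hv0 : 0 ≤ vol U := ENNReal.toReal_nonneg
  have h1 : vol U ≤ Real.exp (n * ga m + k * gb m) := by
    refine hvol.trans (Real.exp_le_exp.2 ?_)
    rw [sum_gap m U hU] at hD
    linarith
  calc vol U ^ 2 ≤ Real.exp (n * ga m + k * gb m) ^ 2 := pow_le_pow_left₀ hv0 h1 2
    _ = Real.exp (Real.log (BB m n k)) := by
        rw [log_BB hm, ← Real.exp_nat_mul]
        push_cast
        rfl
    _ = BB m n k := Real.exp_log (BB_pos hm n k)

/-- Tangent of the gap at `c₀`. -/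
theorem gap_tangent (m : ℕ) {c c₀ : ℝ} (hc : 0 < c) (hc₀ : 0 < c₀) :
    gap m c ≤ -(1 / 2) * c * Real.log c₀ - (1 / 2) * (c - c₀) - ga m - gb m * c := by
  have h1 : Real.log (c₀ / c) ≤ c₀ / c - 1 := Real.log_le_sub_one_of_pos (by positivity)
  rw [Real.log_div hc₀.ne' hc.ne'] at h1
  have h2 : c * (Real.log c₀ - Real.log c) ≤ c * (c₀ / c - 1) := mul_le_mul_of_nonneg_left h1 hc.le
  have h3 : c * (c₀ / c - 1) = c₀ - c := by field_simp
  unfold gap
  nlinarith

/-- Total gap of a family, tangent form. -/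
theorem sum_gap_tangent {ι : Type*} (m : ℕ) (s : Finset ι) (c : ι → ℝ) (hc : ∀ i ∈ s, 0 < c i)
    {c₀ : ℝ} (hc₀ : 0 < c₀) :
    ∑ i ∈ s, gap m (c i) ≤ (s.card : ℝ) * (c₀ / 2 - ga m) -
      (∑ i ∈ s, c i) * ((1 / 2) * Real.log c₀ + 1 / 2 + gb m) := by
  have h := Finset.sum_le_sum fun i hi => gap_tangent m (hc i hi) hc₀
  refine h.trans_eq ?_
  rw [Finset.sum_mul, ← nsmul_eq_mul, ← Finset.sum_const, ← Finset.sum_sub_distrib]
  exact Finset.sum_congr rfl fun i _ => by ring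

/-- The gap vanishes at the two ends. -/
lemma gap_left {m : ℕ} (hm : 1 ≤ m) : gap m (1 / ((m : ℝ) + 1)) = 0 := by
  have h0 : (0 : ℝ) < m := by exact_mod_cast hm
  unfold gap gb ga
  rw [Real.log_div (x := 1) (by positivity) (by positivity), Real.log_div (by positivity) (by positivity),
    Real.log_one]
  field_simp
  ring

lemma gap_right {m : ℕ} (hm : 1 ≤ m) : gap m (1 / (m : ℝ)) = 0 := by
  have h0 : (0 : ℝ) < m := by exact_mod_cast hm
  unfold gap gb ga
  rw [Real.log_div (x := 1) (by positivity) (by positivity), Real.log_div (by positivity) (by positivity),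
    Real.log_one]
  field_simp
  ring

/-- Concavity of the gap. -/
lemma gap_concave (m : ℕ) : ConcaveOn ℝ (Set.Ici 0) (gap m) := by
  have h1 : ConvexOn ℝ (Set.Ici (0 : ℝ)) fun x => x * Real.log x := Real.convexOn_mul_log
  have h2 : ConcaveOn ℝ (Set.Ici (0 : ℝ)) fun x => -((1 / 2 : ℝ) * (x * Real.log x)) :=
    (h1.smul (by norm_num : (0 : ℝ) ≤ 1 / 2)).neg
  have h3 : ConcaveOn ℝ (Set.Ici (0 : ℝ)) fun x => -ga m - gb m * x := by
    refine ⟨convex_Ici 0, fun x _ y _ a b _ _ hab => ?_⟩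
    simp only [smul_eq_mul]
    have : a * (-ga m - gb m * x) + b * (-ga m - gb m * y) =
        -(a + b) * ga m - gb m * (a * x + b * y) := by ring
    rw [this, hab]
    linarith
  have h4 := h2.add h3
  refine h4.congr fun x _ => ?_
  simp only [Pi.add_apply, gap]
  ring

lemma gap_nonneg {m : ℕ} (hm : 1 ≤ m) {c : ℝ} (h1 : 1 / ((m : ℝ) + 1) ≤ c) (h2 : c ≤ 1 / (m : ℝ)) :
    0 ≤ gap m c := by
  have h0 : (0 : ℝ) < m := by exact_mod_cast hm
  have hle : 1 / ((m : ℝ) + 1) ≤ 1 / (m : ℝ) := h1.trans h2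
  have hmem : c ∈ segment ℝ (1 / ((m : ℝ) + 1)) (1 / (m : ℝ)) := by
    rw [segment_eq_Icc hle]; exact ⟨h1, h2⟩
  have h := (gap_concave m).min_le_of_mem_segment (x := 1 / ((m : ℝ) + 1)) (y := 1 / (m : ℝ))
    (Set.mem_Ici.2 (by positivity)) (Set.mem_Ici.2 (by positivity)) hmem
  rwa [gap_left hm, gap_right hm, min_self] at h

/-- Jensen for the gap. -/
theorem sum_gap_le {ι : Type*} (m : ℕ) (s : Finset ι) (c : ι → ℝ) (hc : ∀ i ∈ s, 0 < c i)
    (hs : s.Nonempty) :
    ∑ i ∈ s, gap m (c i) ≤ (s.card : ℝ) * gap m ((∑ i ∈ s, c i) / s.card) := by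
  have hcard : (0 : ℝ) < s.card := by exact_mod_cast hs.card_pos
  have hT : 0 < ∑ i ∈ s, c i := Finset.sum_pos hc hs
  have h := sum_gap_tangent m s c hc (c₀ := (∑ i ∈ s, c i) / s.card) (by positivity)
  refine h.trans_eq ?_
  unfold gap
  field_simp
  ring

/-- The two definitions of the gap agree. -/
lemma large_gap_eq {m : ℕ} (hm : 1 ≤ m) (c : ℝ) : Large.gap m c = gap m c := by
  have h0 : (0 : ℝ) < m := by exact_mod_cast hm
  unfold Large.gap gap gb ga
  rw [Real.log_div (by positivity) (by positivity)]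
  ring

/-! ### Numbers for `m = 2` -/

lemma ga_two_lt : ga 2 < 0.2027325543 := by
  unfold ga
  have e : (((2 : ℕ) : ℝ) + 1) / ((2 : ℕ) : ℝ) = 3 / 2 := by norm_num
  rw [e, Real.log_div (by norm_num) (by norm_num)]
  have := Real.log_three_lt_d9
  have := Real.log_two_gt_d9
  linarith

lemma ga_two_gt : 0.2027325538 < ga 2 := by
  unfold ga
  have e : (((2 : ℕ) : ℝ) + 1) / ((2 : ℕ) : ℝ) = 3 / 2 := by norm_num
  rw [e, Real.log_div (by norm_num) (by norm_num)]
  have := Real.log_three_gt_d9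
  have := Real.log_two_lt_d9
  linarith

lemma gb_two : gb 2 = (3 / 2) * Real.log 2 - Real.log 3 := by
  unfold gb ga
  have e : (((2 : ℕ) : ℝ) + 1) / ((2 : ℕ) : ℝ) = 3 / 2 := by norm_num
  rw [e, Real.log_div (by norm_num) (by norm_num)]
  push_cast
  ring

/-- Tangent lines for `m = 2`, with a rational lower bound for the logarithm. -/
theorem gap_two_line {c c₀ L : ℝ} (hc : 0 < c) (hc₀ : 0 < c₀) (hL : L ≤ Real.log c₀) :
    gap 2 c ≤ (c₀ / 2 - 0.2027325538) - c * (L / 2 + 0.4411084816) := by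
  have h1 := gap_tangent 2 hc hc₀
  have h2 := ga_two_gt
  have h3 : -0.0588915184 < gb 2 := by
    rw [gb_two]
    have := Real.log_three_lt_d9
    have := Real.log_two_gt_d9
    linarith
  nlinarith [mul_le_mul_of_nonneg_left hL hc.le, mul_le_mul_of_nonneg_left h3.le hc.le]

/-- Tangent bound for the total gap of a family, `m = 2`. -/
theorem sum_gap_two_line {ι : Type*} (s : Finset ι) (c : ι → ℝ) (hc : ∀ i ∈ s, 0 < c i)
    {c₀ L : ℝ} (hc₀ : 0 < c₀) (hL : L ≤ Real.log c₀) :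
    ∑ i ∈ s, gap 2 (c i) ≤ (s.card : ℝ) * (c₀ / 2 - 0.2027325538) -
      (∑ i ∈ s, c i) * (L / 2 + 0.4411084816) := by
  have h := Finset.sum_le_sum fun i hi => gap_two_line (hc i hi) hc₀ hL
  refine h.trans_eq ?_
  rw [Finset.sum_mul, ← nsmul_eq_mul, ← Finset.sum_const, ← Finset.sum_sub_distrib]

/-- The slope at `1/3`: `gap 2 c ≤ 0.108198 (c - 1/3)`. -/
theorem gap_two_slope {c : ℝ} (hc : 1 / 3 ≤ c) : gap 2 c ≤ 0.1081977 * (c - 1 / 3) := by
  have hc0 : 0 < c := lt_of_lt_of_le (by norm_num) hc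
  have h1 := gap_tangent 2 hc0 (c₀ := 1 / 3) (by norm_num)
  have e : Real.log (1 / 3) = -Real.log 3 := by rw [one_div, Real.log_inv]
  have h2 : (1 : ℝ) / 3 * ((1 / 2) * Real.log 3 - gb 2) - ga 2 = 0 := by
    have := gap_left (m := 2) (by norm_num)
    unfold gap at this
    have e2 : (1 : ℝ) / (((2 : ℕ) : ℝ) + 1) = 1 / 3 := by norm_num
    rw [e2, e] at this
    linarith
  rw [e] at h1
  have h3 : (1 / 2) * Real.log 3 - 1 / 2 - gb 2 ≤ 0.1081977 := by
    rw [gb_two]
    have := Real.log_three_lt_d9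
    have := Real.log_two_gt_d9
    linarith
  nlinarith [mul_le_mul_of_nonneg_right h3 (sub_nonneg.2 hc)]

end Pool.Agent.Lib.MP_589a62_gt.Full.Gap
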