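import Pool.Agent.Lib.MP_589a62_gt.Full.Master
import Mathlib.Probability.Distributions.Gaussian.Real
import Mathlib.Probability.Distributions.Gaussian.CharFun

/-!
# Two orthonormal linear forms under the gaussian weight
-/

set_option autoImplicit false
set_option linter.unusedSectionVars false

open Matrix Finset MeasureTheory Set Real ProbabilityTheory
open scoped ENNReal NNReal

namespace Pool.Agent.Lib.MP_589a62_gt.Full

/-- The variance `1/(2π)`. -/
noncomputable def vv : ℝ≥0 := ⟨(2 * π)⁻¹, by positivity⟩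

lemma vv_coe : (vv : ℝ) = (2 * π)⁻¹ := rfl

lemma vv_ne : vv ≠ 0 := by
  intro h
  have : (vv : ℝ) = 0 := by rw [h]; rfl
  rw [vv_coe] at this
  have h2 : 0 < (2 * π)⁻¹ := by positivity
  linarith

/-- The gaussian measure with density `exp (-π t²)`. -/
noncomputable def nu : Measure ℝ := gaussianReal 0 vv

instance : IsProbabilityMeasure nu := by unfold nu; infer_instance

lemma pdf_eq (t : ℝ) : gaussianPDFReal 0 vv t = Real.exp (-π * t ^ 2) := by
  rw [gaussianPDFReal, vv_coe]
  have h1 : 2 * π * (2 * π)⁻¹ = 1 := mul_inv_cancel₀ (by positivity)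
  rw [h1, Real.sqrt_one, inv_one, one_mul, sub_zero]
  congr 1
  field_simp

lemma nu_eq : nu = volume.withDensity (fun t => ENNReal.ofReal (Real.exp (-π * t ^ 2))) := by
  rw [nu, gaussianReal_of_var_ne_zero _ vv_ne]
  congr 1
  funext t
  rw [gaussianPDF, pdf_eq]

lemma integral_nu (f : ℝ → ℝ) : ∫ t, f t ∂nu = ∫ t, f t * Real.exp (-π * t ^ 2) := by
  have h := integral_withDensity_eq_integral_smul (μ := (volume : Measure ℝ))
    (f := fun t => Real.toNNReal (Real.exp (-π * t ^ 2))) (by fun_prop) f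
  rw [nu_eq]
  change ∫ t, f t ∂(volume.withDensity (fun t => ((Real.toNNReal (Real.exp (-π * t ^ 2)) : ℝ≥0) : ℝ≥0∞))) = _
  rw [h]
  refine integral_congr_ae (Filter.Eventually.of_forall fun t => ?_)
  simp only [NNReal.smul_def, smul_eq_mul]
  rw [Real.coe_toNNReal _ (Real.exp_pos _).le, mul_comm]

variable {κ : Type*} [Fintype κ] [DecidableEq κ]

lemma withDensity_gw : (Measure.pi fun _ : κ => nu) =
    volume.withDensity (fun y : κ → ℝ => ENNReal.ofReal (gw y)) := by
  refine Measure.pi_eq fun s hs => ?_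
  have hms : MeasurableSet (Set.pi univ s) := MeasurableSet.univ_pi hs
  rw [withDensity_apply _ hms, ← lintegral_indicator hms]
  have h1 : (fun y : κ → ℝ => (Set.pi univ s).indicator (fun y => ENNReal.ofReal (gw y)) y) =
      fun y => ENNReal.ofReal (∏ l, (s l).indicator (fun t => Real.exp (-π * t ^ 2)) (y l)) := by
    funext y
    by_cases hy : y ∈ Set.pi univ s
    · rw [Set.indicator_of_mem hy, gw, Finset.mul_sum, Real.exp_sum]
      congr 1
      refine Finset.prod_congr rfl fun l _ => ?_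
      rw [Set.indicator_of_mem (hy l (Set.mem_univ l))]
    · rw [Set.indicator_of_notMem hy]
      obtain ⟨l, hl⟩ : ∃ l, y l ∉ s l := by
        by_contra hcon
        push Not at hcon
        exact hy fun l _ => hcon l
      rw [Finset.prod_eq_zero (Finset.mem_univ l) (Set.indicator_of_notMem hl _),
        ENNReal.ofReal_zero]
  have hint1 : ∀ l, Integrable ((s l).indicator (fun t : ℝ => Real.exp (-π * t ^ 2))) := fun l =>
    (integrable_exp_neg_mul_sq Real.pi_pos).indicator (hs l)
  have h2 : Integrable (fun y : κ → ℝ =>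
      ∏ l, (s l).indicator (fun t => Real.exp (-π * t ^ 2)) (y l)) :=
    Integrable.fintype_prod (f := fun l => (s l).indicator (fun t : ℝ => Real.exp (-π * t ^ 2))) hint1
  have h3 : ∀ l (t : ℝ), 0 ≤ (s l).indicator (fun t => Real.exp (-π * t ^ 2)) t := fun l t =>
    Set.indicator_nonneg (fun _ _ => (Real.exp_pos _).le) _
  rw [h1, ← ofReal_integral_eq_lintegral_ofReal h2
    (Filter.Eventually.of_forall fun y => Finset.prod_nonneg fun l _ => h3 l _),
    integral_fintype_prod_volume_eq_prod (fun l t => (s l).indicator (fun t => Real.exp (-π * t ^ 2)) t),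
    ENNReal.ofReal_prod_of_nonneg fun l _ => integral_nonneg (h3 l)]
  refine Finset.prod_congr rfl fun l _ => ?_
  rw [integral_indicator (hs l), nu, gaussianReal_apply_eq_integral _ vv_ne]
  simp only [pdf_eq]

lemma integral_mul_gw (F : (κ → ℝ) → ℝ) :
    ∫ Y, F Y * gw Y = ∫ Y, F Y ∂(Measure.pi fun _ : κ => nu) := by
  have h := integral_withDensity_eq_integral_smul (μ := (volume : Measure (κ → ℝ)))
    (f := fun t => Real.toNNReal (gw t)) (continuous_gw.measurable.real_toNNReal) F
  rw [withDensity_gw]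
  change _ = ∫ Y, F Y ∂(volume.withDensity (fun t => ((Real.toNNReal (gw t) : ℝ≥0) : ℝ≥0∞)))
  rw [h]
  refine integral_congr_ae (Filter.Eventually.of_forall fun t => ?_)
  simp only [NNReal.smul_def, smul_eq_mul]
  rw [Real.coe_toNNReal _ (gw_pos t).le, mul_comm]

lemma integrable_mul_gw (F : (κ → ℝ) → ℝ) :
    Integrable (fun Y => F Y * gw Y) ↔ Integrable F (Measure.pi fun _ : κ => nu) := by
  have h := integrable_withDensity_iff_integrable_smul (μ := (volume : Measure (κ → ℝ)))
    (f := fun t => Real.toNNReal (gw t)) (continuous_gw.measurable.real_toNNReal) (g := F)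
  rw [withDensity_gw]
  change _ ↔ Integrable F (volume.withDensity (fun t => ((Real.toNNReal (gw t) : ℝ≥0) : ℝ≥0∞)))
  rw [h]
  refine integrable_congr (Filter.Eventually.of_forall fun t => ?_)
  simp only [NNReal.smul_def, smul_eq_mul]
  rw [Real.coe_toNNReal _ (gw_pos t).le, mul_comm]

lemma charFunDual_nu (L : StrongDual ℝ ℝ) :
    charFunDual nu L = Complex.exp (-((vv : ℝ) * (L 1) ^ 2 / 2 : ℝ)) := by
  have h1 : charFunDual nu L = charFun nu (L 1) := by
    rw [charFunDual_apply, charFun_apply_real]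
    refine integral_congr_ae (Filter.Eventually.of_forall fun t => ?_)
    have : L t = L 1 * t := by
      have := L.map_smul t 1
      simp only [smul_eq_mul, mul_one] at this
      rw [this]; ring
    simp only [this]
    push_cast
    ring_nf
  rw [h1, nu, charFun_gaussianReal]
  congr 1
  push_cast
  simp

/-- The linear form `⟨a, ·⟩`. -/
noncomputable def dotL (a : κ → ℝ) : (κ → ℝ) →L[ℝ] ℝ :=
  ∑ l, a l • ContinuousLinearMap.proj (R := ℝ) (φ := fun _ : κ => ℝ) l

lemma dotL_apply (a Y : κ → ℝ) : dotL a Y = a ⬝ᵥ Y := by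
  simp [dotL, dotProduct]

/-- **Two orthonormal linear forms are independent.** -/
theorem map_pair (a b : κ → ℝ) (ha : a ⬝ᵥ a = 1) (hb : b ⬝ᵥ b = 1) (hab : a ⬝ᵥ b = 0) :
    (Measure.pi fun _ : κ => nu).map (fun Y => (a ⬝ᵥ Y, b ⬝ᵥ Y)) = nu.prod nu := by
  have hT : (fun Y : κ → ℝ => (a ⬝ᵥ Y, b ⬝ᵥ Y)) = ((dotL a).prod (dotL b)) := by
    funext Y
    simp [dotL_apply]
  rw [hT]
  refine Measure.ext_of_charFunDual ?_
  ext L
  rw [charFunDual_map, charFunDual_pi, charFunDual_prod, charFunDual_nu, charFunDual_nu]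
  simp only [charFunDual_nu]
  rw [← Complex.exp_sum, ← Complex.exp_add]
  congr 1
  set s : ℝ := L (1, 0) with hs
  set t : ℝ := L (0, 1) with ht
  have h1 : ∀ l, ((L.comp ((dotL a).prod (dotL b))).comp
      (ContinuousLinearMap.single ℝ (fun _ : κ => ℝ) l)) 1 = s * a l + t * b l := by
    intro l
    simp only [ContinuousLinearMap.comp_apply, ContinuousLinearMap.prod_apply, dotL_apply,
      ContinuousLinearMap.single_apply]
    rw [dotProduct_single, dotProduct_single, mul_one, mul_one]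
    have h2 : ((a l, b l) : ℝ × ℝ) = a l • ((1, 0) : ℝ × ℝ) + b l • ((0, 1) : ℝ × ℝ) := by
      ext <;> simp
    rw [h2, map_add, map_smul, map_smul, smul_eq_mul, smul_eq_mul]
    ring
  simp only [h1]
  have h3 : (L.comp (ContinuousLinearMap.inl ℝ ℝ ℝ)) 1 = s := by simp [hs]
  have h4 : (L.comp (ContinuousLinearMap.inr ℝ ℝ ℝ)) 1 = t := by simp [ht]
  rw [h3, h4]
  rw [← Complex.ofReal_neg, ← Complex.ofReal_neg, ← Complex.ofReal_add]
  simp only [← Complex.ofReal_neg]
  rw [← Complex.ofReal_sum]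
  congr 1
  have h5 : ∑ l, (s * a l + t * b l) ^ 2 = s ^ 2 + t ^ 2 := by
    have : ∀ l, (s * a l + t * b l) ^ 2 = s ^ 2 * (a l * a l) + t ^ 2 * (b l * b l) +
        2 * s * t * (a l * b l) := fun l => by ring
    simp only [this, Finset.sum_add_distrib, ← Finset.mul_sum]
    simp only [dotProduct] at ha hb hab
    rw [ha, hb, hab]
    ring
  have h6 : ∑ l, -((vv : ℝ) * (s * a l + t * b l) ^ 2 / 2) =
      -((vv : ℝ) / 2 * ∑ l, (s * a l + t * b l) ^ 2) := by
    rw [Finset.mul_sum, ← Finset.sum_neg_distrib]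
    exact Finset.sum_congr rfl fun l _ => by ring
  rw [h6, h5]
  ring

/-- Integration of a function of two orthonormal linear forms. -/
theorem integral_pair (a b : κ → ℝ) (ha : a ⬝ᵥ a = 1) (hb : b ⬝ᵥ b = 1) (hab : a ⬝ᵥ b = 0)
    {f : ℝ × ℝ → ℝ} (hf : Measurable f) :
    ∫ Y, f (a ⬝ᵥ Y, b ⬝ᵥ Y) * gw Y = ∫ p, f p ∂(nu.prod nu) := by
  rw [integral_mul_gw (fun Y => f (a ⬝ᵥ Y, b ⬝ᵥ Y)), ← map_pair a b ha hb hab, integral_map]
  · have : (fun Y : κ → ℝ => (a ⬝ᵥ Y, b ⬝ᵥ Y)) = ((dotL a).prod (dotL b)) := by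
      funext Y
      simp [dotL_apply]
    rw [this]
    exact (ContinuousLinearMap.continuous _).measurable.aemeasurable
  · exact hf.aestronglyMeasurable

end Pool.Agent.Lib.MP_589a62_gt.Full
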