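import Pool.Agent.Lib.MP_589a62_gt.Full.PLGen
import Pool.Agent.Lib.MP_589a62_gt.Mixed
import Mathlib.LinearAlgebra.Matrix.SchurComplement

/-!
# Deletion, contraction and the induction for the `m`-inequality
-/

set_option autoImplicit false

open Matrix Finset MeasureTheory Set Real
open scoped ENNReal

namespace Pool.Agent.Lib.MP_589a62_gt.Full

lemma det_one_add_outer {k : ℕ} (t : ℝ) (u : Fin k → ℝ) :
    (1 + t • vecMulVec u u : Matrix (Fin k) (Fin k) ℝ).det = 1 + t * (u ⬝ᵥ u) := by
  have h := det_one_add_replicateCol_mul_replicateRow (ι := Unit) (t • u) u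
  rw [dotProduct_smul, smul_eq_mul] at h
  rw [← h]
  congr 2
  ext i j
  simp [vecMulVec_apply, Matrix.mul_apply, mul_assoc]

lemma outer_mul_outer {k : ℕ} (a b : ℝ) (u : Fin k → ℝ) :
    (1 + a • vecMulVec u u : Matrix (Fin k) (Fin k) ℝ) * (1 + b • vecMulVec u u) =
      1 + (a + b + a * b * (u ⬝ᵥ u)) • vecMulVec u u := by
  have h : vecMulVec u u * vecMulVec u u = (u ⬝ᵥ u) • vecMulVec u u := by
    rw [vecMulVec_mul_vecMulVec, vecMulVec_smul]
  rw [Matrix.add_mul, Matrix.mul_add, Matrix.mul_add, Matrix.one_mul, Matrix.one_mul,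
    Matrix.mul_one, Matrix.smul_mul, Matrix.mul_smul, h]
  module

lemma transpose_outer {k : ℕ} (a : ℝ) (u : Fin k → ℝ) :
    (1 + a • vecMulVec u u : Matrix (Fin k) (Fin k) ℝ)ᵀ = 1 + a • vecMulVec u u := by
  rw [transpose_add, transpose_one, transpose_smul, transpose_vecMulVec]

lemma rowSq_eq_dot {n k : ℕ} (U : Matrix (Fin n) (Fin k) ℝ) (i : Fin n) :
    rowSq U i = U i ⬝ᵥ U i := by
  simp only [rowSq, dotProduct, sq]

lemma transpose_mul_self_split {n k : ℕ} (U : Matrix (Fin (n + 1)) (Fin k) ℝ) (i0 : Fin (n + 1)) :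
    (U.submatrix i0.succAbove id)ᵀ * (U.submatrix i0.succAbove id) =
      Uᵀ * U + (-1 : ℝ) • vecMulVec (U i0) (U i0) := by
  ext a b
  simp only [Matrix.mul_apply, Matrix.transpose_apply, Matrix.submatrix_apply, id_eq,
    Matrix.add_apply, Matrix.smul_apply, vecMulVec_apply, smul_eq_mul]
  rw [Fin.sum_univ_succAbove _ i0]
  ring

/-- Volumes under an invertible linear change of variables. -/
lemma volume_mul_right {n k : ℕ} (W : Matrix (Fin n) (Fin k) ℝ) (R : Matrix (Fin k) (Fin k) ℝ)
    (hR : R.det ≠ 0) :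
    volume (openSec (W * R)) = ENNReal.ofReal |R.det⁻¹| * volume (openSec W) := by
  have h : openSec (W * R) = (Matrix.toLin' R) ⁻¹' (openSec W) := by
    ext x
    simp only [openSec, Set.mem_ofPred_eq, Set.mem_preimage, Matrix.toLin'_apply,
      Matrix.mulVec_mulVec]
  rw [h, Measure.addHaar_preimage_linearMap, LinearMap.det_toLin']
  rwa [LinearMap.det_toLin']

/-- **Deletion.** -/
theorem deletion {n k : ℕ} (U : Matrix (Fin (n + 1)) (Fin k) ℝ) (hU : Uᵀ * U = 1)
    (i0 : Fin (n + 1)) (hc : rowSq U i0 < 1) :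
    ∃ W : Matrix (Fin n) (Fin k) ℝ, Wᵀ * W = 1 ∧ vol U ^ 2 * (1 - rowSq U i0) ≤ vol W ^ 2 := by
  set c := rowSq U i0 with hcdef
  have hc0 : 0 ≤ c := rowSq_nonneg U i0
  have hs0 : 0 < √(1 - c) := Real.sqrt_pos.2 (by linarith)
  have hs2 : √(1 - c) ^ 2 = 1 - c := Real.sq_sqrt (by linarith)
  set s := √(1 - c) with hs
  have hcs : c = 1 - s ^ 2 := by linarith
  -- `b = -1/(1+s)`, `b² c + 2 b = -1`
  set b : ℝ := -(1 + s)⁻¹ with hb
  have hs1 : (1 + s) ≠ 0 := by positivity
  have huu : U i0 ⬝ᵥ U i0 = c := (rowSq_eq_dot U i0).symm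
  set R : Matrix (Fin k) (Fin k) ℝ := 1 + b • vecMulVec (U i0) (U i0) with hRdef
  have hdetR : R.det = s := by
    rw [hRdef, det_one_add_outer, huu, hb, hcs]
    field_simp
    ring
  have hRR : R * R = 1 + (-1 : ℝ) • vecMulVec (U i0) (U i0) := by
    rw [hRdef, outer_mul_outer, huu]
    congr 2
    rw [hb, hcs]
    field_simp
    ring
  have hRT : Rᵀ = R := transpose_outer _ _
  have hRunit : IsUnit R.det := by rw [hdetR]; exact (isUnit_iff_ne_zero.2 hs0.ne')
  set A : Matrix (Fin n) (Fin k) ℝ := U.submatrix i0.succAbove id with hA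
  have hAA : Aᵀ * A = R * R := by
    rw [hA, transpose_mul_self_split, hU, hRR]
  refine ⟨A * R⁻¹, ?_, ?_⟩
  · rw [Matrix.transpose_mul, Matrix.transpose_nonsing_inv, hRT]
    calc R⁻¹ * Aᵀ * (A * R⁻¹) = R⁻¹ * (Aᵀ * A) * R⁻¹ := by simp only [Matrix.mul_assoc]
      _ = R⁻¹ * R * (R * R⁻¹) := by rw [hAA]; simp only [Matrix.mul_assoc]
      _ = 1 := by rw [Matrix.nonsing_inv_mul _ hRunit, Matrix.mul_nonsing_inv _ hRunit, Matrix.one_mul]
  · set W : Matrix (Fin n) (Fin k) ℝ := A * R⁻¹ with hW
    have hWW : Wᵀ * W = 1 := by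
      rw [hW, Matrix.transpose_mul, Matrix.transpose_nonsing_inv, hRT]
      calc R⁻¹ * Aᵀ * (A * R⁻¹) = R⁻¹ * (Aᵀ * A) * R⁻¹ := by simp only [Matrix.mul_assoc]
        _ = R⁻¹ * R * (R * R⁻¹) := by rw [hAA]; simp only [Matrix.mul_assoc]
        _ = 1 := by
          rw [Matrix.nonsing_inv_mul _ hRunit, Matrix.mul_nonsing_inv _ hRunit, Matrix.one_mul]
    have hWR : W * R = A := by
      rw [hW, Matrix.mul_assoc, Matrix.nonsing_inv_mul _ hRunit, Matrix.mul_one]
    have h1 : volume (openSec U) ≤ volume (openSec A) := by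
      refine measure_mono fun x hx j => ?_
      exact hx (i0.succAbove j)
    rw [← hWR, volume_mul_right W R (by rw [hdetR]; exact hs0.ne'), hdetR,
      abs_of_pos (inv_pos.2 hs0)] at h1
    have h2 : vol U ≤ s⁻¹ * vol W := by
      have h3 := ENNReal.toReal_mono (ENNReal.mul_ne_top ENNReal.ofReal_ne_top
        (volume_openSec_ne_top W hWW)) h1
      rwa [ENNReal.toReal_mul, ENNReal.toReal_ofReal (inv_pos.2 hs0).le] at h3
    have hv0 : 0 ≤ vol U := ENNReal.toReal_nonneg
    have h4 : s * vol U ≤ vol W := by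
      calc s * vol U ≤ s * (s⁻¹ * vol W) := mul_le_mul_of_nonneg_left h2 hs0.le
        _ = vol W := by field_simp
    calc vol U ^ 2 * (1 - c) = (s * vol U) ^ 2 := by rw [← hs2]; ring
      _ ≤ vol W ^ 2 := pow_le_pow_left₀ (mul_nonneg hs0.le hv0) h4 2

/-- A symmetric orthogonal matrix carrying `v` to `|v| e_0`. -/
lemma exists_householder {k : ℕ} (v : Fin (k + 1) → ℝ) :
    ∃ H : Matrix (Fin (k + 1)) (Fin (k + 1)) ℝ, Hᵀ = H ∧ H * H = 1 ∧
      v ᵥ* H = (√(v ⬝ᵥ v)) • (Pi.single 0 1 : Fin (k + 1) → ℝ) := by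
  set r := √(v ⬝ᵥ v) with hr
  have hvv : 0 ≤ v ⬝ᵥ v := by
    simp only [dotProduct]
    exact Finset.sum_nonneg fun i _ => mul_self_nonneg _
  have hr2 : r * r = v ⬝ᵥ v := Real.mul_self_sqrt hvv
  set e : Fin (k + 1) → ℝ := Pi.single 0 1 with he
  have hee : e ⬝ᵥ e = 1 := by rw [he]; simp
  set w : Fin (k + 1) → ℝ := v - r • e with hw
  have hve : v ⬝ᵥ e = e ⬝ᵥ v := dotProduct_comm _ _
  have hww : w ⬝ᵥ w = 2 * (r * r - r * (e ⬝ᵥ v)) := by
    rw [hw]
    simp only [sub_dotProduct, dotProduct_sub, smul_dotProduct, dotProduct_smul, smul_eq_mul, hee,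
      hve, ← hr2]
    ring
  have hvw : v ⬝ᵥ w = r * r - r * (e ⬝ᵥ v) := by
    rw [hw]
    simp only [dotProduct_sub, dotProduct_smul, smul_eq_mul, hve, ← hr2]
  by_cases h0 : w ⬝ᵥ w = 0
  · refine ⟨1, transpose_one, Matrix.one_mul _, ?_⟩
    rw [vecMul_one]
    have : w = 0 := by
      have h1 := h0
      simp only [dotProduct] at h1
      rw [Finset.sum_eq_zero_iff_of_nonneg (fun i _ => mul_self_nonneg _)] at h1
      funext i
      exact mul_self_eq_zero.1 (h1 i (Finset.mem_univ i))
    rw [hw, sub_eq_zero] at this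
    exact this
  · refine ⟨1 + (-2 / (w ⬝ᵥ w)) • vecMulVec w w, transpose_outer _ _, ?_, ?_⟩
    · rw [outer_mul_outer]
      have : -2 / (w ⬝ᵥ w) + -2 / (w ⬝ᵥ w) + -2 / (w ⬝ᵥ w) * (-2 / (w ⬝ᵥ w)) * (w ⬝ᵥ w) = 0 := by
        field_simp
        ring
      rw [this, zero_smul, add_zero]
    · rw [vecMul_add, vecMul_one, vecMul_smul, vecMul_vecMulVec, smul_smul]
      have : -2 / (w ⬝ᵥ w) * (v ⬝ᵥ w) = -1 := by
        have h3 : w ⬝ᵥ w = 2 * (v ⬝ᵥ w) := by rw [hww, hvw]
        rw [h3] at h0 ⊢
        have h4 : v ⬝ᵥ w ≠ 0 := fun h => h0 (by rw [h, mul_zero])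
        field_simp
      rw [this, hw]
      module

/-- A slice of an open section. -/
lemma measurableSet_openSec {n k : ℕ} (U : Matrix (Fin n) (Fin k) ℝ) :
    MeasurableSet (openSec U) := (isOpen_openSec U).measurableSet

/-- The central slice is the largest one. -/
lemma slice_le {n k : ℕ} (A : Matrix (Fin n) (Fin k) ℝ) (b : Fin n → ℝ) :
    volume {y : Fin k → ℝ | ∀ i, |b i + (A *ᵥ y) i| < 1 / 2} ≤ volume (openSec A) := by
  set S : Set (Fin k → ℝ) := {y : Fin k → ℝ | ∀ i, |b i + (A *ᵥ y) i| < 1 / 2} with hS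
  have hopen : IsOpen S := by
    have : S = ⋂ i, {y | |b i + (A *ᵥ y) i| < 1 / 2} := by ext x; simp [hS]
    rw [this]
    refine isOpen_iInter_of_finite fun i => ?_
    refine isOpen_lt ?_ continuous_const
    exact (continuous_const.add ((continuous_apply i).comp
      (Continuous.matrix_mulVec continuous_const continuous_id))).abs
  have hmS := hopen.measurableSet
  have hmN : MeasurableSet (-S) := hmS.neg
  have key := pl_gen (κ := Fin k) (lam := 1 / 2) (by norm_num) (by norm_num)
    (f := S.indicator (fun _ => (1 : ℝ≥0∞))) (g := (-S).indicator (fun _ => (1 : ℝ≥0∞)))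
    (h := (openSec A).indicator (fun _ => (1 : ℝ≥0∞)))
    (measurable_const.indicator hmS) (measurable_const.indicator hmN)
    (measurable_const.indicator (measurableSet_openSec A)) ?_
  · rw [lintegral_indicator hmS, lintegral_indicator hmN, lintegral_indicator (measurableSet_openSec A)]
      at key
    simp only [lintegral_const, one_mul, Measure.restrict_apply_univ] at key
    have hneg : volume (-S) = volume S := Measure.measure_neg _ _
    rw [hneg] at key
    by_cases hS0 : volume S = 0
    · rw [hS0]; exact zero_le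
    by_cases hST : volume S = ⊤
    · rw [hST] at key ⊢
      rw [ENNReal.top_rpow_of_pos (by norm_num), ENNReal.top_rpow_of_pos (by norm_num)] at key
      simpa using key
    · rw [← ENNReal.rpow_add _ _ hS0 hST] at key
      norm_num at key
      exact key
  · intro x y
    by_cases hx : x ∈ S
    · by_cases hy : y ∈ -S
      · have hm : (1 - (1 / 2 : ℝ)) • x + (1 / 2 : ℝ) • y ∈ openSec A := by
          intro i
          have h1 := abs_lt.1 (hx i)
          have h2 := abs_lt.1 ((Set.mem_neg.1 hy) i)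
          rw [Matrix.mulVec_neg, Pi.neg_apply] at h2
          rw [Matrix.mulVec_add, Matrix.mulVec_smul, Matrix.mulVec_smul]
          simp only [Pi.add_apply, Pi.smul_apply, smul_eq_mul]
          rw [abs_lt]
          constructor <;> linarith [h1.1, h1.2, h2.1, h2.2]
        rw [Set.indicator_of_mem hx, Set.indicator_of_mem hy, Set.indicator_of_mem hm]
        simp
      · rw [Set.indicator_of_notMem hy, ENNReal.zero_rpow_of_pos (by norm_num), mul_zero]
        exact zero_le
    · rw [Set.indicator_of_notMem hx, ENNReal.zero_rpow_of_pos (by norm_num), zero_mul]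
      exact zero_le

/-- **Contraction.** -/
theorem contraction {n k : ℕ} (U : Matrix (Fin (n + 1)) (Fin (k + 1)) ℝ) (hU : Uᵀ * U = 1)
    (i0 : Fin (n + 1)) (hc : 0 < rowSq U i0) :
    ∃ W : Matrix (Fin n) (Fin k) ℝ, Wᵀ * W = 1 ∧ vol U ^ 2 * rowSq U i0 ≤ vol W ^ 2 := by
  set c := rowSq U i0 with hcdef
  have hs0 : 0 < √c := Real.sqrt_pos.2 hc
  obtain ⟨H, hHT, hHH, hrow⟩ := exists_householder (U i0)
  rw [← rowSq_eq_dot, ← hcdef] at hrow
  set V : Matrix (Fin (n + 1)) (Fin (k + 1)) ℝ := U * H with hV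
  have hVV : Vᵀ * V = 1 := by
    rw [hV, Matrix.transpose_mul, hHT]
    calc H * Uᵀ * (U * H) = H * (Uᵀ * U) * H := by simp only [Matrix.mul_assoc]
      _ = 1 := by rw [hU, Matrix.mul_one, hHH]
  have hVrow : V i0 = (√c) • (Pi.single 0 1 : Fin (k + 1) → ℝ) := by
    rw [← hrow, hV]
    rfl
  have hdet : |H.det| = 1 := by
    have h1 : H.det * H.det = 1 := by rw [← Matrix.det_mul, hHH, Matrix.det_one]
    have h2 : |H.det| * |H.det| = 1 := by rw [← abs_mul, h1, abs_one]
    nlinarith [abs_nonneg H.det]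
  have hvolV : vol U = vol V := by
    have hne : H.det ≠ 0 := by
      intro h
      rw [h, abs_zero] at hdet
      norm_num at hdet
    have h1 := volume_mul_right U H hne
    rw [abs_inv, hdet, inv_one, ENNReal.ofReal_one, one_mul] at h1
    unfold vol
    rw [hV, h1]
  set W : Matrix (Fin n) (Fin k) ℝ := V.submatrix i0.succAbove Fin.succ with hW
  refine ⟨W, ?_, ?_⟩
  · ext a b
    have h1 := congrFun (congrFun hVV a.succ) b.succ
    simp only [Matrix.mul_apply, Matrix.transpose_apply] at h1 ⊢
    rw [Fin.sum_univ_succAbove _ i0, hVrow] at h1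
    simp only [Pi.smul_apply, ne_eq, Fin.succ_ne_zero, not_false_eq_true, Pi.single_eq_of_ne,
      smul_eq_mul, mul_zero, zero_add] at h1
    rw [hW]
    simp only [Matrix.submatrix_apply]
    rw [h1, Matrix.one_apply, Matrix.one_apply]
    simp [Fin.succ_inj]
  · -- the volume
    have hWW : volume (openSec V) ≤ ENNReal.ofReal (√c)⁻¹ * volume (openSec W) := by
      have hind : Measurable ((openSec V).indicator (fun _ => (1 : ℝ≥0∞))) :=
        measurable_const.indicator (measurableSet_openSec V)
      have h0 : volume (openSec V) = ∫⁻ x, (openSec V).indicator (fun _ => (1 : ℝ≥0∞)) x := by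
        rw [lintegral_indicator (measurableSet_openSec V), lintegral_one,
          Measure.restrict_apply_univ]
      rw [h0, MP_a34d76_pr.Quad.PL.lintegral_succ hind]
      have hslice : ∀ s : ℝ, ∫⁻ y : Fin k → ℝ,
          (openSec V).indicator (fun _ => (1 : ℝ≥0∞)) (Fin.cons s y : Fin (k + 1) → ℝ) ≤
          (Ioo (-(√c)⁻¹ / 2) ((√c)⁻¹ / 2)).indicator (fun _ => volume (openSec W)) s := by
        intro s
        by_cases hs : s ∈ Ioo (-(√c)⁻¹ / 2) ((√c)⁻¹ / 2)
        · rw [Set.indicator_of_mem hs]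
          set S : Set (Fin k → ℝ) := {y : Fin k → ℝ | ∀ i, |V (i0.succAbove i) 0 * s +
            (W *ᵥ y) i| < 1 / 2} with hSdef
          refine le_trans ?_ (slice_le W (fun i => V (i0.succAbove i) 0 * s))
          have hopen : IsOpen S := by
            have : S = ⋂ i, {y | |V (i0.succAbove i) 0 * s + (W *ᵥ y) i| < 1 / 2} := by
              ext x; simp [hSdef]
            rw [this]
            refine isOpen_iInter_of_finite fun i => ?_
            refine isOpen_lt ?_ continuous_const
            exact (continuous_const.add ((continuous_apply i).comp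
              (Continuous.matrix_mulVec continuous_const continuous_id))).abs
          calc ∫⁻ y : Fin k → ℝ,
              (openSec V).indicator (fun _ => (1 : ℝ≥0∞)) (Fin.cons s y : Fin (k + 1) → ℝ)
              ≤ ∫⁻ y : Fin k → ℝ, S.indicator (fun _ => (1 : ℝ≥0∞)) y := by
                refine lintegral_mono fun y => ?_
                by_cases hy : y ∈ S
                · rw [Set.indicator_of_mem hy]
                  by_cases hz : (Fin.cons s y : Fin (k + 1) → ℝ) ∈ openSec V
                  · rw [Set.indicator_of_mem hz]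
                  · rw [Set.indicator_of_notMem hz]; exact zero_le
                · rw [Set.indicator_of_notMem hy, Set.indicator_of_notMem]
                  intro hz
                  apply hy
                  intro i
                  have := hz (i0.succAbove i)
                  simp only [Matrix.mulVec, dotProduct, Fin.sum_univ_succ, Fin.cons_zero,
                    Fin.cons_succ] at this
                  simpa only [hW, Matrix.mulVec, dotProduct, Matrix.submatrix_apply] using this
            _ = volume S := by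
                rw [lintegral_indicator hopen.measurableSet, lintegral_one,
                  Measure.restrict_apply_univ]
        · rw [Set.indicator_of_notMem hs]
          refine le_of_eq ?_
          have hz0 : ∀ y : Fin k → ℝ,
              (openSec V).indicator (fun _ => (1 : ℝ≥0∞)) (Fin.cons s y : Fin (k + 1) → ℝ) = 0 := by
            intro y
            rw [Set.indicator_of_notMem]
            intro hz
            apply hs
            have h1 := hz i0
            simp only [Matrix.mulVec, hVrow, dotProduct, Fin.sum_univ_succ] at h1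
            simp only [Pi.smul_apply, Pi.single_eq_same, smul_eq_mul, mul_one, Fin.cons_zero, ne_eq,
              Fin.succ_ne_zero, not_false_eq_true, Pi.single_eq_of_ne, mul_zero, zero_mul,
              Finset.sum_const_zero, add_zero] at h1
            rw [abs_mul, abs_of_pos hs0] at h1
            have h2 : |s| < (√c)⁻¹ / 2 := by
              rw [inv_eq_one_div, div_div, lt_div_iff₀ (mul_pos hs0 two_pos)]
              linarith
            have h3 := abs_lt.1 h2
            exact ⟨by linarith [h3.1], h3.2⟩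
          simp only [hz0, lintegral_zero]
      refine (lintegral_mono hslice).trans ?_
      rw [lintegral_indicator measurableSet_Ioo, lintegral_const, Measure.restrict_apply_univ,
        Real.volume_Ioo, mul_comm]
      refine le_of_eq ?_
      congr 2
      ring
    have hWfin : Wᵀ * W = 1 := by
      ext a b
      have h1 := congrFun (congrFun hVV a.succ) b.succ
      simp only [Matrix.mul_apply, Matrix.transpose_apply] at h1 ⊢
      rw [Fin.sum_univ_succAbove _ i0, hVrow] at h1
      simp only [Pi.smul_apply, ne_eq, Fin.succ_ne_zero, not_false_eq_true, Pi.single_eq_of_ne,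
        smul_eq_mul, mul_zero, zero_add] at h1
      rw [hW]
      simp only [Matrix.submatrix_apply]
      rw [h1, Matrix.one_apply, Matrix.one_apply]
      simp [Fin.succ_inj]
    have h2 : vol V ≤ (√c)⁻¹ * vol W := by
      have h3 := ENNReal.toReal_mono (ENNReal.mul_ne_top ENNReal.ofReal_ne_top
        (volume_openSec_ne_top W hWfin)) hWW
      rwa [ENNReal.toReal_mul, ENNReal.toReal_ofReal (inv_pos.2 hs0).le] at h3
    have hv0 : 0 ≤ vol V := ENNReal.toReal_nonneg
    have h4 : √c * vol V ≤ vol W := by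
      calc √c * vol V ≤ √c * ((√c)⁻¹ * vol W) := mul_le_mul_of_nonneg_left h2 hs0.le
        _ = vol W := by field_simp
    rw [hvolV]
    calc vol V ^ 2 * c = (√c * vol V) ^ 2 := by
          rw [mul_pow, Real.sq_sqrt hc.le]; ring
      _ ≤ vol W ^ 2 := pow_le_pow_left₀ (mul_nonneg hs0.le hv0) h4 2

end Pool.Agent.Lib.MP_589a62_gt.Full
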