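import Pool.Agent.Lib.MP_589a62_gt.Full.GamP

/-!
# `m = 3`: a row with at most two near partners, near edges dropped

`RA z = 0.2435 - 0.2415 z + 0.1457 z² - 0.1179 z³`.
-/

set_option autoImplicit false

namespace Pool.Agent.Lib.MP_589a62_gt.Full.Light3

open Finset Real Large

variable {ι : Type*}

/-- `f(z) ≥ f(z_c)` or `f(z) ≥ f(s)`, `z_c = 0.7 t / (t + 0.3)`. -/
theorem f_between (t s z : ℝ) (ht1 : 1 ≤ t) (hs : 0 ≤ s) (hz : s ≤ z)
    (hzc : z * (t + 3 / 10) ≤ 7 / 10 * t) :
    f t s ≤ f t z ∨ 21 / 100 / (t + 3 / 10) ≤ f t z := by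
  have ht : 0 < t := by linarith
  have hz0 : 0 ≤ z := hs.trans hz
  have h1 : 0 < t + z := by linarith
  have h2 : 0 < t + s := by linarith
  have h3 : 0 < t + 3 / 10 := by linarith
  by_cases h : 0 ≤ t * (1 - z - s) - z * s
  · left
    unfold f
    rw [div_le_div_iff₀ h2 h1]
    have : 0 ≤ (z - s) * (t * (1 - z - s) - z * s) := mul_nonneg (by linarith) h
    nlinarith
  · right
    have h' : t * (1 - z - s) - z * s < 0 := not_le.mp h
    unfold f
    rw [div_le_div_iff₀ h3 h1]
    have h4 : 0 ≤ (7 / 10 * t - z * (t + 3 / 10)) := by linarith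
    have h5 : t * (1 - z) ≤ (t + z) * s := by nlinarith
    have h6 : t * (1 - z) ≤ (t + z) * z := by
      have : (t + z) * s ≤ (t + z) * z := mul_le_mul_of_nonneg_left hz h1.le
      linarith
    have h7 : 3 / 10 ≤ z := by
      by_contra hc
      have hc' : z < 3 / 10 := not_le.mp hc
      nlinarith
    have h10 : z * (1 - z) * (t + 3 / 10) - 21 / 100 * (t + z) =
        (7 / 10 * t - z * (t + 3 / 10)) * (z - 3 / 10) := by
      ring
    have h12 : 0 ≤ z * (1 - z) * (t + 3 / 10) - 21 / 100 * (t + z) := by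
      rw [h10]; exact mul_nonneg h4 (by linarith)
    linarith

/-- **Light rows.** `N` = near partners (at most two), `S` = far partners. -/
theorem light_row [DecidableEq ι] (t R : ℝ) (ht3 : 3 ≤ t) (ht4 : t ≤ 4) (N S : Finset ι)
    (c x : ι → ℝ) (hN : N.card ≤ 2)
    (hcN : ∀ j ∈ N, 0 < c j) (hxN : ∀ j ∈ N, 0 ≤ x j)
    (hB1N : ∀ j ∈ N, 1 / c j ≤ t + (1 - x j)) (hB2N : ∀ j ∈ N, t ≤ 1 / c j + (1 - x j))
    (hcS : ∀ j ∈ S, 0 < c j) (hxS : ∀ j ∈ S, 0 ≤ x j) (hfar : ∀ j ∈ S, x j ≤ 7 / 10)
    (hB1S : ∀ j ∈ S, 1 / c j ≤ t + (1 - x j)) (hB2S : ∀ j ∈ S, t ≤ 1 / c j + (1 - x j))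
    (hsum : 1 / t + ∑ j ∈ N, c j * x j + ∑ j ∈ S, c j * x j = 1)
    (hR1 : ∑ j ∈ S, c j * x j ≤ 1 / 5 → 1 / 5 ≤ R)
    (hR2 : 1 / 5 ≤ ∑ j ∈ S, c j * x j → 0.0347 ≤ R * ∑ j ∈ S, c j * x j) :
    gam 3 t ≤ (1 / 2) * R * ∑ j ∈ S, c j * x j * (1 - x j) := by
  have ht : 0 < t := by linarith
  set ρ := ∑ j ∈ S, c j * x j with hρ
  set Fr := ∑ j ∈ S, c j * x j * (1 - x j) with hFr
  have hρ0 : 0 ≤ ρ := Finset.sum_nonneg fun j hj => mul_nonneg (hcS j hj).le (hxS j hj)
  have hF3 : 3 / 10 * ρ ≤ Fr := by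
    rw [hρ, hFr, Finset.mul_sum]
    refine Finset.sum_le_sum fun j hj => ?_
    have h1 := mul_nonneg (hcS j hj).le (hxS j hj)
    have h2 := hfar j hj
    nlinarith
  have hF0 : 0 ≤ Fr := le_trans (by positivity) hF3
  rcases le_total ρ (1 / 5) with hle | hge
  · have hR := hR1 hle
    -- `γ ≤ 0.1 * F`
    have hkey : gam 3 t ≤ 0.1 * Fr := by
      set s := t - 3 with hs
      have hs0 : 0 ≤ s := by linarith
      have hs1 : s ≤ 1 := by linarith
      set z := t * ρ with hz
      have hz0 : 0 ≤ z := by positivity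
      have hz1 : z ≤ 1 := by nlinarith
      have hbN := fun j hj => term_bounds t (c j) (x j) (by linarith) (hcN j hj) (hxN j hj)
        (hB1N j hj) (hB2N j hj)
      have hbS := fun j hj => term_bounds t (c j) (x j) (by linarith) (hcS j hj) (hxS j hj)
        (hB1S j hj) (hB2S j hj)
      -- near mass at most 2
      have hnear : t * ∑ j ∈ N, c j * x j ≤ 2 := by
        rw [Finset.mul_sum]
        calc ∑ j ∈ N, t * (c j * x j) ≤ ∑ j ∈ N, (1 : ℝ) :=
              Finset.sum_le_sum fun j hj => (hbN j hj).2.1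
          _ = (N.card : ℝ) := by simp
          _ ≤ 2 := by exact_mod_cast hN
      have hsz : s ≤ z := by
        have h1 : t * (1 / t + ∑ j ∈ N, c j * x j + ρ) = t * 1 := by rw [hsum]
        have h2 : t * (1 / t) = 1 := by field_simp
        rw [mul_add, mul_add, h2] at h1
        rw [hz, hs]
        linarith
      -- F ≥ f(z)
      have hFf : f t z ≤ Fr := by
        have h1 := g_sum t ht S (fun j => t * (c j * x j))
        rw [← Finset.mul_sum, ← hρ, ← hz, g_of_mem t z hz0 hz1] at h1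
        refine h1.trans ?_
        rw [hFr]
        refine Finset.sum_le_sum fun j hj => ?_
        rw [g_of_mem t _ (hbS j hj).1 (hbS j hj).2.1]
        exact (hbS j hj).2.2
      have hV := gam_three_V t s hs0 hs1 (by rw [hs]; ring)
      have hff := gam_three_f t s hs0 hs1 (by rw [hs]; ring)
      have eV : (0.021 : ℝ) / (t + 0.3) = 0.1 * (21 / 100 / (t + 3 / 10)) := by
        have : t + 3 / 10 ≠ 0 := by positivity
        norm_num
        field_simp
        norm_num
      rw [eV] at hV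
      by_cases hzc : z * (t + 3 / 10) ≤ 7 / 10 * t
      · rcases f_between t s z (by linarith) hs0 hsz hzc with h | h
        · have e1 : s * (1 - s) / (3 + 2 * s) = f t s := by
            unfold f
            have : t + s = 3 + 2 * s := by rw [hs]; ring
            rw [this]
          rw [e1] at hff
          linarith
        · linarith
      · have hzc' : 7 / 10 * t < z * (t + 3 / 10) := not_le.mp hzc
        have h1 : 21 / 100 / (t + 3 / 10) ≤ Fr := by
          refine le_trans ?_ hF3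
          rw [div_le_iff₀ (by positivity)]
          have : 7 / 10 * t < t * (ρ * (t + 3 / 10)) := by rw [hz] at hzc'; linarith
          have h2 : 7 / 10 < ρ * (t + 3 / 10) := by
            by_contra hc
            have hc' := not_lt.mp hc
            nlinarith
          linarith
        linarith
    have h1 : 0.1 * Fr ≤ 1 / 2 * R * Fr := by
      apply mul_le_mul_of_nonneg_right _ hF0
      linarith
    linarith
  · have hR := hR2 hge
    have hmax := gam_three_max t (t - 3) (by linarith) (by linarith) (by ring)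
    have hRpos : 0 < R := by
      by_contra hc
      have hc' := not_lt.mp hc
      nlinarith
    have h1 : 1 / 2 * R * (3 / 10 * ρ) ≤ 1 / 2 * R * Fr :=
      mul_le_mul_of_nonneg_left hF3 (by positivity)
    have h2 : (0.0052 : ℝ) ≤ 1 / 2 * R * (3 / 10 * ρ) := by
      have : 1 / 2 * R * (3 / 10 * ρ) = 3 / 20 * (R * ρ) := by ring
      rw [this]
      linarith
    linarith

end Pool.Agent.Lib.MP_589a62_gt.Full.Light3
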