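import Pool.Agent.Lib.MP_589a62_gt.Full.PLGen
import Pool.Agent.Lib.MP_589a62_gt.BL

/-!
# The dual bound: a lower bound for the defect by the Prekopa-Leindler inequality
-/

set_option autoImplicit false

open Matrix Finset MeasureTheory Set Real
open scoped ENNReal

namespace Pool.Agent.Lib.MP_589a62_gt.Full

variable {ι κ : Type*} [Fintype ι] [Fintype κ] [DecidableEq κ] [DecidableEq ι]

/-- The gaussian weight. -/
noncomputable def gw (y : κ → ℝ) : ℝ := Real.exp (-π * ∑ l, y l ^ 2)

omit [DecidableEq κ] in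
lemma gw_pos (y : κ → ℝ) : 0 < gw y := Real.exp_pos _

omit [DecidableEq κ] in
lemma continuous_gw : Continuous (gw : (κ → ℝ) → ℝ) := by
  unfold gw; fun_prop

omit [DecidableEq κ] in
lemma lintegral_gw : ∫⁻ y : κ → ℝ, ENNReal.ofReal (gw y) = 1 := lintegral_gauss_pi

omit [DecidableEq κ] in
lemma integrable_gw : Integrable (gw : (κ → ℝ) → ℝ) := by
  refine ⟨continuous_gw.aestronglyMeasurable, ?_⟩
  rw [hasFiniteIntegral_iff_ofReal (Filter.Eventually.of_forall fun y => (gw_pos y).le)]
  rw [lintegral_gw]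
  exact ENNReal.one_lt_top

omit [DecidableEq κ] in
lemma integral_gw : ∫ y : κ → ℝ, gw y = 1 := by
  rw [integral_eq_lintegral_of_nonneg_ae (Filter.Eventually.of_forall fun y => (gw_pos y).le)
    continuous_gw.aestronglyMeasurable, lintegral_gw, ENNReal.toReal_one]

/-- The numbers `α_i = √c_i exp (π g_i² / c_i)`. -/
noncomputable def alph (U : Matrix ι κ ℝ) (g : ι → ℝ) (i : ι) : ℝ :=
  √(rowSq U i) * Real.exp (π * (g i ^ 2 / rowSq U i))

/-- The functional `J(g) = log det (Uᵀ diag(α) U) - ∑ c_i log α_i`. -/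
noncomputable def JJ (U : Matrix ι κ ℝ) (g : ι → ℝ) : ℝ :=
  Real.log (Uᵀ * diagonal (alph U g) * U).det - ∑ i, rowSq U i * Real.log (alph U g i)

omit [DecidableEq κ] [DecidableEq ι] [Fintype ι] in
lemma alph_avec (U : Matrix ι κ ℝ) (hc : ∀ i, 0 < rowSq U i) (x : κ → ℝ) (i : ι) :
    alph U (avec U x) i = √(rowSq U i) * Real.exp (π * Phi ((U *ᵥ x) i) ^ 2) := by
  rw [alph, avec, mul_pow, Real.sq_sqrt (hc i).le, mul_div_cancel_left₀ _ (hc i).ne']

lemma tder_eq (U : Matrix ι κ ℝ) (hc : ∀ i, 0 < rowSq U i) (x : κ → ℝ) :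
    tder U x = Uᵀ * diagonal (alph U (avec U x)) * U := by
  have : alph U (avec U x) = fun i => √(rowSq U i) * Real.exp (π * Phi ((U *ᵥ x) i) ^ 2) :=
    funext fun i => alph_avec U hc x i
  rw [tder, this]

omit [DecidableEq κ] [DecidableEq ι] [Fintype ι] in
lemma alph_pos (U : Matrix ι κ ℝ) (hc : ∀ i, 0 < rowSq U i) (g : ι → ℝ) (i : ι) :
    0 < alph U g i := mul_pos (Real.sqrt_pos.2 (hc i)) (Real.exp_pos _)

lemma det_pos (U : Matrix ι κ ℝ) (hU : Uᵀ * U = 1) (hc : ∀ i, 0 < rowSq U i) (g : ι → ℝ) :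
    0 < (Uᵀ * diagonal (alph U g) * U).det := by
  have h1 := prod_rpow_le_det U hU (alph U g) (fun i => (alph_pos U hc g i).le)
  refine lt_of_lt_of_le ?_ h1
  exact Finset.prod_pos fun i _ => Real.rpow_pos_of_pos (alph_pos U hc g i) _

lemma JJ_nonneg (U : Matrix ι κ ℝ) (hU : Uᵀ * U = 1) (hc : ∀ i, 0 < rowSq U i) (g : ι → ℝ) :
    0 ≤ JJ U g := by
  have h1 := prod_rpow_le_det U hU (alph U g) (fun i => (alph_pos U hc g i).le)
  have h2 : Real.log (∏ i, alph U g i ^ rowSq U i) = ∑ i, rowSq U i * Real.log (alph U g i) := by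
    rw [Real.log_prod (fun i _ => (Real.rpow_pos_of_pos (alph_pos U hc g i) _).ne')]
    exact Finset.sum_congr rfl fun i _ => Real.log_rpow (alph_pos U hc g i) _
  have h3 := Real.log_le_log (Finset.prod_pos fun i _ =>
    Real.rpow_pos_of_pos (alph_pos U hc g i) _) h1
  rw [h2] at h3
  unfold JJ
  linarith

omit [DecidableEq κ] [DecidableEq ι] [Fintype ι] in
lemma log_alph (U : Matrix ι κ ℝ) (hc : ∀ i, 0 < rowSq U i) (g : ι → ℝ) (i : ι) :
    Real.log (alph U g i) = Real.log (rowSq U i) / 2 + π * (g i ^ 2 / rowSq U i) := by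
  rw [alph, Real.log_mul (Real.sqrt_pos.2 (hc i)).ne' (Real.exp_pos _).ne', Real.log_exp,
    Real.log_sqrt (hc i).le]

omit [DecidableEq κ] [DecidableEq ι] in
lemma sum_log_alph (U : Matrix ι κ ℝ) (hc : ∀ i, 0 < rowSq U i) (g : ι → ℝ) :
    ∑ i, rowSq U i * Real.log (alph U g i) =
      π * (∑ i, g i ^ 2) - Real.log (ballBound U) := by
  have h1 : Real.log (ballBound U) = -∑ i, rowSq U i * (Real.log (rowSq U i) / 2) := by
    rw [ballBound, Real.log_prod (fun i _ => (Real.rpow_pos_of_pos (hc i) _).ne'),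
      ← Finset.sum_neg_distrib]
    refine Finset.sum_congr rfl fun i _ => ?_
    rw [Real.log_rpow (hc i)]
    ring
  rw [h1, Finset.mul_sum, sub_neg_eq_add, ← Finset.sum_add_distrib]
  refine Finset.sum_congr rfl fun i _ => ?_
  rw [log_alph U hc]
  have := (hc i).ne'
  field_simp
  ring

/-- The exact formula for the jacobian. -/
lemma inv_det (U : Matrix ι κ ℝ) (hU : Uᵀ * U = 1) (hc : ∀ i, 0 < rowSq U i) (x : κ → ℝ) :
    ((tder U x).det)⁻¹ = ballBound U * Real.exp (-(JJ U (avec U x)) - π * defect U x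
      - π * ∑ l, tmap U x l ^ 2) := by
  have hd := det_pos U hU hc (avec U x)
  rw [← tder_eq U hc] at hd
  have h1 : JJ U (avec U x) = Real.log (tder U x).det -
      (π * (∑ i, avec U x i ^ 2) - Real.log (ballBound U)) := by
    rw [JJ, sum_log_alph U hc, ← tder_eq U hc]
  have h2 := defect_eq U hU x
  have hb := ballBound_pos U
  have h3 : -(JJ U (avec U x)) - π * defect U x - π * ∑ l, tmap U x l ^ 2 =
      -Real.log (tder U x).det - Real.log (ballBound U) := by
    rw [h1, h2]; ring
  rw [h3, Real.exp_sub, Real.exp_neg, Real.exp_log hd, Real.exp_log hb]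
  field_simp

omit [DecidableEq κ] in
lemma ofReal_integral_le {f : (κ → ℝ) → ℝ} (hf : Integrable f) :
    ENNReal.ofReal (∫ y, f y) ≤ ∫⁻ y, ENNReal.ofReal (f y) := by
  rw [integral_eq_lintegral_pos_part_sub_lintegral_neg_part hf]
  refine (ENNReal.ofReal_le_ofReal (sub_le_self _ ENNReal.toReal_nonneg)).trans ?_
  exact ENNReal.ofReal_toReal_le

omit [DecidableEq κ] in
/-- Jensen's inequality for the exponential function and the gaussian weight. -/
lemma jensen {F : (κ → ℝ) → ℝ} (hFi : Integrable (fun y => F y * gw y)) (v : ℝ) :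
    ENNReal.ofReal (Real.exp (v * ∫ y, F y * gw y)) ≤
      ∫⁻ y, ENNReal.ofReal (Real.exp (v * F y) * gw y) := by
  set a : ℝ := ∫ y, F y * gw y with ha
  have h1 : Integrable (fun y : κ → ℝ => Real.exp (v * a) * ((1 - v * a) * gw y + v * (F y * gw y))) :=
    ((integrable_gw.const_mul _).add (hFi.const_mul _)).const_mul _
  have h2 : ∫ y : κ → ℝ, Real.exp (v * a) * ((1 - v * a) * gw y + v * (F y * gw y)) =
      Real.exp (v * a) := by
    rw [integral_const_mul, integral_add (integrable_gw.const_mul _) (hFi.const_mul _),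
      integral_const_mul, integral_const_mul, integral_gw, ← ha]
    ring
  rw [← h2]
  refine (ofReal_integral_le h1).trans (lintegral_mono fun y => ENNReal.ofReal_le_ofReal ?_)
  have h3 : Real.exp (v * a) * (1 - v * a + v * F y) ≤ Real.exp (v * F y) := by
    have := Real.add_one_le_exp (v * F y - v * a)
    have h4 : Real.exp (v * F y) = Real.exp (v * a) * Real.exp (v * F y - v * a) := by
      rw [← Real.exp_add]; ring_nf
    rw [h4]
    refine mul_le_mul_of_nonneg_left ?_ (Real.exp_pos _).le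
    linarith
  have h5 := mul_le_mul_of_nonneg_right h3 (gw_pos y).le
  calc Real.exp (v * a) * ((1 - v * a) * gw y + v * (F y * gw y))
      = Real.exp (v * a) * (1 - v * a + v * F y) * gw y := by ring
    _ ≤ _ := h5

/-- **The master inequality.** -/
theorem master (U : Matrix ι κ ℝ) (hU : Uᵀ * U = 1) (hc : ∀ i, 0 < rowSq U i) {lam : ℝ}
    (h0 : 0 < lam) (h1 : lam < 1) {F : (κ → ℝ) → ℝ} (hF : Measurable F)
    (hFi : Integrable (fun y => F y * gw y))
    (hle : ∀ x ∈ openSec U, ∀ Y : κ → ℝ, F Y ≤ JJ U (avec U x) + π * defect U x +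
      lam * π * ∑ l, (tmap U x l - Y l) ^ 2) :
    volume (openSec U) ≤
      ENNReal.ofReal (ballBound U * Real.exp (-∫ y, F y * gw y)) := by
  have h1' : 0 < 1 - lam := by linarith
  have hm : MeasurableSet (openSec U) := (isOpen_openSec U).measurableSet
  have hcont : ContinuousOn (tmap U) (openSec U) := fun x hx =>
    (hasFDerivAt_tmap U hx).continuousAt.continuousWithinAt
  have hemb : MeasurableEmbedding ((openSec U).domRestrict (tmap U)) :=
    hcont.measurableEmbedding hm (injOn_tmap U hU)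
  have himg : MeasurableSet (tmap U '' openSec U) :=
    hm.image_of_continuousOn_injOn hcont (injOn_tmap U hU)
  -- measurability of the jacobian
  have hPhi : ContinuousOn Phi (Ioo (-(1 / 2) : ℝ) (1 / 2)) := fun t ht =>
    (hasDerivAt_Phi ht).continuousAt.continuousWithinAt
  have hdet : ContinuousOn (fun x => ENNReal.ofReal ((tder U x).det)⁻¹) (openSec U) := by
    refine ENNReal.continuous_ofReal.comp_continuousOn ?_
    have hcd : ContinuousOn (fun x => (tder U x).det) (openSec U) := by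
      have hcm : ContinuousOn (fun x => tder U x) (openSec U) := by
        unfold tder
        have hd : ContinuousOn (fun x : κ → ℝ => (diagonal (fun i => √(rowSq U i) *
            Real.exp (π * Phi ((U *ᵥ x) i) ^ 2)) : Matrix ι ι ℝ)) (openSec U) := by
          refine Continuous.comp_continuousOn
            (g := fun d : ι → ℝ => (diagonal d : Matrix ι ι ℝ)) (continuous_id.matrix_diagonal) ?_
          refine continuousOn_pi.2 fun i => ?_
          have hh : ContinuousOn (fun x : κ → ℝ => Phi ((U *ᵥ x) i)) (openSec U) := by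
            refine hPhi.comp ?_ (fun x hx => mem_openSec hx i)
            exact ((continuous_apply i).comp
              (Continuous.matrix_mulVec continuous_const continuous_id)).continuousOn
          exact continuousOn_const.mul
            (Real.continuous_exp.comp_continuousOn (continuousOn_const.mul (hh.pow 2)))
        have hmm : Continuous (fun D : Matrix ι ι ℝ => Uᵀ * D * U) :=
          (continuous_const.matrix_mul continuous_id).matrix_mul continuous_const
        exact hmm.comp_continuousOn hd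
      exact (Continuous.matrix_det continuous_id).comp_continuousOn hcm
    refine hcd.inv₀ fun x hx => ?_
    rw [tder_eq U hc]
    exact (det_pos U hU hc _).ne'
  have hmeas : Measurable ((openSec U).domRestrict (fun x => ENNReal.ofReal ((tder U x).det)⁻¹)) :=
    (continuousOn_iff_continuous_domRestrict.1 hdet).measurable
  obtain ⟨f', hf'm, hf'⟩ := hemb.exists_measurable_extend hmeas (fun _ => ⟨0⟩)
  have hf'2 : ∀ x ∈ openSec U, f' (tmap U x) = ENNReal.ofReal ((tder U x).det)⁻¹ := by
    intro x hx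
    exact congrFun hf' ⟨x, hx⟩
  -- the three functions
  have hfint : ∫⁻ y, (tmap U '' openSec U).indicator f' y = volume (openSec U) := by
    rw [lintegral_indicator himg]
    rw [lintegral_image_eq_lintegral_abs_det_fderiv_mul (volume : Measure (κ → ℝ)) hm
      (fun x hx => (hasFDerivAt_tmap U hx).hasFDerivWithinAt) (injOn_tmap U hU) f']
    have hone : volume (openSec U) = ∫⁻ _ in openSec U, (1 : ℝ≥0∞) := by
      rw [lintegral_one, Measure.restrict_apply_univ]
    rw [hone, ← lintegral_indicator hm, ← lintegral_indicator hm]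
    refine lintegral_congr fun x => ?_
    by_cases hx : x ∈ openSec U
    · rw [Set.indicator_of_mem hx, Set.indicator_of_mem hx, hf'2 x hx]
      rw [LinearMap.det_toContinuousLinearMap, LinearMap.det_toLin']
      have hd := det_pos U hU hc (avec U x)
      rw [← tder_eq U hc] at hd
      rw [abs_of_pos hd, ← ENNReal.ofReal_mul hd.le, mul_inv_cancel₀ hd.ne', ENNReal.ofReal_one]
    · rw [Set.indicator_of_notMem hx, Set.indicator_of_notMem hx]
  set v : ℝ := (1 - lam) / lam with hv
  have hpl := pl_gen (κ := κ) h0 h1 (f := (tmap U '' openSec U).indicator f')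
    (g := fun y => ENNReal.ofReal (Real.exp (v * F y) * gw y))
    (h := fun y => ENNReal.ofReal (ballBound U ^ (1 - lam) * gw y))
    (hf'm.indicator himg)
    (((hF.const_mul v).exp.mul continuous_gw.measurable).ennreal_ofReal)
    ((continuous_gw.measurable.const_mul _).ennreal_ofReal) ?_
  · rw [hfint] at hpl
    have hR : ∫⁻ y : κ → ℝ, ENNReal.ofReal (ballBound U ^ (1 - lam) * gw y) =
        ENNReal.ofReal (ballBound U) ^ (1 - lam) := by
      have hb := (ballBound_pos U)
      simp_rw [ENNReal.ofReal_mul (Real.rpow_pos_of_pos hb (1 - lam)).le]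
      rw [lintegral_const_mul' _ _ ENNReal.ofReal_ne_top, lintegral_gw, mul_one,
        ENNReal.ofReal_rpow_of_pos hb]
    rw [hR] at hpl
    have hJ := jensen hFi v
    have h2 : ENNReal.ofReal (Real.exp (∫ y, F y * gw y)) ^ (1 - lam) ≤
        (∫⁻ y, ENNReal.ofReal (Real.exp (v * F y) * gw y)) ^ lam := by
      refine le_trans (le_of_eq ?_) (ENNReal.rpow_le_rpow hJ h0.le)
      rw [ENNReal.ofReal_rpow_of_pos (Real.exp_pos _), ENNReal.ofReal_rpow_of_pos (Real.exp_pos _),
        ← Real.exp_mul, ← Real.exp_mul]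
      congr 2
      rw [hv]
      field_simp
    have h3 : (volume (openSec U) * ENNReal.ofReal (Real.exp (∫ y, F y * gw y))) ^ (1 - lam) ≤
        ENNReal.ofReal (ballBound U) ^ (1 - lam) := by
      rw [ENNReal.mul_rpow_of_nonneg _ _ h1'.le]
      exact (mul_le_mul_right h2 _).trans hpl
    have h4 := (ENNReal.rpow_le_rpow_iff h1').1 h3
    have h5 : volume (openSec U) ≤ ENNReal.ofReal (ballBound U) /
        ENNReal.ofReal (Real.exp (∫ y, F y * gw y)) := by
      rw [ENNReal.le_div_iff_mul_le]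
      · exact h4
      · left
        rw [Ne, ENNReal.ofReal_eq_zero, not_le]
        exact Real.exp_pos _
      · left
        exact ENNReal.ofReal_ne_top
    refine h5.trans (le_of_eq ?_)
    rw [← ENNReal.ofReal_div_of_pos (Real.exp_pos _), Real.exp_neg, div_eq_mul_inv]
  · intro w Y
    by_cases hw : w ∈ tmap U '' openSec U
    · obtain ⟨x, hx, rfl⟩ := hw
      rw [Set.indicator_of_mem (mem_image_of_mem _ hx), hf'2 x hx, inv_det U hU hc]
      have hb := ballBound_pos U
      have e1 : 0 < ballBound U * Real.exp (-(JJ U (avec U x)) - π * defect U x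
        - π * ∑ l, tmap U x l ^ 2) := mul_pos hb (Real.exp_pos _)
      have e2 : 0 < Real.exp (v * F Y) * gw Y := mul_pos (Real.exp_pos _) (gw_pos _)
      rw [ENNReal.ofReal_rpow_of_pos e1, ENNReal.ofReal_rpow_of_pos e2,
        ← ENNReal.ofReal_mul (Real.rpow_pos_of_pos e1 _).le]
      refine ENNReal.ofReal_le_ofReal ?_
      rw [Real.mul_rpow hb.le (Real.exp_pos _).le, mul_assoc]
      refine mul_le_mul_of_nonneg_left ?_ (Real.rpow_pos_of_pos hb _).le
      rw [gw, gw, ← Real.exp_add, ← Real.exp_mul, ← Real.exp_mul, ← Real.exp_add]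
      refine Real.exp_le_exp.2 ?_
      have h2 := hle x hx Y
      have h3 : (v * F Y + -π * ∑ l, Y l ^ 2) * lam = (1 - lam) * F Y - lam * (π * ∑ l, Y l ^ 2) := by
        rw [hv]; field_simp; ring
      have h4 : -π * ∑ l, ((1 - lam) • tmap U x + lam • Y) l ^ 2 =
          -((1 - lam) * (π * ∑ l, tmap U x l ^ 2)) - lam * (π * ∑ l, Y l ^ 2) +
          (1 - lam) * (lam * π * ∑ l, (tmap U x l - Y l) ^ 2) := by
        simp only [Finset.mul_sum, ← Finset.sum_neg_distrib, ← Finset.sum_sub_distrib,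
          ← Finset.sum_add_distrib, Pi.add_apply, Pi.smul_apply, smul_eq_mul]
        refine Finset.sum_congr rfl fun l _ => ?_
        ring
      rw [h3, h4]
      nlinarith [mul_le_mul_of_nonneg_left h2 h1'.le]
    · rw [Set.indicator_of_notMem hw, ENNReal.zero_rpow_of_pos h1', zero_mul]
      exact zero_le

omit [DecidableEq ι] in
lemma sum_sub_sq (U : Matrix ι κ ℝ) (hU : Uᵀ * U = 1) (x Y : κ → ℝ) :
    ∑ i, (avec U x i - (U *ᵥ Y) i) ^ 2 = defect U x + ∑ l, (tmap U x l - Y l) ^ 2 := by
  have h1 : ∑ i, (avec U x i - (U *ᵥ Y) i) ^ 2 =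
      (avec U x - U *ᵥ Y) ⬝ᵥ (avec U x - U *ᵥ Y) := by
    simp only [dotProduct, Pi.sub_apply, sq]
  have h2 : ∑ l, (tmap U x l - Y l) ^ 2 = (tmap U x - Y) ⬝ᵥ (tmap U x - Y) := by
    simp only [dotProduct, Pi.sub_apply, sq]
  have h3 : avec U x ⬝ᵥ (U *ᵥ Y) = tmap U x ⬝ᵥ Y := by
    rw [Matrix.dotProduct_mulVec, ← Matrix.mulVec_transpose]
    rfl
  have h4 := dot_mulVec_self U hU Y
  have h5 : ∑ i, avec U x i ^ 2 = avec U x ⬝ᵥ avec U x := by simp only [dotProduct, sq]
  have h6 : ∑ l, tmap U x l ^ 2 = tmap U x ⬝ᵥ tmap U x := by simp only [dotProduct, sq]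
  rw [h1, h2, defect_eq U hU, h5, h6]
  simp only [sub_dotProduct, dotProduct_sub, h4, h3, dotProduct_comm (U *ᵥ Y) (avec U x),
    dotProduct_comm Y (tmap U x)]
  ring

/-- **The master inequality**, second form. -/
theorem master' (U : Matrix ι κ ℝ) (hU : Uᵀ * U = 1) (hc : ∀ i, 0 < rowSq U i) {lam : ℝ}
    (h0 : 0 < lam) (h1 : lam < 1) {F : (κ → ℝ) → ℝ} (hF : Measurable F)
    (hFi : Integrable (fun y => F y * gw y))
    (hle : ∀ (g : ι → ℝ) (Y : κ → ℝ), F Y ≤ JJ U g +
      lam * π * ∑ i, (g i - (U *ᵥ Y) i) ^ 2) :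
    volume (openSec U) ≤
      ENNReal.ofReal (ballBound U * Real.exp (-∫ y, F y * gw y)) := by
  refine master U hU hc h0 h1 hF hFi fun x _ Y => (hle (avec U x) Y).trans ?_
  rw [sum_sub_sq U hU]
  have hd : 0 ≤ defect U x := Finset.sum_nonneg fun _ _ => sq_nonneg _
  have := mul_le_mul_of_nonneg_right h1.le (mul_nonneg Real.pi_pos.le hd)
  nlinarith

end Pool.Agent.Lib.MP_589a62_gt.Full
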