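import Pool.Agent.Lib.MP_589a62_gt.Full.CompH
import Mathlib.Analysis.Complex.ExponentialBounds

/-!
# `m = 2`: the isolated rows
-/

set_option autoImplicit false
set_option linter.unusedVariables false
set_option linter.unusedTactic false

open Matrix Finset Real

namespace Pool.Agent.Lib.MP_589a62_gt.Full

variable {n k : ℕ}

lemma log_two_fifths : (-0.9164 : ℝ) ≤ Real.log (2 / 5) := by
  have h1 : Real.log (2 / 5) = -Real.log (1 + 3 / 2) := by
    rw [← Real.log_inv]; norm_num
  have h2 : Real.log (1 + 3 / 2) = Real.log 2 + Real.log (1 + 1 / 4) := by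
    rw [← Real.log_mul (by norm_num) (by norm_num)]; norm_num
  have h3 := Large.log_le_pade (1 / 4) (by norm_num)
  have h4 := Real.log_two_lt_d9
  rw [h1, h2]
  norm_num at h3 ⊢
  linarith

lemma log_nine_twentieths : (-0.79852 : ℝ) ≤ Real.log (9 / 20) := by
  have h1 : Real.log (9 / 20) = -(Real.log 2 + Real.log (1 + 1 / 9)) := by
    rw [← Real.log_mul (by norm_num) (by norm_num), ← Real.log_inv]; norm_num
  have h3 := Large.log_le_pade (1 / 9) (by norm_num)
  have h4 := Real.log_two_lt_d9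
  rw [h1]
  norm_num at h3 ⊢
  linarith

/-- Tangent lines of the gap for `m = 2`, with a rational lower bound for the logarithm. -/
lemma one_gap_line {c c₀ L : ℝ} (hc : 0 < c) (hc₀ : 0 < c₀) (hL : L ≤ Real.log c₀) :
    Large.gap 2 c ≤ (c₀ / 2 - 0.2027325538) - c * (L / 2 + 0.4411084816) := by
  have h1 : Real.log c₀ + (1 - c₀ / c) ≤ Real.log c := by
    have h := Real.one_sub_inv_le_log_of_pos (x := c / c₀) (by positivity)
    rw [Real.log_div hc.ne' hc₀.ne', inv_div] at h
    linarith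
  have h2 : c * (L + (1 - c₀ / c)) ≤ c * Real.log c :=
    mul_le_mul_of_nonneg_left (by linarith) hc.le
  have h3 : c * (L + (1 - c₀ / c)) = c * L + (c - c₀) := by
    field_simp
  rw [h3] at h2
  have l2 := Real.log_two_gt_d9
  have l2' := Real.log_two_lt_d9
  have l3 := Real.log_three_gt_d9
  have l3' := Real.log_three_lt_d9
  unfold Large.gap
  push_cast
  rw [show (2 : ℝ) + 1 = 3 by norm_num]
  have h4 : c * (-0.1177830368) ≤ c * (3 * Real.log 2 - 2 * Real.log 3) :=
    mul_le_mul_of_nonneg_left (by linarith) hc.le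
  nlinarith [h2, h4]

lemma one_P1 (y : ℝ) (h0 : (1 / 3) ≤ y) (h1 : y ≤ (11 / 25)) : 0 ≤ (13662769 / 5000000000) + (-3358287 / 312500000) * y + (4257 / 100000) * y ^ 2 + (-22449 / 200000) * y ^ 3 + (27717 / 200000) * y ^ 4 + (-2919 / 25000) * y ^ 5 + (1047 / 20000) * y ^ 6 + (-2169 / 200000) * y ^ 7 := by
  have key : ∀ s t : ℝ, 0 ≤ s → 0 ≤ t → 0 ≤ (523056620390625 / 8589934592) * t ^ 8 + (487043852450625 / 1073741824) * s * t ^ 7 + (3140053691574375 / 2147483648) * s ^ 2 * t ^ 6 + (2851839741594375 / 1073741824) * s ^ 3 * t ^ 5 + (12714911594647875 / 4294967296) * s ^ 4 * t ^ 4 + (2211879543249735 / 1073741824) * s ^ 5 * t ^ 3 + (9284912492956803 / 10737418240) * s ^ 6 * t ^ 2 + (26370921788523261 / 134217728000) * s ^ 7 * t + (19102440309256413 / 1073741824000) * s ^ 8 := fun s t hs ht => by positivity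
  have h := key (y - (1 / 3)) ((11 / 25) - y) (by linarith) (by linarith)
  refine h.trans_eq ?_
  ring

lemma one_P2 (y : ℝ) (h0 : (11 / 25) ≤ y) (h1 : y ≤ (1 / 2)) : 0 ≤ (-111337231 / 5000000000) + (15060463 / 312500000) * y + (4257 / 100000) * y ^ 2 + (-22449 / 200000) * y ^ 3 + (27717 / 200000) * y ^ 4 + (-2919 / 25000) * y ^ 5 + (1047 / 20000) * y ^ 6 + (-2169 / 200000) * y ^ 7 := by
  have key : ∀ s t : ℝ, 0 ≤ s → 0 ≤ t → 0 ≤ (12028701035933 / 1640250) * t ^ 8 + (62889761734004 / 820125) * s * t ^ 7 + (10860124707904 / 32805) * s ^ 2 * t ^ 6 + (5160934837540 / 6561) * s ^ 3 * t ^ 5 + (14930795540125 / 13122) * s ^ 4 * t ^ 4 + (54224292760625 / 52488) * s ^ 5 * t ^ 3 + (60623406501875 / 104976) * s ^ 6 * t ^ 2 + (38271179020625 / 209952) * s ^ 7 * t + (5234030359375 / 209952) * s ^ 8 := fun s t hs ht => by positivity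
  have h := key (y - (11 / 25)) ((1 / 2) - y) (by linarith) (by linarith)
  refine h.trans_eq ?_
  ring

/-- The scalar inequality for an isolated row, `x* = 7/10`. -/
lemma one_scalar (c : ℝ) (h1 : 1 / 3 ≤ c) (h2 : c ≤ 1 / 2) :
    Large.gap 2 c ≤ 1 / 2 * RD (1 - c) * (3 / 10 * (c * (1 - c))) := by
  have hc : 0 < c := by linarith
  rcases le_total c (11 / 25) with h | h
  · have h3 := one_gap_line hc (c₀ := 2 / 5) (by norm_num) log_two_fifths
    have h4 := one_P1 c h1 h
    refine h3.trans ?_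
    unfold RD
    norm_num
    linarith
  · have h3 := one_gap_line hc (c₀ := 9 / 20) (by norm_num) log_nine_twentieths
    have h4 := one_P2 c h h2
    refine h3.trans ?_
    unfold RD
    norm_num
    linarith

/-- **(H1)**: an isolated row of the near graph with threshold `7/10`. -/
theorem H1_two (U : Matrix (Fin n) (Fin k) ℝ) (hU : Uᵀ * U = 1) (hlo : ∀ i, 1 / 3 ≤ rowSq U i)
    (hup : ∀ i, rowSq U i ≤ 1 / 2) (i : Fin n) (hfar : ∀ j, j ≠ i → xx U i j ≤ 7 / 10) :
    Large.gap 2 (rowSq U i) ≤ 1 / 2 * RD (1 - rowSq U i) * allS U i := by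
  have hc : ∀ i, 0 < rowSq U i := fun i => lt_of_lt_of_le (by norm_num) (hlo i)
  have hR : 0 ≤ RD (1 - rowSq U i) := by
    have h1 := hlo i
    have h2 := hup i
    unfold RD
    set z := 1 - rowSq U i with hz
    have hz0 : 1 / 2 ≤ z := by linarith
    have hz1 : z ≤ 2 / 3 := by linarith
    nlinarith [mul_nonneg (by linarith : 0 ≤ z) (by linarith : 0 ≤ 2 / 3 - z),
      mul_nonneg (pow_nonneg (by linarith : 0 ≤ z) 3) (by linarith : 0 ≤ 2 / 3 - z),
      pow_nonneg (by linarith : 0 ≤ z) 2, pow_nonneg (by linarith : 0 ≤ z) 3,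
      mul_nonneg (pow_nonneg (by linarith : 0 ≤ z) 2) (by linarith : 0 ≤ 2 / 3 - z),
      pow_nonneg (by linarith : 0 ≤ z) 4,
      mul_nonneg (pow_nonneg (by linarith : 0 ≤ z) 4) (by linarith : 0 ≤ 2 / 3 - z)]
  have hS : 3 / 10 * (rowSq U i * (1 - rowSq U i)) ≤ allS U i := by
    have h1 := row_sum_erase U hU (hc i)
    have h2 : rowSq U i * (1 - rowSq U i) = ∑ j ∈ univ.erase i, kk U i j := by
      rw [← h1, Finset.mul_sum]
      refine Finset.sum_congr rfl fun j _ => ?_
      have := (hc i).ne'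
      field_simp
    rw [h2, allS, Finset.mul_sum]
    refine Finset.sum_le_sum fun j hj => ?_
    have h3 := hfar j (Finset.ne_of_mem_erase hj)
    have h4 := kk_nonneg U i j
    nlinarith
  refine (one_scalar _ (hlo i) (hup i)).trans ?_
  exact mul_le_mul_of_nonneg_left hS (mul_nonneg (by norm_num) hR)

end Pool.Agent.Lib.MP_589a62_gt.Full
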