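import Pool.Agent.Lib.MP_a34d76_pr.Quad.PL

/-!
# The Prekopa-Leindler inequality for measurable functions on a finite power of the line
-/

set_option autoImplicit false

open MeasureTheory Filter Topology Set
open scoped NNReal ENNReal

namespace Pool.Agent.Lib.MP_589a62_gt.Full

/-- The truncation of a function. -/
noncomputable def trunc {m : ℕ} (f : (Fin m → ℝ) → ℝ≥0∞) (N : ℕ) (x : Fin m → ℝ) : ℝ≥0∞ :=
  (Set.pi univ fun _ : Fin m => Icc (-(N : ℝ)) N).indicator (fun x => min (f x) N) x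

lemma trunc_le {m : ℕ} (f : (Fin m → ℝ) → ℝ≥0∞) (N : ℕ) (x : Fin m → ℝ) : trunc f N x ≤ f x := by
  unfold trunc
  by_cases h : x ∈ (Set.pi univ fun _ : Fin m => Icc (-(N : ℝ)) N)
  · rw [Set.indicator_of_mem h]; exact min_le_left _ _
  · rw [Set.indicator_of_notMem h]; exact zero_le

lemma trunc_le_nat {m : ℕ} (f : (Fin m → ℝ) → ℝ≥0∞) (N : ℕ) (x : Fin m → ℝ) :
    trunc f N x ≤ N := by
  unfold trunc
  by_cases h : x ∈ (Set.pi univ fun _ : Fin m => Icc (-(N : ℝ)) N)
  · rw [Set.indicator_of_mem h]; exact min_le_right _ _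
  · rw [Set.indicator_of_notMem h]; exact zero_le

lemma trunc_supp {m : ℕ} (f : (Fin m → ℝ) → ℝ≥0∞) (N : ℕ) (x : Fin m → ℝ) (h : trunc f N x ≠ 0)
    (i : Fin m) : |x i| ≤ N := by
  by_contra hc
  apply h
  unfold trunc
  rw [Set.indicator_of_notMem]
  intro hx
  exact hc (abs_le.2 (hx i (mem_univ i)))

lemma measurable_trunc {m : ℕ} {f : (Fin m → ℝ) → ℝ≥0∞} (hf : Measurable f) (N : ℕ) :
    Measurable (trunc f N) := by
  have hms : MeasurableSet (Set.pi univ fun _ : Fin m => Icc (-(N : ℝ)) N) :=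
    MeasurableSet.univ_pi fun _ => measurableSet_Icc
  exact (hf.min measurable_const).indicator hms

lemma trunc_mono {m : ℕ} (f : (Fin m → ℝ) → ℝ≥0∞) : Monotone (trunc f) := by
  intro a b hab x
  unfold trunc
  by_cases h : x ∈ (Set.pi univ fun _ : Fin m => Icc (-(a : ℝ)) a)
  · have h' : x ∈ (Set.pi univ fun _ : Fin m => Icc (-(b : ℝ)) b) := by
      intro i hi
      have := h i hi
      have hab' : (a : ℝ) ≤ b := by exact_mod_cast hab
      exact ⟨by linarith [this.1], by linarith [this.2]⟩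
    rw [Set.indicator_of_mem h, Set.indicator_of_mem h']
    exact min_le_min_left _ (by exact_mod_cast hab)
  · rw [Set.indicator_of_notMem h]; exact zero_le

lemma iSup_trunc {m : ℕ} (f : (Fin m → ℝ) → ℝ≥0∞) (x : Fin m → ℝ) : ⨆ N, trunc f N x = f x := by
  apply le_antisymm
  · exact iSup_le fun N => trunc_le f N x
  · apply le_of_forall_lt
    intro c hc
    obtain ⟨n1, hn1⟩ : ∃ n : ℕ, c < n := ENNReal.exists_nat_gt (ne_top_of_lt hc)
    obtain ⟨n2, hn2⟩ : ∃ n : ℕ, ∑ i, |x i| < n := exists_nat_gt _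
    refine lt_of_lt_of_le ?_ (le_iSup (fun N => trunc f N x) (max n1 n2))
    have hx : x ∈ (Set.pi univ fun _ : Fin m => Icc (-((max n1 n2 : ℕ) : ℝ)) (max n1 n2 : ℕ)) := by
      intro i _
      have h1 : |x i| ≤ ∑ i, |x i| :=
        Finset.single_le_sum (f := fun i => |x i|) (fun i _ => abs_nonneg _) (Finset.mem_univ i)
      have h2 : (n2 : ℝ) ≤ ((max n1 n2 : ℕ) : ℝ) := by exact_mod_cast le_max_right _ _
      exact abs_le.1 (by linarith)
    simp only [trunc]
    rw [Set.indicator_of_mem hx]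
    refine lt_min hc (hn1.trans_le ?_)
    exact_mod_cast le_max_left _ _

/-- Prekopa-Leindler on `Fin m → ℝ` for measurable functions. -/
theorem pl_fin (m : ℕ) {lam : ℝ} (h0 : 0 < lam) (h1 : lam < 1) {f g h : (Fin m → ℝ) → ℝ≥0∞}
    (hf : Measurable f) (hg : Measurable g) (hh : Measurable h)
    (hle : ∀ x y, f x ^ (1 - lam) * g y ^ lam ≤ h ((1 - lam) • x + lam • y)) :
    (∫⁻ x, f x) ^ (1 - lam) * (∫⁻ x, g x) ^ lam ≤ ∫⁻ x, h x := by
  have h1' : 0 < 1 - lam := by linarith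
  have key : ∀ N : ℕ, (∫⁻ x, trunc f N x) ^ (1 - lam) * (∫⁻ x, trunc g N x) ^ lam ≤ ∫⁻ x, h x := by
    intro N
    refine MP_a34d76_pr.Quad.pl m h0 h1 (measurable_trunc hf N) (measurable_trunc hg N) hh
      (M := (N : ℝ≥0∞)) (by simp) (trunc_le_nat f N) (trunc_le_nat g N) (K := (N : ℝ))
      (trunc_supp f N) (trunc_supp g N) ?_
    intro x y
    refine le_trans ?_ (hle x y)
    exact mul_le_mul' (ENNReal.rpow_le_rpow (trunc_le f N x) h1'.le)
      (ENNReal.rpow_le_rpow (trunc_le g N y) h0.le)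
  have lim : ∀ {f : (Fin m → ℝ) → ℝ≥0∞}, Measurable f →
      Tendsto (fun N : ℕ => ∫⁻ x, trunc f N x) atTop (𝓝 (∫⁻ x, f x)) := by
    intro f hf
    have e : ∫⁻ x, f x = ⨆ N, ∫⁻ x, trunc f N x := by
      rw [← lintegral_iSup (fun N => measurable_trunc hf N) (trunc_mono f)]
      simp only [iSup_trunc]
    rw [e]
    exact tendsto_atTop_iSup fun a b hab => lintegral_mono (trunc_mono f hab)
  by_cases hf0 : ∫⁻ x, f x = 0
  · rw [hf0, ENNReal.zero_rpow_of_pos h1', zero_mul]; exact zero_le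
  by_cases hg0 : ∫⁻ x, g x = 0
  · rw [hg0, ENNReal.zero_rpow_of_pos h0, mul_zero]; exact zero_le
  have hf0' : (∫⁻ x, f x) ^ (1 - lam) ≠ 0 := by
    intro h
    rw [ENNReal.rpow_eq_zero_iff] at h
    rcases h with h | h
    · exact hf0 h.1
    · linarith [h.2]
  have hg0' : (∫⁻ x, g x) ^ lam ≠ 0 := by
    intro h
    rw [ENNReal.rpow_eq_zero_iff] at h
    rcases h with h | h
    · exact hg0 h.1
    · linarith [h.2]
  have t1 := (ENNReal.continuous_rpow_const (y := 1 - lam)).continuousAt.tendsto.comp (lim hf)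
  have t2 := (ENNReal.continuous_rpow_const (y := lam)).continuousAt.tendsto.comp (lim hg)
  have t3 := ENNReal.Tendsto.mul t1 (Or.inl hf0') t2 (Or.inl hg0')
  exact le_of_tendsto' t3 key

/-- Prekopa-Leindler on `κ → ℝ` for measurable functions. -/
theorem pl_gen {κ : Type*} [Fintype κ] {lam : ℝ} (h0 : 0 < lam) (h1 : lam < 1)
    {f g h : (κ → ℝ) → ℝ≥0∞} (hf : Measurable f) (hg : Measurable g) (hh : Measurable h)
    (hle : ∀ x y, f x ^ (1 - lam) * g y ^ lam ≤ h ((1 - lam) • x + lam • y)) :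
    (∫⁻ x, f x) ^ (1 - lam) * (∫⁻ x, g x) ^ lam ≤ ∫⁻ x, h x := by
  have e := (Fintype.equivFin κ).symm
  have hvp := volume_measurePreserving_piCongrLeft (fun _ : κ => ℝ) e
  have hme := (MeasurableEquiv.piCongrLeft (fun _ : κ => ℝ) e).measurable
  have hap : ∀ (x : Fin (Fintype.card κ) → ℝ) (i : κ),
      (MeasurableEquiv.piCongrLeft (fun _ : κ => ℝ) e) x i = x (e.symm i) := by
    intro x i
    obtain ⟨j, rfl⟩ := e.surjective i
    rw [MeasurableEquiv.coe_piCongrLeft, Equiv.piCongrLeft_apply_apply, Equiv.symm_apply_apply]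
  rw [← hvp.lintegral_comp hf, ← hvp.lintegral_comp hg, ← hvp.lintegral_comp hh]
  refine pl_fin _ h0 h1 (hf.comp hme) (hg.comp hme) (hh.comp hme) ?_
  intro x y
  refine (hle _ _).trans (le_of_eq ?_)
  congr 1
  ext i
  simp only [Pi.add_apply, Pi.smul_apply, smul_eq_mul, hap]

end Pool.Agent.Lib.MP_589a62_gt.Full
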