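import Pool.Agent.Lib.MP_589a62_gt.Full.PairVal
import Pool.Agent.Lib.MP_589a62_gt.Full.DualS

/-!
# The pair bound

`vol ≤ ballBound * exp (-1/2 ∑_i ∑_{j ≠ i} k_ij² t_ij (1 - x_ij) r_ij)`.
-/

set_option autoImplicit false
set_option linter.unusedVariables false
set_option linter.unusedSectionVars false

open Matrix Finset MeasureTheory Set Real ProbabilityTheory
open scoped ENNReal

namespace Pool.Agent.Lib.MP_589a62_gt.Full

/-- `r` is an admissible rate for the temperature `T` and the splitting weight `z`. -/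
def Good (T z r : ℝ) : Prop := ∀ ρ l : ℝ, ρ ^ 2 + l ^ 2 = 1 →
  l ^ 2 * r / 2 ≤ ∫ p : ℝ × ℝ, fT T z p.1 (ρ * p.1 + l * p.2) ∂(nu.prod nu)

lemma good_A (z : ℝ) (hz0 : 0 ≤ z) (hz1 : z ≤ 1) : Good 1 z (RA z) :=
  fun ρ l h => pair_valA z hz0 hz1 ρ l h

lemma good_B (z : ℝ) (hz0 : 1 / 5 ≤ z) (hz1 : z ≤ 1) : Good (3 / 4) z (RB z) :=
  fun ρ l h => pair_valB z hz0 hz1 ρ l h

lemma ths_zero : ths 0 = 0 := by simp [ths]

lemma ths_mul_le (t u : ℝ) (ht0 : 0 ≤ t) (ht1 : t ≤ 1) (hu : |u| ≤ 1) :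
    ths (t * u) ≤ t * ths u := by
  unfold ths
  rw [abs_mul, abs_of_nonneg ht0]
  set s := |u| with hs
  have h := Real.convexOn_mul_log.2 (show (1 - s) ∈ Set.Ici (0 : ℝ) by
    simp only [Set.mem_Ici]; linarith) (show (1 : ℝ) ∈ Set.Ici (0 : ℝ) by simp) ht0
    (by linarith : 0 ≤ 1 - t) (by ring)
  simp only [smul_eq_mul, Real.log_one, mul_zero, add_zero] at h
  have e : t * (1 - s) + (1 - t) * 1 = 1 - t * s := by ring
  rw [e] at h
  linarith

variable {ι κ : Type*} [Fintype ι] [Fintype κ] [DecidableEq κ] [DecidableEq ι]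

lemma ee_eq_of_dep (a a' : κ → ℝ) (ha : a ⬝ᵥ a = 1) (ha' : a' ⬝ᵥ a' = 1)
    (h : (a ⬝ᵥ a') ^ 2 = 1) (Y : κ → ℝ) : ee (a' ⬝ᵥ Y) = ee (a ⬝ᵥ Y) := by
  set ρ := a ⬝ᵥ a' with hρ
  have h1 : (a' - ρ • a) ⬝ᵥ (a' - ρ • a) = 0 := by
    rw [sub_dotProduct, dotProduct_sub, dotProduct_sub, smul_dotProduct, smul_dotProduct,
      dotProduct_smul, dotProduct_smul, ha, ha', dotProduct_comm a' a, ← hρ]
    simp only [smul_eq_mul]
    nlinarith
  have h2 : a' - ρ • a = 0 := dotProduct_self_eq_zero.1 h1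
  have h3 : a' = ρ • a := sub_eq_zero.1 h2
  rw [h3, smul_dotProduct, smul_eq_mul]
  unfold ee qu
  congr 2
  rw [mul_pow, h, one_mul]

/-- The reduction to the plane. -/
lemma pair_red (a a' : κ → ℝ) (ha : a ⬝ᵥ a = 1) (ha' : a' ⬝ᵥ a' = 1)
    (h : (a ⬝ᵥ a') ^ 2 ≠ 1) {f : ℝ × ℝ → ℝ} (hf : Measurable f) :
    ∃ l : ℝ, (a ⬝ᵥ a') ^ 2 + l ^ 2 = 1 ∧
      ∫ Y, f (a ⬝ᵥ Y, a' ⬝ᵥ Y) * gw Y =
        ∫ p : ℝ × ℝ, f (p.1, (a ⬝ᵥ a') * p.1 + l * p.2) ∂(nu.prod nu) := by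
  set ρ := a ⬝ᵥ a' with hρ
  have h1 : (a' - ρ • a) ⬝ᵥ (a' - ρ • a) = 1 - ρ ^ 2 := by
    rw [sub_dotProduct, dotProduct_sub, dotProduct_sub, smul_dotProduct, smul_dotProduct,
      dotProduct_smul, dotProduct_smul, ha, ha', dotProduct_comm a' a, ← hρ]
    simp only [smul_eq_mul]
    ring
  have h0 : 0 ≤ 1 - ρ ^ 2 := by rw [← h1]; exact Finset.sum_nonneg fun _ _ => mul_self_nonneg _
  have h2 : 0 < 1 - ρ ^ 2 := lt_of_le_of_ne h0 (fun hh => h (by linarith))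
  set l := √(1 - ρ ^ 2) with hl
  have hl0 : 0 < l := Real.sqrt_pos.2 h2
  have hl2 : l ^ 2 = 1 - ρ ^ 2 := Real.sq_sqrt h0
  refine ⟨l, by rw [hl2]; ring, ?_⟩
  set b : κ → ℝ := l⁻¹ • (a' - ρ • a) with hb
  have hbb : b ⬝ᵥ b = 1 := by
    rw [hb, smul_dotProduct, dotProduct_smul, h1, smul_eq_mul, smul_eq_mul, ← hl2]
    field_simp
  have hab : a ⬝ᵥ b = 0 := by
    rw [hb, dotProduct_smul, dotProduct_sub, dotProduct_smul, ha, ← hρ, smul_eq_mul, smul_eq_mul]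
    ring
  have ha'b : ∀ Y, a' ⬝ᵥ Y = ρ * (a ⬝ᵥ Y) + l * (b ⬝ᵥ Y) := by
    intro Y
    rw [hb, smul_dotProduct, sub_dotProduct, smul_dotProduct, smul_eq_mul, smul_eq_mul]
    field_simp
    ring
  have h3 := integral_pair a b ha hbb hab
    (f := fun p : ℝ × ℝ => f (p.1, ρ * p.1 + l * p.2)) (hf.comp (Continuous.measurable (by fun_prop)))
  rw [← h3]
  simp only [ha'b]

lemma pair_int (a a' : κ → ℝ) (ha : a ⬝ᵥ a = 1) (ha' : a' ⬝ᵥ a' = 1) {T z r : ℝ}
    (hg : Good T z r) :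
    (1 - (a ⬝ᵥ a') ^ 2) * r / 2 ≤ ∫ Y, fT T z (a ⬝ᵥ Y) (a' ⬝ᵥ Y) * gw Y := by
  by_cases h : (a ⬝ᵥ a') ^ 2 = 1
  · have h1 : ∀ Y, fT T z (a ⬝ᵥ Y) (a' ⬝ᵥ Y) = 0 := by
      intro Y
      unfold fT
      rw [ee_eq_of_dep a a' ha ha' h Y, sub_self, mul_zero, mul_zero, ths_zero]
      simp
    simp only [h1, zero_mul, integral_zero]
    rw [h]; simp
  · obtain ⟨l, hl, hi⟩ := pair_red a a' ha ha' h (f := fun p => fT T z p.1 p.2) (measurable_fT T z)
    simp only at hi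
    rw [hi]
    have := hg _ _ hl
    have e : 1 - (a ⬝ᵥ a') ^ 2 = l ^ 2 := by linarith
    rw [e]
    exact this

lemma pair_zero (a a' : κ → ℝ) (ha : a ⬝ᵥ a = 1) (ha' : a' ⬝ᵥ a' = 1) :
    ∫ Y, (ee (a' ⬝ᵥ Y) - ee (a ⬝ᵥ Y)) * gw Y = 0 := by
  by_cases h : (a ⬝ᵥ a') ^ 2 = 1
  · have h1 : ∀ Y, ee (a' ⬝ᵥ Y) - ee (a ⬝ᵥ Y) = 0 := by
      intro Y
      rw [ee_eq_of_dep a a' ha ha' h Y, sub_self]
    simp only [h1, zero_mul, integral_zero]
  · obtain ⟨l, hl, hi⟩ := pair_red a a' ha ha' h (f := fun p => ee p.2 - ee p.1)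
      (((continuous_ee.measurable.comp measurable_snd).sub
      (continuous_ee.measurable.comp measurable_fst)))
    simp only at hi
    rw [hi]
    have i1 : Integrable (fun p : ℝ × ℝ => ee ((a ⬝ᵥ a') * p.1 + l * p.2)) (nu.prod nu) := by
      have := integrable_c0 (a ⬝ᵥ a') l 0 1
      simpa using this
    have i2 : Integrable (fun p : ℝ × ℝ => ee p.1) (nu.prod nu) := by
      have := integrable_c0 (a ⬝ᵥ a') l 1 0
      simpa using this
    rw [integral_sub i1 i2]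
    have := integral_swap _ l hl (f := fun p => ee p.1)
      (continuous_ee.measurable.comp measurable_fst)
    simp only at this
    rw [this, sub_self]

/-- The unit vector of a row. -/
noncomputable def av (U : Matrix ι κ ℝ) (i : ι) : κ → ℝ := (√(rowSq U i))⁻¹ • (U i)

lemma av_unit (U : Matrix ι κ ℝ) {i : ι} (hc : 0 < rowSq U i) : av U i ⬝ᵥ av U i = 1 := by
  unfold av
  rw [smul_dotProduct, dotProduct_smul]
  have h : U i ⬝ᵥ U i = rowSq U i := by
    simp only [dotProduct, rowSq, sq]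
  rw [h, smul_eq_mul, smul_eq_mul]
  have h2 : √(rowSq U i) * √(rowSq U i) = rowSq U i := Real.mul_self_sqrt hc.le
  have h3 : √(rowSq U i) ≠ 0 := (Real.sqrt_pos.2 hc).ne'
  field_simp
  rw [sq, h2]

lemma av_dot (U : Matrix ι κ ℝ) {i j : ι} (hi : 0 < rowSq U i) (hj : 0 < rowSq U j) :
    (av U i ⬝ᵥ av U j) ^ 2 = kk U i j / (rowSq U i * rowSq U j) := by
  unfold av
  rw [smul_dotProduct, dotProduct_smul]
  have h : U i ⬝ᵥ U j = (U * Uᵀ) i j := by
    simp only [dotProduct, Matrix.mul_apply, Matrix.transpose_apply]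
  rw [h, smul_eq_mul, smul_eq_mul, kk, mul_pow, mul_pow, inv_pow, inv_pow, Real.sq_sqrt hi.le,
    Real.sq_sqrt hj.le]
  field_simp

lemma qu_av (U : Matrix ι κ ℝ) {i : ι} (hi : 0 < rowSq U i) (Y : κ → ℝ) :
    qu (av U i ⬝ᵥ Y) = qq U i Y := by
  unfold av qu qq
  rw [smul_dotProduct, smul_eq_mul, mul_pow, inv_pow, Real.sq_sqrt hi.le]
  have : U i ⬝ᵥ Y = (U *ᵥ Y) i := rfl
  rw [this]
  ring

lemma measurable_av (U : Matrix ι κ ℝ) (i : ι) : Measurable (fun Y : κ → ℝ => av U i ⬝ᵥ Y) :=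
  (Continuous.measurable (by unfold dotProduct; fun_prop))

/-- The policy. -/
noncomputable def Pp (U : Matrix ι κ ℝ) (T : ι → ι → ℝ) (i j : ι) (Y : κ → ℝ) : ℝ :=
  T i j * (ee (av U j ⬝ᵥ Y) - ee (av U i ⬝ᵥ Y))

lemma alg_term (q P s : ℝ) (h : 1 + s * P ≠ 0) :
    q * P / (1 + s * P) = q * P - q * (s * P ^ 2 / (1 + s * P)) := by
  rw [eq_sub_iff_add_eq, mul_div, ← add_div, div_eq_iff h]
  ring

/-- The pointwise lower bound. -/
lemma FL_ge (U : Matrix ι κ ℝ) (hc : ∀ i, 0 < rowSq U i)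
    (t T σ : ι → ι → ℝ) (htsym : ∀ i j, t i j = t j i) (ht0 : ∀ i j, 0 ≤ t i j)
    (ht1 : ∀ i j, t i j ≤ 1) (hTsym : ∀ i j, T i j = T j i) (hT0 : ∀ i j, 0 ≤ T i j)
    (hT1 : ∀ i j, T i j ≤ 1) (hσ0 : ∀ i j, 0 < σ i j) (hσ1 : ∀ i j, σ i j ≤ 1)
    (hsum : ∀ i, ∑ j ∈ univ.erase i, kk U i j / rowSq U i * t i j / σ i j ≤ 1) (Y : κ → ℝ) :
    ∑ i, ∑ j ∈ univ.erase i, kk U i j * t i j *
      (Real.log (rowSq U i) / 2 * Pp U T i j Y + fT (T i j) (σ i j) (av U i ⬝ᵥ Y) (av U j ⬝ᵥ Y)) ≤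
      FL U (fun i j Y => t i j * Pp U T i j Y) 1 Y := by
  have hanti : ∀ i j (Y : κ → ℝ), t i j * Pp U T i j Y = -(t j i * Pp U T j i Y) := by
    intro i j Y
    unfold Pp
    rw [htsym i j, hTsym i j]; ring
  have hPlt : ∀ i j, |Pp U T i j Y| < 1 := by
    intro i j
    unfold Pp
    rw [abs_mul, abs_of_nonneg (hT0 i j)]
    calc T i j * |ee (av U j ⬝ᵥ Y) - ee (av U i ⬝ᵥ Y)| ≤ 1 * |ee (av U j ⬝ᵥ Y) - ee (av U i ⬝ᵥ Y)| :=
          mul_le_mul_of_nonneg_right (hT1 i j) (abs_nonneg _)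
      _ < 1 := by rw [one_mul]; exact abs_ee_sub_lt _ _
  have hPii : ∀ i, Pp U T i i Y = 0 := by intro i; unfold Pp; rw [sub_self, mul_zero]
  -- rewrite FL
  have hFL : FL U (fun i j Y => t i j * Pp U T i j Y) 1 Y =
      ∑ i, (rowSq U i * (rr U (fun i j Y => t i j * Pp U T i j Y) i Y *
        (Real.log (rowSq U i) / 2 + qq U i Y)) -
        1 / 2 * ∑ j, kk U i j * ths (t i j * Pp U T i j Y) -
        rowSq U i * (qq U i Y * (rr U (fun i j Y => t i j * Pp U T i j Y) i Y ^ 2 /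
          (1 + rr U (fun i j Y => t i j * Pp U T i j Y) i Y)))) := by
    have h1 := antisymm_sum U hc (θ := fun i j Y => t i j * Pp U T i j Y) hanti
      (fun i => Real.log (rowSq U i) / 2 + qq U i Y) Y
    rw [Finset.sum_sub_distrib, Finset.sum_sub_distrib, ← h1, FL, ← Finset.mul_sum, ← mul_sub,
      ← Finset.sum_sub_distrib]
    congr 2
    refine Finset.sum_congr rfl fun i _ => ?_
    rw [← Finset.sum_sub_distrib]
    refine Finset.sum_congr rfl fun j _ => ?_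
    ring
  rw [hFL]
  refine Finset.sum_le_sum fun i _ => ?_
  have hci := hc i
  have hrr : rr U (fun i j Y => t i j * Pp U T i j Y) i Y =
      ∑ j ∈ univ.erase i, kk U i j / rowSq U i * t i j * Pp U T i j Y := by
    rw [rr, ← Finset.add_sum_erase _ _ (Finset.mem_univ i), hPii, mul_zero, mul_zero, zero_add]
    exact Finset.sum_congr rfl fun j _ => by ring
  have hth : ∑ j, kk U i j * ths (t i j * Pp U T i j Y) ≤
      ∑ j ∈ univ.erase i, kk U i j * (t i j * ths (Pp U T i j Y)) := by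
    rw [← Finset.add_sum_erase _ _ (Finset.mem_univ i), hPii, mul_zero, ths_zero, mul_zero,
      zero_add]
    exact Finset.sum_le_sum fun j _ => mul_le_mul_of_nonneg_left
      (ths_mul_le _ _ (ht0 i j) (ht1 i j) (hPlt i j).le) (kk_nonneg U i j)
  have hpos : ∀ j, 0 < 1 + σ i j * Pp U T i j Y := by
    intro j
    have h1 := (abs_lt.1 (hPlt i j)).1
    have h2 := hσ0 i j
    have h3 := hσ1 i j
    have h4 : |σ i j * Pp U T i j Y| < 1 := by
      rw [abs_mul, abs_of_pos h2]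
      calc σ i j * |Pp U T i j Y| ≤ 1 * |Pp U T i j Y| :=
            mul_le_mul_of_nonneg_right h3 (abs_nonneg _)
        _ < 1 := by rw [one_mul]; exact hPlt i j
    linarith [(abs_lt.1 h4).1]
  have hj := DualS.jensen_split (univ.erase i) (fun j => kk U i j / rowSq U i * t i j) (σ i)
    (fun j => Pp U T i j Y)
    (fun j _ => mul_nonneg (div_nonneg (kk_nonneg U i j) hci.le) (ht0 i j))
    (fun j _ => hσ0 i j) (hsum i) (fun j _ => hpos j)
  rw [hrr]
  have hq := qq_nonneg U i Y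
  have h5 := mul_le_mul_of_nonneg_left (mul_le_mul_of_nonneg_left hj hq) hci.le
  have h6 : rowSq U i * ((∑ j ∈ univ.erase i, kk U i j / rowSq U i * t i j * Pp U T i j Y) *
      (Real.log (rowSq U i) / 2 + qq U i Y)) =
      ∑ j ∈ univ.erase i, kk U i j * t i j * Pp U T i j Y *
        (Real.log (rowSq U i) / 2 + qq U i Y) := by
    rw [Finset.sum_mul, Finset.mul_sum]
    refine Finset.sum_congr rfl fun j _ => ?_
    field_simp
  have h7 : rowSq U i * (qq U i Y * ∑ j ∈ univ.erase i, kk U i j / rowSq U i * t i j *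
      (σ i j * Pp U T i j Y ^ 2 / (1 + σ i j * Pp U T i j Y))) =
      ∑ j ∈ univ.erase i, kk U i j * t i j * (qq U i Y *
        (σ i j * Pp U T i j Y ^ 2 / (1 + σ i j * Pp U T i j Y))) := by
    rw [Finset.mul_sum, Finset.mul_sum]
    refine Finset.sum_congr rfl fun j _ => ?_
    field_simp
  rw [h6]
  rw [h7] at h5
  have h8 : ∑ j ∈ univ.erase i, kk U i j * t i j *
      (Real.log (rowSq U i) / 2 * Pp U T i j Y +
        fT (T i j) (σ i j) (av U i ⬝ᵥ Y) (av U j ⬝ᵥ Y)) =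
      ∑ j ∈ univ.erase i, kk U i j * t i j * Pp U T i j Y *
        (Real.log (rowSq U i) / 2 + qq U i Y) -
      1 / 2 * ∑ j ∈ univ.erase i, kk U i j * (t i j * ths (Pp U T i j Y)) -
      ∑ j ∈ univ.erase i, kk U i j * t i j * (qq U i Y *
        (σ i j * Pp U T i j Y ^ 2 / (1 + σ i j * Pp U T i j Y))) := by
    rw [Finset.mul_sum, ← Finset.sum_sub_distrib, ← Finset.sum_sub_distrib]
    refine Finset.sum_congr rfl fun j _ => ?_
    have e1 : fT (T i j) (σ i j) (av U i ⬝ᵥ Y) (av U j ⬝ᵥ Y) =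
        qq U i Y * Pp U T i j Y / (1 + σ i j * Pp U T i j Y) - ths (Pp U T i j Y) / 2 := by
      unfold fT
      rw [qu_av U hci]
      rfl
    rw [e1, alg_term _ _ _ (hpos j).ne']
    ring
  rw [h8]
  linarith

/-- **The pair bound.** -/
theorem pair_bound (U : Matrix ι κ ℝ) (hU : Uᵀ * U = 1) (hc : ∀ i, 0 < rowSq U i)
    (t T σ r : ι → ι → ℝ) (htsym : ∀ i j, t i j = t j i) (ht0 : ∀ i j, 0 ≤ t i j)
    (ht1 : ∀ i j, t i j ≤ 1) (hTsym : ∀ i j, T i j = T j i) (hT0 : ∀ i j, 0 ≤ T i j)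
    (hT1 : ∀ i j, T i j ≤ 1) (hσ0 : ∀ i j, 0 < σ i j) (hσ1 : ∀ i j, σ i j ≤ 1)
    (hsum : ∀ i, ∑ j ∈ univ.erase i, kk U i j / rowSq U i * t i j / σ i j ≤ 1)
    (hgood : ∀ i j, i ≠ j → Good (T i j) (σ i j) (r i j)) :
    volume (openSec U) ≤ ENNReal.ofReal (ballBound U * Real.exp (-(1 / 2 * ∑ i,
      ∑ j ∈ univ.erase i, kk U i j * t i j *
        ((1 - kk U i j / (rowSq U i * rowSq U j)) * r i j)))) := by
  set θ : ι → ι → (κ → ℝ) → ℝ := fun i j Y => t i j * Pp U T i j Y with hθ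
  have hPm : ∀ i j, Measurable (Pp U T i j) := by
    intro i j
    unfold Pp
    exact ((continuous_ee.measurable.comp (measurable_av U j)).sub
      (continuous_ee.measurable.comp (measurable_av U i))).const_mul _
  have hPb : ∀ i j Y, |Pp U T i j Y| ≤ 1 := by
    intro i j Y
    unfold Pp
    rw [abs_mul, abs_of_nonneg (hT0 i j)]
    exact mul_le_one₀ (hT1 i j) (abs_nonneg _) (abs_ee_sub_lt _ _).le
  have hθm : ∀ i j, Measurable (θ i j) := fun i j => (hPm i j).const_mul _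
  have hanti : ∀ i j Y, θ i j Y = -θ j i Y := by
    intro i j Y
    simp only [hθ, Pp]
    rw [htsym i j, hTsym i j]; ring
  have hb : ∀ i j Y, |θ i j Y| ≤ 1 := by
    intro i j Y
    simp only [hθ]
    rw [abs_mul, abs_of_nonneg (ht0 i j)]
    exact mul_le_one₀ (ht1 i j) (abs_nonneg _) (hPb i j Y)
  have hmain := dual_bound U hU hc hθm hanti hb
  refine hmain.trans (ENNReal.ofReal_le_ofReal (mul_le_mul_of_nonneg_left
    (Real.exp_le_exp.2 (neg_le_neg ?_)) (ballBound_pos U).le))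
  -- integrability of FL
  obtain ⟨δ, hδ0, hδ⟩ : ∃ δ : ℝ, 0 < δ ∧ ∀ i, δ ≤ rowSq U i := by
    rcases isEmpty_or_nonempty ι with hι | hι
    · exact ⟨1, one_pos, fun i => (hι.false i).elim⟩
    · obtain ⟨i0, -, h0⟩ := Finset.exists_min_image Finset.univ (rowSq U) Finset.univ_nonempty
      exact ⟨rowSq U i0, hc i0, fun i => h0 i (Finset.mem_univ _)⟩
  have hFLm := measurable_FL U hθm 1
  obtain ⟨A1, B1, hB1, hAB1⟩ := abs_FL_le U hU hc hanti hb (lam := 1) (δ := δ) hδ0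
    (fun i => by linarith [hδ i])
  have hFLi : Integrable (fun Y => FL U θ 1 Y * gw Y) :=
    integrable_of_le U hU hFLm A1 B1 hB1 hAB1
  -- integrability of the pieces
  have hqle : ∀ i Y, qq U i Y ≤ ∑ i, qq U i Y := fun i Y =>
    Finset.single_le_sum (f := fun i => qq U i Y) (fun i _ => qq_nonneg U i Y) (Finset.mem_univ i)
  have hPi : ∀ i j, Integrable (fun Y => Pp U T i j Y * gw Y) := by
    intro i j
    refine integrable_of_le U hU (hPm i j) 1 0 le_rfl fun Y => ?_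
    rw [zero_mul, add_zero]
    exact hPb i j Y
  have hfi : ∀ i j, Integrable (fun Y => fT (T i j) (σ i j) (av U i ⬝ᵥ Y) (av U j ⬝ᵥ Y) * gw Y) := by
    intro i j
    refine integrable_of_le U hU ?_ 2 1 zero_le_one fun Y => ?_
    · exact (measurable_fT (T i j) (σ i j)).comp ((measurable_av U i).prodMk (measurable_av U j))
    · have := abs_fT_le (T i j) (σ i j) (hT0 i j) (hT1 i j) (hσ0 i j).le (hσ1 i j)
        (av U i ⬝ᵥ Y) (av U j ⬝ᵥ Y)
      rw [qu_av U (hc i)] at this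
      have h2 := hqle i Y
      linarith
  set G : (κ → ℝ) → ℝ := fun Y => ∑ i, ∑ j ∈ univ.erase i, kk U i j * t i j *
      (Real.log (rowSq U i) / 2 * Pp U T i j Y +
        fT (T i j) (σ i j) (av U i ⬝ᵥ Y) (av U j ⬝ᵥ Y)) with hG
  have hterm : ∀ i j, Integrable (fun Y => kk U i j * t i j *
      (Real.log (rowSq U i) / 2 * (Pp U T i j Y * gw Y) +
        fT (T i j) (σ i j) (av U i ⬝ᵥ Y) (av U j ⬝ᵥ Y) * gw Y)) := fun i j =>
    (((hPi i j).const_mul _).add (hfi i j)).const_mul _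
  have hGe : ∀ Y, G Y * gw Y = ∑ i, ∑ j ∈ univ.erase i, kk U i j * t i j *
      (Real.log (rowSq U i) / 2 * (Pp U T i j Y * gw Y) +
        fT (T i j) (σ i j) (av U i ⬝ᵥ Y) (av U j ⬝ᵥ Y) * gw Y) := by
    intro Y
    rw [hG]
    simp only
    rw [Finset.sum_mul]
    refine Finset.sum_congr rfl fun i _ => ?_
    rw [Finset.sum_mul]
    exact Finset.sum_congr rfl fun j _ => by ring
  have hGi : Integrable (fun Y => G Y * gw Y) := by
    simp only [hGe]
    exact integrable_finsetSum _ fun i _ => integrable_finsetSum _ fun j _ => hterm i j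
  have h1 : ∫ Y, G Y * gw Y ≤ ∫ Y, FL U θ 1 Y * gw Y := by
    refine integral_mono hGi hFLi fun Y => ?_
    exact mul_le_mul_of_nonneg_right
      (FL_ge U hc t T σ htsym ht0 ht1 hTsym hT0 hT1 hσ0 hσ1 hsum Y) (gw_pos Y).le
  refine le_trans ?_ h1
  simp only [hGe]
  rw [integral_finsetSum _ fun i _ => integrable_finsetSum _ fun j _ => hterm i j, Finset.mul_sum]
  refine Finset.sum_le_sum fun i _ => ?_
  rw [integral_finsetSum _ fun j _ => hterm i j, Finset.mul_sum]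
  refine Finset.sum_le_sum fun j hj => ?_
  have hij : i ≠ j := fun h => by
    rw [h] at hj
    exact absurd rfl (Finset.ne_of_mem_erase hj)
  rw [integral_const_mul, integral_add ((hPi i j).const_mul _) (hfi i j), integral_const_mul]
  have h2 : ∫ Y, Pp U T i j Y * gw Y = 0 := by
    have h3 := pair_zero (av U i) (av U j) (av_unit U (hc i)) (av_unit U (hc j))
    have h4 : ∀ Y, Pp U T i j Y * gw Y =
        T i j * ((ee (av U j ⬝ᵥ Y) - ee (av U i ⬝ᵥ Y)) * gw Y) := fun Y => by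
      unfold Pp; ring
    simp only [h4]
    rw [integral_const_mul, h3, mul_zero]
  rw [h2, mul_zero, zero_add]
  have h5 := pair_int (av U i) (av U j) (av_unit U (hc i)) (av_unit U (hc j)) (hgood i j hij)
  rw [av_dot U (hc i) (hc j)] at h5
  have h6 := mul_le_mul_of_nonneg_left h5 (mul_nonneg (kk_nonneg U i j) (ht0 i j))
  refine le_trans (le_of_eq ?_) h6
  ring

end Pool.Agent.Lib.MP_589a62_gt.Full
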