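import Pool.Agent.Lib.MP_589a62_gt.Full.Scal

/-!
# The gaussian integrals of two correlated linear forms

`v = p.1`, `v' = ρ p.1 + λ p.2`, `ρ² + λ² = 1`, `y = λ²`.
-/

set_option autoImplicit false
set_option linter.unusedSectionVars false

open Matrix Finset MeasureTheory Set Real ProbabilityTheory
open scoped ENNReal NNReal

namespace Pool.Agent.Lib.MP_589a62_gt.Full

lemma inner_gauss (ρ l b u : ℝ) (hrl : ρ ^ 2 + l ^ 2 = 1) (hb : 0 ≤ b) :
    ∫ w, Real.exp (-b * qu (ρ * u + l * w)) ∂nu =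
      (√(1 + b * l ^ 2))⁻¹ * Real.exp (-(b * ρ ^ 2 / (1 + b * l ^ 2)) * qu u) := by
  have hB : 0 < 1 + b * l ^ 2 := by positivity
  rw [integral_nu]
  have h : ∀ w : ℝ, Real.exp (-b * qu (ρ * u + l * w)) * Real.exp (-π * w ^ 2) =
      Real.exp (-(b * ρ ^ 2 / (1 + b * l ^ 2)) * qu u) *
        Real.exp (-(π * (1 + b * l ^ 2)) * (w + b * ρ * l * u / (1 + b * l ^ 2)) ^ 2) := by
    intro w
    rw [← Real.exp_add, ← Real.exp_add, qu, qu]
    congr 1
    field_simp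
    ring
  simp only [h]
  rw [integral_const_mul]
  have h2 := integral_add_right_eq_self (μ := (volume : Measure ℝ))
    (fun w : ℝ => Real.exp (-(π * (1 + b * l ^ 2)) * w ^ 2)) (b * ρ * l * u / (1 + b * l ^ 2))
  rw [h2, int_gauss _ hB, mul_comm]

/-- The determinant. -/
noncomputable def Dl (y : ℝ) (a b : ℕ) : ℝ := 1 + 4 / 5 * (a + b) + (4 / 5) ^ 2 * (a * b) * y

lemma Dl_pos {y : ℝ} (hy : 0 ≤ y) (a b : ℕ) : 0 < Dl y a b := by unfold Dl; positivity

lemma Dl_eq (ρ l : ℝ) (hrl : ρ ^ 2 + l ^ 2 = 1) (a b : ℕ) :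
    Dl (l ^ 2) a b = (1 + (4 / 5 * b) * l ^ 2) * (1 + 4 / 5 * a +
      (4 / 5 * b) * ρ ^ 2 / (1 + (4 / 5 * b) * l ^ 2)) := by
  have hB : 0 < 1 + (4 / 5 * (b : ℝ)) * l ^ 2 := by positivity
  have h : ρ ^ 2 = 1 - l ^ 2 := by linarith
  rw [h, Dl]
  field_simp
  ring

lemma ee_pow' (k : ℕ) (u : ℝ) : ee u ^ k = Real.exp (-(4 / 5 * k) * qu u) := ee_pow k u

lemma integrable_c0 (ρ l : ℝ) (a b : ℕ) :
    Integrable (fun p : ℝ × ℝ => ee p.1 ^ a * ee (ρ * p.1 + l * p.2) ^ b) (nu.prod nu) := by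
  refine (integrable_const (1 : ℝ)).mono' ?_ ?_
  · refine Continuous.aestronglyMeasurable ?_
    exact ((continuous_ee.comp continuous_fst).pow a).mul
      ((continuous_ee.comp ((continuous_const.mul continuous_fst).add
        (continuous_const.mul continuous_snd))).pow b)
  · refine Filter.Eventually.of_forall fun p => ?_
    rw [Real.norm_eq_abs, abs_of_nonneg (mul_nonneg (pow_nonneg (ee_pos _).le _)
      (pow_nonneg (ee_pos _).le _))]
    exact mul_le_one₀ (pow_le_one₀ (ee_pos _).le (ee_le_one _)) (pow_nonneg (ee_pos _).le _)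
      (pow_le_one₀ (ee_pos _).le (ee_le_one _))

lemma integrable_c1 (ρ l : ℝ) (a b : ℕ) :
    Integrable (fun p : ℝ × ℝ => qu p.1 * (ee p.1 ^ a * ee (ρ * p.1 + l * p.2) ^ b))
      (nu.prod nu) := by
  have h0 : Integrable (fun p : ℝ × ℝ => qu p.1) (nu.prod nu) := by
    have := integrable_qu.mul_prod (integrable_const (1 : ℝ) : Integrable (fun _ : ℝ => (1 : ℝ)) nu)
    simpa using this
  refine h0.mono' ?_ ?_
  · refine Continuous.aestronglyMeasurable ?_
    exact (continuous_qu.comp continuous_fst).mul (((continuous_ee.comp continuous_fst).pow a).mul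
      ((continuous_ee.comp ((continuous_const.mul continuous_fst).add
        (continuous_const.mul continuous_snd))).pow b))
  · refine Filter.Eventually.of_forall fun p => ?_
    rw [Real.norm_eq_abs, abs_of_nonneg (mul_nonneg (qu_nonneg _) (mul_nonneg
      (pow_nonneg (ee_pos _).le _) (pow_nonneg (ee_pos _).le _)))]
    exact mul_le_of_le_one_right (qu_nonneg _) (mul_le_one₀ (pow_le_one₀ (ee_pos _).le
      (ee_le_one _)) (pow_nonneg (ee_pos _).le _) (pow_le_one₀ (ee_pos _).le (ee_le_one _)))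

lemma integral_c0 (ρ l : ℝ) (hrl : ρ ^ 2 + l ^ 2 = 1) (a b : ℕ) :
    ∫ p : ℝ × ℝ, ee p.1 ^ a * ee (ρ * p.1 + l * p.2) ^ b ∂(nu.prod nu) =
      (√(Dl (l ^ 2) a b))⁻¹ := by
  rw [integral_prod _ (integrable_c0 ρ l a b)]
  have hB : 0 < 1 + (4 / 5 * (b : ℝ)) * l ^ 2 := by positivity
  have h1 : ∀ u : ℝ, ∫ w, ee u ^ a * ee (ρ * u + l * w) ^ b ∂nu =
      (√(1 + (4 / 5 * b) * l ^ 2))⁻¹ * (ee u ^ a *
        Real.exp (-((4 / 5 * b) * ρ ^ 2 / (1 + (4 / 5 * b) * l ^ 2)) * qu u)) := by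
    intro u
    rw [integral_const_mul]
    have := inner_gauss ρ l (4 / 5 * b) u hrl (by positivity)
    simp only [ee_pow' b]
    rw [this]
    ring
  simp only [h1]
  rw [integral_const_mul, integral_nu]
  have h2 : ∀ u : ℝ, (ee u ^ a *
        Real.exp (-((4 / 5 * b) * ρ ^ 2 / (1 + (4 / 5 * b) * l ^ 2)) * qu u)) *
        Real.exp (-π * u ^ 2) =
      Real.exp (-(π * (1 + 4 / 5 * a +
        (4 / 5 * b) * ρ ^ 2 / (1 + (4 / 5 * b) * l ^ 2))) * u ^ 2) := by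
    intro u
    rw [ee_pow', ← Real.exp_add, ← Real.exp_add, qu]
    congr 1
    ring
  simp only [h2]
  rw [int_gauss _ (by positivity), ← mul_inv, ← Real.sqrt_mul hB.le, ← Dl_eq ρ l hrl]

lemma integral_c1 (ρ l : ℝ) (hrl : ρ ^ 2 + l ^ 2 = 1) (a b : ℕ) :
    ∫ p : ℝ × ℝ, qu p.1 * (ee p.1 ^ a * ee (ρ * p.1 + l * p.2) ^ b) ∂(nu.prod nu) =
      (√(Dl (l ^ 2) a b))⁻¹ * ((1 + (4 / 5 * b) * l ^ 2) / (2 * Dl (l ^ 2) a b)) := by
  rw [integral_prod _ (integrable_c1 ρ l a b)]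
  have hB : 0 < 1 + (4 / 5 * (b : ℝ)) * l ^ 2 := by positivity
  have h1 : ∀ u : ℝ, ∫ w, qu u * (ee u ^ a * ee (ρ * u + l * w) ^ b) ∂nu =
      (√(1 + (4 / 5 * b) * l ^ 2))⁻¹ * (qu u * (ee u ^ a *
        Real.exp (-((4 / 5 * b) * ρ ^ 2 / (1 + (4 / 5 * b) * l ^ 2)) * qu u))) := by
    intro u
    rw [integral_const_mul, integral_const_mul]
    have := inner_gauss ρ l (4 / 5 * b) u hrl (by positivity)
    simp only [ee_pow' b]
    rw [this]
    ring
  simp only [h1]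
  rw [integral_const_mul, integral_nu]
  set M : ℝ := 1 + 4 / 5 * a + (4 / 5 * b) * ρ ^ 2 / (1 + (4 / 5 * b) * l ^ 2) with hM
  have hM0 : 0 < M := by positivity
  have h2 : ∀ u : ℝ, (qu u * (ee u ^ a *
        Real.exp (-((4 / 5 * b) * ρ ^ 2 / (1 + (4 / 5 * b) * l ^ 2)) * qu u))) *
        Real.exp (-π * u ^ 2) =
      (π * u ^ 2) * Real.exp (-(π * M) * u ^ 2) := by
    intro u
    rw [ee_pow', ← Real.exp_add, mul_assoc, ← Real.exp_add, qu]
    congr 2
    rw [hM]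
    ring
  simp only [h2]
  have hD : Dl (l ^ 2) a b = (1 + (4 / 5 * b) * l ^ 2) * M := Dl_eq ρ l hrl a b
  rw [int_sq_gauss _ hM0, hD, Real.sqrt_mul hB.le, mul_inv]
  have h3 : √(1 + 4 / 5 * (b : ℝ) * l ^ 2) ≠ 0 := (Real.sqrt_pos.2 hB).ne'
  have h4 : √M ≠ 0 := (Real.sqrt_pos.2 hM0).ne'
  field_simp

/-- Reflection invariance. -/
lemma integral_refl (ρ l : ℝ) (hrl : ρ ^ 2 + l ^ 2 = 1) {g : ℝ × ℝ → ℝ} (hg : Measurable g) :
    ∫ p : ℝ × ℝ, g (ρ * p.1 + l * p.2, l * p.1 - ρ * p.2) ∂(nu.prod nu) =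
      ∫ p, g p ∂(nu.prod nu) := by
  have h1 := integral_pair (κ := Fin 2) ![1, 0] ![0, 1] (by simp) (by simp) (by simp)
    (f := fun p : ℝ × ℝ => g (ρ * p.1 + l * p.2, l * p.1 - ρ * p.2))
    (hg.comp (Continuous.measurable (by fun_prop)))
  have h2 := integral_pair (κ := Fin 2) ![ρ, l] ![l, -ρ]
    (by simp [← sq]; linarith) (by simp [← sq]; linarith) (by simp; ring) (f := g) hg
  rw [← h1, ← h2]
  refine integral_congr_ae (Filter.Eventually.of_forall fun Y => ?_)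
  simp [dotProduct, Fin.sum_univ_two]
  left
  ring_nf

/-- The swap symmetry of the law of `(v, v')`. -/
lemma integral_swap (ρ l : ℝ) (hrl : ρ ^ 2 + l ^ 2 = 1) {f : ℝ × ℝ → ℝ} (hf : Measurable f) :
    ∫ p : ℝ × ℝ, f (ρ * p.1 + l * p.2, p.1) ∂(nu.prod nu) =
      ∫ p : ℝ × ℝ, f (p.1, ρ * p.1 + l * p.2) ∂(nu.prod nu) := by
  have h := integral_refl ρ l hrl (g := fun p => f (p.1, ρ * p.1 + l * p.2))
    (hf.comp (Continuous.measurable (by fun_prop)))
  rw [← h]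
  refine integral_congr_ae (Filter.Eventually.of_forall fun p => ?_)
  simp only
  congr 2
  have : ρ * (ρ * p.1 + l * p.2) + l * (l * p.1 - ρ * p.2) = (ρ ^ 2 + l ^ 2) * p.1 := by ring
  rw [this, hrl, one_mul]

lemma integral_c2 (ρ l : ℝ) (hrl : ρ ^ 2 + l ^ 2 = 1) (a b : ℕ) :
    ∫ p : ℝ × ℝ, qu (ρ * p.1 + l * p.2) * (ee p.1 ^ a * ee (ρ * p.1 + l * p.2) ^ b)
      ∂(nu.prod nu) =
      (√(Dl (l ^ 2) a b))⁻¹ * ((1 + (4 / 5 * a) * l ^ 2) / (2 * Dl (l ^ 2) a b)) := by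
  have h := integral_swap ρ l hrl (f := fun p => qu p.1 * (ee p.1 ^ b * ee p.2 ^ a))
    (Continuous.measurable (by
      exact (continuous_qu.comp continuous_fst).mul (((continuous_ee.comp continuous_fst).pow b).mul
        ((continuous_ee.comp continuous_snd).pow a))))
  simp only at h
  have h2 := integral_c1 ρ l hrl b a
  have h3 : Dl (l ^ 2) b a = Dl (l ^ 2) a b := by unfold Dl; ring
  rw [h3] at h2
  rw [← h2, ← h]
  refine integral_congr_ae (Filter.Eventually.of_forall fun p => ?_)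
  simp only
  ring

lemma integrable_c2 (ρ l : ℝ) (a b : ℕ) :
    Integrable (fun p : ℝ × ℝ => qu (ρ * p.1 + l * p.2) *
      (ee p.1 ^ a * ee (ρ * p.1 + l * p.2) ^ b)) (nu.prod nu) := by
  have h0 : Integrable (fun p : ℝ × ℝ => 2 * ρ ^ 2 * qu p.1 + 2 * l ^ 2 * qu p.2)
      (nu.prod nu) := by
    have h1 := integrable_qu.mul_prod (integrable_const (1 : ℝ) : Integrable (fun _ : ℝ => (1 : ℝ)) nu)
    have h2 := (integrable_const (1 : ℝ) : Integrable (fun _ : ℝ => (1 : ℝ)) nu).mul_prod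
      integrable_qu
    simp only [mul_one, one_mul] at h1 h2
    exact (h1.const_mul _).add (h2.const_mul _)
  refine h0.mono' ?_ ?_
  · refine Continuous.aestronglyMeasurable ?_
    exact (continuous_qu.comp ((continuous_const.mul continuous_fst).add
        (continuous_const.mul continuous_snd))).mul (((continuous_ee.comp continuous_fst).pow a).mul
      ((continuous_ee.comp ((continuous_const.mul continuous_fst).add
        (continuous_const.mul continuous_snd))).pow b))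
  · refine Filter.Eventually.of_forall fun p => ?_
    rw [Real.norm_eq_abs, abs_of_nonneg (mul_nonneg (qu_nonneg _) (mul_nonneg
      (pow_nonneg (ee_pos _).le _) (pow_nonneg (ee_pos _).le _)))]
    have h1 : qu (ρ * p.1 + l * p.2) * (ee p.1 ^ a * ee (ρ * p.1 + l * p.2) ^ b) ≤
        qu (ρ * p.1 + l * p.2) :=
      mul_le_of_le_one_right (qu_nonneg _) (mul_le_one₀ (pow_le_one₀ (ee_pos _).le
        (ee_le_one _)) (pow_nonneg (ee_pos _).le _) (pow_le_one₀ (ee_pos _).le (ee_le_one _)))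
    refine h1.trans ?_
    unfold qu
    have : 0 ≤ π * (ρ * p.1 - l * p.2) ^ 2 := by positivity
    nlinarith [this]

/-- The kinds of monomials: `0`: `1`, `1`: `q`, `2`: `q'`. -/
noncomputable def cm (ρ l : ℝ) (s : Fin 3) (a b : ℕ) (p : ℝ × ℝ) : ℝ :=
  (match s with
  | 0 => 1
  | 1 => qu p.1
  | 2 => qu (ρ * p.1 + l * p.2)) * (ee p.1 ^ a * ee (ρ * p.1 + l * p.2) ^ b)

/-- The values of the integrals. -/
noncomputable def cv (y : ℝ) (s : Fin 3) (a b : ℕ) : ℝ :=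
  (√(Dl y a b))⁻¹ * (match s with
  | 0 => 1
  | 1 => (1 + (4 / 5 * b) * y) / (2 * Dl y a b)
  | 2 => (1 + (4 / 5 * a) * y) / (2 * Dl y a b))

lemma integrable_cm (ρ l : ℝ) (s : Fin 3) (a b : ℕ) :
    Integrable (cm ρ l s a b) (nu.prod nu) := by
  fin_cases s
  · have h := integrable_c0 ρ l a b
    refine h.congr (Filter.Eventually.of_forall fun p => ?_)
    simp [cm]
  · exact integrable_c1 ρ l a b
  · exact integrable_c2 ρ l a b

lemma integral_cm (ρ l : ℝ) (hrl : ρ ^ 2 + l ^ 2 = 1) (s : Fin 3) (a b : ℕ) :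
    ∫ p, cm ρ l s a b p ∂(nu.prod nu) = cv (l ^ 2) s a b := by
  fin_cases s
  · have h := integral_c0 ρ l hrl a b
    simp only [cm, cv, mul_one]
    rw [← h]
    refine integral_congr_ae (Filter.Eventually.of_forall fun p => ?_)
    simp
  · exact integral_c1 ρ l hrl a b
  · exact integral_c2 ρ l hrl a b

/-- Evaluation of a formal linear combination of monomials. -/
noncomputable def ce (ρ l : ℝ) (L : List (ℝ × Fin 3 × ℕ × ℕ)) (p : ℝ × ℝ) : ℝ :=
  (L.map fun c => c.1 * cm ρ l c.2.1 c.2.2.1 c.2.2.2 p).sum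

/-- The integral of a formal linear combination. -/
noncomputable def ci (y : ℝ) (L : List (ℝ × Fin 3 × ℕ × ℕ)) : ℝ :=
  (L.map fun c => c.1 * cv y c.2.1 c.2.2.1 c.2.2.2).sum

lemma ce_int (ρ l : ℝ) (hrl : ρ ^ 2 + l ^ 2 = 1) (L : List (ℝ × Fin 3 × ℕ × ℕ)) :
    Integrable (ce ρ l L) (nu.prod nu) ∧ ∫ p, ce ρ l L p ∂(nu.prod nu) = ci (l ^ 2) L := by
  induction L with
  | nil =>
    constructor
    · have : ce ρ l [] = fun _ => (0 : ℝ) := by funext p; simp [ce]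
      rw [this]; exact integrable_zero _ _ _
    · simp [ce, ci]
  | cons c L ih =>
    have h1 : ce ρ l (c :: L) = fun p => c.1 * cm ρ l c.2.1 c.2.2.1 c.2.2.2 p + ce ρ l L p := by
      funext p; simp [ce]
    have h2 : ci (l ^ 2) (c :: L) = c.1 * cv (l ^ 2) c.2.1 c.2.2.1 c.2.2.2 + ci (l ^ 2) L := by
      simp [ci]
    have h3 := (integrable_cm ρ l c.2.1 c.2.2.1 c.2.2.2).const_mul c.1
    constructor
    · rw [h1]; exact h3.add ih.1
    · rw [h1, h2, integral_add h3 ih.1, integral_const_mul, integral_cm ρ l hrl, ih.2]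

end Pool.Agent.Lib.MP_589a62_gt.Full
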