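import Pool.Agent.Lib.MP_589a62_gt.Full.PairS

/-!
# Two close directions: the loss of the outer edges
-/

set_option autoImplicit false

open Matrix Finset Real

namespace Pool.Agent.Lib.MP_589a62_gt.Full

/-- Trivial bound. -/
theorem loss_triv {ι : Type*} (s : Finset ι) (A f : ι → ℝ) {x : ℝ}
    (hf : ∀ l ∈ s, f l ≤ x * A l) : ∑ l ∈ s, f l ≤ x * ∑ l ∈ s, A l := by
  rw [mul_sum]; exact sum_le_sum hf

/-- Two-atom bound for the loss. -/
theorem loss_two {ι : Type*} (s : Finset ι) (A f : ι → ℝ) {y κ M : ℝ} (hκ : 0 ≤ κ)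
    (h0 : ∀ l ∈ s, 0 ≤ A l) (hM : ∀ l ∈ s, A l ≤ M) (hX1 : M ≤ ∑ l ∈ s, A l)
    (hX2 : ∑ l ∈ s, A l ≤ 2 * M) (hf : ∀ l ∈ s, f l ≤ y * A l + κ * A l ^ 2) :
    ∑ l ∈ s, f l ≤ y * ∑ l ∈ s, A l + κ * (M ^ 2 + (∑ l ∈ s, A l - M) ^ 2) := by
  refine (sum_le_sum hf).trans ?_
  rw [sum_add_distrib, ← mul_sum, ← mul_sum]
  have := mul_le_mul_of_nonneg_left (two_atoms s A M h0 hM hX1 hX2) hκ
  linarith

/-- Loss bound with cut-off: `a` is the point where `y + κ a = x`. -/
theorem loss_cut {ι : Type*} (s : Finset ι) (A f : ι → ℝ) {x y κ M a : ℝ} (hκ : 0 ≤ κ)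
    (ha0 : 0 ≤ a) (ha : y + κ * a = x) (haM : a ≤ M)
    (h0 : ∀ l ∈ s, 0 ≤ A l) (hM : ∀ l ∈ s, A l ≤ M) (hX1 : M ≤ ∑ l ∈ s, A l)
    (hX2 : ∑ l ∈ s, A l ≤ 2 * a)
    (hf1 : ∀ l ∈ s, f l ≤ x * A l) (hf2 : ∀ l ∈ s, f l ≤ y * A l + κ * A l ^ 2) :
    ∑ l ∈ s, f l ≤ x * ∑ l ∈ s, A l -
      κ * min ((∑ l ∈ s, A l - M) * (a - (∑ l ∈ s, A l - M)))
        ((∑ l ∈ s, A l - a) * (a - (∑ l ∈ s, A l - a))) := by
  classical
  set X := ∑ l ∈ s, A l with hX
  by_cases hbig : ∃ l₀ ∈ s, a ≤ A l₀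
  · obtain ⟨l₀, hl₀, hal⟩ := hbig
    have hrest : ∑ l ∈ s.erase l₀, A l = X - A l₀ := by
      rw [hX, ← add_sum_erase s A hl₀]; ring
    have hb0 : 0 ≤ X - A l₀ := by
      rw [← hrest]; exact sum_nonneg fun l hl => h0 l (mem_of_mem_erase hl)
    have h1 : ∑ l ∈ s.erase l₀, f l ≤ y * (X - A l₀) + κ * (X - A l₀) ^ 2 := by
      calc ∑ l ∈ s.erase l₀, f l ≤ ∑ l ∈ s.erase l₀, (y * A l + κ * (X - A l₀) * A l) := by
            refine sum_le_sum fun l hl => (hf2 l (mem_of_mem_erase hl)).trans ?_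
            have hle : A l ≤ X - A l₀ := by
              rw [← hrest]
              exact single_le_sum (f := A) (fun l hl => h0 l (mem_of_mem_erase hl)) hl
            have hA := h0 l (mem_of_mem_erase hl)
            have : κ * A l ^ 2 ≤ κ * (X - A l₀) * A l := by
              rw [sq, ← mul_assoc]
              exact mul_le_mul_of_nonneg_right (mul_le_mul_of_nonneg_left hle hκ) hA
            linarith
        _ = y * (X - A l₀) + κ * (X - A l₀) ^ 2 := by
            rw [sum_add_distrib, ← mul_sum, ← mul_sum, hrest]; ring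
    rw [← add_sum_erase s f hl₀]
    have h2 := hf1 l₀ hl₀
    have h3 := hM l₀ hl₀
    -- concavity of `b (a - b)` on `[X - M, X - a]`
    set b := X - A l₀ with hb
    have hb1 : X - M ≤ b := by rw [hb]; linarith
    have hb2 : b ≤ X - a := by rw [hb]; linarith
    have h4 : min ((X - M) * (a - (X - M))) ((X - a) * (a - (X - a))) ≤ b * (a - b) := by
      rcases le_total (2 * b) a with hc | hc
      · refine (min_le_left _ _).trans ?_
        nlinarith [mul_nonneg (sub_nonneg.2 hb1) (by linarith : 0 ≤ a - b - (X - M))]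
      · refine (min_le_right _ _).trans ?_
        nlinarith [mul_nonneg (sub_nonneg.2 hb2) (by linarith : 0 ≤ b + (X - a) - a)]
    have h5 := mul_le_mul_of_nonneg_left h4 hκ
    have h6 : A l₀ = X - b := by rw [hb]; ring
    rw [h6] at h2
    have h7 : x * (X - b) + (y * b + κ * b ^ 2) = x * X - κ * (b * (a - b)) := by
      rw [← ha]; ring
    linarith
  · push Not at hbig
    have hM' : ∀ l ∈ s, A l ≤ a := fun l hl => (hbig l hl).le
    have h1 := loss_two s A f hκ h0 hM' (haM.trans hX1) hX2 hf2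
    refine h1.trans ?_
    have h2 : κ * min ((X - M) * (a - (X - M))) ((X - a) * (a - (X - a))) ≤
        κ * ((X - a) * (a - (X - a))) := mul_le_mul_of_nonneg_left (min_le_right _ _) hκ
    have h3 : y * X + κ * (a ^ 2 + (X - a) ^ 2) = x * X - κ * ((X - a) * (a - (X - a))) := by
      rw [← ha]; ring
    linarith

variable {n k : ℕ}

/-- The sum over the outer edges of the pair `i, j`. -/
noncomputable def outP (U : Matrix (Fin n) (Fin k) ℝ) (i j : Fin n) : ℝ :=
  ∑ l ∈ (univ.erase i).erase j,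
    (kk U i l * (1 - kk U i l / (rowSq U i * rowSq U l)) +
      kk U j l * (1 - kk U j l / (rowSq U j * rowSq U l)))

/-- The loss of one outer row, first bound. -/
theorem row_loss_one (U : Matrix (Fin n) (Fin k) ℝ) {i j l : Fin n} {x : ℝ}
    (h1 : kk U i l / (rowSq U i * rowSq U l) ≤ x) (h2 : kk U j l / (rowSq U j * rowSq U l) ≤ x) :
    kk U i l * (kk U i l / (rowSq U i * rowSq U l)) +
      kk U j l * (kk U j l / (rowSq U j * rowSq U l)) ≤ x * (kk U i l + kk U j l) := by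
  have a1 : 0 ≤ kk U i l := sq_nonneg _
  have a2 : 0 ≤ kk U j l := sq_nonneg _
  nlinarith [mul_le_mul_of_nonneg_left h1 a1, mul_le_mul_of_nonneg_left h2 a2]

/-- The loss of one outer row, second bound. -/
theorem row_loss_two (U : Matrix (Fin n) (Fin k) ℝ) (hpos : ∀ l, 0 < rowSq U l) {c : ℝ}
    (hc0 : 0 < c) (i j l : Fin n) (hc : c ≤ rowSq U l) :
    kk U i l * (kk U i l / (rowSq U i * rowSq U l)) +
      kk U j l * (kk U j l / (rowSq U j * rowSq U l)) ≤
      (1 - kk U i j / (rowSq U i * rowSq U j)) * (kk U i l + kk U j l) +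
        kk U i j / (rowSq U i * rowSq U j) / ((rowSq U i + rowSq U j) * c) *
          (kk U i l + kk U j l) ^ 2 := by
  have h := outer_term_lower U hpos i j l
  have hi := hpos i
  have hj := hpos j
  have hx : 0 ≤ kk U i j / (rowSq U i * rowSq U j) :=
    div_nonneg (sq_nonneg _) (mul_pos hi hj).le
  have h2 : (kk U i l + kk U j l) ^ 2 / ((rowSq U i + rowSq U j) * rowSq U l) ≤
      (kk U i l + kk U j l) ^ 2 / ((rowSq U i + rowSq U j) * c) := by
    refine div_le_div_of_nonneg_left (sq_nonneg _) (by positivity) ?_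
    exact mul_le_mul_of_nonneg_left hc (by positivity)
  have h3 := mul_le_mul_of_nonneg_left h2 hx
  have h4 : kk U i j / (rowSq U i * rowSq U j) / ((rowSq U i + rowSq U j) * c) *
      (kk U i l + kk U j l) ^ 2 = kk U i j / (rowSq U i * rowSq U j) *
      ((kk U i l + kk U j l) ^ 2 / ((rowSq U i + rowSq U j) * c)) := by ring
  rw [h4]
  nlinarith [h, h3]

/-- The outer sum is `X` minus the total loss. -/
theorem outP_eq (U : Matrix (Fin n) (Fin k) ℝ) (hU : Uᵀ * U = 1) {i j : Fin n} (hij : i ≠ j) :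
    outP U i j = (rowSq U i + rowSq U j) * (1 - (rowSq U i + rowSq U j)) +
        2 * (rowSq U i * rowSq U j - kk U i j) -
      ∑ l ∈ (univ.erase i).erase j, (kk U i l * (kk U i l / (rowSq U i * rowSq U l)) +
        kk U j l * (kk U j l / (rowSq U j * rowSq U l))) := by
  rw [← outer_sum U hU hij, outP, ← sum_sub_distrib]
  exact sum_congr rfl fun l _ => by ring

end Pool.Agent.Lib.MP_589a62_gt.Full
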