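import Pool.Agent.Lib.MP_589a62_gt.Full.PairInt
import Pool.Agent.Lib.MP_589a62_gt.Full.PairPoly

/-!
# The values of the pair expectations
-/

set_option autoImplicit false
set_option linter.unusedVariables false
set_option linter.unusedTactic false

open MeasureTheory Set Real

namespace Pool.Agent.Lib.MP_589a62_gt.Full

lemma cv_zero (y : ℝ) (a b : ℕ) : cv y 0 a b = sI (Dl y a b) := by
  simp [cv, sI]

lemma cv_one {y : ℝ} (hy : 0 ≤ y) (a b : ℕ) :
    cv y 1 a b = (1 + (4 / 5 * b) * y) / 2 * sI (Dl y a b) ^ 3 := by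
  have h := sI_sq (Dl_pos hy a b)
  have h3 : sI (Dl y a b) ^ 3 = sI (Dl y a b) * (Dl y a b)⁻¹ := by rw [← h]; ring
  rw [h3]
  have h4 := (Dl_pos hy a b).ne'
  simp only [cv, sI]
  field_simp

lemma cv_two {y : ℝ} (hy : 0 ≤ y) (a b : ℕ) :
    cv y 2 a b = (1 + (4 / 5 * a) * y) / 2 * sI (Dl y a b) ^ 3 := by
  have h := sI_sq (Dl_pos hy a b)
  have h3 : sI (Dl y a b) ^ 3 = sI (Dl y a b) * (Dl y a b)⁻¹ := by rw [← h]; ring
  rw [h3]
  have h4 := (Dl_pos hy a b).ne'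
  simp only [cv, sI]
  field_simp

lemma sI_Dl (y A c : ℝ) (hA : 0 ≤ A) (a b : ℕ) (h : Dl y a b = A * (1 + c * y)) :
    sI (Dl y a b) = sI A * sI (1 + c * y) := by rw [h, sI_mul hA]

lemma sI_Dl0 (y A : ℝ) (a b : ℕ) (h : Dl y a b = A) : sI (Dl y a b) = sI A := by rw [h]

/-- `D Θ`. -/
def L1 : List (ℝ × Fin 3 × ℕ × ℕ) := [(1, 1, 0, 1), (-1, 1, 1, 0), (-1, 2, 0, 1), (1, 2, 1, 0)]
/-- `S Θ²`. -/
def L2 : List (ℝ × Fin 3 × ℕ × ℕ) :=
  [(1, 1, 0, 2), (-2, 1, 1, 1), (1, 1, 2, 0), (1, 2, 0, 2), (-2, 2, 1, 1), (1, 2, 2, 0)]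
/-- `D Θ³`. -/
def L3 : List (ℝ × Fin 3 × ℕ × ℕ) :=
  [(1, 1, 0, 3), (-3, 1, 1, 2), (3, 1, 2, 1), (-1, 1, 3, 0),
   (-1, 2, 0, 3), (3, 2, 1, 2), (-3, 2, 2, 1), (1, 2, 3, 0)]
/-- `S Θ⁴`. -/
def L4 : List (ℝ × Fin 3 × ℕ × ℕ) :=
  [(1, 1, 0, 4), (-4, 1, 1, 3), (6, 1, 2, 2), (-4, 1, 3, 1), (1, 1, 4, 0),
   (1, 2, 0, 4), (-4, 2, 1, 3), (6, 2, 2, 2), (-4, 2, 3, 1), (1, 2, 4, 0)]
/-- `Θ²`. -/
def L5 : List (ℝ × Fin 3 × ℕ × ℕ) := [(1, 0, 0, 2), (-2, 0, 1, 1), (1, 0, 2, 0)]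
/-- `Θ⁴`. -/
def L6 : List (ℝ × Fin 3 × ℕ × ℕ) :=
  [(1, 0, 0, 4), (-4, 0, 1, 3), (6, 0, 2, 2), (-4, 0, 3, 1), (1, 0, 4, 0)]
/-- `Θ⁶`. -/
def L7 : List (ℝ × Fin 3 × ℕ × ℕ) :=
  [(1, 0, 0, 6), (-6, 0, 1, 5), (15, 0, 2, 4), (-20, 0, 3, 3), (15, 0, 4, 2), (-6, 0, 5, 1),
   (1, 0, 6, 0)]

section
variable {y : ℝ} (hy : 0 ≤ y)

lemma d01 (y : ℝ) : sI (Dl y 0 1) = sI (9 / 5) := sI_Dl0 _ _ _ _ (by unfold Dl; push_cast; ring)
lemma d10 (y : ℝ) : sI (Dl y 1 0) = sI (9 / 5) := sI_Dl0 _ _ _ _ (by unfold Dl; push_cast; ring)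
lemma d02 (y : ℝ) : sI (Dl y 0 2) = sI (13 / 5) := sI_Dl0 _ _ _ _ (by unfold Dl; push_cast; ring)
lemma d20 (y : ℝ) : sI (Dl y 2 0) = sI (13 / 5) := sI_Dl0 _ _ _ _ (by unfold Dl; push_cast; ring)
lemma d03 (y : ℝ) : sI (Dl y 0 3) = sI (17 / 5) := sI_Dl0 _ _ _ _ (by unfold Dl; push_cast; ring)
lemma d30 (y : ℝ) : sI (Dl y 3 0) = sI (17 / 5) := sI_Dl0 _ _ _ _ (by unfold Dl; push_cast; ring)
lemma d04 (y : ℝ) : sI (Dl y 0 4) = sI (21 / 5) := sI_Dl0 _ _ _ _ (by unfold Dl; push_cast; ring)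
lemma d40 (y : ℝ) : sI (Dl y 4 0) = sI (21 / 5) := sI_Dl0 _ _ _ _ (by unfold Dl; push_cast; ring)
lemma d06 (y : ℝ) : sI (Dl y 0 6) = sI (29 / 5) := sI_Dl0 _ _ _ _ (by unfold Dl; push_cast; ring)
lemma d60 (y : ℝ) : sI (Dl y 6 0) = sI (29 / 5) := sI_Dl0 _ _ _ _ (by unfold Dl; push_cast; ring)
lemma d11 (y : ℝ) : sI (Dl y 1 1) = sI (13 / 5) * sI (1 + (16 / 65) * y) :=
  sI_Dl _ _ _ (by norm_num) _ _ (by unfold Dl; push_cast; ring)
lemma d12 (y : ℝ) : sI (Dl y 1 2) = sI (17 / 5) * sI (1 + (32 / 85) * y) :=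
  sI_Dl _ _ _ (by norm_num) _ _ (by unfold Dl; push_cast; ring)
lemma d21 (y : ℝ) : sI (Dl y 2 1) = sI (17 / 5) * sI (1 + (32 / 85) * y) :=
  sI_Dl _ _ _ (by norm_num) _ _ (by unfold Dl; push_cast; ring)
lemma d13 (y : ℝ) : sI (Dl y 1 3) = sI (21 / 5) * sI (1 + (16 / 35) * y) :=
  sI_Dl _ _ _ (by norm_num) _ _ (by unfold Dl; push_cast; ring)
lemma d31 (y : ℝ) : sI (Dl y 3 1) = sI (21 / 5) * sI (1 + (16 / 35) * y) :=
  sI_Dl _ _ _ (by norm_num) _ _ (by unfold Dl; push_cast; ring)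
lemma d22 (y : ℝ) : sI (Dl y 2 2) = sI (21 / 5) * sI (1 + (64 / 105) * y) :=
  sI_Dl _ _ _ (by norm_num) _ _ (by unfold Dl; push_cast; ring)
lemma d15 (y : ℝ) : sI (Dl y 1 5) = sI (29 / 5) * sI (1 + (16 / 29) * y) :=
  sI_Dl _ _ _ (by norm_num) _ _ (by unfold Dl; push_cast; ring)
lemma d51 (y : ℝ) : sI (Dl y 5 1) = sI (29 / 5) * sI (1 + (16 / 29) * y) :=
  sI_Dl _ _ _ (by norm_num) _ _ (by unfold Dl; push_cast; ring)
lemma d24 (y : ℝ) : sI (Dl y 2 4) = sI (29 / 5) * sI (1 + (128 / 145) * y) :=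
  sI_Dl _ _ _ (by norm_num) _ _ (by unfold Dl; push_cast; ring)
lemma d42 (y : ℝ) : sI (Dl y 4 2) = sI (29 / 5) * sI (1 + (128 / 145) * y) :=
  sI_Dl _ _ _ (by norm_num) _ _ (by unfold Dl; push_cast; ring)
lemma d33 (y : ℝ) : sI (Dl y 3 3) = sI (29 / 5) * sI (1 + (144 / 145) * y) :=
  sI_Dl _ _ _ (by norm_num) _ _ (by unfold Dl; push_cast; ring)

include hy in
lemma ci1 : ci y L1 = 4 / 5 * y * sI (9 / 5) ^ 3 := by
  simp only [ci, L1, List.map_cons, List.map_nil, List.sum_cons, List.sum_nil, cv_one hy, cv_two hy,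
    d01, d10]
  push_cast
  ring

include hy in
lemma ci2 : ci y L2 = (1 + 4 / 5 * y) * (2 * sI (13 / 5) ^ 3 * (1 - sI (1 + (16 / 65) * y) ^ 3)) := by
  simp only [ci, L2, List.map_cons, List.map_nil, List.sum_cons, List.sum_nil, cv_one hy, cv_two hy,
    d02, d20, d11]
  push_cast
  ring

include hy in
lemma ci3 : ci y L3 = 12 / 5 * y * sI (17 / 5) ^ 3 * (1 - sI (1 + (32 / 85) * y) ^ 3) := by
  simp only [ci, L3, List.map_cons, List.map_nil, List.sum_cons, List.sum_nil, cv_one hy, cv_two hy,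
    d03, d30, d12, d21]
  push_cast
  ring

include hy in
lemma ci4 : ci y L4 = (1 + 8 / 5 * y) * (sI (21 / 5) ^ 3 *
    (2 - 8 * sI (1 + (16 / 35) * y) ^ 3 + 6 * sI (1 + (64 / 105) * y) ^ 3)) := by
  simp only [ci, L4, List.map_cons, List.map_nil, List.sum_cons, List.sum_nil, cv_one hy, cv_two hy,
    d04, d40, d13, d31, d22]
  push_cast
  ring

lemma ci5 : ci y L5 = 2 * sI (13 / 5) * (1 - sI (1 + (16 / 65) * y)) := by
  simp only [ci, L5, List.map_cons, List.map_nil, List.sum_cons, List.sum_nil, cv_zero,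
    d02, d20, d11]
  ring

lemma ci6 : ci y L6 = sI (21 / 5) *
    (2 - 8 * sI (1 + (16 / 35) * y) + 6 * sI (1 + (64 / 105) * y)) := by
  simp only [ci, L6, List.map_cons, List.map_nil, List.sum_cons, List.sum_nil, cv_zero,
    d04, d40, d13, d31, d22]
  ring

lemma ci7 : ci y L7 = sI (29 / 5) *
    (2 - 12 * sI (1 + (16 / 29) * y) + 30 * sI (1 + (128 / 145) * y) - 20 * sI (1 + (144 / 145) * y)) := by
  simp only [ci, L7, List.map_cons, List.map_nil, List.sum_cons, List.sum_nil, cv_zero,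
    d06, d60, d15, d51, d24, d42, d33]
  ring

end

lemma sI_le_one {x : ℝ} (hx : 1 ≤ x) : sI x ≤ 1 :=
  sI_le _ _ (by linarith) (by norm_num) (by linarith)

lemma sI3_le_one {x : ℝ} (hx : 1 ≤ x) : sI x ^ 3 ≤ 1 :=
  pow_le_one₀ (sI_nonneg _) (sI_le_one hx)

lemma low1 (y : ℝ) (h0 : 0 ≤ y) (h1 : y ≤ 1) : y * ((207043 / 625000)) ≤ ci y L1 := by
  rw [ci1 h0]
  have := mul_le_mul_of_nonneg_left k1c h0
  linarith

lemma up2 (y : ℝ) (h0 : 0 ≤ y) (h1 : y ≤ 1) : ci y L2 ≤ y * ((88072301199 / 500000000000) + (108417870783 / 1250000000000) * y + (-34897508287 / 1250000000000) * y ^ 2 + (21099559753 / 2500000000000) * y ^ 3 + (-1554970551 / 625000000000) * y ^ 4 + (19797907 / 39062500000) * y ^ 5) := by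
  rw [ci2 h0]
  have hw := q11c y h0 h1
  have hw1 : sI (1 + (16 / 65) * y) ^ 3 ≤ 1 := sI3_le_one (by linarith)
  have h2 : sI (13 / 5) ^ 3 * (1 - sI (1 + (16 / 65) * y) ^ 3) ≤
      (238529 / 1000000) * (1 - (1 + (-369231 / 1000000) * y + (56787 / 500000) * y ^ 2 + (-16169 / 500000) * y ^ 3 + (8179 / 1000000) * y ^ 4 + (-83 / 62500) * y ^ 5)) :=
    mul_le_mul k2c (by linarith) (by linarith) (by norm_num)
  have h3 := mul_le_mul_of_nonneg_left h2 (by linarith : 0 ≤ 2 * (1 + 4 / 5 * y))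
  refine le_trans (le_of_eq (by ring)) (h3.trans (le_of_eq (by ring)))

lemma low3 (y : ℝ) (h0 : 0 ≤ y) (h1 : y ≤ 1) : y * ((67554245133 / 312500000000) * y + (-25400373201 / 250000000000) * y ^ 2 + (27250335387 / 625000000000) * y ^ 3 + (-19504994481 / 1250000000000) * y ^ 4 + (124893981 / 39062500000) * y ^ 5) ≤ ci y L3 := by
  rw [ci3 h0]
  have hw := q12c y h0 h1
  have hw1 : sI (1 + (32 / 85) * y) ^ 3 ≤ 1 := sI3_le_one (by linarith)
  have h2 : (159507 / 1000000) * (1 - (1 + (-141173 / 250000) * y + (53081 / 200000) * y ^ 2 + (-56947 / 500000) * y ^ 3 + (40761 / 1000000) * y ^ 4 + (-261 / 31250) * y ^ 5)) ≤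
      sI (17 / 5) ^ 3 * (1 - sI (1 + (32 / 85) * y) ^ 3) := by
    refine le_trans (mul_le_mul_of_nonneg_left (sub_le_sub_left hw 1) (by norm_num)) ?_
    exact mul_le_mul_of_nonneg_right k3c (by linarith)
  have h3 := mul_le_mul_of_nonneg_left h2 (by linarith : 0 ≤ 12 / 5 * y)
  refine le_trans (le_of_eq (by ring)) (h3.trans (le_of_eq (by ring)))

lemma B4_nn (y : ℝ) (h0 : 0 ≤ y) (h1 : y ≤ 1) : 0 ≤ (11 / 500000) + (522621 / 500000) * y + (-650623 / 500000) * y ^ 2 + (145091 / 125000) * y ^ 3 + (-409337 / 500000) * y ^ 4 + (197587 / 500000) * y ^ 5 + (-22761 / 250000) * y ^ 6 := by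
  have key : ∀ s t : ℝ, 0 ≤ s → 0 ≤ t → 0 ≤ (11 / 500000) * t ^ 6 + (522687 / 500000) * s * t ^ 5 + (1962647 / 500000) * s ^ 2 * t ^ 4 + (1602151 / 250000) * s ^ 3 * t ^ 3 + (331799 / 62500) * s ^ 4 * t ^ 2 + (282671 / 125000) * s ^ 5 * t + (195101 / 500000) * s ^ 6 := fun s t hs ht => by positivity
  have h := key (y - 0) (1 - y) (by linarith) (by linarith)
  refine h.trans_eq ?_
  ring

lemma B6_nn (y : ℝ) (h0 : 0 ≤ y) (h1 : y ≤ 1) : 0 ≤ (1 / 62500) + (13081 / 62500) * y + (-23387 / 125000) * y ^ 2 + (32181 / 250000) * y ^ 3 + (-32901 / 500000) * y ^ 4 + (4233 / 250000) * y ^ 5 := by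
  have key : ∀ s t : ℝ, 0 ≤ s → 0 ≤ t → 0 ≤ (1 / 62500) * t ^ 5 + (6543 / 31250) * s * t ^ 4 + (81281 / 125000) * s ^ 2 * t ^ 3 + (205843 / 250000) * s ^ 3 * t ^ 2 + (233811 / 500000) * s ^ 4 * t + (10207 / 100000) * s ^ 5 := fun s t hs ht => by positivity
  have h := key (y - 0) (1 - y) (by linarith) (by linarith)
  refine h.trans_eq ?_
  ring

lemma B7_nn (y : ℝ) (h0 : 0 ≤ y) (h1 : y ≤ 1) : 0 ≤ (43 / 500000) + (691 / 500000) * y + (140301 / 500000) * y ^ 2 + (-252573 / 500000) * y ^ 3 + (61309 / 125000) * y ^ 4 + (-661 / 2500) * y ^ 5 + (1219 / 20000) * y ^ 6 := by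
  have key : ∀ s t : ℝ, 0 ≤ s → 0 ≤ t → 0 ≤ (43 / 500000) * t ^ 6 + (949 / 500000) * s * t ^ 5 + (144401 / 500000) * s ^ 2 * t ^ 4 + (316401 / 500000) * s ^ 3 * t ^ 3 + (168439 / 250000) * s ^ 4 * t ^ 2 + (16547 / 50000) * s ^ 5 * t + (31973 / 500000) * s ^ 6 := fun s t hs ht => by positivity
  have h := key (y - 0) (1 - y) (by linarith) (by linarith)
  refine h.trans_eq ?_
  ring

lemma up4 (y : ℝ) (h0 : 0 ≤ y) (h1 : y ≤ 1) : ci y L4 ≤ y * ((1277969 / 500000000000) + (303598149547 / 2500000000000) * y + (107797033687 / 2500000000000) * y ^ 2 + (-66894822589 / 625000000000) * y ^ 3 + (301627056633 / 2500000000000) * y ^ 4 + (-265673606219 / 2500000000000) * y ^ 5 + (78600089197 / 1250000000000) * y ^ 6 + (-2644350219 / 156250000000) * y ^ 7) := by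
  rw [ci4 h0]
  have hw := q13c y h0 h1
  have hw2 := q22c y h0 h1
  have h2 : 2 - 8 * sI (1 + (16 / 35) * y) ^ 3 + 6 * sI (1 + (64 / 105) * y) ^ 3 ≤
      y * ((11 / 500000) + (522621 / 500000) * y + (-650623 / 500000) * y ^ 2 + (145091 / 125000) * y ^ 3 + (-409337 / 500000) * y ^ 4 + (197587 / 500000) * y ^ 5 + (-22761 / 250000) * y ^ 6) := by linarith
  have h3 := mul_le_mul_of_nonneg_left h2 (pow_nonneg (sI_nonneg (21 / 5)) 3)
  have h4 := mul_le_mul_of_nonneg_right k4c (mul_nonneg h0 (B4_nn y h0 h1))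
  have h5 := mul_le_mul_of_nonneg_left (h3.trans h4) (by linarith : 0 ≤ 1 + 8 / 5 * y)
  exact h5.trans (le_of_eq (by ring))

lemma up5 (y : ℝ) (h0 : 0 ≤ y) (h1 : y ≤ 1) : ci y L5 ≤ y * ((38164577699 / 250000000000) + (-1406864719 / 50000000000) * y + (1385778803 / 250000000000) * y ^ 2 + (-206828029 / 250000000000) * y ^ 3) := by
  rw [ci5]
  have hw := q11 y h0 h1
  have hw1 : sI (1 + (16 / 65) * y) ≤ 1 := sI_le_one (by linarith)
  have h2 : sI (13 / 5) * (1 - sI (1 + (16 / 65) * y)) ≤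
      (310087 / 500000) * (1 - (1 + (-123077 / 1000000) * y + (4537 / 200000) * y ^ 2 + (-4469 / 1000000) * y ^ 3 + (667 / 1000000) * y ^ 4)) :=
    mul_le_mul k2 (by linarith) (by linarith) (by norm_num)
  refine le_trans (le_of_eq (by ring)) ((mul_le_mul_of_nonneg_left h2 (by norm_num : (0:ℝ) ≤ 2)).trans
    (le_of_eq (by ring)))

lemma up6 (y : ℝ) (h0 : 0 ≤ y) (h1 : y ≤ 1) : ci y L6 ≤ y * ((487951 / 62500000000) + (6382887031 / 62500000000) * y + (-11411710037 / 125000000000) * y ^ 2 + (15702751131 / 250000000000) * y ^ 3 + (-16054075851 / 500000000000) * y ^ 4 + (2065496583 / 250000000000) * y ^ 5) := by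
  rw [ci6]
  have hw := q13 y h0 h1
  have hw2 := q22 y h0 h1
  have h2 : 2 - 8 * sI (1 + (16 / 35) * y) + 6 * sI (1 + (64 / 105) * y) ≤
      y * ((1 / 62500) + (13081 / 62500) * y + (-23387 / 125000) * y ^ 2 + (32181 / 250000) * y ^ 3 + (-32901 / 500000) * y ^ 4 + (4233 / 250000) * y ^ 5) := by linarith
  have h3 := mul_le_mul_of_nonneg_left h2 (sI_nonneg (21 / 5))
  have h4 := mul_le_mul_of_nonneg_right k4 (mul_nonneg h0 (B6_nn y h0 h1))
  exact (h3.trans h4).trans (le_of_eq (by ring))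

lemma up7 (y : ℝ) (h0 : 0 ≤ y) (h1 : y ≤ 1) : ci y L7 ≤ y * ((4463701 / 125000000000) + (71730637 / 125000000000) * y + (14564225907 / 125000000000) * y ^ 2 + (-26218845411 / 125000000000) * y ^ 3 + (6364303363 / 31250000000) * y ^ 4 + (-68616427 / 625000000) * y ^ 5 + (126540733 / 5000000000) * y ^ 6) := by
  rw [ci7]
  have hw := q15 y h0 h1
  have hw2 := q24 y h0 h1
  have hw3 := q33 y h0 h1
  have h2 : 2 - 12 * sI (1 + (16 / 29) * y) + 30 * sI (1 + (128 / 145) * y) - 20 * sI (1 + (144 / 145) * y) ≤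
      y * ((43 / 500000) + (691 / 500000) * y + (140301 / 500000) * y ^ 2 + (-252573 / 500000) * y ^ 3 + (61309 / 125000) * y ^ 4 + (-661 / 2500) * y ^ 5 + (1219 / 20000) * y ^ 6) := by linarith
  have h3 := mul_le_mul_of_nonneg_left h2 (sI_nonneg (29 / 5))
  have h4 := mul_le_mul_of_nonneg_right k6 (mul_nonneg h0 (B7_nn y h0 h1))
  exact (h3.trans h4).trans (le_of_eq (by ring))

lemma Q1_nn (y z : ℝ) (h0 : 0 ≤ y) (h1 : y ≤ 1) (hz0 : 0 ≤ z) (hz1 : z ≤ 1) : 0 ≤ ((528920437701 / 250000000000000) + (65760083447 / 50000000000000) * y + (-6320678642323 / 250000000000000) * y ^ 2 + (13648952612529 / 250000000000000) * y ^ 3 + (-1415054276163 / 25000000000000) * y ^ 4 + (397240085919 / 12500000000000) * y ^ 5 + (-379622199 / 50000000000) * y ^ 6) + ((32677698801 / 500000000000) + (-108417870783 / 1250000000000) * y + (34897508287 / 1250000000000) * y ^ 2 + (-21099559753 / 2500000000000) * y ^ 3 + (1554970551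 / 625000000000) * y ^ 4 + (-19797907 / 39062500000) * y ^ 5) * z ^ 1 + ((-1457 / 10000) + (67554245133 / 312500000000) * y + (-25400373201 / 250000000000) * y ^ 2 + (27250335387 / 625000000000) * y ^ 3 + (-19504994481 / 1250000000000) * y ^ 4 + (124893981 / 39062500000) * y ^ 5) * z ^ 2 + ((58948722031 / 500000000000) + (-303598149547 / 2500000000000) * y + (-107797033687 / 2500000000000) * y ^ 2 + (66894822589 / 625000000000) * y ^ 3 + (-301627056633 / 2500000000000) * y ^ 4 + (265673606219 / 2500000000000) * y ^ 5 + (-78600089197 / 1250000000000) * y ^ 6 + (2644350219 / 156250000000) * y ^ 7) * z ^ 3 := by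
  rcases le_total z (1 / 2) with hm | hm
  · skip
    have key : ∀ s t u v : ℝ, 0 ≤ s → 0 ≤ t → 0 ≤ u → 0 ≤ v → 0 ≤ (528920437701 / 31250000000000) * t ^ 7 * v ^ 3 + (9756186013353 / 31250000000000) * t ^ 7 * u * v ^ 2 + (8819360713603 / 31250000000000) * t ^ 7 * u ^ 2 * v + (6552780529777 / 62500000000000) * t ^ 7 * u ^ 3 + (2015621740571 / 15625000000000) * s * t ^ 6 * v ^ 3 + (14609479066719 / 7812500000000) * s * t ^ 6 * u * v ^ 2 + (27274600558463 / 15625000000000) * s * t ^ 6 * u ^ 2 * v + (22137617350417 / 31250000000000) * s * t ^ 6 * u ^ 3 + (844931631601 / 3906250000000) * s ^ 2 * t ^ 5 * v ^ 3 + (65137653111287 / 15625000000000) * s ^ 2 * t ^ 5 * u * v ^ 2 + (61878002073037 / 15625000000000) * s ^ 2 * t ^ 5 * u ^ 2 * v + (53493024504883 / 31250000000000) * s ^ 2 * t ^ 5 * u ^ 3 + (2744890489487 / 15625000000000) * s ^ 3 * t ^ 4 * v ^ 3 + (78083088713511 / 15625000000000) * s ^ 3 * t ^ 4 *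 u * v ^ 2 + (37695391088393 / 7812500000000) * s ^ 3 * t ^ 4 * u ^ 2 * v + (137476541664573 / 62500000000000) * s ^ 3 * t ^ 4 * u ^ 3 + (2326704929491 / 31250000000000) * s ^ 4 * t ^ 3 * v ^ 3 + (107062828177823 / 31250000000000) * s ^ 4 * t ^ 3 * u * v ^ 2 + (105067723527423 / 31250000000000) * s ^ 4 * t ^ 3 * u ^ 2 * v + (24758194717083 / 15625000000000) * s ^ 4 * t ^ 3 * u ^ 3 + (342872087 / 48828125000) * s ^ 5 * t ^ 2 * v ^ 3 + (3902669632709 / 3125000000000) * s ^ 5 * t ^ 2 * u * v ^ 2 + (3894991307329 / 3125000000000) * s ^ 5 * t ^ 2 * u ^ 2 * v + (1919192252733 / 3125000000000) * s ^ 5 * t ^ 2 * u ^ 3 + (405326099 / 61035156250) * s ^ 6 * t * v ^ 3 + (3396474619357 / 15625000000000) * s ^ 6 * t * u * v ^ 2 + (1727060242391 / 7812500000000) * s ^ 6 * t * u ^ 2 * v + (6700993160501 / 62500000000000) * s ^ 6 * t * u ^ 3 + (20535696723 / 7812500000000) * s ^ 7 * v ^ 3 + (64119907869 / 7812500000000)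 * s ^ 7 * u * v ^ 2 + (67662703219 / 7812500000000) * s ^ 7 * u ^ 2 * v + (194720235909 / 62500000000000) * s ^ 7 * u ^ 3 := fun s t u v hs ht hu hv => by positivity
    have h := key (y - 0) (1 - y) (z - 0) ((1 / 2) - z) (by linarith) (by linarith) (by linarith) (by linarith)
    refine h.trans_eq ?_
    ring
  · skip
    have key : ∀ s t u v : ℝ, 0 ≤ s → 0 ≤ t → 0 ≤ u → 0 ≤ v → 0 ≤ (6552780529777 / 62500000000000) * t ^ 7 * v ^ 3 + (677436304733 / 1953125000000) * t ^ 7 * u * v ^ 2 + (13795426337603 / 31250000000000) * t ^ 7 * u ^ 2 * v + (9917130853701 / 31250000000000) * t ^ 7 * u ^ 3 + (22137617350417 / 31250000000000) * s * t ^ 6 * v ^ 3 + (9784562873197 / 3906250000000) * s * t ^ 6 * u * v ^ 2 + (6618282500261 / 1953125000000) * s * t ^ 6 * u ^ 2 * v + (35874361694121 / 15625000000000) * s * t ^ 6 * u ^ 3 + (53493024504883 / 31250000000000) * s ^ 2 * t ^ 5 * v ^ 3 + (24650267860403 / 3906250000000)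 * s ^ 2 * t ^ 5 * u * v ^ 2 + (138583791848437 / 15625000000000) * s ^ 2 * t ^ 5 * u ^ 2 * v + (46677834711777 / 7812500000000) * s ^ 2 * t ^ 5 * u ^ 3 + (137476541664573 / 62500000000000) * s ^ 3 * t ^ 4 * v ^ 3 + (261648060640147 / 31250000000000) * s ^ 3 * t ^ 4 * u * v ^ 2 + (94474792500043 / 7812500000000) * s ^ 3 * t ^ 4 * u ^ 2 * v + (126811241559537 / 15625000000000) * s ^ 3 * t ^ 4 * u ^ 3 + (24758194717083 / 15625000000000) * s ^ 4 * t ^ 3 * v ^ 3 + (192030613077573 / 31250000000000) * s ^ 4 * t ^ 3 * u * v ^ 2 + (280988607278123 / 31250000000000) * s ^ 4 * t ^ 3 * u ^ 2 * v + (187659172789791 / 31250000000000) * s ^ 4 * t ^ 3 * u ^ 3 + (1919192252733 / 3125000000000) * s ^ 5 * t ^ 2 * v ^ 3 + (7620162209069 / 3125000000000) * s ^ 5 * t ^ 2 * u * v ^ 2 + (11353011436189 / 3125000000000) * s ^ 5 * t ^ 2 * u ^ 2 * v + (3778484122199 / 1562500000000) * s ^ 5 * t ^ 2 * u ^ 3 + (6700993160501 /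 62500000000000) * s ^ 6 * t * v ^ 3 + (13194738511939 / 31250000000000) * s ^ 6 * t * u * v ^ 2 + (2420743040433 / 3906250000000) * s ^ 6 * t * u ^ 2 * v + (1568672534811 / 3906250000000) * s ^ 6 * t * u ^ 3 + (194720235909 / 62500000000000) * s ^ 7 * v ^ 3 + (313509894851 / 31250000000000) * s ^ 7 * u * v ^ 2 + (171098897713 / 15625000000000) * s ^ 7 * u ^ 2 * v + (992923189 / 244140625000) * s ^ 7 * u ^ 3 := fun s t u v hs ht hu hv => by positivity
    have h := key (y - 0) (1 - y) (z - (1 / 2)) (1 - z) (by linarith) (by linarith) (by linarith) (by linarith)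
    refine h.trans_eq ?_
    ring

lemma Q2_nn (y z : ℝ) (h0 : 0 ≤ y) (h1 : y ≤ 1) (hz0 : (1 / 5) ≤ z) (hz1 : z ≤ 1) : 0 ≤ ((-1020119871003 / 800000000000000) + (-447082337781 / 200000000000000) * y + (25190424998199 / 3200000000000000) * y ^ 2 + (-40387496446791 / 6400000000000000) * y ^ 3 + (42912544749723 / 12800000000000000) * y ^ 4 + (-5521072366359 / 6400000000000000) * y ^ 5) + ((293749289209 / 8000000000000) + (-975760837047 / 20000000000000) * y + (314077574583 / 20000000000000) * y ^ 2 + (-189896037777 / 40000000000000) * y ^ 3 + (13994734959 / 10000000000000) * y ^ 4 + (-178181163 / 625000000000) * y ^ 5) * z ^ 1 + ((-307 / 5000) + (1823964618591 / 20000000000000) * y + (-685810076427 / 16000000000000) * y ^ 2 + (735759055449 / 40000000000000) * y ^ 3 + (-526634850987 / 80000000000000) * y ^ 4 + (3372137487 / 2500000000000) * y ^ 5) * z ^ 2 + ((4774296484511 / 128000000000000) + (-24591450113307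 / 640000000000000) * y + (-8731559728647 / 640000000000000) * y ^ 2 + (5418480629709 / 160000000000000) * y ^ 3 + (-24431791587273 / 640000000000000) * y ^ 4 + (21519562103739 / 640000000000000) * y ^ 5 + (-6366607224957 / 320000000000000) * y ^ 6 + (214192367739 / 40000000000000) * y ^ 7) * z ^ 3 := by
  have key : ∀ s t u v : ℝ, 0 ≤ s → 0 ≤ t → 0 ≤ u → 0 ≤ v → 0 ≤ (62575614748051 / 8192000000000000) * t ^ 7 * v ^ 3 + (80129852958537 / 1638400000000000) * t ^ 7 * u * v ^ 2 + (42800383319549 / 1638400000000000) * t ^ 7 * u ^ 2 * v + (36296648312363 / 1638400000000000) * t ^ 7 * u ^ 3 + (748973900146519 / 20480000000000000) * s * t ^ 6 * v ^ 3 + (1086327075196413 / 4096000000000000) * s * t ^ 6 * u * v ^ 2 + (134734320303637 / 819200000000000) * s * t ^ 6 * u ^ 2 * v + (5193571505251 / 32768000000000) * s * t ^ 6 * u ^ 3 + (3152376362820201 / 40960000000000000) * s ^ 2 * t ^ 5 * v ^ 3 + (1004792497480539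 / 1638400000000000) * s ^ 2 * t ^ 5 * u * v ^ 2 + (685908874595427 / 1638400000000000) * s ^ 2 * t ^ 5 * u ^ 2 * v + (690464860018521 / 1638400000000000) * s ^ 2 * t ^ 5 * u ^ 3 + (7486259833746857 / 81920000000000000) * s ^ 3 * t ^ 4 * v ^ 3 + (12675983611349079 / 16384000000000000) * s ^ 3 * t ^ 4 * u * v ^ 2 + (375580805800039 / 655360000000000) * s ^ 3 * t ^ 4 * u ^ 2 * v + (1918746535743209 / 3276800000000000) * s ^ 3 * t ^ 4 * u ^ 3 + (10808309036947819 / 163840000000000000) * s ^ 4 * t ^ 3 * v ^ 3 + (18461328385018797 / 32768000000000000) * s ^ 4 * t ^ 3 * u * v ^ 2 + (2909313934254889 / 6553600000000000) * s ^ 4 * t ^ 3 * u ^ 2 * v + (931859692823 / 2097152000000) * s ^ 4 * t ^ 3 * u ^ 3 + (4898798018227599 / 163840000000000000) * s ^ 5 * t ^ 2 * v ^ 3 + (7631012813371209 / 32768000000000000) * s ^ 5 * t ^ 2 * u * v ^ 2 + (259562772611697 / 1310720000000000) * s ^ 5 * t ^ 2 * u ^ 2 * v + (1230989825580711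 / 6553600000000000) * s ^ 5 * t ^ 2 * u ^ 3 + (1354448623688693 / 163840000000000000) * s ^ 6 * t * v ^ 3 + (315876247251687 / 6553600000000000) * s ^ 6 * t * u * v ^ 2 + (288778731673559 / 6553600000000000) * s ^ 6 * t * u ^ 2 * v + (45557096215561 / 1310720000000000) * s ^ 6 * t * u ^ 3 + (174374831520167 / 163840000000000000) * s ^ 7 * v ^ 3 + (106684927023969 / 32768000000000000) * s ^ 7 * u * v ^ 2 + (22558148706269 / 6553600000000000) * s ^ 7 * u ^ 2 * v + (8237414032367 / 6553600000000000) * s ^ 7 * u ^ 3 := fun s t u v hs ht hu hv => by positivity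
  have h := key (y - 0) (1 - y) (z - (1 / 5)) (1 - z) (by linarith) (by linarith) (by linarith) (by linarith)
  refine h.trans_eq ?_
  ring

/-- The rate at `T = 1`. -/
noncomputable def RA (z : ℝ) : ℝ := 2435 / 10000 - 2415 / 10000 * z + 1457 / 10000 * z ^ 2 - 1179 / 10000 * z ^ 3

/-- The rate at `T = 3/4`. -/
noncomputable def RB (z : ℝ) : ℝ := 2040 / 10000 - 1358 / 10000 * z + 614 / 10000 * z ^ 2 - 373 / 10000 * z ^ 3

theorem valA (y z : ℝ) (h0 : 0 ≤ y) (h1 : y ≤ 1) (hz0 : 0 ≤ z) (hz1 : z ≤ 1) :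
    y * RA z ≤ ci y L1 - z * ci y L2 + z ^ 2 * ci y L3 - z ^ 3 * ci y L4 -
      561 / 1000 * ci y L5 - 14 / 100 * ci y L6 - 3 / 10 * ci y L7 := by
  have a1 := low1 y h0 h1
  have a2 := mul_le_mul_of_nonneg_left (up2 y h0 h1) hz0
  have a3 := mul_le_mul_of_nonneg_left (low3 y h0 h1) (pow_nonneg hz0 2)
  have a4 := mul_le_mul_of_nonneg_left (up4 y h0 h1) (pow_nonneg hz0 3)
  have a5 := up5 y h0 h1
  have a6 := up6 y h0 h1
  have a7 := up7 y h0 h1
  have b := mul_nonneg h0 (Q1_nn y z h0 h1 hz0 hz1)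
  unfold RA
  linarith

theorem valB (y z : ℝ) (h0 : 0 ≤ y) (h1 : y ≤ 1) (hz0 : 1 / 5 ≤ z) (hz1 : z ≤ 1) :
    y * RB z ≤ 3 / 4 * ci y L1 - z * (3 / 4) ^ 2 * ci y L2 + z ^ 2 * (3 / 4) ^ 3 * ci y L3 -
      z ^ 3 * (3 / 4) ^ 4 * ci y L4 -
      5325 / 10000 * (3 / 4) ^ 2 * ci y L5 - 33 / 100 * (3 / 4) ^ 4 * ci y L6 := by
  have hz : 0 ≤ z := by linarith
  have a1 := low1 y h0 h1
  have a2 := mul_le_mul_of_nonneg_left (up2 y h0 h1) hz
  have a3 := mul_le_mul_of_nonneg_left (low3 y h0 h1) (pow_nonneg hz 2)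
  have a4 := mul_le_mul_of_nonneg_left (up4 y h0 h1) (pow_nonneg hz 3)
  have a5 := up5 y h0 h1
  have a6 := up6 y h0 h1
  have b := mul_nonneg h0 (Q2_nn y z h0 h1 hz0 hz1)
  unfold RB
  linarith

end Pool.Agent.Lib.MP_589a62_gt.Full
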