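import Pool.Agent.Lib.MP_589a62_gt.Full.Large
import Pool.Agent.Lib.MP_589a62_gt.Full.PairTwoP1
import Pool.Agent.Lib.MP_589a62_gt.Full.PairTwoP2
import Pool.Agent.Lib.MP_589a62_gt.Full.PairTwoP3

/-!
# MP_589a62_gt: the numeric inequality of an isolated near-pair (`m = 2`)

`pair_num`: let `c0, c1 ∈ [1/3, 1/2]`, `0 ≤ y ≤ 9/20`, `|1/c0 - 1/c1| ≤ y`, `T = c0 + c1`,
`q = c0 c1 y`, `X = T (1-T) + 2 q`, `M = (2/3) (1-T) + q`.  If the outer energy `S` of the pair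
satisfies `S ≥ (9/20) X` and `S ≥ (1-y) (X - (3/T) (M^2 + (X-M)^2))`, and the leak `s` is at most
`1 - T + y max c`, then `gap c0 + gap c1 ≤ (1/2) (0.2395 - 0.1973 s) S`.

The gap of the pair is at most `h z = 0.09454 z - z^2/4 - z^3/12 - z^4/24`, `z = 1 - T`, and the
two polynomial inequalities are proved by Bernstein certificates on seven rectangles in `(z, y)`.
-/

set_option autoImplicit false

namespace Pool.Agent.Lib.MP_589a62_gt.Full.PairTwo

open Real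

/-- `- log (1 - z)` from above. -/
lemma neg_log_le {z : ℝ} (h0 : 0 ≤ z) (h1 : z ≤ 1 / 3) :
    -((1 - z) * Real.log (1 - z)) ≤ z - z ^ 2 / 2 - z ^ 3 / 6 - z ^ 4 / 12 := by
  have h := Real.abs_log_sub_add_sum_range_le (x := z) (by rw [abs_of_nonneg h0]; linarith) 8
  rw [abs_of_nonneg h0] at h
  simp only [Finset.sum_range_succ, Finset.sum_range_zero] at h
  norm_num at h
  have h2 := (abs_le.mp h).1
  have hz : 0 < 1 - z := by linarith
  have h3 : -Real.log (1 - z) ≤ z + z ^ 2 / 2 + z ^ 3 / 3 + z ^ 4 / 4 + z ^ 5 / 5 + z ^ 6 / 6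
      + z ^ 7 / 7 + z ^ 8 / 8 + z ^ 9 / (1 - z) := by linarith
  have h4 : -((1 - z) * Real.log (1 - z)) ≤ (1 - z) * (z + z ^ 2 / 2 + z ^ 3 / 3 + z ^ 4 / 4
      + z ^ 5 / 5 + z ^ 6 / 6 + z ^ 7 / 7 + z ^ 8 / 8) + z ^ 9 := by
    have := mul_le_mul_of_nonneg_left h3 hz.le
    have e : (1 - z) * (z ^ 9 / (1 - z)) = z ^ 9 := by field_simp
    nlinarith [this, e]
  have h5 : (1 - z) * (z + z ^ 2 / 2 + z ^ 3 / 3 + z ^ 4 / 4
      + z ^ 5 / 5 + z ^ 6 / 6 + z ^ 7 / 7 + z ^ 8 / 8) + z ^ 9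
      = z - z ^ 2 / 2 - z ^ 3 / 6 - z ^ 4 / 12 - z ^ 5 / 20 - z ^ 6 / 30 - z ^ 7 / 42
        - z ^ 8 / 56 + z ^ 9 * (7 / 8) := by ring
  have h6 : z ^ 9 * (7 / 8) ≤ z ^ 5 / 20 := by
    have a1 : z ^ 4 ≤ (1 / 3) ^ 4 := pow_le_pow_left₀ h0 h1 4
    have a2 : 0 ≤ z ^ 5 := by positivity
    nlinarith [mul_le_mul_of_nonneg_left a1 a2]
  have h7 : 0 ≤ z ^ 6 := by positivity
  have h8 : 0 ≤ z ^ 7 := by positivity
  have h9 : 0 ≤ z ^ 8 := by positivity
  linarith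

/-- `log 3 - log 2 ≥ 0.40546`. -/
lemma log_three_sub : (40546 : ℝ) / 100000 ≤ Real.log 3 - Real.log 2 := by
  have h := Real.abs_log_sub_add_sum_range_le (x := (1 : ℝ) / 3)
    (by rw [abs_of_nonneg (by norm_num)]; norm_num) 12
  rw [abs_of_nonneg (show (0 : ℝ) ≤ 1 / 3 by norm_num)] at h
  have e : (1 : ℝ) - 1 / 3 = 2 / 3 := by norm_num
  rw [e, Real.log_div (by norm_num) (by norm_num)] at h
  simp only [Finset.sum_range_succ, Finset.sum_range_zero] at h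
  norm_num at h
  have h2 := (abs_le.mp h).2
  linarith

/-- The gap of a pair is at most twice the gap of the mean, and this is an explicit function. -/
lemma gap_pair {c0 c1 : ℝ} (h0 : 0 < c0) (h1 : 0 < c1) :
    Large.gap 2 c0 + Large.gap 2 c1 ≤ -(1 / 2) * ((c0 + c1) * Real.log (c0 + c1))
      - (1 - (c0 + c1)) * (Real.log 3 - Real.log 2) := by
  have hc := Real.concaveOn_negMulLog.2 (x := c0) (y := c1) (show c0 ∈ Set.Ici 0 from h0.le)
    (show c1 ∈ Set.Ici 0 from h1.le) (show (0 : ℝ) ≤ 1 / 2 by norm_num)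
    (show (0 : ℝ) ≤ 1 / 2 by norm_num) (by norm_num)
  simp only [smul_eq_mul, Real.negMulLog] at hc
  have e : (1 : ℝ) / 2 * c0 + 1 / 2 * c1 = (c0 + c1) / 2 := by ring
  rw [e, Real.log_div (by positivity) (by norm_num)] at hc
  unfold Large.gap
  push_cast
  have e3 : (2 : ℝ) + 1 = 3 := by norm_num
  rw [e3]
  nlinarith [hc]

/-- The gap of a pair: polynomial bound. -/
lemma gap_pair_le {c0 c1 : ℝ} (h0 : 1 / 3 ≤ c0) (h0' : c0 ≤ 1 / 2) (h1 : 1 / 3 ≤ c1)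
    (h1' : c1 ≤ 1 / 2) :
    Large.gap 2 c0 + Large.gap 2 c1 ≤ 9454 / 100000 * (1 - (c0 + c1)) - (1 - (c0 + c1)) ^ 2 / 4
      - (1 - (c0 + c1)) ^ 3 / 12 - (1 - (c0 + c1)) ^ 4 / 24 := by
  have hg := gap_pair (c0 := c0) (c1 := c1) (by linarith) (by linarith)
  have hl := neg_log_le (z := 1 - (c0 + c1)) (by linarith) (by linarith)
  have e : 1 - (1 - (c0 + c1)) = c0 + c1 := by ring
  rw [e] at hl
  have h3 := log_three_sub
  have h4 : (1 - (c0 + c1)) * (40546 / 100000) ≤ (1 - (c0 + c1)) * (Real.log 3 - Real.log 2) :=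
    mul_le_mul_of_nonneg_left h3 (by linarith)
  linarith

/-- At every point one of the two polynomials is nonnegative (and the second one is used only
where `z + y / 2 ≤ 13/40`, `y ≤ 1/5`). -/
lemma cases_box {z y : ℝ} (hz0 : 0 ≤ z) (hz1 : z ≤ 1 / 3) (hy0 : 0 ≤ y) (hy1 : y ≤ 9 / 20) :
    0 ≤ P1 z y ∨ (0 ≤ P2 z y ∧ z + y / 2 ≤ 13 / 40 ∧ y ≤ 1 / 5) := by
  rcases le_total (9 / 40) z with h | h
  · left; exact b1 h hz1 hy0 hy1
  rcases le_total (37 / 200) z with h2 | h2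
  · rcases le_total (13 / 100) y with h3 | h3
    · left; exact b2 h2 h h3 hy1
    · right; exact ⟨b3 h2 h hy0 h3, by linarith, by linarith⟩
  rcases le_total (7 / 200) z with h4 | h4
  · rcases le_total (1 / 5) y with h3 | h3
    · left; exact b4 h4 h2 h3 hy1
    · right; exact ⟨b5 h4 h2 hy0 h3, by linarith, by linarith⟩
  · rcases le_total (3 / 50) y with h3 | h3
    · left; exact b6 hz0 h4 h3 hy1
    · right; exact ⟨b7 hz0 h4 hy0 h3, by linarith, by linarith⟩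

/-- **The numeric inequality of an isolated near-pair.** -/
theorem pair_num {c0 c1 y S s : ℝ} (h0 : 1 / 3 ≤ c0) (h0' : c0 ≤ 1 / 2) (h1 : 1 / 3 ≤ c1)
    (h1' : c1 ≤ 1 / 2) (hy0 : 0 ≤ y) (hy : y ≤ 9 / 20) (hB : |1 / c0 - 1 / c1| ≤ y)
    (hs : s ≤ 1 - (c0 + c1) + y * max c0 c1)
    (hS1 : 9 / 20 * ((c0 + c1) * (1 - (c0 + c1)) + 2 * (c0 * c1 * y)) ≤ S)
    (hS2 : (1 - y) * (((c0 + c1) * (1 - (c0 + c1)) + 2 * (c0 * c1 * y))
      - 3 / (c0 + c1) * ((2 / 3 * (1 - (c0 + c1)) + c0 * c1 * y) ^ 2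
        + (((c0 + c1) * (1 - (c0 + c1)) + 2 * (c0 * c1 * y))
          - (2 / 3 * (1 - (c0 + c1)) + c0 * c1 * y)) ^ 2)) ≤ S) :
    Large.gap 2 c0 + Large.gap 2 c1 ≤ 1 / 2 * (2395 / 10000 - 1973 / 10000 * s) * S := by
  obtain ⟨z, hz⟩ : ∃ z, z = 1 - (c0 + c1) := ⟨_, rfl⟩
  have hT : c0 + c1 = 1 - z := by linarith
  have hz0 : 0 ≤ z := by linarith
  have hz1 : z ≤ 1 / 3 := by linarith
  have hTpos : 0 < 1 - z := by linarith
  have hgap := gap_pair_le h0 h0' h1 h1'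
  obtain ⟨p, hp⟩ : ∃ p, p = c0 * c1 := ⟨_, rfl⟩
  have hp0 : 0 < p := by rw [hp]; have : 0 < c0 := by linarith
                         have : 0 < c1 := by linarith
                         positivity
  -- the difference of the weights
  have hd : |c0 - c1| ≤ y * p := by
    have hc0 : 0 < c0 := by linarith
    have hc1 : 0 < c1 := by linarith
    have e : 1 / c0 - 1 / c1 = -(c0 - c1) / p := by
      rw [hp]; field_simp; ring
    rw [e, abs_div, abs_neg, abs_of_pos hp0, div_le_iff₀ hp0] at hB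
    exact hB
  have hp4 : 4 * p = (1 - z) ^ 2 - (c0 - c1) ^ 2 := by
    rw [hp, ← hT]; ring
  have hpT : p ≤ (1 - z) ^ 2 / 4 := by linarith [sq_nonneg (c0 - c1)]
  have hT1 : (1 - z) ^ 2 ≤ 1 := pow_le_one₀ (by linarith) (by linarith)
  have hd2 : (c0 - c1) ^ 2 ≤ (y * p) ^ 2 := by
    rw [← sq_abs (c0 - c1)]
    exact pow_le_pow_left₀ (abs_nonneg _) hd 2
  have hp2 : p ^ 2 ≤ (1 - z) ^ 2 / 16 := by
    have : p * p ≤ (1 - z) ^ 2 / 4 * (1 / 4) :=
      mul_le_mul hpT (by linarith) hp0.le (by positivity)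
    linarith
  -- lower bound of the product
  have hplow : (1 - z) ^ 2 * (1 - y ^ 2 / 16) ≤ 4 * p := by
    have : (y * p) ^ 2 ≤ y ^ 2 * ((1 - z) ^ 2 / 16) := by
      rw [mul_pow]; exact mul_le_mul_of_nonneg_left hp2 (sq_nonneg y)
    linarith
  -- the maximum of the weights
  have hmax : max c0 c1 ≤ (1 - z) / 2 + y * (1 - z) / 8 := by
    have hyp : y * p ≤ y * (1 - z) / 4 := by
      have : p ≤ (1 - z) / 4 := by linarith [mul_nonneg hz0 hTpos.le, hpT]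
      linarith [mul_le_mul_of_nonneg_left this hy0]
    have h3 := abs_le.mp hd
    apply max_le <;> linarith [h3.1, h3.2]
  have hsig : s ≤ z + y * (1 - z) / 2 + y ^ 2 * (1 - z) / 8 := by
    have := mul_le_mul_of_nonneg_left hmax hy0
    linarith
  obtain ⟨σ, hσ⟩ : ∃ σ, σ = z + y * (1 - z) / 2 + y ^ 2 * (1 - z) / 8 := ⟨_, rfl⟩
  rw [← hσ] at hsig
  have hσ1 : σ ≤ 3 / 5 := by
    rw [hσ]
    have : y ^ 2 ≤ 9 / 20 * y := by linarith [mul_nonneg hy0 (sub_nonneg.2 hy)]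
    linarith [mul_nonneg hy0 hz0, mul_nonneg (sq_nonneg y) hz0]
  have hR : 0 ≤ 2395 / 10000 - 1973 / 10000 * σ := by linarith
  have hRs : 2395 / 10000 - 1973 / 10000 * σ ≤ 2395 / 10000 - 1973 / 10000 * s := by linarith
  obtain ⟨R, hRdef⟩ : ∃ R, R = 2395 / 10000 - 1973 / 10000 * σ := ⟨_, rfl⟩
  rw [hT] at hS1 hS2 hgap
  rw [← hp] at hS1 hS2
  have e1 : 1 - (1 - z) = z := by ring
  rw [e1] at hS1 hS2 hgap
  have hS0 : 0 ≤ S := by
    have : 0 ≤ 9 / 20 * ((1 - z) * z + 2 * (p * y)) := by positivity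
    linarith
  have hfin : 1 / 2 * R * S ≤ 1 / 2 * (2395 / 10000 - 1973 / 10000 * s) * S := by
    apply mul_le_mul_of_nonneg_right _ hS0
    rw [hRdef]; linarith
  have hRn : 0 ≤ R := by rw [hRdef]; exact hR
  refine le_trans ?_ hfin
  rcases cases_box hz0 hz1 hy0 hy with hc | ⟨hc, hzy, hy5⟩
  · -- first bound
    have hq : 2468 / 10000 * (1 - z) ^ 2 * y ≤ p * y := by
      apply mul_le_mul_of_nonneg_right _ hy0
      have : y ^ 2 ≤ 81 / 400 := by linarith [pow_le_pow_left₀ hy0 hy 2]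
      linarith [mul_nonneg (sq_nonneg (1 - z)) (sub_nonneg.2 this), sq_nonneg (1 - z)]
    have hS : 9 / 20 * ((1 - z) * z + 2 * (2468 / 10000 * (1 - z) ^ 2 * y)) ≤ S := by linarith
    have h5 := mul_le_mul_of_nonneg_left hS (show 0 ≤ 1 / 2 * R by positivity)
    unfold P1 at hc
    rw [← hσ, ← hRdef] at hc
    linarith [h5, hc, hgap]
  · -- second bound
    have hq : 249 / 1000 * (1 - z) ^ 2 * y ≤ p * y := by
      apply mul_le_mul_of_nonneg_right _ hy0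
      have : y ^ 2 ≤ 1 / 25 := by linarith [pow_le_pow_left₀ hy0 hy5 2]
      linarith [mul_nonneg (sq_nonneg (1 - z)) (sub_nonneg.2 this), sq_nonneg (1 - z)]
    obtain ⟨q, hqd⟩ : ∃ q, q = p * y := ⟨_, rfl⟩
    obtain ⟨r, hrd⟩ : ∃ r, r = 249 / 1000 * (1 - z) ^ 2 * y := ⟨_, rfl⟩
    rw [← hqd, ← hrd] at hq
    have hqu : q ≤ (1 - z) ^ 2 * y / 4 := by
      rw [hqd]; linarith [mul_le_mul_of_nonneg_right hpT hy0]
    -- `X ≤ T / 3`
    have hX : (1 - z) * z + 2 * q ≤ (1 - z) / 3 := by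
      have : (1 - z) * z + 2 * q ≤ (1 - z) * (z + (1 - z) * y / 2) := by linarith
      have h6 : z + (1 - z) * y / 2 ≤ 1 / 3 := by linarith [mul_nonneg hz0 hy0]
      linarith [mul_le_mul_of_nonneg_left h6 hTpos.le]
    have hr0 : 0 ≤ r := by rw [hrd]; positivity
    -- monotonicity in `q`
    have hmono : (1 - z) * ((1 - z) * z + 2 * r)
        - 3 * ((2 / 3 * z + r) ^ 2 + ((1 - z) * z + 2 * r - (2 / 3 * z + r)) ^ 2)
        ≤ (1 - z) * ((1 - z) * z + 2 * q)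
        - 3 * ((2 / 3 * z + q) ^ 2 + ((1 - z) * z + 2 * q - (2 / 3 * z + q)) ^ 2) := by
      have h7 : 0 ≤ (q - r) * (2 * (1 - z) - 3 * (2 * ((1 - z) * z) + 2 * q + 2 * r)) := by
        apply mul_nonneg (by linarith)
        linarith
      linarith [h7]
    rw [← hqd] at hS2
    have hS3 : (1 - y) * ((1 - z) * ((1 - z) * z + 2 * q)
        - 3 * ((2 / 3 * z + q) ^ 2 + ((1 - z) * z + 2 * q - (2 / 3 * z + q)) ^ 2))
        ≤ (1 - z) * S := by
      have := mul_le_mul_of_nonneg_left hS2 hTpos.le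
      have e : (1 - z) * ((1 - y) * ((1 - z) * z + 2 * q - 3 / (1 - z)
          * ((2 / 3 * z + q) ^ 2 + ((1 - z) * z + 2 * q - (2 / 3 * z + q)) ^ 2)))
          = (1 - y) * ((1 - z) * ((1 - z) * z + 2 * q)
        - 3 * ((2 / 3 * z + q) ^ 2 + ((1 - z) * z + 2 * q - (2 / 3 * z + q)) ^ 2)) := by
        field_simp
      rw [e] at this
      exact this
    have h8 := mul_le_mul_of_nonneg_left hmono (show 0 ≤ 1 - y by linarith)
    have h9 : 1 / 2 * R * ((1 - y) * ((1 - z) * ((1 - z) * z + 2 * r)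
        - 3 * ((2 / 3 * z + r) ^ 2 + ((1 - z) * z + 2 * r - (2 / 3 * z + r)) ^ 2)))
        ≤ 1 / 2 * R * ((1 - z) * S) :=
      mul_le_mul_of_nonneg_left (le_trans h8 hS3) (by positivity)
    unfold P2 at hc
    rw [← hσ, ← hRdef, ← hrd] at hc
    have h10 : (1 - z) * (9454 / 100000 * z - z ^ 2 / 4 - z ^ 3 / 12 - z ^ 4 / 24)
        ≤ (1 - z) * (1 / 2 * R * S) := by linarith [h9, hc]
    have h11 := le_of_mul_le_mul_left h10 hTpos
    linarith

end Pool.Agent.Lib.MP_589a62_gt.Full.PairTwo
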