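import Pool.Agent.Lib.MP_589a62_gt.Full.PairTwo
import Pool.Agent.Lib.MP_589a62_gt.Full.PairTwoN1
import Pool.Agent.Lib.MP_589a62_gt.Full.PairTwoN2
import Pool.Agent.Lib.MP_589a62_gt.Full.PairTwoN3

/-!
# MP_589a62_gt: the numeric inequalities of an isolated near-pair for the threshold `7/10`

Notation: `c0, c1 ∈ [1/3, 1/2]`, `y = 1 - x_{01}`, `|1/c0 - 1/c1| ≤ y`, `T = c0 + c1`,
`q = c0 c1 y`, `X = T (1-T) + 2 q`, `M = (2/3) (1-T) + q`, `E0, E1` the outer energies of the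
two rows.

* `pair_drop` (`0 ≤ y ≤ 3/40`): the inner edge is dropped, the leaks are
  `1 - c0 - c1 (1-y)` and `1 - c1 - c0 (1-y)`.
* `pair_keep` (`3/40 ≤ y ≤ 3/10`): the inner edge is kept with temperature `3/4` and sharing
  weight `1`; the outer sharing weights are `1 - c0/(1 - c1 (1-y))` and `1 - c1/(1 - c0 (1-y))`.
-/

set_option autoImplicit false

namespace Pool.Agent.Lib.MP_589a62_gt.Full.PairTwo

open Real

/-- Consequences of the exchange inequality for the two weights. -/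
lemma weights {c0 c1 y z : ℝ} (h0 : 1 / 3 ≤ c0) (h1 : 1 / 3 ≤ c1) (hy0 : 0 ≤ y)
    (hz : z = 1 - (c0 + c1)) (hz0 : 0 ≤ z) (hB : |1 / c0 - 1 / c1| ≤ y) :
    c0 ≤ (1 - z) / 2 + y * (1 - z) / 8 ∧ c1 ≤ (1 - z) / 2 + y * (1 - z) / 8 ∧
      (1 - z) ^ 2 * (1 - y ^ 2 / 16) ≤ 4 * (c0 * c1) ∧ c0 * c1 ≤ (1 - z) ^ 2 / 4 := by
  have hT : c0 + c1 = 1 - z := by linarith
  have hc0 : 0 < c0 := by linarith
  have hc1 : 0 < c1 := by linarith
  obtain ⟨p, hp⟩ : ∃ p, p = c0 * c1 := ⟨_, rfl⟩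
  have hp0 : 0 < p := by rw [hp]; positivity
  have hTpos : 0 < 1 - z := by linarith
  have hd : |c0 - c1| ≤ y * p := by
    have e : 1 / c0 - 1 / c1 = -(c0 - c1) / p := by
      rw [hp]; field_simp; ring
    rw [e, abs_div, abs_neg, abs_of_pos hp0, div_le_iff₀ hp0] at hB
    exact hB
  have hp4 : 4 * p = (1 - z) ^ 2 - (c0 - c1) ^ 2 := by
    rw [hp, ← hT]; ring
  have hpT : p ≤ (1 - z) ^ 2 / 4 := by linarith [sq_nonneg (c0 - c1)]
  have hT1 : (1 - z) ^ 2 ≤ 1 := pow_le_one₀ (by linarith) (by linarith)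
  have hd2 : (c0 - c1) ^ 2 ≤ (y * p) ^ 2 := by
    rw [← sq_abs (c0 - c1)]
    exact pow_le_pow_left₀ (abs_nonneg _) hd 2
  have hp2 : p ^ 2 ≤ (1 - z) ^ 2 / 16 := by
    have : p * p ≤ (1 - z) ^ 2 / 4 * (1 / 4) :=
      mul_le_mul hpT (by linarith) hp0.le (by positivity)
    linarith
  have hplow : (1 - z) ^ 2 * (1 - y ^ 2 / 16) ≤ 4 * p := by
    have : (y * p) ^ 2 ≤ y ^ 2 * ((1 - z) ^ 2 / 16) := by
      rw [mul_pow]; exact mul_le_mul_of_nonneg_left hp2 (sq_nonneg y)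
    linarith
  have hyp : y * p ≤ y * (1 - z) / 4 := by
    have : p ≤ (1 - z) / 4 := by linarith [mul_nonneg hz0 hTpos.le, hpT]
    linarith [mul_le_mul_of_nonneg_left this hy0]
  have h3 := abs_le.mp hd
  rw [← hp]
  exact ⟨by linarith [h3.1, h3.2], by linarith [h3.1, h3.2], hplow, hpT⟩

/-- The bound `Φ(q) ≤ T S` from the second bound of the outer energy. -/
lemma phi_le {z q y S : ℝ} (hTpos : 0 < 1 - z)
    (hS2 : (1 - y) * (((1 - z) * z + 2 * q)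
      - 3 / (1 - z) * ((2 / 3 * z + q) ^ 2
        + (((1 - z) * z + 2 * q) - (2 / 3 * z + q)) ^ 2)) ≤ S) :
    (1 - y) * ((1 - z) * ((1 - z) * z + 2 * q)
        - 3 * ((2 / 3 * z + q) ^ 2 + ((1 - z) * z + 2 * q - (2 / 3 * z + q)) ^ 2))
        ≤ (1 - z) * S := by
  have := mul_le_mul_of_nonneg_left hS2 hTpos.le
  have e : (1 - z) * ((1 - y) * ((1 - z) * z + 2 * q - 3 / (1 - z)
      * ((2 / 3 * z + q) ^ 2 + ((1 - z) * z + 2 * q - (2 / 3 * z + q)) ^ 2)))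
      = (1 - y) * ((1 - z) * ((1 - z) * z + 2 * q)
    - 3 * ((2 / 3 * z + q) ^ 2 + ((1 - z) * z + 2 * q - (2 / 3 * z + q)) ^ 2)) := by
    field_simp
  rw [e] at this
  exact this

/-- The difference of `Φ` at two values of `q`. -/
lemma phi_diff (z q r : ℝ) :
    ((1 - z) * ((1 - z) * z + 2 * q)
        - 3 * ((2 / 3 * z + q) ^ 2 + ((1 - z) * z + 2 * q - (2 / 3 * z + q)) ^ 2))
      - ((1 - z) * ((1 - z) * z + 2 * r)
        - 3 * ((2 / 3 * z + r) ^ 2 + ((1 - z) * z + 2 * r - (2 / 3 * z + r)) ^ 2))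
      = (q - r) * (2 * (1 - z) - 3 * (2 * ((1 - z) * z) + 2 * q + 2 * r)) := by
  ring

/-- **Isolated near-pair, inner edge dropped.** -/
theorem pair_drop {c0 c1 y E0 E1 : ℝ} (h0 : 1 / 3 ≤ c0) (h0' : c0 ≤ 1 / 2) (h1 : 1 / 3 ≤ c1)
    (h1' : c1 ≤ 1 / 2) (hy0 : 0 ≤ y) (hy : y ≤ 3 / 40) (hB : |1 / c0 - 1 / c1| ≤ y)
    (hE0 : 0 ≤ E0) (hE1 : 0 ≤ E1)
    (hS1 : 3 / 10 * ((c0 + c1) * (1 - (c0 + c1)) + 2 * (c0 * c1 * y)) ≤ E0 + E1)
    (hS2 : (1 - y) * (((c0 + c1) * (1 - (c0 + c1)) + 2 * (c0 * c1 * y))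
      - 3 / (c0 + c1) * ((2 / 3 * (1 - (c0 + c1)) + c0 * c1 * y) ^ 2
        + (((c0 + c1) * (1 - (c0 + c1)) + 2 * (c0 * c1 * y))
          - (2 / 3 * (1 - (c0 + c1)) + c0 * c1 * y)) ^ 2)) ≤ E0 + E1) :
    Large.gap 2 c0 + Large.gap 2 c1 ≤
      1 / 2 * ((2395 / 10000 - 1973 / 10000 * (1 - c0 - c1 * (1 - y))) * E0
        + (2395 / 10000 - 1973 / 10000 * (1 - c1 - c0 * (1 - y))) * E1) := by
  obtain ⟨z, hz⟩ : ∃ z, z = 1 - (c0 + c1) := ⟨_, rfl⟩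
  have hT : c0 + c1 = 1 - z := by linarith
  have hz0 : 0 ≤ z := by linarith
  have hz1 : z ≤ 1 / 3 := by linarith
  have hTpos : 0 < 1 - z := by linarith
  have hgap := gap_pair_le h0 h0' h1 h1'
  obtain ⟨w0, w1, hplow, hpT⟩ := weights h0 h1 hy0 hz hz0 hB
  obtain ⟨S, hS⟩ : ∃ S, S = E0 + E1 := ⟨_, rfl⟩
  obtain ⟨p, hp⟩ : ∃ p, p = c0 * c1 := ⟨_, rfl⟩
  rw [← hp] at hplow hpT
  obtain ⟨σ, hσ⟩ : ∃ σ, σ = z + y * ((1 - z) / 2 + y * (1 - z) / 8) := ⟨_, rfl⟩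
  have hσ1 : σ ≤ 3 / 5 := by
    rw [hσ]
    have : y ^ 2 ≤ 3 / 40 * y := by linarith [mul_nonneg hy0 (sub_nonneg.2 hy)]
    linarith [mul_nonneg hy0 hz0, mul_nonneg (sq_nonneg y) hz0]
  obtain ⟨R, hRdef⟩ : ∃ R, R = 2395 / 10000 - 1973 / 10000 * σ := ⟨_, rfl⟩
  have hRn : 0 ≤ R := by rw [hRdef]; linarith
  have hl0 : 1 - c0 - c1 * (1 - y) ≤ σ := by
    have := mul_le_mul_of_nonneg_left w1 hy0
    rw [hσ]; linarith
  have hl1 : 1 - c1 - c0 * (1 - y) ≤ σ := by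
    have := mul_le_mul_of_nonneg_left w0 hy0
    rw [hσ]; linarith
  have hfin : 1 / 2 * R * S ≤ 1 / 2 * ((2395 / 10000 - 1973 / 10000 * (1 - c0 - c1 * (1 - y))) * E0
        + (2395 / 10000 - 1973 / 10000 * (1 - c1 - c0 * (1 - y))) * E1) := by
    have a0 : R * E0 ≤ (2395 / 10000 - 1973 / 10000 * (1 - c0 - c1 * (1 - y))) * E0 :=
      mul_le_mul_of_nonneg_right (by rw [hRdef]; linarith) hE0
    have a1 : R * E1 ≤ (2395 / 10000 - 1973 / 10000 * (1 - c1 - c0 * (1 - y))) * E1 :=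
      mul_le_mul_of_nonneg_right (by rw [hRdef]; linarith) hE1
    rw [hS]; linarith
  refine le_trans ?_ hfin
  rw [hT] at hS1 hS2 hgap
  rw [← hp, ← hS] at hS1 hS2
  have e1 : 1 - (1 - z) = z := by ring
  rw [e1] at hS1 hS2 hgap
  have hq : 2499 / 10000 * (1 - z) ^ 2 * y ≤ p * y := by
    apply mul_le_mul_of_nonneg_right _ hy0
    have : y ^ 2 ≤ 9 / 1600 := by linarith [pow_le_pow_left₀ hy0 hy 2]
    linarith [mul_nonneg (sq_nonneg (1 - z)) (sub_nonneg.2 this), sq_nonneg (1 - z)]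
  rcases le_total (27 / 100) z with hc | hc
  · -- first bound
    have hc1 := d1 hc hz1 hy0 hy
    have hS : 3 / 10 * ((1 - z) * z + 2 * (2499 / 10000 * (1 - z) ^ 2 * y)) ≤ S := by linarith
    have h5 := mul_le_mul_of_nonneg_left hS (show 0 ≤ 1 / 2 * R by positivity)
    unfold PD1 at hc1
    rw [← hσ, ← hRdef] at hc1
    linarith [h5, hc1, hgap]
  · -- second bound
    have hc1 := d2 hz0 hc hy0 hy
    obtain ⟨q, hqd⟩ : ∃ q, q = p * y := ⟨_, rfl⟩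
    obtain ⟨r, hrd⟩ : ∃ r, r = 2499 / 10000 * (1 - z) ^ 2 * y := ⟨_, rfl⟩
    rw [← hqd, ← hrd] at hq
    have hqu : q ≤ (1 - z) ^ 2 * y / 4 := by
      rw [hqd]; linarith [mul_le_mul_of_nonneg_right hpT hy0]
    have hX : (1 - z) * z + 2 * q ≤ (1 - z) / 3 := by
      have : (1 - z) * z + 2 * q ≤ (1 - z) * (z + (1 - z) * y / 2) := by linarith
      have h6 : z + (1 - z) * y / 2 ≤ 1 / 3 := by linarith [mul_nonneg hz0 hy0]
      linarith [mul_le_mul_of_nonneg_left h6 hTpos.le]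
    have hmono : (1 - z) * ((1 - z) * z + 2 * r)
        - 3 * ((2 / 3 * z + r) ^ 2 + ((1 - z) * z + 2 * r - (2 / 3 * z + r)) ^ 2)
        ≤ (1 - z) * ((1 - z) * z + 2 * q)
        - 3 * ((2 / 3 * z + q) ^ 2 + ((1 - z) * z + 2 * q - (2 / 3 * z + q)) ^ 2) := by
      have h7 : 0 ≤ (q - r) * (2 * (1 - z) - 3 * (2 * ((1 - z) * z) + 2 * q + 2 * r)) := by
        apply mul_nonneg (by linarith)
        linarith
      have := phi_diff z q r
      linarith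
    rw [← hqd] at hS2
    have hS3 := phi_le hTpos hS2
    have h8 := mul_le_mul_of_nonneg_left hmono (show 0 ≤ 1 - y by linarith)
    have h9 : 1 / 2 * R * ((1 - y) * ((1 - z) * ((1 - z) * z + 2 * r)
        - 3 * ((2 / 3 * z + r) ^ 2 + ((1 - z) * z + 2 * r - (2 / 3 * z + r)) ^ 2)))
        ≤ 1 / 2 * R * ((1 - z) * S) :=
      mul_le_mul_of_nonneg_left (le_trans h8 hS3) (by positivity)
    unfold PD2 at hc1
    rw [← hσ, ← hRdef, ← hrd] at hc1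
    have h10 : (1 - z) * (9454 / 100000 * z - z ^ 2 / 4 - z ^ 3 / 12 - z ^ 4 / 24)
        ≤ (1 - z) * (1 / 2 * R * S) := by linarith [h9, hc1]
    have h11 := le_of_mul_le_mul_left h10 hTpos
    linarith

/-- The polynomial of the kept pair is nonnegative. -/
lemma keep_box {z y : ℝ} (hz0 : 0 ≤ z) (hz1 : z ≤ 1 / 3) (hy0 : 3 / 40 ≤ y) (hy1 : y ≤ 3 / 10) :
    0 ≤ PK2 z y := by
  rcases le_total (27 / 200) z with h | h
  · exact k1 h hz1 hy0 hy1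
  · exact k2 hz0 h hy0 hy1

/-- The outer sharing weight of a kept pair: `c / (1 - c' (1-y))` with `c + c' = T` is smallest
at the largest `c'`. -/
lemma share_le {c c' T y m : ℝ} (hT : c + c' = T) (hT1 : T ≤ 1) (hm : c' ≤ m) (hm1 : m < 1)
    (hc : 0 ≤ c) (hc' : 0 ≤ c') (hy0 : 0 ≤ y) (hy1 : y ≤ 1) :
    (T - m) / (1 - m * (1 - y)) ≤ c / (1 - c' * (1 - y)) := by
  have d1 : 0 < 1 - m * (1 - y) := by linarith [mul_nonneg (le_trans hc' hm) hy0]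
  have d2 : 0 < 1 - c' * (1 - y) := by linarith [mul_nonneg hc' hy0]
  rw [div_le_div_iff₀ d1 d2]
  have e : c = T - c' := by linarith
  rw [e]
  have h1 : 0 ≤ (m - c') * (1 - T * (1 - y)) := by
    apply mul_nonneg (by linarith)
    have : 0 ≤ T := by linarith
    linarith [mul_nonneg this hy0]
  linarith [h1]

/-- **Isolated near-pair, inner edge kept.** -/
theorem pair_keep {c0 c1 y E0 E1 : ℝ} (h0 : 1 / 3 ≤ c0) (h0' : c0 ≤ 1 / 2) (h1 : 1 / 3 ≤ c1)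
    (h1' : c1 ≤ 1 / 2) (hy0 : 3 / 40 ≤ y) (hy : y ≤ 3 / 10) (hB : |1 / c0 - 1 / c1| ≤ y)
    (hE0 : 0 ≤ E0) (hE1 : 0 ≤ E1)
    (hS2 : (1 - y) * (((c0 + c1) * (1 - (c0 + c1)) + 2 * (c0 * c1 * y))
      - 3 / (c0 + c1) * ((2 / 3 * (1 - (c0 + c1)) + c0 * c1 * y) ^ 2
        + (((c0 + c1) * (1 - (c0 + c1)) + 2 * (c0 * c1 * y))
          - (2 / 3 * (1 - (c0 + c1)) + c0 * c1 * y)) ^ 2)) ≤ E0 + E1) :
    Large.gap 2 c0 + Large.gap 2 c1 ≤
      1 / 2 * ((2317 / 10000 - 1691 / 10000 * (1 - c0 / (1 - c1 * (1 - y)))) * E0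
        + (2317 / 10000 - 1691 / 10000 * (1 - c1 / (1 - c0 * (1 - y)))) * E1)
        + 998 / 10000 * (c0 * c1 * (1 - y) * y) := by
  obtain ⟨z, hz⟩ : ∃ z, z = 1 - (c0 + c1) := ⟨_, rfl⟩
  have hT : c0 + c1 = 1 - z := by linarith
  have hz0 : 0 ≤ z := by linarith
  have hz1 : z ≤ 1 / 3 := by linarith
  have hTpos : 0 < 1 - z := by linarith
  have hy00 : 0 ≤ y := by linarith
  have hgap := gap_pair_le h0 h0' h1 h1'
  obtain ⟨w0, w1, hplow, hpT⟩ := weights h0 h1 hy00 hz hz0 hB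
  obtain ⟨S, hS⟩ : ∃ S, S = E0 + E1 := ⟨_, rfl⟩
  obtain ⟨p, hp⟩ : ∃ p, p = c0 * c1 := ⟨_, rfl⟩
  rw [← hp] at hplow hpT
  obtain ⟨m, hm⟩ : ∃ m, m = (1 - z) / 2 + y * (1 - z) / 8 := ⟨_, rfl⟩
  rw [← hm] at w0 w1
  have hm1 : m ≤ 54 / 100 := by rw [hm]; linarith [mul_nonneg hy00 hz0]
  have hm0 : 0 < m := by linarith
  obtain ⟨D, hD⟩ : ∃ D, D = 1 - m * (1 - y) := ⟨_, rfl⟩
  have hD0 : 0 < D := by rw [hD]; linarith [mul_nonneg hm0.le hy00]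
  have s0 := share_le (c := c0) (c' := c1) (T := 1 - z) (y := y) (m := m) hT (by linarith) w1
    (by linarith) (by linarith) (by linarith) hy00 (by linarith)
  have s1 := share_le (c := c1) (c' := c0) (T := 1 - z) (y := y) (m := m) (by linarith)
    (by linarith) w0 (by linarith) (by linarith) (by linarith) hy00 (by linarith)
  rw [← hD] at s0 s1
  obtain ⟨R, hRdef⟩ : ∃ R, R = 626 / 10000 + 1691 / 10000 * ((1 - z - m) / D) := ⟨_, rfl⟩
  have hcm : 0 ≤ 1 - z - m := by rw [hm]; linarith [mul_nonneg hy00 hz0]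
  have hRn : 0 ≤ R := by rw [hRdef]; positivity
  have hcmD : (1 - z - m) / D ≤ 1 := by
    rw [div_le_one hD0, hD]; linarith [mul_nonneg hm0.le hy00]
  have hR1 : R ≤ 2317 / 10000 := by rw [hRdef]; linarith
  have hRD : D * R = D * (626 / 10000) + (1 - z - m) * (1691 / 10000) := by
    rw [hRdef]; field_simp
  have hfin : 1 / 2 * R * S ≤
      1 / 2 * ((2317 / 10000 - 1691 / 10000 * (1 - c0 / (1 - c1 * (1 - y)))) * E0
        + (2317 / 10000 - 1691 / 10000 * (1 - c1 / (1 - c0 * (1 - y)))) * E1) := by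
    have a0 : R * E0 ≤ (2317 / 10000 - 1691 / 10000 * (1 - c0 / (1 - c1 * (1 - y)))) * E0 :=
      mul_le_mul_of_nonneg_right (by rw [hRdef]; linarith) hE0
    have a1 : R * E1 ≤ (2317 / 10000 - 1691 / 10000 * (1 - c1 / (1 - c0 * (1 - y)))) * E1 :=
      mul_le_mul_of_nonneg_right (by rw [hRdef]; linarith) hE1
    rw [hS]; linarith
  rw [hT] at hS2 hgap
  rw [← hp, ← hS] at hS2
  have e1 : 1 - (1 - z) = z := by ring
  rw [e1] at hS2 hgap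
  rw [← hp]
  have hq : 2485 / 10000 * (1 - z) ^ 2 * y ≤ p * y := by
    apply mul_le_mul_of_nonneg_right _ hy00
    have : y ^ 2 ≤ 9 / 100 := by linarith [pow_le_pow_left₀ hy00 hy 2]
    linarith [mul_nonneg (sq_nonneg (1 - z)) (sub_nonneg.2 this), sq_nonneg (1 - z)]
  have hc1 := keep_box hz0 hz1 hy0 hy
  obtain ⟨q, hqd⟩ : ∃ q, q = p * y := ⟨_, rfl⟩
  obtain ⟨r, hrd⟩ : ∃ r, r = 2485 / 10000 * (1 - z) ^ 2 * y := ⟨_, rfl⟩
  rw [← hqd, ← hrd] at hq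
  have hqu : q ≤ (1 - z) ^ 2 * y / 4 := by
    rw [hqd]; linarith [mul_le_mul_of_nonneg_right hpT hy00]
  rw [← hqd] at hS2
  have hS3 := phi_le hTpos hS2
  obtain ⟨Fq, hFq⟩ : ∃ F, F = (1 - z) * ((1 - z) * z + 2 * q)
        - 3 * ((2 / 3 * z + q) ^ 2 + ((1 - z) * z + 2 * q - (2 / 3 * z + q)) ^ 2) := ⟨_, rfl⟩
  obtain ⟨Fr, hFr⟩ : ∃ F, F = (1 - z) * ((1 - z) * z + 2 * r)
        - 3 * ((2 / 3 * z + r) ^ 2 + ((1 - z) * z + 2 * r - (2 / 3 * z + r)) ^ 2) := ⟨_, rfl⟩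
  have hdiff := phi_diff z q r
  rw [← hFq, ← hFr] at hdiff
  rw [← hFq] at hS3
  unfold PK2 at hc1
  rw [← hm, ← hD, ← hrd, ← hFr] at hc1
  have ecm : (1 - z) / 2 - y * (1 - z) / 8 = 1 - z - m := by rw [hm]; ring
  rw [ecm, ← hRD] at hc1
  -- lower bound of the bracket
  have hbr : 0 ≤ 1 / 2 * R * (2 * (1 - z) - 3 * (2 * ((1 - z) * z) + 2 * q + 2 * r))
      + (1 - z) * (998 / 10000) := by
    have hb1 : (1 - z) * (-(6 / 10)) ≤ 2 * (1 - z) - 3 * (2 * ((1 - z) * z) + 2 * q + 2 * r) := by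
      have a1 : 2 * q + 2 * r ≤ (1 - z) ^ 2 * y := by linarith
      have a2 : 0 ≤ 26 / 10 - 6 * z - 3 * ((1 - z) * y) := by
        linarith [mul_nonneg (sub_nonneg.2 hz1) (sub_nonneg.2 hy)]
      have a3 := mul_nonneg hTpos.le a2
      linarith
    have hb2 : 1 / 2 * R * ((1 - z) * (-(6 / 10))) ≤
        1 / 2 * R * (2 * (1 - z) - 3 * (2 * ((1 - z) * z) + 2 * q + 2 * r)) :=
      mul_le_mul_of_nonneg_left hb1 (by positivity)
    have hb3 : 0 ≤ (2317 / 10000 - R) * (1 - z) := mul_nonneg (by linarith) hTpos.le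
    linarith
  have hdd : 0 ≤ 1 / 2 * R * (Fq - Fr) + (q - r) * (1 - z) * (998 / 10000) := by
    rw [hdiff]
    have := mul_nonneg (show 0 ≤ q - r by linarith) hbr
    linarith
  have hdd2 : 0 ≤ (1 - y) * (1 / 2 * R * (Fq - Fr) + (q - r) * (1 - z) * (998 / 10000)) :=
    mul_nonneg (by linarith) hdd
  -- divide the certificate by `D`
  have hcD : 0 ≤ D * (1 / 2 * R * (1 - y) * Fr + r * (1 - y) * (1 - z) * (998 / 10000)
      - (1 - z) * (9454 / 100000 * z - z ^ 2 / 4 - z ^ 3 / 12 - z ^ 4 / 24)) := by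
    linarith [hc1]
  have hcD2 := nonneg_of_mul_nonneg_right hcD hD0
  have h9 : 1 / 2 * R * ((1 - y) * Fq) ≤ 1 / 2 * R * ((1 - z) * S) :=
    mul_le_mul_of_nonneg_left hS3 (by positivity)
  have h10 : (1 - z) * (9454 / 100000 * z - z ^ 2 / 4 - z ^ 3 / 12 - z ^ 4 / 24)
      ≤ (1 - z) * (1 / 2 * R * S + 998 / 10000 * (q * (1 - y))) := by
    linarith [h9, hcD2, hdd2]
  have h11 := le_of_mul_le_mul_left h10 hTpos
  have e2 : q * (1 - y) = p * (1 - y) * y := by rw [hqd]; ring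
  rw [e2] at h11
  linarith

end Pool.Agent.Lib.MP_589a62_gt.Full.PairTwo
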