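import Pool.Agent.Lib.MP_589a62_gt.Full.Large

/-!
# MP_589a62_gt: the two polynomials of an isolated near-pair (moved from PairTwo)
-/

set_option autoImplicit false

namespace Pool.Agent.Lib.MP_589a62_gt.Full.PairTwo

open Real

/-- The polynomial of the first bound of the outer energy. -/
noncomputable def P1 (z y : ℝ) : ℝ :=
  225 / 1000 * (2395 / 10000 - 1973 / 10000 * (z + y * (1 - z) / 2 + y ^ 2 * (1 - z) / 8))
      * ((1 - z) * z + 2 * (2468 / 10000 * (1 - z) ^ 2 * y))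
    - (9454 / 100000 * z - z ^ 2 / 4 - z ^ 3 / 12 - z ^ 4 / 24)

/-- The polynomial of the second bound of the outer energy. -/
noncomputable def P2 (z y : ℝ) : ℝ :=
  1 / 2 * (2395 / 10000 - 1973 / 10000 * (z + y * (1 - z) / 2 + y ^ 2 * (1 - z) / 8)) * (1 - y)
      * ((1 - z) * ((1 - z) * z + 2 * (249 / 1000 * (1 - z) ^ 2 * y))
        - 3 * ((2 / 3 * z + 249 / 1000 * (1 - z) ^ 2 * y) ^ 2
          + ((1 - z) * z + 2 * (249 / 1000 * (1 - z) ^ 2 * y)
            - (2 / 3 * z + 249 / 1000 * (1 - z) ^ 2 * y)) ^ 2))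
    - (1 - z) * (9454 / 100000 * z - z ^ 2 / 4 - z ^ 3 / 12 - z ^ 4 / 24)

end Pool.Agent.Lib.MP_589a62_gt.Full.PairTwo
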