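import Pool.Agent.Lib.MP_589a62_gt.Full.Dual

/-!
# Even polynomial bounds for the Legendre transform `ths`
-/

set_option autoImplicit false
set_option linter.unusedVariables false
set_option linter.unusedTactic false

open Real

namespace Pool.Agent.Lib.MP_589a62_gt.Full

lemma neg_log_ge_sum (t : ℝ) (h0 : 0 ≤ t) (h1 : t < 1) (M : ℕ) :
    ∑ n ∈ Finset.range M, t ^ (n + 1) / ((n : ℝ) + 1) ≤ -Real.log (1 - t) := by
  have h := Real.hasSum_pow_div_log_of_abs_lt_one (x := t) (by rwa [abs_of_nonneg h0])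
  exact sum_le_hasSum _ (fun n _ => by positivity) h

lemma thA_P (y : ℝ) (h0 : 0 ≤ y) (h1 : y ≤ 1) : 0 ≤ (61 / 1000) + (-1 / 6) * y + (17 / 300) * y ^ 2 + (-1 / 20) * y ^ 3 + (4 / 15) * y ^ 4 + (-1 / 42) * y ^ 5 + (-1 / 56) * y ^ 6 + (-1 / 72) * y ^ 7 + (-1 / 90) * y ^ 8 + (-1 / 110) * y ^ 9 + (-1 / 132) * y ^ 10 + (-1 / 12) * y ^ 11 := by
  rcases le_total y (1 / 2) with hm1 | hm1
  · skip
    have key : ∀ s t : ℝ, 0 ≤ s → 0 ≤ t → 0 ≤ (15616 / 125) * t ^ 11 + (451328 / 375) * s * t ^ 10 + (389504 / 75) * s ^ 2 * t ^ 9 + (329536 / 25) * s ^ 3 * t ^ 8 + (1629184 / 75) * s ^ 4 * t ^ 7 + (63506272 / 2625) * s ^ 5 * t ^ 6 + (16060364 / 875) * s ^ 6 * t ^ 5 + (14670574 / 1575) * s ^ 7 * t ^ 4 + (4742228 / 1575) * s ^ 8 * t ^ 3 + (1085146 / 1925) * s ^ 9 * t ^ 2 + (1285793 / 24750) * s ^ 10 * t + (716147 / 346500) * s ^ 11 := fun s t hs ht => by positivity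
    have h := key (y - 0) ((1 / 2) - y) (by linarith) (by linarith)
    refine h.trans_eq ?_
    ring
  · skip
    rcases le_total y (3 / 4) with hm2 | hm2
    · skip
      have key : ∀ s t : ℝ, 0 ≤ s → 0 ≤ t → 0 ≤ (366667264 / 86625) * t ^ 11 + (1441727744 / 86625) * s * t ^ 10 + (7591552 / 525) * s ^ 2 * t ^ 9 + (334100416 / 3465) * s ^ 3 * t ^ 8 + (2096746048 / 2475) * s ^ 4 * t ^ 7 + (83782637536 / 28875) * s ^ 5 * t ^ 6 + (22412840848 / 4125) * s ^ 6 * t ^ 5 + (36199318312 / 5775) * s ^ 7 * t ^ 4 + (354422646 / 77) * s ^ 8 * t ^ 3 + (12155656127 / 5775) * s ^ 9 * t ^ 2 + (31612774471 / 57750) * s ^ 10 * t + (2379069659 / 38500) * s ^ 11 := fun s t hs ht => by positivity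
      have h := key (y - (1 / 2)) ((3 / 4) - y) (by linarith) (by linarith)
      refine h.trans_eq ?_
      ring
    · skip
      have key : ∀ s t : ℝ, 0 ≤ s → 0 ≤ t → 0 ≤ (2379069659 / 38500) * t ^ 11 + (3349751734 / 4125) * s * t ^ 10 + (9146468644 / 1925) * s ^ 2 * t ^ 9 + (897580608 / 55) * s ^ 3 * t ^ 8 + (210703446112 / 5775) * s ^ 4 * t ^ 7 + (76379958016 / 1375) * s ^ 5 * t ^ 6 + (1686369020416 / 28875) * s ^ 6 * t ^ 5 + (9433366528 / 225) * s ^ 7 * t ^ 4 + (22757613568 / 1155) * s ^ 8 * t ^ 3 + (4531879936 / 825) * s ^ 9 * t ^ 2 + (60604678144 / 86625) * s ^ 10 * t + (524288 / 125) * s ^ 11 := fun s t hs ht => by positivity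
      have h := key (y - (3 / 4)) (1 - y) (by linarith) (by linarith)
      refine h.trans_eq ?_
      ring

lemma thB_P (y : ℝ) (h0 : 0 ≤ y) (h1 : y ≤ 3 / 4) : 0 ≤ (13 / 400) + (-1 / 6) * y + (77 / 300) * y ^ 2 + (-1 / 20) * y ^ 3 + (-1 / 30) * y ^ 4 + (-1 / 42) * y ^ 5 + (-1 / 56) * y ^ 6 + (-1 / 72) * y ^ 7 + (-1 / 90) * y ^ 8 + (-1 / 10) * y ^ 9 := by
  rcases le_total y (3 / 8) with hm1 | hm1
  · skip
    have key : ∀ s t : ℝ, 0 ≤ s → 0 ≤ t → 0 ≤ (109051904 / 492075) * t ^ 9 + (771751936 / 492075) * s * t ^ 8 + (2369257472 / 492075) * s ^ 2 * t ^ 7 + (4127260672 / 492075) * s ^ 3 * t ^ 6 + (4484513792 / 492075) * s ^ 4 * t ^ 5 + (22084876288 / 3444525) * s ^ 5 * t ^ 4 + (10175026112 / 3444525) * s ^ 6 * t ^ 3 + (3067624024 / 3444525) * s ^ 7 * t ^ 2 + (590760644 / 3444525) * s ^ 8 * t + (39743941 / 2296350) * s ^ 9 := fun s t hs ht => by positivity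
    have h := key (y - 0) ((3 / 8) - y) (by linarith) (by linarith)
    refine h.trans_eq ?_
    ring
  · skip
    have key : ∀ s t : ℝ, 0 ≤ s → 0 ≤ t → 0 ≤ (39743941 / 2296350) * t ^ 9 + (482325763 / 3444525) * s * t ^ 8 + (2200144976 / 3444525) * s ^ 2 * t ^ 7 + (6668410624 / 3444525) * s ^ 3 * t ^ 6 + (13189890032 / 3444525) * s ^ 4 * t ^ 5 + (16609760224 / 3444525) * s ^ 5 * t ^ 4 + (12870445568 / 3444525) * s ^ 6 * t ^ 3 + (5656055296 / 3444525) * s ^ 7 * t ^ 2 + (1118674304 / 3444525) * s ^ 8 * t + (21874432 / 3444525) * s ^ 9 := fun s t hs ht => by positivity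
    have h := key (y - (3 / 8)) ((3 / 4) - y) (by linarith) (by linarith)
    refine h.trans_eq ?_
    ring

theorem thsA (u : ℝ) (hu : |u| ≤ 1) :
    ths u ≤ 561 / 1000 * u ^ 2 + 14 / 100 * u ^ 4 + 3 / 10 * u ^ 6 := by
  have e2 : u ^ 2 = |u| ^ 2 := (sq_abs u).symm
  have e4 : u ^ 4 = |u| ^ 4 := by rw [show u ^ 4 = (u ^ 2) ^ 2 by ring, e2]; ring
  have e6 : u ^ 6 = |u| ^ 6 := by rw [show u ^ 6 = (u ^ 2) ^ 3 by ring, e2]; ring
  rw [e2, e4, e6]
  unfold ths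
  set t := |u| with ht
  have h0 : 0 ≤ t := abs_nonneg u
  rcases hu.eq_or_lt with h | h
  · rw [h]; norm_num
  · have h1 := neg_log_ge_sum t h0 h 12
    simp only [Finset.sum_range_succ, Finset.sum_range_zero] at h1
    norm_num at h1
    have h2 := mul_le_mul_of_nonneg_left h1 (by linarith : 0 ≤ 1 - t)
    have h3 := mul_nonneg (pow_nonneg h0 2) (thA_P t h0 h.le)
    linarith

theorem thsB (u : ℝ) (hu : |u| ≤ 3 / 4) :
    ths u ≤ 5325 / 10000 * u ^ 2 + 34 / 100 * u ^ 4 := by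
  have e2 : u ^ 2 = |u| ^ 2 := (sq_abs u).symm
  have e4 : u ^ 4 = |u| ^ 4 := by rw [show u ^ 4 = (u ^ 2) ^ 2 by ring, e2]; ring
  rw [e2, e4]
  unfold ths
  set t := |u| with ht
  have h0 : 0 ≤ t := abs_nonneg u
  have h : t < 1 := by linarith
  have h1 := neg_log_ge_sum t h0 h 10
  simp only [Finset.sum_range_succ, Finset.sum_range_zero] at h1
  norm_num at h1
  have h2 := mul_le_mul_of_nonneg_left h1 (by linarith : 0 ≤ 1 - t)
  have h3 := mul_nonneg (pow_nonneg h0 2) (thB_P t h0 hu)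
  linarith

end Pool.Agent.Lib.MP_589a62_gt.Full
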