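import Pool.Agent.Lib.MP_589a62_gt.Full.PairNumN
import Pool.Agent.Lib.MP_589a62_gt.Full.ThsPoly

/-!
# The expectation of the pair term
-/

set_option autoImplicit false
set_option linter.unusedVariables false

open Matrix Finset MeasureTheory Set Real ProbabilityTheory

namespace Pool.Agent.Lib.MP_589a62_gt.Full

lemma one_add_mul_exp_neg (a : ℝ) (ha : 0 ≤ a) : (1 + a) * Real.exp (-a) ≤ 1 := by
  have h1 := Real.add_one_le_exp a
  have h2 : Real.exp a * Real.exp (-a) = 1 := by rw [← Real.exp_add]; simp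
  have h3 := mul_le_mul_of_nonneg_right h1 (Real.exp_pos (-a)).le
  linarith

lemma two_mul_exp_neg (a : ℝ) (ha : 0 ≤ a) : 2 * a * Real.exp (-a) ≤ 1 := by
  have h1 := Real.add_one_le_exp (a / 2)
  have h0 : Real.exp (a / 2) ^ 2 = Real.exp a := by
    rw [sq, ← Real.exp_add]; ring_nf
  have h4 : 2 * a ≤ Real.exp a := by
    rw [← h0]
    nlinarith [sq_nonneg (1 - a / 2)]
  have h2 : Real.exp a * Real.exp (-a) = 1 := by rw [← Real.exp_add]; simp
  have h3 := mul_le_mul_of_nonneg_right h4 (Real.exp_pos (-a)).le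
  linarith

lemma pade (z : ℝ) (hz : 0 ≤ z) : 2 * (1 - Real.exp (-z)) ≤ z * (1 + Real.exp (-z)) := by
  have h1 := Real.le_log_one_add_of_nonneg (x := Real.exp z - 1)
    (by have := Real.add_one_le_exp z; linarith)
  have h2 : 1 + (Real.exp z - 1) = Real.exp z := by ring
  rw [h2, Real.log_exp] at h1
  have h3 : 0 < Real.exp z - 1 + 2 := by have := Real.exp_pos z; linarith
  rw [div_le_iff₀ h3] at h1
  have h4 := mul_le_mul_of_nonneg_right h1 (Real.exp_pos (-z)).le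
  have h5 : Real.exp z * Real.exp (-z) = 1 := by rw [← Real.exp_add]; simp
  nlinarith

lemma core (a b : ℝ) (ha : 0 ≤ a) (hab : a ≤ b) :
    (a + b) * (Real.exp (-a) - Real.exp (-b)) ≤ b - a := by
  obtain ⟨z, rfl⟩ : ∃ z, b = a + z := ⟨b - a, by ring⟩
  have hz : 0 ≤ z := by linarith
  have hE : Real.exp (-(a + z)) = Real.exp (-a) * Real.exp (-z) := by
    rw [← Real.exp_add]; ring_nf
  rw [hE]
  have h1 := one_add_mul_exp_neg a ha
  have h2 := two_mul_exp_neg a ha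
  have h3 := pade z hz
  set A := Real.exp (-a) with hA
  set E := Real.exp (-z) with hEd
  have hA0 : 0 < A := Real.exp_pos _
  have hE0 : 0 < E := Real.exp_pos _
  have hE1 : E ≤ 1 := Real.exp_le_one_iff.2 (by linarith)
  have key : (2 * a + z) * A * (1 - E) ≤ z := by
    rcases le_total z 2 with hz2 | hz2
    · have h4 : (2 * a + z) * A ≤ 1 + z / 2 := by
        have e : (2 * a + z) * A = (1 - z / 2) * (2 * a * A) + z * ((1 + a) * A) := by ring
        rw [e]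
        have := mul_le_mul_of_nonneg_left h2 (by linarith : 0 ≤ 1 - z / 2)
        have := mul_le_mul_of_nonneg_left h1 hz
        linarith
      have h5 := mul_le_mul_of_nonneg_right h4 (by linarith : 0 ≤ 1 - E)
      nlinarith
    · have h4 : (2 * a + z) * A ≤ z := by
        have hA1 : 0 ≤ 1 - A := by nlinarith
        have h6 := mul_le_mul_of_nonneg_right hz2 hA1
        nlinarith
      have h5 : (2 * a + z) * A * (1 - E) ≤ (2 * a + z) * A := by
        have : 0 ≤ (2 * a + z) * A := by positivity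
        nlinarith
      linarith
  nlinarith [key]

lemma core' (q q' : ℝ) (hq : 0 ≤ q) (hqq : q ≤ q') :
    (q + q') * (Real.exp (-(4 / 5) * q) - Real.exp (-(4 / 5) * q')) ≤ q' - q := by
  have h := core (4 / 5 * q) (4 / 5 * q') (by linarith) (by linarith)
  rw [neg_mul, neg_mul]
  nlinarith

/-- The pair term. -/
noncomputable def fT (T z v v' : ℝ) : ℝ :=
  qu v * (T * (ee v' - ee v)) / (1 + z * (T * (ee v' - ee v))) - ths (T * (ee v' - ee v)) / 2

lemma ths_neg (u : ℝ) : ths (-u) = ths u := by unfold ths; rw [abs_neg]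

lemma ths_nonneg (u : ℝ) (hu : |u| ≤ 1) : 0 ≤ ths u := by
  have h := fenchel 0 u hu
  rw [th_zero] at h
  linarith

lemma ths_le_one (u : ℝ) (hu : |u| ≤ 1) : ths u ≤ 1 := (abs_le.1 (abs_ths_le hu)).2

lemma abs_ee_sub_lt (v v' : ℝ) : |ee v' - ee v| < 1 := by
  rw [abs_lt]
  have := ee_pos v; have := ee_pos v'; have := ee_le_one v; have := ee_le_one v'
  constructor <;> linarith

lemma alg_sum (q q' P z t : ℝ) (h1 : 1 + z * P ≠ 0) (h2 : 1 - z * P ≠ 0) :
    q * P / (1 + z * P) - t / 2 + (q' * -P / (1 - z * P) - t / 2) =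
      ((q - q') * P - z * (q + q') * P ^ 2) / ((1 + z * P) * (1 - z * P)) - t := by
  have e : ((q - q') * P - z * (q + q') * P ^ 2) / ((1 + z * P) * (1 - z * P)) =
      q * P / (1 + z * P) + q' * -P / (1 - z * P) := by
    rw [div_add_div _ _ h1 h2]
    congr 1
    ring
  rw [e]
  ring

/-- The two-sided pointwise inequality. -/
lemma pw (T z c2 c4 c6 : ℝ) (hT0 : 0 ≤ T) (hT1 : T ≤ 1) (hz0 : 0 ≤ z) (hz1 : z ≤ 1)
    (hths : ∀ u, |u| ≤ T → ths u ≤ c2 * u ^ 2 + c4 * u ^ 4 + c6 * u ^ 6) (v v' : ℝ) :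
    T * ((qu v - qu v') * (ee v' - ee v)) - z * T ^ 2 * ((qu v + qu v') * (ee v' - ee v) ^ 2) +
      z ^ 2 * T ^ 3 * ((qu v - qu v') * (ee v' - ee v) ^ 3) -
      z ^ 3 * T ^ 4 * ((qu v + qu v') * (ee v' - ee v) ^ 4) -
      c2 * T ^ 2 * (ee v' - ee v) ^ 2 - c4 * T ^ 4 * (ee v' - ee v) ^ 4 -
      c6 * T ^ 6 * (ee v' - ee v) ^ 6 ≤ fT T z v v' + fT T z v' v := by
  have hq := qu_nonneg v
  have hq' := qu_nonneg v'
  have hlt := abs_ee_sub_lt v v'
  set q := qu v with hqd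
  set q' := qu v' with hqd'
  set Θ := ee v' - ee v with hΘ
  have hΘ' : ee v - ee v' = -Θ := by rw [hΘ]; ring
  -- `D Θ ≥ S Θ²`
  have hX : 0 ≤ (q - q') * Θ - (q + q') * Θ ^ 2 := by
    rcases le_total q q' with h | h
    · have h1 := core' q q' hq h
      have h2 : Real.exp (-(4 / 5) * q) - Real.exp (-(4 / 5) * q') = -Θ := by
        rw [hΘ, hqd, hqd']; unfold ee; ring
      rw [h2] at h1
      have h3 : 0 ≤ -Θ := by
        rw [← h2, sub_nonneg]
        exact Real.exp_le_exp.2 (by linarith)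
      nlinarith [mul_nonneg h3 (by linarith : 0 ≤ q' - q - (q + q') * -Θ)]
    · have h1 := core' q' q hq' h
      have h2 : Real.exp (-(4 / 5) * q') - Real.exp (-(4 / 5) * q) = Θ := by
        rw [hΘ, hqd, hqd']; unfold ee; ring
      rw [h2] at h1
      have h3 : 0 ≤ Θ := by
        rw [← h2, sub_nonneg]
        exact Real.exp_le_exp.2 (by linarith)
      nlinarith [mul_nonneg h3 (by linarith : 0 ≤ q - q' - (q' + q) * Θ)]
  have hDΘ : 0 ≤ (q - q') * Θ := by
    have : 0 ≤ (q + q') * Θ ^ 2 := by positivity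
    linarith
  set P := T * Θ with hP
  have hPabs : |P| ≤ T := by
    rw [hP, abs_mul, abs_of_nonneg hT0]
    exact mul_le_of_le_one_right hT0 hlt.le
  have hP1 : |P| < 1 := by
    rw [hP, abs_mul, abs_of_nonneg hT0]
    calc T * |Θ| ≤ 1 * |Θ| := mul_le_mul_of_nonneg_right hT1 (abs_nonneg _)
      _ < 1 := by rw [one_mul]; exact hlt
  have hzP : |z * P| < 1 := by
    rw [abs_mul, abs_of_nonneg hz0]
    calc z * |P| ≤ 1 * |P| := mul_le_mul_of_nonneg_right hz1 (abs_nonneg _)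
      _ < 1 := by rw [one_mul]; exact hP1
  obtain ⟨hz2, hz3⟩ := abs_lt.1 hzP
  have hd1 : 0 < 1 + z * P := by linarith
  have hd2 : 0 < 1 - z * P := by linarith
  -- the main nonnegative quantity
  have hXP : 0 ≤ (q - q') * P - z * (q + q') * P ^ 2 := by
    have e : (q - q') * P - z * (q + q') * P ^ 2 =
        T * ((q - q') * Θ - (q + q') * Θ ^ 2) + T * (1 - z * T) * ((q + q') * Θ ^ 2) := by
      rw [hP]; ring
    rw [e]
    have h1 : 0 ≤ 1 - z * T := by
      have := mul_le_one₀ hz1 hT0 hT1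
      linarith
    have h2 : 0 ≤ (q + q') * Θ ^ 2 := by positivity
    positivity
  have hsum : fT T z v v' + fT T z v' v =
      ((q - q') * P - z * (q + q') * P ^ 2) / (1 - (z * P) ^ 2) - ths P := by
    unfold fT
    rw [← hqd, ← hqd', ← hΘ, hΘ', ← hP]
    have e1 : T * -Θ = -P := by rw [hP]; ring
    rw [e1, ths_neg]
    have e2 : 1 + z * -P = 1 - z * P := by ring
    have e3 : 1 - (z * P) ^ 2 = (1 + z * P) * (1 - z * P) := by ring
    rw [e2, e3]
    exact alg_sum q q' P z (ths P) hd1.ne' hd2.ne'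
  rw [hsum]
  have hth := hths P hPabs
  have h4 : ((q - q') * P - z * (q + q') * P ^ 2) * (1 + (z * P) ^ 2) ≤
      ((q - q') * P - z * (q + q') * P ^ 2) / (1 - (z * P) ^ 2) := by
    have e3 : 0 < 1 - (z * P) ^ 2 := by
      have : 1 - (z * P) ^ 2 = (1 + z * P) * (1 - z * P) := by ring
      rw [this]; exact mul_pos hd1 hd2
    rw [le_div_iff₀ e3]
    have h5 : (1 + (z * P) ^ 2) * (1 - (z * P) ^ 2) ≤ 1 := by nlinarith [sq_nonneg ((z * P) ^ 2)]
    nlinarith [mul_le_mul_of_nonneg_left h5 hXP]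
  have h6 : ((q - q') * P - z * (q + q') * P ^ 2) * (1 + (z * P) ^ 2) -
      (c2 * P ^ 2 + c4 * P ^ 4 + c6 * P ^ 6) ≤
      ((q - q') * P - z * (q + q') * P ^ 2) / (1 - (z * P) ^ 2) - ths P := by linarith
  refine le_trans (le_of_eq ?_) h6
  rw [hP]
  ring

/-- The linear bound of the pair term. -/
lemma abs_fT_le (T z : ℝ) (hT0 : 0 ≤ T) (hT1 : T ≤ 1) (hz0 : 0 ≤ z) (hz1 : z ≤ 1) (v v' : ℝ) :
    |fT T z v v'| ≤ qu v + 2 := by
  have hq := qu_nonneg v
  have hlt := abs_ee_sub_lt v v'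
  set P := T * (ee v' - ee v) with hP
  have hP1 : |P| < 1 := by
    rw [hP, abs_mul, abs_of_nonneg hT0]
    calc T * |ee v' - ee v| ≤ 1 * |ee v' - ee v| :=
          mul_le_mul_of_nonneg_right hT1 (abs_nonneg _)
      _ < 1 := by rw [one_mul]; exact hlt
  have hzP : |z * P| < 1 := by
    rw [abs_mul, abs_of_nonneg hz0]
    calc z * |P| ≤ 1 * |P| := mul_le_mul_of_nonneg_right hz1 (abs_nonneg _)
      _ < 1 := by rw [one_mul]; exact hP1
  obtain ⟨hz2, hz3⟩ := abs_lt.1 hzP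
  have hd1 : 0 < 1 + z * P := by linarith
  have h1 : |qu v * P / (1 + z * P)| ≤ qu v + 5 / 4 := by
    rw [abs_div, abs_of_pos hd1, abs_mul, abs_of_nonneg hq, div_le_iff₀ hd1]
    rcases le_total 0 P with h | h
    · rw [abs_of_nonneg h]
      have h2 := abs_lt.1 hP1
      have h3 : 0 ≤ z * P := mul_nonneg hz0 h
      nlinarith [mul_nonneg hq h3]
    · rw [abs_of_nonpos h]
      -- `-P ≤ 1`, `1 + z P ≥ 1 + P ≥ 1 - e`
      have he := ee_pos v
      have he' := ee_pos v'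
      have h2 : -P ≤ ee v := by
        have : -P = T * (ee v - ee v') := by rw [hP]; ring
        rw [this]
        rcases le_total 0 (ee v - ee v') with h5 | h5
        · calc T * (ee v - ee v') ≤ 1 * (ee v - ee v') := mul_le_mul_of_nonneg_right hT1 h5
            _ ≤ ee v := by linarith
        · nlinarith [mul_nonneg hT0 (neg_nonneg.2 h5)]
      have h3 : 1 - ee v ≤ 1 + z * P := by
        have : z * -P ≤ 1 * -P := mul_le_mul_of_nonneg_right hz1 (by linarith)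
        linarith
      have h4 : (1 + 4 / 5 * qu v) * ee v ≤ 1 := by
        have := one_add_mul_exp_neg (4 / 5 * qu v) (by linarith)
        unfold ee
        rwa [neg_mul]
      have h5 : -P ≤ 1 := by have := (abs_lt.1 hP1).1; linarith
      have h6 : qu v * -P ≤ qu v * 1 := mul_le_mul_of_nonneg_left h5 hq
      have h7 : (qu v + 5 / 4) * (1 - ee v) ≤ (qu v + 5 / 4) * (1 + z * P) :=
        mul_le_mul_of_nonneg_left h3 (by linarith)
      nlinarith
  have h2 : |ths P / 2| ≤ 1 / 2 := by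
    rw [abs_div, abs_of_pos (by norm_num : (0:ℝ) < 2)]
    have := abs_ths_le hP1.le
    linarith
  unfold fT
  rw [← hP]
  calc |qu v * P / (1 + z * P) - ths P / 2| ≤ |qu v * P / (1 + z * P)| + |ths P / 2| := abs_sub _ _
    _ ≤ qu v + 2 := by linarith

lemma measurable_fT (T z : ℝ) : Measurable (fun p : ℝ × ℝ => fT T z p.1 p.2) := by
  have h1 : Measurable fun p : ℝ × ℝ => T * (ee p.2 - ee p.1) :=
    (((continuous_ee.measurable.comp measurable_snd).sub
      (continuous_ee.measurable.comp measurable_fst))).const_mul T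
  unfold fT
  exact (((continuous_qu.measurable.comp measurable_fst).mul h1).div
    ((h1.const_mul z).const_add 1)).sub ((measurable_ths.comp h1).div_const 2)

lemma integrable_quc (ρ l : ℝ) :
    Integrable (fun p : ℝ × ℝ => qu (ρ * p.1 + l * p.2)) (nu.prod nu) := by
  have h := integrable_c2 ρ l 0 0
  simpa using h

lemma integrable_fT (T z : ℝ) (hT0 : 0 ≤ T) (hT1 : T ≤ 1) (hz0 : 0 ≤ z) (hz1 : z ≤ 1)
    (a b a' b' : ℝ) :
    Integrable (fun p : ℝ × ℝ => fT T z (a * p.1 + b * p.2) (a' * p.1 + b' * p.2))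
      (nu.prod nu) := by
  refine ((integrable_quc a b).add (integrable_const 2)).mono' ?_ ?_
  · refine Measurable.aestronglyMeasurable ?_
    exact (measurable_fT T z).comp (f := fun p : ℝ × ℝ => (a * p.1 + b * p.2, a' * p.1 + b' * p.2))
      (Continuous.measurable (by fun_prop))
  · refine Filter.Eventually.of_forall fun p => ?_
    rw [Real.norm_eq_abs]
    exact abs_fT_le T z hT0 hT1 hz0 hz1 _ _

theorem pair_gen (T z c2 c4 c6 : ℝ) (hT0 : 0 ≤ T) (hT1 : T ≤ 1) (hz0 : 0 ≤ z) (hz1 : z ≤ 1)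
    (hths : ∀ u, |u| ≤ T → ths u ≤ c2 * u ^ 2 + c4 * u ^ 4 + c6 * u ^ 6) (ρ l : ℝ)
    (hrl : ρ ^ 2 + l ^ 2 = 1) :
    (T * ci (l ^ 2) L1 - z * T ^ 2 * ci (l ^ 2) L2 + z ^ 2 * T ^ 3 * ci (l ^ 2) L3 -
      z ^ 3 * T ^ 4 * ci (l ^ 2) L4 - c2 * T ^ 2 * ci (l ^ 2) L5 - c4 * T ^ 4 * ci (l ^ 2) L6 -
      c6 * T ^ 6 * ci (l ^ 2) L7) / 2 ≤
      ∫ p : ℝ × ℝ, fT T z p.1 (ρ * p.1 + l * p.2) ∂(nu.prod nu) := by
  have e1 := ce_int ρ l hrl L1
  have e2 := ce_int ρ l hrl L2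
  have e3 := ce_int ρ l hrl L3
  have e4 := ce_int ρ l hrl L4
  have e5 := ce_int ρ l hrl L5
  have e6 := ce_int ρ l hrl L6
  have e7 := ce_int ρ l hrl L7
  have hf1 : Integrable (fun p : ℝ × ℝ => fT T z p.1 (ρ * p.1 + l * p.2)) (nu.prod nu) := by
    have := integrable_fT T z hT0 hT1 hz0 hz1 1 0 ρ l
    simpa using this
  have hf2 : Integrable (fun p : ℝ × ℝ => fT T z (ρ * p.1 + l * p.2) p.1) (nu.prod nu) := by
    have := integrable_fT T z hT0 hT1 hz0 hz1 ρ l 1 0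
    simpa using this
  have hsw := integral_swap ρ l hrl (f := fun p => fT T z p.1 p.2) (measurable_fT T z)
  simp only at hsw
  set G : ℝ × ℝ → ℝ := fun p => T * ce ρ l L1 p - z * T ^ 2 * ce ρ l L2 p +
    z ^ 2 * T ^ 3 * ce ρ l L3 p - z ^ 3 * T ^ 4 * ce ρ l L4 p - c2 * T ^ 2 * ce ρ l L5 p -
    c4 * T ^ 4 * ce ρ l L6 p - c6 * T ^ 6 * ce ρ l L7 p with hG
  have hG1 : Integrable G (nu.prod nu) :=
    ((((((e1.1.const_mul _).sub (e2.1.const_mul _)).add (e3.1.const_mul _)).sub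
      (e4.1.const_mul _)).sub (e5.1.const_mul _)).sub (e6.1.const_mul _)).sub (e7.1.const_mul _)
  have hG2 : ∫ p, G p ∂(nu.prod nu) = T * ci (l ^ 2) L1 - z * T ^ 2 * ci (l ^ 2) L2 +
      z ^ 2 * T ^ 3 * ci (l ^ 2) L3 -
      z ^ 3 * T ^ 4 * ci (l ^ 2) L4 - c2 * T ^ 2 * ci (l ^ 2) L5 - c4 * T ^ 4 * ci (l ^ 2) L6 -
      c6 * T ^ 6 * ci (l ^ 2) L7 := by
    have i2 := (e1.1.const_mul T).sub (e2.1.const_mul (z * T ^ 2))
    have i3 := i2.add (e3.1.const_mul (z ^ 2 * T ^ 3))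
    have i4 := i3.sub (e4.1.const_mul (z ^ 3 * T ^ 4))
    have i5 := i4.sub (e5.1.const_mul (c2 * T ^ 2))
    have i6 := i5.sub (e6.1.const_mul (c4 * T ^ 4))
    have i7 := e7.1.const_mul (c6 * T ^ 6)
    have s1 := integral_sub i6 i7
    have s2 := integral_sub i5 (e6.1.const_mul (c4 * T ^ 4))
    have s3 := integral_sub i4 (e5.1.const_mul (c2 * T ^ 2))
    have s4 := integral_sub i3 (e4.1.const_mul (z ^ 3 * T ^ 4))
    have s5 := integral_add i2 (e3.1.const_mul (z ^ 2 * T ^ 3))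
    have s6 := integral_sub (e1.1.const_mul T) (e2.1.const_mul (z * T ^ 2))
    simp only [Pi.sub_apply, Pi.add_apply, integral_const_mul, e1.2, e2.2, e3.2, e4.2, e5.2,
      e6.2, e7.2] at s1 s2 s3 s4 s5 s6
    rw [s6] at s5
    rw [s5] at s4
    rw [s4] at s3
    rw [s3] at s2
    rw [s2] at s1
    exact s1
  have hle : ∀ p : ℝ × ℝ, G p ≤ fT T z p.1 (ρ * p.1 + l * p.2) + fT T z (ρ * p.1 + l * p.2) p.1 := by
    intro p
    have h := pw T z c2 c4 c6 hT0 hT1 hz0 hz1 hths p.1 (ρ * p.1 + l * p.2)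
    refine le_trans (le_of_eq ?_) h
    simp only [hG, ce, cm, L1, L2, L3, L4, L5, L6, L7, List.map_cons, List.map_nil,
      List.sum_cons, List.sum_nil]
    ring
  have h1 := integral_mono hG1 (hf1.add hf2) hle
  simp only [Pi.add_apply] at h1
  rw [integral_add hf1 hf2, hsw, hG2] at h1
  linarith

theorem pair_valA (z : ℝ) (hz0 : 0 ≤ z) (hz1 : z ≤ 1) (ρ l : ℝ) (hrl : ρ ^ 2 + l ^ 2 = 1) :
    l ^ 2 * RA z / 2 ≤ ∫ p : ℝ × ℝ, fT 1 z p.1 (ρ * p.1 + l * p.2) ∂(nu.prod nu) := by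
  have hl1 : l ^ 2 ≤ 1 := by nlinarith [sq_nonneg ρ]
  have h1 := valA (l ^ 2) z (sq_nonneg l) hl1 hz0 hz1
  have h2 := pair_gen 1 z (561 / 1000) (14 / 100) (3 / 10) zero_le_one le_rfl hz0 hz1 thsA ρ l hrl
  linarith

theorem pair_valB (z : ℝ) (hz0 : 1 / 5 ≤ z) (hz1 : z ≤ 1) (ρ l : ℝ) (hrl : ρ ^ 2 + l ^ 2 = 1) :
    l ^ 2 * RB z / 2 ≤ ∫ p : ℝ × ℝ, fT (3 / 4) z p.1 (ρ * p.1 + l * p.2) ∂(nu.prod nu) := by
  have hl1 : l ^ 2 ≤ 1 := by nlinarith [sq_nonneg ρ]
  have h1 := valB (l ^ 2) z (sq_nonneg l) hl1 hz0 hz1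
  have h2 := pair_gen (3 / 4) z (5325 / 10000) (34 / 100) 0 (by norm_num) (by norm_num)
    (by linarith) hz1 (fun u hu => by have := thsB u hu; linarith) ρ l hrl
  linarith

end Pool.Agent.Lib.MP_589a62_gt.Full
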