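import Pool.Agent.Lib.MP_589a62_gt.Full.GaussPair
import Pool.Agent.Lib.MP_589a62_gt.Full.Dual

/-!
# The scalar integrals of the pair bound
-/

set_option autoImplicit false
set_option linter.unusedSectionVars false

open Matrix Finset MeasureTheory Set Real ProbabilityTheory
open scoped ENNReal NNReal

namespace Pool.Agent.Lib.MP_589a62_gt.Full

/-- `π u²`. -/
noncomputable def qu (u : ℝ) : ℝ := π * u ^ 2

lemma qu_nonneg (u : ℝ) : 0 ≤ qu u := mul_nonneg Real.pi_pos.le (sq_nonneg _)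

/-- `exp (-(4/5) π u²)`. -/
noncomputable def ee (u : ℝ) : ℝ := Real.exp (-(4 / 5) * qu u)

/-- `r_k = (1 + 4k/5)^(-1/2)`. -/
noncomputable def rk (k : ℕ) : ℝ := (√(1 + 4 / 5 * k))⁻¹

lemma rk_pos (k : ℕ) : 0 < rk k := by unfold rk; positivity

lemma rk_sq (k : ℕ) : rk k ^ 2 = (1 + 4 / 5 * (k : ℝ))⁻¹ := by
  unfold rk
  rw [inv_pow, Real.sq_sqrt (by positivity)]

lemma int_gauss (b : ℝ) (hb : 0 < b) : ∫ t : ℝ, Real.exp (-(π * b) * t ^ 2) = (√b)⁻¹ := by
  rw [integral_gaussian]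
  have : π / (π * b) = b⁻¹ := by
    have := Real.pi_pos.ne'
    field_simp
  rw [this, Real.sqrt_inv]

lemma int_sq_gauss (b : ℝ) (hb : 0 < b) :
    ∫ t : ℝ, (π * t ^ 2) * Real.exp (-(π * b) * t ^ 2) = (√b)⁻¹ / (2 * b) := by
  -- through the variance of the gaussian measure with variance `1/(2πb)`
  set w : ℝ≥0 := ⟨(2 * π * b)⁻¹, by positivity⟩ with hw
  have hwc : (w : ℝ) = (2 * π * b)⁻¹ := rfl
  have hw0 : w ≠ 0 := by
    intro h
    have h1 : (w : ℝ) = 0 := by rw [h]; rfl
    rw [hwc] at h1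
    have : 0 < (2 * π * b)⁻¹ := by positivity
    linarith
  have hpdf : ∀ t : ℝ, gaussianPDFReal 0 w t = √b * Real.exp (-(π * b) * t ^ 2) := by
    intro t
    rw [gaussianPDFReal, hwc]
    have h1 : 2 * π * (2 * π * b)⁻¹ = b⁻¹ := by
      have := Real.pi_pos.ne'
      field_simp
    rw [h1, Real.sqrt_inv, inv_inv, sub_zero]
    congr 2
    have := Real.pi_pos.ne'
    field_simp
  have hvar : ∫ t : ℝ, t ^ 2 ∂(gaussianReal 0 w) = w := by
    have h1 := variance_id_gaussianReal (μ := 0) (v := w)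
    rw [variance_of_integral_eq_zero aemeasurable_id (by simp)] at h1
    simpa using h1
  rw [integral_gaussianReal_eq_integral_smul hw0] at hvar
  simp only [hpdf, smul_eq_mul] at hvar
  have hs : 0 < √b := Real.sqrt_pos.2 hb
  have h2 : ∫ t : ℝ, (π * t ^ 2) * Real.exp (-(π * b) * t ^ 2) =
      (π / √b) * ∫ t : ℝ, √b * Real.exp (-(π * b) * t ^ 2) * t ^ 2 := by
    rw [← integral_const_mul]
    refine integral_congr_ae (Filter.Eventually.of_forall fun t => ?_)
    simp only
    field_simp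
  rw [h2, hvar, hwc]
  have := Real.pi_pos.ne'
  field_simp

lemma ee_pow (k : ℕ) (u : ℝ) : ee u ^ k = Real.exp (-(4 / 5 * k) * qu u) := by
  unfold ee
  rw [← Real.exp_nat_mul]
  congr 1
  ring

/-- The moments. -/
noncomputable def mom : ℕ → ℕ → ℝ
  | 0, k => rk k
  | _ + 1, k => rk k ^ 3 / 2

lemma integral_mom0 (k : ℕ) : ∫ u, ee u ^ k ∂nu = rk k := by
  rw [integral_nu]
  have h : ∀ u : ℝ, ee u ^ k * Real.exp (-π * u ^ 2) =
      Real.exp (-(π * (1 + 4 / 5 * k)) * u ^ 2) := by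
    intro u
    rw [ee_pow, qu, ← Real.exp_add]
    congr 1
    ring
  simp only [h]
  rw [int_gauss _ (by positivity)]
  rfl

lemma integral_mom1 (k : ℕ) : ∫ u, qu u * ee u ^ k ∂nu = rk k ^ 3 / 2 := by
  rw [integral_nu]
  have h : ∀ u : ℝ, qu u * ee u ^ k * Real.exp (-π * u ^ 2) =
      (π * u ^ 2) * Real.exp (-(π * (1 + 4 / 5 * k)) * u ^ 2) := by
    intro u
    rw [ee_pow, qu, mul_assoc, ← Real.exp_add]
    congr 2
    ring
  simp only [h]
  rw [int_sq_gauss _ (by positivity)]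
  have h2 := rk_sq k
  have h3 : rk k ^ 3 = rk k * (1 + 4 / 5 * (k : ℝ))⁻¹ := by rw [← h2]; ring
  rw [h3]
  unfold rk
  have : (1 + 4 / 5 * (k : ℝ)) ≠ 0 := by positivity
  field_simp

lemma continuous_qu : Continuous qu := by unfold qu; fun_prop
lemma continuous_ee : Continuous ee := by unfold ee qu; fun_prop

lemma ee_pos (u : ℝ) : 0 < ee u := Real.exp_pos _
lemma ee_le_one (u : ℝ) : ee u ≤ 1 := by
  unfold ee
  rw [Real.exp_le_one_iff]
  have := qu_nonneg u
  linarith

lemma integrable_qu : Integrable qu nu := by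
  have h : Integrable (fun t : ℝ => t ^ 2) nu := by
    have := (memLp_id_gaussianReal (μ := 0) (v := vv) 2).integrable_sq
    simpa [nu] using this
  exact h.const_mul π

lemma integrable_m0 (k : ℕ) : Integrable (fun u => ee u ^ k) nu := by
  refine (integrable_const (1 : ℝ)).mono' (continuous_ee.pow k).aestronglyMeasurable ?_
  refine Filter.Eventually.of_forall fun u => ?_
  rw [Real.norm_eq_abs, abs_of_nonneg (pow_nonneg (ee_pos u).le k)]
  exact pow_le_one₀ (ee_pos u).le (ee_le_one u)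

lemma integrable_m1 (k : ℕ) : Integrable (fun u => qu u * ee u ^ k) nu := by
  refine integrable_qu.mono' (continuous_qu.mul (continuous_ee.pow k)).aestronglyMeasurable ?_
  refine Filter.Eventually.of_forall fun u => ?_
  rw [Real.norm_eq_abs, abs_of_nonneg (mul_nonneg (qu_nonneg u) (pow_nonneg (ee_pos u).le k))]
  exact mul_le_of_le_one_right (qu_nonneg u) (pow_le_one₀ (ee_pos u).le (ee_le_one u))

/-- `qu ^ a * ee ^ k` for `a ≤ 1`. -/
noncomputable def m1 : Bool → ℕ → ℝ → ℝ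
  | false, k, u => ee u ^ k
  | true, k, u => qu u * ee u ^ k

/-- The value of the integral. -/
noncomputable def v1 : Bool → ℕ → ℝ
  | false, k => rk k
  | true, k => rk k ^ 3 / 2

lemma integral_m1' (a : Bool) (k : ℕ) : ∫ u, m1 a k u ∂nu = v1 a k := by
  cases a
  · exact integral_mom0 k
  · exact integral_mom1 k

lemma integrable_m1' (a : Bool) (k : ℕ) : Integrable (m1 a k) nu := by
  cases a
  · exact integrable_m0 k
  · exact integrable_m1 k

/-- A monomial of the two variables. -/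
noncomputable def mon (a : Bool) (k : ℕ) (b : Bool) (l : ℕ) (p : ℝ × ℝ) : ℝ :=
  m1 a k p.1 * m1 b l p.2

lemma integrable_mon (a : Bool) (k : ℕ) (b : Bool) (l : ℕ) :
    Integrable (mon a k b l) (nu.prod nu) :=
  (integrable_m1' a k).mul_prod (integrable_m1' b l)

lemma integral_mon (a : Bool) (k : ℕ) (b : Bool) (l : ℕ) :
    ∫ p, mon a k b l p ∂(nu.prod nu) = v1 a k * v1 b l := by
  rw [← integral_m1' a k, ← integral_m1' b l]
  exact integral_prod_mul (m1 a k) (m1 b l)

/-- Evaluation of a formal linear combination of monomials. -/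
noncomputable def ev (L : List (ℝ × Bool × ℕ × Bool × ℕ)) (p : ℝ × ℝ) : ℝ :=
  (L.map fun c => c.1 * mon c.2.1 c.2.2.1 c.2.2.2.1 c.2.2.2.2 p).sum

/-- The integral of a formal linear combination. -/
noncomputable def iv (L : List (ℝ × Bool × ℕ × Bool × ℕ)) : ℝ :=
  (L.map fun c => c.1 * (v1 c.2.1 c.2.2.1 * v1 c.2.2.2.1 c.2.2.2.2)).sum

lemma ev_int (L : List (ℝ × Bool × ℕ × Bool × ℕ)) :
    Integrable (ev L) (nu.prod nu) ∧ ∫ p, ev L p ∂(nu.prod nu) = iv L := by
  induction L with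
  | nil =>
    constructor
    · have : ev [] = fun _ => (0 : ℝ) := by funext p; simp [ev]
      rw [this]; exact integrable_zero _ _ _
    · simp [ev, iv]
  | cons c L ih =>
    have h1 : ev (c :: L) = fun p => c.1 * mon c.2.1 c.2.2.1 c.2.2.2.1 c.2.2.2.2 p + ev L p := by
      funext p; simp [ev]
    have h2 : iv (c :: L) = c.1 * (v1 c.2.1 c.2.2.1 * v1 c.2.2.2.1 c.2.2.2.2) + iv L := by
      simp [iv]
    have h3 := (integrable_mon c.2.1 c.2.2.1 c.2.2.2.1 c.2.2.2.2).const_mul c.1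
    constructor
    · rw [h1]; exact h3.add ih.1
    · rw [h1, h2, integral_add h3 ih.1, integral_const_mul, integral_mon, ih.2]

end Pool.Agent.Lib.MP_589a62_gt.Full
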