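import Pool.Agent.Lib.MP_589a62_gt.Full.GamP

/-!
# `m = 4`: the star inequality

For a row: `p_j ≥ 0`, `∑ p_j = 1`, `t_j ∈ [4,5]`, `p_j t_j ≤ 1` imply
`∑ p_j γ_4(t_j) ≤ κ ∑ p_j (1 - p_j t_j)` for `κ ≥ 0.0598`.
-/

set_option autoImplicit false

namespace Pool.Agent.Lib.MP_589a62_gt.Full.Star4

open Finset Real Large

variable {ι : Type*}

/-- `ψ(q) = q (1-q) (0.94 + 0.06 q)`. -/
noncomputable def psi (q : ℝ) : ℝ := q * (1 - q) * (0.94 + 0.06 * q)

theorem psi_zero : psi 0 = 0 := by simp [psi]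
theorem psi_one : psi 1 = 0 := by simp [psi]

theorem psi_nonneg (q : ℝ) (h0 : 0 ≤ q) (h1 : q ≤ 1) : 0 ≤ psi q := by
  unfold psi
  have : 0 ≤ 1 - q := by linarith
  positivity

theorem psi_add_le (a b : ℝ) (ha : 0 ≤ a) (hb : 0 ≤ b) : psi (a + b) ≤ psi a + psi b := by
  unfold psi
  have h1 := mul_nonneg ha hb
  have h2 := mul_nonneg h1 (add_nonneg ha hb)
  nlinarith

theorem psi_add_le' (a b : ℝ) (ha : a ≤ 1) (hb : b ≤ 1) (hab : 1 ≤ a + b) :
    psi (a + b - 1) ≤ psi a + psi b := by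
  unfold psi
  have h1 : 0 ≤ (1 - a) * (1 - b) := mul_nonneg (by linarith) (by linarith)
  have h2 : 0 ≤ (1 - a) * (1 - b) * (1 - ((1 - a) + (1 - b))) := mul_nonneg h1 (by linarith)
  nlinarith

/-- periodic extension. -/
noncomputable def pg (y : ℝ) : ℝ := psi (Int.fract y)

theorem pg_sub (a b : ℝ) : pg (a + b) ≤ pg a + pg b := by
  unfold pg
  have ha0 := Int.fract_nonneg a
  have ha1 := (Int.fract_lt_one a).le
  have hb0 := Int.fract_nonneg b
  have hb1 := (Int.fract_lt_one b).le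
  have hfr : Int.fract (a + b) = Int.fract (Int.fract a + Int.fract b) := by
    have e : a + b = (Int.fract a + Int.fract b) + ((⌊a⌋ + ⌊b⌋ : ℤ) : ℝ) := by
      have h1 := Int.floor_add_fract a
      have h2 := Int.floor_add_fract b
      push_cast
      linarith
    rw [e, Int.fract_add_intCast]
  by_cases h : Int.fract a + Int.fract b < 1
  · have : Int.fract (Int.fract a + Int.fract b) = Int.fract a + Int.fract b := by
      rw [Int.fract_eq_self]; exact ⟨by linarith, h⟩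
    rw [hfr, this]
    exact psi_add_le _ _ ha0 hb0
  · have h' : 1 ≤ Int.fract a + Int.fract b := not_lt.mp h
    have : Int.fract (Int.fract a + Int.fract b) = Int.fract a + Int.fract b - 1 := by
      rw [Int.fract_eq_iff]
      refine ⟨by linarith, ?_, 1, by push_cast; ring⟩
      have := Int.fract_lt_one a
      have := Int.fract_lt_one b
      linarith
    rw [hfr, this]
    exact psi_add_le' _ _ ha1 hb1 h'

theorem pg_of_mem (q : ℝ) (h0 : 0 ≤ q) (h1 : q ≤ 1) : pg q = psi q := by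
  unfold pg
  rcases h1.eq_or_lt with h | h
  · subst h; simp [psi]
  · rw [Int.fract_eq_self.mpr ⟨h0, h⟩]

theorem pg_sum (S : Finset ι) (q : ι → ℝ) : pg (∑ j ∈ S, q j) ≤ ∑ j ∈ S, pg (q j) := by
  classical
  induction S using Finset.induction_on with
  | empty => simp [pg, psi]
  | insert a S ha ih =>
      rw [Finset.sum_insert ha, Finset.sum_insert ha]
      exact (pg_sub _ _).trans (by linarith)

/-- One small term: `γ(t) + κ q t / 5 - κ ≤ -κ (1-q)(0.94 + 0.06 q)`, `κ = 0.0598`. -/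
theorem small_term (t q : ℝ) (ht4 : 4 ≤ t) (ht5 : t ≤ 5) (hq0 : 0 ≤ q) (hq1 : q ≤ 1) :
    gam 4 t - 0.0598 * (1 - q / 5 * t) ≤ - 0.0598 * ((1 - q) * (0.94 + 0.06 * q)) := by
  have h := gam_four t (t - 4) (by linarith) (by linarith) (by ring)
  set u := 5 - t with hu
  have hu0 : 0 ≤ u := by linarith
  have hu1 : u ≤ 1 := by linarith
  have e1 : t - 4 = 1 - u := by rw [hu]; ring
  have e2 : 1 - (t - 4) = u := by rw [hu]; ring
  rw [e2, e1] at h
  have e3 : t = 5 - u := by rw [hu]; ring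
  have h2 : (1 - u) * u * (0.01161 + 0.00183 * u) ≤ 0.01161 * u - 0.00978 * u ^ 2 := by
    have : 0 ≤ u ^ 3 := by positivity
    nlinarith
  have h3 : 0 ≤ (0.0989 * u - 0.0587 * (1 - q)) ^ 2 := sq_nonneg _
  have h4 : 0 ≤ q * u := mul_nonneg hq0 hu0
  have h5 : 0 ≤ (1 - q) * u := mul_nonneg (by linarith) hu0
  have h6 : 0 ≤ (1 - q) ^ 2 := sq_nonneg _
  have h7 : 0 ≤ u ^ 2 := sq_nonneg _
  rw [e3] at h ⊢
  nlinarith

theorem pg_add_int (y : ℝ) (n : ℤ) : pg (y + n) = pg y := by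
  unfold pg
  rw [Int.fract_add_intCast]

theorem log_five_four : Real.log 5 - Real.log 4 ≤ 0.2232143 := by
  rw [← Real.log_div (by norm_num) (by norm_num)]
  have := log_le_pade (1 / 4) (by norm_num)
  norm_num at this
  linarith

/-- One big term. -/
theorem big_term (t p : ℝ) (ht4 : 4 ≤ t) (hp : 1 / 5 ≤ p) (hpt : p * t ≤ 1) :
    gam 4 t - 0.0598 * (1 - p * t) ≤ gam 4 (1 / p) := by
  have hp0 : 0 < p := by linarith
  have ht0 : 0 < t := by linarith
  set t' := 1 / p with ht'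
  have ht'0 : 0 < t' := by positivity
  have hpt' : p * t' = 1 := by rw [ht']; field_simp
  have htt' : t ≤ t' := by
    rw [ht', le_div_iff₀ hp0]; linarith
  have ht'5 : t' ≤ 5 := by
    rw [ht', div_le_iff₀ hp0]; linarith
  have h1 : Real.log t - Real.log t' ≤ t / t' - 1 := by
    rw [← Real.log_div ht0.ne' ht'0.ne']
    exact Real.log_le_sub_one_of_pos (by positivity)
  have h2 : t / t' = p * t := by
    rw [ht']; field_simp
  have h3 := log_five_four
  have h4 : gam 4 t - gam 4 t' = (1 / 2) * (Real.log t - Real.log t'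
      + (t' - t) * (Real.log 5 - Real.log 4)) := by
    unfold gam
    have : (((4 : ℕ) : ℝ) + 1) = 5 := by norm_num
    rw [this]
    push_cast
    ring
  rw [h2] at h1
  have h5 : (t' - t) * (Real.log 5 - Real.log 4) ≤ (t' - t) * 0.2232143 :=
    mul_le_mul_of_nonneg_left h3 (by linarith)
  -- 1 - p t = p (t' - t)
  have h6 : 1 - p * t = p * (t' - t) := by rw [mul_sub, hpt']
  have h7 : 1 / 5 * (t' - t) ≤ p * (t' - t) := mul_le_mul_of_nonneg_right hp (by linarith)
  rw [h6] at *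
  nlinarith

/-- The final one-variable inequality. -/
theorem final_ineq (k : ℕ) (hk0 : 1 ≤ k) (hk5 : k ≤ 5) (P : ℝ) (h1 : (k : ℝ) / 5 ≤ P)
    (h2 : P ≤ (k : ℝ) / 4) (hP1 : P ≤ 1) :
    P * gam 4 (k / P) ≤ 0.01196 * psi (1 - (5 * P - k)) := by
  have hk0' : (1 : ℝ) ≤ k := by exact_mod_cast hk0
  have hP : 0 < P := by linarith
  set v := 5 * P - k with hv
  have hv0 : 0 ≤ v := by linarith
  have hPv : P = (k + v) / 5 := by rw [hv]; ring
  have hkv : 0 < (k : ℝ) + v := by linarith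
  have hk4v : 0 ≤ (k : ℝ) - 4 * v := by rw [hv]; linarith
  have hs0 : 0 ≤ (k : ℝ) / P - 4 := by
    rw [sub_nonneg, le_div_iff₀ hP]; linarith
  have hs1 : (k : ℝ) / P - 4 ≤ 1 := by
    have : (k : ℝ) / P ≤ 5 := by rw [div_le_iff₀ hP]; linarith
    linarith
  have h := gam_four (k / P) (k / P - 4) hs0 hs1 (by ring)
  have h3 := mul_le_mul_of_nonneg_left h hP.le
  refine h3.trans ?_
  have e1 : P * ((k / P - 4) * (1 - (k / P - 4)) * (0.01161 + 0.00183 * (1 - (k / P - 4)))) =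
      v * ((k - 4 * v) * (0.01161 * (k + v) + 0.00915 * v) / (k + v) ^ 2) := by
    rw [hPv]
    field_simp
    ring
  have e2 : psi (1 - v) = v * ((1 - v) * (1 - 0.06 * v)) := by unfold psi; ring
  rw [e1, e2]
  have key : (k - 4 * v) * (0.01161 * (k + v) + 0.00915 * v) / (k + v) ^ 2 ≤
      0.01196 * ((1 - v) * (1 - 0.06 * v)) ∨ v = 0 := by
    rcases hv0.eq_or_lt with hv00 | hvpos
    · right; exact hv00.symm
    left
    rw [div_le_iff₀ (by positivity)]
    have hk5v : k + v ≤ 5 := by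
      have : 5 * P ≤ 5 := by linarith
      linarith
    interval_cases k
    · push_cast at *
      nlinarith [mul_nonneg hv0 hv0, mul_nonneg (mul_nonneg hv0 hv0) hv0, mul_nonneg hv0 hk4v]
    · push_cast at *
      nlinarith [mul_nonneg hv0 hv0, mul_nonneg (mul_nonneg hv0 hv0) hv0, mul_nonneg hv0 hk4v]
    · push_cast at *
      nlinarith [mul_nonneg hv0 hv0, mul_nonneg (mul_nonneg hv0 hv0) hv0, mul_nonneg hv0 hk4v]
    · push_cast at *
      have hv1 : 0 ≤ 1 - v := by linarith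
      nlinarith [mul_nonneg hv0 hv0, mul_nonneg (mul_nonneg hv0 hv0) hv0, mul_nonneg hv0 hk4v,
        mul_nonneg hv1 hv0, mul_nonneg (mul_nonneg hv0 hv0) hv1]
    · push_cast at *
      linarith
  rcases key with h | h
  · have := mul_le_mul_of_nonneg_left h hv0
    linarith
  · rw [h]; simp

/-- **The star inequality, `m = 4`**, `κ = 0.0598`. -/
theorem star_four_aux [DecidableEq ι] (S : Finset ι) (p t : ι → ℝ) (hp : ∀ j ∈ S, 0 ≤ p j)
    (ht4 : ∀ j ∈ S, 4 ≤ t j) (ht5 : ∀ j ∈ S, t j ≤ 5) (hpt : ∀ j ∈ S, p j * t j ≤ 1)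
    (hsum : ∑ j ∈ S, p j = 1) :
    ∑ j ∈ S, p j * (gam 4 (t j) - 0.0598 * (1 - p j * t j)) ≤ 0 := by
  classical
  set B := S.filter (fun j => 1 / 5 ≤ p j) with hB
  set C := S.filter (fun j => ¬ 1 / 5 ≤ p j) with hC
  have hsplit : ∀ g : ι → ℝ, ∑ j ∈ S, g j = ∑ j ∈ B, g j + ∑ j ∈ C, g j := fun g =>
    (Finset.sum_filter_add_sum_filter_not S _ g).symm
  have hBS : ∀ j ∈ B, j ∈ S ∧ 1 / 5 ≤ p j := fun j hj => by
    rw [hB, Finset.mem_filter] at hj; exact hj
  have hCS : ∀ j ∈ C, j ∈ S ∧ p j < 1 / 5 := fun j hj => by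
    rw [hC, Finset.mem_filter] at hj; exact ⟨hj.1, not_le.mp hj.2⟩
  have hB4 : ∀ j ∈ B, p j ≤ 1 / 4 := by
    intro j hj
    have h1 := hpt j (hBS j hj).1
    have h2 := ht4 j (hBS j hj).1
    have h3 := hp j (hBS j hj).1
    nlinarith
  set P := ∑ j ∈ B, p j with hP
  have hPC : P + ∑ j ∈ C, p j = 1 := by rw [hP, ← hsplit, hsum]
  have hC0 : 0 ≤ ∑ j ∈ C, p j := Finset.sum_nonneg fun j hj => hp j (hCS j hj).1
  have hP1 : P ≤ 1 := by linarith
  -- small terms
  have hsmall : ∑ j ∈ C, p j * (gam 4 (t j) - 0.0598 * (1 - p j * t j)) ≤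
      - 0.01196 * ∑ j ∈ C, psi (5 * p j) := by
    rw [Finset.mul_sum]
    refine Finset.sum_le_sum fun j hj => ?_
    have h1 := small_term (t j) (5 * p j) (ht4 j (hCS j hj).1) (ht5 j (hCS j hj).1)
      (by linarith [hp j (hCS j hj).1]) (by linarith [(hCS j hj).2])
    have h2 := mul_le_mul_of_nonneg_left h1 (hp j (hCS j hj).1)
    have e : 5 * p j / 5 * t j = p j * t j := by ring
    rw [e] at h2
    refine h2.trans (le_of_eq ?_)
    unfold psi
    ring
  have hpg : pg (5 * ∑ j ∈ C, p j) ≤ ∑ j ∈ C, psi (5 * p j) := by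
    rw [Finset.mul_sum]
    refine (pg_sum C _).trans (le_of_eq ?_)
    refine Finset.sum_congr rfl fun j hj => ?_
    rw [pg_of_mem _ (by linarith [hp j (hCS j hj).1]) (by linarith [(hCS j hj).2])]
  -- big terms
  have hbig : ∑ j ∈ B, p j * (gam 4 (t j) - 0.0598 * (1 - p j * t j)) ≤
      ∑ j ∈ B, Large.gap 4 (p j) := by
    refine Finset.sum_le_sum fun j hj => ?_
    have hpj : 0 < p j := by linarith [(hBS j hj).2]
    rw [gap_eq 4 (p j) hpj]
    exact mul_le_mul_of_nonneg_left (big_term (t j) (p j) (ht4 j (hBS j hj).1) (hBS j hj).2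
      (hpt j (hBS j hj).1)) hpj.le
  rw [hsplit]
  rcases Nat.eq_zero_or_pos B.card with hk | hk
  · -- no big terms
    have hBe : B = ∅ := Finset.card_eq_zero.mp hk
    have h0 : ∑ j ∈ B, p j * (gam 4 (t j) - 0.0598 * (1 - p j * t j)) = 0 := by
      rw [hBe]; simp
    have h1 : 0 ≤ ∑ j ∈ C, psi (5 * p j) := Finset.sum_nonneg fun j hj =>
      psi_nonneg _ (by linarith [hp j (hCS j hj).1]) (by linarith [(hCS j hj).2])
    rw [h0]
    linarith
  · have hne : B.Nonempty := Finset.card_pos.mp hk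
    have hkpos : (0 : ℝ) < B.card := by exact_mod_cast hk
    have hlow : (B.card : ℝ) / 5 ≤ P := by
      have : ∑ j ∈ B, (1 / 5 : ℝ) ≤ P := Finset.sum_le_sum fun j hj => (hBS j hj).2
      rw [Finset.sum_const, nsmul_eq_mul] at this
      linarith
    have hup : P ≤ (B.card : ℝ) / 4 := by
      have : P ≤ ∑ j ∈ B, (1 / 4 : ℝ) := Finset.sum_le_sum fun j hj => hB4 j hj
      rw [Finset.sum_const, nsmul_eq_mul] at this
      linarith
    have hk5 : B.card ≤ 5 := by
      have : (B.card : ℝ) ≤ 5 := by linarith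
      exact_mod_cast this
    have hPpos : 0 < P := by
      have : (0 : ℝ) < (B.card : ℝ) / 5 := by positivity
      linarith
    have hfin := final_ineq B.card hk hk5 P hlow hup hP1
    have hjen : ∑ j ∈ B, Large.gap 4 (p j) ≤ P * gam 4 (B.card / P) := by
      exact gap_jensen 4 B p (fun j hj => by linarith [(hBS j hj).2]) hne
    -- periodicity
    have hper : pg (5 * ∑ j ∈ C, p j) = psi (1 - (5 * P - B.card)) := by
      have e1 : 5 * ∑ j ∈ C, p j = (1 - (5 * P - B.card)) + ((4 - (B.card : ℤ) : ℤ) : ℝ) := by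
        push_cast
        linarith
      rw [e1, pg_add_int]
      rcases le_or_gt B.card 4 with h4 | h4
      · have : (B.card : ℝ) ≤ 4 := by exact_mod_cast h4
        rw [pg_of_mem _ (by linarith) (by linarith)]
      · have h5 : B.card = 5 := by omega
        have h5' : (B.card : ℝ) = 5 := by exact_mod_cast h5
        have : P = 1 := by linarith
        rw [pg_of_mem _ (by linarith) (by linarith)]
    rw [hper] at hpg
    linarith

theorem star_four [DecidableEq ι] (S : Finset ι) (p t : ι → ℝ) (hp : ∀ j ∈ S, 0 ≤ p j)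
    (ht4 : ∀ j ∈ S, 4 ≤ t j) (ht5 : ∀ j ∈ S, t j ≤ 5) (hpt : ∀ j ∈ S, p j * t j ≤ 1)
    (hsum : ∑ j ∈ S, p j = 1) (κ : ℝ) (hκ : 0.0598 ≤ κ) :
    ∑ j ∈ S, p j * gam 4 (t j) ≤ κ * ∑ j ∈ S, p j * (1 - p j * t j) := by
  have h := star_four_aux S p t hp ht4 ht5 hpt hsum
  have h1 : ∑ j ∈ S, p j * (gam 4 (t j) - 0.0598 * (1 - p j * t j)) =
      ∑ j ∈ S, p j * gam 4 (t j) - 0.0598 * ∑ j ∈ S, p j * (1 - p j * t j) := by
    rw [Finset.mul_sum, ← Finset.sum_sub_distrib]
    exact Finset.sum_congr rfl fun j _ => by ring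
  rw [h1] at h
  have h2 : 0 ≤ ∑ j ∈ S, p j * (1 - p j * t j) :=
    Finset.sum_nonneg fun j hj => mul_nonneg (hp j hj) (by linarith [hpt j hj])
  nlinarith

end Pool.Agent.Lib.MP_589a62_gt.Full.Star4
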